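import Pool.Agent.H78.MIC.GenT

/-!
# No cells from the facts of a class, joint properties

`ExtX`: a joint property of a cell and the numbers of the local theorem: a further property and the
absence of a conclusion. `MicX X Qc PB n K h`: the local theorem in this form (for the `B` with
`PB B`). `ExtX.nb`: the property for all slopes near to the given ones. `micX_cover`: the constants
are uniform for bounded slopes.

`FactX`: what a class has to give; `evX_false`: then there are no cells with small errors.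
`EvP.cases`: finitely many kinds of cells.
-/

set_option autoImplicit false

namespace Pool.STAT

open Finset MvPolynomial
open Pool.Agent.H49.Ent Pool.Agent.H32.Dense Pool.STK Pool.KS3 Pool.KA Pool.KSAT Pool.PB Pool.GEN
open Pool.K2S Pool.S6C
open Pool.LEV (Law)
open Pool.STR (Affn Nw JCB NfB NoJB2)
open CLO Pool.MIC6

/-- **A joint property of a cell**: `X B lam gam n J a₀ w₀ z M Q K' η' κ C₁ D q`. -/
abbrev ExtX : Type 1 := (B : ℕ) → (lam gam : ℕ → ℝ) → (n J a₀ w₀ z M Q K' : ℕ) →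
  (η' κ C₁ : ℝ) → (D : NDat2) → (D.Ω → ℝ) → Prop

/-- The property is weaker for larger `η'`, `κ`, `C₁` and smaller `Q`, `K'`. -/
structure ExtX.Mono (X : ExtX) : Prop where
  mono : ∀ {B : ℕ} {lam gam : ℕ → ℝ} {n J a₀ w₀ z M Q Q' K' K'' : ℕ} {η η' κ κ' C₁ C₁' : ℝ}
    {D : NDat2} {q : D.Ω → ℝ}, IsLaw q → Q' ≤ Q → K'' ≤ K' → η ≤ η' → κ ≤ κ' → C₁ ≤ C₁' →
    X B lam gam n J a₀ w₀ z M Q K' η κ C₁ D q → X B lam gam n J a₀ w₀ z M Q' K'' η' κ' C₁' D q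

theorem ExtX.Mono.and {X Y : ExtX} (h : X.Mono) (h' : Y.Mono) :
    ExtX.Mono fun B lam gam n J a₀ w₀ z M Q K' η' κ C₁ D q =>
      X B lam gam n J a₀ w₀ z M Q K' η' κ C₁ D q ∧ Y B lam gam n J a₀ w₀ z M Q K' η' κ C₁ D q :=
  ⟨fun hq h1 h2 h3 h4 h5 h6 => ⟨h.mono hq h1 h2 h3 h4 h5 h6.1, h'.mono hq h1 h2 h3 h4 h5 h6.2⟩⟩

/-- A further property. -/
def ExtX.ofC (Φ : ExtC) (R : ℕ) : ExtX := fun _ _ _ n J a₀ w₀ z M _ _ _ κ C₁ D q =>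
  Φ n J a₀ w₀ z M R κ C₁ D q

theorem ExtX.ofC_mono {Φ : ExtC} (hΦ : Φ.Mono) (R : ℕ) : (ExtX.ofC Φ R).Mono :=
  ⟨fun _ _ _ _ h4 h5 h6 => hΦ.mono h4 h5 h6⟩

/-- The absence of a conclusion. -/
def ExtX.not (Ψ : ConC) : ExtX := fun _ _ _ n J a₀ w₀ z M _ K' η' _ _ D q =>
  ¬ Ψ n J a₀ w₀ z M K' η' D q

theorem ExtX.not_mono {Ψ : ConC} (hΨ : Ψ.Mono) : (ExtX.not Ψ).Mono :=
  ⟨fun _ _ h2 h3 _ _ h6 h7 => h6 (hΨ.mono h2 h3 h7)⟩

/-- The property for all slopes near to the given ones. -/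
def ExtX.nb (X : ExtX) : ExtX := fun B lam gam n J a₀ w₀ z M Q K' η' κ C₁ D q =>
  ∀ lam' gam' : ℕ → ℝ, (∀ l, 1 ≤ lam' l) → (∀ l, 0 ≤ gam' l) →
    (∀ l, 1 ≤ l → l ≤ n → |lam l - lam' l| * M ≤ 1) →
    (∀ l, 1 ≤ l → l ≤ n → |gam l - gam' l| * M ≤ 1) →
    X B lam' gam' n J a₀ w₀ z M Q K' η' κ C₁ D q

/-- A property which does not depend on the slopes. -/
theorem ExtX.nb_of {X : ExtX} (hX : ∀ {B : ℕ} {lam gam lam' gam' : ℕ → ℝ}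
    {n J a₀ w₀ z M Q K' : ℕ} {η' κ C₁ : ℝ} {D : NDat2} {q : D.Ω → ℝ},
    X B lam gam n J a₀ w₀ z M Q K' η' κ C₁ D q → X B lam' gam' n J a₀ w₀ z M Q K' η' κ C₁ D q)
    {B : ℕ} {lam gam : ℕ → ℝ} {n J a₀ w₀ z M Q K' : ℕ} {η' κ C₁ : ℝ} {D : NDat2} {q : D.Ω → ℝ}
    (h : X B lam gam n J a₀ w₀ z M Q K' η' κ C₁ D q) :
    X.nb B lam gam n J a₀ w₀ z M Q K' η' κ C₁ D q := fun _ _ _ _ _ _ => hX h

theorem ExtX.nb_and {X Y : ExtX} {B : ℕ} {lam gam : ℕ → ℝ} {n J a₀ w₀ z M Q K' : ℕ}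
    {η' κ C₁ : ℝ} {D : NDat2} {q : D.Ω → ℝ} (h : X.nb B lam gam n J a₀ w₀ z M Q K' η' κ C₁ D q)
    (h' : Y.nb B lam gam n J a₀ w₀ z M Q K' η' κ C₁ D q) :
    ExtX.nb (fun B lam gam n J a₀ w₀ z M Q K' η' κ C₁ D q =>
      X B lam gam n J a₀ w₀ z M Q K' η' κ C₁ D q ∧ Y B lam gam n J a₀ w₀ z M Q K' η' κ C₁ D q)
      B lam gam n J a₀ w₀ z M Q K' η' κ C₁ D q :=
  fun lam' gam' h1 h2 h3 h4 => ⟨h lam' gam' h1 h2 h3 h4, h' lam' gam' h1 h2 h3 h4⟩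

/-- The local theorem for given slopes and given constants. -/
def MicAtX (X : ExtX) (n K B : ℕ) (lam gam : ℕ → ℝ) (C₁ h : ℝ) (M Q K' : ℕ)
    (η' κ ϖ : ℝ) (z₀ : ℕ) : Prop :=
  ∀ (J a₀ w₀ z : ℕ) (D : NDat2) (q : D.Ω → ℝ), z₀ ≤ z →
    D.Ok2 n K J a₀ w₀ z M lam gam κ C₁ q → D.NF n z M B gam h C₁ ϖ q →
    X B lam gam n J a₀ w₀ z M Q K' η' κ C₁ D q → False

/-- **The local theorem**: no cells with the joint property `X`, for the slopes with the property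
`Qc`, coordinates `1, …, n`, labels of the class `K`, deficit `h`, the numbers `B` with `PB B`. -/
def MicX (X : ExtX) (Qc : CondN) (PB : ℕ → Prop) (n K : ℕ) (h : ℝ) : Prop :=
  ∀ (B : ℕ) (lam gam : ℕ → ℝ) (C₁ : ℝ), 1 ≤ B → PB B → (∀ l, 1 ≤ lam l) →
    (∀ l, 0 ≤ gam l) → 0 < gam n → 1 ≤ C₁ → Qc lam gam →
    ∃ (M Q K' : ℕ) (η' κ ϖ : ℝ) (z₀ : ℕ), 0 < η' ∧ 0 < κ ∧ 0 < ϖ ∧
      MicAtX X n K B lam gam C₁ h M Q K' η' κ ϖ z₀

/-- The local theorem with a conclusion. -/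
theorem MicK.toX {Φ : ExtC} {Ψ : ConC} {Qc : CondN} {PB : ℕ → Prop} {n K : ℕ} {h : ℝ} (R : ℕ)
    (H : MicK Φ Ψ Qc n K h) : MicX (fun B lam gam n J a₀ w₀ z M Q K' η' κ C₁ D q =>
      ExtX.ofC Φ R B lam gam n J a₀ w₀ z M Q K' η' κ C₁ D q ∧
      ExtX.not Ψ B lam gam n J a₀ w₀ z M Q K' η' κ C₁ D q) Qc PB n K h := by
  intro B lam gam C₁ hB _ h1 h2 h3 h4 h5
  obtain ⟨M, K', η', κ, ϖ, z₀, a1, a2, a3, a4⟩ := H B R lam gam C₁ hB h1 h2 h3 h4 h5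
  exact ⟨M, 0, K', η', κ, ϖ, z₀, a1, a2, a3, fun J a₀ w₀ z D q hz hO hN hX =>
    hX.2 (a4 J a₀ w₀ z D q hz hO hX.1 hN)⟩

theorem MicX.mono {X X' : ExtX} {Qc Qc' : CondN} {PB PB' : ℕ → Prop} {n K : ℕ} {h : ℝ}
    (H : MicX X Qc PB n K h) (hX : ∀ {B : ℕ} {lam gam : ℕ → ℝ} {J a₀ w₀ z M Q K' : ℕ}
      {η' κ C₁ : ℝ} {D : NDat2} {q : D.Ω → ℝ}, IsLaw q → Qc' lam gam →
      X' B lam gam n J a₀ w₀ z M Q K' η' κ C₁ D q → X B lam gam n J a₀ w₀ z M Q K' η' κ C₁ D q)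
    (hQ : ∀ lam gam, Qc' lam gam → Qc lam gam) (hPB : ∀ B, PB' B → PB B) :
    MicX X' Qc' PB' n K h := by
  intro B lam gam C₁ hB hB' h1 h2 h3 h4 h5
  obtain ⟨M, Q, K', η', κ, ϖ, z₀, a1, a2, a3, a4⟩ := H B lam gam C₁ hB (hPB B hB') h1 h2 h3 h4
    (hQ _ _ h5)
  exact ⟨M, Q, K', η', κ, ϖ, z₀, a1, a2, a3, fun J a₀ w₀ z D q hz hO hN hX' =>
    a4 J a₀ w₀ z D q hz hO hN (hX hO.isLaw h5 hX')⟩

/-- Two kinds of slopes. -/
theorem MicX.or {X : ExtX} {Qc Qc' : CondN} {PB : ℕ → Prop} {n K : ℕ} {h : ℝ}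
    (H : MicX X Qc PB n K h) (H' : MicX X Qc' PB n K h) :
    MicX X (fun lam gam => Qc lam gam ∨ Qc' lam gam) PB n K h := by
  intro B lam gam C₁ hB hB' h1 h2 h3 h4 h5
  rcases h5 with h5 | h5
  · exact H B lam gam C₁ hB hB' h1 h2 h3 h4 h5
  · exact H' B lam gam C₁ hB hB' h1 h2 h3 h4 h5

/-- **The constants of the local theorem are uniform for bounded slopes.** -/
theorem micX_cover {X : ExtX} (hX : X.Mono) {Qc : CondN} {PB : ℕ → Prop} {n K B : ℕ}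
    {C₁ h Λ β : ℝ} (hQ : Qc.Cl n) (hn : 1 ≤ n) (hB : 1 ≤ B) (hPB : PB B) (hC₁ : 1 ≤ C₁)
    (hh1 : h ≤ 1) (hβ : 0 < β) (H : MicX X Qc PB n K h) :
    ∃ (M₀ Q K' : ℕ) (η' κ ϖ : ℝ) (z₀ : ℕ), 0 < η' ∧ 0 < κ ∧ 0 < ϖ ∧
      ∀ lam gam : ℕ → ℝ, (∀ l, 1 ≤ lam l) → (∀ l, lam l ≤ Λ) → (∀ l, 0 ≤ gam l) →
        (∀ l, gam l ≤ Λ) → β ≤ gam n → Qc lam gam →
        ∃ M ≤ M₀, MicAtX X.nb n K B lam gam C₁ h M Q K' η' κ ϖ z₀ := by
  classical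
  -- the space of the parameters
  obtain ⟨ext, hext⟩ : ∃ ext : ℝ → (Fin (n + 1) → ℝ) → ℕ → ℝ, ext = fun (c : ℝ)
      (u : Fin (n + 1) → ℝ) (l : ℕ) => if hl : l < n + 1 then u ⟨l, hl⟩ else c := ⟨_, rfl⟩
  have ext_lt : ∀ c u l (hl : l < n + 1), ext c u l = u ⟨l, hl⟩ := by
    intro c u l hl
    rw [hext]
    exact dif_pos hl
  have ext_ge : ∀ (c : ℝ) u l, ¬ l < n + 1 → ext c u l = c := by
    intro c u l hl
    rw [hext]
    exact dif_neg hl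
  have ext_cont : ∀ c, Continuous (ext c) := by
    intro c
    refine continuous_pi fun l => ?_
    by_cases hl : l < n + 1
    · have : (fun u => ext c u l) = fun u => u ⟨l, hl⟩ := by
        funext u
        exact ext_lt c u l hl
      rw [this]
      exact continuous_apply _
    · have : (fun u => ext c u l) = fun _ => c := by
        funext u
        exact ext_ge c u l hl
      rw [this]
      exact continuous_const
  obtain ⟨Kc, hKc⟩ : ∃ Kc : Set ((Fin (n + 1) → ℝ) × (Fin (n + 1) → ℝ)), Kc =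
      ((Set.Icc (fun _ : Fin (n + 1) => (1 : ℝ)) (fun _ => Λ)) ×ˢ
        (Set.Icc (fun l : Fin (n + 1) => if (l : ℕ) = n then β else 0) (fun _ => Λ))) ∩
        {x | Qc (ext 1 x.1) (ext 0 x.2)} := ⟨_, rfl⟩
  have hcomp : IsCompact Kc := by
    rw [hKc]
    refine (isCompact_Icc.prod isCompact_Icc).inter_right ?_
    exact hQ.cl.preimage (((ext_cont 1).comp continuous_fst).prodMk
      ((ext_cont 0).comp continuous_snd))
  have hx : ∀ x : (Fin (n + 1) → ℝ) × (Fin (n + 1) → ℝ), ∃ (M Q K' : ℕ) (η' κ ϖ : ℝ) (z₀ : ℕ),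
      0 < η' ∧ 0 < κ ∧ 0 < ϖ ∧ (x ∈ Kc →
        MicAtX X n K B (ext 1 x.1) (ext 0 x.2) (C₁ + 2) h M Q K' η' κ ϖ z₀) := by
    intro x
    by_cases hx : x ∈ Kc
    · rw [hKc] at hx
      obtain ⟨⟨⟨h1, h2⟩, ⟨h3, h4⟩⟩, h5⟩ := hx
      obtain ⟨M, Q, K', η', κ, ϖ, z₀, a1, a2, a3, a4⟩ := H B (ext 1 x.1) (ext 0 x.2) (C₁ + 2)
        hB hPB (fun l => by
        by_cases hl : l < n + 1
        · rw [ext_lt 1 x.1 l hl]
          exact h1 ⟨l, hl⟩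
        · rw [ext_ge 1 x.1 l hl]) (fun l => by
        by_cases hl : l < n + 1
        · rw [ext_lt 0 x.2 l hl]
          have := h3 ⟨l, hl⟩
          simp only at this
          refine le_trans ?_ this
          split_ifs
          · exact hβ.le
          · exact le_rfl
        · rw [ext_ge 0 x.2 l hl]) (by
        rw [ext_lt 0 x.2 n (Nat.lt_succ_self n)]
        have := h3 ⟨n, Nat.lt_succ_self n⟩
        simp only [if_true] at this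
        exact hβ.trans_le this) (by linarith only [hC₁]) h5
      exact ⟨M, Q, K', η', κ, ϖ, z₀, a1, a2, a3, fun _ => a4⟩
    · exact ⟨0, 0, 0, 1, 1, 1, 0, one_pos, one_pos, one_pos, fun h' => absurd h' hx⟩
  choose M Q K' η' κ ϖ z₀ a1 a2 a3 a4 using hx
  obtain ⟨t, ht, hcov⟩ := hcomp.elim_nhds_subcover
    (fun x => Metric.ball x (1 / ((M x : ℝ) + 1))) (fun x _ =>
      Metric.ball_mem_nhds x (by positivity))
  obtain ⟨cη, b1, c1⟩ := exists_pos_le t η' a1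
  obtain ⟨cκ, b2, c2⟩ := exists_pos_le t κ a2
  obtain ⟨cϖ, b3, c3⟩ := exists_pos_le t ϖ a3
  refine ⟨t.sup M, t.sup Q, t.sup K', cη, cκ, cϖ, max 1 (t.sup z₀), b1, b2, b3, ?_⟩
  intro lam gam l1 l2 g1 g2 g3 hq
  obtain ⟨y, hy⟩ : ∃ y : (Fin (n + 1) → ℝ) × (Fin (n + 1) → ℝ),
      y = (fun l : Fin (n + 1) => lam l, fun l : Fin (n + 1) => gam l) := ⟨_, rfl⟩
  have hyK : y ∈ Kc := by
    rw [hKc, hy]
    refine ⟨⟨⟨fun l => l1 l, fun l => l2 l⟩, ⟨fun l => ?_, fun l => g2 l⟩⟩, ?_⟩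
    · simp only
      split_ifs with hl
      · rw [hl]
        exact g3
      · exact g1 l
    · refine hQ.loc (fun l _ hl => ?_) (fun l _ hl => ?_) hq
      · exact ext_lt 1 _ l (by omega)
      · exact ext_lt 0 _ l (by omega)
  obtain ⟨x, hxt, hxy⟩ : ∃ x ∈ t, y ∈ Metric.ball x (1 / ((M x : ℝ) + 1)) := by
    have := hcov hyK
    simpa using this
  rw [Metric.mem_ball] at hxy
  have hxK : x ∈ Kc := ht x hxt
  have hM1 : (0 : ℝ) < M x + 1 := by positivity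
  have hd : ∀ u : ℝ, 0 ≤ u → u < 1 / ((M x : ℝ) + 1) → u * M x ≤ 1 := by
    intro u hu0 hu
    rw [lt_div_iff₀ hM1] at hu
    nlinarith only [hu0, hu, Nat.cast_nonneg (α := ℝ) (M x)]
  have hdl : ∀ l, 1 ≤ l → l ≤ n → |lam l - ext 1 x.1 l| * M x ≤ 1 := by
    intro l _ hl
    rw [ext_lt 1 x.1 l (by omega)]
    refine hd _ (abs_nonneg _) (lt_of_le_of_lt ?_ hxy)
    rw [hy, Prod.dist_eq]
    refine le_trans ?_ (le_max_left _ _)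
    have := dist_le_pi_dist (fun l : Fin (n + 1) => lam l) x.1 ⟨l, by omega⟩
    rw [Real.dist_eq] at this
    exact this
  have hdg : ∀ l, 1 ≤ l → l ≤ n → |gam l - ext 0 x.2 l| * M x ≤ 1 := by
    intro l _ hl
    rw [ext_lt 0 x.2 l (by omega)]
    refine hd _ (abs_nonneg _) (lt_of_le_of_lt ?_ hxy)
    rw [hy, Prod.dist_eq]
    refine le_trans ?_ (le_max_right _ _)
    have := dist_le_pi_dist (fun l : Fin (n + 1) => gam l) x.2 ⟨l, by omega⟩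
    rw [Real.dist_eq] at this
    exact this
  have hxK' := hxK
  rw [hKc] at hxK'
  obtain ⟨⟨⟨h1, -⟩, ⟨h3, -⟩⟩, -⟩ := hxK'
  refine ⟨M x, Finset.le_sup hxt, ?_⟩
  intro J a₀ w₀ z D q hz hO hN hL
  have hz1 : 1 ≤ z := (le_max_left _ _).trans hz
  have hz2 : z₀ x ≤ z := (Finset.le_sup hxt).trans ((le_max_right _ _).trans hz)
  have e1 : ∀ l, 1 ≤ ext 1 x.1 l := fun l => by
    by_cases hl : l < n + 1
    · rw [ext_lt 1 x.1 l hl]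
      exact h1 ⟨l, hl⟩
    · rw [ext_ge 1 x.1 l hl]
  have e2 : ∀ l, 0 ≤ ext 0 x.2 l := fun l => by
    by_cases hl : l < n + 1
    · rw [ext_lt 0 x.2 l hl]
      have := h3 ⟨l, hl⟩
      simp only at this
      refine le_trans ?_ this
      split_ifs
      · exact hβ.le
      · exact le_rfl
    · rw [ext_ge 0 x.2 l hl]
  have hO' := hO.pert (lam' := ext 1 x.1) (gam' := ext 0 x.2) (c2 x hxt) le_rfl hdl hdg e1 e2
  have hN' := hN.pert (gam' := ext 0 x.2) hO.isLaw (c3 x hxt) (a3 x) le_rfl hh1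
    (by linarith only [hC₁]) hz1 (hdg n hn le_rfl)
  exact a4 x hxK J a₀ w₀ z D q hz2 hO' hN' (hX.mono hO.isLaw (Finset.le_sup hxt)
    (Finset.le_sup hxt) (c1 x hxt) (c2 x hxt) (by linarith only)
    (hL (ext 1 x.1) (ext 0 x.2) e1 e2 hdl hdg))

/-! ### The contradiction -/

variable {Θ : Type*} {I : ℝ → Θ → Prop} {m n₀ : ℕ} {S : PCl m}

/-- **Finitely many kinds of cells.** -/
theorem EvP.cases {ι : Type*} [Finite ι] (hI : MonoI I) {f : Θ → ι} {Ψ : Θ → Prop}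
    (h : ∀ x, EvP (fun ε p => I ε p ∧ f p = x) Ψ) : EvP I Ψ := by
  classical
  cases nonempty_fintype ι
  choose ε h1 h2 using h
  obtain ⟨e, he, h3⟩ := exists_pos_le (Finset.univ : Finset ι) ε h1
  exact ⟨e, he, fun p hp => h2 (f p) p ⟨hI.mono hp (h3 _ (Finset.mem_univ _)), rfl⟩⟩

theorem MonoI.kind {ι : Type*} (hI : MonoI I) (f : Θ → ι) (x : ι) :
    MonoI fun ε p => I ε p ∧ f p = x := ⟨fun h1 h2 => ⟨hI.mono h1.1 h2, h1.2⟩⟩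

/-- The cells of one kind. -/
theorem EvP.kind {ι : Type*} {Ψ : Θ → Prop} (h : EvP I Ψ) (f : Θ → ι) (x : ι) :
    EvP (fun ε p => I ε p ∧ f p = x) fun p => Ψ p ∧ f p = x := by
  obtain ⟨ε, h1, h2⟩ := h
  exact ⟨ε, h1, fun p hp => ⟨h2 p hp.1, hp.2⟩⟩

/-- **The contradiction in a grid**, joint property. -/
theorem grid_falseX (hS : S.Ne) {G : RW m}
    {R : (J : ℕ) → (F : Fam m J) → GDat F → ℕ → ℕ → Type}
    {ρ : (J : ℕ) → (F : Fam m J) → (D : GDat F) → (i j : ℕ) → LnT F → R J F D i j} {X : ExtX}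
    {B Q K'' z₀ : ℕ} {lam gam : ℕ → ℝ} {C₁ h η' κ η : ℝ} (hζ : 0 < G.ζ)
    (mic : MicAtX X G.n G.K' B lam gam C₁ h G.M Q K'' η' κ η z₀)
    (grd : Lg S fun _ F A => ∃ D : GDat F, G.Ok F D A)
    (ok2 : FldW S G fun J F D q => (G.nd D (ρ J F D)).Ok2 G.n G.K' J (up G.α J) (up G.ϖ J)
      (up G.ζ J) G.M lam gam κ C₁ q)
    (nf : FldW S G fun J F D q => (G.nd D (ρ J F D)).NF G.n (up G.ζ J) G.M B gam h C₁ η q)
    (ext : FldW S G fun J F D q => X B lam gam G.n J (up G.α J) (up G.ϖ J) (up G.ζ J) G.M Q K''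
      η' κ C₁ (G.nd D (ρ J F D)) q) : False := by
  obtain ⟨c, hc, grd⟩ := grd
  obtain ⟨J₂, hJ₂⟩ := exists_nat_ge ((z₀ : ℝ) / G.ζ)
  obtain ⟨J, hJ, F, B', h1, D, hD⟩ := bas_real hS (one_pos.trans_le hc)
    ((ok2.and nf).and ext) grd J₂
  obtain ⟨⟨h2, h3⟩, h5⟩ := h1 D hD
  have hz : z₀ ≤ up G.ζ J := by
    have h8 : (J₂ : ℝ) ≤ J := by exact_mod_cast hJ
    have h9 : (z₀ : ℝ) / G.ζ ≤ J := hJ₂.trans h8
    rw [div_le_iff₀ hζ] at h9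
    have h10 : G.ζ * J ≤ up G.ζ J := up_ge G.ζ J
    have h11 : (z₀ : ℝ) ≤ up G.ζ J := by linarith only [h9, h10]
    exact_mod_cast h11
  exact mic J (up G.α J) (up G.ϖ J) (up G.ζ J) (G.nd D (ρ J F D)) _ hz h2 h3 h5

/-- **What a class has to give**, for the cells `I`, the joint property `X`, the condition `Qc` for
the slopes, the numbers `B` with `PB B` and the deficit `h`. -/
structure FactX (Kt : KitP m Θ n₀) (S : PCl m) (I : ℝ → Θ → Prop) (X : ExtX)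
    (Qc : CondN) (PB : ℕ → Prop) (h : ℝ) (K' s₁ : ℕ) (sh : ℕ → ℕ) : Prop where
  /-- the levels on the cell -/
  cel : ∃ T' β' : ℝ, 0 < β' ∧ (∀ ε' : ℝ, 0 < ε' → EvP I fun p =>
      CellL (n₀ + 1) (Kt.L p) ε' T' (Kt.y p) (Kt.X p) (Kt.la p) (Kt.ml p)) ∧
    EvP I fun p => β' ≤ Kt.la p n₀ - Kt.ml p n₀ ∧
      Qc (lamS (n₀ + 1) (Kt.ml p)) (gamS (n₀ + 1) (Kt.la p) (Kt.ml p))
  /-- the labels of a grid, with sides close to the levels -/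
  grd : ∀ M : ℕ, EvQ I fun N θ p => ∃ (b : ℕ → ℕ → ℕ → ℝ) (e : ℕ → ℕ → ℝ),
    Kt.Near p N M θ b e ∧
      Lg S fun _ F A => ∃ D : GDat F, (Kt.grid K' s₁ sh p N M θ b e).Ok F D A
  /-- the axioms of the cells -/
  ok2 : ∃ C₅ : ℝ, ∀ C₁ ≥ C₅, ∀ κ : ℝ, 0 < κ → ∀ M : ℕ, EvQ I fun N θ p =>
    Kt.FldN S K' s₁ sh M N θ p fun G J F D q => (Kt.nd p N M θ G F D).Ok2 G.n G.K' J
      (up G.α J) (up G.ϖ J) (up G.ζ J) G.M (lamS (n₀ + 1) (Kt.ml p))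
      (gamS (n₀ + 1) (Kt.la p) (Kt.ml p)) κ C₁ q
  /-- nonfull rows -/
  nf : ∃ C₃ : ℝ, ∀ C₁ ≥ C₃, ∃ B : ℕ, 1 ≤ B ∧ PB B ∧ ∀ M : ℕ, EvQ I fun N θ p =>
    Kt.FldN S K' s₁ sh M N θ p fun G J F D q => (Kt.nd p N M θ G F D).NF1 G.n (up G.ζ J) G.M B
      (gamS (n₀ + 1) (Kt.la p) (Kt.ml p)) h C₁ q
  /-- the joint property -/
  ext : ∃ C₄ : ℝ, ∀ C₁ ≥ C₄, ∀ B : ℕ, 1 ≤ B → PB B → ∀ (M Q K'' : ℕ) (η' κ : ℝ), 0 < η' →
    0 < κ → EvQ I fun N θ p => Kt.FldN S K' s₁ sh M N θ p fun G J F D q =>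
      X.nb B (lamS (n₀ + 1) (Kt.ml p)) (gamS (n₀ + 1) (Kt.la p) (Kt.ml p)) G.n J (up G.α J)
        (up G.ϖ J) (up G.ζ J) G.M Q K'' η' κ C₁ (Kt.nd p N M θ G F D) q

/-- **No cells with small errors**, from the local theorem and the facts of the class. -/
theorem evX_false (hI : MonoI I) {X : ExtX} (hX : X.Mono) (hS : S.Ne)
    (hpos : ∀ (τ : ℝ) (J : ℕ) (F : Fam m J) (A : F.Ω → Prop), S.St τ J F A → 0 < Pe F.p A)
    (Kt : KitP m Θ n₀) {h : ℝ} (hh1 : h ≤ 1) {Qc : CondN} (hQ : Qc.Cl (n₀ + 1))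
    {PB : ℕ → Prop} {K' s₁ : ℕ} {sh : ℕ → ℕ}
    (H : MicX X Qc PB (n₀ + 1) K' h) (facts : FactX Kt S I X Qc PB h K' s₁ sh) :
    EvP I fun _ => False := by
  obtain ⟨⟨T', β', hβ', fcel, fgam⟩, fgrd, ⟨C₅, fok⟩, ⟨C₃, fnf⟩, ⟨C₄, fext⟩⟩ := facts
  -- the constants
  obtain ⟨C₁, hC₁⟩ : ∃ C₁, C₁ = max (max C₅ 1) (max C₃ C₄) := ⟨_, rfl⟩
  have c1 : C₅ ≤ C₁ := by rw [hC₁]; exact (le_max_left _ _).trans (le_max_left _ _)
  have c3 : C₃ ≤ C₁ := by rw [hC₁]; exact (le_max_left _ _).trans (le_max_right _ _)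
  have c4 : 1 ≤ C₁ := by rw [hC₁]; exact (le_max_right _ _).trans (le_max_left _ _)
  have c5 : C₄ ≤ C₁ := by rw [hC₁]; exact (le_max_right _ _).trans (le_max_right _ _)
  obtain ⟨B, hB, hPB, fnf⟩ := fnf C₁ c3
  obtain ⟨M₀, Q, K'', η', κ, η, z₀, hη', hκ, hη, hmic⟩ := micX_cover hX
    (C₁ := C₁) (Λ := T' + 1) hQ (by omega) hB hPB c4 hh1 hβ' H
  obtain ⟨N₁, hN₁⟩ := exists_nat_ge (4 * (T' + 2))
  have key := (((EvQ.all hI M₀ fun M _ => KitP.cel_evQ fcel M).and hI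
    (EvQ.of_evP (Ψ := fun _ p => β' ≤ Kt.la p n₀ - Kt.ml p n₀ ∧
      Qc (lamS (n₀ + 1) (Kt.ml p)) (gamS (n₀ + 1) (Kt.la p) (Kt.ml p))) fun _ => fgam)).and hI
    ((EvQ.all hI M₀ fun M _ => fgrd M).and hI
    ((EvQ.all hI M₀ fun M _ => fok C₁ c1 κ hκ M).and hI
    ((EvQ.all hI M₀ fun M _ => fnf M).and hI
    (EvQ.all hI M₀ fun M _ => fext C₁ c5 B hB hPB M Q K'' η' κ hη' hκ))))).and hI
    (EvQ.self I (max N₁ 2) (θ₀ := 1 / 16) (by norm_num)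
      (ε := fun N _ => 1) (fun N _ _ => one_pos))
  refine EvQ.false_evP (key.mono ?_)
  rintro N θ p ⟨⟨⟨pcel, pgam, pcond⟩, pgrd, pok, pnf, pext⟩, hN, hθ, hθ1, -⟩
  have hNN : N₁ ≤ N := (le_max_left _ _).trans hN
  have hN2 : 2 ≤ N := (le_max_right _ _).trans hN
  have hN1 : 1 ≤ N := by omega
  have hn1 : 1 ≤ n₀ + 1 := by omega
  have hL0 := pcel 0 (Nat.zero_le _)
  obtain ⟨M, hM, mic⟩ := hmic (lamS (n₀ + 1) (Kt.ml p)) (gamS (n₀ + 1) (Kt.la p) (Kt.ml p))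
    (lamS_ge (n₀ + 1) _) (hL0.lamS_le hn1) (gamS_ge (n₀ + 1) _ _) (hL0.gamS_le hn1) (by
      unfold gamS
      rw [if_pos ⟨hn1, le_rfl⟩, Nat.add_sub_cancel]
      exact le_max_of_le_right pgam) pcond
  obtain ⟨b, e, hnear, hgrd⟩ := pgrd M hM
  have hnf' := nf_of_fldP (G := Kt.grid K' s₁ sh p N M θ b e)
    (ρ := fun J F D => Kt.rc p N M θ J F D) hpos (pnf M hM b e hnear) hη
  exact grid_falseX hS (G := Kt.grid K' s₁ sh p N M θ b e)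
    (ρ := fun J F D => Kt.rc p N M θ J F D) (X := X.nb) (B := B) (Q := Q) (K'' := K'')
    (z₀ := z₀) (lam := lamS (n₀ + 1) (Kt.ml p)) (gam := gamS (n₀ + 1) (Kt.la p) (Kt.ml p))
    (C₁ := C₁) (h := h) (η' := η') (κ := κ) (η := η) (msh_pos hL0.pos hN1) mic hgrd
    (pok M hM b e hnear) hnf' (pext M hM b e hnear)

end Pool.STAT
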