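import Pool.Agent.H78.MIC.GenT
import Pool.Agent.H90.STAT.FulC
import Pool.Agent.H2.GEN.AttG

/-!
# Uniform time in the cells of a kit

`ExtC.Tm`: the further property `TmU`. `MicOf.toG`: the local theorem for uniform time.
`tmU_P`: the field `TmU` of the cells of a kit, from the small time deficit of the class.
-/

set_option autoImplicit false

namespace Pool.STAT

open Finset MvPolynomial
open Pool.Agent.H49.Ent Pool.Agent.H32.Dense Pool.STK Pool.KS3 Pool.KA Pool.KSAT Pool.PB Pool.GEN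
open Pool.K2S Pool.S6C
open CLO Pool.CHT

/-- Uniform time, as a further property. -/
def ExtC.Tm : ExtC := fun _ J _ w₀ z _ _ κ _ D q => D.TmU J w₀ z κ q

theorem ExtC.Tm_mono : ExtC.Tm.Mono := ⟨fun hκ _ h => NDat2.TmU.mono h hκ⟩

/-- **The local theorem for uniform time.** -/
theorem MicOf.toG {Q : Cond2} (h : MicOf Q) {n : ℕ} (hn : 1 ≤ n) : MicGN ExtC.Tm (Q n) n := by
  intro K A B R lam gam C₁ h₁ a1 a2 a3 a4 a5 a6 a7 a8
  obtain ⟨M, K', η', κ, ϖ, z₀, b1, b2, b3, h⟩ := h n K A B lam gam C₁ h₁ hn a1 a2 a3 a4 a5 a6 a7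
    a8
  exact ⟨M, K', η', κ, ϖ, z₀, b1, b2, b3, fun J a₀ w₀ z D q hz hO hL hN => h J a₀ w₀ z D q hz hO
    hN hL⟩

/-- No further property. -/
def ExtC.tt : ExtC := fun _ _ _ _ _ _ _ _ _ _ _ => True

variable {Θ : Type*} {I : ℝ → Θ → Prop} {m n₀ : ℕ}

/-- **Uniform time in a grid**. -/
theorem tmU_fld {S : PCl m} (hS : TmH S) {G : RW m}
    {R : (J : ℕ) → (F : Fam m J) → GDat F → ℕ → ℕ → Type}
    (ρ : (J : ℕ) → (F : Fam m J) → (D : GDat F) → (i j : ℕ) → LnT F → R J F D i j)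
    (hζ : 0 < G.ζ) (hϖ : G.ϖ < 1) {κ : ℝ} (hκ : 0 < κ) :
    FldW S G fun J F D q => (G.nd D (ρ J F D)).TmU J (up G.ϖ J) (up G.ζ J) κ q := by
  obtain ⟨hpos, htm⟩ := hS
  obtain ⟨J₁, hJ₁⟩ := exists_nat_ge (1 / (1 - G.ϖ))
  have hp : Bas S (fun _ F A => 0 < Pe F.p A) := ⟨1, one_pos, 0, fun J _ F A hA => hpos 1 J F A hA⟩
  refine Bas.mono J₁ (Bas.and (htm (κ * G.ζ) (by positivity)) hp) ?_
  rintro J hJ F B ⟨h1, hB⟩ D hD
  have hw : up G.ϖ J ≤ J := by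
    rcases le_or_gt 0 G.ϖ with h0 | h0
    · have h2 := up_le h0 J
      have h3 : (J₁ : ℝ) ≤ J := by exact_mod_cast hJ
      have h4 := hJ₁.trans h3
      rw [div_le_iff₀ (by linarith)] at h4
      have h5 : ((up G.ϖ J : ℕ) : ℝ) ≤ J := by linarith
      exact_mod_cast h5
    · have : up G.ϖ J = 0 := by
        unfold up
        exact Nat.ceil_eq_zero.2 (mul_nonpos_of_nonpos_of_nonneg h0.le (Nat.cast_nonneg J))
      omega
  have h2 := CDat.nd_time hB (h1 hB) hw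
  have h3 : κ * G.ζ * J ≤ κ * up G.ζ J := by
    rw [mul_assoc]
    exact mul_le_mul_of_nonneg_left (up_ge G.ζ J) hκ.le
  show _ ≤ CH (Pool.Agent.H49.Ent.cond F.p B True) F.T (slam F (up G.ϖ J))
  linarith

/-- **Uniform time in the cells of a kit.** -/
theorem tmU_P (hI : MonoI I) {S : PCl m} (hS : TmH S) (Kt : KitP m Θ n₀) {T' : ℝ}
    (fcel : ∀ ε' : ℝ, 0 < ε' → EvP I fun p =>
      CellL (n₀ + 1) (Kt.L p) ε' T' (Kt.y p) (Kt.X p) (Kt.la p) (Kt.ml p))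
    {K' s₁ : ℕ} {sh : ℕ → ℕ} {κ : ℝ} (hκ : 0 < κ) (M : ℕ) :
    EvQ I fun N θ p => Kt.FldN S K' s₁ sh M N θ p fun G J F D q =>
      (Kt.nd p N M θ G F D).TmU J (up G.ϖ J) (up G.ζ J) κ q := by
  have key := (KitP.cel_evQ fcel M).and hI
    (EvQ.self I 1 (θ₀ := 1) one_pos (ε := fun N _ => 1) (fun N _ _ => one_pos))
  refine key.mono ?_
  rintro N θ p ⟨hL, hN1, -, -, -⟩ b e _
  exact tmU_fld hS _ (msh_pos hL.pos hN1) (by
    show (Kt.y p).1 < 1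
    have h1 := hL.pos
    have h2 := hL.dep
    have h3 := hL.top
    linarith) hκ

/-- The further property `ExtC.Tm`, as the field `phi` of `FactP`. -/
theorem phi_Tm (hI : MonoI I) {S : PCl m} (hS : TmH S) (Kt : KitP m Θ n₀) {T' : ℝ}
    (fcel : ∀ ε' : ℝ, 0 < ε' → EvP I fun p =>
      CellL (n₀ + 1) (Kt.L p) ε' T' (Kt.y p) (Kt.X p) (Kt.la p) (Kt.ml p))
    {K' s₁ : ℕ} {sh : ℕ → ℕ} : ∃ (Rr : ℕ) (C₄ : ℝ), ∀ κ : ℝ, 0 < κ → ∀ M : ℕ, EvQ I fun N θ p =>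
    Kt.FldN S K' s₁ sh M N θ p fun G J F D q =>
      ExtC.Tm G.n J (up G.α J) (up G.ϖ J) (up G.ζ J) G.M Rr κ C₄ (Kt.nd p N M θ G F D) q :=
  ⟨0, 0, fun _ hκ M => tmU_P hI hS Kt fcel hκ M⟩

end Pool.STAT
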