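import Pool.Agent.H78.MIC.NoL
import Pool.Agent.H78.MIC.PhiT
import Pool.Agent.H78.MIC.GenX
import Pool.Agent.H65.NFC.One
import Pool.Agent.H19.STAT.MicTop

/-!
# The local theorem for the fattest boxes

`XP4 K A R x`: the joint property of the cells of P4: uniform time, the closed lower bound `NFc1` with
the deficit `x`, labels with gain of the coordinates outside `R`, and no new thin label of the target
or of a coordinate in `R`.
`QV n c`, `QT R n c`: the conditions for the slopes, without ties and with ties: the weights are `1`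
and, with ties, the slopes of the coordinates outside `R` are at least the smaller one of `1` and the
slope of the target, no slope is larger than `1 - c` plus this number. These conditions are closed.
`micX_V`, `micX_P`: the local theorem, without ties by `MicOf CondV`, with ties by `P4Stmt1`.
-/

set_option autoImplicit false

namespace Pool.STAT

open Finset MvPolynomial
open Pool.Agent.H49.Ent Pool.Agent.H32.Dense Pool.STK Pool.KS3
open Pool.BFL (Pb)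
open Pool.P4 (GnL NBT NewLabT NFc1 P4T1 P4Stmt1 gr sl thd)

/-! ### Labels with gain, thin labels -/

/-- The trivial labels with gain. -/
noncomputable def gnl0 (D : NDat2) : GnL D := ⟨fun _ _ => 0, fun _ _ => 0, fun _ => 0⟩

theorem gnl0_ok {D : NDat2} (n K J a₀ w₀ z M Q : ℕ) (C₁ : ℝ) (q : D.Ω → ℝ) :
    (gnl0 D).Ok n K J a₀ w₀ z M Q (fun _ => True) C₁ q where
  degD l x := by
    show (0 : PN).totalDegree ≤ K
    rw [totalDegree_zero]
    exact Nat.zero_le _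
  degL l x := by
    show (0 : PN).totalDegree ≤ K
    rw [totalDegree_zero]
    exact Nat.zero_le _
  varD l x := by
    show (0 : PN).vars ⊆ range l
    rw [vars_0]
    exact Finset.empty_subset _
  varL l x := by
    show (0 : PN).vars ⊆ range l
    rw [vars_0]
    exact Finset.empty_subset _
  deep l _ _ h := absurd trivial h
  own l _ _ h := absurd trivial h
  two l _ _ h := absurd trivial h
  near l _ _ h := absurd trivial h

/-- If all coordinates are rough, thin labels are labels. -/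
theorem newLabT_all {D : NDat2} {U : GnL D} {J a₀ w₀ z Q i j l A K' : ℕ} {η' : ℝ}
    {q : D.Ω → ℝ} (hq : ∀ ω, 0 ≤ q ω)
    (h : NewLabT D U J a₀ w₀ z Q (fun _ => True) i j l A K' η' q) :
    D.NewLab2 J a₀ w₀ z i j l A K' η' q := by
  obtain ⟨Gn, Hn, h1, h2, h3⟩ := h
  refine ⟨Gn, Hn, h1, h2, h3.trans (Pool.MIC.Frm.Pb_supp hq fun ω _ hb => ⟨hb.1, ?_⟩)⟩
  intro b hbb
  exact hb.2 b ((NBT.of_all fun _ _ _ => trivial).2 hbb)

/-- The labels with gain are labels with a smaller gain. -/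
theorem gnL_mono {D : NDat2} {U : GnL D} {n K J a₀ w₀ z M Q Q' : ℕ} {R : ℕ → Prop} {C₁ C₁' : ℝ}
    {q : D.Ω → ℝ} (h : U.Ok n K J a₀ w₀ z M Q R C₁ q) (hQ : Q' ≤ Q) (hC : C₁ ≤ C₁') :
    U.Ok n K J a₀ w₀ z M Q' R C₁' q where
  degD := h.degD
  degL := h.degL
  varD := h.varD
  varL := h.varL
  deep l h1 h2 h3 i hi j hj :=
    (Nat.add_le_add_left (Nat.mul_le_mul_right z hQ) _).trans (h.deep l h1 h2 h3 i hi j hj)
  own := h.own
  two := h.two
  near l h1 h2 h3 i hi j hj ω hω b hb :=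
    (h.near l h1 h2 h3 i hi j hj ω hω b hb).trans (div_le_div_of_nonneg_right
      (Real.exp_le_exp.2 (mul_le_mul_of_nonneg_right hC (Nat.cast_nonneg z))) (by positivity))

/-- A thin label is a label over a thinner box, of a larger class, on a smaller event. -/
theorem newLabT_mono {D : NDat2} {U : GnL D} {J a₀ w₀ z Q Q' i j l A K' K'' : ℕ}
    {R : ℕ → Prop} {η η' : ℝ} {q : D.Ω → ℝ} (hq : ∀ ω, 0 ≤ q ω) (hQ : Q' ≤ Q) (hK : K'' ≤ K')
    (hη : η ≤ η') (h : NewLabT D U J a₀ w₀ z Q' R i j l A K'' η' q) :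
    NewLabT D U J a₀ w₀ z Q R i j l A K' η q := by
  obtain ⟨Gn, Hn, h1, h2, h3⟩ := h
  refine ⟨Gn, Hn, fun x => ⟨(h1 x).1.trans hK, (h1 x).2⟩, fun x => ⟨(h2 x).1.trans hK, (h2 x).2⟩,
    (hη.trans h3).trans (Pool.MIC.Frm.Pb_supp hq fun ω _ hb => ⟨hb.1, ?_⟩)⟩
  intro b hbb
  refine hb.2 b ⟨hbb.1, fun u u1 u2 => ⟨(hbb.2 u u1 u2).1, fun u3 =>
    ((hbb.2 u u1 u2).2 u3).trans ?_⟩⟩
  refine one_div_le_one_div_of_le (by positivity) (pow_le_pow_right₀ (by norm_num) ?_)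
  exact Nat.add_le_add_left (Nat.mul_le_mul_right z hQ) _

theorem nFc_mono {D : NDat2} {n z M B : ℕ} {gam : ℕ → ℝ} {h h' C₁ C₁' : ℝ} {q : D.Ω → ℝ}
    (H : NFc1 D n z M B gam h C₁ q) (hh : h ≤ h') (hC : C₁ ≤ C₁') :
    NFc1 D n z M B gam h' C₁' q :=
  H.mono hh hC

/-! ### The joint property -/

/-- **The joint property of the cells of P4.** -/
def XP4 (K A : ℕ) (R : ℕ → Prop) (x : ℝ) : ExtX :=
  fun B _ gam n J a₀ w₀ z M Q K' η' κ C₁ D q =>
    D.TmU J w₀ z κ q ∧ NFc1 D n z M B gam x C₁ q ∧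
      ∃ U : GnL D, U.Ok n K J a₀ w₀ z M Q R C₁ q ∧
        ∀ l, 1 ≤ l → l ≤ n → (l = n ∨ R l) → ∀ i ≤ M, ∀ j ≤ M,
          ¬ NewLabT D U J a₀ w₀ z Q R i j l A K' η' q

theorem xP4_mono (K A : ℕ) (R : ℕ → Prop) (x : ℝ) : (XP4 K A R x).Mono := by
  refine ⟨?_⟩
  rintro B lam gam n J a₀ w₀ z M Q Q' K' K'' η η' κ κ' C₁ C₁' D q hq h1 h2 h3 h4 h5
    ⟨k1, k2, U, k3, k4⟩
  exact ⟨k1.mono h4, nFc_mono k2 le_rfl h5, U, gnL_mono k3 h1 h5, fun l l1 l2 l3 i hi j hj h6 =>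
    k4 l l1 l2 l3 i hi j hj (newLabT_mono hq.nonneg h1 h2 h3 h6)⟩

/-- **The slopes of the cells of the fattest boxes, without ties**. -/
def QV (n : ℕ) (c : ℝ) : CondN := fun lam gam =>
  (∀ l, 1 ≤ l → l ≤ n → lam l = 1) ∧ ∀ l, 1 ≤ l → l < n → c ≤ |gam l - gam n|

theorem qV_cl {n : ℕ} (hn : 1 ≤ n) (c : ℝ) : (QV n c).Cl n := by
  refine (CondN.Cl.all fun l => CondN.Cl.imp fun h1 => CondN.Cl.imp fun h2 =>
    CondN.Cl.lam_eq h1 h2 1).and (CondN.Cl.all fun l => CondN.Cl.imp fun h1 =>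
    CondN.Cl.imp fun h2 => ⟨?_, fun {lam gam lam' gam'} _ k2 h3 => ?_⟩)
  · exact isClosed_le continuous_const (((continuous_apply l).comp continuous_snd).sub
      ((continuous_apply n).comp continuous_snd)).abs
  · rw [k2 l h1 (by omega), k2 n hn le_rfl]
    exact h3

/-- **The slopes of the cells of the fattest boxes, with ties**, `R` are the rough coordinates. -/
def QT (R : ℕ → Prop) (n : ℕ) (c : ℝ) : CondN := fun lam gam =>
  (∀ l, 1 ≤ l → l ≤ n → lam l = 1) ∧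
    (∀ l, 1 ≤ l → l < n → ¬ R l → min (gam n) 1 ≤ gam l) ∧
    ∀ l, 1 ≤ l → l ≤ n → gam l ≤ 1 - c + min (gam n) 1

theorem qT_cl (R : ℕ → Prop) {n : ℕ} (hn : 1 ≤ n) (c : ℝ) : (QT R n c).Cl n := by
  refine (CondN.Cl.all fun l => CondN.Cl.imp fun h1 => CondN.Cl.imp fun h2 =>
    CondN.Cl.lam_eq h1 h2 1).and ((CondN.Cl.all fun l => CondN.Cl.imp fun h1 =>
    CondN.Cl.imp fun h2 => CondN.Cl.imp fun _ => ⟨?_, fun {lam gam lam' gam'} _ k2 h3 => ?_⟩).and
    (CondN.Cl.all fun l => CondN.Cl.imp fun h1 =>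
    CondN.Cl.imp fun h2 => ⟨?_, fun {lam gam lam' gam'} _ k2 h3 => ?_⟩))
  · exact isClosed_le (((continuous_apply n).comp continuous_snd).min continuous_const)
      ((continuous_apply l).comp continuous_snd)
  · rw [k2 l h1 (by omega), k2 n hn le_rfl]
    exact h3
  · exact isClosed_le ((continuous_apply l).comp continuous_snd)
      (continuous_const.add (((continuous_apply n).comp continuous_snd).min continuous_const))
  · rw [k2 l h1 h2, k2 n hn le_rfl]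
    exact h3

/-- Uniform time and no new label of the target. -/
def XV (A : ℕ) : ExtX := fun B lam gam n J a₀ w₀ z M Q K' η' κ C₁ D q =>
  ExtX.ofC ExtC.Tm 0 B lam gam n J a₀ w₀ z M Q K' η' κ C₁ D q ∧
    ExtX.not (ConC.std A) B lam gam n J a₀ w₀ z M Q K' η' κ C₁ D q

theorem xV_mono (A : ℕ) : (XV A).Mono :=
  (ExtX.ofC_mono ExtC.Tm_mono 0).and (ExtX.not_mono (ConC.std_mono A))

/-- **The local theorem for the fattest boxes, without ties.** -/
theorem micX_V (hV : MicOf CondV) {n : ℕ} (hn : 1 ≤ n) {h c : ℝ} (hh₀ : 0 < h) (hh1 : h ≤ 1)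
    (hc : 0 < c) (K A : ℕ) : MicX (XV A) (QV n c) (fun _ => True) n K h := by
  intro B lam gam C₁ hB _ hlam hgam hgn hC₁ hQ
  have ht : ¬ Tied n lam gam := by
    rintro ⟨l, l1, l2, l3⟩
    have h2 := hQ.2 l l1 l2
    rw [hQ.1 l l1 l2.le, hQ.1 n hn le_rfl, mul_one, mul_one] at l3
    rw [l3, sub_self, abs_zero] at h2
    linarith
  obtain ⟨M, K', η', κ, ϖ, z₀, a1, a2, a3, H⟩ := hV n K A B lam gam C₁ h hn hB hlam hgam hgn
    hC₁ hh₀ hh1 ht
  exact ⟨M, 0, K', η', κ, ϖ, z₀, a1, a2, a3, fun J a₀ w₀ z D q hz hO hN hX =>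
    hX.2 (H J a₀ w₀ z D q hz hO hN hX.1)⟩

/-- **The local theorem for the fattest boxes, with ties**: `δ` depends on `n`, `B` and a lower bound
of the deficit. -/
theorem micX_P (hP : P4Stmt1) {n B₀ : ℕ} (hn : 1 ≤ n) (hB₀ : 1 ≤ B₀) {h₀ : ℝ}
    (hh₀ : 0 < h₀) : ∃ δ : ℝ, 0 < δ ∧ ∀ (K A : ℕ) (R : ℕ → Prop) (h c : ℝ), h₀ ≤ h → h ≤ 1 →
      0 < c → MicX (XP4 K A R (h + δ)) (QT R n c) (fun B => B = B₀) n K h := by
  obtain ⟨δ, hδ, H⟩ := hP n B₀ h₀ hn hB₀ hh₀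
  refine ⟨δ, hδ, fun K A R h c hh hh1 hc B lam gam C₁ hB hBB hlam hgam hgn hC₁ hQ => ?_⟩
  subst hBB
  obtain ⟨M, Q, K', η', κ, ϖ, z₀, a1, a2, a3, a4, H⟩ := H K A gam R C₁ h hh hh1 hgam hgn
    (fun l hl => by
      unfold thd
      have := hQ.2.2 l hl.1 hl.2.1
      linarith) (fun l hl => by
      by_contra h1
      have h2 := hQ.2.1 l hl.1 hl.2.1 h1
      have h3 := hl.2.2
      unfold thd at h3
      linarith) hC₁
  refine ⟨M, Q, K', η', κ, ϖ, z₀, a1, a2, a3, fun J a₀ w₀ z D q hz hO hN hX => ?_⟩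
  obtain ⟨x1, x2, U, x3, x4⟩ := hX
  obtain ⟨l, l1, l2, l3, i, hi, j, hj, h3⟩ := H lam J a₀ w₀ z D q U hQ.1 hz hO hN x2 x1 x3
  exact x4 l l1 l2 (l3.imp id fun h => h.1) i hi j hj h3

/-- If all coordinates are rough: the joint property from the absence of new labels. -/
theorem xP4_all {K A B : ℕ} {x : ℝ} {lam gam : ℕ → ℝ} {n J a₀ w₀ z M Q K' : ℕ} {η' κ C₁ : ℝ}
    {D : NDat2} {q : D.Ω → ℝ} (hq : ∀ ω, 0 ≤ q ω) (h1 : D.TmU J w₀ z κ q)
    (h2 : NFc1 D n z M B gam x C₁ q)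
    (h3 : ¬ ConC.ex (fun _ => True) A n J a₀ w₀ z M K' η' D q) :
    XP4 K A (fun _ => True) x B lam gam n J a₀ w₀ z M Q K' η' κ C₁ D q :=
  ⟨h1, h2, gnl0 D, gnl0_ok n K J a₀ w₀ z M Q C₁ q, fun l l1 l2 _ i hi j hj h4 =>
    h3 ⟨l, l1, l2, trivial, i, hi, j, hj, newLabT_all hq h4⟩⟩

end Pool.STAT
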