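import Pool.Agent.H78.MIC.ClsC

/-!
# The kinds of windows with ties, one coordinate has labels with gain

`DgC`: the class of the chains with gain at a window. `kpC As`: the windows where one base coordinate
has labels with gain, the others are rough; `As` is a property of the slopes. `nok_Cg`: no boxes of
this kind, from a local theorem. `SlC`: the slopes of P4; `nok_C`: no boxes, by P4.
-/

set_option autoImplicit false

namespace Pool.PKG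

open MeasureTheory Set Filter Topology
open Pool.Agent.H49.Ent Pool.Agent.H32.Dense Pool.STK Pool.KA Pool.KSAT Pool.K2S Pool.PB
open Pool.GEN Pool.S6C Pool.STAT Pool.CHT Pool.GRW Pool.ONE Pool.STA
open Pool.LBT (LSys ThrOf)
open Pool.LEV (Law Lv)
open Pool.ALL (RateOf)
open Pool.TOP (TopS)
open Pool.RTS (iso Diag)
open Pool.STR (NumI CellD RowD NfB AffB Rle Nw)
open Pool.ISO (ChI)
open Pool.CHB (chsysB)
open Pool.STAT.CLO Pool.MIC6
open Pool.P4 (NFc1)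

variable {n : ℕ} {hn : 2 ≤ n} {S : PCl n} {P : ℝ → ℝ → ℝ} {rr : ℝ → ℝ}
  {P' : ℕ → List (Fin n) × Fin n → ℝ → ℝ → ℝ} {Λ : Finset (Fin n) → Fin n → ℝ → ℝ → ℝ}
  {PB : ℕ → List (Fin n) × Fin n → ℝ → ℝ → ℝ}

/-- Chains of a larger class. -/
theorem GnW.mono {o : Od n} {D D' l : ℕ} {g r : ℝ} (h : GnW hn S P P' o D l g r) (hD : D ≤ D') :
    GnW hn S P P' o D' l g r := by
  obtain ⟨aT, wT, eT, β, K₁, h1, h2, h3⟩ := h
  refine ⟨aT, wT, eT, β, K₁, h1, h2, Bas.mono 0 h3 ?_⟩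
  rintro J - F A ⟨B, k1, k2, k3⟩
  exact ⟨B, k1, k2, ChN.cls k3 fun _ _ => hD⟩

/-- **The class of the chains with gain** of the coordinate `l` at the window `g`. -/
noncomputable def DgC (hn : 2 ≤ n) (S : PCl n) (P : ℝ → ℝ → ℝ)
    (P' : ℕ → List (Fin n) × Fin n → ℝ → ℝ → ℝ) (o : Od n) (l : ℕ) (g : ℝ) : ℕ :=
  open Classical in
  if h : ∃ D : ℕ, ∃ r₀ : ℝ, 0 < r₀ ∧ ∀ r : ℝ, 0 < r → r < r₀ → GnW hn S P P' o D l g r then
    Classical.choose h else 0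

theorem dgC_spec {o : Od n} {l : ℕ} {g : ℝ}
    (h : ∃ D : ℕ, ∃ r₀ : ℝ, 0 < r₀ ∧ ∀ r : ℝ, 0 < r → r < r₀ → GnW hn S P P' o D l g r) :
    ∃ r₀ : ℝ, 0 < r₀ ∧ ∀ r : ℝ, 0 < r → r < r₀ →
      GnW hn S P P' o (DgC hn S P P' o l g) l g r := by
  unfold DgC
  rw [dif_pos h]
  exact Classical.choose_spec h

/-- The levels are sorted. -/
def SrtN (hn : 2 ≤ n) (P : ℝ → ℝ → ℝ) (P' : ℕ → List (Fin n) × Fin n → ℝ → ℝ → ℝ) (o : Od n)
    (g : ℝ) : Prop := ∀ k < n - 1, ∀ k' < k, dgN hn P P' o k' g ≤ dgN hn P P' o k g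

/-- **The statements about the boxes** with one coordinate with gain. -/
structure KnC (hn : 2 ≤ n) (S : PCl n) (P : ℝ → ℝ → ℝ) (rr : ℝ → ℝ)
    (P' PW : ℕ → List (Fin n) × Fin n → ℝ → ℝ → ℝ) (h : ℝ) (l₀ : ℕ) (o : Od n) (g r d : ℝ) :
    Prop where
  row : NfB rr h d (P g g - r) (P g g + 3 * r)
  rgh : ∀ l ≤ n - 1, l ≠ l₀ → Box7 g r fun a w =>
    bet (PW o.2) (cc hn o.1.1) l a w ≤ dgN hn P P' o l w + (a - w) + d
  con : Box7 g r fun a w =>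
    dgN hn P P' o l₀ w + 2 * (a - w) ≤ bet (P' o.2) (cc hn o.1.1) l₀ a w + d
  gnw : GnW hn S P P' o (DgC hn S P P' o l₀ g) l₀ g r

theorem KnC.mono {PW : ℕ → List (Fin n) × Fin n → ℝ → ℝ → ℝ} {h : ℝ} {l₀ : ℕ} {o : Od n}
    {g r d d' : ℝ} (hd : d ≤ d') (H : KnC hn S P rr P' PW h l₀ o g r d) :
    KnC hn S P rr P' PW h l₀ o g r d' :=
  ⟨nfB_mono H.row le_rfl hd le_rfl le_rfl,
    fun l hl hl' => (H.rgh l hl hl').mono fun _ _ h => h.trans (by linarith),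
    H.con.mono fun _ _ h => h.trans (by linarith), H.gnw⟩

variable (H : PkT hn S P rr P' Λ PB) {hTop : TopS n} {hF : FZX (n - 1)} {h : ℝ}
  {ρ' : ℝ → ℝ} {hρ : Rle rr ρ'}

/-- **The windows with ties, one coordinate has labels with gain**, the others are rough. `As` is
a property of the slopes. -/
noncomputable def kpC (H : PkT hn S P rr P' Λ PB) (hTop : TopS n) (hF : FZX (n - 1))
    (hρ : Rle rr ρ') (h : ℝ) (PW : ℕ → List (Fin n) × Fin n → ℝ → ℝ → ℝ)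
    (As : ℝ → ℕ → Od n → ℝ → Prop) :
    NumI.KndP ((H.nk hTop hF).chg hρ H.up) (Fin (n - 1)) where
  A c l₀ o g := As c l₀ o g ∧ SrtN hn P P' (show Od n from o) g ∧
    (DgC hn S P P' (show Od n from o) l₀ g : ℝ) * c ≤ 1
  Φ l₀ o g r d := KnC hn S P rr P' PW h l₀ (show Od n from o) g r d
  mono hd h := h.mono hd

variable {H}

/-- A window of this kind. -/
theorem kpC_at {PW : ℕ → List (Fin n) × Fin n → ℝ → ℝ → ℝ} {As : ℝ → ℕ → Od n → ℝ → Prop}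
    {o : Od n} {g : ℝ} {l₀ : Fin (n - 1)}
    (hA : ∃ c : ℝ, 0 < c ∧ ∀ c' : ℝ, 0 < c' → c' ≤ c → As c' l₀ o g)
    (hsrt : SrtN hn P P' o g)
    (hrow : Sml fun r d => NfB rr h d (P g g - r) (P g g + 3 * r))
    (hrgh : ∀ l ≤ n - 1, l ≠ l₀ → Sml fun r d => Box7 g r fun a w =>
      bet (PW o.2) (cc hn o.1.1) l a w ≤ dgN hn P P' o l w + (a - w) + d)
    (hcon : Sml fun r d => Box7 g r fun a w =>
      dgN hn P P' o l₀ w + 2 * (a - w) ≤ bet (P' o.2) (cc hn o.1.1) l₀ a w + d)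
    (hgn : ∃ D : ℕ, ∃ r₀ : ℝ, 0 < r₀ ∧ ∀ r : ℝ, 0 < r → r < r₀ → GnW hn S P P' o D l₀ g r) :
    (kpC H hTop hF hρ h PW As).At l₀ (show ((H.nk hTop hF).chg hρ H.up).O from o) g := by
  obtain ⟨c, hc, hA⟩ := hA
  obtain ⟨Dd, hDd⟩ : ∃ Dd : ℝ, Dd = (DgC hn S P P' o l₀ g : ℝ) := ⟨_, rfl⟩
  have hD0 : 0 ≤ Dd := by rw [hDd]; exact Nat.cast_nonneg _
  refine ⟨min c (1 / (Dd + 1)), lt_min hc (by positivity), fun c' h1 h2 =>
    ⟨hA c' h1 (h2.trans (min_le_left _ _)), hsrt, ?_⟩, ?_⟩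
  · have h3 := h2.trans (min_le_right _ _)
    rw [le_div_iff₀ (by linarith)] at h3
    show (DgC hn S P P' o l₀ g : ℝ) * c' ≤ 1
    rw [← hDd]
    linarith
  · have k1 : Sml fun r d => ∀ l ∈ Finset.range (n - 1 + 1), l ≠ (l₀ : ℕ) → Box7 g r fun a w =>
        bet (PW o.2) (cc hn o.1.1) l a w ≤ dgN hn P P' o l w + (a - w) + d :=
      Sml.all _ fun l hl => by
        by_cases hl' : l ≠ (l₀ : ℕ)
        · exact (hrgh l (by have := Finset.mem_range.1 hl; omega) hl').mono fun _ _ _ h _ => h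
        · exact fun _ _ => ⟨1, one_pos, fun _ _ _ h => absurd h hl'⟩
    have k2 : Sml fun r _ => GnW hn S P P' o (DgC hn S P P' o l₀ g) l₀ g r := by
      intro e he
      obtain ⟨r₀, h1, h2⟩ := dgC_spec hgn
      exact ⟨r₀, h1, h2⟩
    exact ((hrow.and k1).and (hcon.and k2)).mono fun r d _ h => ⟨h.1.1,
      fun l hl hl' => h.1.2 l (Finset.mem_range.2 (by omega)) hl', h.2.1, h.2.2⟩

/-- **No boxes with ties, one coordinate has labels with gain**, from a local theorem: `x'` is the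
deficit of the closed rows. -/
theorem nok_Cg {x' : ℝ} {PW : ℕ → List (Fin n) × Fin n → ℝ → ℝ → ℝ}
    (hPW : ∀ j, ThrOf (chsysB n none (P' j)) S (PW j)) {As : ℝ → ℕ → Od n → ℝ → Prop}
    {Qc : ℝ → ℝ → ℕ → CondN}
    (hQc : ∀ c β l₀, (Qc c β l₀).Cl (n - 1 + 1))
    (hP : ∀ (K' : ℕ) (c β : ℝ) (l₀ : ℕ), 0 < c → 0 < β → l₀ < n - 1 →
      MicX (XP4 K' 1 (fun u => u ≠ l₀ + 1) x') (Qc c β l₀) (fun B => B = n + 2) (n - 1 + 1) K' h)
    (hQ : ∀ (c β : ℝ) (l₀ : ℕ) (o : Od n) (g : ℝ) (gam : ℕ → ℝ), 0 < c → 0 < β → l₀ < n - 1 →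
      As c l₀ o g → β ≤ slN hn P P' o (n - 1) g - 1 →
      (∀ l, 1 ≤ l → l ≤ n - 1 + 1 → gam l = max 0 (slN hn P P' o (l - 1) g - 1)) →
      Qc c β l₀ (fun _ => 1) gam)
    (hh : 0 < h) (hh1 : h ≤ 1) :
    NoKd H (kpC H hTop hF hρ h PW As) (HypP _ x') := by
  intro p hp κ kd y l₀ c β h₁ M hc hβ hK hy
  have hI' := isK_mono p.cell kd c β h₁ M y
  refine cls_C H (hQc c β l₀) l₀.2 (fun K' => hP K' c β l₀ hc hβ l₀.2) hh hh1 hp hy.1 hy.2.1
    hy.2.2 hc hβ (fun q ε K₀ hq => ?_) (fun ε' hε' => (hK.Φ ε' hε').mono fun q h1 => h1.row)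
    (fun ε q hq => (hK.A ε q hq).2.1) hPW
    (fun l hl hl' ε' hε' => (hK.Φ ε' hε').mono fun q h1 => h1.rgh l hl hl')
    (fun ε' hε' => (hK.Φ ε' hε').mono fun q h1 => h1.con) (DT := ⌊1 / c⌋₊)
    (((hK.Φ 1 one_pos).and hI' (EvP.self _ one_pos)).mono fun q h1 => h1.1.gnw.mono ?_)
  · obtain ⟨-, e2⟩ := gamS_tar H hq hβ K₀
    exact hQ c β l₀ _ q.g _ hc hβ l₀.2 (hK.A ε q hq).1 e2 fun l l1 l2 => gamS_kit H hq K₀ l1 l2
  · have h2 := (hK.A _ q h1.2).2.2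
    refine Nat.le_floor ?_
    rw [le_div_iff₀ hc]
    exact h2

/-- The slopes of P4, the coordinate `l₀` has labels with gain; no coordinate is faster than the
target. -/
def SlC (hn : 2 ≤ n) (P : ℝ → ℝ → ℝ) (P' : ℕ → List (Fin n) × Fin n → ℝ → ℝ → ℝ) (c : ℝ)
    (l₀ : ℕ) (o : Od n) (g : ℝ) : Prop :=
  2 ≤ slN hn P P' o l₀ g ∧ SlLe hn P P' o g ∧
    ∀ l ≤ n - 1, slN hn P P' o l g ≤ 2 - c + min (slN hn P P' o (n - 1) g - 1) 1

/-- **No boxes with ties, one coordinate has labels with gain**, by P4. -/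
theorem nok_C {x' : ℝ} {PW : ℕ → List (Fin n) × Fin n → ℝ → ℝ → ℝ}
    (hPW : ∀ j, ThrOf (chsysB n none (P' j)) S (PW j))
    (hP : ∀ (K' : ℕ) (R : ℕ → Prop) (c : ℝ), 0 < c → MicX (XP4 K' 1 R x')
      (QT R (n - 1 + 1) c) (fun B => B = n + 2) (n - 1 + 1) K' h)
    (hh : 0 < h) (hh1 : h ≤ 1) :
    NoKd H (kpC H hTop hF hρ h PW (SlC hn P P')) (HypP _ x') := by
  refine nok_Cg hPW (Qc := fun c _ l₀ => QT (fun u => u ≠ l₀ + 1) (n - 1 + 1) (min c 1))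
    (fun c β l₀ => qT_cl _ (by omega) _)
    (fun K' c β l₀ hc hβ hl₀ => hP K' _ _ (lt_min hc one_pos))
    (fun c β l₀ o g gam hc hβ hl₀ hA e2 hgam => ?_) hh hh1
  obtain ⟨h2, -, hsl⟩ := hA
  have e1 := hgam (n - 1 + 1) (by omega) le_rfl
  rw [Nat.add_sub_cancel, max_eq_right (by linarith)] at e1
  refine ⟨fun _ _ _ => rfl, fun l l1 l2 h3 => ?_, fun l l1 l2 => ?_⟩
  · have h4 : l = l₀ + 1 := by
      by_contra h5
      exact h3 h5
    rw [hgam l l1 l2.le, h4, Nat.add_sub_cancel]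
    exact (min_le_right _ _).trans (by
      rw [max_eq_right (by linarith)]
      linarith)
  · rw [e1, hgam l l1 l2]
    have h5 := hsl (l - 1) (by omega)
    have h4 : (0 : ℝ) ≤ min (slN hn P P' o (n - 1) g - 1) 1 := le_min (by linarith) one_pos.le
    refine max_le ?_ ?_
    · linarith [min_le_right c 1]
    · linarith [min_le_left c 1]

/-- A window of this kind, by P4. -/
theorem slC_at {o : Od n} {g : ℝ} {l₀ : ℕ} (h2 : 2 ≤ slN hn P P' o l₀ g)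
    (hle : SlLe hn P P' o g)
    (hslo : ∀ l ≤ n - 1, slN hn P P' o l g < 2 + min (slN hn P P' o (n - 1) g - 1) 1) :
    ∃ c : ℝ, 0 < c ∧ ∀ c' : ℝ, 0 < c' → c' ≤ c → SlC hn P P' c' l₀ o g := by
  obtain ⟨c, hc, hc1⟩ := pos_fin (Finset.range (n - 1 + 1))
    (f := fun l => 2 + min (slN hn P P' o (n - 1) g - 1) 1 - slN hn P P' o l g) fun l hl => by
      have := hslo l (by have := Finset.mem_range.1 hl; omega)
      linarith
  refine ⟨c, hc, fun c' _ hcc => ⟨h2, hle, fun l hl => ?_⟩⟩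
  have := hc1 l (Finset.mem_range.2 (by omega))
  linarith

end Pool.PKG
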