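import Pool.Agent.H78.MIC.BsB
import Pool.Agent.H37.WIN.Srt
import Pool.Agent.H66.D2.Two
import Pool.Agent.H60.GEN.KpL

/-!
# No boxes in a class

`CovW`: the windows with a tie which are covered by P4 and P5: the coordinates of the base are thin
(rough), or one of them has labels with gain; the slopes are those of P4 or of P5.
`TieT`: the windows with a tie, where the target is thin.
`noBS_all`: no boxes in a class, from exactness on the boxes without ties, exactness and the closed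
lower bound of the rows on the boxes with ties, and kinds without boxes which cover the other windows
with a tie.
-/

set_option autoImplicit false

namespace Pool.PKG

open MeasureTheory Set Filter Topology
open Pool.Agent.H49.Ent Pool.Agent.H32.Dense Pool.STK Pool.KA Pool.KSAT Pool.K2S Pool.PB
open Pool.GEN Pool.S6C Pool.STAT Pool.CHT Pool.GRW Pool.ONE Pool.STA
open Pool.LBT (LSys ThrOf)
open Pool.LEV (Law Lv)
open Pool.ALL (RateOf)
open Pool.TOP (TopS)
open Pool.RTS (iso Diag)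
open Pool.STR (NumI CellD RowD NfB AffB Rle Nw ThinAt SteepAt StaAt)
open Pool.CHB (chsysB)
open Pool.STAT.CLO Pool.MIC6
open Pool.P4 (NFc1)

variable {n : ℕ} {hn : 2 ≤ n} {S : PCl n} {P : ℝ → ℝ → ℝ} {rr : ℝ → ℝ}
  {P' : ℕ → List (Fin n) × Fin n → ℝ → ℝ → ℝ} {Λ : Finset (Fin n) → Fin n → ℝ → ℝ → ℝ}
  {PB : ℕ → List (Fin n) × Fin n → ℝ → ℝ → ℝ}
  {H : PkT hn S P rr P' Λ PB} {hTop : TopS n} {hF : FZX (n - 1)} {h : ℝ}
  {ρ' : ℝ → ℝ} {hρ : Rle rr ρ'}

/-! ### The slopes of P5, one coordinate has labels with gain -/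

/-- The slopes of P5, the coordinate `l₀` has the slope two and labels with gain. -/
def SlE (hn : 2 ≤ n) (P : ℝ → ℝ → ℝ) (P' : ℕ → List (Fin n) × Fin n → ℝ → ℝ → ℝ) (_ : ℝ)
    (l₀ : ℕ) (o : Od n) (g : ℝ) : Prop :=
  slN hn P P' o l₀ g = 2 ∧ slN hn P P' o (n - 1) g = 3 ∧
    ∀ l < n - 1, slN hn P P' o l g ≤ 1 ∨ slN hn P P' o l g = 2 ∨ slN hn P P' o l g = 3

/-- **No boxes with ties, one coordinate has labels with gain**, by P5. -/
theorem nok_E5 {x' : ℝ} {PW : ℕ → List (Fin n) × Fin n → ℝ → ℝ → ℝ}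
    (hPW : ∀ j, ThrOf (chsysB n none (P' j)) S (PW j))
    (hP : ∀ (K' : ℕ) (R : ℕ → Prop), MicX (XP4 K' 1 R x')
      (Q5 R (n - 1 + 1)) (fun B => B = n + 2) (n - 1 + 1) K' h)
    (hh : 0 < h) (hh1 : h ≤ 1) :
    NoKd H (kpC H hTop hF hρ h PW (SlE hn P P')) (HypP _ x') := by
  refine nok_Cg hPW (Qc := fun _ _ l₀ => Q5 (fun u => u ≠ l₀ + 1) (n - 1 + 1))
    (fun c β l₀ => q5_cl _ (by omega))
    (fun K' c β l₀ hc hβ hl₀ => hP K' _)
    (fun c β l₀ o g gam hc hβ hl₀ hA e2 hgam => ?_) hh hh1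
  obtain ⟨h2, h3, hsl⟩ := hA
  refine ⟨fun _ _ _ => rfl, fun l l1 l2 => ?_, ?_, fun l l1 l2 h5 => ?_⟩
  · rw [hgam l l1 l2]
    rcases l2.lt_or_eq with l3 | l3
    · rcases hsl (l - 1) (by omega) with h6 | h6 | h6
      · exact Or.inl (max_eq_left (by linarith))
      · refine Or.inr (Or.inl ?_)
        rw [h6]
        norm_num
      · refine Or.inr (Or.inr ?_)
        rw [h6]
        norm_num
    · rw [l3, Nat.add_sub_cancel, h3]
      refine Or.inr (Or.inr ?_)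
      norm_num
  · rw [hgam _ (by omega) le_rfl, Nat.add_sub_cancel, h3]
    norm_num
  · have h4 : l = l₀ + 1 := by
      by_contra h6
      exact h5 h6
    rw [hgam l l1 l2.le, h4, Nat.add_sub_cancel, h2]
    norm_num

/-! ### The cover -/

/-- The slopes of P4. -/
def Sl4 (hn : 2 ≤ n) (P : ℝ → ℝ → ℝ) (P' : ℕ → List (Fin n) × Fin n → ℝ → ℝ → ℝ) (o : Od n)
    (g : ℝ) : Prop :=
  ∀ l ≤ n - 1, slN hn P P' o l g < 2 + min (slN hn P P' o (n - 1) g - 1) 1

/-- The slopes of P5. -/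
def Sl35 (hn : 2 ≤ n) (P : ℝ → ℝ → ℝ) (P' : ℕ → List (Fin n) × Fin n → ℝ → ℝ → ℝ) (o : Od n)
    (g : ℝ) : Prop :=
  slN hn P P' o (n - 1) g = 3 ∧
    ∀ l < n - 1, slN hn P P' o l g ≤ 1 ∨ slN hn P P' o l g = 2 ∨ slN hn P P' o l g = 3

/-- A coordinate is thin. -/
def ThN (hn : 2 ≤ n) (P : ℝ → ℝ → ℝ) (P' PB : ℕ → List (Fin n) × Fin n → ℝ → ℝ → ℝ) (o : Od n)
    (l : ℕ) (g : ℝ) : Prop := ThinAt (LvL hn P P' o l) (LvT hn PB o l) g

/-- **The windows with a tie which are covered by P4 and P5.** -/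
def CovW (hn : 2 ≤ n) (P : ℝ → ℝ → ℝ) (P' PB : ℕ → List (Fin n) × Fin n → ℝ → ℝ → ℝ) (o : Od n)
    (g : ℝ) : Prop :=
  ((∀ l < n - 1, ThN hn P P' PB o l g) ∧ (Sl4 hn P P' o g ∨ Sl35 hn P P' o g)) ∨
    ∃ l₀ < n - 1, (∀ l < n - 1, l ≠ l₀ → ThN hn P P' PB o l g) ∧
      (Sl4 hn P P' o g ∨ Sl35 hn P P' o g ∧ slN hn P P' o l₀ g = 2)

/-- **The windows with a tie**, where the target is thin. -/
structure TieT (hn : 2 ≤ n) (P : ℝ → ℝ → ℝ) (P' PB : ℕ → List (Fin n) × Fin n → ℝ → ℝ → ℝ)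
    (o : Od n) (g : ℝ) : Prop where
  one : 1 < slN hn P P' o (n - 1) g
  tie : ∃ l, 1 ≤ l ∧ l < n - 1 ∧ slN hn P P' o l g = slN hn P P' o (n - 1) g
  thin : ThinAt P (PT hn PB o) g
  ths : ∀ l < n - 1, ThS hn P P' PB o l g

/-- **The kinds of a family cover** the windows with the property `X`. -/
def CovK {ι : Type} (K : NumI.KndP ((H.nk hTop hF).chg hρ H.up) ι) (h : ℝ)
    (X : Od n → ℝ → Prop) : Prop :=
  ∀ o : Od n, ∀ᵐ g : ℝ, ((H.nk hTop hF).chg hρ H.up).RwD o g →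
    (Sml fun r d => NfB rr h d (P g g - r) (P g g + 3 * r)) → X o g → ∃ x : ι, K.At x o g

/-- The slope of the target. -/
theorem slN_tar (o : Od n) (g : ℝ) : slN hn P P' o (n - 1) g = deriv (fun a => P a a) g := by
  unfold slN dgN
  rw [if_neg (lt_irrefl _)]

/-- The slopes of the coordinates. -/
theorem slN_lvl (o : Od n) {l : ℕ} (hl : l ≤ n - 1) (g : ℝ) :
    slN hn P P' o l g = deriv (fun a => LvL hn P P' o l a a) g := by
  unfold slN
  have h1 : dgN hn P P' o l = fun a => LvL hn P P' o l a a := funext fun a => dgN_LvL o hl a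
  rw [h1]

/-- The slopes of the coordinates. -/
theorem slN_ll (o : Od n) {l : ℕ} (hl : l ≤ n - 1) (g : ℝ) :
    slN hn P P' o l g = deriv (fun a => LL hn P P' o (l + 1) a a) g := by
  rw [slN_lvl o hl, Pool.Z4.lvL_eq o hl]

/-- A coordinate which is static and not thin has a slope at least two. -/
theorem slo_two (H : PkT hn S P rr P' Λ PB) (hTop : TopS n) (hF : FZX (n - 1)) :
    ∀ᵐ g : ℝ, ∀ o : Od n, g ∈ Gs P rr P' Λ o → ∀ l < n - 1, (∀ k < l, ThS hn P P' PB o k g) →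
      ThS hn P P' PB o l g → ¬ ThN hn P P' PB o l g →
      StaAt (LvL hn P P' o l) g ∧ 2 ≤ slN hn P P' o l g := by
  filter_upwards [H.sta_slope hTop hF, H.thn_one hTop hF, H.dia_all H.pble hTop hF]
    with g h1 h2 h3 o ho l hl hk hl' hn'
  obtain ⟨α, Q, c, F⟩ := H.toPk.fac hTop hF ho
  obtain ⟨d1, d2, d3⟩ := h3 o ho l hl.le
  have hlt : LvL hn P P' o l g g < 1 := by
    obtain ⟨E, hE, h4, -⟩ := F.ptD H.toPk
    have h5 := h4 l (by omega)
    have h6 : LvL hn P P' o l g g = Pool.ISO.lvN (P' o.2) (cc hn o.1.1) (n - 1) P l g g := rfl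
    rw [h6]
    linarith
  have hone : 1 ≤ deriv (fun a => LvL hn P P' o l a a) g :=
    one_le_slope (H.lawL o l) F.g0 F.g1 hlt d1
  rcases hl' with h4 | h4
  · exact absurd h4 hn'
  refine ⟨h4, ?_⟩
  rcases h1 o ho l hl.le hk h4 with h5 | h5
  · refine absurd (h2 o ho l hl.le ?_) hn'
    rw [slN_lvl o hl.le]
    exact le_antisymm h5 hone
  · rw [slN_lvl o hl.le]
    exact h5

/-- **No boxes in a class.** -/
theorem noBS_all {x' : ℝ} (hh : 0 < h) (hh1 : h ≤ 1) (hV : MicOf CondV)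
    (h4 : ∀ (K' : ℕ) (R : ℕ → Prop) (c : ℝ), 0 < c → MicX (XP4 K' 1 R x')
      (QT R (n - 1 + 1) c) (fun B => B = n + 2) (n - 1 + 1) K' h)
    (h5 : ∀ (K' : ℕ) (R : ℕ → Prop), MicX (XP4 K' 1 R x')
      (Q5 R (n - 1 + 1)) (fun B => B = n + 2) (n - 1 + 1) K' h)
    {PW : ℕ → List (Fin n) × Fin n → ℝ → ℝ → ℝ}
    (hPW : ∀ j, ThrOf (chsysB n none (P' j)) S (PW j))
    (hB : ∀ o : Od n, ∀ᵐ g : ℝ, RwH H hTop hF h o g → 1 < deriv (fun a => P a a) g →
      (∃ l, 1 ≤ l ∧ l < n - 1 ∧ deriv (fun a => LL hn P P' o (l + 1) a a) g =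
        deriv (fun a => P a a) g) → BigS hn P P' PB o g)
    (hEV : HasK H (kpV H hTop hF (H.rle h) h) (HypV _))
    {ιE : Type} [Finite ιE] {KE : NumI.KndP ((H.nk hTop hF).chg (H.rle h) H.up) ιE}
    (hE : HasK H KE (HypP _ x')) (hcE : CovK KE h (TieT hn P P' PB))
    {ιL : Type} [Finite ιL] {KL : NumI.KndP ((H.nk hTop hF).chg (H.rle h) H.up) ιL}
    (hL : NoKd H KL (HypP _ x'))
    (hcL : CovK KL h fun o g => TieT hn P P' PB o g ∧ ¬ CovW hn P P' PB o g) :
    ∃ p : ((H.nk hTop hF).chg (H.rle h) H.up).Par, p.cell.NoBS := by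
  have hrow : ∀ᵐ Q : ℝ, deriv (rt rr h) Q < 1 → h ≤ 1 - deriv rr Q := by
    filter_upwards [rt_deriv (h := h) H.rate.lip H.rate.mono] with Q k1 k2
    rw [k1.deriv] at k2
    unfold rtd at k2
    by_contra hcon
    rw [if_pos (by linarith)] at k2
    exact lt_irrefl _ k2
  -- the kinds with ties
  have nT := (nok_R (H := H) (hTop := hTop) (hF := hF) (hρ := H.rle h) (x' := x')
    (fun K' c hc => h4 K' _ c hc) hh hh1).sum
    ((nok_5 (H := H) (hTop := hTop) (hF := hF) (hρ := H.rle h) (x' := x')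
      (fun K' => h5 K' _) hh hh1).sum
    ((nok_D4 (H := H) (hTop := hTop) (hF := hF) (hρ := H.rle h) (x' := x') hPW h4 hh hh1).sum
    ((nok_E5 (H := H) (hTop := hTop) (hF := hF) (hρ := H.rle h) (x' := x') hPW h5 hh hh1).sum
      hL)))
  have nT' := nT.and KE
  have nA := (nok_D (H := H) (hTop := hTop) (hF := hF) (hρ := H.rle h) fun _ _ _ => True).sum
    ((nok_S (H := H) (hTop := hTop) (hF := hF) (hρ := H.rle h) fun _ _ _ => True).sum
    ((nok_V (H := H) (hTop := hTop) (hF := hF) (hρ := H.rle h) hV hh hh1).sum nT'))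
  refine noBS_cls nA hrow hh (fun o => ?_) ?_
  · filter_upwards [hcE o, hcL o, hB o, H.rwH_chg hTop hF h o, one_zero H hTop hF o,
      Pool.Z4.ths_of H hTop hF, H.mac_of H.pble hTop hF fun Sb del h1 h2 =>
        evTC (n - 1) (by omega) Sb del h1 h2, slo_two H hTop hF,
      H.rgh_ae hTop hF (be := fun j => bi P' j) (PW := PB) H.thb, H.rgh_ae hTop hF hPW,
      H.gnW_ae hTop hF, H.dia_all H.pble hTop hF]
      with g kE kL kB kR k0 kths kmac ktwo krB krW kgn kdia R hrw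
    have RH := kR R
    have ho := RH.rwd.mem
    rcases le_or_gt (slN hn P P' o (n - 1) g) 1 with h1 | h1
    · exact ⟨Sum.inl (), NumI.KndP.At.inl (kpD_at H (Or.inl h1))⟩
    by_cases htie : ∃ l, l < n - 1 ∧ slN hn P P' o l g = slN hn P P' o (n - 1) g
    swap
    · refine ⟨Sum.inr (Sum.inr (Sum.inl ())), NumI.KndP.At.inr (NumI.KndP.At.inr
        (NumI.KndP.At.inl (kpV_at H (fun l hl h2 => htie ⟨l, hl, h2⟩) hrw)))⟩
    have htie' : ∃ l, 1 ≤ l ∧ l < n - 1 ∧ slN hn P P' o l g = slN hn P P' o (n - 1) g := by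
      obtain ⟨l, hl, h2⟩ := htie
      rcases Nat.eq_zero_or_pos l with h3 | h3
      · have h6 : slN hn P P' o 0 g = 1 := by
          rw [slN_lvl o (by omega)]
          exact k0 ho
        rw [h3, h6] at h2
        linarith
      · exact ⟨l, h3, hl, h2⟩
    have hbig := kB RH (by rwa [← slN_tar (P' := P') o g]) (by
      obtain ⟨l, h2, h3, h6⟩ := htie'
      refine ⟨l, h2, h3, ?_⟩
      rw [← slN_ll o h3.le, h6, slN_tar])
    have hths := kths o ho hbig
    rcases kmac o ho hths with hthin | hst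
    swap
    · exact ⟨Sum.inr (Sum.inl ()), NumI.KndP.At.inr (NumI.KndP.At.inl (kpS_at H hst))⟩
    have hX : TieT hn P P' PB o g := ⟨h1, htie', hthin, hths⟩
    obtain ⟨xE, hxE⟩ := kE R hrw hX
    have fin : ∀ {y}, (((kpR H hTop hF (H.rle h) h).sum ((kp5 H hTop hF (H.rle h) h).sum
        ((kpC H hTop hF (H.rle h) h PW (SlD hn P P')).sum
          ((kpC H hTop hF (H.rle h) h PW (SlE hn P P')).sum KL)))).At y
          (show ((H.nk hTop hF).chg (H.rle h) H.up).O from o) g) →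
        ∃ x, ((kpD H hTop hF (H.rle h)).sum ((kpS H hTop hF (H.rle h)).sum
          ((kpV H hTop hF (H.rle h) h).sum
          (((kpR H hTop hF (H.rle h) h).sum ((kp5 H hTop hF (H.rle h) h).sum
          ((kpC H hTop hF (H.rle h) h PW (SlD hn P P')).sum
          ((kpC H hTop hF (H.rle h) h PW (SlE hn P P')).sum KL)))).and KE)))).At x
          (show ((H.nk hTop hF).chg (H.rle h) H.up).O from o) g := fun {y} hy =>
      ⟨Sum.inr (Sum.inr (Sum.inr (y, xE))), NumI.KndP.At.inr (NumI.KndP.At.inr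
        (NumI.KndP.At.inr (hy.and hxE)))⟩
    by_cases hcov : CovW hn P P' PB o g
    swap
    · obtain ⟨xL, hxL⟩ := kL R hrw ⟨hX, hcov⟩
      exact fin (y := Sum.inr (Sum.inr (Sum.inr (Sum.inr xL)))) (NumI.KndP.At.inr
        (NumI.KndP.At.inr (NumI.KndP.At.inr (NumI.KndP.At.inr hxL))))
    have hall : (∀ l < n - 1, ThN hn P P' PB o l g) → Sl4 hn P P' o g ∨ Sl35 hn P P' o g →
        ∃ x, ((kpD H hTop hF (H.rle h)).sum ((kpS H hTop hF (H.rle h)).sum
          ((kpV H hTop hF (H.rle h) h).sum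
          (((kpR H hTop hF (H.rle h) h).sum ((kp5 H hTop hF (H.rle h) h).sum
          ((kpC H hTop hF (H.rle h) h PW (SlD hn P P')).sum
          ((kpC H hTop hF (H.rle h) h PW (SlE hn P P')).sum KL)))).and KE)))).At x
          (show ((H.nk hTop hF).chg (H.rle h) H.up).O from o) g := fun hth hsl => by
      rcases hsl with hsl | hsl
      · exact fin (y := Sum.inl (Finset.univ : Finset (Fin n))) (NumI.KndP.At.inl
          (kpR_at hsl hrw fun l hl => krB o ho l hl.le (hth l hl)))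
      · exact fin (y := Sum.inr (Sum.inl (Finset.univ : Finset (Fin n)))) (NumI.KndP.At.inr
          (NumI.KndP.At.inl (kp5_at H hsl.1 hsl.2 hrw fun l hl => krB o ho l hl.le (hth l hl))))
    rcases hcov with hcov | ⟨l₀, hl₀, hth, hsl⟩
    · exact hall hcov.1 hcov.2
    by_cases hth₀ : ThN hn P P' PB o l₀ g
    · refine hall (fun l hl => ?_) (hsl.imp id fun h => h.1)
      by_cases h6 : l = l₀
      · rwa [h6]
      · exact hth l hl h6
    obtain ⟨hsta, h2⟩ := ktwo o ho l₀ hl₀ (fun k hk => hths k (hk.trans hl₀)) (hths l₀ hl₀) hth₀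
    have hrgh : ∀ l ≤ n - 1, l ≠ l₀ → Sml fun r d => Box7 g r fun a w =>
        bet (PW o.2) (cc hn o.1.1) l a w ≤ dgN hn P P' o l w + (a - w) + d := fun l hl hll => by
      refine krW o ho l hl ?_
      rcases hl.lt_or_eq with h6 | rfl
      · exact hth l h6 hll
      · have eL : LvL hn P P' o (n - 1) = P := by
          funext a w
          exact LvL_top o a w
        rw [eL, LvT_top]
        exact hthin
    have hdif : DifferentiableAt ℝ (dgN hn P P' o l₀) g := by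
      have h6 : dgN hn P P' o l₀ = fun a => LvL hn P P' o l₀ a a :=
        funext fun a => dgN_LvL o hl₀.le a
      rw [h6]
      exact (kdia o ho l₀ hl₀.le).1
    have hsta' : StaAt (bet (P' o.2) (cc hn o.1.1) l₀) g := by
      have h6 : LvL hn P P' o l₀ = bet (P' o.2) (cc hn o.1.1) l₀ := by
        funext a w
        exact LvL_lt o hl₀ a w
      rwa [h6] at hsta
    have hcon := con_sml hl₀ hdif h2 hsta'
    have hgn := kgn o ho l₀ hl₀ (fun k hk => hth k (hk.trans hl₀) (by omega)) hsta h2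
    rcases hsl with hsl | ⟨hsl, h3⟩
    · exact fin (y := Sum.inr (Sum.inr (Sum.inl ⟨l₀, hl₀⟩))) (NumI.KndP.At.inr
        (NumI.KndP.At.inr (NumI.KndP.At.inl (kpC_at (l₀ := ⟨l₀, hl₀⟩) (slD_at h2 hsl)
          (srt_gs H.toPk hTop hF ho) hrw hrgh hcon hgn))))
    · exact fin (y := Sum.inr (Sum.inr (Sum.inr (Sum.inl ⟨l₀, hl₀⟩)))) (NumI.KndP.At.inr
        (NumI.KndP.At.inr (NumI.KndP.At.inr (NumI.KndP.At.inl (kpC_at (l₀ := ⟨l₀, hl₀⟩)
          ⟨1, one_pos, fun _ _ _ => ⟨h3, hsl.1, hsl.2⟩⟩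
          (srt_gs H.toPk hTop hF ho) hrw hrgh hcon hgn)))))
  · refine HasK.sum (fun _ _ _ _ _ _ _ _ _ _ _ _ _ => trivial)
      (HasK.sum (fun _ _ _ _ _ _ _ _ _ _ _ _ _ => trivial) (HasK.sum hEV ?_))
    intro p hp κ kd y x c β h₁ M hc hβ hK
    have hK' : OnK H KE p x.2 c (IsK p.cell kd c β h₁ M y) :=
      ⟨fun ε q hq => (hK.A ε q hq).2, fun ε' hε' => (hK.Φ ε' hε').mono fun _ h => h.2⟩
    have h6 := hE p hp kd y x.2 c β h₁ M hc hβ hK'
    rcases x with ⟨x | x | x | x | x, xE⟩ <;> exact h6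

end Pool.PKG
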