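import Pool.Agent.H78.MIC.GenT

/-!
# The labels of a grid from a joint family of chains

`GrJ`: the constants of the exact labels, for chains at all the points of a grid on one event with a
joint property `Y` of the two sides; `grJ_ex`. `GrJ.grX`: these are also constants for chains which are
given separately.

`grd_of_box`: the field `grd` of `FactP` from joint families of chains. `grd_and`: a further property
of the labels, on large subevents.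
-/

set_option autoImplicit false

namespace Pool.STAT

open Finset MvPolynomial
open Pool.Agent.H49.Ent Pool.Agent.H32.Dense Pool.STK Pool.KS3 Pool.KA Pool.KSAT Pool.PB Pool.GEN
open Pool.K2S Pool.S6C
open CLO

variable {m : ℕ}

/-- The visible sides of the chains at the points of a grid. -/
abbrev GGs {m J : ℕ} (F : Fam m J) : Type :=
  ℕ → ℕ → PtT F → ℕ → MvPolynomial (Option (Fin m)) ℝ

/-- The line sides of the chains at the points of a grid. -/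
abbrev HHs {m J : ℕ} (F : Fam m J) : Type :=
  ℕ → ℕ → LnT F → ℕ → MvPolynomial (Option (Fin m)) ℝ

/-- A joint property of the chains at the points of a grid. -/
abbrev JntP (m : ℕ) : Type 1 := (J : ℕ) → (F : Fam m J) → (F.Ω → Prop) → GGs F → HHs F → Prop

/-- The property is stable under subevents. -/
def JntP.Her (Y : JntP m) : Prop := ∀ {J : ℕ} {F : Fam m J} {A B : F.Ω → Prop} {G : GGs F}
  {H : HHs F}, Sub B A → Y J F A G H → Y J F B G H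

/-- **The constants of the exact labels**, for joint families of chains. -/
def GrJ (n K K' s₁ : ℕ) (sh : ℕ → ℕ) : Prop :=
  ∀ {m : ℕ} {Y : JntP m}, Y.Her →
    ∀ {S : PCl m} {M : ℕ} {c : ℕ → Fin m} {α ϖ ζ : ℝ} {e : ℕ → ℕ → ℝ} {b : ℕ → ℕ → ℕ → ℝ},
    0 ≤ ϖ → 0 < ζ → ϖ + (M + 1) * ζ < α → α + (M + 1) * ζ < 1 → Inj c n →
    (∀ i ≤ M, ∀ j ≤ M, ∀ l < n, 0 < b i j l) →
    Lg S (fun J F A => ∃ (G : GGs F) (H : HHs F),
      (∀ i ≤ M, ∀ j ≤ M, ChOK F c n (fun _ => K) (up α J + i * up ζ J) (up ϖ J + j * up ζ J)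
        ⌊e i j * J⌋₊ (fun l => ⌊b i j l * J⌋₊) A (G i j) (H i j)) ∧ Y J F A G H) →
    Lg S (fun J F A => up ϖ J + (M + 1) * up ζ J ≤ up α J ∧
      up α J + (M + 1) * up ζ J ≤ J ∧ 1 ≤ up ζ J ∧
      ∃ D : GDat F, D.Ok c n K K' s₁ sh (up α J) (up ϖ J) (up ζ J) M
        (fun i j => ⌊e i j * J⌋₊) (fun i j l => ⌊b i j l * J⌋₊) A ∧ Y J F A D.G D.H)

theorem grJ_ex (n K : ℕ) : ∃ (sh : ℕ → ℕ) (K' s₁ : ℕ), 1 ≤ K' ∧ GrJ n K K' s₁ sh := by
  obtain ⟨sh, K', s₁, hK', hcd⟩ := cd2 n K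
  refine ⟨sh, K', s₁, hK', ?_⟩
  intro m Y hY S M c α ϖ ζ e b hϖ hζ hthin htop hc hb h
  obtain ⟨J₁, h1⟩ := grid_ev hϖ hζ hthin htop
  obtain ⟨J₂, h2⟩ := flo_ev hb sh
  obtain ⟨C, hC, hall⟩ := h
  have hK1 : (1 : ℝ) ≤ (K' : ℝ) ^ ((M + 1) ^ 2) :=
    one_le_pow₀ (by exact_mod_cast hK')
  refine ⟨C * (K' : ℝ) ^ ((M + 1) ^ 2), by nlinarith, ?_⟩
  refine Bas.mono (max J₁ J₂) hall ?_
  rintro J hJ F A ⟨B, hBA, hPe, G, H, hB, hYB⟩
  obtain ⟨h3, h4, h5⟩ := h1 J ((le_max_left _ _).trans hJ)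
  have h6 := h2 J ((le_max_right _ _).trans hJ)
  have e1 : (M + 1) * up ζ J = M * up ζ J + up ζ J := by ring
  obtain ⟨zL, PL, zS, zS', PS, B', hBB, hPe', hO⟩ := hcd m J M (up α J) (up ϖ J) (up ζ J) F c
    (fun _ _ _ => K) (fun i j => ⌊e i j * J⌋₊) (fun i j l => ⌊b i j l * J⌋₊) B G H (by omega)
    (by omega) hc (fun _ _ _ _ _ _ => le_rfl) h6 hB
  refine ⟨B', fun ω hω => hBA ω (hBB ω hω), ?_, h3, h4, h5, ⟨G, H, zL, PL, zS, zS', PS⟩,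
    ⟨fun i hi j hj => (hB i hi j hj).sub hBB, hO⟩, hY hBB hYB⟩
  calc Pe F.p A ≤ C * Pe F.p B := hPe
    _ ≤ C * ((K' : ℝ) ^ ((M + 1) ^ 2) * Pe F.p B') :=
        mul_le_mul_of_nonneg_left hPe' (by linarith)
    _ = C * (K' : ℝ) ^ ((M + 1) ^ 2) * Pe F.p B' := by ring

/-- The constants for joint families are constants for separate chains. -/
theorem GrJ.grX {n K K' s₁ : ℕ} {sh : ℕ → ℕ} (hgr : GrJ n K K' s₁ sh) :
    GrX n K K' s₁ sh := by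
  intro m X hX S M c α ϖ ζ e b hϖ hζ hthin htop hc hb h
  refine hgr (Y := fun J F A G H => ∀ i ≤ M, ∀ j ≤ M, X i j J F A (G i j) (H i j))
    (fun hB hY i hi j hj => hX i j _ _ _ _ _ _ hB (hY i hi j hj)) hϖ hζ hthin htop hc hb ?_
  refine Lg.mono 0 (Lg.all (S := S) (range (M + 1) ×ˢ range (M + 1)) (Φ := fun p J F A =>
      ∃ (G : PtT F → ℕ → MvPolynomial (Option (Fin m)) ℝ)
        (H : LnT F → ℕ → MvPolynomial (Option (Fin m)) ℝ),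
        ChOK F c n (fun _ => K) (up α J + p.1 * up ζ J) (up ϖ J + p.2 * up ζ J) ⌊e p.1 p.2 * J⌋₊
          (fun l => ⌊b p.1 p.2 l * J⌋₊) A G H ∧ X p.1 p.2 J F A G H)
    (by
      rintro p - J F A B hB ⟨G, H, h3, h4⟩
      exact ⟨G, H, h3.sub hB, hX _ _ _ _ _ _ _ _ hB h4⟩)
    (by
      intro p hp
      rw [Finset.mem_product, mem_range, mem_range] at hp
      exact h p.1 (by omega) p.2 (by omega))) ?_
  intro J _ F A hA
  have h1 : ∀ i j, ∃ (G : PtT F → ℕ → MvPolynomial (Option (Fin m)) ℝ)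
      (H : LnT F → ℕ → MvPolynomial (Option (Fin m)) ℝ), i ≤ M → j ≤ M →
      ChOK F c n (fun _ => K) (up α J + i * up ζ J) (up ϖ J + j * up ζ J) ⌊e i j * J⌋₊
        (fun l => ⌊b i j l * J⌋₊) A G H ∧ X i j J F A G H := by
    intro i j
    by_cases hij : i ≤ M ∧ j ≤ M
    · obtain ⟨G, H, h2⟩ := hA (i, j) (by
        rw [Finset.mem_product, mem_range, mem_range]
        exact ⟨Nat.lt_succ_of_le hij.1, Nat.lt_succ_of_le hij.2⟩)
      exact ⟨G, H, fun _ _ => h2⟩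
    · exact ⟨fun _ _ => 0, fun _ _ => 0, fun hi hj => absurd ⟨hi, hj⟩ hij⟩
  choose G H hGH using h1
  exact ⟨G, H, fun i hi j hj => (hGH i j hi hj).1, fun i hi j hj => (hGH i j hi hj).2⟩

/-- **A statement on subevents** of the large events with another statement. -/
theorem Lg.step {S : PCl m} {Φ Ψ : Stat m} (h : Lg S Φ) (h' : ∃ C : ℝ, 1 ≤ C ∧
    Bas S fun J F A => Φ J F A → ∃ B : F.Ω → Prop, Sub B A ∧ Pe F.p A ≤ C * Pe F.p B ∧ Ψ J F B) :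
    Lg S Ψ := by
  obtain ⟨C, hC, τ₁, hτ₁, J₁, h1⟩ := h
  obtain ⟨C', hC', τ₂, hτ₂, J₂, h2⟩ := h'
  obtain ⟨J₃, h3⟩ := exp_ev (τ := τ₂ / 2) (by positivity) C
  refine ⟨C * C', by nlinarith, min τ₁ (τ₂ / 2), lt_min hτ₁ (by positivity),
    max J₁ (max J₂ J₃), fun J hJ F A hA => ?_⟩
  have j1 : J₁ ≤ J := (le_max_left _ _).trans hJ
  have j2 : J₂ ≤ J := ((le_max_left _ _).trans (le_max_right _ _)).trans hJ
  have j3 : J₃ ≤ J := ((le_max_right _ _).trans (le_max_right _ _)).trans hJ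
  obtain ⟨B, hBA, hPe, hB⟩ := h1 J j1 F A (S.mono (min_le_left _ _) hA)
  have hA2 : S.St (τ₂ / 2) J F A := S.mono (min_le_right _ _) hA
  have hB2 : S.St (τ₂ / 2 + τ₂ / 2) J F B := by
    refine S.res (by positivity) hA2 hBA ?_
    have h5 : Pe F.p A ≤ Real.exp (τ₂ / 2 * J) * Pe F.p B :=
      hPe.trans (mul_le_mul_of_nonneg_right (h3 J j3) (Pe_nonneg F.isLaw _))
    calc Real.exp (-(τ₂ / 2 * J)) * Pe F.p A ≤
          Real.exp (-(τ₂ / 2 * J)) * (Real.exp (τ₂ / 2 * J) * Pe F.p B) :=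
          mul_le_mul_of_nonneg_left h5 (Real.exp_pos _).le
      _ = Pe F.p B := by
          rw [← mul_assoc, ← Real.exp_add, neg_add_cancel, Real.exp_zero, one_mul]
  rw [add_halves] at hB2
  obtain ⟨B', hBB', hPe', hB'⟩ := h2 J j2 F B hB2 hB
  refine ⟨B', fun ω hω => hBA ω (hBB' ω hω), ?_, hB'⟩
  calc Pe F.p A ≤ C * Pe F.p B := hPe
    _ ≤ C * (C' * Pe F.p B') := mul_le_mul_of_nonneg_left hPe' (by linarith)
    _ = C * C' * Pe F.p B' := by ring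

variable {Θ : Type*} {I : ℝ → Θ → Prop} {n₀ : ℕ} {S : PCl m}

/-- **The labels of the grid from joint families of chains**: the field `grd` of `FactP`. -/
theorem grd_of_box (hI : MonoI I) {Kt : KitP m Θ n₀} (hinj : ∀ p, Inj (Kt.cs p) (n₀ + 1))
    {K' s₁ : ℕ} {sh : ℕ → ℕ} (hgr : GrJ (n₀ + 1) Kt.K K' s₁ sh)
    {Y : Θ → ℕ → ℕ → ℝ → JntP m} (her : ∀ p N M θ, (Y p N M θ).Her) {T' : ℝ}
    (fcel : ∀ ε' : ℝ, 0 < ε' → EvP I fun p =>
      CellL (n₀ + 1) (Kt.L p) ε' T' (Kt.y p) (Kt.X p) (Kt.la p) (Kt.ml p))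
    (hW : ∀ p N M θ (J : ℕ) (F : Fam m J) (D : GDat F) (A : F.Ω → Prop),
      Y p N M θ J F A D.G D.H → Kt.W p N M θ J F D A)
    (box : ∀ M : ℕ, EvQ I fun N θ p => ∃ (b : ℕ → ℕ → ℕ → ℝ) (e : ℕ → ℕ → ℝ),
      Kt.Near p N M θ b e ∧ Lg S fun J F A => ∃ (G : GGs F) (H : HHs F),
        (∀ i ≤ M, ∀ j ≤ M, ChOK F (Kt.cs p) (n₀ + 1) (fun _ => Kt.K)
          (up ((Kt.y p).1 + (Kt.y p).2) J + i * up (msh (Kt.X p) N M) J)
          (up (Kt.y p).1 J + j * up (msh (Kt.X p) N M) J) ⌊e i j * J⌋₊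
          (fun l => ⌊b i j l * J⌋₊) A (G i j) (H i j)) ∧ Y p N M θ J F A G H) (M : ℕ) :
    EvQ I fun N θ p => ∃ (b : ℕ → ℕ → ℕ → ℝ) (e : ℕ → ℕ → ℝ), Kt.Near p N M θ b e ∧
      Lg S fun _ F A => ∃ D : GDat F, (Kt.grid K' s₁ sh p N M θ b e).Ok F D A := by
  obtain ⟨N₁, hN₁⟩ := exists_nat_ge (4 * (T' + 2))
  have key := ((KitP.cel_evQ fcel M).and hI (box M)).and hI
    (EvQ.self I (max N₁ 2) (θ₀ := 1 / 16) (by norm_num)
      (ε := fun N _ => 1) (fun N _ _ => one_pos))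
  refine key.mono ?_
  rintro N θ p ⟨⟨hL, b, e, hnear, hchn⟩, hN, hθ, hθ1, -⟩
  have hNN : N₁ ≤ N := (le_max_left _ _).trans hN
  have hN2 : 2 ≤ N := (le_max_right _ _).trans hN
  have hN1 : 1 ≤ N := by omega
  have hNT : 4 * (T' + 2) ≤ N := hN₁.trans (by exact_mod_cast hNN)
  obtain ⟨ε, hε⟩ : ∃ ε : ℝ, ε = 1 / (64 * (N * (M + 4)) + 1) := ⟨_, rfl⟩
  rw [← hε] at hL
  have hε0 : 0 < ε := by rw [hε]; positivity
  have hεN : ε * (64 * (N * (M + 4))) ≤ 1 := by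
    rw [hε, one_div, inv_mul_le_iff₀ (by positivity)]
    linarith
  have hs := hL.sideE (B := 1) (by omega : 1 ≤ n₀ + 1) hN1 hNT hN2 le_rfl hε0.le hεN hθ hθ1 hnear
  refine ⟨b, e, hnear, ?_⟩
  have h1 := hgr (her p N M θ) (S := S) (M := M) (c := Kt.cs p)
    (α := (Kt.y p).1 + (Kt.y p).2) (ϖ := (Kt.y p).1) (ζ := msh (Kt.X p) N M) (e := e) (b := b)
    hs.win hs.ζ0 hs.thin hs.top (hinj p) hs.pos hchn
  refine h1.mono 0 ?_
  rintro J - F A ⟨-, -, -, D, hD, hX⟩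
  exact ⟨D, hD, hW p N M θ J F D A hX⟩

/-! ### A further property -/

/-- The kit with another joint property. -/
def KitP.setW (Kt : KitP m Θ n₀) (W : Θ → ℕ → ℕ → ℝ → GrdP m)
    (her : ∀ p N M θ, (W p N M θ).Her) : KitP m Θ n₀ where
  cs := Kt.cs
  L := Kt.L
  y := Kt.y
  X := Kt.X
  la := Kt.la
  ml := Kt.ml
  K := Kt.K
  W := W
  her := her
  RT := Kt.RT
  rc := Kt.rc

/-- **A further property** `V` of the labels of the grid, on large subevents. -/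
theorem grd_and (hI : MonoI I) {Kt : KitP m Θ n₀} {K' s₁ : ℕ} {sh : ℕ → ℕ}
    {V : Θ → ℕ → ℕ → ℝ → GrdP m} {W : Θ → ℕ → ℕ → ℝ → GrdP m}
    {her : ∀ p N M θ, (W p N M θ).Her} {M : ℕ}
    (hW : ∀ p N M θ (J : ℕ) (F : Fam m J) (D : GDat F) (A : F.Ω → Prop),
      Kt.W p N M θ J F D A → V p N M θ J F D A → W p N M θ J F D A)
    (grd : EvQ I fun N θ p => ∃ (b : ℕ → ℕ → ℕ → ℝ) (e : ℕ → ℕ → ℝ), Kt.Near p N M θ b e ∧
      Lg S fun _ F A => ∃ D : GDat F, (Kt.grid K' s₁ sh p N M θ b e).Ok F D A)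
    (hV : EvQ I fun N θ p => ∀ (b : ℕ → ℕ → ℕ → ℝ) (e : ℕ → ℕ → ℝ), Kt.Near p N M θ b e →
      ∃ C : ℝ, 1 ≤ C ∧ Bas S fun J F A => ∀ D : GDat F,
        (Kt.grid K' s₁ sh p N M θ b e).Ok F D A →
        ∃ B : F.Ω → Prop, Sub B A ∧ Pe F.p A ≤ C * Pe F.p B ∧ V p N M θ J F D B) :
    EvQ I fun N θ p => ∃ (b : ℕ → ℕ → ℕ → ℝ) (e : ℕ → ℕ → ℝ),
      (Kt.setW W her).Near p N M θ b e ∧
      Lg S fun _ F A => ∃ D : GDat F, ((Kt.setW W her).grid K' s₁ sh p N M θ b e).Ok F D A := by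
  refine (grd.and hI hV).mono ?_
  rintro N θ p ⟨⟨b, e, hnear, hg⟩, hv⟩
  refine ⟨b, e, hnear, ?_⟩
  obtain ⟨C, hC, h1⟩ := hv b e hnear
  refine Lg.step hg ⟨C, hC, Bas.mono 0 h1 ?_⟩
  rintro J - F A hA ⟨D, hD⟩
  obtain ⟨B, k1, k2, k3⟩ := hA D hD
  have hDB := hD.sub k1
  exact ⟨B, k1, k2, D, ⟨hDB.1, hW p N M θ J F D B hDB.2 k3⟩⟩

end Pool.STAT
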