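import Pool.Agent.H78.MIC.TopB
import Pool.Agent.H78.MIC.GrdJ
import Pool.Agent.H40.ISO.Ok
import Pool.Agent.H40.ISO.Gdi

/-!
# The axioms of the cells of the fattest boxes

The levels of a kit have slope one in the depth. `KitP.Wgd`: near charts and the own relation of the
labels of a grid (`OKI.Gd`, helper40), for sides near to the levels. `hV_iso`: this property holds on
large subevents, from exactness given the closed labels and full time. `ok2_iso`: the axioms `Ok2` for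
labels with this property.
-/

set_option autoImplicit false

namespace Pool.STAT

open Finset MvPolynomial
open Pool.Agent.H49.Ent Pool.Agent.H32.Dense Pool.STK Pool.KS3 Pool.KA Pool.KSAT Pool.PB Pool.GEN
open Pool.K2S Pool.S6C
open Pool.LEV (Law Lv)
open Pool.STR (Affn Nw NfB AffB CellD)
open Pool.BFL (Pb)
open Pool.CHT (TmH)
open CLO Pool.MIC6

variable {m n₀ : ℕ} {Θ : Type*} {I : ℝ → Θ → Prop}

/-! ### The numbers -/

/-- A real number is at most its multiple, for large `J`. -/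
theorem lin_ev {a ζ : ℝ} (ha : 0 < a) (hζ : 0 < ζ) (R : ℝ) :
    ∃ J₁ : ℕ, ∀ J ≥ J₁, R ≤ a * up ζ J := by
  obtain ⟨J₁, hJ₁⟩ := exists_nat_ge (R / (a * ζ))
  refine ⟨J₁, fun J hJ => ?_⟩
  have h1 : R / (a * ζ) ≤ J := hJ₁.trans (by exact_mod_cast hJ)
  rw [div_le_iff₀ (by positivity)] at h1
  have h2 := mul_le_mul_of_nonneg_left (up_ge ζ J) ha.le
  linarith

/-- Integer parts of near numbers. -/
theorem flo_near {b L θ ζ : ℝ} (hθ : 0 ≤ θ) (hup : b ≤ L) (hlo : L - θ * ζ ≤ b)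
    (J : ℕ) : ⌊b * J⌋₊ ≤ ⌊L * J⌋₊ ∧ ⌊L * J⌋₊ ≤ ⌊b * J⌋₊ + (⌈θ * up ζ J⌉₊ + 1) := by
  have hJ : (0 : ℝ) ≤ J := Nat.cast_nonneg J
  refine ⟨Nat.floor_le_floor (mul_le_mul_of_nonneg_right hup hJ), ?_⟩
  refine Nat.floor_le_of_le ?_
  push_cast
  have h1 := Nat.lt_floor_add_one (b * J)
  have h2 := Nat.le_ceil (θ * up ζ J)
  have h3 := mul_le_mul_of_nonneg_left (up_ge ζ J) hθ
  have h4 := mul_le_mul_of_nonneg_right hlo hJ
  linarith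

/-- The error of the sides in the radius. -/
noncomputable def xz (θ : ℝ) (M z : ℕ) : ℕ := ⌈5 * θ * z⌉₊ + M + 3

theorem xz_le {θ δ : ℝ} (hθ : 0 ≤ θ) (hθδ : 5 * θ ≤ δ / 2) (M : ℕ) {z : ℕ}
    (hz : (M : ℝ) + 4 ≤ δ / 2 * z) : (xz θ M z : ℝ) ≤ δ * z := by
  have hz0 : (0 : ℝ) ≤ z := Nat.cast_nonneg z
  have h1 := (Nat.ceil_lt_add_one (show 0 ≤ 5 * θ * z by positivity)).le
  have h2 := mul_le_mul_of_nonneg_right hθδ hz0
  unfold xz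
  push_cast
  linarith

/-- The loss in the own relation. -/
theorem uz_le {θ δ : ℝ} (hθ : 0 ≤ θ) (hθδ : 5 * θ ≤ δ / 2) {z : ℕ}
    (hz : 4 ≤ δ / 2 * z) : ((⌈θ * z⌉₊ + (⌈θ * z⌉₊ + 1) : ℕ) : ℝ) ≤ δ * z := by
  have hz0 : (0 : ℝ) ≤ z := Nat.cast_nonneg z
  have h1 := (Nat.ceil_lt_add_one (show 0 ≤ θ * z by positivity)).le
  have h2 := mul_le_mul_of_nonneg_right hθδ hz0
  have h3 : 0 ≤ θ * z := by positivity
  push_cast
  linarith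

/-- **The sides** of a cell with slope one in the depth. -/
theorem sds_ev {n N M : ℕ} {L : ℕ → ℝ → ℝ → ℝ} {ε T θ : ℝ} {y : ℝ × ℝ} {X : ℝ} {la mu : ℕ → ℝ}
    (h : CellL n L ε T y X la mu) (hmu : ∀ l < n, mu l = 1) (hN : 1 ≤ N) (hθ : 0 < θ)
    (hθ1 : θ ≤ 1 / 16) (hε : ε * X ≤ θ * msh X N M) {b : ℕ → ℕ → ℕ → ℝ} {e : ℕ → ℕ → ℝ}
    (hb : NearE n L y X N M θ b e) (hb0 : ∀ i ≤ M, ∀ j ≤ M, ∀ l < n, 0 ≤ b i j l) {Λ : ℕ}
    (hΛ : T + 3 ≤ Λ) : ∃ J₁ : ℕ, ∀ J ≥ J₁, 2 * xz θ M (up (msh X N M) J) ≤ up (msh X N M) J →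
      OKI.Sds n M (up (msh X N M) J) (xz θ M (up (msh X N M) J)) Λ
        (fun i j l => ⌊b i j l * J⌋₊) := by
  obtain ⟨ζ, hζ⟩ : ∃ ζ, ζ = msh X N M := ⟨_, rfl⟩
  have hζ0 : 0 < ζ := by rw [hζ]; exact msh_pos h.pos hN
  have hval : ∀ i ≤ M, ∀ j ≤ M, ∀ l < n,
      |b i j l - L l (y.1 + y.2) y.1 - (i + (la l - 1) * j) * ζ| ≤ 2 * θ * ζ := by
    intro i hi j hj l hl
    have h1 := abs_le.1 (h.grid (M := M) hN hl (s := i) (t := j) (Nat.cast_nonneg i)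
      (by have : (i : ℝ) ≤ M := by exact_mod_cast hi
          linarith) (Nat.cast_nonneg j)
      (by have : (j : ℝ) ≤ M := by exact_mod_cast hj
          linarith))
    have h2 := hb.up i hi j hj l hl
    have h3 := hb.lo i hi j hj l hl
    rw [hmu l hl, one_mul] at h1
    rw [← hζ] at h1 h2 h3 hε
    rw [abs_le]
    constructor <;> linarith [h1.1, h1.2]
  rw [← hζ]
  obtain ⟨J₁, hJ₁⟩ := lin_ev (a := 1) one_pos hζ0 1
  obtain ⟨J₂, hJ₂⟩ := exists_nat_ge (1 / ζ)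
  refine ⟨max J₁ (max J₂ 1), fun J hJ hx => ?_⟩
  have j1 : J₁ ≤ J := (le_max_left _ _).trans hJ
  have j2 : J₂ ≤ J := ((le_max_left _ _).trans (le_max_right _ _)).trans hJ
  have j3 : 1 ≤ J := ((le_max_right _ _).trans (le_max_right _ _)).trans hJ
  have hJ0 : (0 : ℝ) < J := by exact_mod_cast j3
  obtain ⟨z, hz⟩ : ∃ z, z = up ζ J := ⟨_, rfl⟩
  have z1 : ζ * J ≤ z := by rw [hz]; exact up_ge ζ J
  have z2 : (z : ℝ) ≤ ζ * J + 1 := by rw [hz]; exact up_le hζ0.le J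
  have z3 : 1 ≤ ζ * J := by
    have : 1 / ζ ≤ J := hJ₂.trans (by exact_mod_cast j2)
    rwa [div_le_iff₀ hζ0, mul_comm] at this
  rw [← hz] at hx ⊢
  have hM0 : (0 : ℝ) ≤ M := Nat.cast_nonneg M
  have hx1 : 5 * θ * z + M + 3 ≤ (xz θ M z : ℝ) := by
    unfold xz
    push_cast
    linarith [Nat.le_ceil (5 * θ * z)]
  have hθz : θ * (ζ * J) ≤ θ * z := mul_le_mul_of_nonneg_left z1 hθ.le
  have hθz0 : 0 ≤ θ * z := by positivity
  -- values in digits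
  have hv : ∀ i ≤ M, ∀ j ≤ M, ∀ l < n,
      (⌊b i j l * J⌋₊ : ℝ) ≤ L l (y.1 + y.2) y.1 * J + (i + (la l - 1) * j) * (ζ * J) +
        2 * (θ * (ζ * J)) ∧
      L l (y.1 + y.2) y.1 * J + (i + (la l - 1) * j) * (ζ * J) - 2 * (θ * (ζ * J)) - 1 ≤
        (⌊b i j l * J⌋₊ : ℝ) := by
    intro i hi j hj l hl
    have h1 := abs_le.1 (hval i hi j hj l hl)
    have h2 := Nat.floor_le (mul_nonneg (hb0 i hi j hj l hl) hJ0.le)
    have h3 := Nat.lt_floor_add_one (b i j l * J)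
    have h4 := mul_le_mul_of_nonneg_right h1.1 hJ0.le
    have h5 := mul_le_mul_of_nonneg_right h1.2 hJ0.le
    constructor
    · linarith only [h2, h5]
    · linarith only [h3, h4]
  have hT : ∀ l < n, |la l - 1| ≤ T + 1 := fun l hl => by
    have h1 := h.la0 l hl
    have h2 := h.laT l hl
    rw [abs_le]
    constructor <;> linarith
  have hcast : ∀ {a c : ℕ}, (a : ℝ) < (c : ℝ) + 1 → a ≤ c := fun {a c} h => by
    have : (a : ℝ) < ((c + 1 : ℕ) : ℝ) := by push_cast; exact h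
    exact Nat.lt_succ_iff.1 (by exact_mod_cast this)
  have hz0 : (0 : ℝ) ≤ z := Nat.cast_nonneg z
  have hΛz : (T + 3) * z ≤ Λ * z := mul_le_mul_of_nonneg_right hΛ hz0
  have hTz : ∀ l < n, (la l - 1) * (ζ * J) ≤ (T + 1) * z ∧ -((T + 1) * z) ≤
      (la l - 1) * (ζ * J) := fun l hl => by
    have h1 := abs_le.1 (hT l hl)
    have hζJ : 0 ≤ ζ * J := by positivity
    have hT0 : 0 ≤ T + 1 := (abs_nonneg _).trans (hT l hl)
    have h2 := mul_le_mul_of_nonneg_right h1.1 hζJ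
    have h3 := mul_le_mul_of_nonneg_right h1.2 hζJ
    have h4 := mul_le_mul_of_nonneg_left z1 hT0
    constructor <;> linarith
  have hθ16 : θ * z ≤ 1 / 16 * z := mul_le_mul_of_nonneg_right hθ1 hz0
  have hz3 : (1 : ℝ) ≤ z := z3.trans z1
  refine ⟨fun i hi j hj l hl => hcast ?_, fun i hi j hj l hl => hcast ?_,
    fun i hi j hj l hl => hcast ?_, fun i hi j hj l hl => hcast ?_, hx⟩
  · have h1 := (hv i hi j hj l hl).1
    have h2 := (hv 0 (Nat.zero_le _) j hj l hl).2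
    have h3 : (i : ℝ) * (ζ * J) ≤ i * z := mul_le_mul_of_nonneg_left z1 (Nat.cast_nonneg i)
    push_cast at h2 ⊢
    linarith only [h1, h2, h3, hx1, hθz, hθz0, hM0]
  · have h1 := (hv i hi j hj l hl).2
    have h2 := (hv 0 (Nat.zero_le _) j hj l hl).1
    have hiM : (i : ℝ) ≤ M := by exact_mod_cast hi
    have h3 : (i : ℝ) * z ≤ i * (ζ * J + 1) := mul_le_mul_of_nonneg_left z2 (Nat.cast_nonneg i)
    push_cast at h2 ⊢
    linarith only [h1, h2, h3, hx1, hθz, hθz0, hiM]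
  · have h1 := (hv i hi (j + 1) (by omega) l hl).1
    have h2 := (hv i hi j (by omega) l hl).2
    have h3 := (hTz l hl).1
    push_cast at h1 ⊢
    linarith only [h1, h2, h3, hΛz, hθz, hθ16, hz3]
  · have h1 := (hv i hi (j + 1) (by omega) l hl).2
    have h2 := (hv i hi j (by omega) l hl).1
    have h3 := (hTz l hl).2
    push_cast at h1 ⊢
    linarith only [h1, h2, h3, hΛz, hθz, hθ16, hz3]

/-- **The numbers of a cell of a kit** with slope one in the depth. -/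
theorem iso_num (hI : MonoI I) (Kt : KitP m Θ n₀) (hml : ∀ p, ∀ l < n₀ + 1, Kt.ml p l = 1)
    {T' : ℝ} (fcel : ∀ ε' : ℝ, 0 < ε' → EvP I fun p =>
      CellL (n₀ + 1) (Kt.L p) ε' T' (Kt.y p) (Kt.X p) (Kt.la p) (Kt.ml p)) {Λ : ℕ}
    (hΛ : T' + 3 ≤ Λ) (sh : ℕ → ℕ) (s₂ z₀ M : ℕ) {δ : ℝ} (hδ : 0 < δ) :
    EvQ I fun N θ p => 0 < θ ∧ 0 < msh (Kt.X p) N M ∧
      ∀ (b : ℕ → ℕ → ℕ → ℝ) (e : ℕ → ℕ → ℝ), Kt.Near p N M θ b e →
      ∃ J₁ : ℕ, ∀ J ≥ J₁, OKI.Sds (n₀ + 1) M (up (msh (Kt.X p) N M) J)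
          (xz θ M (up (msh (Kt.X p) N M) J)) Λ (fun i j l => ⌊b i j l * J⌋₊) ∧
        (xz θ M (up (msh (Kt.X p) N M) J) : ℝ) ≤ δ * up (msh (Kt.X p) N M) J ∧
        ((⌈θ * up (msh (Kt.X p) N M) J⌉₊ + (⌈θ * up (msh (Kt.X p) N M) J⌉₊ + 1) : ℕ) : ℝ) ≤
          δ * up (msh (Kt.X p) N M) J ∧
        z₀ ≤ up (msh (Kt.X p) N M) J ∧ 1 ≤ up (msh (Kt.X p) N M) J ∧
        up (Kt.y p).1 J + (M + 1) * up (msh (Kt.X p) N M) J ≤
          up ((Kt.y p).1 + (Kt.y p).2) J ∧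
        up ((Kt.y p).1 + (Kt.y p).2) J + (M + 1) * up (msh (Kt.X p) N M) J ≤ J ∧
        (∀ i ≤ M, ∀ j ≤ M, ∀ l < n₀ + 1, sh (l + 1) ≤ ⌊b i j l * J⌋₊) ∧
        SizF (n₀ + 1) J (up (msh (Kt.X p) N M) J) M s₂ (fun i j => ⌊e i j * J⌋₊)
          (fun i j l => ⌊b i j l * J⌋₊) ∧
        ∀ i ≤ M, ∀ j ≤ M, ∀ l < n₀ + 1, ⌊b i j l * J⌋₊ ≤ ⌊Kt.L p l
            ((Kt.y p).1 + (Kt.y p).2 + i * msh (Kt.X p) N M)
            ((Kt.y p).1 + j * msh (Kt.X p) N M) * J⌋₊ ∧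
          ⌊Kt.L p l ((Kt.y p).1 + (Kt.y p).2 + i * msh (Kt.X p) N M)
            ((Kt.y p).1 + j * msh (Kt.X p) N M) * J⌋₊ ≤
            ⌊b i j l * J⌋₊ + (⌈θ * up (msh (Kt.X p) N M) J⌉₊ + 1) := by
  obtain ⟨N₁, hN₁⟩ := exists_nat_ge (4 * (T' + 2))
  obtain ⟨θ₀, hθ₀⟩ : ∃ θ₀ : ℝ, θ₀ = min (1 / 24) (δ / 10) := ⟨_, rfl⟩
  have hθ₀0 : 0 < θ₀ := by rw [hθ₀]; exact lt_min (by norm_num) (by positivity)
  -- the cells, with errors `θ / (N (M + 4))`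
  have hcel : EvQ I fun N θ p => 0 < θ → CellL (n₀ + 1) (Kt.L p)
      (min (θ / (N * (M + 4) + 1)) (1 / (64 * (N * (M + 4)) + 1))) T' (Kt.y p) (Kt.X p)
      (Kt.la p) (Kt.ml p) := by
    refine ⟨0, fun N _ => ⟨1, one_pos, fun θ hθ _ => ?_⟩⟩
    exact (fcel _ (lt_min (by positivity) (by positivity))).mono fun p hp _ => hp
  have key := hcel.and hI (EvQ.self I (max N₁ 2) (θ₀ := θ₀) hθ₀0
      (ε := fun N _ => 1) (fun N _ _ => one_pos))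
  refine key.mono ?_
  rintro N θ p ⟨hL, hN, hθ, hθ1, -⟩
  replace hL := hL hθ
  have hNN : N₁ ≤ N := (le_max_left _ _).trans hN
  have hN2 : 2 ≤ N := (le_max_right _ _).trans hN
  have hN1 : 1 ≤ N := by omega
  have hNT : 4 * (T' + 2) ≤ N := hN₁.trans (by exact_mod_cast hNN)
  have hθ2 : θ ≤ 1 / 24 := hθ1.trans (by rw [hθ₀]; exact min_le_left _ _)
  have hθ3 : 5 * θ ≤ δ / 2 := by
    have : θ ≤ δ / 10 := hθ1.trans (by rw [hθ₀]; exact min_le_right _ _)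
    linarith
  have hN0 : (0 : ℝ) < N := by exact_mod_cast hN1
  obtain ⟨ε, hε⟩ : ∃ ε : ℝ, ε = min (θ / (N * (M + 4) + 1)) (1 / (64 * (N * (M + 4)) + 1)) :=
    ⟨_, rfl⟩
  rw [← hε] at hL
  have hX := hL.pos
  have hε0 : 0 < ε := by rw [hε]; exact lt_min (by positivity) (by positivity)
  have hεN : ε * (64 * (N * (M + 4))) ≤ 1 := by
    have h1 : ε ≤ 1 / (64 * (N * (M + 4)) + 1) := by rw [hε]; exact min_le_right _ _
    rw [le_div_iff₀ (by positivity)] at h1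
    linarith
  have hζ0 : 0 < msh (Kt.X p) N M := msh_pos hX hN1
  have hεX : ε * Kt.X p ≤ θ * msh (Kt.X p) N M := by
    have h1 : ε ≤ θ / (N * (M + 4) + 1) := by rw [hε]; exact min_le_left _ _
    rw [le_div_iff₀ (by positivity)] at h1
    have e1 : N * ((M + 4) * msh (Kt.X p) N M) = Kt.X p := msh_mul hN1
    have h2 : ε * (N * (M + 4)) ≤ θ := by linarith
    obtain ⟨ζ, hζ⟩ : ∃ ζ, ζ = msh (Kt.X p) N M := ⟨_, rfl⟩
    rw [← hζ] at e1 hζ0 ⊢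
    calc ε * Kt.X p = ε * (N * (M + 4)) * ζ := by rw [← e1]; ring
      _ ≤ θ * ζ := mul_le_mul_of_nonneg_right h2 hζ0.le
  refine ⟨hθ, hζ0, fun b e hnear => ?_⟩
  have hs := hL.sideE (B := 1) (by omega : 1 ≤ n₀ + 1) hN1 hNT hN2 le_rfl hε0.le hεN hθ
    (hθ2.trans (by norm_num)) hnear
  obtain ⟨J₁, h1⟩ := sds_ev hL (hml p) hN1 hθ (hθ2.trans (by norm_num)) hεX hnear
    (fun i hi j hj l hl => (hs.pos i hi j hj l hl).le) hΛ
  obtain ⟨J₂, h2⟩ := lin_ev (a := δ / 2) (by positivity) hζ0 ((M : ℝ) + 4)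
  obtain ⟨J₃, h3⟩ := lin_ev (a := 1) one_pos hζ0 (z₀ : ℝ)
  obtain ⟨J₄, h4⟩ := grid_ev hs.win hs.ζ0 hs.thin hs.top
  obtain ⟨J₅, h5⟩ := flo_ev hs.pos sh
  obtain ⟨J₆, h6⟩ := siz_ev (n := n₀ + 1) (M := M) hs.ζ0 hnear.e0
    (fun i hi j hj l hl => hs.pos i hi j hj l (by omega))
    (fun i hi j hj l hl => by
      have h1 := hs.siz i hi j hj l (by omega)
      rw [Nat.cast_one, one_mul] at h1
      exact h1) s₂
  obtain ⟨J₇, h7⟩ := lin_ev (a := 1 / 12) (by norm_num) hζ0 ((M : ℝ) + 4)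
  refine ⟨max (max (max J₁ J₂) (max J₃ J₄)) (max J₅ (max J₆ J₇)), fun J hJ => ?_⟩
  have j1 : J₁ ≤ J := by omega
  have j2 : J₂ ≤ J := by omega
  have j3 : J₃ ≤ J := by omega
  have j4 : J₄ ≤ J := by omega
  have j5 : J₅ ≤ J := by omega
  have j6 : J₆ ≤ J := by omega
  have j7 : J₇ ≤ J := by omega
  obtain ⟨k1, k2, k3⟩ := h4 J j4
  have hM0 : (0 : ℝ) ≤ M := Nat.cast_nonneg M
  have hx2 : 2 * xz θ M (up (msh (Kt.X p) N M) J) ≤ up (msh (Kt.X p) N M) J := by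
    have e1 := xz_le (δ := 1 / 2) hθ.le (by linarith) M (z := up (msh (Kt.X p) N M) J) (by
      have := h7 J j7
      have h0 : (0 : ℝ) ≤ up (msh (Kt.X p) N M) J := Nat.cast_nonneg _
      linarith)
    have e2 : ((2 * xz θ M (up (msh (Kt.X p) N M) J) : ℕ) : ℝ) ≤ up (msh (Kt.X p) N M) J := by
      push_cast
      linarith
    exact_mod_cast e2
  refine ⟨h1 J j1 hx2, xz_le hθ.le hθ3 M (h2 J j2), uz_le hθ.le hθ3 (by
    have := h2 J j2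
    linarith), ?_, k3, k1, k2, h5 J j5, h6 J j6, fun i hi j hj l hl => ?_⟩
  · have := h3 J j3
    rw [one_mul] at this
    exact_mod_cast this
  · exact flo_near hθ.le (hnear.up i hi j hj l hl).le (hnear.lo i hi j hj l hl) J

/-! ### The property -/

/-- **Near charts and the own relation**, for sides near to the levels. -/
def KitP.Wgd (Kt : KitP m Θ n₀) (Bc : ℕ) (p : Θ) (N M : ℕ) (θ : ℝ) : GrdP m := fun J _ D A =>
  ∃ g : ℕ → ℕ → ℕ → ℕ, (∀ i ≤ M, ∀ j ≤ M, ∀ l < n₀ + 1,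
      g i j l ≤ ⌊Kt.L p l ((Kt.y p).1 + (Kt.y p).2 + i * msh (Kt.X p) N M)
        ((Kt.y p).1 + j * msh (Kt.X p) N M) * J⌋₊ ∧
      ⌊Kt.L p l ((Kt.y p).1 + (Kt.y p).2 + i * msh (Kt.X p) N M)
        ((Kt.y p).1 + j * msh (Kt.X p) N M) * J⌋₊ ≤
        g i j l + (⌈θ * up (msh (Kt.X p) N M) J⌉₊ + 1)) ∧
    OKI.Gd D (Kt.cs p) (n₀ + 1) (up (Kt.y p).1 J) (up (msh (Kt.X p) N M) J) M g Bc
      ⌈θ * up (msh (Kt.X p) N M) J⌉₊ A

theorem KitP.wgd_her (Kt : KitP m Θ n₀) (Bc : ℕ) (p : Θ) (N M : ℕ) (θ : ℝ) :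
    (Kt.Wgd Bc p N M θ).Her := by
  rintro J F D A B hB ⟨g, hg, hG⟩
  exact ⟨g, hg, hG.sub hB⟩

/-- **The property holds on large subevents**, from exactness given the closed labels and full
time. -/
theorem hV_iso (hI : MonoI I) {S : PCl m} (hS : TmH S) (Kt : KitP m Θ n₀)
    (hml : ∀ p, ∀ l < n₀ + 1, Kt.ml p l = 1) (hinj : ∀ p, Inj (Kt.cs p) (n₀ + 1)) {K' s₁ : ℕ}
    {sh : ℕ → ℕ} (hK' : 1 ≤ K')
    (hcom : ∀ p N M θ (J : ℕ) (F : Fam m J) (D : GDat F) (A : F.Ω → Prop),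
      Kt.W p N M θ J F D A → OKI.Cmn D M) {T' : ℝ}
    (fcel : ∀ ε' : ℝ, 0 < ε' → EvP I fun p =>
      CellL (n₀ + 1) (Kt.L p) ε' T' (Kt.y p) (Kt.X p) (Kt.la p) (Kt.ml p))
    (fexc : ∀ k : ℝ, 0 < k → ∀ M : ℕ, EvQ I fun N θ p =>
      Kt.FldN S K' s₁ sh M N θ p fun G J F D q => ExC D G.c G.n G.sh (Kt.rc p N M θ J F D)
        (up G.ϖ J) (up G.ζ J) G.M (G.gn J) (k * up G.ζ J) q) :
    ∃ Bc : ℕ, ∀ M : ℕ, EvQ I fun N θ p => ∀ (b : ℕ → ℕ → ℕ → ℝ) (e : ℕ → ℕ → ℝ),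
      Kt.Near p N M θ b e → ∃ C : ℝ, 1 ≤ C ∧ Bas S fun J F A => ∀ D : GDat F,
        (Kt.grid K' s₁ sh p N M θ b e).Ok F D A →
        ∃ B : F.Ω → Prop, Sub B A ∧ Pe F.p A ≤ C * Pe F.p B ∧ Kt.Wgd Bc p N M θ J F D B := by
  obtain ⟨Λ, hΛ⟩ := exists_nat_ge (T' + 3)
  obtain ⟨Bc, s₂, hgd⟩ := OKI.gd_iso (n₀ + 1) Kt.K K' s₁ Λ sh (by omega) hK'
  refine ⟨Bc, fun M => ?_⟩
  obtain ⟨δ, z₀, hδ, hgd⟩ := hgd M (1 / 2) (by norm_num) (by norm_num)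
  obtain ⟨δ', hδ'⟩ : ∃ δ', δ' = min δ 1 := ⟨_, rfl⟩
  have hδ0 : 0 < δ' := by rw [hδ']; exact lt_min hδ one_pos
  have hδ1 : δ' ≤ δ := by rw [hδ']; exact min_le_left _ _
  have hδ2 : δ' ≤ 1 := by rw [hδ']; exact min_le_right _ _
  have key := (iso_num hI Kt hml fcel hΛ sh s₂ z₀ M hδ0).and hI (fexc δ hδ M)
  refine key.mono ?_
  rintro N θ p ⟨⟨hθ, hζ0, hnum⟩, hexc⟩ b e hnear
  obtain ⟨J₁, h1⟩ := hnum b e hnear
  obtain ⟨J₂, h2⟩ := lin_ev (a := δ * θ / 2) (by positivity) hζ0 1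
  refine ⟨2, by norm_num, ?_⟩
  obtain ⟨hpos, htm⟩ := hS
  have hp : Bas S (fun _ F A => 0 < Pe F.p A) := ⟨1, one_pos, 0, fun J _ F A hA => hpos 1 J F A hA⟩
  refine Bas.mono (max J₁ J₂) (Bas.and (Bas.and (htm (δ * θ / 2 * msh (Kt.X p) N M)
    (by positivity)) hp) (hexc b e hnear)) ?_
  rintro J hJ F A ⟨⟨h3, hA⟩, h4⟩ D hD
  obtain ⟨c1, c2, c3, c4, c5, c6, c7, c8, c9, c10⟩ := h1 J ((le_max_left _ _).trans hJ)
  have c11 := h2 J ((le_max_right _ _).trans hJ)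
  obtain ⟨z, hz⟩ : ∃ z, z = up (msh (Kt.X p) N M) J := ⟨_, rfl⟩
  have hexcD := h4 D hD
  have hz0 : (0 : ℝ) ≤ z := Nat.cast_nonneg z
  have hw : up (Kt.y p).1 J ≤ J := by
    have h5 : 0 ≤ (M + 1) * up (msh (Kt.X p) N M) J := Nat.zero_le _
    omega
  have htime := CDat.nd_time hA (h3 hA) hw
  rw [Nat.cast_sub hw] at htime
  have hzJ : msh (Kt.X p) N M * J ≤ z := by rw [hz]; exact up_ge _ J
  rw [← hz] at c1 c2 c3 c4 c5 c6 c7 c9 c10 c11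
  have e1 : (M + 1) * z = M * z + z := by ring
  have hcl := Nat.le_ceil (θ * z)
  have hcl1 : (⌈θ * z⌉₊ : ℕ) ≤ z := by
    have h6 : ((⌈θ * z⌉₊ + (⌈θ * z⌉₊ + 1) : ℕ) : ℝ) ≤ z :=
      c3.trans (by
        have := mul_le_mul_of_nonneg_right hδ2 hz0
        linarith)
    have h7 : ⌈θ * z⌉₊ + (⌈θ * z⌉₊ + 1) ≤ z := by exact_mod_cast h6
    omega
  obtain ⟨A', k1, k2, k3⟩ := hgd (D := D) (a₀ := up ((Kt.y p).1 + (Kt.y p).2) J)
    (w₀ := up (Kt.y p).1 J) (z := z) (e := fun i j => ⌊e i j * J⌋₊)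
    (g := fun i j l => ⌊b i j l * J⌋₊) (x := xz θ M z) (z' := ⌈θ * z⌉₊) (B := A)
    (ρ := Kt.rc p N M θ J F D) (k := δ) (E := δ * θ / 2 * z)
    (q := Pool.Agent.H49.Ent.cond F.p A True) (by
      have h5 := hD.1
      rw [hz]
      exact h5) (hcom p N M θ J F D A hD.2) c1 (hinj p) c4 hcl1 (by omega) (by omega)
    c8 c9 (isLaw_cond F.isLaw hA) (fun ω hω => Pool.PB.End.of_cond_pos hω) (by positivity)
    (by
      have h5 := mul_le_mul_of_nonneg_left hcl hδ.le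
      linarith only [h5, c11]) (by
      have h5 := mul_le_mul_of_nonneg_left hzJ (show 0 ≤ δ * θ / 2 by positivity)
      linarith only [htime, h5]) hδ.le le_rfl (by
      rw [hz]
      exact hexcD)
  have hAA : Sub A' A := fun ω hω => Pool.PB.End.of_cond_pos (k1 ω hω)
  refine ⟨A', hAA, ?_, fun i j l => ⌊b i j l * J⌋₊, fun i hi j hj l hl => ?_, ?_⟩
  · have h5 := Pool.LBK.Pb_cond_sub hAA hA
    have h6 := mul_le_mul_of_nonneg_right k2 hA.le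
    rw [h5] at h6
    linarith
  · have h5 := c10 i hi j hj l hl
    rw [← hz]
    exact h5
  · rw [← hz]
    exact k3.gd

/-- **The axioms `Ok2`** for labels with near charts and the own relation. -/
theorem ok2_iso (hI : MonoI I) {S : PCl m}
    (hpos : ∀ (τ : ℝ) (J : ℕ) (F : Fam m J) (A : F.Ω → Prop), S.St τ J F A → 0 < Pe F.p A)
    (Kt : KitP m Θ n₀) (hml : ∀ p, ∀ l < n₀ + 1, Kt.ml p l = 1)
    (hinj : ∀ p, Inj (Kt.cs p) (n₀ + 1)) {K' s₁ : ℕ} {sh : ℕ → ℕ} (hK' : 1 ≤ K')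
    (hsub : ∀ p N M θ (J : ℕ) (F : Fam m J) (D : GDat F) (i j : ℕ),
      Subsingleton (Kt.RT p N M θ J F D i j))
    (hcom : ∀ p N M θ (J : ℕ) (F : Fam m J) (D : GDat F) (A : F.Ω → Prop),
      Kt.W p N M θ J F D A → OKI.Cmn D M) {Bc : ℕ}
    (hWgd : ∀ p N M θ (J : ℕ) (F : Fam m J) (D : GDat F) (A : F.Ω → Prop),
      Kt.W p N M θ J F D A → Kt.Wgd Bc p N M θ J F D A) {T' : ℝ}
    (fcel : ∀ ε' : ℝ, 0 < ε' → EvP I fun p =>
      CellL (n₀ + 1) (Kt.L p) ε' T' (Kt.y p) (Kt.X p) (Kt.la p) (Kt.ml p))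
    (fexc : ∀ k : ℝ, 0 < k → ∀ M : ℕ, EvQ I fun N θ p =>
      Kt.FldN S K' s₁ sh M N θ p fun G J F D q => ExC D G.c G.n G.sh (Kt.rc p N M θ J F D)
        (up G.ϖ J) (up G.ζ J) G.M (G.gn J) (k * up G.ζ J) q) :
    ∃ C₅ : ℝ, ∀ C₁ ≥ C₅, ∀ κ : ℝ, 0 < κ → ∀ M : ℕ, EvQ I fun N θ p =>
      Kt.FldN S K' s₁ sh M N θ p fun G J F D q => (Kt.nd p N M θ G F D).Ok2 G.n G.K' J
        (up G.α J) (up G.ϖ J) (up G.ζ J) G.M (lamS (n₀ + 1) (Kt.ml p))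
        (gamS (n₀ + 1) (Kt.la p) (Kt.ml p)) κ C₁ q := by
  obtain ⟨Λ, hΛ⟩ := exists_nat_ge (T' + 3)
  obtain ⟨Bc', z₁, hchg⟩ := OKI.Gd.chg (n₀ + 1) Kt.K Bc
  obtain ⟨C₀, s₂, hC₀, hok⟩ := OKI.ok_iso (n₀ + 1) Kt.K K' s₁ Λ Bc' sh hK'
  refine ⟨max C₀ 1, fun C₁ hC₁ κ hκ M => ?_⟩
  have c0 : C₀ ≤ C₁ := (le_max_left _ _).trans hC₁
  have c1 : 1 ≤ C₁ := (le_max_right _ _).trans hC₁
  obtain ⟨δ, z₀, hδ, hok⟩ := hok M κ hκ
  obtain ⟨δ', hδ'⟩ : ∃ δ', δ' = min δ 1 := ⟨_, rfl⟩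
  have hδ0 : 0 < δ' := by rw [hδ']; exact lt_min hδ one_pos
  have hδ1 : δ' ≤ δ := by rw [hδ']; exact min_le_left _ _
  have hδ2 : δ' ≤ 1 := by rw [hδ']; exact min_le_right _ _
  obtain ⟨N₁, hN₁⟩ := exists_nat_ge (4 * (T' + 2))
  have key := ((iso_num hI Kt hml fcel hΛ sh s₂ (max z₀ z₁) M hδ0).and hI (fexc δ hδ M)).and hI
    ((KitP.cel_evQ fcel M).and hI (EvQ.self I (max N₁ 2) (θ₀ := 1 / 16) (by norm_num)
      (ε := fun N _ => 1) (fun N _ _ => one_pos)))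
  refine key.mono ?_
  rintro N θ p ⟨⟨⟨hθ, hζ0, hnum⟩, hexc⟩, hL, hN, -, hθ1, -⟩ b e hnear
  have hNN : N₁ ≤ N := (le_max_left _ _).trans hN
  have hN2 : 2 ≤ N := (le_max_right _ _).trans hN
  have hN1 : 1 ≤ N := by omega
  have hNT : 4 * (T' + 2) ≤ N := hN₁.trans (by exact_mod_cast hNN)
  obtain ⟨ε, hε⟩ : ∃ ε : ℝ, ε = 1 / (64 * (N * (M + 4)) + 1) := ⟨_, rfl⟩
  rw [← hε] at hL
  have hε0 : 0 < ε := by rw [hε]; positivity
  have hεN : ε * (64 * (N * (M + 4))) ≤ 1 := by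
    rw [hε, one_div, inv_mul_le_iff₀ (by positivity)]
    linarith
  have hs := hL.sideE (B := 1) (by omega : 1 ≤ n₀ + 1) hN1 hNT hN2 le_rfl hε0.le hεN hθ hθ1 hnear
  have hnum2 : ∀ i ≤ M, ∀ j ≤ M, ∀ l < n₀ + 1, |b i j l - Kt.L p l
      ((Kt.y p).1 + (Kt.y p).2 + i * msh (Kt.X p) N M) ((Kt.y p).1 + j * msh (Kt.X p) N M)| ≤
      msh (Kt.X p) N M / 16 := by
    intro i hi j hj l hl
    have h1 := hnear.up i hi j hj l (by omega)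
    have h2 := hnear.lo i hi j hj l (by omega)
    have h3 : θ * msh (Kt.X p) N M ≤ 1 / 16 * msh (Kt.X p) N M :=
      mul_le_mul_of_nonneg_right hθ1 hζ0.le
    rw [abs_le]
    constructor
    · linarith only [h2, h3]
    · linarith only [h1, hζ0]
  obtain ⟨J₁, h1⟩ := hnum b e hnear
  obtain ⟨J₂, h2⟩ := hL.num (by omega : 1 ≤ n₀ + 1) hN1 hNT hε0.le hεN (sh := sh) c1 hnum2
    fun i hi j hj l hl => (hs.pos i hi j hj l hl).le
  have hp : Bas S (fun _ F A => 0 < Pe F.p A) := ⟨1, one_pos, 0, fun J _ F A hA => hpos 1 J F A hA⟩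
  refine Bas.mono (max J₁ J₂) (Bas.and hp (hexc b e hnear)) ?_
  rintro J hJ F A ⟨hA, h4⟩ D hD
  obtain ⟨d1, d2, d3, d4, d5, d6, d7, d8, d9, d10⟩ := h1 J ((le_max_left _ _).trans hJ)
  have hN2' := h2 J ((le_max_right _ _).trans hJ)
  have hexcD := h4 D hD
  obtain ⟨g, hg, hG⟩ := hWgd p N M θ J F D A hD.2
  obtain ⟨z, hz⟩ : ∃ z, z = up (msh (Kt.X p) N M) J := ⟨_, rfl⟩
  have hz0 : (0 : ℝ) ≤ z := Nat.cast_nonneg z
  rw [← hz] at d1 d2 d3 d4 d5 d6 d7 d9 d10 hg hG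
  have hOk : D.Ok (Kt.cs p) (n₀ + 1) Kt.K K' s₁ sh (up ((Kt.y p).1 + (Kt.y p).2) J)
      (up (Kt.y p).1 J) z M (fun i j => ⌊e i j * J⌋₊) (fun i j l => ⌊b i j l * J⌋₊) A := by
    rw [hz]
    exact hD.1
  have e1 : (M + 1) * z = M * z + z := by ring
  have hcl1 : ⌈θ * z⌉₊ + (⌈θ * z⌉₊ + 1) ≤ z := by
    have h6 : ((⌈θ * z⌉₊ + (⌈θ * z⌉₊ + 1) : ℕ) : ℝ) ≤ z :=
      d3.trans (by
        have := mul_le_mul_of_nonneg_right hδ2 hz0
        linarith)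
    exact_mod_cast h6
  have hG' := hchg (g' := fun i j l => ⌊b i j l * J⌋₊) (u := ⌈θ * z⌉₊ + 1) hOk hG
    ((le_max_right _ _).trans d4) (by omega) (fun i hi j hj l hl => by
      have h5 := hg i hi j hj l hl
      have h6 := d10 i hi j hj l hl
      constructor
      · show g i j l ≤ ⌊b i j l * J⌋₊ + (⌈θ * z⌉₊ + 1)
        omega
      · show ⌊b i j l * J⌋₊ ≤ g i j l + (⌈θ * z⌉₊ + 1)
        omega)
  have hiso := hG'.iso hOk (hcom p N M θ J F D A hD.2) d1 (by omega) d5 hcl1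
  have hfin := hok (ρ := Kt.rc p N M θ J F D) (lam := lamS (n₀ + 1) (Kt.ml p))
    (gam := gamS (n₀ + 1) (Kt.la p) (Kt.ml p)) (k := δ)
    (q := Pool.Agent.H49.Ent.cond F.p A True) hiso (hinj p) (hsub p N M θ J F D)
    ((le_max_left _ _).trans d4)
    (d2.trans (mul_le_mul_of_nonneg_right hδ1 hz0))
    (d3.trans (mul_le_mul_of_nonneg_right hδ1 hz0)) c0 (by
      rw [hz]
      exact hN2') d8 d9 (isLaw_cond F.isLaw hA) (fun ω hω => Pool.PB.End.of_cond_pos hω)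
    hδ.le le_rfl (by
      rw [hz]
      exact hexcD)
  rw [hz] at hfin
  exact hfin

end Pool.STAT
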