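import Pool.Agent.H78.MIC.NfU

/-!
# The facts of a class from the weak exactness

`factIN`: `factIX` with `ExN` (the base is full in the near digits given the cell and the time;
helper40) in place of `ExC`.
-/

set_option autoImplicit false

namespace Pool.STAT

open Finset MvPolynomial
open Pool.Agent.H49.Ent Pool.Agent.H32.Dense Pool.STK Pool.KS3 Pool.KA Pool.KSAT Pool.PB Pool.GEN
open Pool.K2S Pool.S6C
open Pool.LEV (Law Lv)
open Pool.STR (Affn Nw NfB AffB CellD)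
open Pool.RTS (iso Diag)
open Pool.CHT (bet TmH)
open Pool.CHB (chsysB)
open Pool.LBT (ThrOf)
open CLO Pool.MIC6

variable {n₀ m : ℕ} {P : ℝ → ℝ → ℝ} {ρ : ℝ → ℝ} {c β h M : ℝ}

/-- **The facts of a class for the boxes of the rows**, joint property, from the near digits. -/
theorem factIN {E : CellD P ρ} {S : PCl m} (hS : TmH S)
    (Kt : KitS m E n₀) (hinj : ∀ k, Inj (Kt.cs k) (n₀ + 1)) {K' s₁ : ℕ} {sh : ℕ → ℕ}
    (hK' : 1 ≤ K') (hc : 0 < c) (hβ : 0 < β) (hPd : Diag fun a => P a a)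
    (hD : ∀ o j, Diag (E.D o j))
    (hlt : EvP (IsBS E c β h M) fun p => ∀ l < n₀, E.D p.k.2 (Kt.jx p.k.2 l) p.g + c ≤ 1)
    -- the kind of the boxes
    {I' : ℝ → BS E → Prop} (hI' : MonoI I') (hsub : ∀ ε p, I' ε p → IsBS E c β h M ε p)
    {Qc : CondN} (hQ : EvP I' fun p => Qc (fun _ => 1)
      (gamS (n₀ + 1) (Kt.kit.la p) (Kt.kit.ml p)))
    -- the labels of the grid
    (hRT : ∀ p N M θ (J : ℕ) (F : Fam m J) (D : GDat F) (i j : ℕ),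
      Subsingleton (Kt.RT p N M θ J F D i j))
    (hcom : ∀ p N M θ (J : ℕ) (F : Fam m J) (D : GDat F) (A : F.Ω → Prop),
      Kt.W p N M θ J F D A → OKI.Cmn D M)
    (grd : ∀ M' : ℕ, EvQ I' fun N θ p => ∃ (b : ℕ → ℕ → ℕ → ℝ) (e : ℕ → ℕ → ℝ),
      Kt.kit.Near p N M' θ b e ∧
        Lg S fun _ F A => ∃ D : GDat F, (Kt.kit.grid K' s₁ sh p N M' θ b e).Ok F D A)
    -- exactness
    (exn : ∀ k : ℝ, 0 < k → ∀ M' : ℕ, EvQ I' fun N θ p =>
      Kt.kit.FldN S K' s₁ sh M' N θ p fun G J F D q =>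
        OKI.ExN D G.c G.n G.sh (Kt.kit.rc p N M' θ J F D) (up G.ϖ J) (up G.ζ J) G.M (G.gn J)
          (k * up G.ζ J) q)
    -- the rows and the joint property, given the axioms `Ok2`
    {X : ExtX} {PB : ℕ → Prop} {h₁ : ℝ}
    (hext : ∀ (W : BS E → ℕ → ℕ → ℝ → GrdP m) (her : ∀ p N M θ, (W p N M θ).Her),
      (∀ p N M θ (J : ℕ) (F : Fam m J) (D : GDat F) (A : F.Ω → Prop),
        W p N M θ J F D A → Kt.W p N M θ J F D A) →
      (∃ C₅ : ℝ, ∀ C₁ ≥ C₅, ∀ κ : ℝ, 0 < κ → ∀ M' : ℕ, EvQ I' fun N θ p =>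
        (Kt.kit.setW W her).FldN S K' s₁ sh M' N θ p fun G J F D q =>
          ((Kt.kit.setW W her).nd p N M' θ G F D).Ok2 G.n G.K' J
            (up G.α J) (up G.ϖ J) (up G.ζ J) G.M (lamS (n₀ + 1) (Kt.kit.ml p))
            (gamS (n₀ + 1) (Kt.kit.la p) (Kt.kit.ml p)) κ C₁ q) →
      (∃ C₃ : ℝ, ∀ C₁ ≥ C₃, ∃ B : ℕ, 1 ≤ B ∧ PB B ∧ ∀ M' : ℕ, EvQ I' fun N θ p =>
        (Kt.kit.setW W her).FldN S K' s₁ sh M' N θ p fun G J F D q =>
          ((Kt.kit.setW W her).nd p N M' θ G F D).NF1 G.n (up G.ζ J) G.M B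
            (gamS (n₀ + 1) (Kt.kit.la p) (Kt.kit.ml p)) h₁ C₁ q) ∧
      ∃ C₄ : ℝ, ∀ C₁ ≥ C₄, ∀ B : ℕ, 1 ≤ B → PB B → ∀ (M' Q K'' : ℕ) (η' κ : ℝ), 0 < η' →
        0 < κ → EvQ I' fun N θ p => (Kt.kit.setW W her).FldN S K' s₁ sh M' N θ p
          fun G J F D q => X.nb B (lamS (n₀ + 1) (Kt.kit.ml p))
            (gamS (n₀ + 1) (Kt.kit.la p) (Kt.kit.ml p)) G.n J (up G.α J) (up G.ϖ J)
            (up G.ζ J) G.M Q K'' η' κ C₁ ((Kt.kit.setW W her).nd p N M' θ G F D) q) :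
    ∃ (W : BS E → ℕ → ℕ → ℝ → GrdP m) (her : ∀ p N M θ, (W p N M θ).Her),
      FactX (Kt.kit.setW W her) S I' X Qc PB h₁ K' s₁ sh := by
  have hI := isBS_mono E c β h M
  have fcel : ∀ ε' : ℝ, 0 < ε' → EvP I' fun p => CellL (n₀ + 1) (Kt.kit.L p) ε' (1 / c + 1)
      (Kt.kit.y p) (Kt.kit.X p) (Kt.kit.la p) (Kt.kit.ml p) := fun ε' hε' =>
    (KitS.cel (Kt := Kt) (M := M) (h := h) hc hβ hPd hD (KitS.hlt_of hc hlt) ε' hε').sub hsub
  have hml : ∀ (p : BS E), ∀ l < n₀ + 1, Kt.kit.ml p l = 1 := fun _ _ _ => rfl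
  obtain ⟨Bc, hV⟩ := hV_isoN hI' hS Kt.kit hml (fun p => hinj p.k) hcom fcel exn
  obtain ⟨W, hW⟩ : ∃ W : BS E → ℕ → ℕ → ℝ → GrdP m, W = fun p N M θ J F D A =>
      Kt.kit.W p N M θ J F D A ∧ Kt.kit.Wgd Bc p N M θ J F D A := ⟨_, rfl⟩
  have her : ∀ p N M θ, (W p N M θ).Her := by
    intro p N M θ
    rw [hW]
    exact GrdP.Her.and (Kt.kit.her p N M θ) (Kt.kit.wgd_her Bc p N M θ)
  have hWs : ∀ p N M θ (J : ℕ) (F : Fam m J) (D : GDat F) (A : F.Ω → Prop),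
      W p N M θ J F D A → Kt.kit.W p N M θ J F D A := by
    intro p N M θ J F D A h1
    rw [hW] at h1
    exact h1.1
  have ok2 := ok2_isoN hI' hS.1 (Kt.kit.setW W her) hml (fun p => hinj p.k) (s₁ := s₁) (sh := sh)
    hK' hRT (fun p N M θ J F D A h1 => hcom p N M θ J F D A (hWs p N M θ J F D A h1)) (Bc := Bc)
    (fun p N M θ J F D A h1 => by
      have h2 : W p N M θ J F D A := h1
      rw [hW] at h2
      exact h2.2) fcel
    (fun k hk M' => (exn k hk M').mono fun N θ p h1 => h1.setW (hWs p N M' θ)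
      fun _ _ _ _ _ _ h2 => h2)
  obtain ⟨hnf, hx⟩ := hext W her hWs ok2
  refine ⟨W, her, ⟨1 / c + 1, β, hβ, fcel, ?_⟩, ?_, ok2, hnf, hx⟩
  · refine (((KitS.gam (Kt := Kt) (c := c) (β := β) (h := h) (M := M)).sub hsub).and hI'
      hQ).mono fun p hp => ⟨hp.1, ?_⟩
    show Qc (lamS (n₀ + 1) (Kt.kit.ml p)) _
    rw [KitS.lamS_one]
    exact hp.2
  · intro M'
    exact grd_and hI' (fun p N M θ J F D A h1 h2 => by
      rw [hW]
      exact ⟨h1, h2⟩) (grd M') (hV M')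

end Pool.STAT
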