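import Pool.Agent.H78.MIC.ClsK
import Pool.Agent.H78.MIC.TopY

/-!
# No boxes of a kind, from a local theorem

`parN`: the parameters of the cells of a class: the grids (helper2) and the kinds of windows.
`ExnI`, `ExsI`: the weak exactness (helper40) on a family of boxes, for the kit of a class: the
near digits given the cell, and the base given the labels at the exact point. `NfcI`: the closed
lower bound of the rows of the target. `ExnN`, `ExsN`, `NfcN`: on the boxes of the rows.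
`cls_mic`: there are no boxes of a kind, from a local theorem and the joint property of its cells.
-/

set_option autoImplicit false

namespace Pool.PKG

open MeasureTheory Set Filter Topology
open Pool.Agent.H49.Ent Pool.Agent.H32.Dense Pool.STK Pool.KA Pool.KSAT Pool.K2S Pool.PB
open Pool.GEN Pool.S6C Pool.STAT Pool.CHT Pool.GRW Pool.ONE Pool.STA
open Pool.LBT (LSys ThrOf)
open Pool.LEV (Law Lv)
open Pool.ALL (RateOf)
open Pool.TOP (TopS)
open Pool.RTS (iso Diag)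
open Pool.STR (NumI CellD RowD NfB AffB Rle Nw)
open Pool.ISO (ChI)
open Pool.STAT.CLO Pool.MIC6
open Pool.P4 (NFc1)

variable {n : ℕ} {hn : 2 ≤ n} {S : PCl n} {P : ℝ → ℝ → ℝ} {rr : ℝ → ℝ}
  {P' : ℕ → List (Fin n) × Fin n → ℝ → ℝ → ℝ} {Λ : Finset (Fin n) → Fin n → ℝ → ℝ → ℝ}
  {PB : ℕ → List (Fin n) × Fin n → ℝ → ℝ → ℝ} {PN PC : Od n → ℕ → ℝ → ℝ → ℝ}
  (H : PkT hn S P rr P' Λ PB) {hTop : TopS n} {hF : FZX (n - 1)} {h : ℝ}
  {ρ' : ℝ → ℝ} {hρ : Rle rr ρ'}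

/-- **The parameters of the cells of a class.** -/
noncomputable def parN {ι : Type} [Countable ι]
    (K : NumI.Knd ((H.nk hTop hF).chg hρ H.up) ι) {N' : Set ℝ}
    (hN' : volume N' = 0)
    (hord : (NumI.Par.triv ((H.nk hTop hF).chg hρ H.up)).cell.OrdP N') :
    ((H.nk hTop hF).chg hρ H.up).Par :=
  ((H.parI hTop hF).chg hρ H.up).and (K.par hN' hord)

/-- **Exactness**, near digits: given the cells, on a family of boxes. -/
def ExnI (p : ((H.nk hTop hF).chg hρ H.up).Par) (I : ℝ → BS p.cell → Prop) : Prop :=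
  ∀ (K K' s₁ : ℕ) (sh : ℕ → ℕ), 1 ≤ K → 1 ≤ K' → ∀ k : ℝ, 0 < k → ∀ M' : ℕ, EvQ I fun N θ q =>
    (kitN H p K).kit.FldN S K' s₁ sh M' N θ q fun G J F D q' =>
      OKI.ExN D G.c G.n G.sh ((kitN H p K).kit.rc q N M' θ J F D) (up G.ϖ J) (up G.ζ J) G.M
        (G.gn J) (k * up G.ζ J) q'

/-- **Exactness**, the base given the labels at the exact point, on a family of boxes. -/
def ExsI (p : ((H.nk hTop hF).chg hρ H.up).Par) (I : ℝ → BS p.cell → Prop) : Prop :=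
  ∀ (K K' s₁ : ℕ) (sh : ℕ → ℕ), 1 ≤ K → 1 ≤ K' → ∀ k : ℝ, 0 < k → ∀ M' : ℕ, EvQ I fun N θ q =>
    (kitN H p K).kit.FldN S K' s₁ sh M' N θ q fun G J _ D q' =>
      ExS D G.c G.n G.sh G.M (G.gn J) (k * up G.ζ J) q'

/-- **The closed lower bound** of the rows of the target with the deficit `x`, on a family of
boxes. -/
def NfcI (p : ((H.nk hTop hF).chg hρ H.up).Par) (x : ℝ) (I : ℝ → BS p.cell → Prop) : Prop :=
  ∀ (K K' s₁ : ℕ) (sh : ℕ → ℕ), 1 ≤ K → 1 ≤ K' →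
    ∃ C₄ : ℝ, ∀ C₁ ≥ C₄, ∀ M' : ℕ, EvQ I fun N θ q =>
      (kitN H p K).kit.FldN S K' s₁ sh M' N θ q fun G J F D q' => ∀ gam' : ℕ → ℝ,
        0 ≤ gam' (n - 1 + 1) →
        |gamS (n - 1 + 1) ((kitN H p K).kit.la q) ((kitN H p K).kit.ml q) (n - 1 + 1) -
          gam' (n - 1 + 1)| * M' ≤ 1 →
        NFc1 ((kitN H p K).kit.nd q N M' θ G F D) G.n (up G.ζ J) G.M (n + 2) gam' x C₁ q'

variable {H} in
theorem ExnI.sub {p : ((H.nk hTop hF).chg hρ H.up).Par} {I I' : ℝ → BS p.cell → Prop}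
    (h : ExnI H p I) (hs : ∀ ε q, I' ε q → I ε q) : ExnI H p I' :=
  fun K K' s₁ sh hK hK' k hk M' => (h K K' s₁ sh hK hK' k hk M').sub hs

variable {H} in
theorem ExsI.sub {p : ((H.nk hTop hF).chg hρ H.up).Par} {I I' : ℝ → BS p.cell → Prop}
    (h : ExsI H p I) (hs : ∀ ε q, I' ε q → I ε q) : ExsI H p I' :=
  fun K K' s₁ sh hK hK' k hk M' => (h K K' s₁ sh hK hK' k hk M').sub hs

variable {H} in
theorem NfcI.sub {p : ((H.nk hTop hF).chg hρ H.up).Par} {x : ℝ} {I I' : ℝ → BS p.cell → Prop}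
    (h : NfcI H p x I) (hs : ∀ ε q, I' ε q → I ε q) : NfcI H p x I' := by
  intro K K' s₁ sh hK hK'
  obtain ⟨C₄, h1⟩ := h K K' s₁ sh hK hK'
  exact ⟨C₄, fun C₁ hC₁ M' => (h1 C₁ hC₁ M').sub hs⟩

/-- **Exactness**, near digits: given the cells, on the boxes of the rows. -/
def ExnN (p : ((H.nk hTop hF).chg hρ H.up).Par) : Prop :=
  ∀ c β hh M : ℝ, 0 < c → 0 < β → ExnI H p (IsBS p.cell c β hh M)

/-- **Exactness**, the base given the labels at the exact point, on the boxes of the rows. -/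
def ExsN (p : ((H.nk hTop hF).chg hρ H.up).Par) : Prop :=
  ∀ c β hh M : ℝ, 0 < c → 0 < β → ExsI H p (IsBS p.cell c β hh M)

/-- **The boxes where no coordinate is faster than the target.** -/
def IsBL (p : ((H.nk hTop hF).chg hρ H.up).Par) (c β hh M ε : ℝ) (q : BS p.cell) : Prop :=
  IsBS p.cell c β hh M ε q ∧ ∀ l < n - 1, slN hn P P' (show Od n from q.k.2) l q.g ≤
    slN hn P P' (show Od n from q.k.2) (n - 1) q.g

theorem isBL_mono (p : ((H.nk hTop hF).chg hρ H.up).Par) (c β hh M : ℝ) :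
    MonoI (IsBL H p c β hh M) :=
  ⟨fun h1 h2 => ⟨(isBS_mono p.cell c β hh M).1 h1.1 h2, h1.2⟩⟩

/-- **The closed lower bound** of the rows of the target with the deficit `x`, on the boxes of the
rows where no coordinate is faster than the target. -/
def NfcN (p : ((H.nk hTop hF).chg hρ H.up).Par) (x : ℝ) : Prop :=
  ∀ c β hh M : ℝ, 0 < c → 0 < β → NfcI H p x (IsBL H p c β hh M)

/-- Time: no atoms of the side information. -/
theorem PkT.zc (H : PkT hn S P rr P' Λ PB) : Bas S fun _ F _ => Zc F := by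
  obtain ⟨al, g₀, s, d, e, K₀, N, -, -, h⟩ := H.cl
  exact ⟨1, one_pos, 0, fun J _ F A hA => (h.mem 1 J F A hA).2.2.2.2.2.2⟩

theorem parN_adI {ι : Type} [Countable ι] {K : NumI.Knd ((H.nk hTop hF).chg hρ H.up) ι}
    {N' : Set ℝ}
    {hN' : volume N' = 0}
    {hord : (NumI.Par.triv ((H.nk hTop hF).chg hρ H.up)).cell.OrdP N'} :
    ∀ c (k : (parN H K hN' hord).α × Od n) Q g ρ,
    (parN H K hN' hord).Ad' c k Q g ρ → AdI hn S P P' c k.2 g ρ :=
  fun _ _ _ _ _ h => h.1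

/-- The slopes of the kit on the boxes of a kind. -/
theorem kit_la {p : ((H.nk hTop hF).chg hρ H.up).Par} {ι : Type} {kd : p.cell.α → ι}
    {c β hh M : ℝ} {x : ι} {ε : ℝ} {q : BS p.cell} (hq : IsK p.cell kd c β hh M x ε q) (K₀ : ℕ)
    (l : ℕ) : (kitN H p K₀).la q l = slN hn P P' (show Od n from q.k.2) l q.g := by
  unfold KitS.la slN dgN
  by_cases h1 : l < n - 1
  · rw [if_pos h1, if_pos h1, hq.eSj]
    show deriv (p.cell.D q.k.2 (jxI n l)) q.g = _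
    have h2 : jxI n l = some ⟨l, h1⟩ := dif_pos h1
    rw [h2]
    rfl
  · rw [if_neg h1, if_neg h1, hq.eS]

/-- The slopes of a cell. -/
theorem gamS_kit {p : ((H.nk hTop hF).chg hρ H.up).Par} {ι : Type} {kd : p.cell.α → ι}
    {c β hh M : ℝ} {x : ι} {ε : ℝ} {q : BS p.cell} (hq : IsK p.cell kd c β hh M x ε q) (K₀ : ℕ)
    {l : ℕ} (h1 : 1 ≤ l) (h2 : l ≤ n - 1 + 1) :
    gamS (n - 1 + 1) ((kitN H p K₀).kit.la q) ((kitN H p K₀).kit.ml q) l =
      max 0 (slN hn P P' (show Od n from q.k.2) (l - 1) q.g - 1) := by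
  unfold gamS
  rw [if_pos ⟨h1, h2⟩]
  show max 0 ((kitN H p K₀).la q (l - 1) - 1) = _
  rw [kit_la H hq]

/-- The slope of the target of a cell. -/
theorem gamS_tar {p : ((H.nk hTop hF).chg hρ H.up).Par} {ι : Type} {kd : p.cell.α → ι}
    {c β hh M : ℝ} {x : ι} {ε : ℝ} {q : BS p.cell} (hq : IsK p.cell kd c β hh M x ε q) (hβ : 0 < β)
    (K₀ : ℕ) : gamS (n - 1 + 1) ((kitN H p K₀).kit.la q) ((kitN H p K₀).kit.ml q) (n - 1 + 1) =
      slN hn P P' (show Od n from q.k.2) (n - 1) q.g - 1 ∧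
      β ≤ slN hn P P' (show Od n from q.k.2) (n - 1) q.g - 1 := by
  have h0 : β ≤ slN hn P P' (show Od n from q.k.2) (n - 1) q.g - 1 := by
    have h1 := hq.is.slo
    rw [hq.eS] at h1
    unfold slN dgN
    rw [if_neg (lt_irrefl _)]
    linarith
  refine ⟨?_, h0⟩
  rw [gamS_kit H hq K₀ (by omega) le_rfl, Nat.add_sub_cancel, max_eq_right (hβ.le.trans h0)]

/-- The levels of the kit are at most the sides of the fattest boxes. -/
theorem kit_Lb {p : ((H.nk hTop hF).chg hρ H.up).Par} {K₀ : ℕ} (q : BS p.cell) {l : ℕ}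
    (hl : l < n - 1) (a w : ℝ) : (kitN H p K₀).kit.L q l a w =
      bet (bi P' (show Od n from q.k.2).2) ((kitN H p K₀).kit.cs q) l a w := by
  show iso ((kitN H p K₀).Dg q l) a w = _
  rw [kit_dg H q l]
  unfold dgN
  rw [if_pos hl]
  rfl

/-- The level of the target. -/
theorem kit_Lt {p : ((H.nk hTop hF).chg hρ H.up).Par} {K₀ : ℕ} (q : BS p.cell) :
    (kitN H p K₀).kit.L q (n - 1) = iso fun a => P a a := by
  show iso ((kitN H p K₀).Dg q (n - 1)) = _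
  rw [kit_dg H q (n - 1)]
  unfold dgN
  rw [if_neg (lt_irrefl _)]

/-- The threshold of the target over an order. -/
theorem bet_tar (o : Od n) : bet (PB o.2) (cc hn o.1.1) (n - 1) = PT hn PB o := by
  unfold bet PT
  rw [map_cc, cc_ge hn _ le_rfl]

/-- The threshold of the target on the cells. -/
theorem kit_thr {p : ((H.nk hTop hF).chg hρ H.up).Par} {K₀ : ℕ} {c β hh M : ℝ} (ε' : ℝ)
    (hε' : 0 < ε') : EvP (IsBS p.cell c β hh M) fun q => ∀ z : ℝ × ℝ,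
      dist z ((kitN H p K₀).kit.y q) ≤ (kitN H p K₀).kit.X q →
      Nw (bet (PB (show Od n from q.k.2).2) ((kitN H p K₀).kit.cs q) (n - 1)) z ≤
        Nw ((kitN H p K₀).kit.L q (n - 1)) z + ε' * (kitN H p K₀).kit.X q := by
  refine (KitS.thr (Kt := kitN H p K₀) (c := c) (β := β) (h := hh) (M := M)
    (fun a w h0 h1 h2 => H.tgs.up () a w h0 h1 h2) ε' hε').mono fun q hq z hz => ?_
  have h1 := hq z hz
  have h2 : Nw (p.cell.PB q.k) z = Nw (bet (PB (show Od n from q.k.2).2)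
      ((kitN H p K₀).kit.cs q) (n - 1)) z := by
    show PT hn PB q.k.2 (z.1 + z.2) z.1 =
      bet (PB (show Od n from q.k.2).2) (cc hn (show Od n from q.k.2).1.1) (n - 1) (z.1 + z.2) z.1
    rw [bet_tar]
  rw [← h2]
  exact h1

/-- **The rows** on the boxes of a kind. -/
theorem kit_row {p : ((H.nk hTop hF).chg hρ H.up).Par} {ι : Type} {kd : p.cell.α → ι}
    {c β h' M : ℝ} {x : ι} (K₀ : ℕ)
    (hrow : ∀ ε' : ℝ, 0 < ε' → EvP (IsK p.cell kd c β h' M x) fun q =>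
      NfB rr h (ε' * q.r) (P q.g q.g - q.r) (P q.g q.g + 3 * q.r)) (ε' : ℝ)
    (hε' : 0 < ε') :
    EvP (IsK p.cell kd c β h' M x) fun q => NfB rr h (ε' * (kitN H p K₀).kit.X q)
      ((kitN H p K₀).kit.L q (n - 1) (((kitN H p K₀).kit.y q).1 + ((kitN H p K₀).kit.y q).2)
        ((kitN H p K₀).kit.y q).1 - (kitN H p K₀).kit.X q)
      ((kitN H p K₀).kit.L q (n - 1) (((kitN H p K₀).kit.y q).1 + ((kitN H p K₀).kit.y q).2)
        ((kitN H p K₀).kit.y q).1 + 2 * (kitN H p K₀).kit.X q) := by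
  refine ((hrow ε' hε').and (isK_mono _ _ _ _ _ _ _) (EvP.self _ one_pos)).mono fun q hq => ?_
  obtain ⟨hrow, hq⟩ := hq
  have hr := hq.is.r0
  have hg0 := hq.is.g0
  have hg1 := hq.is.g1
  rw [kit_Lt]
  show NfB rr h (ε' * q.r) (iso (fun a => P a a) (q.g + q.r) q.g - q.r)
    (iso (fun a => P a a) (q.g + q.r) q.g + 2 * q.r)
  have h7 := Pool.RTS.iso_le (fun a => P a a) (q.g + q.r) q.g
  have h8 := Pool.RTS.iso_lo (cls_hP H) (a := q.g + q.r) (w := q.g) (by linarith) (by linarith)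
    (by linarith)
  rw [add_sub_cancel_left] at h7
  exact nfB_mono hrow le_rfl le_rfl (by linarith) (by linarith)

/-- The coordinates of the kit. -/
theorem kit_inj (p : ((H.nk hTop hF).chg hρ H.up).Par) (K₀ : ℕ) (k : p.cell.α × p.cell.O) :
    Inj ((kitN H p K₀).cs k) (n - 1 + 1) :=
  fun i hi j hj hij => cc_inj' hn _ (by omega) (by omega) hij

theorem kit_cov (p : ((H.nk hTop hF).chg hρ H.up).Par) (K₀ : ℕ) (k : p.cell.α × p.cell.O)
    (i : Fin n) (hi : i ≠ (kitN H p K₀).cs k (n - 1)) : ∃ l < n - 1, (kitN H p K₀).cs k l = i := by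
  refine cc_all hn _ fun h1 => hi (h1.trans ?_)
  exact (cc_ge hn _ le_rfl).symm

theorem kit_rate (p : ((H.nk hTop hF).chg hρ H.up).Par) (K₀ : ℕ)
    (k : p.cell.α × p.cell.O) : RateOf S ((kitN H p K₀).cs k (n - 1)) rr := by
  show RateOf S (cc hn (show Od n from k.2).1.1 (n - 1)) rr
  rw [cc_ge hn _ le_rfl]
  exact H.rate

/-- The levels of the kit. -/
theorem kit_cel {p : ((H.nk hTop hF).chg hρ H.up).Par} {ι : Type} {kd : p.cell.α → ι}
    (hpI : ∀ c (k : p.α × Od n) Q g ρ, p.Ad' c k Q g ρ → AdI hn S P P' c k.2 g ρ)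
    {c β h' M : ℝ} (hc : 0 < c) (hβ : 0 < β) (x : ι) (K₀ : ℕ) (ε' : ℝ) (hε' : 0 < ε') :
    EvP (IsK p.cell kd c β h' M x) fun q => CellL (n - 1 + 1) ((kitN H p K₀).kit.L q) ε'
      (1 / c + 1) ((kitN H p K₀).kit.y q) ((kitN H p K₀).kit.X q) ((kitN H p K₀).kit.la q)
      ((kitN H p K₀).kit.ml q) :=
  (KitS.cel (Kt := kitN H p K₀) (M := M) (h := h') hc hβ (cls_hP H) (cls_hD H)
    (KitS.hlt_of hc (cls_hlt H hpI)) ε' hε').sub (isK_sub _ _ _ _ _ _ _)

/-- **No boxes of a kind**, from a local theorem and the joint property of its cells. -/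
theorem cls_mic (hh : 0 < h) (hh1 : h ≤ 1)
    {p : ((H.nk hTop hF).chg hρ H.up).Par}
    (hpI : ∀ c (k : p.α × Od n) Q g ρ, p.Ad' c k Q g ρ → AdI hn S P P' c k.2 g ρ)
    {ι : Type} {kd : p.cell.α → ι} {c β h' M : ℝ} {x : ι}
    (hexn : ExnI H p (IsK p.cell kd c β h' M x)) (hexs : ExsI H p (IsK p.cell kd c β h' M x))
    (hc : 0 < c) (hβ : 0 < β)
    (hrow : ∀ ε' : ℝ, 0 < ε' → EvP (IsK p.cell kd c β h' M x) fun q =>
      NfB rr h (ε' * q.r) (P q.g q.g - q.r) (P q.g q.g + 3 * q.r))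
    -- the local theorem
    {X : ℕ → ExtX} (hX : ∀ K', (X K').Mono) {Qc : CondN} (hQc : Qc.Cl (n - 1 + 1))
    (hMic : ∀ K', MicX (X K') Qc (fun B => B = n + 2) (n - 1 + 1) K' h)
    (hQ : ∀ q ε K₀, IsK p.cell kd c β h' M x ε q → Qc (fun _ => 1)
      (gamS (n - 1 + 1) ((kitN H p K₀).kit.la q) ((kitN H p K₀).kit.ml q)))
    (hext : ∀ (K₀ K' s₁ : ℕ) (sh : ℕ → ℕ), 1 ≤ K₀ → 1 ≤ K' →
      ∀ (W : BS p.cell → ℕ → ℕ → ℝ → GrdP n) (her : ∀ q N M' θ, (W q N M' θ).Her),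
      (∀ q N M' θ (J : ℕ) (F : Fam n J) (D : GDat F) (A : F.Ω → Prop),
        W q N M' θ J F D A → (kitN H p K₀).kit.W q N M' θ J F D A) →
      ∃ C₄ : ℝ, ∀ C₁ ≥ C₄, ∀ B : ℕ, 1 ≤ B → B = n + 2 → ∀ (M' Q K'' : ℕ) (η' κ : ℝ), 0 < η' →
        0 < κ → EvQ (IsK p.cell kd c β h' M x) fun N θ q =>
          ((kitN H p K₀).kit.setW W her).FldN S K' s₁ sh M' N θ q
          fun G J F D q' => (X K').nb B (lamS (n - 1 + 1) ((kitN H p K₀).kit.ml q))
            (gamS (n - 1 + 1) ((kitN H p K₀).kit.la q) ((kitN H p K₀).kit.ml q)) G.n J (up G.α J)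
            (up G.ϖ J) (up G.ζ J) G.M Q K'' η' κ C₁
            (((kitN H p K₀).kit.setW W her).nd q N M' θ G F D) q') :
    EvP (IsK p.cell kd c β h' M x) fun _ => False := by
  obtain ⟨K₀, K', s₁, sh, hK₀, hK', hgrd⟩ := cls_grd n hc
  have hI' := isK_mono p.cell kd c β h' M x
  have hsub := isK_sub p.cell kd c β h' M x
  have hlt := cls_hlt H hpI (c := c) (β := β) (hh := h') (M := M)
  have exn : ∀ k : ℝ, 0 < k → ∀ M' : ℕ, EvQ (IsK p.cell kd c β h' M x) fun N θ q =>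
      (kitN H p K₀).kit.FldN S K' s₁ sh M' N θ q
        fun G J F D q' => OKI.ExN D G.c G.n G.sh ((kitN H p K₀).kit.rc q N M' θ J F D)
          (up G.ϖ J) (up G.ζ J) G.M (G.gn J) (k * up G.ζ J) q' := hexn K₀ K' s₁ sh hK₀ hK'
  have exs : ∀ k : ℝ, 0 < k → ∀ M' : ℕ, EvQ (IsK p.cell kd c β h' M x) fun N θ q =>
      (kitN H p K₀).kit.FldN S K' s₁ sh M' N θ q
        fun G J F D q' => ExS D G.c G.n G.sh G.M (G.gn J) (k * up G.ζ J) q' :=
    hexs K₀ K' s₁ sh hK₀ hK'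
  have fcel := kit_cel H hpI (kd := kd) (h' := h') (M := M) hc hβ x K₀
  obtain ⟨W, her, hfact⟩ := factIN H.tmh (kitN H p K₀) (kit_inj H p K₀) (K' := K') (s₁ := s₁)
    (sh := sh) hK' hc hβ (cls_hP H) (cls_hD H) hlt hI' hsub
    (Qc := Qc) (X := X K') (PB := fun B => B = n + 2) (h₁ := h)
    ⟨1, one_pos, fun q hq => hQ q 1 K₀ hq⟩
    (fun _ _ _ _ _ _ _ _ _ => inferInstanceAs (Subsingleton Unit))
    (fun q N M θ J F D A h1 i hi j hj => ((wBal.com h1) i hi j hj).2)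
    (fun M' => (hgrd H hpI hβ M').sub hsub) exn
    (fun W her hWs ok2 => by
      obtain ⟨C₃, hnf⟩ := nf_U hI' H.tmh.1 H.zc ((kitN H p K₀).kit.setW W her)
        (fun _ _ _ => rfl) (fun q => kit_inj H p K₀ q.k) (fun q => kit_cov H p K₀ q.k)
        (fun q => kit_rate H p K₀ q.k) (s₁ := s₁) (sh := sh) hK' hh hh1
        (fun ε' hε' => kit_row H K₀ hrow ε' hε') fcel
        (fun k hk M' => (exs k hk M').mono fun N θ q h1 => h1.setW (hWs q N M' θ)
          fun _ _ _ _ _ _ h2 => h2) ok2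
      exact ⟨⟨C₃, fun C₁ hC₁ => ⟨n + 2, by omega, rfl, fun M' => hnf C₁ hC₁ (n + 2)
        (by have := hn; omega) M'⟩⟩, hext K₀ K' s₁ sh hK₀ hK' W her hWs⟩)
  exact evX_false hI' (hX K') H.ne H.tmh.1 _ hh1 hQc (hMic K') hfact

end Pool.PKG
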