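import Pool.Agent.H78.MIC.TopX
import Pool.Agent.H78.MIC.MicI

/-!
# The joint properties of the cells of a kit

`ext_V`: uniform time and no new label of the target. `ext_P`: the joint property of P4, if all
coordinates are rough: from the thresholds of all the coordinates over the boxes with sides at least
the levels, and from the closed lower bound of the rows.
`box_le`: the threshold of a base coordinate near a window where it is the number of the fattest boxes.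
-/

set_option autoImplicit false

namespace Pool.STAT

open Finset MvPolynomial
open Pool.Agent.H49.Ent Pool.Agent.H32.Dense Pool.STK Pool.KS3 Pool.KA Pool.KSAT Pool.PB Pool.GEN
open Pool.K2S Pool.S6C
open Pool.LEV (Law Lv)
open Pool.STR (Affn Nw NfB AffB CellD)
open Pool.RTS (iso Diag)
open Pool.CHT (bet TmH)
open Pool.CHB (chsysB)
open Pool.LBT (ThrOf)
open Pool.P4 (NFc1)
open Pool.STAT.CLO Pool.MIC6

variable {Θ : Type*} {I : ℝ → Θ → Prop} {m n₀ : ℕ}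

/-- **The joint property of the cells without ties**, from the threshold of the target. -/
theorem ext_V (hI : MonoI I) {S : PCl m} (hS : TmH S) (Kt : KitP m Θ n₀) {T' : ℝ}
    (fcel : ∀ ε' : ℝ, 0 < ε' → EvP I fun p =>
      CellL (n₀ + 1) (Kt.L p) ε' T' (Kt.y p) (Kt.X p) (Kt.la p) (Kt.ml p))
    {K' s₁ : ℕ} {sh : ℕ → ℕ} (hK' : 1 ≤ K') {be P : Θ → List (Fin m) × Fin m → ℝ → ℝ → ℝ}
    (hP : ∀ p, ThrOf (chsysB m none (be p)) S (P p))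
    (hLβ : ∀ p, ∀ l < n₀, ∀ a w : ℝ, 0 ≤ w → w ≤ a → a ≤ 1 →
      Kt.L p l a w ≤ bet (be p) (Kt.cs p) l a w)
    (fiso : ∀ ε' : ℝ, 0 < ε' → EvP I fun p => ∀ z : ℝ × ℝ, dist z (Kt.y p) ≤ Kt.X p →
      Nw (bet (P p) (Kt.cs p) n₀) z ≤ Nw (Kt.L p n₀) z + ε' * Kt.X p)
    {A : ℕ} (hA : 1 ≤ A) (PB : ℕ → Prop) :
    ∃ C₄ : ℝ, ∀ C₁ ≥ C₄, ∀ B : ℕ, 1 ≤ B → PB B → ∀ (M Q K'' : ℕ) (η' κ : ℝ), 0 < η' → 0 < κ →
      EvQ I fun N θ p => Kt.FldN S K' s₁ sh M N θ p fun G J F D q =>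
        (XV A).nb B (lamS (n₀ + 1) (Kt.ml p)) (gamS (n₀ + 1) (Kt.la p) (Kt.ml p)) G.n J
          (up G.α J) (up G.ϖ J) (up G.ζ J) G.M Q K'' η' κ C₁ (Kt.nd p N M θ G F D) q := by
  refine ⟨0, fun C₁ _ B _ _ M Q K'' η' κ hη hκ => ?_⟩
  have h1 := tmU_P hI hS Kt fcel (K' := K') (s₁ := s₁) (sh := sh) hκ M
  have h2 := no_std Kt hA hS.1 (no_B hI hS.1 Kt fcel (s₁ := s₁) (sh := sh) (M := M) (K'' := K'')
    hK' hP hLβ fiso hη)
  exact (h1.and hI h2).mono fun N θ p hp => (hp.1.and hp.2).mono fun _ _ _ _ _ _ hq =>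
    ExtX.nb_of (X := XV A) (fun h => h) hq

/-- **The joint property of the cells with ties**, all coordinates are rough. -/
theorem ext_P (hI : MonoI I) {S : PCl m} (hS : TmH S) (Kt : KitP m Θ n₀) {T' : ℝ}
    (fcel : ∀ ε' : ℝ, 0 < ε' → EvP I fun p =>
      CellL (n₀ + 1) (Kt.L p) ε' T' (Kt.y p) (Kt.X p) (Kt.la p) (Kt.ml p))
    {K' s₁ : ℕ} {sh : ℕ → ℕ} (hK' : 1 ≤ K') {be P : Θ → List (Fin m) × Fin m → ℝ → ℝ → ℝ}
    (hP : ∀ p, ThrOf (chsysB m none (be p)) S (P p))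
    (hLβ : ∀ p, ∀ l < n₀, ∀ a w : ℝ, 0 ≤ w → w ≤ a → a ≤ 1 →
      Kt.L p l a w ≤ bet (be p) (Kt.cs p) l a w)
    (fiso : ∀ l ≤ n₀, ∀ ε' : ℝ, 0 < ε' → EvP I fun p => ∀ z : ℝ × ℝ, dist z (Kt.y p) ≤ Kt.X p →
      Nw (bet (P p) (Kt.cs p) l) z ≤ Nw (Kt.L p l) z + ε' * Kt.X p)
    {A : ℕ} (hA : 1 ≤ A) {PB : ℕ → Prop} {x : ℝ}
    (hnfc : ∃ C₄ : ℝ, ∀ C₁ ≥ C₄, ∀ B : ℕ, 1 ≤ B → PB B → ∀ M : ℕ, EvQ I fun N θ p =>
      Kt.FldN S K' s₁ sh M N θ p fun G J F D q => ∀ gam' : ℕ → ℝ, 0 ≤ gam' (n₀ + 1) →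
        |gamS (n₀ + 1) (Kt.la p) (Kt.ml p) (n₀ + 1) - gam' (n₀ + 1)| * M ≤ 1 →
        NFc1 (Kt.nd p N M θ G F D) G.n (up G.ζ J) G.M B gam' x C₁ q) :
    ∃ C₄ : ℝ, ∀ C₁ ≥ C₄, ∀ B : ℕ, 1 ≤ B → PB B → ∀ (M Q K'' : ℕ) (η' κ : ℝ), 0 < η' → 0 < κ →
      EvQ I fun N θ p => Kt.FldN S K' s₁ sh M N θ p fun G J F D q =>
        (XP4 K' A (fun _ => True) x).nb B (lamS (n₀ + 1) (Kt.ml p))
          (gamS (n₀ + 1) (Kt.la p) (Kt.ml p)) G.n J (up G.α J) (up G.ϖ J) (up G.ζ J) G.M Q K'' η'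
          κ C₁ (Kt.nd p N M θ G F D) q := by
  obtain ⟨C₄, hnfc⟩ := hnfc
  refine ⟨C₄, fun C₁ hC₁ B hB hPB M Q K'' η' κ hη hκ => ?_⟩
  have h1 := tmU_P hI hS Kt fcel (K' := K') (s₁ := s₁) (sh := sh) hκ M
  have h2 := no_ex hI Kt (S := S) (K' := K') (s₁ := s₁) (sh := sh) (Ls := fun _ => True) (M := M)
    (K'' := K'') (η' := η') hA hS.1 fun l hl _ => no_B_at hI hS.1 Kt fcel hl (s₁ := s₁) (sh := sh)
    (M := M) (K'' := K'') hK' hP (fun p k hk => hLβ p k (by omega)) (fiso l hl) hη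
  refine ((h1.and hI h2).and hI (hnfc C₁ hC₁ B hB hPB M)).mono fun N θ p hp b e hb => ?_
  have hpos : Bas S (fun _ F A => 0 < Pe F.p A) :=
    ⟨1, one_pos, 0, fun J _ F A hA => hS.1 1 J F A hA⟩
  refine Bas.mono 0 (Bas.and (((hp.1.1.and hp.1.2).and hp.2) b e hb) hpos) ?_
  rintro J - F A' ⟨h3, hA'⟩ D hD lam' gam' _ k2 _ k4
  obtain ⟨⟨m1, m2⟩, m3⟩ := h3 D hD
  exact xP4_all (cond_nonneg F.isLaw.nonneg A' True) m1
    (m3 gam' (k2 _) (k4 (n₀ + 1) (by omega) le_rfl)) m2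

/-- **The threshold near a window**: on the cells of the centre `(g, r)` and the size `r`, from the
bound on the triangle of size `7 r`. -/
theorem box_le {P : ℝ → ℝ → ℝ} {D : ℝ → ℝ} {g r d : ℝ}
    (h1 : ∀ a w : ℝ, 0 ≤ w → w ≤ a → a ≤ 1 → P a w ≤ 1) (hr : 0 < r) (hg0 : 8 * r < g)
    (hg1 : 8 * r < 1 - g) (h : ∀ a w : ℝ, g - 7 * r ≤ w → w ≤ a → a ≤ g + 7 * r →
      P a w ≤ D w + (a - w) + d) (hd : 0 ≤ d) {z : ℝ × ℝ} (hz : dist z (g, r) ≤ r) :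
    Nw P z ≤ Nw (iso D) z + d := by
  rw [Prod.dist_eq, Real.dist_eq, Real.dist_eq] at hz
  have z1 := abs_le.1 ((le_max_left _ _).trans hz)
  have z2 := abs_le.1 ((le_max_right _ _).trans hz)
  simp only at z1 z2
  show P (z.1 + z.2) z.1 ≤ Nw (iso D) z + d
  rw [Pool.RTS.nw_iso]
  have h2 := h (z.1 + z.2) z.1 (by linarith [z1.1]) (by linarith [z2.1])
    (by linarith [z1.2, z2.2])
  have h3 := h1 (z.1 + z.2) z.1 (by linarith [z1.1]) (by linarith [z2.1])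
    (by linarith [z1.2, z2.2])
  rcases le_total 1 (D z.1 + z.2) with h4 | h4
  · rw [min_eq_left h4]
    linarith
  · rw [min_eq_right h4]
    linarith

end Pool.STAT
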