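import Pool.Agent.H78.MIC.Kinds
import Pool.Agent.H78.MIC.ExtF
import Pool.Agent.H2.GEN.ChnQ
import Pool.Agent.H60.GEN.TopE

/-!
# The kinds of windows of a class, the kit

`dgN`, `slN`: the diagonals of the coordinates of an order (the last one is the target) and their
slopes at a window. The kinds of windows for the rows of a rate `ρ'` which is larger than the rate
`rr` of the class: `kpD`, the slope of the target is one or its threshold is static (no boxes);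
`kpV`, no ties; `kpT`, ties: the coordinates in `R` have no gain over the boxes of the threshold
`PN`, the others have the slope at least two and gain over the boxes of the threshold `PC`, no slope
is too large. `kpD_at`, `kpV_at`, `kpT_at`: windows of these kinds.

`kitN`: the kit of the class: the joint property of the labels is `wBS` (helper2).
`cls_grd`, `cls_hlt`: the labels of the grids.
-/

set_option autoImplicit false

namespace Pool.PKG

open MeasureTheory Set Filter Topology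
open Pool.Agent.H49.Ent Pool.Agent.H32.Dense Pool.STK Pool.KA Pool.KSAT Pool.K2S Pool.PB
open Pool.GEN Pool.S6C Pool.STAT Pool.CHT Pool.GRW Pool.ONE Pool.STA
open Pool.LBT (LSys ThrOf)
open Pool.LEV (Law Lv)
open Pool.ALL (RateOf)
open Pool.TOP (TopS)
open Pool.RTS (iso Diag)
open Pool.STR (NumI CellD RowD NfB AffB Rle)
open Pool.ISO (ChI)
open Pool.STAT.CLO Pool.MIC6

variable {n : ℕ}

/-! ### Diagonals and slopes -/

/-- The diagonals of the coordinates of an order; the last one is the target. -/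
noncomputable def dgN (hn : 2 ≤ n) (P : ℝ → ℝ → ℝ) (P' : ℕ → List (Fin n) × Fin n → ℝ → ℝ → ℝ)
    (o : Od n) (l : ℕ) : ℝ → ℝ := if l < n - 1 then Dg hn P' o l else fun a => P a a

/-- The slopes. -/
noncomputable def slN (hn : 2 ≤ n) (P : ℝ → ℝ → ℝ) (P' : ℕ → List (Fin n) × Fin n → ℝ → ℝ → ℝ)
    (o : Od n) (l : ℕ) (g : ℝ) : ℝ := deriv (dgN hn P P' o l) g

/-- The coordinates of a finite set. -/
def InR (R : Finset (Fin n)) (l : ℕ) : Prop := ∃ x ∈ R, (x : ℕ) = l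

/-- The boxes near a window. -/
def Box7 (g r : ℝ) (Ψ : ℝ → ℝ → Prop) : Prop :=
  ∀ a w : ℝ, g - 7 * r ≤ w → w ≤ a → a ≤ g + 7 * r → Ψ a w

theorem Box7.mono {g r : ℝ} {Ψ Ψ' : ℝ → ℝ → Prop} (h : Box7 g r Ψ)
    (hs : ∀ a w : ℝ, Ψ a w → Ψ' a w) : Box7 g r Ψ' := fun a w h1 h2 h3 => hs a w (h a w h1 h2 h3)

/-- **The statements about the boxes with ties**, `rr` is the rate of the target, `h` the deficit,
`PN` and `PC` are thresholds: no gain over the boxes of the threshold `PN` for the coordinates in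
`R`, gain over the boxes of the threshold `PC` for the others. -/
structure KnT (hn : 2 ≤ n) (P : ℝ → ℝ → ℝ) (rr : ℝ → ℝ)
    (P' : ℕ → List (Fin n) × Fin n → ℝ → ℝ → ℝ) (h : ℝ) (PN PC : Od n → ℕ → ℝ → ℝ → ℝ)
    (R : Finset (Fin n)) (o : Od n) (g r d : ℝ) : Prop where
  row : NfB rr h d (P g g - r) (P g g + 3 * r)
  rgh : ∀ l < n - 1, InR R l →
    Box7 g r fun a w => PN o l a w ≤ dgN hn P P' o l w + (a - w) + d
  con : ∀ l < n - 1, ¬ InR R l →
    Box7 g r fun a w => dgN hn P P' o l w + 2 * (a - w) ≤ PC o l a w + d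

/-- The slopes of a window with ties: the coordinates outside `R` have the slope at least two, no
slope is too large. -/
def SlT (hn : 2 ≤ n) (P : ℝ → ℝ → ℝ) (P' : ℕ → List (Fin n) × Fin n → ℝ → ℝ → ℝ) (c : ℝ)
    (R : Finset (Fin n)) (o : Od n) (g : ℝ) : Prop :=
  (∀ l < n - 1, ¬ InR R l → 2 ≤ slN hn P P' o l g) ∧
    ∀ l ≤ n - 1, slN hn P P' o l g ≤ 2 - c + min (slN hn P P' o (n - 1) g - 1) 1

/-- The slopes of a window without ties. -/
def SlV (hn : 2 ≤ n) (P : ℝ → ℝ → ℝ) (P' : ℕ → List (Fin n) × Fin n → ℝ → ℝ → ℝ) (c : ℝ)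
    (o : Od n) (g : ℝ) : Prop :=
  ∀ l < n - 1, c ≤ |slN hn P P' o l g - slN hn P P' o (n - 1) g|

/-- Finitely many scales. -/
theorem scl_fin {ι : Type*} (s : Finset ι) {Ψ : ι → ℝ → Prop}
    (h : ∀ i ∈ s, ∃ r₀ : ℝ, 0 < r₀ ∧ ∀ r : ℝ, 0 < r → r < r₀ → Ψ i r) :
    ∃ r₀ : ℝ, 0 < r₀ ∧ ∀ r : ℝ, 0 < r → r < r₀ → ∀ i ∈ s, Ψ i r := by
  classical
  induction s using Finset.induction_on with
  | empty => exact ⟨1, one_pos, fun _ _ _ i hi => absurd hi (Finset.notMem_empty i)⟩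
  | insert a s _ ih =>
    obtain ⟨r₁, hr₁, h1⟩ := ih fun i hi => h i (Finset.mem_insert_of_mem hi)
    obtain ⟨r₂, hr₂, h2⟩ := h a (Finset.mem_insert_self a s)
    refine ⟨min r₁ r₂, lt_min hr₁ hr₂, fun r hr hr' i hi => ?_⟩
    rcases Finset.mem_insert.1 hi with rfl | hi
    · exact h2 r hr (hr'.trans_le (min_le_right _ _))
    · exact h1 r hr (hr'.trans_le (min_le_left _ _)) i hi

/-- Finitely many positive numbers. -/
theorem pos_fin {ι : Type*} (s : Finset ι) {f : ι → ℝ} (h : ∀ i ∈ s, 0 < f i) :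
    ∃ c : ℝ, 0 < c ∧ ∀ i ∈ s, c ≤ f i := by
  classical
  induction s using Finset.induction_on with
  | empty => exact ⟨1, one_pos, fun i hi => absurd hi (Finset.notMem_empty i)⟩
  | insert a s _ ih =>
    obtain ⟨c, hc, h1⟩ := ih fun i hi => h i (Finset.mem_insert_of_mem hi)
    refine ⟨min c (f a), lt_min hc (h a (Finset.mem_insert_self a s)), fun i hi => ?_⟩
    rcases Finset.mem_insert.1 hi with rfl | hi
    · exact min_le_right _ _
    · exact (min_le_left _ _).trans (h1 i hi)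

section

variable {hn : 2 ≤ n} {S : PCl n} {P : ℝ → ℝ → ℝ} {rr : ℝ → ℝ}
  {P' : ℕ → List (Fin n) × Fin n → ℝ → ℝ → ℝ} {Λ : Finset (Fin n) → Fin n → ℝ → ℝ → ℝ}
  {PB : ℕ → List (Fin n) × Fin n → ℝ → ℝ → ℝ} {PN PC : Od n → ℕ → ℝ → ℝ → ℝ}

theorem KnT.mono {h : ℝ} {R : Finset (Fin n)} {o : Od n} {g r d d' : ℝ} (hd : d ≤ d')
    (H : KnT hn P rr P' h PN PC R o g r d) : KnT hn P rr P' h PN PC R o g r d' :=
  ⟨nfB_mono H.row le_rfl hd le_rfl le_rfl,
    fun l hl hl' => (H.rgh l hl hl').mono fun _ _ h => h.trans (by linarith),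
    fun l hl hl' => (H.con l hl hl').mono fun _ _ h => h.trans (by linarith)⟩

/-- For all small scales. -/
def Sml (Φ : ℝ → ℝ → Prop) : Prop :=
  ∀ e : ℝ, 0 < e → ∃ r₀ : ℝ, 0 < r₀ ∧ ∀ r : ℝ, 0 < r → r < r₀ → Φ r (e * r)

theorem Sml.and {Φ Φ' : ℝ → ℝ → Prop} (h : Sml Φ) (h' : Sml Φ') :
    Sml fun r d => Φ r d ∧ Φ' r d := by
  intro e he
  obtain ⟨r₁, hr₁, h1⟩ := h e he
  obtain ⟨r₂, hr₂, h2⟩ := h' e he
  exact ⟨min r₁ r₂, lt_min hr₁ hr₂, fun r hr hr' => ⟨h1 r hr (hr'.trans_le (min_le_left _ _)),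
    h2 r hr (hr'.trans_le (min_le_right _ _))⟩⟩

theorem Sml.mono {Φ Φ' : ℝ → ℝ → Prop} (h : Sml Φ) (hs : ∀ r d, 0 < r → Φ r d → Φ' r d) :
    Sml Φ' := by
  intro e he
  obtain ⟨r₁, hr₁, h1⟩ := h e he
  exact ⟨r₁, hr₁, fun r hr hr' => hs r _ hr (h1 r hr hr')⟩

theorem Sml.all {ι : Type*} (s : Finset ι) {Φ : ι → ℝ → ℝ → Prop} (h : ∀ i ∈ s, Sml (Φ i)) :
    Sml fun r d => ∀ i ∈ s, Φ i r d := fun e he => scl_fin s fun i hi => h i hi e he

/-- The rows of `rt rr h`. -/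
theorem rt_def (hl : LipschitzWith 1 rr) (hm : Monotone rr) (h : ℝ) :
    ∀ᵐ Q : ℝ, deriv (rt rr h) Q < 1 → h ≤ 1 - deriv rr Q := by
  filter_upwards [rt_deriv (h := h) hl hm] with Q h1 h3
  by_contra hcon
  push Not at hcon
  rw [h1.deriv] at h3
  unfold rtd at h3
  rw [if_pos (by linarith)] at h3
  exact lt_irrefl _ h3

/-- The rows near a row, for small scales. -/
theorem row_sml (hl : LipschitzWith 1 rr) {ρ' : ℝ → ℝ} {h : ℝ} (hh : 0 < h)
    (hrow : ∀ᵐ Q : ℝ, deriv ρ' Q < 1 → h ≤ 1 - deriv rr Q) :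
    ∀ᵐ Q : ℝ, deriv ρ' Q < 1 → Sml fun r d => NfB rr h d (Q - r) (Q + 3 * r) := by
  filter_upwards [hrow, hl.ae_differentiableAt_real] with Q h1 h2 h3 e he
  obtain ⟨r₀, hr₀, h5⟩ := Pool.STR.nfB_of h2 (by linarith [h1 h3]) (h1 h3) he
    (show (0 : ℝ) < 3 by norm_num)
  exact ⟨r₀, hr₀, fun r hr hr' => nfB_mono (h5 r hr hr') le_rfl le_rfl (by linarith)
    (by linarith)⟩

variable (H : PkT hn S P rr P' Λ PB) {hTop : TopS n} {hF : FZX (n - 1)} {ρ' : ℝ → ℝ}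
  {hρ : Rle rr ρ'}

/-- **The windows without boxes**: the slope of the target is one, or its threshold is static. -/
noncomputable def kpD (H : PkT hn S P rr P' Λ PB) (hTop : TopS n) (hF : FZX (n - 1))
    (hρ : Rle rr ρ') : NumI.KndP ((H.nk hTop hF).chg hρ H.up) Unit where
  A _ _ _ _ := True
  Φ _ o g r d := slN hn P P' o (n - 1) g ≤ 1 ∨ Box7 g r fun a w =>
    P a a ≤ PT hn PB o a w + d
  mono hd h := h.imp id fun h => h.mono fun _ _ h => h.trans (by linarith)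

/-- **The windows without ties.** -/
noncomputable def kpV (H : PkT hn S P rr P' Λ PB) (hTop : TopS n) (hF : FZX (n - 1))
    (hρ : Rle rr ρ') (h : ℝ) : NumI.KndP ((H.nk hTop hF).chg hρ H.up) Unit where
  A c _ o g := SlV hn P P' c o g
  Φ _ _ g r d := NfB rr h d (P g g - r) (P g g + 3 * r)
  mono hd h := nfB_mono h le_rfl hd le_rfl le_rfl

/-- **The windows with ties**, `PN` and `PC` are thresholds, `AX` and `ΦX` further properties. -/
noncomputable def kpT (H : PkT hn S P rr P' Λ PB) (hTop : TopS n) (hF : FZX (n - 1))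
    (hρ : Rle rr ρ') (h : ℝ) (PN PC : Od n → ℕ → ℝ → ℝ → ℝ)
    (AX : ℝ → Finset (Fin n) → Od n → ℝ → Prop) (ΦX : Finset (Fin n) → Od n → ℝ → ℝ → ℝ → Prop)
    (hX : ∀ {R : Finset (Fin n)} {o : Od n} {g r d d' : ℝ}, d ≤ d' → ΦX R o g r d →
      ΦX R o g r d') : NumI.KndP ((H.nk hTop hF).chg hρ H.up) (Finset (Fin n)) where
  A c R o g := SlT hn P P' c R o g ∧ AX c R o g
  Φ R o g r d := KnT hn P rr P' h PN PC R o g r d ∧ ΦX R o g r d
  mono hd h := ⟨h.1.mono hd, hX hd h.2⟩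

theorem kpD_at {o : Od n} {g : ℝ} (hg : slN hn P P' o (n - 1) g ≤ 1 ∨
    Sml fun r d => Box7 g r fun a w => P a a ≤ PT hn PB o a w + d) :
    (kpD H hTop hF hρ).At () (show ((H.nk hTop hF).chg hρ H.up).O from o) g := by
  refine ⟨1, one_pos, fun _ _ _ => trivial, ?_⟩
  rcases hg with h1 | h1
  · exact fun e _ => ⟨1, one_pos, fun r _ _ => Or.inl h1⟩
  · exact fun e he => (h1 e he).imp fun r₀ h2 => ⟨h2.1, fun r hr hr' => Or.inr (h2.2 r hr hr')⟩

theorem kpV_at {o : Od n} {g h : ℝ}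
    (hg : ∀ l < n - 1, slN hn P P' o l g ≠ slN hn P P' o (n - 1) g)
    (hrow : Sml fun r d => NfB rr h d (P g g - r) (P g g + 3 * r)) :
    (kpV H hTop hF hρ h).At () (show ((H.nk hTop hF).chg hρ H.up).O from o) g := by
  obtain ⟨c, hc, hc1⟩ := pos_fin (Finset.range (n - 1))
    (f := fun l => |slN hn P P' o l g - slN hn P P' o (n - 1) g|) fun l hl =>
      abs_pos.2 (sub_ne_zero.2 (hg l (Finset.mem_range.1 hl)))
  exact ⟨c, hc, fun c' _ hcc l hl => hcc.trans (hc1 l (Finset.mem_range.2 hl)), hrow⟩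

theorem kpT_at {PN PC : Od n → ℕ → ℝ → ℝ → ℝ}
    {AX : ℝ → Finset (Fin n) → Od n → ℝ → Prop} {ΦX : Finset (Fin n) → Od n → ℝ → ℝ → ℝ → Prop}
    {hX : ∀ {R : Finset (Fin n)} {o : Od n} {g r d d' : ℝ}, d ≤ d' → ΦX R o g r d →
      ΦX R o g r d'} {o : Od n} {g h : ℝ} {R : Finset (Fin n)}
    (hcon : ∀ l < n - 1, ¬ InR R l → 2 ≤ slN hn P P' o l g)
    (hslo : ∀ l ≤ n - 1, slN hn P P' o l g < 2 + min (slN hn P P' o (n - 1) g - 1) 1)
    (hrow : Sml fun r d => NfB rr h d (P g g - r) (P g g + 3 * r))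
    (hN : ∀ l < n - 1, InR R l → Sml fun r d => Box7 g r fun a w =>
      PN o l a w ≤ dgN hn P P' o l w + (a - w) + d)
    (hC : ∀ l < n - 1, ¬ InR R l → Sml fun r d => Box7 g r fun a w =>
      dgN hn P P' o l w + 2 * (a - w) ≤ PC o l a w + d)
    (hA : ∃ c : ℝ, 0 < c ∧ ∀ c' : ℝ, 0 < c' → c' ≤ c → AX c' R o g)
    (hΦ : Sml fun r d => ΦX R o g r d) :
    (kpT H hTop hF hρ h PN PC AX ΦX hX).At R (show ((H.nk hTop hF).chg hρ H.up).O from o) g := by
  obtain ⟨c, hc, hc1⟩ := pos_fin (Finset.range (n - 1 + 1))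
    (f := fun l => 2 + min (slN hn P P' o (n - 1) g - 1) 1 - slN hn P P' o l g) fun l hl => by
      have := hslo l (by have := Finset.mem_range.1 hl; omega)
      linarith
  obtain ⟨c₁, hc₁, hA⟩ := hA
  refine ⟨min c c₁, lt_min hc hc₁, fun c' hc' hcc => ⟨⟨hcon, fun l hl => ?_⟩,
    hA c' hc' (hcc.trans (min_le_right _ _))⟩, ?_⟩
  · have := hc1 l (Finset.mem_range.2 (by omega))
    linarith [hcc.trans (min_le_left _ _)]
  have k2 : Sml fun r d => ∀ l ∈ Finset.range (n - 1), InR R l → Box7 g r fun a w =>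
      PN o l a w ≤ dgN hn P P' o l w + (a - w) + d := Sml.all _ fun l hl => by
    by_cases hl' : InR R l
    · exact (hN l (Finset.mem_range.1 hl) hl').mono fun _ _ _ h _ => h
    · exact fun _ _ => ⟨1, one_pos, fun _ _ _ h => absurd h hl'⟩
  have k3 : Sml fun r d => ∀ l ∈ Finset.range (n - 1), ¬ InR R l → Box7 g r fun a w =>
      dgN hn P P' o l w + 2 * (a - w) ≤ PC o l a w + d := Sml.all _ fun l hl => by
    by_cases hl' : ¬ InR R l
    · exact (hC l (Finset.mem_range.1 hl) hl').mono fun _ _ _ h _ => h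
    · exact fun _ _ => ⟨1, one_pos, fun _ _ _ h => absurd h hl'⟩
  exact ((hrow.and (k2.and k3)).and hΦ).mono fun r d _ h => ⟨⟨h.1.1,
    fun l hl hl' => h.1.2.1 l (Finset.mem_range.2 hl) hl',
    fun l hl hl' => h.1.2.2 l (Finset.mem_range.2 hl) hl'⟩, h.2⟩

/-! ### The kit -/

/-- **The kit** of a class. -/
noncomputable def kitN (H : PkT hn S P rr P' Λ PB)
    (p : ((H.nk hTop hF).chg hρ H.up).Par) (K : ℕ) : KitS n p.cell (n - 1) where
  cs k := cc hn (show Od n from k.2).1.1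
  jx _ := jxI n
  K := K
  W q N M θ J F D A := wBS p.cell (fun k => cc hn (show Od n from k.2).1.1) (fun _ => jxI n)
    (n - 1) K q N M θ J F A D.G D.H
  her := fun q N M θ {_ _ _ _ _} hB h => wBS_her p.cell
    (fun k => cc hn (show Od n from k.2).1.1) (fun _ => jxI n) (n - 1) K q N M θ hB h
  RT _ _ _ _ _ _ _ _ _ := Unit
  rc _ _ _ _ _ _ _ _ _ _ := ()

/-- The windows of the cells have the property `ChI`. -/
theorem cls_chi {p : ((H.nk hTop hF).chg hρ H.up).Par}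
    (hp : ∀ c (k : p.α × Od n) Q g ρ, p.Ad' c k Q g ρ → AdI hn S P P' c k.2 g ρ) {c : ℝ} :
    ∀ (k : p.cell.α × p.cell.O) (Q g ρ : ℝ), p.cell.Ad c k Q g ρ →
      ∃ (Pc : List (Fin n) × Fin n → ℝ → ℝ → ℝ) (θ sg : ℝ) (W : Set ℝ),
        ThrOf (chsys n θ) S Pc ∧
        (∀ l < n - 1, ∀ a, p.cell.D k.2 (jxI n l) a =
          bet Pc (cc hn (show Od n from k.2).1.1) l a a) ∧
        ChI S Pc θ (cc hn (show Od n from k.2).1.1) (n - 1) P W sg c g ρ := by
  rintro ⟨x, o⟩ Q g ρ h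
  obtain ⟨sg, h1⟩ := hp c (x, o) Q g ρ h.2.2.2.2
  refine ⟨P' (show Od n from o).2, tht (show Od n from o).2, sg, Wgc P' (show Od n from o).2,
    H.cht _, fun l hl a => ?_, h1⟩
  have h2 : jxI n l = some ⟨l, hl⟩ := dif_pos hl
  rw [h2]
  rfl

/-- The diagonals are below one. -/
theorem cls_hlt {p : ((H.nk hTop hF).chg hρ H.up).Par}
    (hp : ∀ c (k : p.α × Od n) Q g ρ, p.Ad' c k Q g ρ → AdI hn S P P' c k.2 g ρ)
    {c β hh M : ℝ} : EvP (IsBS p.cell c β hh M) fun q => ∀ l < n - 1,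
      p.cell.D q.k.2 (jxI n l) q.g + c ≤ 1 := by
  refine ⟨1, one_pos, fun q hq l hl => ?_⟩
  obtain ⟨Pc, θ, sg, W, -, h2, h3⟩ := cls_chi H hp q.k q.Q q.g q.r hq.ad
  have hg : 0 < q.g := by linarith [hq.g0, hq.r0]
  have h4 := h3.bd l hl q.g hg (by linarith [hq.r0])
  rw [h2 l hl]
  linarith [h3.sg1]

theorem cls_hD {p : ((H.nk hTop hF).chg hρ H.up).Par} (o : p.cell.O) (j : p.cell.J) :
    Diag (p.cell.D o j) := by
  cases j with
  | none => exact ((H.nk hTop hF).chg hρ H.up).diag_T o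
  | some j => exact ((H.nk hTop hF).chg hρ H.up).hD o j

theorem cls_hP (H : PkT hn S P rr P' Λ PB) : Diag fun a => P a a :=
  Pool.RTS.diag_thr H.tgs ()

/-- The levels of the kit. -/
theorem kit_dg {p : ((H.nk hTop hF).chg hρ H.up).Par} {K : ℕ} (q : BS p.cell)
    (l : ℕ) : (kitN H p K).Dg q l = dgN hn P P' (show Od n from q.k.2) l := by
  unfold KitS.Dg dgN
  by_cases h1 : l < n - 1
  · rw [if_pos h1, if_pos h1]
    show p.cell.D q.k.2 (jxI n l) = _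
    have h2 : jxI n l = some ⟨l, h1⟩ := dif_pos h1
    rw [h2]
    rfl
  · rw [if_neg h1, if_neg h1]

/-- **The labels of the grids.** -/
theorem cls_grd (n : ℕ) {c : ℝ} (hc : 0 < c) : ∃ (K K' s₁ : ℕ) (sh : ℕ → ℕ), 1 ≤ K ∧ 1 ≤ K' ∧
    ∀ {hn : 2 ≤ n} {S : PCl n} {P : ℝ → ℝ → ℝ} {rr : ℝ → ℝ}
      {P' : ℕ → List (Fin n) × Fin n → ℝ → ℝ → ℝ} {Λ : Finset (Fin n) → Fin n → ℝ → ℝ → ℝ}
      {PB : ℕ → List (Fin n) × Fin n → ℝ → ℝ → ℝ} (H : PkT hn S P rr P' Λ PB) {hTop : TopS n}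
      {hF : FZX (n - 1)} {ρ' : ℝ → ℝ} {hρ : Rle rr ρ'} {p : ((H.nk hTop hF).chg hρ H.up).Par}
      (_ : ∀ c (k : p.α × Od n) Q g ρ, p.Ad' c k Q g ρ → AdI hn S P P' c k.2 g ρ)
      {β hh M : ℝ}, 0 < β →
    ∀ M' : ℕ, EvQ (IsBS p.cell c β hh M) fun N θ q => ∃ (b : ℕ → ℕ → ℕ → ℝ) (e : ℕ → ℕ → ℝ),
      (kitN H p K).kit.Near q N M' θ b e ∧
        Lg S fun _ F A => ∃ D : GDat F, ((kitN H p K).kit.grid K' s₁ sh q N M' θ b e).Ok F D A := by
  obtain ⟨K, K', s₁, sh, hK, hK', hg⟩ := grd_iso n (n - 1) hc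
  refine ⟨K, K', s₁, sh, hK, hK', ?_⟩
  intro hn S P rr P' Λ PB H hTop hF ρ' hρ p hp β hh M hβ
  exact hg (kitN H p K) rfl H.ne H.tmh (H.tgs.law ()) hβ (cls_hP H) (cls_hD H)
    (fun k i hi j hj hij => cc_inj' hn _ (by omega) (by omega) hij)
    (cls_hlt H hp) (cls_chi H hp) fun q N M θ J F D A h1 => h1

end

end Pool.PKG
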