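import Pool.Agent.H78.MIC.ClsV
import Pool.Agent.H60.GEN.KpK

/-!
# No boxes in a class

`NoKd K hyp`: there are no boxes of the kinds `K`, if the boxes of the kinds have the properties
`hyp`; `HasK K hyp`: they have these properties. `HypV`, `HypP`: exactness (and the closed lower
bound of the rows) on the boxes of the kinds.
`nok_D`, `nok_V`, `nok_P`: the kinds without boxes.
`noBS_cls`: no boxes in a class, from kinds without boxes which cover the windows of the nonfull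
rows. `noBS_V`: if all the windows have no ties or slope one or a static threshold.
-/

set_option autoImplicit false

namespace Pool.PKG

open MeasureTheory Set Filter Topology
open Pool.Agent.H49.Ent Pool.Agent.H32.Dense Pool.STK Pool.KA Pool.KSAT Pool.K2S Pool.PB
open Pool.GEN Pool.S6C Pool.STAT Pool.CHT Pool.GRW Pool.ONE Pool.STA
open Pool.LBT (LSys ThrOf)
open Pool.LEV (Law Lv)
open Pool.ALL (RateOf)
open Pool.TOP (TopS)
open Pool.RTS (iso Diag)
open Pool.STR (NumI CellD RowD NfB AffB Rle Nw ae_rowD)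
open Pool.ISO (ChI)
open Pool.STAT.CLO Pool.MIC6
open Pool.P4 (NFc1 P4Stmt1)

variable {n : ℕ} {hn : 2 ≤ n} {S : PCl n} {P : ℝ → ℝ → ℝ} {rr : ℝ → ℝ}
  {P' : ℕ → List (Fin n) × Fin n → ℝ → ℝ → ℝ} {Λ : Finset (Fin n) → Fin n → ℝ → ℝ → ℝ}
  {PB : ℕ → List (Fin n) × Fin n → ℝ → ℝ → ℝ} {PN PC : Od n → ℕ → ℝ → ℝ → ℝ}
  (H : PkT hn S P rr P' Λ PB) {hTop : TopS n} {hF : FZX (n - 1)} {h : ℝ}
  {ρ' : ℝ → ℝ} {hρ : Rle rr ρ'}

/-- The parameters of the cells contain those of the grids. -/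
def AdP (p : ((H.nk hTop hF).chg hρ H.up).Par) : Prop :=
  ∀ c (k : p.α × Od n) Q g ρ, p.Ad' c k Q g ρ → AdI hn S P P' c k.2 g ρ

/-- Hypotheses about the boxes of the kinds `x : ι`. -/
abbrev HypK (ι : Type) : Type _ :=
  ι → (p : ((H.nk hTop hF).chg hρ H.up).Par) → (ℝ → BS p.cell → Prop) → Prop

/-- **The boxes have the properties of the kind** `x`. -/
structure OnK {ι : Type} (K : NumI.KndP ((H.nk hTop hF).chg hρ H.up) ι)
    (p : ((H.nk hTop hF).chg hρ H.up).Par) (x : ι) (c : ℝ) (I : ℝ → BS p.cell → Prop) : Prop where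
  A : ∀ ε q, I ε q → K.A c x q.k.2 q.g
  Φ : ∀ ε' : ℝ, 0 < ε' → EvP I fun q => K.Φ x q.k.2 q.g q.r (ε' * q.r)

/-- **Kinds without boxes**, if the boxes of the kinds have the properties `hyp`. -/
def NoKd {ι : Type} (K : NumI.KndP ((H.nk hTop hF).chg hρ H.up) ι)
    (hyp : HypK (hTop := hTop) (hF := hF) (hρ := hρ) H ι) : Prop :=
  ∀ p : ((H.nk hTop hF).chg hρ H.up).Par, AdP H p →
    ∀ {ι' : Type} (kd : p.cell.α → ι') (x' : ι') (x : ι) (c β h' M : ℝ), 0 < c → 0 < β →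
      OnK H K p x c (IsK p.cell kd c β h' M x') → hyp x p (IsK p.cell kd c β h' M x') →
      EvP (IsK p.cell kd c β h' M x') fun _ => False

/-- **The boxes of the kinds have the properties** `hyp`. -/
def HasK {ι : Type} (K : NumI.KndP ((H.nk hTop hF).chg hρ H.up) ι)
    (hyp : HypK (hTop := hTop) (hF := hF) (hρ := hρ) H ι) : Prop :=
  ∀ p : ((H.nk hTop hF).chg hρ H.up).Par, AdP H p →
    ∀ {ι' : Type} (kd : p.cell.α → ι') (x' : ι') (x : ι) (c β h' M : ℝ), 0 < c → 0 < β →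
      OnK H K p x c (IsK p.cell kd c β h' M x') → hyp x p (IsK p.cell kd c β h' M x')

variable {H}

theorem OnK.inl {ι ι' : Type} {K : NumI.KndP ((H.nk hTop hF).chg hρ H.up) ι}
    {K' : NumI.KndP ((H.nk hTop hF).chg hρ H.up) ι'} {p : ((H.nk hTop hF).chg hρ H.up).Par}
    {x : ι} {c : ℝ} {I : ℝ → BS p.cell → Prop} (h : OnK H (K.sum K') p (Sum.inl x) c I) :
    OnK H K p x c I := ⟨h.A, h.Φ⟩

theorem OnK.inr {ι ι' : Type} {K : NumI.KndP ((H.nk hTop hF).chg hρ H.up) ι}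
    {K' : NumI.KndP ((H.nk hTop hF).chg hρ H.up) ι'} {p : ((H.nk hTop hF).chg hρ H.up).Par}
    {x : ι'} {c : ℝ} {I : ℝ → BS p.cell → Prop} (h : OnK H (K.sum K') p (Sum.inr x) c I) :
    OnK H K' p x c I := ⟨h.A, h.Φ⟩

/-- The kinds of two families, without boxes. -/
theorem NoKd.sum {ι ι' : Type} {K : NumI.KndP ((H.nk hTop hF).chg hρ H.up) ι}
    {K' : NumI.KndP ((H.nk hTop hF).chg hρ H.up) ι'}
    {hyp : HypK (hTop := hTop) (hF := hF) (hρ := hρ) H ι}
    {hyp' : HypK (hTop := hTop) (hF := hF) (hρ := hρ) H ι'} (h : NoKd H K hyp)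
    (h' : NoKd H K' hyp') : NoKd H (K.sum K') fun x => x.elim hyp hyp' := by
  intro p hp κ kd x' x c β h₁ M hc hβ hK hy
  cases x with
  | inl x => exact h p hp kd x' x c β h₁ M hc hβ hK.inl hy
  | inr x => exact h' p hp kd x' x c β h₁ M hc hβ hK.inr hy

theorem HasK.sum {ι ι' : Type} {K : NumI.KndP ((H.nk hTop hF).chg hρ H.up) ι}
    {K' : NumI.KndP ((H.nk hTop hF).chg hρ H.up) ι'}
    {hyp : HypK (hTop := hTop) (hF := hF) (hρ := hρ) H ι}
    {hyp' : HypK (hTop := hTop) (hF := hF) (hρ := hρ) H ι'} (h : HasK H K hyp)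
    (h' : HasK H K' hyp') : HasK H (K.sum K') fun x => x.elim hyp hyp' := by
  intro p hp κ kd x' x c β h₁ M hc hβ hK
  cases x with
  | inl x => exact h p hp kd x' x c β h₁ M hc hβ hK.inl
  | inr x => exact h' p hp kd x' x c β h₁ M hc hβ hK.inr

theorem NoKd.mono {ι : Type} {K : NumI.KndP ((H.nk hTop hF).chg hρ H.up) ι}
    {hyp hyp' : HypK (hTop := hTop) (hF := hF) (hρ := hρ) H ι} (h : NoKd H K hyp)
    (hs : ∀ x p I, hyp' x p I → hyp x p I) : NoKd H K hyp' :=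
  fun p hp _ kd x' x c β h₁ M hc hβ hK hy =>
    h p hp kd x' x c β h₁ M hc hβ hK (hs _ _ _ hy)

/-- Further properties of the windows. -/
theorem NoKd.and {ι ι' : Type} {K : NumI.KndP ((H.nk hTop hF).chg hρ H.up) ι}
    {hyp : HypK (hTop := hTop) (hF := hF) (hρ := hρ) H ι} (h : NoKd H K hyp)
    (K' : NumI.KndP ((H.nk hTop hF).chg hρ H.up) ι') :
    NoKd H (K.and K') fun x => hyp x.1 :=
  fun p hp _ kd x' x c β h₁ M hc hβ hK hy => h p hp kd x' x.1 c β h₁ M hc hβ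
    ⟨fun ε q hq => (hK.A ε q hq).1, fun ε' hε' => (hK.Φ ε' hε').mono fun _ h => h.1⟩ hy

/-- The properties of the boxes from those of the windows of the second family. -/
theorem HasK.of_snd {ι ι' : Type} {K : NumI.KndP ((H.nk hTop hF).chg hρ H.up) ι}
    {K' : NumI.KndP ((H.nk hTop hF).chg hρ H.up) ι'}
    {hyp : HypK (hTop := hTop) (hF := hF) (hρ := hρ) H ι'} (h : HasK H K' hyp) :
    HasK H (K.and K') fun x => hyp x.2 :=
  fun p hp _ kd x' x c β h₁ M hc hβ hK => h p hp kd x' x.2 c β h₁ M hc hβ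
    ⟨fun ε q hq => (hK.A ε q hq).2, fun ε' hε' => (hK.Φ ε' hε').mono fun _ h => h.2⟩

/-- No boxes with slope one or static threshold. -/
theorem nok_D (hyp : HypK (hTop := hTop) (hF := hF) (hρ := hρ) H Unit) :
    NoKd H (kpD H hTop hF hρ) hyp :=
  fun _ _ _ _ _ _ _ _ _ _ _ hβ hK _ => cls_D H hβ hK.Φ

/-- **Exactness**, on the boxes of the kinds. -/
def HypV (ι : Type) : HypK (hTop := hTop) (hF := hF) (hρ := hρ) H ι :=
  fun _ p I => ExnI H p I ∧ ExsI H p I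

/-- **Exactness and the closed lower bound** of the rows, on the boxes of the kinds. -/
def HypP (ι : Type) (x : ℝ) : HypK (hTop := hTop) (hF := hF) (hρ := hρ) H ι :=
  fun _ p I => ExnI H p I ∧ ExsI H p I ∧ NfcI H p x I

/-- Exactness on the boxes of the rows is exactness on the boxes of every kind. -/
theorem hasV {ι : Type} (K : NumI.KndP ((H.nk hTop hF).chg hρ H.up) ι)
    (hE : ∀ p : ((H.nk hTop hF).chg hρ H.up).Par, AdP H p → ExnN H p ∧ ExsN H p) :
    HasK H K (HypV _) := by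
  intro p hp κ kd x' x c β h₁ M hc hβ _
  exact ⟨((hE p hp).1 c β h₁ M hc hβ).sub (isK_sub _ _ _ _ _ _ _),
    ((hE p hp).2 c β h₁ M hc hβ).sub (isK_sub _ _ _ _ _ _ _)⟩

/-- No boxes without ties. -/
theorem nok_V (hV : MicOf CondV) (hh : 0 < h) (hh1 : h ≤ 1) :
    NoKd H (kpV H hTop hF hρ h) (HypV _) :=
  fun _ hp _ _ _ _ _ _ _ _ hc hβ hK hy =>
    cls_V H hV hh hh1 hp hy.1 hy.2 hc hβ hK.A hK.Φ

/-- All the coordinates are rough. -/
def AllR {n : ℕ} (R : Finset (Fin n)) : Prop := ∀ l < n - 1, InR R l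

/-- No coordinate is faster than the target. -/
def SlLe (hn : 2 ≤ n) (P : ℝ → ℝ → ℝ) (P' : ℕ → List (Fin n) × Fin n → ℝ → ℝ → ℝ) (o : Od n)
    (g : ℝ) : Prop := ∀ l < n - 1, slN hn P P' o l g ≤ slN hn P P' o (n - 1) g

/-- **The windows with ties, all coordinates are rough**, none is faster than the target. -/
noncomputable def kpP (H : PkT hn S P rr P' Λ PB) (hTop : TopS n) (hF : FZX (n - 1))
    (hρ : Rle rr ρ') (h : ℝ) : NumI.KndP ((H.nk hTop hF).chg hρ H.up) (Finset (Fin n)) :=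
  kpT H hTop hF hρ h (fun o l => bet (PB o.2) (cc hn o.1.1) l)
    (fun o l => bet (P' o.2) (cc hn o.1.1) l)
    (fun _ R o g => AllR R ∧ SlLe hn P P' (show Od n from o) g) (fun _ _ _ _ _ => True)
    fun _ _ => trivial

/-- The closed lower bound on the boxes of the rows is the closed lower bound on the boxes of the
windows with ties. -/
theorem hasP {x' : ℝ} (hV : HasK H (kpP H hTop hF hρ h) (HypV _))
    (hE : ∀ p : ((H.nk hTop hF).chg hρ H.up).Par, AdP H p → NfcN H p x') :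
    HasK H (kpP H hTop hF hρ h) (HypP _ x') := by
  intro p hp κ kd y R c β h₁ M hc hβ hK
  obtain ⟨h1, h2⟩ := hV p hp kd y R c β h₁ M hc hβ hK
  exact ⟨h1, h2, (hE p hp c β h₁ M hc hβ).sub fun ε q hq =>
    ⟨isK_sub _ _ _ _ _ _ _ _ _ hq, (hK.A ε q hq).2.2⟩⟩

/-- No boxes with ties, if all coordinates are rough. -/
theorem nok_P {x' : ℝ} (hP : ∀ (K' : ℕ) (c : ℝ), 0 < c →
      MicX (XP4 K' 1 (fun _ => True) x') (QT (fun _ => True) (n - 1 + 1) c)
        (fun B => B = n + 2) (n - 1 + 1) K' h)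
    (hh : 0 < h) (hh1 : h ≤ 1) :
    NoKd H (kpP H hTop hF hρ h) (HypP _ x') := by
  intro p hp κ kd y R c β h₁ M hc hβ hK hy
  by_cases hR : AllR R
  · exact cls_P H hP hh hh1 hp hy.1 hy.2.1 hy.2.2 hc hβ hR
      (PN := fun o l => bet (PB o.2) (cc hn o.1.1) l)
      (PC := fun o l => bet (P' o.2) (cc hn o.1.1) l) (fun _ _ _ => rfl)
      (fun ε q hq => (hK.A ε q hq).1) fun ε' hε' => (hK.Φ ε' hε').mono fun q h1 => h1.1
  · exact ⟨1, one_pos, fun q hq => hR (hK.A _ q hq).2.1⟩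

/-- The windows with ties, all coordinates are rough, none is faster than the target. -/
theorem kpP_at {o : Od n} {g h : ℝ} (hle : SlLe hn P P' o g)
    (hslo : ∀ l ≤ n - 1, slN hn P P' o l g < 2 + min (slN hn P P' o (n - 1) g - 1) 1)
    (hrow : Sml fun r d => NfB rr h d (P g g - r) (P g g + 3 * r))
    (hN : ∀ l < n - 1, Sml fun r d => Box7 g r fun a w =>
      bet (PB o.2) (cc hn o.1.1) l a w ≤ dgN hn P P' o l w + (a - w) + d) :
    (kpP H hTop hF hρ h).At (Finset.univ : Finset (Fin n))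
      (show ((H.nk hTop hF).chg hρ H.up).O from o) g := by
  have hR : AllR (Finset.univ : Finset (Fin n)) := fun l hl =>
    ⟨⟨l, by omega⟩, Finset.mem_univ _, rfl⟩
  exact kpT_at H (fun l hl h1 => absurd (hR l hl) h1) hslo hrow (fun l hl _ => hN l hl)
    (fun l hl h1 => absurd (hR l hl) h1) ⟨1, one_pos, fun _ _ _ => ⟨hR, hle⟩⟩
    fun _ _ => ⟨1, one_pos, fun _ _ _ => trivial⟩

/-- The slopes of an order. -/
theorem slN_dg (H : PkT hn S P rr P' Λ PB) (hTop : TopS n) (hF : FZX (n - 1)) (o : Od n) {l : ℕ}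
    (hl : l ≤ n - 1) (g : ℝ) :
    slN hn P P' o l g = deriv ((H.nk hTop hF).dg o l) g := by
  unfold slN dgN
  rcases hl.lt_or_eq with h1 | h1
  · rw [if_pos h1]
    have h2 : (H.nk hTop hF).dg o l = (H.nk hTop hF).D o ⟨l, h1⟩ := (H.nk hTop hF).dg_lt o h1
    rw [h2]
    rfl
  · rw [if_neg (by omega), h1]
    have h2 : (H.nk hTop hF).dg o (n - 1) = fun a => P a a := (H.nk hTop hF).dg_m o
    rw [h2]

/-- **No boxes in a class**: the windows of the nonfull rows are of kinds without boxes. -/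
theorem noBS_cls {ι : Type} [Finite ι] {K : NumI.KndP ((H.nk hTop hF).chg hρ H.up) ι}
    {hyp : HypK (hTop := hTop) (hF := hF) (hρ := hρ) H ι} (hK : NoKd H K hyp)
    (hrow : ∀ᵐ Q : ℝ, deriv ρ' Q < 1 → h ≤ 1 - deriv rr Q) (hh : 0 < h)
    (hW : ∀ o : Od n, ∀ᵐ g : ℝ, ((H.nk hTop hF).chg hρ H.up).RwD o g →
      (Sml fun r d => NfB rr h d (P g g - r) (P g g + 3 * r)) → ∃ x : ι, K.At x o g)
    (hE : HasK H K hyp) :
    ∃ p : ((H.nk hTop hF).chg hρ H.up).Par, p.cell.NoBS := by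
  have hlaw := H.tgs.law ()
  have hcO := (H.nk hTop hF).cO
  have hk : ∀ᵐ Q : ℝ, RowD P ρ' (∅ : Set ℝ)ᶜ Q → ∀ o : ((H.nk hTop hF).chg hρ H.up).O,
      Lv P (Q, 0) ∈ ((H.nk hTop hF).chg hρ H.up).Gd o → P (Lv P (Q, 0)) (Lv P (Q, 0)) = Q →
        ∃ x : ι, K.At x o (Lv P (Q, 0)) := by
    have a1 := ae_all_iff.2 fun o : Od n => ae_rowD (ρ := ρ') (W := univ) hlaw (hW o)
    have a2 := ae_all_iff.2 fun o : Od n => H.rwd_ae hTop hF hρ o
    filter_upwards [a1, a2, row_sml H.rate.lip hh hrow] with Q h1 h2 h3 hR o ho hv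
    have hR' : RowD P ρ' univ Q := { hR with mem := mem_univ _ }
    exact h1 o hR' (h2 o hR' ho.1) (by rw [hv]; exact h3 hR.rlt)
  obtain ⟨N', hN', -, hord⟩ := (NumI.Par.triv ((H.nk hTop hF).chg hρ H.up)).cell.ordE hlaw
  obtain ⟨p, hp⟩ : ∃ p, p = parN H (K.knd measure_empty hk) hN' hord := ⟨_, rfl⟩
  refine ⟨p, ?_⟩
  have hpI : AdP H p := by
    rw [hp]
    exact parN_adI H
  rw [hp] at hpI ⊢
  exact noBS_knd (K := K.knd measure_empty hk) fun c β h' hc hβ _ => ⟨1, one_pos, fun x =>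
    hK _ hpI _ x x c β h' 1 hc hβ ⟨fun ε q hq => (knd_A hq).2, fun ε' hε' => knd_Φ hε'⟩
      (hE _ hpI _ x x c β h' 1 hc hβ ⟨fun ε q hq => (knd_A hq).2, fun ε' hε' => knd_Φ hε'⟩)⟩

/-- **No boxes**, if the windows of the nonfull rows have no ties, slope one, or a static threshold
of the target. -/
theorem noBS_V (hV : MicOf CondV) (hh : 0 < h) (hh1 : h ≤ 1)
    (hrow : ∀ᵐ Q : ℝ, deriv ρ' Q < 1 → h ≤ 1 - deriv rr Q)
    (hW : ∀ o : Od n, ∀ᵐ g : ℝ, ((H.nk hTop hF).chg hρ H.up).RwD o g →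
      (slN hn P P' o (n - 1) g ≤ 1 ∨ Sml fun r d => Box7 g r fun a w =>
        P a a ≤ PT hn PB o a w + d) ∨
      ∀ l < n - 1, slN hn P P' o l g ≠ slN hn P P' o (n - 1) g)
    (hE : HasK H (kpV H hTop hF hρ h) (HypV _)) :
    ∃ p : ((H.nk hTop hF).chg hρ H.up).Par, p.cell.NoBS := by
  refine noBS_cls (K := (kpD H hTop hF hρ).sum (kpV H hTop hF hρ h))
    ((nok_D fun _ _ _ => True).sum (nok_V hV hh hh1)) hrow hh (fun o => ?_)
    (HasK.sum (fun _ _ _ _ _ _ _ _ _ _ _ _ _ => trivial) hE)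
  filter_upwards [hW o] with g h1 h2 h3
  rcases h1 h2 with h4 | h4
  · exact ⟨Sum.inl (), NumI.KndP.At.inl (kpD_at H h4)⟩
  · exact ⟨Sum.inr (), NumI.KndP.At.inr (kpV_at H h4 h3)⟩

end Pool.PKG
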