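import Pool.Agent.H78.MIC.BckX
import Pool.Agent.H40.MIC.Asm1
import Pool.Agent.H60.GEN.MicF

/-!
# The grid of a joint cell

`CellL`: levels `L l`, `l < n`, which are affine up to `ε X` on a cell of size `X` in the plane of
the windows and depths, with slopes at most `T`, and away from `1`. The grid has its corner in the
centre of the cell and the mesh `msh X N M = X / (N (M + 4))`. `CellL.num`: the numbers of the grid
(`Num2`) for sides near the levels; `CellL.nonew`: no new label of the target.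
-/

set_option autoImplicit false

namespace Pool.STAT

open Finset MvPolynomial
open Pool.Agent.H49.Ent Pool.Agent.H32.Dense Pool.STK Pool.KS3 Pool.KA Pool.KSAT Pool.PB Pool.GEN
open Pool.K2S Pool.S6C
open Pool.CHT (bet)
open Pool.CHB (chsysB)
open Pool.LBT (ThrOf)
open Pool.LEV (Law)
open Pool.STR (Affn Nw)
open CLO

variable {m : ℕ}

/-- **Levels on a cell.** -/
structure CellL (n : ℕ) (L : ℕ → ℝ → ℝ → ℝ) (ε T : ℝ) (y : ℝ × ℝ) (X : ℝ) (la mu : ℕ → ℝ) :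
    Prop where
  pos : 0 < X
  dep : X ≤ y.2
  win : X ≤ y.1
  top : y.1 + y.2 + 2 * X ≤ 1
  law : ∀ l < n, Law (L l)
  low : ∀ l < n, ∀ a w : ℝ, 0 ≤ w → w ≤ a → a ≤ 1 → a ≤ L l a w
  aff : ∀ l < n, Affn (Nw (L l)) ε y X (la l) (mu l)
  la0 : ∀ l < n, 0 ≤ la l
  laT : ∀ l < n, la l ≤ T
  mu0 : ∀ l < n, 0 ≤ mu l
  muT : ∀ l < n, mu l ≤ T
  lt : ∀ l < n, L l (y.1 + y.2) y.1 + 4 * X ≤ 1

/-- The mesh of the grid. -/
noncomputable def msh (X : ℝ) (N M : ℕ) : ℝ := X / (N * (M + 4))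

/-- The slopes in the radius. -/
noncomputable def lamS (n : ℕ) (mu : ℕ → ℝ) (l : ℕ) : ℝ :=
  if 1 ≤ l ∧ l ≤ n then max 1 (mu (l - 1)) else 1

/-- The slopes in the window. -/
noncomputable def gamS (n : ℕ) (la mu : ℕ → ℝ) (l : ℕ) : ℝ :=
  if 1 ≤ l ∧ l ≤ n then max 0 (la (l - 1) - mu (l - 1)) else 0

theorem lamS_ge (n : ℕ) (mu : ℕ → ℝ) (l : ℕ) : 1 ≤ lamS n mu l := by
  unfold lamS
  split_ifs
  · exact le_max_left _ _
  · exact le_rfl

theorem gamS_ge (n : ℕ) (la mu : ℕ → ℝ) (l : ℕ) : 0 ≤ gamS n la mu l := by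
  unfold gamS
  split_ifs
  · exact le_max_left _ _
  · exact le_rfl

theorem msh_pos {X : ℝ} {N M : ℕ} (hX : 0 < X) (hN : 1 ≤ N) : 0 < msh X N M := by
  have : (0 : ℝ) < N := by exact_mod_cast hN
  unfold msh
  positivity

theorem msh_mul {X : ℝ} {N M : ℕ} (hN : 1 ≤ N) : N * ((M + 4) * msh X N M) = X := by
  have : (0 : ℝ) < N := by exact_mod_cast hN
  unfold msh
  field_simp

namespace CellL

variable {n N M : ℕ} {L : ℕ → ℝ → ℝ → ℝ} {ε T : ℝ} {y : ℝ × ℝ} {X : ℝ} {la mu : ℕ → ℝ}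

theorem lamS_le (h : CellL n L ε T y X la mu) (hn : 1 ≤ n) (l : ℕ) : lamS n mu l ≤ T + 1 := by
  have hT : 0 ≤ T := (h.mu0 0 hn).trans (h.muT 0 hn)
  unfold lamS
  split_ifs with hl
  · exact max_le (by linarith only [hT]) (by linarith only [h, hl, h.muT (l - 1) (by omega)])
  · linarith

theorem gamS_le (h : CellL n L ε T y X la mu) (hn : 1 ≤ n) (l : ℕ) : gamS n la mu l ≤ T + 1 := by
  have hT : 0 ≤ T := (h.mu0 0 hn).trans (h.muT 0 hn)
  unfold gamS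
  split_ifs with hl
  · exact max_le (by linarith only [hT]) (by linarith only [h, hl, h.laT (l - 1) (by omega), h.mu0 (l - 1) (by omega)])
  · linarith only [hT]

/-- The values on the cell. -/
theorem val (h : CellL n L ε T y X la mu) {l : ℕ} (hl : l < n) {a w : ℝ} (hw : |w - y.1| ≤ X)
    (hq : |(a - w) - y.2| ≤ X) :
    |L l a w - L l (y.1 + y.2) y.1 - (la l * (w - y.1) + mu l * ((a - w) - y.2))| ≤ ε * X := by
  have h1 := h.aff l hl (w, a - w) (by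
    rw [Prod.dist_eq, Real.dist_eq, Real.dist_eq]
    exact max_le hw hq)
  unfold Nw at h1
  simp only [add_sub_cancel] at h1
  exact h1

/-- The slopes of a cell. -/
theorem slo (h : CellL n L ε T y X la mu) (hN : 1 ≤ N) (hNT : 4 * (T + 2) ≤ N) (hε : ε ≤ 1 / 4)
    {l : ℕ} (hl : l < n) :
    1 - 2 * (ε * N) ≤ mu l ∧ -(2 * (ε * N)) ≤ la l - mu l := by
  have hX := h.pos
  have hN0 : (0 : ℝ) < N := by exact_mod_cast hN
  have hN1 : (1 : ℝ) ≤ N := by exact_mod_cast hN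
  obtain ⟨X', hX'⟩ : ∃ X', X' = X / N := ⟨_, rfl⟩
  have hX'0 : 0 < X' := by rw [hX']; positivity
  have hX'X : X' ≤ X := by rw [hX']; exact div_le_self hX.le hN1
  have e1 : ε * N * X' = ε * X := by rw [hX']; field_simp
  have hdep := h.dep
  have hwin := h.win
  have htop := h.top
  have hT : 0 ≤ T := (h.mu0 l hl).trans (h.muT l hl)
  have hTX : (T + 2) * X' ≤ X / 4 := by
    rw [hX', mul_div_assoc', div_le_iff₀ hN0]
    nlinarith only [hNT, hX]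
  have hpt : ∀ w' q' : ℝ, |w' - y.1| ≤ X' → |q' - y.2| ≤ X' →
      |L l (w' + q') w' - (L l (y.1 + y.2) y.1 + la l * (w' - y.1) + mu l * (q' - y.2))| ≤
        ε * X := by
    intro w' q' hw' hq'
    have h1 := h.val hl (a := w' + q') (w := w') (hw'.trans hX'X) (by
      rw [add_sub_cancel_left]; exact hq'.trans hX'X)
    rw [add_sub_cancel_left] at h1
    have e2 : L l (w' + q') w' - (L l (y.1 + y.2) y.1 + la l * (w' - y.1) + mu l * (q' - y.2)) =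
      L l (w' + q') w' - L l (y.1 + y.2) y.1 - (la l * (w' - y.1) + mu l * (q' - y.2)) := by ring
    rw [e2]
    exact h1
  have hlt : ∀ w' q' : ℝ, |w' - y.1| ≤ X' → |q' - y.2| ≤ X' → L l (w' + q') w' < 1 := by
    intro w' q' hw' hq'
    have h1 := (abs_le.1 (hpt w' q' hw' hq')).2
    have h2 := h.lt l hl
    have h3 : la l * (w' - y.1) ≤ T * X' :=
      (mul_le_mul_of_nonneg_left ((le_abs_self _).trans hw') (h.la0 l hl)).trans
        (mul_le_mul_of_nonneg_right (h.laT l hl) hX'0.le)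
    have h4 : mu l * (q' - y.2) ≤ T * X' :=
      (mul_le_mul_of_nonneg_left ((le_abs_self _).trans hq') (h.mu0 l hl)).trans
        (mul_le_mul_of_nonneg_right (h.muT l hl) hX'0.le)
    nlinarith only [hX, hX'0, hTX, h1, h2, h3, h4, hε]
  exact by
   have key := slopes_of (R := fun w q => L l (w + q) w) (w := y.1) (q := y.2) (X := X')
     (ε := ε * N) (R₀ := L l (y.1 + y.2) y.1) (la := la l) (mu := mu l) hX'0
     (fun w' q' hw' hq' => by rw [e1]; exact hpt w' q' hw' hq')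
     (fun w' q' v hw' hq' hv hqv => by
       show L l (w' + q') w' + v ≤ L l (w' + (q' + v)) w'
       have hw2 := abs_le.1 hw'
       have hq2 := abs_le.1 hq'
       have hqv2 := abs_le.1 hqv
       have h1 := (h.law l hl).slope (w' + q') w' v (by linarith only [hX'X, hwin, hw2]) (by linarith only [hX'X, hdep, hq2]) hv (by linarith only [hX'X, htop, hw2, hqv2])
       have h2 := hlt w' (q' + v) hw' hqv
       have e3 : w' + q' + v = w' + (q' + v) := by ring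
       rw [e3] at h1
       rcases min_le_iff.1 h1 with h3 | h3
       · linarith only [h2, h3]
       · exact h3)
     (fun w' q' v hw' hq' hv hwv hqv => by
       show L l (w' + q') w' ≤ L l (w' + v + (q' - v)) (w' + v)
       have hw2 := abs_le.1 hw'
       have hq2 := abs_le.1 hq'
       have hwv2 := abs_le.1 hwv
       have hqv2 := abs_le.1 hqv
       have e3 : w' + v + (q' - v) = w' + q' := by ring
       rw [e3]
       exact (h.law l hl).mono_w (w' + q') w' (w' + v) (by linarith only [hX'X, hwin, hw2]) (by linarith only [hv]) (by linarith only [hX'X, hdep, hqv2])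
         (by linarith only [hX'X, htop, hw2, hq2]))
   exact key

/-- **The values on the grid**, also a little beyond: `s`, `t` are real. -/
theorem grid (h : CellL n L ε T y X la mu) (hN : 1 ≤ N) {l : ℕ} (hl : l < n) {s t : ℝ}
    (hs0 : 0 ≤ s) (hs : s ≤ M + 3) (ht0 : 0 ≤ t) (ht : t ≤ M + 3) :
    |L l (y.1 + y.2 + s * msh X N M) (y.1 + t * msh X N M) - L l (y.1 + y.2) y.1 -
      (mu l * s + (la l - mu l) * t) * msh X N M| ≤ ε * X := by
  have hX := h.pos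
  have hN1 : (1 : ℝ) ≤ N := by exact_mod_cast hN
  obtain ⟨ζ, hζ⟩ : ∃ ζ, ζ = msh X N M := ⟨_, rfl⟩
  have hζ0 : 0 < ζ := by rw [hζ]; exact msh_pos hX hN
  have e1 : N * ((M + 4) * ζ) = X := by rw [hζ]; exact msh_mul hN
  rw [← hζ]
  have hM : ((M : ℝ) + 4) * ζ ≤ X := by
    rw [← e1]
    exact le_mul_of_one_le_left (by positivity) hN1
  have k1 : s * ζ ≤ X := (mul_le_mul_of_nonneg_right (by linarith only [hs] : s ≤ M + 4) hζ0.le).trans hM
  have k2 : t * ζ ≤ X := (mul_le_mul_of_nonneg_right (by linarith only [ht] : t ≤ M + 4) hζ0.le).trans hM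
  have k3 : 0 ≤ s * ζ := by positivity
  have k4 : 0 ≤ t * ζ := by positivity
  have h1 := h.val hl (a := y.1 + y.2 + s * ζ) (w := y.1 + t * ζ)
    (by rw [add_sub_cancel_left, abs_le]; constructor <;> linarith)
    (by rw [abs_le]; constructor <;> linarith)
  have e2 : la l * (y.1 + t * ζ - y.1) + mu l * (y.1 + y.2 + s * ζ - (y.1 + t * ζ) - y.2) =
      (mu l * s + (la l - mu l) * t) * ζ := by ring
  rw [e2] at h1
  exact h1

/-- The values on the grid are away from `1`. -/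
theorem grid_lt (h : CellL n L ε T y X la mu) (hN : 1 ≤ N) (hNT : 4 * (T + 2) ≤ N)
    (hε : ε ≤ 1 / 4) {l : ℕ} (hl : l < n) {s t : ℝ}
    (hs0 : 0 ≤ s) (hs : s ≤ M + 3) (ht0 : 0 ≤ t) (ht : t ≤ M + 3) :
    L l (y.1 + y.2 + s * msh X N M) (y.1 + t * msh X N M) + 3 * X ≤ 1 := by
  have hX := h.pos
  have hN1 : (1 : ℝ) ≤ N := by exact_mod_cast hN
  have h1 := (abs_le.1 (h.grid (M := M) hN hl hs0 hs ht0 ht)).2
  obtain ⟨ζ, hζ⟩ : ∃ ζ, ζ = msh X N M := ⟨_, rfl⟩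
  have hζ0 : 0 < ζ := by rw [hζ]; exact msh_pos hX hN
  have e1 : N * ((M + 4) * ζ) = X := by rw [hζ]; exact msh_mul hN
  rw [← hζ] at h1 ⊢
  have hT : 0 ≤ T := (h.mu0 l hl).trans (h.muT l hl)
  have h2 := h.lt l hl
  have k1 : mu l * s ≤ T * (M + 4) :=
    mul_le_mul (h.muT l hl) (by linarith only [hs]) hs0 hT
  have k2 : (la l - mu l) * t ≤ T * (M + 4) := by
    refine (mul_le_mul_of_nonneg_right (by linarith only [h, hl, h.laT l hl, h.mu0 l hl] :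
      la l - mu l ≤ T) ht0).trans ?_
    exact mul_le_mul_of_nonneg_left (by linarith only [ht]) hT
  have k3 : (mu l * s + (la l - mu l) * t) * ζ ≤ 2 * (T * (M + 4)) * ζ :=
    mul_le_mul_of_nonneg_right (by linarith only [k1, k2]) hζ0.le
  have k4 : 2 * (T * (M + 4)) * ζ ≤ X / 2 := by
    rw [← e1]
    have : 4 * T * ((M + 4) * ζ) ≤ N * ((M + 4) * ζ) :=
      mul_le_mul_of_nonneg_right (by linarith only [hNT]) (by positivity)
    linarith only [this]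
  have k5 : ε * X ≤ 1 / 4 * X := mul_le_mul_of_nonneg_right hε hX.le
  linarith only [hX, h1, h2, k3, k4, k5]

/-- **The numbers of the grid.** -/
theorem num (h : CellL n L ε T y X la mu) (hn : 1 ≤ n) (hN : 1 ≤ N) (hNT : 4 * (T + 2) ≤ N)
    (hε0 : 0 ≤ ε) (hε : ε * (64 * (N * (M + 4))) ≤ 1) {b : ℕ → ℕ → ℕ → ℝ} {sh : ℕ → ℕ} {C₁ : ℝ}
    (hC₁ : 1 ≤ C₁) (hb : ∀ i ≤ M, ∀ j ≤ M, ∀ l < n,
      |b i j l - L l (y.1 + y.2 + i * msh X N M) (y.1 + j * msh X N M)| ≤ msh X N M / 16)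
    (hb0 : ∀ i ≤ M, ∀ j ≤ M, ∀ l < n, 0 ≤ b i j l) :
    ∃ J₁ : ℕ, ∀ J ≥ J₁, CDat2.Num2 n J (up (y.1 + y.2) J) (up y.1 J) (up (msh X N M) J) M
      (lamS n mu) (gamS n la mu) (fun i j l => ⌊b i j (l - 1) * J⌋₊ - sh l) C₁ := by
  have hX := h.pos
  have hN1 : (1 : ℝ) ≤ N := by exact_mod_cast hN
  have hM0 : (0 : ℝ) ≤ M := Nat.cast_nonneg M
  obtain ⟨ζ, hζ⟩ : ∃ ζ, ζ = msh X N M := ⟨_, rfl⟩
  have hζ0 : 0 < ζ := by rw [hζ]; exact msh_pos hX hN
  have e1 : N * ((M + 4) * ζ) = X := by rw [hζ]; exact msh_mul hN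
  have hT : 0 ≤ T := (h.mu0 0 hn).trans (h.muT 0 hn)
  have hM : ((M : ℝ) + 4) * ζ ≤ X := by
    rw [← e1]
    exact le_mul_of_one_le_left (by positivity) hN1
  have hε4 : ε ≤ 1 / 4 := by
    have h64 : (64 : ℝ) * 4 ≤ 64 * (N * (M + 4)) := by nlinarith only [hNT, hT]
    nlinarith only [hε, hε0, h64]
  have hεX : ε * X ≤ ζ / 64 := by
    have h1 : ε * (64 * (N * (M + 4))) * ζ ≤ 1 * ζ := mul_le_mul_of_nonneg_right hε hζ0.le
    have h2 : ε * (64 * (N * (M + 4))) * ζ = 64 * (ε * (N * ((M + 4) * ζ))) := by ring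
    rw [h2, e1] at h1
    linarith only [h1]
  have hdep := h.dep
  have hwin := h.win
  have htop := h.top
  obtain ⟨J₁, hJ₁⟩ := exists_nat_ge ((16 * ((∑ l ∈ range (n + 1), (sh l : ℝ)) + 1) +
    (4 * (T + 1) + 4) * (M + 1)) / ζ)
  refine ⟨J₁, fun J hJ => ?_⟩
  have hJ' : (J₁ : ℝ) ≤ J := by exact_mod_cast hJ
  have hJ2 := hJ₁.trans hJ'
  rw [div_le_iff₀ hζ0] at hJ2
  have hJ0 : (0 : ℝ) ≤ J := Nat.cast_nonneg J
  have hsh : ∀ l ≤ n, (sh l : ℝ) ≤ ∑ l ∈ range (n + 1), (sh l : ℝ) := fun l hl =>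
    Finset.single_le_sum (f := fun l => (sh l : ℝ)) (fun _ _ => Nat.cast_nonneg _)
      (mem_range.2 (by omega))
  exact by
   have hs0 : 0 ≤ ∑ l ∈ range (n + 1), (sh l : ℝ) := Finset.sum_nonneg fun _ _ => Nat.cast_nonneg _
   have hTM : 0 ≤ (4 * (T + 1) + 4) * ((M : ℝ) + 1) := by positivity
   refine num2_of (β := fun i j l => L (l - 1) (y.1 + y.2 + i * msh X N M) (y.1 + j * msh X N M))
     (Λ := T + 1) hC₁ (by linarith only [hX, hdep, hwin]) (by linarith only [hX, hwin]) (msh_pos hX hN) ?_ ?_ (lamS_ge n mu)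
     (gamS_ge n la mu) (h.lamS_le hn) (h.gamS_le hn) ?_ ?_ ?_ ?_ ?_
   · rw [← hζ]
     nlinarith only [hζ0, hM, hdep]
   · rw [← hζ]
     nlinarith only [hX, hζ0, hM, htop]
   · intro i hi j hj l h1 h2
     rw [← hζ]
     have hl : l - 1 < n := by omega
     have hi' : (i : ℝ) ≤ M := by exact_mod_cast hi
     have hj' : (j : ℝ) ≤ M := by exact_mod_cast hj
     have hi0 : (0 : ℝ) ≤ i := Nat.cast_nonneg i
     have hj0 : (0 : ℝ) ≤ j := Nat.cast_nonneg j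
     have a1 := abs_le.1 (h.grid (N := N) (M := M) hN hl hi0 (by linarith only [hX, hdep, hwin, htop, hi']) hj0 (by linarith only [hX, hdep, hwin, htop, hj']))
     obtain ⟨s1, s2⟩ := h.slo hN hNT hε4 hl
     rw [← hζ] at a1
     simp only [Nat.cast_zero, zero_mul, add_zero]
     have el : lamS n mu l = max 1 (mu (l - 1)) := if_pos ⟨h1, h2⟩
     have eg : gamS n la mu l = max 0 (la (l - 1) - mu (l - 1)) := if_pos ⟨h1, h2⟩
     rw [el, eg]
     have m1 : mu (l - 1) ≤ max 1 (mu (l - 1)) := le_max_right _ _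
     have m2 : max 1 (mu (l - 1)) ≤ mu (l - 1) + 2 * (ε * N) := max_le (by linarith only [s1]) (by
       have : 0 ≤ ε * N := by positivity
       linarith only [this])
     have m3 : la (l - 1) - mu (l - 1) ≤ max 0 (la (l - 1) - mu (l - 1)) := le_max_right _ _
     have m4 : max 0 (la (l - 1) - mu (l - 1)) ≤ la (l - 1) - mu (l - 1) + 2 * (ε * N) :=
       max_le (by linarith only [s2]) (by
         have : 0 ≤ ε * N := by positivity
         linarith only [m1, m2])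
     have i0 : 0 ≤ (i : ℝ) * ζ := by positivity
     have j0 : 0 ≤ (j : ℝ) * ζ := by positivity
     have n1 := mul_le_mul_of_nonneg_right m1 i0
     have n2 := mul_le_mul_of_nonneg_right m2 i0
     have n3 := mul_le_mul_of_nonneg_right m3 j0
     have n4 := mul_le_mul_of_nonneg_right m4 j0
     have o1 : ε * N * (i * ζ) ≤ ε * X := by
       rw [← e1]
       have : N * ((i : ℝ) * ζ) ≤ N * ((M + 4) * ζ) :=
         mul_le_mul_of_nonneg_left (mul_le_mul_of_nonneg_right (by linarith only [hX, hdep, hwin, htop, hi']) hζ0.le) (by linarith only [hNT, hX, hT, hdep, hwin, htop])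
       nlinarith only [hε0, this]
     have o2 : ε * N * (j * ζ) ≤ ε * X := by
       rw [← e1]
       have : N * ((j : ℝ) * ζ) ≤ N * ((M + 4) * ζ) :=
         mul_le_mul_of_nonneg_left (mul_le_mul_of_nonneg_right (by linarith only [hX, hdep, hwin, htop, hj']) hζ0.le) (by linarith only [hNT, hX, hT, hdep, hwin, htop])
       nlinarith only [hε0, this]
     rw [abs_le]
     constructor <;> linarith [a1.1, a1.2]
   · intro i hi j hj l h1 h2
     rw [← hζ]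
     have hi' : (i : ℝ) ≤ M := by exact_mod_cast hi
     have hj' : (j : ℝ) ≤ M := by exact_mod_cast hj
     have hi0 : (0 : ℝ) ≤ i := Nat.cast_nonneg i
     have hj0 : (0 : ℝ) ≤ j := Nat.cast_nonneg j
     have i0 : 0 ≤ (i : ℝ) * ζ := by positivity
     have j0 : 0 ≤ (j : ℝ) * ζ := by positivity
     have i1 : (i : ℝ) * ζ ≤ M * ζ := mul_le_mul_of_nonneg_right hi' hζ0.le
     have j1 : (j : ℝ) * ζ ≤ M * ζ := mul_le_mul_of_nonneg_right hj' hζ0.le
     have := h.low (l - 1) (by omega) (y.1 + y.2 + i * ζ) (y.1 + j * ζ) (by linarith only [hζ0, hM, hwin, i0, j0, i1]) (by linarith only [hζ0, hM, hdep, i0, j1])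
       (by linarith only [hζ0, hM, htop, i0, i1])
     linarith only [hζ0, this]
   · intro i hi j hj l h1 h2
     have hi' : (i : ℝ) ≤ M := by exact_mod_cast hi
     have hj' : (j : ℝ) ≤ M := by exact_mod_cast hj
     have := h.grid_lt (N := N) (M := M) hN hNT hε4 (l := l - 1) (by omega)
       (Nat.cast_nonneg (α := ℝ) i) (by linarith only [hX, hdep, hwin, htop, hi']) (Nat.cast_nonneg (α := ℝ) j) (by linarith only [hX, hdep, hwin, htop, hj'])
     rw [← hζ] at this ⊢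
     linarith only [hX, hζ0, hM, this]
   · intro i hi j hj l h1 h2
     have h3 := hb i hi j hj (l - 1) (by omega)
     have h5 := hb0 i hi j hj (l - 1) (by omega)
     rw [← hζ] at h3 ⊢
     have h4 := abs_le.1 h3
     have f1 := Nat.floor_le (mul_nonneg h5 hJ0)
     have f2 := Nat.lt_floor_add_one (b i j (l - 1) * J)
     have f3 : (⌊b i j (l - 1) * J⌋₊ : ℝ) ≤ ((⌊b i j (l - 1) * J⌋₊ - sh l : ℕ) : ℝ) + sh l := by
       exact_mod_cast (by omega : ⌊b i j (l - 1) * J⌋₊ ≤ (⌊b i j (l - 1) * J⌋₊ - sh l) + sh l)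
     have f4 : ((⌊b i j (l - 1) * J⌋₊ - sh l : ℕ) : ℝ) ≤ (⌊b i j (l - 1) * J⌋₊ : ℝ) := by
       exact_mod_cast Nat.sub_le _ _
     have f5 := hsh l h2
     have f6 := mul_le_mul_of_nonneg_right h4.1 hJ0
     have f7 := mul_le_mul_of_nonneg_right h4.2 hJ0
     rw [abs_le]
     constructor <;> linarith
   · rw [← hζ]
     linarith only [hX, hdep, hwin, htop, hJ2, hs0]

/-- The numbers of a chain which contains a new label of the target: radius `a₀`, window `w₀`,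
precisions `g`; `a`, `w` are real numbers, `L` are the levels. -/
def CdX (L : ℕ → ℝ → ℝ → ℝ) (l : ℕ) (a w : ℚ) (h δ : ℝ) (J a₀ w₀ : ℕ) (g : ℕ → ℕ) : Prop :=
  1 ≤ J ∧ w₀ ≤ a₀ ∧ a₀ ≤ ⌊(a : ℝ) * J⌋₊ ∧ w₀ ≤ ⌊(w : ℝ) * J⌋₊ ∧ (∀ k ≤ l, g k ≤ J) ∧
    (∀ k < l, (g k : ℝ) ≤ max 0 ((L k (a₀ / J) (w₀ / J) - δ) * J)) ∧
    ⌊(L l a w + h) * J⌋₊ + a₀ ≤ g l + ⌊(a : ℝ) * J⌋₊

/-- The numbers of a new label of the target. -/
theorem cdev {l : ℕ} (h : CellL (l + 1) L ε T y X la mu) (hN : 1 ≤ N) (hNT : 4 * (T + 2) ≤ N)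
    (hε0 : 0 ≤ ε) (hε : ε * (64 * (N * (M + 4))) ≤ 1)
    {G : RG m} {A : ℕ} {δ : ℝ}
    (hGM : G.M = M) (hGα : G.α = y.1 + y.2) (hGϖ : G.ϖ = y.1)
    (hGζ : G.ζ = msh X N M) (hA : 1 ≤ A) (hAN : A ≤ N) (hδ : 0 ≤ δ)
    (hb : ∀ i ≤ M, ∀ j ≤ M,
      |G.b i j l - L l (y.1 + y.2 + i * msh X N M) (y.1 + j * msh X N M)| ≤ msh X N M / 16)
    (hbk : ∀ i ≤ M, ∀ j ≤ M, ∀ k < l,
      G.b i j k ≤ L k (y.1 + y.2 + i * msh X N M) (y.1 + j * msh X N M) - δ)
    (hb0 : ∀ i ≤ M, ∀ j ≤ M, ∀ k ≤ l, 0 ≤ G.b i j k) {i j : ℕ} (hi : i ≤ M) (hj : j ≤ M) :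
    ∃ (a w : ℚ) (h : ℝ), 0 < h ∧ 0 ≤ w ∧ w ≤ a ∧ a ≤ 1 ∧ L l a w + h ≤ 1 ∧
      ∃ J₁ : ℕ, ∀ J ≥ J₁, CdX L l a w h δ J (up G.α J + i * up G.ζ J) (up G.ϖ J + j * up G.ζ J)
        (Pool.LBK.gv (fun i j l => G.gn J i j (l - 1) - G.sh l) i j l
          (G.gn J i j l - G.sh (l + 1) + A * up G.ζ J)) := by
  have hX := h.pos
  have hN1 : (1 : ℝ) ≤ N := by exact_mod_cast hN
  have hM0 : (0 : ℝ) ≤ M := Nat.cast_nonneg M
  obtain ⟨ζ, hζ⟩ : ∃ ζ, ζ = msh X N M := ⟨_, rfl⟩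
  have hζ0 : 0 < ζ := by rw [hζ]; exact msh_pos hX hN
  have e1 : N * ((M + 4) * ζ) = X := by rw [hζ]; exact msh_mul hN
  have hl : l < l + 1 := Nat.lt_succ_self l
  have hT : 0 ≤ T := (h.mu0 l hl).trans (h.muT l hl)
  have hM : ((M : ℝ) + 4) * ζ ≤ X := by
    rw [← e1]
    exact le_mul_of_one_le_left (by positivity) hN1
  have hε4 : ε ≤ 1 / 4 := by
    have h64 : (64 : ℝ) * 4 ≤ 64 * (N * (M + 4)) := by nlinarith only [hNT, hT]
    nlinarith only [hε, hε0, h64]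
  have hεX : ε * X ≤ ζ / 64 := by
    have h1 : ε * (64 * (N * (M + 4))) * ζ ≤ 1 * ζ := mul_le_mul_of_nonneg_right hε hζ0.le
    have h2 : ε * (64 * (N * (M + 4))) * ζ = 64 * (ε * (N * ((M + 4) * ζ))) := by ring
    rw [h2, e1] at h1
    linarith only [h1]
  have hdep := h.dep
  have hwin := h.win
  have htop := h.top
  have hi' : (i : ℝ) ≤ M := by exact_mod_cast hi
  have hj' : (j : ℝ) ≤ M := by exact_mod_cast hj
  have hi0 : (0 : ℝ) ≤ i := Nat.cast_nonneg i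
  have hj0 : (0 : ℝ) ≤ j := Nat.cast_nonneg j
  -- a rational point
  obtain ⟨v, hv⟩ : ∃ v, v = ζ / (16 * (T + 1)) := ⟨_, rfl⟩
  exact by
   have hv0 : 0 < v := by rw [hv]; positivity
   have hv1 : (T + 1) * v = ζ / 16 := by rw [hv]; field_simp
   have hvζ : v ≤ ζ := by nlinarith only [hv0, hv1, hT]
   obtain ⟨w, hw1, hw2⟩ := exists_rat_btwn (show y.1 + j * ζ < y.1 + j * ζ + v by linarith only [hv0])
   obtain ⟨a, ha1, ha2⟩ := exists_rat_btwn (show y.1 + y.2 + i * ζ < y.1 + y.2 + i * ζ + v by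
     linarith only [hw1, hw2])
   obtain ⟨s, hs⟩ : ∃ s, s = ((a : ℝ) - (y.1 + y.2)) / ζ := ⟨_, rfl⟩
   obtain ⟨t, ht⟩ : ∃ t, t = ((w : ℝ) - y.1) / ζ := ⟨_, rfl⟩
   have hsζ : s * ζ = a - (y.1 + y.2) := by rw [hs]; field_simp
   have htζ : t * ζ = w - y.1 := by rw [ht]; field_simp
   have hs1 : (i : ℝ) ≤ s := by
     rw [hs, le_div_iff₀ hζ0]
     linarith only [ha1]
   have hs2 : s ≤ M + 1 := by
     rw [hs, div_le_iff₀ hζ0]
     have := mul_le_mul_of_nonneg_right hi' hζ0.le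
     linarith only [hvζ, ha2, this]
   have ht1 : (j : ℝ) ≤ t := by
     rw [ht, le_div_iff₀ hζ0]
     linarith only [hw1]
   have ht2 : t ≤ M + 1 := by
     rw [ht, div_le_iff₀ hζ0]
     have := mul_le_mul_of_nonneg_right hj' hζ0.le
     linarith only [hvζ, hw2, this]
   have g1 := (abs_le.1 (h.grid (N := N) (M := M) hN hl (hi0.trans hs1) (by linarith only [hX, hdep, hwin, htop, hs2])
     (hj0.trans ht1) (by linarith only [hX, hdep, hwin, htop, ht2]))).2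
   have g2 := (abs_le.1 (h.grid (N := N) (M := M) hN hl hi0 (by linarith only [hX, hdep, hwin, htop, hi']) hj0 (by linarith only [hX, hdep, hwin, htop, hj']))).1
   have g3 := h.grid_lt (N := N) (M := M) hN hNT hε4 hl hi0 (by linarith only [hX, hdep, hwin, htop, hi'] : (i : ℝ) ≤ M + 3) hj0
     (by linarith only [hX, hdep, hwin, htop, hj'] : (j : ℝ) ≤ M + 3)
   have g4 := h.grid_lt (N := N) (M := M) hN hNT hε4 hl (hi0.trans hs1)
     (by linarith only [hX, hdep, hwin, htop, hs2] : s ≤ M + 3) (hj0.trans ht1) (by linarith only [hX, hdep, hwin, htop, ht2] : t ≤ M + 3)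
   exact by
    rw [← hζ] at g1 g2 g3 g4
    rw [hsζ, htζ] at g1 g4
    have r1 : y.1 + y.2 + (a - (y.1 + y.2)) = (a : ℝ) := by ring
    have r2 : y.1 + (w - y.1) = (w : ℝ) := by ring
    rw [r1, r2] at g1 g4
    -- the level at the rational point
    have g5 : L l a w ≤ L l (y.1 + y.2 + i * ζ) (y.1 + j * ζ) + ζ / 32 + ζ / 8 := by
      have q1 : (mu l * s + (la l - mu l) * t) * ζ - (mu l * i + (la l - mu l) * j) * ζ =
          mu l * (s * ζ - i * ζ) + (la l - mu l) * (t * ζ - j * ζ) := by ring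
      have q2 : mu l * (s * ζ - i * ζ) ≤ (T + 1) * v := by
        rw [hsζ]
        exact mul_le_mul (by linarith only [hX, hdep, hwin, htop, h, hl, h.muT l hl]) (by linarith only [ha2]) (by linarith only [ha1]) (by linarith only [hX, hT, hdep, hwin, htop])
      have q3 : (la l - mu l) * (t * ζ - j * ζ) ≤ (T + 1) * v := by
        rw [htζ]
        exact mul_le_mul (by linarith only [hX, hdep, hwin, htop, h, hl, h.laT l hl, h.mu0 l hl]) (by linarith only [hw2]) (by linarith only [hw1])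
          (by linarith only [hX, hT, hdep, hwin, htop])
      linarith only [hεX, hv1, g1, g2, q2, q3]
    have hbij := abs_le.1 (hb i hi j hj)
    rw [← hζ] at hbij
    have hA1 : (1 : ℝ) ≤ A := by exact_mod_cast hA
    have hAζ : (A : ℝ) * ζ ≤ X := by
      have q1 : (A : ℝ) ≤ N := by exact_mod_cast hAN
      rw [← e1]
      refine mul_le_mul q1 ?_ hζ0.le (by linarith only [hNT, hX, hT, hdep, hwin, htop])
      nlinarith only [hvζ, hw1, hw2, hζ0]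
    have hwζ : (j : ℝ) * ζ ≤ M * ζ := mul_le_mul_of_nonneg_right hj' hζ0.le
    have haζ : (i : ℝ) * ζ ≤ M * ζ := mul_le_mul_of_nonneg_right hi' hζ0.le
    have iζ0 : 0 ≤ (i : ℝ) * ζ := by positivity
    have jζ0 : 0 ≤ (j : ℝ) * ζ := by positivity
    have hwa : (w : ℝ) ≤ a := by linarith only [hM, hdep, hvζ, hw1, hw2, ha1, hwζ, iζ0]
    have hw0 : (0 : ℝ) ≤ w := by linarith only [hwin, hX, jζ0, hw1]
    exact by
     have ha1' : (a : ℝ) ≤ 1 := by linarith only [hM, htop, hvζ, hw1, hw2, ha2, haζ, iζ0]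
     refine ⟨a, w, ζ / 8, by linarith only [hζ0], by exact_mod_cast hw0, by exact_mod_cast hwa,
       by exact_mod_cast ha1', by linarith only [hM, hvζ, hw1, hw2, g4, haζ, iζ0], ?_⟩
     refine cd_ev (L := L) (A := A) (by omega) (by omega)
       (by rw [hGϖ]; linarith only [hM, hwin, hvζ, hw1, hw2, haζ, iζ0]) (by rw [hGζ, ← hζ]; exact hζ0) ?_ ?_ ?_ ?_
       (by exact_mod_cast ha1') (by linarith only [hvζ, hw1, hw2]) ?_ (hb0 i hi j hj) ?_ ?_ ?_
     · rw [hGϖ, hGM, hGζ, hGα, ← hζ]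
       nlinarith only [hM, hdep, hvζ, hw1, hw2]
     · rw [hGM, hGζ, hGα, ← hζ]
       nlinarith only [hM, htop, hvζ, hw1, hw2, haζ, iζ0]
     · rw [hGϖ, hGζ, ← hζ]
       exact hw1
     · rw [hGα, hGζ, ← hζ]
       exact ha1
     · intro k hk x z hx hz hzx hx1
       rw [hGα, hGζ, ← hζ] at hx
       rw [hGϖ, hGζ, ← hζ] at hz
       have q1 := hbk i hi j hj k hk
       rw [← hζ] at q1
       have q2 := (h.law k (by omega)).mono (a := y.1 + y.2 + i * ζ) (a' := x) (w := y.1 + j * ζ)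
         (w' := z) (by linarith only [hM, hwin, hvζ, hw1, hw2, haζ, iζ0, jζ0]) (by linarith only [hM, hdep, hvζ, hw1, hw2, hwζ, iζ0]) hx hz hzx hx1
       linarith only [q1, q2]
     · intro k hk
       have q1 := hbk i hi j hj k hk
       have q2 := h.grid_lt (N := N) (M := M) hN hNT hε4 (l := k) (by omega) hi0
         (by linarith only [hM, hdep, hwin, htop, hi', hvζ, hw1, hw2, haζ, iζ0] : (i : ℝ) ≤ M + 3) hj0 (by linarith only [hM, hdep, hwin, htop, hj', hvζ, hw1, hw2, haζ, iζ0] : (j : ℝ) ≤ M + 3)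
       linarith only [hδ, hM, hvζ, hw1, hw2, haζ, iζ0, q1, q2]
     · rw [hGζ, ← hζ]
       have q1 : ζ ≤ A * ζ := by nlinarith only [hζ0, hA1]
       linarith only [hvζ, hw1, hw2, g5, hbij, q1, hbij.1]
     · rw [hGζ, ← hζ]
       linarith only [hM, hvζ, hw1, hw2, g3, hbij, hAζ, haζ, iζ0, hbij.2]

/-- **No new label** of the target, labels with a property: no chains with the property `XN` above
the levels. -/
theorem nonewX {l : ℕ} (h : CellL (l + 1) L ε T y X la mu) (hN : 1 ≤ N) (hNT : 4 * (T + 2) ≤ N)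
    (hε0 : 0 ≤ ε) (hε : ε * (64 * (N * (M + 4))) ≤ 1) {S : PCl m}
    (hpos : ∀ (τ : ℝ) (J : ℕ) (F : Fam m J) (A : F.Ω → Prop), S.St τ J F A → 0 < Pe F.p A)
    {G : RG m} {R : (J : ℕ) → Fam m J → ℕ → ℕ → Type}
    (ρ : (J : ℕ) → (F : Fam m J) → (i j : ℕ) → LnT F → R J F i j) {A K'' : ℕ} {δ η' : ℝ}
    (hGn : G.n = l + 1) (hGM : G.M = M) (hGα : G.α = y.1 + y.2) (hGϖ : G.ϖ = y.1)
    (hGζ : G.ζ = msh X N M) (hK' : 1 ≤ G.K') (hA : 1 ≤ A) (hAN : A ≤ N) (hδ : 0 < δ)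
    (hη : 0 < η')
    (hb : ∀ i ≤ M, ∀ j ≤ M,
      |G.b i j l - L l (y.1 + y.2 + i * msh X N M) (y.1 + j * msh X N M)| ≤ msh X N M / 16)
    (hbk : ∀ i ≤ M, ∀ j ≤ M, ∀ k < l,
      G.b i j k ≤ L k (y.1 + y.2 + i * msh X N M) (y.1 + j * msh X N M) - δ)
    (hb0 : ∀ i ≤ M, ∀ j ≤ M, ∀ k ≤ l, 0 ≤ G.b i j k) {XN : ChX m}
    (hno : ∀ (K : ℕ) (a w : ℚ) (h δ : ℝ), 0 ≤ w → w ≤ a → a ≤ 1 → 0 < h → 0 < δ →
      L l a w + h ≤ 1 → Bas S fun J F A => ∀ (a₀ w₀ e₀ : ℕ) (g : ℕ → ℕ)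
        (Gc : PtT F → ℕ → MvPolynomial (Option (Fin m)) ℝ)
        (Hc : LnT F → ℕ → MvPolynomial (Option (Fin m)) ℝ), CdX L l a w h δ J a₀ w₀ g →
        ChOK F G.c (l + 1) (fun _ => K) a₀ w₀ e₀ g A Gc Hc → ¬ XN J F a₀ w₀ g A Gc Hc)
    (hlink : ∀ i ≤ M, ∀ j ≤ M, Bas S fun J F B => ∀ D : GDat F, G.Ok F D B →
      ∀ (E : F.Ω → Prop) (Gn : Pt2 F → PN) (Hn : Ln2 F × ℕ → PN), Sub E B →
      η' * Pe F.p B ≤ Pe F.p E →
      NewOn (D.cd G.n (ρ J F)) (cx F fun i => G.c (i - 1))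
        (fun i j l => G.gn J i j (l - 1) - G.sh l) (up G.α J) (up G.ϖ J) (up G.ζ J) i j l
        (G.gn J i j l - G.sh (l + 1) + A * up G.ζ J) K'' Gn Hn E →
      XN J F (up G.α J + i * up G.ζ J) (up G.ϖ J + j * up G.ζ J)
        (Pool.LBK.gv (fun i j l => G.gn J i j (l - 1) - G.sh l) i j l
          (G.gn J i j l - G.sh (l + 1) + A * up G.ζ J)) E
        (Pool.LBK.Gv (D.cd G.n (ρ J F)) G.c i j l Gn)
        (Pool.LBK.Hv (D.cd G.n (ρ J F)) G.c (up G.ϖ J) (up G.ϖ J + j * up G.ζ J) i j l Hn)) :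
    Fld S G fun J F D q => ∀ i ≤ G.M, ∀ j ≤ G.M, ¬ (G.nd D (ρ J F)).NewLab2 J (up G.α J)
      (up G.ϖ J) (up G.ζ J) i j G.n A K'' η' q := by
  have hX := h.pos
  have hN1 : (1 : ℝ) ≤ N := by exact_mod_cast hN
  have hM0 : (0 : ℝ) ≤ M := Nat.cast_nonneg M
  obtain ⟨ζ, hζ⟩ : ∃ ζ, ζ = msh X N M := ⟨_, rfl⟩
  have hζ0 : 0 < ζ := by rw [hζ]; exact msh_pos hX hN
  have e1 : N * ((M + 4) * ζ) = X := by rw [hζ]; exact msh_mul hN
  have hM : ((M : ℝ) + 4) * ζ ≤ X := by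
    rw [← e1]
    exact le_mul_of_one_le_left (by positivity) hN1
  refine no_new_all ρ fun i hi j hj => ?_
  rw [hGM] at hi hj
  obtain ⟨a, w, h', hh', hw0, hwa, ha1, hL1, hcd⟩ := h.cdev hN hNT hε0 hε hGM hGα hGϖ hGζ hA hAN
    hδ.le hb hbk hb0 hi hj
  exact no_newX hpos ρ (K := max G.K' K'') hGn (by omega) (by omega) hK'
    (by rw [hGϖ]; exact hX.le.trans h.win) (by rw [hGζ, ← hζ]; exact hζ0)
    (by rw [hGϖ, hGM, hGζ, hGα, ← hζ]; nlinarith only [hM, hζ0, h.dep])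
    (by rw [hGM, hGζ, hGα, ← hζ]; nlinarith only [hM, hζ0, h.top, hX]) hη le_rfl
    (hno _ a w h' δ hw0 hwa ha1 hh' hδ hL1) hcd (hlink i hi j hj)

/-- No chains above the thresholds of the chains with restricted sides. -/
theorem no_of_B {S : PCl m} {β P : List (Fin m) × Fin m → ℝ → ℝ → ℝ}
    (hP : ThrOf (chsysB m none β) S P) {c : ℕ → Fin m} {l : ℕ}
    (hLP : ∀ a w : ℝ, bet P c l a w = L l a w)
    (hLβ : ∀ k < l, ∀ a w : ℝ, bet β c k a w = L k a w) (K : ℕ) (a w : ℚ) (h δ : ℝ) (hw0 : 0 ≤ w)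
    (hwa : w ≤ a) (ha1 : a ≤ 1) (hh : 0 < h) (hδ : 0 < δ) (hL1 : L l a w + h ≤ 1) :
    Bas S fun J F A => ∀ (a₀ w₀ e₀ : ℕ) (g : ℕ → ℕ)
        (Gc : PtT F → ℕ → MvPolynomial (Option (Fin m)) ℝ)
        (Hc : LnT F → ℕ → MvPolynomial (Option (Fin m)) ℝ), CdX L l a w h δ J a₀ w₀ g →
        ChOK F c (l + 1) (fun _ => K) a₀ w₀ e₀ g A Gc Hc → False := by
  have haR : (a : ℝ) ≤ 1 := by exact_mod_cast ha1
  refine Bas.mono 1 (Pool.CHB.no_B hP c l (fun _ => K) a w 0 h δ hw0 hwa ha1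
    (fun _ h => by simp at h) hh hδ (by rw [hLP]; exact hL1)) ?_
  rintro J hJ F A hn' a₀ w₀ e₀ g Gc Hc ⟨c0, c1, c2, c3, c4, c5, c6⟩ hch
  have hJ0 : (0 : ℝ) < J := by exact_mod_cast hJ
  have a₀J : a₀ ≤ J := c2.trans (Pool.LBT.fl_le' haR J)
  have f1 := Pool.CHB.floor_div a₀J
  have f2 := Pool.CHB.floor_div (c1.trans a₀J)
  have h1 := hn' ((a₀ : ℝ) / J) ((w₀ : ℝ) / J) e₀ g (by positivity)
    (div_le_div_of_nonneg_right (by exact_mod_cast c1) hJ0.le)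
    (div_le_one_of_le₀ (by exact_mod_cast a₀J) hJ0.le) (by rw [f1]; exact c2)
    (by rw [f2]; exact c3) (fun _ h => by simp at h) c4
    (fun k hk => by rw [hLβ k hk]; exact c5 k hk) (by rw [f1, hLP]; exact c6)
  rw [f1, f2] at h1
  exact h1 ⟨Gc, Hc, hch⟩

/-- **No new label** of the target, thresholds of the chains with restricted sides. -/
theorem nonew {l : ℕ} (h : CellL (l + 1) L ε T y X la mu) (hN : 1 ≤ N) (hNT : 4 * (T + 2) ≤ N)
    (hε0 : 0 ≤ ε) (hε : ε * (64 * (N * (M + 4))) ≤ 1) {S : PCl m}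
    {β P : List (Fin m) × Fin m → ℝ → ℝ → ℝ} (hP : ThrOf (chsysB m none β) S P)
    (hpos : ∀ (τ : ℝ) (J : ℕ) (F : Fam m J) (A : F.Ω → Prop), S.St τ J F A → 0 < Pe F.p A)
    {G : RG m} {R : (J : ℕ) → Fam m J → ℕ → ℕ → Type}
    (ρ : (J : ℕ) → (F : Fam m J) → (i j : ℕ) → LnT F → R J F i j) {A K'' : ℕ} {δ η' : ℝ}
    (hGn : G.n = l + 1) (hGM : G.M = M) (hGα : G.α = y.1 + y.2) (hGϖ : G.ϖ = y.1)
    (hGζ : G.ζ = msh X N M) (hK' : 1 ≤ G.K') (hA : 1 ≤ A) (hAN : A ≤ N) (hδ : 0 < δ)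
    (hη : 0 < η') (hLP : ∀ a w : ℝ, bet P G.c l a w = L l a w)
    (hLβ : ∀ k < l, ∀ a w : ℝ, bet β G.c k a w = L k a w)
    (hb : ∀ i ≤ M, ∀ j ≤ M,
      |G.b i j l - L l (y.1 + y.2 + i * msh X N M) (y.1 + j * msh X N M)| ≤ msh X N M / 16)
    (hbk : ∀ i ≤ M, ∀ j ≤ M, ∀ k < l,
      G.b i j k ≤ L k (y.1 + y.2 + i * msh X N M) (y.1 + j * msh X N M) - δ)
    (hb0 : ∀ i ≤ M, ∀ j ≤ M, ∀ k ≤ l, 0 ≤ G.b i j k) :
    Fld S G fun J F D q => ∀ i ≤ G.M, ∀ j ≤ G.M, ¬ (G.nd D (ρ J F)).NewLab2 J (up G.α J)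
      (up G.ϖ J) (up G.ζ J) i j G.n A K'' η' q :=
  h.nonewX hN hNT hε0 hε hpos ρ hGn hGM hGα hGϖ hGζ hK' hA hAN hδ hη hb hbk hb0
    (XN := fun _ _ _ _ _ _ _ _ => True)
    (fun K a w h δ h1 h2 h3 h4 h5 h6 => Bas.mono 0 (no_of_B hP hLP hLβ K a w h δ h1 h2 h3 h4 h5 h6)
      fun _ _ _ _ h7 a₀ w₀ e₀ g Gc Hc h8 h9 _ => h7 a₀ w₀ e₀ g Gc Hc h8 h9)
    fun _ _ _ _ => ⟨1, one_pos, 0, fun _ _ _ _ _ _ _ _ _ _ _ _ _ => trivial⟩

end CellL

end Pool.STAT
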