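import Pool.Agent.H78.MIC.NoP
import Pool.Agent.H78.MIC.PhiT
import Pool.Agent.H39.GEN.DichF
import Pool.Agent.H29.REC.Iso

/-!
# The boxes of the dichotomy as cells of a kit

`cellL_iso`: levels of the fattest boxes over almost affine diagonals are affine.
`BS`, `IsBS`: the box of a row of `CellD.NoBS` (helper39) as a cell. `noBS_of_evP`: the absence of
boxes from `evP_false`; `noBS_of_facts`: from the local theorem and the facts of a class.

`KitS`: a kit over these boxes, all sides are the fattest (`iso`): the levels (`KitS.cel`), the rows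
(`KitS.row`), the slopes (`KitS.gam`), the threshold of the target (`KitS.thr`). `factS`: the facts of a
class from the labels of the grid, the axioms `Ok2`, exactness and the thresholds.
-/

set_option autoImplicit false

namespace Pool.STAT

open Finset MvPolynomial
open Pool.Agent.H49.Ent Pool.Agent.H32.Dense Pool.STK Pool.KS3 Pool.KA Pool.KSAT Pool.PB Pool.GEN
open Pool.K2S Pool.S6C
open Pool.LEV (Law Lv)
open Pool.STR (Affn Nw NfB AffB CellD)
open Pool.RTS (iso Diag)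
open Pool.CHT (bet TmH)
open Pool.CHB (chsysB)
open Pool.LBT (ThrOf)
open CLO Pool.MIC6

variable {m n₀ : ℕ} {c β h M : ℝ}

/-! ### Levels -/

/-- **Levels near to `D w + κ q`**, `D` near to its tangent. -/
theorem affn_tan {L : ℝ → ℝ → ℝ} {D : ℝ → ℝ} {V S κ δ ε X g : ℝ} {y : ℝ × ℝ}
    (hX : 0 ≤ X) (hnear : ∀ z : ℝ × ℝ, dist z y ≤ X → |Nw L z - (D z.1 + κ * z.2)| ≤ δ)
    (htan : ∀ z : ℝ × ℝ, dist z y ≤ X → |D z.1 - V - S * (z.1 - g)| ≤ δ)
    (hδ : 4 * δ ≤ ε * X) : Affn (Nw L) ε y X S κ := by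
  intro z hz
  have h0 : dist y y ≤ X := by rw [dist_self]; exact hX
  have h1 := abs_le.1 (hnear z hz)
  have h2 := abs_le.1 (hnear y h0)
  have h3 := abs_le.1 (htan z hz)
  have h4 := abs_le.1 (htan y h0)
  rw [abs_le]
  constructor <;> linarith [h1.1, h1.2, h2.1, h2.2, h3.1, h3.2, h4.1, h4.2]

/-- **The levels of the fattest boxes.** -/
theorem cellL_iso {n : ℕ} {D : ℕ → ℝ → ℝ} {V la : ℕ → ℝ} {ε ε' g r : ℝ} (hc : 0 < c)
    (hr : 0 < r) (hg0 : 8 * r < g) (hg1 : 8 * r < 1 - g) (he1 : ε ≤ ε' / 4) (he2 : ε ≤ 1)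
    (hD : ∀ l < n, Diag (D l)) (haff : ∀ l < n, AffB (D l) (V l) (la l) g (8 * r) (ε * r))
    (hla0 : ∀ l < n, 0 ≤ la l) (hlac : ∀ l < n, c * la l ≤ 1)
    (hval : ∀ l < n, D l g + (2 / c + 8) * r ≤ 1) :
    CellL n (fun l => iso (D l)) ε' (1 / c + 1) (g, r) r la (fun _ => 1) := by
  have hlac' : ∀ l < n, la l ≤ 1 / c := fun l hl => by
    rw [le_div_iff₀ hc, mul_comm]
    exact hlac l hl
  have hcp : 0 < 1 / c := by positivity
  have h7 : 2 / c * r = 1 / c * r + 1 / c * r := by ring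
  have h9 : (2 / c + 8) * r = 2 / c * r + 8 * r := by ring
  have h6 : ε * r ≤ 1 * r := mul_le_mul_of_nonneg_right he2 hr.le
  have h8 : 0 ≤ 1 / c * r := by positivity
  have hbox : ∀ l < n, ∀ z : ℝ × ℝ, dist z (g, r) ≤ r →
      |z.1 - g| ≤ r ∧ 0 ≤ z.2 ∧ z.2 ≤ 2 * r ∧ D l z.1 + z.2 < 1 := by
    intro l hl z hz
    rw [Prod.dist_eq, Real.dist_eq, Real.dist_eq] at hz
    have z1 := (le_max_left _ _).trans hz
    have z2 := abs_le.1 ((le_max_right _ _).trans hz)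
    simp only at z1 z2
    refine ⟨z1, by linarith [z2.1], by linarith [z2.2], ?_⟩
    have h1 := (hD l hl).mono (w := z.1) (w' := g + r) (by linarith [abs_le.1 z1])
      (by linarith [abs_le.1 z1]) (by linarith)
    have h2 := abs_le.1 (haff l hl (g + r) (by
      rw [add_sub_cancel_left, abs_of_pos hr]; linarith))
    have h3 := abs_le.1 (haff l hl g (by rw [sub_self, abs_zero]; linarith))
    have h4 := hval l hl
    simp only [add_sub_cancel_left, sub_self, mul_zero, sub_zero] at h2 h3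
    have h5 : la l * r ≤ 1 / c * r := mul_le_mul_of_nonneg_right (hlac' l hl) hr.le
    rw [h9, h7] at h4
    linarith [h2.2, h3.1, h1, z2.2]
  refine ⟨hr, le_rfl, by show r ≤ g; linarith, by show g + r + 2 * r ≤ 1; linarith,
    fun l hl => Pool.RTS.iso_law (hD l hl), fun l hl a w h1 h2 h3 =>
    Pool.RTS.iso_low (hD l hl) h1 h2 h3, fun l hl => ?_, hla0, fun l hl => ?_,
    fun _ _ => zero_le_one, fun _ _ => ?_, fun l hl => ?_⟩
  · refine affn_tan (D := D l) (V := V l) (g := g) (δ := ε * r) hr.le (fun z hz => ?_)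
      (fun z hz => ?_) ?_
    · obtain ⟨b1, b2, b3, b4⟩ := hbox l hl z hz
      rw [Pool.RTS.nw_iso, min_eq_right b4.le, one_mul, sub_self, abs_zero]
      have h10 := abs_nonneg (D l g - V l - la l * (g - g))
      exact h10.trans (haff l hl g (by rw [sub_self, abs_zero]; linarith))
    · obtain ⟨b1, -, -, -⟩ := hbox l hl z hz
      exact haff l hl z.1 (b1.trans (by linarith))
    · have : 4 * (ε * r) ≤ ε' * r := by nlinarith only [he1, hr]
      exact this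
  · exact (hlac' l hl).trans (by linarith)
  · show (1 : ℝ) ≤ 1 / c + 1
    linarith
  · show iso (D l) (g + r) g + 4 * r ≤ 1
    have h1 := hval l hl
    have h2 := Pool.RTS.iso_le (D l) (g + r) g
    rw [add_sub_cancel_left] at h2
    rw [h9, h7] at h1
    linarith

/-! ### The boxes -/

variable {P : ℝ → ℝ → ℝ} {ρ : ℝ → ℝ}

/-- The numbers of a box of a row. -/
structure BS (E : CellD P ρ) where
  /-- the chart and the order -/
  k : E.α × E.O
  /-- the row -/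
  Q : ℝ
  /-- the window -/
  g : ℝ
  /-- the scale -/
  r : ℝ
  /-- the slope of the target -/
  S : ℝ
  /-- the slopes of the diagonals -/
  Sj : E.J → ℝ

/-- **The box of a row** with errors `ε`. -/
structure IsBS (E : CellD P ρ) (c β h M ε : ℝ) (p : BS E) : Prop where
  r0 : 0 < p.r
  g0 : 8 * p.r < p.g
  g1 : 8 * p.r < 1 - p.g
  Q0 : 8 * p.r < p.Q
  Q1 : 8 * p.r < 1 - p.Q
  rε : p.r ≤ ε
  ad : E.Ad c p.k p.Q p.g p.r
  val : P p.g p.g = p.Q
  slo : 1 + β ≤ p.S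
  cS : c * p.S ≤ 1
  dgP : AffB (fun w => P w w) p.Q p.S p.g (8 * p.r) (ε * p.r)
  iso : ∀ a w : ℝ, p.g - 7 * p.r ≤ w → w ≤ a → a ≤ p.g + 7 * p.r →
    |E.PB p.k a w - p.Q - (a - p.g) - (p.S - 1) * (w - p.g)| ≤ ε * p.r
  S0 : ∀ j, 0 ≤ p.Sj j
  cSj : ∀ j, c * p.Sj j ≤ 1
  dj : ∀ j, AffB (E.D p.k.2 j) (E.D p.k.2 j p.g) (p.Sj j) p.g (8 * p.r) (ε * p.r)
  nf : NfB ρ h (ε * p.r) (p.Q - M * p.r) (p.Q + M * p.r)
  df : E.dfr p.k p.g p.r ≤ ε * p.r

theorem isBS_mono (E : CellD P ρ) (c β h M : ℝ) : MonoI (IsBS E c β h M) := by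
  refine ⟨fun {ε ε'} {p} hp hε => ?_⟩
  have hr := mul_le_mul_of_nonneg_right hε hp.r0.le
  exact { hp with
    rε := hp.rε.trans hε
    dgP := fun w hw => (hp.dgP w hw).trans hr
    iso := fun a w h1 h2 h3 => (hp.iso a w h1 h2 h3).trans hr
    dj := fun j w hw => (hp.dj j w hw).trans hr
    nf := fun Q₁ Q₂ h1 h2 h3 => (hp.nf Q₁ Q₂ h1 h2 h3).trans (by linarith only [hr])
    df := hp.df.trans hr }

/-- **No boxes.** -/
theorem noBS_of_evP {E : CellD P ρ} (h1 : ∀ c β h : ℝ, 0 < c → 0 < β → 0 < h →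
    ∃ M : ℝ, 0 < M ∧ EvP (IsBS E c β h M) fun _ => False) : E.NoBS := by
  intro c β h hc hβ hh
  obtain ⟨M, hM, ε, hε, h2⟩ := h1 c β h hc hβ hh
  refine ⟨min ε 1, lt_min hε one_pos, min_le_right _ _, M, hM,
    fun k Q g r S a1 a2 a3 a4 a5 a6 a7 a8 a9 a10 => ?_⟩
  have hdj := a7.ade.dj
  choose Sj b1 b2 b3 using hdj
  exact h2 ⟨k, Q, g, r, S, Sj⟩ ((isBS_mono E c β h M).mono
    ⟨a1, a2, a3, a4, a5, a6, a7.ade.ad, a7.val, a8, a7.cS, a7.dgP, a7.iso, b1, b2, b3, a9, a10⟩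
    (min_le_left _ _))

/-- **No boxes**, from the local theorem and the facts of a class. -/
theorem noBS_of_facts {E : CellD P ρ} {S : PCl m} (hS : S.Ne)
    (hpos : ∀ (τ : ℝ) (J : ℕ) (F : Fam m J) (A : F.Ω → Prop), S.St τ J F A → 0 < Pe F.p A)
    {Φ : ExtC} (hΦ : Φ.Mono) {Ψ : ConC} (hΨ : Ψ.Mono) {Q : CondN} (hQ : Q.Cl (n₀ + 1))
    (H : ∀ (K : ℕ) (h : ℝ), 0 < h → h ≤ 1 → MicK Φ Ψ Q (n₀ + 1) K h)
    (facts : ∀ c β h : ℝ, 0 < c → 0 < β → 0 < h → ∃ (M : ℝ) (Kt : KitP m (BS E) n₀)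
      (K' s₁ : ℕ) (sh : ℕ → ℕ), 0 < M ∧
      FactP Kt S (IsBS E c β h M) Φ Ψ Q (min h 1) K' s₁ sh) : E.NoBS := by
  refine noBS_of_evP fun c β h hc hβ hh => ?_
  obtain ⟨M, Kt, K', s₁, sh, hM, hf⟩ := facts c β h hc hβ hh
  exact ⟨M, hM, evP_false (isBS_mono E c β h M) hΦ hΨ hS hpos Kt (min_le_right _ _) hQ
    (H K' (min h 1) (lt_min hh one_pos) (min_le_right _ _)) hf⟩

/-! ### The kit of the fattest boxes -/

/-- **A kit over the boxes of rows**, all sides are the fattest. -/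
structure KitS (m : ℕ) (E : CellD P ρ) (n₀ : ℕ) where
  /-- the coordinates -/
  cs : E.α × E.O → ℕ → Fin m
  /-- the diagonals of the base coordinates -/
  jx : E.O → ℕ → E.J
  /-- the class of the chains -/
  K : ℕ
  /-- the joint property of the labels of a grid -/
  W : BS E → ℕ → ℕ → ℝ → GrdP m
  /-- the property is stable under subevents -/
  her : ∀ p N M θ, (W p N M θ).Her
  /-- the types of the records -/
  RT : BS E → ℕ → ℕ → ℝ → (J : ℕ) → (F : Fam m J) → GDat F → ℕ → ℕ → Type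
  /-- the records -/
  rc : (p : BS E) → (N M : ℕ) → (θ : ℝ) → (J : ℕ) → (F : Fam m J) → (D : GDat F) → (i j : ℕ) →
    LnT F → RT p N M θ J F D i j

namespace KitS

variable {E : CellD P ρ} (Kt : KitS m E n₀)

/-- The diagonals. -/
def Dg (p : BS E) (l : ℕ) : ℝ → ℝ :=
  if l < n₀ then E.D p.k.2 (Kt.jx p.k.2 l) else fun a => P a a

/-- The slopes of the diagonals. -/
def la (p : BS E) (l : ℕ) : ℝ :=
  if l < n₀ then p.Sj (Kt.jx p.k.2 l) else p.S

/-- **The kit**: the centre is the window `g` and the depth `r`, the size is `r`. -/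
noncomputable def kit : KitP m (BS E) n₀ where
  cs p := Kt.cs p.k
  L p l := iso (Kt.Dg p l)
  y p := (p.g, p.r)
  X p := p.r
  la := Kt.la
  ml _ _ := 1
  K := Kt.K
  W := Kt.W
  her := Kt.her
  RT := Kt.RT
  rc := Kt.rc

variable {Kt}

theorem dg_base (p : BS E) {l : ℕ} (hl : l < n₀) : Kt.Dg p l = E.D p.k.2 (Kt.jx p.k.2 l) :=
  if_pos hl

theorem dg_tar (p : BS E) : Kt.Dg p n₀ = fun a => P a a := if_neg (lt_irrefl _)

theorem la_base (p : BS E) {l : ℕ} (hl : l < n₀) : Kt.la p l = p.Sj (Kt.jx p.k.2 l) :=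
  if_pos hl

theorem la_tar (p : BS E) : Kt.la p n₀ = p.S := if_neg (lt_irrefl _)

/-- **The levels** on the box of a row. `hlt`: the diagonals of the base are away from `1`. -/
theorem cel (hc : 0 < c) (hβ : 0 < β) (hP : Diag fun a => P a a)
    (hD : ∀ o j, Diag (E.D o j))
    (hlt : EvP (IsBS E c β h M) fun p => ∀ l < n₀,
      E.D p.k.2 (Kt.jx p.k.2 l) p.g + (2 / c + 8) * p.r ≤ 1) (ε' : ℝ) (hε' : 0 < ε') :
    EvP (IsBS E c β h M) fun p =>
      CellL (n₀ + 1) (Kt.kit.L p) ε' (1 / c + 1) (Kt.kit.y p) (Kt.kit.X p) (Kt.kit.la p)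
        (Kt.kit.ml p) := by
  obtain ⟨ε, hε⟩ : ∃ ε, ε = min (min (ε' / 4) 1) (c / (2 / c + 16)) := ⟨_, rfl⟩
  have hcc : 0 < 2 / c + 16 := by positivity
  have hε0 : 0 < ε := by
    rw [hε]
    exact lt_min (lt_min (by linarith) one_pos) (by positivity)
  have he1 : ε ≤ ε' / 4 := by rw [hε]; exact (min_le_left _ _).trans (min_le_left _ _)
  have he2 : ε ≤ 1 := by rw [hε]; exact (min_le_left _ _).trans (min_le_right _ _)
  have he3 : ε ≤ c / (2 / c + 16) := by rw [hε]; exact min_le_right _ _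
  refine (hlt.and (isBS_mono E c β h M) (EvP.self _ hε0)).mono ?_
  rintro p ⟨plt, hp⟩
  have hr := hp.r0
  have hrr : p.r * (2 / c + 16) ≤ c := by
    have := hp.rε.trans he3
    rwa [le_div_iff₀ hcc] at this
  have hcr : 0 ≤ 2 / c * p.r := by positivity
  refine cellL_iso (V := fun l => if l < n₀ then E.D p.k.2 (Kt.jx p.k.2 l) p.g else p.Q)
    (ε := ε) hc hr hp.g0 hp.g1 he1 he2 (fun l _ => ?_) (fun l _ => ?_) (fun l _ => ?_)
    (fun l _ => ?_) (fun l _ => ?_)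
  · unfold Dg
    split_ifs
    · exact hD _ _
    · exact hP
  · show AffB (Kt.Dg p l) (if l < n₀ then E.D p.k.2 (Kt.jx p.k.2 l) p.g else p.Q) (Kt.la p l) p.g
      (8 * p.r) (ε * p.r)
    unfold Dg la
    split_ifs
    · exact hp.dj _
    · exact hp.dgP
  · show 0 ≤ Kt.la p l
    unfold la
    split_ifs
    · exact hp.S0 _
    · linarith [hp.slo]
  · show c * Kt.la p l ≤ 1
    unfold la
    split_ifs
    · exact hp.cSj _
    · exact hp.cS
  · unfold Dg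
    split_ifs with h1
    · exact plt l h1
    · show P p.g p.g + (2 / c + 8) * p.r ≤ 1
      rw [hp.val]
      have h2 := hp.ad.1.Q1
      nlinarith only [h2, hrr, hr]

/-- **The rows** on the box. -/
theorem row (hM : 4 ≤ M) (hP : Diag fun a => P a a) (ε' : ℝ) (hε' : 0 < ε') :
    EvP (IsBS E c β h M) fun p => NfB ρ (min h 1) (ε' * Kt.kit.X p)
      (Kt.kit.L p n₀ ((Kt.kit.y p).1 + (Kt.kit.y p).2) (Kt.kit.y p).1 - Kt.kit.X p)
      (Kt.kit.L p n₀ ((Kt.kit.y p).1 + (Kt.kit.y p).2) (Kt.kit.y p).1 + 2 * Kt.kit.X p) := by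
  refine ⟨ε', hε', fun p hp => ?_⟩
  have hr := hp.r0
  have hg0 := hp.g0
  have hg1 := hp.g1
  show NfB ρ (min h 1) (ε' * p.r) (iso (Kt.Dg p n₀) (p.g + p.r) p.g - p.r)
    (iso (Kt.Dg p n₀) (p.g + p.r) p.g + 2 * p.r)
  rw [dg_tar]
  have h2 := hp.val
  have h7 := Pool.RTS.iso_le (fun a => P a a) (p.g + p.r) p.g
  have h8 := Pool.RTS.iso_lo hP (a := p.g + p.r) (w := p.g) (by linarith) (by linarith)
    (by linarith)
  rw [add_sub_cancel_left] at h7
  have hMr : 4 * p.r ≤ M * p.r := mul_le_mul_of_nonneg_right hM hr.le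
  refine nfB_mono hp.nf (min_le_left _ _) le_rfl ?_ ?_
  · show p.Q - M * p.r ≤ iso (fun a => P a a) (p.g + p.r) p.g - p.r
    linarith
  · show iso (fun a => P a a) (p.g + p.r) p.g + 2 * p.r ≤ p.Q + M * p.r
    linarith

/-- The slope of the target on a box. -/
theorem gam : EvP (IsBS E c β h M) fun p => β ≤ Kt.kit.la p n₀ - Kt.kit.ml p n₀ := by
  refine ⟨1, one_pos, fun p hp => ?_⟩
  show β ≤ Kt.la p n₀ - 1
  rw [la_tar]
  linarith [hp.slo]

/-- All weights are one. -/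
theorem lamS_one (p : BS E) : lamS (n₀ + 1) (Kt.kit.ml p) = fun _ => 1 := by
  funext l
  show (if 1 ≤ l ∧ l ≤ n₀ + 1 then max 1 ((fun _ => 1 : ℕ → ℝ) (l - 1)) else 1) = (1 : ℝ)
  split_ifs
  · exact max_self 1
  · rfl

/-- **The threshold of the target** over the order is at most the level, on the cells. -/
theorem thr (hP1 : ∀ a w : ℝ, 0 ≤ w → w ≤ a → a ≤ 1 → P a w ≤ 1) (ε' : ℝ) (hε' : 0 < ε') :
    EvP (IsBS E c β h M) fun p => ∀ z : ℝ × ℝ, dist z (Kt.kit.y p) ≤ Kt.kit.X p →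
      Nw (E.PB p.k) z ≤ Nw (Kt.kit.L p n₀) z + ε' * Kt.kit.X p := by
  refine ⟨min (ε' / 2) 1, lt_min (by linarith) one_pos, fun p hp z hz => ?_⟩
  have hr := hp.r0
  have hg0 := hp.g0
  have hg1 := hp.g1
  change dist z (p.g, p.r) ≤ p.r at hz
  rw [Prod.dist_eq, Real.dist_eq, Real.dist_eq] at hz
  have z1 := abs_le.1 ((le_max_left _ _).trans hz)
  have z2 := abs_le.1 ((le_max_right _ _).trans hz)
  simp only at z1 z2
  have he : min (ε' / 2) 1 * p.r ≤ ε' / 2 * p.r :=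
    mul_le_mul_of_nonneg_right (min_le_left _ _) hr.le
  have he0 : 0 ≤ ε' * p.r := by positivity
  have h1 := (abs_le.1 (hp.iso (z.1 + z.2) z.1 (by linarith [z1.1]) (by linarith [z2.1])
    (by linarith [z1.2, z2.2]))).2
  have h2 := (abs_le.1 (hp.dgP z.1 (by rw [abs_le]; constructor <;> linarith [z1.1, z1.2]))).1
  show E.PB p.k (z.1 + z.2) z.1 ≤ Nw (iso (Kt.Dg p n₀)) z + ε' * p.r
  rw [dg_tar, Pool.RTS.nw_iso]
  simp only at h2 ⊢
  have h5 : E.PB p.k (z.1 + z.2) z.1 ≤ P z.1 z.1 + z.2 + ε' * p.r := by linarith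
  rcases le_total 1 (P z.1 z.1 + z.2) with h3 | h3
  · rw [min_eq_left h3]
    have h6 := E.hle p.k (z.1 + z.2) z.1 (by linarith [z1.1]) (by linarith [z2.1])
      (by linarith [z1.2, z2.2])
    have h7 := hP1 (z.1 + z.2) z.1 (by linarith [z1.1]) (by linarith [z2.1])
      (by linarith [z1.2, z2.2])
    linarith
  · rw [min_eq_right h3]
    exact h5

/-- The diagonals of the base are away from `1`. -/
theorem hlt_of (hc : 0 < c) (h1 : EvP (IsBS E c β h M) fun p => ∀ l < n₀,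
    E.D p.k.2 (Kt.jx p.k.2 l) p.g + c ≤ 1) : EvP (IsBS E c β h M) fun p => ∀ l < n₀,
      E.D p.k.2 (Kt.jx p.k.2 l) p.g + (2 / c + 8) * p.r ≤ 1 := by
  have hcc : 0 < 2 / c + 8 := by positivity
  refine (h1.and (isBS_mono E c β h M) (EvP.self _ (show 0 < c / (2 / c + 8) by positivity))).mono ?_
  rintro p ⟨h2, hp⟩ l hl
  have h3 := hp.rε
  rw [le_div_iff₀ hcc] at h3
  linarith [h2 l hl]

end KitS

/-- All weights are one. -/
def QIso (n : ℕ) : CondN := fun lam _ => ∀ l, 1 ≤ l → l ≤ n → lam l = 1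

theorem qIso_cl (n : ℕ) : (QIso n).Cl n :=
  CondN.Cl.all fun _ => CondN.Cl.imp fun h1 => CondN.Cl.imp fun h2 => CondN.Cl.lam_eq h1 h2 1

/-- **The facts of a class for the boxes of the rows**: from the labels of the grid (`grd`), the axioms
`Ok2`, exactness given the closed labels (`exc`) and the thresholds `E.PB`, which are the thresholds
of the chains with sides restricted by functions `be k`, at least the fattest. -/
theorem factS {E : CellD P ρ} {S : PCl m} (hS : TmH S) (hZ : Bas S (fun _ F _ => Zc F))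
    (Kt : KitS m E n₀) (hinj : ∀ k, Inj (Kt.cs k) (n₀ + 1))
    (hcov : ∀ k, ∀ i : Fin m, i ≠ Kt.cs k n₀ → ∃ l < n₀, Kt.cs k l = i)
    (hR : ∀ k, Pool.ALL.RateOf S (Kt.cs k n₀) ρ) {K' s₁ : ℕ} {sh : ℕ → ℕ} (hK' : 1 ≤ K')
    (hc : 0 < c) (hβ : 0 < β) (hh : 0 < h) (hM : 4 ≤ M) (hPd : Diag fun a => P a a)
    (hP1 : ∀ a w : ℝ, 0 ≤ w → w ≤ a → a ≤ 1 → P a w ≤ 1) (hD : ∀ o j, Diag (E.D o j))
    (hlt : EvP (IsBS E c β h M) fun p => ∀ l < n₀, E.D p.k.2 (Kt.jx p.k.2 l) p.g + c ≤ 1)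
    {be PP : E.α × E.O → List (Fin m) × Fin m → ℝ → ℝ → ℝ}
    (hPP : ∀ k, ThrOf (chsysB m none (be k)) S (PP k))
    (hPB : ∀ k, ∀ a w : ℝ, E.PB k a w = bet (PP k) (Kt.cs k) n₀ a w)
    (hbe : ∀ k, ∀ l < n₀, ∀ a w : ℝ, 0 ≤ w → w ≤ a → a ≤ 1 →
      iso (E.D k.2 (Kt.jx k.2 l)) a w ≤ bet (be k) (Kt.cs k) l a w)
    {Q : CondN} (hQ : ∀ gam : ℕ → ℝ, Q (fun _ => 1) gam) {A : ℕ} (hA : 1 ≤ A)
    (grd : ∀ M' : ℕ, EvQ (IsBS E c β h M) fun N θ p => ∃ (b : ℕ → ℕ → ℕ → ℝ) (e : ℕ → ℕ → ℝ),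
      Kt.kit.Near p N M' θ b e ∧
        Lg S fun _ F A => ∃ D : GDat F, (Kt.kit.grid K' s₁ sh p N M' θ b e).Ok F D A)
    (ok2 : ∃ C₅ : ℝ, ∀ C₁ ≥ C₅, ∀ κ : ℝ, 0 < κ → ∀ M' : ℕ, EvQ (IsBS E c β h M) fun N θ p =>
      Kt.kit.FldN S K' s₁ sh M' N θ p fun G J F D q => (Kt.kit.nd p N M' θ G F D).Ok2 G.n G.K' J
        (up G.α J) (up G.ϖ J) (up G.ζ J) G.M (lamS (n₀ + 1) (Kt.kit.ml p))
        (gamS (n₀ + 1) (Kt.kit.la p) (Kt.kit.ml p)) κ C₁ q)
    (exc : ∀ k : ℝ, 0 < k → ∀ M' : ℕ, EvQ (IsBS E c β h M) fun N θ p =>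
      Kt.kit.FldN S K' s₁ sh M' N θ p fun G J F D q =>
        ExC D G.c G.n G.sh (Kt.kit.rc p N M' θ J F D) (up G.ϖ J) (up G.ζ J) G.M (G.gn J)
          (k * up G.ζ J) q) :
    FactP Kt.kit S (IsBS E c β h M) ExtC.Tm (ConC.std A) Q (min h 1) K' s₁ sh := by
  have hI := isBS_mono E c β h M
  have fcel := KitS.cel (Kt := Kt) (M := M) (h := h) hc hβ hPd hD (KitS.hlt_of hc hlt)
  refine ⟨⟨1 / c + 1, β, hβ, fcel, ?_⟩, grd, ok2, ?_, ?_, ?_⟩
  · refine (KitS.gam (Kt := Kt) (c := c) (β := β) (h := h) (M := M)).mono fun p hp => ⟨hp, ?_⟩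
    rw [KitS.lamS_one]
    exact hQ _
  · exact nf_E hI hS.1 hZ Kt.kit (fun p => hinj p.k) (fun p => hcov p.k) (fun p => hR p.k) hK'
      (lt_min hh one_pos) (min_le_right _ _) (KitS.row hM hPd) fcel exc ok2
  · exact phi_Tm hI hS Kt.kit fcel
  · intro M' K'' η' hη
    refine no_std Kt.kit hA hS.1 (no_B hI hS.1 Kt.kit fcel hK' (be := fun p => be p.k)
      (P := fun p => PP p.k) (fun p => hPP p.k) (fun p l hl a w h0 h1 h2 => ?_)
      (fun ε' hε' => ?_) hη)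
    · show iso (Kt.Dg p l) a w ≤ _
      rw [KitS.dg_base p hl]
      exact hbe p.k l hl a w h0 h1 h2
    · refine (KitS.thr (Kt := Kt) (c := c) (β := β) (h := h) (M := M) hP1 ε' hε').mono
        fun p hp z hz => ?_
      have h1 := hp z hz
      have h2 : Nw (E.PB p.k) z = Nw (bet (PP p.k) (Kt.kit.cs p) n₀) z := hPB p.k _ _
      rw [← h2]
      exact h1

end Pool.STAT
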