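import Pool.Agent.H78.MIC.BckX
import Pool.Agent.H78.MIC.Cel
import Pool.Agent.H60.GEN.Back

/-!
# No joint cells from the facts of a class

`CP`: the numbers of a joint cell of a family of thresholds. `EvC Ψ`: the statement `Ψ` holds for all
cells with small errors. `EvN Ψ`: the same for fine grids of the cell, with sides close to the levels.

`Kit`: for each cell the coordinates, the levels, a property of the labels and the records of the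
lines. `Kit.grid`: the grid of a cell. `Facts`: what a class has to give. `noJB2_of_facts`: then there
are no joint cells.
-/

set_option autoImplicit false

namespace Pool.STAT

open Finset MvPolynomial
open Pool.Agent.H49.Ent Pool.Agent.H32.Dense Pool.STK Pool.KS3 Pool.KA Pool.KSAT Pool.PB Pool.GEN
open Pool.K2S Pool.S6C
open Pool.LEV (Law)
open Pool.STR (Affn Nw JCB NfB NoJB2)
open CLO

/-! ### Cells -/

/-- **The numbers of a joint cell** of a family. -/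
structure CP (ι : Type*) (n₀ : ℕ) where
  /-- the family -/
  k : ι
  /-- the row -/
  Q : ℝ
  /-- the window of the row -/
  g : ℝ
  /-- the scale -/
  r : ℝ
  /-- the centre of the cell -/
  y : ℝ × ℝ
  /-- the size of the cell -/
  X : ℝ
  /-- the slope of the target in the window -/
  lamN : ℝ
  /-- the slope of the target in the depth -/
  muN : ℝ
  /-- the slopes of the base in the window -/
  lam : Fin n₀ → ℝ
  /-- the slopes of the base in the depth -/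
  mu : Fin n₀ → ℝ

/-- The data of the absence of joint cells. -/
structure BoxD (ι : Type*) (n₀ : ℕ) where
  /-- the rows -/
  ρ : ℝ → ℝ
  /-- the thresholds of the target -/
  PB : ι → ℝ → ℝ → ℝ
  /-- the levels of the base -/
  R : ι → Fin n₀ → ℝ × ℝ → ℝ
  /-- the properties of the selected families -/
  Ad : ℝ → ι → ℝ → ℝ → ℝ → Prop
  /-- the defects -/
  df : ι → ℝ → ℝ → ℝ

variable {ι : Type*} {n₀ : ℕ} {W : BoxD ι n₀} {c β T h : ℝ}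

/-- **A cell** with errors `ε`. -/
structure IsCell (W : BoxD ι n₀) (c β T h ε : ℝ) (p : CP ι n₀) : Prop where
  r0 : 0 < p.r
  g0 : 8 * p.r < p.g
  g1 : 8 * p.r < 1 - p.g
  Q0 : 8 * p.r < p.Q
  Q1 : 8 * p.r < 1 - p.Q
  ad : W.Ad c p.k p.Q p.g p.r
  cell : JCB (W.PB p.k) (W.R p.k) p.Q p.g p.r ε β T p.y p.X p.lamN p.muN p.lam p.mu
  nf : NfB W.ρ h (ε * p.X) (Nw (W.PB p.k) p.y - 4 * (T + 1) * p.X)
    (Nw (W.PB p.k) p.y + 4 * (T + 1) * p.X)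
  df : W.df p.k p.g p.r ≤ ε * p.X

theorem IsCell.mono {ε ε' : ℝ} {p : CP ι n₀} (hp : IsCell W c β T h ε p) (hε : ε ≤ ε') :
    IsCell W c β T h ε' p := by
  have hX := mul_le_mul_of_nonneg_right hε hp.cell.pos.le
  exact { hp with
    cell := hp.cell.mono hε
    nf := fun Q₁ Q₂ h1 h2 h3 => (hp.nf Q₁ Q₂ h1 h2 h3).trans (by linarith only [hX])
    df := hp.df.trans hX }

/-- The statement holds for all cells with small errors. -/
def EvC (W : BoxD ι n₀) (c β T h : ℝ) (Ψ : CP ι n₀ → Prop) : Prop :=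
  ∃ ε : ℝ, 0 < ε ∧ ∀ p : CP ι n₀, IsCell W c β T h ε p → Ψ p

theorem EvC.mono {Ψ Φ : CP ι n₀ → Prop} (h1 : EvC W c β T h Ψ) (h2 : ∀ p, Ψ p → Φ p) :
    EvC W c β T h Φ := by
  obtain ⟨ε, hε, h1⟩ := h1
  exact ⟨ε, hε, fun p hp => h2 p (h1 p hp)⟩

theorem EvC.and {Ψ Φ : CP ι n₀ → Prop} (h1 : EvC W c β T h Ψ) (h2 : EvC W c β T h Φ) :
    EvC W c β T h fun p => Ψ p ∧ Φ p := by
  obtain ⟨ε, hε, h1⟩ := h1
  obtain ⟨ε', hε', h2⟩ := h2
  exact ⟨min ε ε', lt_min hε hε', fun p hp => ⟨h1 p (hp.mono (min_le_left _ _)),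
    h2 p (hp.mono (min_le_right _ _))⟩⟩

/-- The errors are small. -/
theorem EvC.self (W : BoxD ι n₀) (c β T h : ℝ) {ε : ℝ} (hε : 0 < ε) :
    EvC W c β T h (IsCell W c β T h ε) := ⟨ε, hε, fun _ hp => hp⟩

theorem EvC.of {Ψ : CP ι n₀ → Prop} (h1 : ∀ p, Ψ p) : EvC W c β T h Ψ :=
  ⟨1, one_pos, fun p _ => h1 p⟩

/-- The statement holds for fine grids with sides close to the levels, in all cells with small
errors. -/
def EvN (W : BoxD ι n₀) (c β T h : ℝ) (Ψ : ℕ → ℝ → CP ι n₀ → Prop) : Prop :=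
  ∃ N₁ : ℕ, ∀ N ≥ N₁, ∃ θ₀ : ℝ, 0 < θ₀ ∧ ∀ θ : ℝ, 0 < θ → θ ≤ θ₀ → EvC W c β T h (Ψ N θ)

theorem EvN.mono {Ψ Φ : ℕ → ℝ → CP ι n₀ → Prop} (h1 : EvN W c β T h Ψ)
    (h2 : ∀ N θ p, Ψ N θ p → Φ N θ p) : EvN W c β T h Φ := by
  obtain ⟨N₁, h1⟩ := h1
  refine ⟨N₁, fun N hN => ?_⟩
  obtain ⟨θ₀, hθ₀, h1⟩ := h1 N hN
  exact ⟨θ₀, hθ₀, fun θ h3 h4 => (h1 θ h3 h4).mono (h2 N θ)⟩

theorem EvN.and {Ψ Φ : ℕ → ℝ → CP ι n₀ → Prop} (h1 : EvN W c β T h Ψ)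
    (h2 : EvN W c β T h Φ) : EvN W c β T h fun N θ p => Ψ N θ p ∧ Φ N θ p := by
  obtain ⟨N₁, h1⟩ := h1
  obtain ⟨N₂, h2⟩ := h2
  refine ⟨max N₁ N₂, fun N hN => ?_⟩
  obtain ⟨θ₁, hθ₁, h1⟩ := h1 N ((le_max_left _ _).trans hN)
  obtain ⟨θ₂, hθ₂, h2⟩ := h2 N ((le_max_right _ _).trans hN)
  exact ⟨min θ₁ θ₂, lt_min hθ₁ hθ₂, fun θ h3 h4 => (h1 θ h3 (h4.trans (min_le_left _ _))).and
    (h2 θ h3 (h4.trans (min_le_right _ _)))⟩

theorem EvN.of_evC {Ψ : CP ι n₀ → Prop} (h1 : EvC W c β T h Ψ) :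
    EvN W c β T h fun _ _ p => Ψ p := ⟨0, fun _ _ => ⟨1, one_pos, fun _ _ _ => h1⟩⟩

/-- Large `N`, small `θ` and small errors. -/
theorem EvN.self (W : BoxD ι n₀) (c β T h : ℝ) (N₁ : ℕ) {θ₀ : ℝ} (hθ₀ : 0 < θ₀) {ε : ℕ → ℝ → ℝ}
    (hε : ∀ N θ, 0 < θ → 0 < ε N θ) :
    EvN W c β T h fun N θ p => N₁ ≤ N ∧ 0 < θ ∧ θ ≤ θ₀ ∧ IsCell W c β T h (ε N θ) p :=
  ⟨N₁, fun N hN => ⟨θ₀, hθ₀, fun θ h1 h2 => ⟨ε N θ, hε N θ h1, fun _ hp => ⟨hN, h1, h2, hp⟩⟩⟩⟩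

/-- Finitely many statements. -/
theorem EvN.all {Ψ : ℕ → ℕ → ℝ → CP ι n₀ → Prop} (M₀ : ℕ)
    (h1 : ∀ M ≤ M₀, EvN W c β T h (Ψ M)) :
    EvN W c β T h fun N θ p => ∀ M ≤ M₀, Ψ M N θ p := by
  induction M₀ with
  | zero =>
    refine (h1 0 le_rfl).mono fun N θ p h2 M hM => ?_
    obtain rfl : M = 0 := by omega
    exact h2
  | succ k ih =>
    refine ((ih fun M hM => h1 M (by omega)).and (h1 (k + 1) le_rfl)).mono fun N θ p h2 M hM => ?_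
    rcases Nat.lt_or_ge M (k + 1) with h3 | h3
    · exact h2.1 M (by omega)
    · obtain rfl : M = k + 1 := by omega
      exact h2.2

theorem EvN.false_evC (h1 : EvN W c β T h fun _ _ _ => False) : EvC W c β T h fun _ => False := by
  obtain ⟨N₁, h1⟩ := h1
  obtain ⟨θ₀, hθ₀, h1⟩ := h1 N₁ le_rfl
  exact h1 θ₀ hθ₀ le_rfl

theorem noJB2_of_evC (h1 : ∀ c β T h : ℝ, 0 < c → 0 < β → 0 < T → 0 < h →
    EvC W c β T h fun _ => False) : NoJB2 W.ρ W.PB W.R W.Ad W.df := by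
  intro c β T h k1 k2 k3 k4
  obtain ⟨ε, hε, h1⟩ := h1 c β T h k1 k2 k3 k4
  refine ⟨ε, hε, fun k Q g r y X lamN muN lam mu a1 a2 a3 a4 a5 a6 a7 a8 a9 => ?_⟩
  exact h1 ⟨k, Q, g, r, y, X, lamN, muN, lam, mu⟩ ⟨a1, a2, a3, a4, a5, a6, a7, a8, a9⟩

/-! ### The levels on the cell -/

/-- The slopes in the window of all levels. -/
noncomputable def CP.la (p : CP ι n₀) (l : ℕ) : ℝ := if hl : l < n₀ then p.lam ⟨l, hl⟩ else p.lamN

/-- The slopes in the depth of all levels. -/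
noncomputable def CP.ml (p : CP ι n₀) (l : ℕ) : ℝ := if hl : l < n₀ then p.mu ⟨l, hl⟩ else p.muN

/-- **The levels on a cell.** -/
theorem IsCell.cellL {ε : ℝ} {p : CP ι n₀} (hp : IsCell W c β T h ε p) (hβ : 0 < β)
    {L : ℕ → ℝ → ℝ → ℝ} (hN : W.PB p.k = L n₀) (hV : ∀ l : Fin n₀, W.R p.k l = Nw (L l))
    (hlaw : ∀ l ≤ n₀, Law (L l))
    (hlow : ∀ l ≤ n₀, ∀ a w : ℝ, 0 ≤ w → w ≤ a → a ≤ 1 → a ≤ L l a w)
    (hlt : ∀ l < n₀, Nw (L l) p.y + 4 * p.X ≤ 1) :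
    CellL (n₀ + 1) L ε T p.y p.X p.la p.ml := by
  have hc := hp.cell
  have hX := hc.pos
  have hwin := hc.win'
  have hw := abs_le.1 (le_trans (by linarith only [hX] : |p.y.1 - p.g| ≤ |p.y.1 - p.g| + p.X) hwin)
  have hr := hp.r0
  have hdep := hc.dep
  have hdep' := hc.dep'
  have hg0 := hp.g0
  have hg1 := hp.g1
  have hlN : ∀ l, l < n₀ + 1 → ¬ l < n₀ → l = n₀ := fun l h1 h2 => by omega
  refine ⟨hX, hdep, ?_, ?_, fun l hl => hlaw l (by omega), fun l hl => hlow l (by omega), ?_, ?_,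
    ?_, ?_, ?_, ?_⟩
  · linarith only [hw.1, hg0, hdep, hdep', hr]
  · linarith only [hw.2, hg1, hdep, hdep', hr]
  · intro l hl
    unfold CP.la CP.ml
    by_cases h1 : l < n₀
    · rw [dif_pos h1, dif_pos h1]
      have h2 := hc.affs ⟨l, h1⟩
      rw [hV ⟨l, h1⟩] at h2
      exact h2
    · rw [dif_neg h1, dif_neg h1, hlN l hl h1, ← hN]
      exact hc.aff
  · intro l hl
    unfold CP.la
    split_ifs with h1
    · exact hc.lam0 _
    · linarith only [hc.one, hc.gam, hβ]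
  · intro l hl
    unfold CP.la
    split_ifs with h1
    · exact hc.lamT _
    · exact hc.top
  · intro l hl
    unfold CP.ml
    split_ifs with h1
    · exact hc.mu0 _
    · linarith only [hc.one]
  · intro l hl
    unfold CP.ml
    split_ifs with h1
    · exact hc.muT _
    · linarith only [hc.gam, hc.top, hβ]
  · intro l hl
    by_cases h1 : l < n₀
    · exact hlt l h1
    · rw [hlN l hl h1, ← hN]
      have h2 := (abs_le.1 hc.row).2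
      have h3 := hp.Q1
      unfold Nw at h2
      linarith only [h2, h3, hdep, hdep', hr]

/-! ### The kit -/

/-- **The kit of a cell**: the coordinates, the levels (`L k n₀` is the target), the class of the
chains, the property of the labels and the records of the lines. -/
structure Kit (m : ℕ) (ι : Type*) (n₀ : ℕ) where
  /-- the coordinates -/
  cs : ι → ℕ → Fin m
  /-- the levels -/
  L : ι → ℕ → ℝ → ℝ → ℝ
  /-- the class of the chains -/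
  K : ℕ
  /-- the property of the labels -/
  XC : CP ι n₀ → ℕ → ℕ → ℝ → CLO.LabX m
  /-- the property is stable under subevents -/
  her : ∀ p N M θ, (XC p N M θ).Her
  /-- the types of the records -/
  RT : CP ι n₀ → ℕ → ℕ → ℝ → (J : ℕ) → Fam m J → ℕ → ℕ → Type
  /-- the records -/
  rc : (p : CP ι n₀) → (N M : ℕ) → (θ : ℝ) → (J : ℕ) → (F : Fam m J) → (i j : ℕ) → LnT F →
    RT p N M θ J F i j

variable {m : ℕ}

/-- The data of the kit for the absence of joint cells. -/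
def Kit.box (Kt : Kit m ι n₀) (ρ : ℝ → ℝ) (Ad : ℝ → ι → ℝ → ℝ → ℝ → Prop)
    (df : ι → ℝ → ℝ → ℝ) : BoxD ι n₀ := ⟨ρ, fun k => Kt.L k n₀, fun k j => Nw (Kt.L k j), Ad, df⟩

/-- **The grid of a cell.** -/
noncomputable def Kit.grid (Kt : Kit m ι n₀) (K' s₁ : ℕ) (sh : ℕ → ℕ) (p : CP ι n₀) (N M : ℕ)
    (θ : ℝ) (b : ℕ → ℕ → ℕ → ℝ) (e : ℕ → ℕ → ℝ) : RG m where
  c := Kt.cs p.k
  n := n₀ + 1
  K := Kt.K
  K' := K'
  s₁ := s₁
  sh := sh
  M := M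
  α := p.y.1 + p.y.2
  ϖ := p.y.1
  ζ := msh p.X N M
  e := e
  b := b
  X := Kt.XC p N M θ
  her := Kt.her p N M θ

/-- **The sides are close to the levels**, and less than the levels. -/
structure Kit.Near (Kt : Kit m ι n₀) (p : CP ι n₀) (N M : ℕ) (θ : ℝ) (b : ℕ → ℕ → ℕ → ℝ)
    (e : ℕ → ℕ → ℝ) : Prop where
  up : ∀ i ≤ M, ∀ j ≤ M, ∀ l ≤ n₀,
    b i j l < Kt.L p.k l (p.y.1 + p.y.2 + i * msh p.X N M) (p.y.1 + j * msh p.X N M)
  lo : ∀ i ≤ M, ∀ j ≤ M, ∀ l ≤ n₀,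
    Kt.L p.k l (p.y.1 + p.y.2 + i * msh p.X N M) (p.y.1 + j * msh p.X N M) -
      θ * msh p.X N M ≤ b i j l
  e0 : ∀ i ≤ M, ∀ j ≤ M, 0 ≤ e i j
  e1 : ∀ i ≤ M, ∀ j ≤ M, e i j ≤ θ * msh p.X N M

/-- A field for all sides which are close to the levels. -/
def Kit.FldN (Kt : Kit m ι n₀) (S : PCl m) (K' s₁ : ℕ) (sh : ℕ → ℕ) (M N : ℕ) (θ : ℝ)
    (p : CP ι n₀) (Φ : RG m → FldT m) : Prop :=
  ∀ (b : ℕ → ℕ → ℕ → ℝ) (e : ℕ → ℕ → ℝ), Kt.Near p N M θ b e →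
    Fld S (Kt.grid K' s₁ sh p N M θ b e) (Φ (Kt.grid K' s₁ sh p N M θ b e))

/-- **What a class has to give**, for the cells with row constant `c`, slopes `β`, `T` and deficit
`h`. -/
structure Facts (Kt : Kit m ι n₀) (S : PCl m) (W : BoxD ι n₀) (c β T h : ℝ) (K' s₁ : ℕ)
    (sh : ℕ → ℕ) : Prop where
  /-- the levels of the base are away from `1` -/
  lt : EvC W c β T h fun p => ∀ l < n₀, Nw (Kt.L p.k l) p.y + 4 * p.X ≤ 1
  /-- chains with sides close to the levels -/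
  chn : ∀ M : ℕ, EvN W c β T h fun N θ p => ∃ (b : ℕ → ℕ → ℕ → ℝ) (e : ℕ → ℕ → ℝ),
    Kt.Near p N M θ b e ∧ ∀ i ≤ M, ∀ j ≤ M, Lg S fun J F A =>
      ∃ (G : PtT F → ℕ → MvPolynomial (Option (Fin m)) ℝ)
        (H : LnT F → ℕ → MvPolynomial (Option (Fin m)) ℝ),
        ChOK F (Kt.cs p.k) (n₀ + 1) (fun _ => Kt.K)
          (up (p.y.1 + p.y.2) J + i * up (msh p.X N M) J)
          (up p.y.1 J + j * up (msh p.X N M) J) ⌊e i j * J⌋₊
          (fun l => ⌊b i j l * J⌋₊) A G H ∧ Kt.XC p N M θ i j J F A G H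
  /-- the records -/
  rcd : ∃ C₂ : ℝ, ∀ k : ℝ, 0 < k → ∀ M : ℕ, EvN W c β T h fun N θ p =>
    Kt.FldN S K' s₁ sh M N θ p fun G J F D q =>
      RcF F (Kt.rc p N M θ J F) (up G.ϖ J) (up G.ζ J) G.M (k * up G.ζ J) (C₂ * up G.ζ J) q ∧
      ValF D (Kt.rc p N M θ J F) (up G.ϖ J) (up G.ζ J) G.M (k * up G.ζ J) q ∧
      ExF F G.c G.n G.sh (Kt.rc p N M θ J F) (up G.ϖ J) (up G.ζ J) G.M (G.gn J)
        (k * up G.ζ J) q
  /-- nonfull rows -/
  nf : ∃ (h₁ C₃ : ℝ), 0 < h₁ ∧ h₁ ≤ 1 ∧ ∀ C₁ ≥ C₃, ∃ B : ℕ, 1 ≤ B ∧ ∀ M : ℕ,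
    EvN W c β T h fun N θ p => Kt.FldN S K' s₁ sh M N θ p fun G J F D q =>
      (G.nd D (Kt.rc p N M θ J F)).NF1 G.n (up G.ζ J) G.M B (gamS (n₀ + 1) p.la p.ml) h₁ C₁ q
  /-- the base is full given own leaves -/
  llv : ∀ κ : ℝ, 0 < κ → ∀ M : ℕ, EvN W c β T h fun N θ p =>
    Kt.FldN S K' s₁ sh M N θ p fun G J F D q =>
      (G.nd D (Kt.rc p N M θ J F)).LLV G.n (up G.ζ J) G.M κ q
  /-- the height of the target and own leaves -/
  lln : ∃ Rr : ℕ, ∀ κ : ℝ, 0 < κ → ∀ M : ℕ, EvN W c β T h fun N θ p =>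
    Kt.FldN S K' s₁ sh M N θ p fun G J F D q =>
      (G.nd D (Kt.rc p N M θ J F)).LLN G.n (up G.ζ J) G.M Rr κ q
  /-- no new label -/
  no : ∀ (M K'' : ℕ) (η' : ℝ), 0 < η' → EvN W c β T h fun N θ p =>
    Kt.FldN S K' s₁ sh M N θ p fun G J F D q => ∀ i ≤ G.M, ∀ j ≤ G.M,
      ¬ (G.nd D (Kt.rc p N M θ J F)).NewLab2 J (up G.α J) (up G.ϖ J) (up G.ζ J) i j G.n 1 K'' η' q

/-- **No joint cells**, from the local theorem and the facts of the class. -/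
theorem noJB2_of_facts (H : MicWStmt) {S : PCl m} (hS : S.Ne)
    (hpos : ∀ (τ : ℝ) (J : ℕ) (F : Fam m J) (A : F.Ω → Prop), S.St τ J F A → 0 < Pe F.p A)
    {CT : ℝ} (hCT : 0 ≤ CT) (htm : TmC S CT) (Kt : Kit m ι n₀)
    (hinj : ∀ k, Inj (Kt.cs k) (n₀ + 1)) (hlaw : ∀ k, ∀ l ≤ n₀, Law (Kt.L k l))
    (hlow : ∀ k, ∀ l ≤ n₀, ∀ a w : ℝ, 0 ≤ w → w ≤ a → a ≤ 1 → a ≤ Kt.L k l a w)
    {ρ : ℝ → ℝ} {Ad : ℝ → ι → ℝ → ℝ → ℝ → Prop} {df : ι → ℝ → ℝ → ℝ}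
    (facts : ∀ (K' s₁ : ℕ) (sh : ℕ → ℕ), 1 ≤ K' → ∀ c β T h : ℝ, 0 < c → 0 < β → 0 < T → 0 < h →
      Facts Kt S (Kt.box ρ Ad df) c β T h K' s₁ sh) :
    NoJB2 ρ (fun k => Kt.L k n₀) (fun k (j : Fin n₀) => Nw (Kt.L k j)) Ad df := by
  obtain ⟨sh, K', s₁, hK', hgr⟩ := grd_x (n₀ + 1) Kt.K
  obtain ⟨C₀, hC₀, hasm⟩ := asm_okx (n₀ + 1) Kt.K K' s₁ sh hK'
  refine noJB2_of_evC (W := Kt.box ρ Ad df) fun c β T h hc hβ hT hh => ?_
  obtain ⟨flt, fchn, ⟨C₂, frec⟩, ⟨h₁, C₃, hh₁, hh₁1, fnf⟩, fllv, ⟨Rr, flln⟩, fno⟩ :=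
    facts K' s₁ sh hK' c β T h hc hβ hT hh
  -- the constants
  obtain ⟨C₁, hC₁⟩ : ∃ C₁, C₁ = max (max C₀ (C₂ + 2)) (max C₃ 1) := ⟨_, rfl⟩
  have c1 : C₀ ≤ C₁ := by rw [hC₁]; exact (le_max_left _ _).trans (le_max_left _ _)
  have c2 : C₂ + 2 ≤ C₁ := by rw [hC₁]; exact (le_max_right _ _).trans (le_max_left _ _)
  have c3 : C₃ ≤ C₁ := by rw [hC₁]; exact (le_max_left _ _).trans (le_max_right _ _)
  have c4 : 1 ≤ C₁ := by rw [hC₁]; exact (le_max_right _ _).trans (le_max_right _ _)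
  obtain ⟨B, hB, fnf⟩ := fnf C₁ c3
  obtain ⟨M₀, K'', η', κ, η, z₀, hη', hκ, hη, hmic⟩ := H.cover (n := n₀ + 1) (K := K') (A := 1)
    (B := B) (R := Rr) (C₁ := C₁) (h := h₁) (Λ := T + 1) (β := β) (by omega) hB c4 hh₁ hh₁1 hβ
  obtain ⟨k, hk⟩ : ∃ k : ℝ, k = min (κ / (2 + ((M₀ : ℝ) + 1) ^ 3)) (1 / ((M₀ : ℝ) + 1) ^ 3) :=
    ⟨_, rfl⟩
  have hM03 : (0 : ℝ) < ((M₀ : ℝ) + 1) ^ 3 := by positivity
  have hk0 : 0 < k := by
    rw [hk]
    exact lt_min (by positivity) (by positivity)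
  have hk1 : 2 * k + ((M₀ : ℝ) + 1) ^ 3 * k ≤ κ := by
    have : k ≤ κ / (2 + ((M₀ : ℝ) + 1) ^ 3) := by rw [hk]; exact min_le_left _ _
    rw [le_div_iff₀ (by positivity)] at this
    linarith only [this]
  have hk2 : ((M₀ : ℝ) + 1) ^ 3 * k ≤ 1 := by
    have : k ≤ 1 / ((M₀ : ℝ) + 1) ^ 3 := by rw [hk]; exact min_le_right _ _
    rw [le_div_iff₀ hM03] at this
    linarith only [this]
  obtain ⟨N₁, hN₁⟩ := exists_nat_ge (4 * (T + 2))
  have key := ((EvN.of_evC flt).and ((EvN.all M₀ fun M _ => fchn M).and ((EvN.all M₀ fun M _ =>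
    frec k hk0 M).and ((EvN.all M₀ fun M _ => fnf M).and ((EvN.all M₀ fun M _ => fllv κ hκ M).and
    ((EvN.all M₀ fun M _ => flln κ hκ M).and (EvN.all M₀ fun M _ => fno M K'' η' hη'))))))).and
    (EvN.self (Kt.box ρ Ad df) c β T h (max N₁ 1) (θ₀ := 1 / 16) (by norm_num)
      (ε := fun N _ => 1 / (64 * (N * (M₀ + 4)) + 1)) (fun N _ _ => by positivity))
  refine EvN.false_evC (key.mono ?_)
  rintro N θ p ⟨⟨plt, pchn, prec, pnf, pllv, plln, pno⟩, hN, hθ, hθ1, hp⟩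
  obtain ⟨ε, hε⟩ : ∃ ε : ℝ, ε = 1 / (64 * (N * (M₀ + 4)) + 1) := ⟨_, rfl⟩
  rw [← hε] at hp
  have hε0 : 0 < ε := by rw [hε]; positivity
  have hNN : N₁ ≤ N := (le_max_left _ _).trans hN
  have hN1 : 1 ≤ N := (le_max_right _ _).trans hN
  have hNT : 4 * (T + 2) ≤ N := hN₁.trans (by exact_mod_cast hNN)
  have hL := hp.cellL (L := Kt.L p.k) hβ rfl (fun _ => rfl) (hlaw p.k) (hlow p.k) plt
  have hn1 : 1 ≤ n₀ + 1 := by omega
  obtain ⟨M, hM, mic⟩ := hmic (lamS (n₀ + 1) p.ml) (gamS (n₀ + 1) p.la p.ml)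
    (lamS_ge (n₀ + 1) p.ml) (hL.lamS_le hn1) (gamS_ge (n₀ + 1) p.la p.ml) (hL.gamS_le hn1) (by
      unfold gamS CP.la CP.ml
      rw [if_pos ⟨hn1, le_rfl⟩, Nat.add_sub_cancel, dif_neg (lt_irrefl n₀), dif_neg (lt_irrefl n₀)]
      refine le_max_of_le_right ?_
      linarith only [hp.cell.gam])
  obtain ⟨b, e, hnear, hchn⟩ := pchn M hM
  -- the grid
  obtain ⟨G, hG⟩ : ∃ G : RG m, G = Kt.grid K' s₁ sh p N M θ b e := ⟨_, rfl⟩
  obtain ⟨ζ, hζ⟩ : ∃ ζ, ζ = msh p.X N M := ⟨_, rfl⟩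
  have hX := hL.pos
  have hζ0 : 0 < ζ := by rw [hζ]; exact msh_pos hX hN1
  have hN1' : (1 : ℝ) ≤ N := by exact_mod_cast hN1
  have hMM : (M : ℝ) ≤ M₀ := by exact_mod_cast hM
  have hM0 : (0 : ℝ) ≤ M := Nat.cast_nonneg M
  have e1 : N * ((M + 4) * ζ) = p.X := by rw [hζ]; exact msh_mul hN1
  have hMζ : ((M : ℝ) + 4) * ζ ≤ p.X := by
    rw [← e1]
    exact le_mul_of_one_le_left (by positivity) hN1'
  have hdep := hL.dep
  have hwin := hL.win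
  have htop := hL.top
  have hthin : p.y.1 + (M + 1) * ζ < p.y.1 + p.y.2 := by linarith only [hMζ, hζ0, hdep]
  have htop' : p.y.1 + p.y.2 + (M + 1) * ζ < 1 := by linarith only [hMζ, hζ0, htop, hX]
  have hϖ : 0 ≤ p.y.1 := hX.le.trans hwin
  have hεN : ε * (64 * (N * (M + 4))) ≤ 1 := by
    have h1 : (64 : ℝ) * (N * (M + 4)) ≤ 64 * (N * (M₀ + 4)) + 1 := by
      have := mul_le_mul_of_nonneg_left (show (M : ℝ) + 4 ≤ M₀ + 4 by linarith only [hMM])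
        (show (0 : ℝ) ≤ N by linarith only [hN1'])
      linarith only [this]
    rw [hε, one_div, inv_mul_le_iff₀ (by positivity)]
    linarith only [h1]
  have hε4 : ε ≤ 1 / 4 := by
    have h1 : (64 : ℝ) * 4 ≤ 64 * (N * (M + 4)) := by nlinarith only [hN1', hM0]
    nlinarith only [hεN, hε0, h1]
  have hθζ : θ * ζ ≤ ζ / 16 := by nlinarith only [hθ1, hζ0]
  have hnum : ∀ i ≤ M, ∀ j ≤ M, ∀ l < n₀ + 1, |b i j l - Kt.L p.k l
      (p.y.1 + p.y.2 + i * msh p.X N M) (p.y.1 + j * msh p.X N M)| ≤ msh p.X N M / 16 := by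
    intro i hi j hj l hl
    have h1 := hnear.up i hi j hj l (by omega)
    have h2 := hnear.lo i hi j hj l (by omega)
    rw [← hζ] at h1 h2 ⊢
    rw [abs_le]
    constructor
    · linarith only [h2, hθζ]
    · linarith only [h1, hζ0]
  have hbpos : ∀ i ≤ M, ∀ j ≤ M, ∀ l < n₀ + 1, 0 < b i j l := by
    intro i hi j hj l hl
    have h2 := hnear.lo i hi j hj l (by omega)
    rw [← hζ] at h2
    have hi' : (i : ℝ) ≤ M := by exact_mod_cast hi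
    have hj' : (j : ℝ) ≤ M := by exact_mod_cast hj
    have i0 : 0 ≤ (i : ℝ) * ζ := by positivity
    have j0 : 0 ≤ (j : ℝ) * ζ := by positivity
    have i1 : (i : ℝ) * ζ ≤ M * ζ := mul_le_mul_of_nonneg_right hi' hζ0.le
    have j1 : (j : ℝ) * ζ ≤ M * ζ := mul_le_mul_of_nonneg_right hj' hζ0.le
    have h3 := hlow p.k l (by omega) (p.y.1 + p.y.2 + i * ζ) (p.y.1 + j * ζ)
      (by linarith only [hϖ, j0]) (by linarith only [hMζ, hdep, i0, j1, hζ0])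
      (by linarith only [htop', i1, hζ0])
    linarith only [h2, h3, hθζ, hMζ, hdep, hwin, i0, hζ0, hX, mul_nonneg hM0 hζ0.le]
  have hsz : ∀ i ≤ M, ∀ j ≤ M, ∀ l < n₀ + 1, b i j l + e i j + (M + 1) * ζ < 1 := by
    intro i hi j hj l hl
    have h1 := hnear.up i hi j hj l (by omega)
    have h2 := hnear.e1 i hi j hj
    have h3 := hL.grid_lt (N := N) (M := M) hN1 hNT hε4 hl (Nat.cast_nonneg (α := ℝ) i)
      (by have : (i : ℝ) ≤ M := by exact_mod_cast hi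
          linarith only [this]) (Nat.cast_nonneg (α := ℝ) j)
      (by have : (j : ℝ) ≤ M := by exact_mod_cast hj
          linarith only [this])
    rw [← hζ] at h1 h2 h3
    linarith only [h1, h2, h3, hθζ, hMζ, hζ0, hX]
  have hbn : (1 : ℝ) ≤ (M : ℝ) + 1 := by linarith only [hM0]
  have hM3 : ((M : ℝ) + 1) ^ 3 ≤ ((M₀ : ℝ) + 1) ^ 3 :=
    pow_le_pow_left₀ (by positivity) (by linarith only [hMM]) 3
  have hkM := mul_le_mul_of_nonneg_right hM3 hk0.le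
  -- the labels
  have hgrd : Lg S fun _ F A => ∃ D : GDat F, G.Ok F D A := by
    have h1 := hgr (X := Kt.XC p N M θ) (Kt.her p N M θ) (S := S) (M := M) (c := Kt.cs p.k)
      (α := p.y.1 + p.y.2) (ϖ := p.y.1) (ζ := msh p.X N M) (e := e) (b := b) hϖ
      (by rw [← hζ]; exact hζ0) (by rw [← hζ]; exact hthin) (by rw [← hζ]; exact htop')
      (hinj p.k) hbpos hchn
    refine h1.mono 0 ?_
    rintro J - F A ⟨-, -, -, D, hD, hX⟩
    rw [hG]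
    exact ⟨D, hD, hX⟩
  have hrec := prec M hM b e hnear
  have hpos' : Bas S (fun _ F A => 0 < Pe F.p A) :=
    ⟨1, one_pos, 0, fun J _ F A hA => hpos 1 J F A hA⟩
  have hok := hasm (S := S) (X := Kt.XC p N M θ) (M := M) (c := Kt.cs p.k)
    (α := p.y.1 + p.y.2) (ϖ := p.y.1) (ζ := msh p.X N M) (e := e) (b := b)
    (ρ := fun J F => Kt.rc p N M θ J F) (lam := lamS (n₀ + 1) p.ml)
    (gam := gamS (n₀ + 1) p.la p.ml) (κ := κ) (k := k) (C₂ := C₂) (C₁ := C₁) hϖ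
    (by rw [← hζ]; exact hζ0) (by rw [← hζ]; exact hthin) (by rw [← hζ]; exact htop')
    (hinj p.k) hbpos hnear.e0
    (fun i hi j hj l hl => by rw [← hζ]; exact hsz i hi j hj l (by omega)) hk0 c1
    (by linarith only [hk1, hkM]) (by linarith only [hk2, hkM, c2])
    (hL.num hn1 hN1 hNT hε0.le hεN c4 hnum fun i hi j hj l hl => (hbpos i hi j hj l hl).le)
    hpos' (Fld.iff_x.1 hrec)
  have htmU := tmU_of_fld (S := S) (G := G) (fun J F => Kt.rc p N M θ J F) hCT htm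
    (by rw [hG]; show 0 < msh p.X N M; rw [← hζ]; exact hζ0)
    (by rw [hG]; show p.y.1 ≤ 1; linarith only [htop, hX, hdep]) hκ
  have hnf' := nf_of_fld (G := G) (ρ := fun J F => Kt.rc p N M θ J F) hpos
    (by rw [hG]; exact pnf M hM b e hnear) hη
  refine grid_false hS (G := G) (ρ := fun J F => Kt.rc p N M θ J F) (A := 1) (B := B) (Rr := Rr)
    (K'' := K'') (z₀ := z₀) (lam := lamS (n₀ + 1) p.ml) (gam := gamS (n₀ + 1) p.la p.ml)
    (C₁ := C₁) (h := h₁) (η' := η') (κ := κ) (η := η) ?_ ?_ hgrd ?_ ?_ ?_ hnf' htmU ?_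
  · rw [hG]
    show 0 < msh p.X N M
    rw [← hζ]
    exact hζ0
  · rw [hG]
    exact mic
  · rw [hG]
    exact Fld.iff_x.2 hok
  · rw [hG]
    exact pllv M hM b e hnear
  · rw [hG]
    exact plln M hM b e hnear
  · rw [hG]
    exact pno M hM b e hnear

end Pool.STAT
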