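import Pool.Agent.H78.MIC.BckX
import Pool.Agent.H6.MIC.NfE

/-!
# Grids of labels with a joint property

`GrdP`: a property of all labels of a grid, on an event. `RW`: the data of a real grid of labels with
such a property, `RW.Ok` the labels of the grid, `FldV` (numbers not bundled) and `FldW` the fields.
`asm_okw`, `nf_clsw`: the axioms of the cells (`Ok2`, helper40) and the nonfull rows (`NF1`, helper6)
for a class, records which may depend on the labels. `nf_clsE`: the rows from exactness (`ExC`,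
helper6). `no_newW`: no new label.
-/

set_option autoImplicit false

namespace Pool.STAT

open Finset MvPolynomial
open Pool.Agent.H49.Ent Pool.Agent.H32.Dense Pool.STK Pool.KS3 Pool.KA Pool.KSAT Pool.PB Pool.GEN
open Pool.K2S Pool.S6C Pool.GEN.N83
open Pool.BFL (Pb)
open CLO Pool.MIC6

variable {m : ℕ}

/-- **A joint property of the labels of a grid**, on an event. -/
abbrev GrdP (m : ℕ) : Type 1 := (J : ℕ) → (F : Fam m J) → GDat F → (F.Ω → Prop) → Prop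

/-- The property is stable under subevents. -/
def GrdP.Her (W : GrdP m) : Prop := ∀ {J : ℕ} {F : Fam m J} {D : GDat F} {A B : F.Ω → Prop},
  Sub B A → W J F D A → W J F D B

/-- All labels have a property. -/
def GrdP.ofX (X : LabX m) (M : ℕ) : GrdP m := fun _ _ D A => D.Has X M A

theorem GrdP.ofX_her {X : LabX m} (hX : X.Her) (M : ℕ) : (GrdP.ofX X M).Her :=
  fun hB h => h.sub hX hB

theorem GrdP.Her.and {W W' : GrdP m} (h : W.Her) (h' : W'.Her) :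
    GrdP.Her fun J F D A => W J F D A ∧ W' J F D A :=
  fun hB hW => ⟨h hB hW.1, h' hB hW.2⟩

/-- No property. -/
def GrdP.tt : GrdP m := fun _ _ _ _ => True

theorem GrdP.tt_her : (GrdP.tt : GrdP m).Her := fun _ _ => trivial

/-- **The data of a real grid of labels** with a joint property. -/
structure RW (m : ℕ) where
  /-- the coordinates -/
  c : ℕ → Fin m
  /-- the number of the coordinates of the labels -/
  n : ℕ
  /-- the class of the chains -/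
  K : ℕ
  /-- the class of the labels of the grid -/
  K' : ℕ
  /-- the loss in the gradients -/
  s₁ : ℕ
  /-- the losses in the sides -/
  sh : ℕ → ℕ
  /-- the size of the grid -/
  M : ℕ
  /-- the radius exponent -/
  α : ℝ
  /-- the window exponent -/
  ϖ : ℝ
  /-- the mesh -/
  ζ : ℝ
  /-- the exponents of the gradients -/
  e : ℕ → ℕ → ℝ
  /-- the sides -/
  b : ℕ → ℕ → ℕ → ℝ
  /-- the property of the labels -/
  W : GrdP m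
  /-- the property is stable under subevents -/
  her : W.Her

namespace RW

variable (G : RW m)

/-- The sides of the labels of the grid in digits. -/
noncomputable def gn (J : ℕ) (i j l : ℕ) : ℕ := ⌊G.b i j l * J⌋₊

/-- **The labels of the grid** on an event of a family. -/
def Ok {J : ℕ} (F : Fam m J) (D : GDat F) (B : F.Ω → Prop) : Prop :=
  D.Ok G.c G.n G.K G.K' G.s₁ G.sh (up G.α J) (up G.ϖ J) (up G.ζ J) G.M
    (fun i j => ⌊G.e i j * J⌋₊) (G.gn J) B ∧ G.W J F D B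

variable {G} in
theorem Ok.sub {J : ℕ} {F : Fam m J} {D : GDat F} {B B' : F.Ω → Prop} (h : G.Ok F D B)
    (hB : Sub B' B) : G.Ok F D B' := ⟨GDat.Ok.sub h.1 hB, G.her hB h.2⟩

/-- The cell of the grid. -/
noncomputable def nd {J : ℕ} {F : Fam m J} (D : GDat F) {R : ℕ → ℕ → Type}
    (ρ : (i j : ℕ) → LnT F → R i j) : NDat2 :=
  D.nd G.c G.n G.sh (up G.ϖ J) (up G.ζ J) G.M (G.gn J) ρ

/-- The grid without the property. -/
def toRG : RG m where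
  c := G.c
  n := G.n
  K := G.K
  K' := G.K'
  s₁ := G.s₁
  sh := G.sh
  M := G.M
  α := G.α
  ϖ := G.ϖ
  ζ := G.ζ
  e := G.e
  b := G.b
  X := fun _ _ _ _ _ _ _ => True
  her := fun _ _ _ _ _ _ _ _ _ _ => trivial

end RW

/-- **Fields for labels with a joint property.** -/
def FldV (S : PCl m) (W : GrdP m) (c : ℕ → Fin m) (n K K' s₁ : ℕ) (sh : ℕ → ℕ) (α ϖ ζ : ℝ)
    (M : ℕ) (e : ℕ → ℕ → ℝ) (b : ℕ → ℕ → ℕ → ℝ)
    (Φ : (J : ℕ) → (F : Fam m J) → GDat F → (F.Ω → ℝ) → Prop) : Prop :=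
  Bas S (fun J F A => ∀ D : GDat F, D.Ok c n K K' s₁ sh (up α J) (up ϖ J) (up ζ J) M
    (fun i j => ⌊e i j * J⌋₊) (fun i j l => ⌊b i j l * J⌋₊) A → W J F D A →
    Φ J F D (Pool.Agent.H49.Ent.cond F.p A True))

/-- **A field**: it holds for the labels of the grid on all events of the class, for the law of the
event. -/
def FldW (S : PCl m) (G : RW m) (Φ : FldT m) : Prop :=
  Bas S fun J F B => ∀ D : GDat F, G.Ok F D B → Φ J F D (Pool.Agent.H49.Ent.cond F.p B True)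

section fldw

variable {S S' : PCl m} {G : RW m} {Φ Ψ : FldT m}

/-- The fields, numbers not bundled. -/
theorem FldW.iff_v : FldW S G Φ ↔
    FldV S G.W G.c G.n G.K G.K' G.s₁ G.sh G.α G.ϖ G.ζ G.M G.e G.b Φ :=
  ⟨fun h => Bas.mono 0 h fun _ _ _ _ h1 D hD hX => h1 D ⟨hD, hX⟩,
    fun h => Bas.mono 0 h fun _ _ _ _ h1 D hD => h1 D hD.1 hD.2⟩

theorem FldW.and (h : FldW S G Φ) (h' : FldW S G Ψ) :
    FldW S G fun J F D q => Φ J F D q ∧ Ψ J F D q :=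
  Bas.mono 0 (Bas.and h h') fun _ _ _ _ ⟨h1, h2⟩ D hD => ⟨h1 D hD, h2 D hD⟩

theorem FldW.mono (J₂ : ℕ) (h : FldW S G Φ) (hΨ : ∀ J ≥ J₂, ∀ (F : Fam m J) (D : GDat F)
    (q : F.Ω → ℝ), Φ J F D q → Ψ J F D q) : FldW S G Ψ :=
  Bas.mono J₂ h fun J hJ F _ h1 D hD => hΨ J hJ F D _ (h1 D hD)

theorem FldW.sub (hs : ∀ (τ : ℝ) (J : ℕ) (F : Fam m J) (A : F.Ω → Prop),
    S'.St τ J F A → S.St τ J F A) (h : FldW S G Φ) : FldW S' G Φ := Bas.sub hs h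

/-- A property of the family only. -/
theorem FldW.of_bas {Φ : (J : ℕ) → (F : Fam m J) → (F.Ω → ℝ) → Prop}
    (h : Bas S (fun J F A => Φ J F (Pool.Agent.H49.Ent.cond F.p A True))) :
    FldW S G (fun J F _ q => Φ J F q) :=
  Bas.mono 0 h fun _ _ _ _ hA _ _ => hA

/-- **A field for all large events** `E` of the events of the class. -/
theorem FldW.ev (hpos : ∀ (τ : ℝ) (J : ℕ) (F : Fam m J) (A : F.Ω → Prop), S.St τ J F A →
    0 < Pe F.p A) (h : FldW S G Φ) {η : ℝ} (hη : 0 < η) :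
    FldW S G fun J F D q => ∀ E : F.Ω → Prop, η ≤ Pb q E →
      Φ J F D (Pool.Agent.H49.Ent.cond q E True) := by
  have h1 := Pool.LBK.Bas.ev h hη
  have hp : Bas S (fun _ F A => 0 < Pe F.p A) := ⟨1, one_pos, 0, fun J _ F A hA => hpos 1 J F A hA⟩
  refine Bas.mono 0 (h1.and hp) ?_
  rintro J - F B ⟨h1, hB⟩ D hD E hE
  have hsub : Sub (fun ω => B ω ∧ E ω) B := fun ω hω => hω.1
  have h3 : Pb (Pool.Agent.H49.Ent.cond F.p B True) E ≤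
      Pb (Pool.Agent.H49.Ent.cond F.p B True) fun ω => B ω ∧ E ω := by
    classical
    unfold Pb
    refine Finset.sum_le_sum fun ω _ => ?_
    have h0 := cond_nonneg F.isLaw.nonneg B True ω
    by_cases h5 : E ω
    · by_cases h6 : B ω
      · simp [h5, h6]
      · have h7 : Pool.Agent.H49.Ent.cond F.p B True ω = 0 := by
          unfold Pool.Agent.H49.Ent.cond
          simp [h6]
        simp [h5, h6, h7]
    · rw [if_neg h5]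
      split_ifs <;> first | exact h0 | exact le_rfl
  have h4 : η * Pe F.p B ≤ Pe F.p fun ω => B ω ∧ E ω := by
    rw [← Pool.LBK.Pb_cond_sub hsub hB]
    exact mul_le_mul_of_nonneg_right (hE.trans h3) hB.le
  have h5 : 0 < Pe F.p fun ω => B ω ∧ E ω := (mul_pos hη hB).trans_le h4
  rw [cond_and hB h5]
  exact h1 _ hsub h4 D (hD.sub hsub)

end fldw

/-- **The axioms of a cell, for a class**, records which depend on the labels. -/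
theorem asm_okw (n K K' s₁ : ℕ) (sh : ℕ → ℕ) (hK' : 1 ≤ K') : ∃ C₀ : ℝ, 0 ≤ C₀ ∧
    ∀ {m : ℕ} {S : PCl m} {W : GrdP m} {M : ℕ} {c : ℕ → Fin m} {α ϖ ζ : ℝ}
    {e : ℕ → ℕ → ℝ} {b : ℕ → ℕ → ℕ → ℝ}
    {R : (J : ℕ) → (F : Fam m J) → GDat F → ℕ → ℕ → Type}
    {ρ : (J : ℕ) → (F : Fam m J) → (D : GDat F) → (i j : ℕ) → LnT F → R J F D i j}
    {lam gam : ℕ → ℝ}
    {κ k C₂ C₁ : ℝ}, 0 ≤ ϖ → 0 < ζ → ϖ + (M + 1) * ζ < α → α + (M + 1) * ζ < 1 → Inj c n →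
    (∀ i ≤ M, ∀ j ≤ M, ∀ l < n, 0 < b i j l) → (∀ i ≤ M, ∀ j ≤ M, 0 ≤ e i j) →
    (∀ i ≤ M, ∀ j ≤ M, ∀ l < n - 1, b i j l + e i j + (M + 1) * ζ < 1) → 0 < k →
    C₀ ≤ C₁ → 2 * k + (M + 1) ^ 3 * k ≤ κ → C₂ + 1 + (M + 1) ^ 3 * k ≤ C₁ →
    (∃ J₁ : ℕ, ∀ J ≥ J₁, CDat2.Num2 n J (up α J) (up ϖ J) (up ζ J) M lam gam
      (fun i j l => ⌊b i j (l - 1) * J⌋₊ - sh l) C₁) →
    Bas S (fun _ F A => 0 < Pe F.p A) →
    FldV S W c n K K' s₁ sh α ϖ ζ M e b (fun J F D q =>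
      RcF F (ρ J F D) (up ϖ J) (up ζ J) M (k * up ζ J) (C₂ * up ζ J) q ∧
      ValF D (ρ J F D) (up ϖ J) (up ζ J) M (k * up ζ J) q ∧
      ExF F c n sh (ρ J F D) (up ϖ J) (up ζ J) M (fun i j l => ⌊b i j l * J⌋₊)
        (k * up ζ J) q) →
    FldV S W c n K K' s₁ sh α ϖ ζ M e b (fun J F D q =>
      (D.nd c n sh (up ϖ J) (up ζ J) M (fun i j l => ⌊b i j l * J⌋₊) (ρ J F D)).Ok2 n K' J
        (up α J) (up ϖ J) (up ζ J) M lam gam κ C₁ q) := by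
  obtain ⟨C₀, s₂, hC₀, hok⟩ := ok2_fam n K K' s₁ sh hK'
  refine ⟨C₀, hC₀, ?_⟩
  intro m S W M c α ϖ ζ e b R ρ lam gam κ k C₂ C₁ hϖ hζ hthin htop hc hb he hsz hk hC hκ hC₂ hN
    hpos hf
  obtain ⟨J₀, hN⟩ := hN
  obtain ⟨J₁, hev⟩ := grid_ev hϖ hζ hthin htop
  obtain ⟨J₂, hflo⟩ := flo_ev hb sh
  obtain ⟨J₃, hsi⟩ := siz_ev (n := n) hζ he (fun i hi j hj l hl => hb i hi j hj l (by omega)) hsz
    s₂
  obtain ⟨J₄, hkz⟩ := kz_ev hk hζ C₀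
  refine Bas.mono (max (max J₀ J₁) (max J₂ (max J₃ J₄))) (Bas.and hpos hf)
    fun J hJ F A hA D hD hDX => ?_
  obtain ⟨f1, f2⟩ := hA
  obtain ⟨g1, g2, g3⟩ := f2 D hD hDX
  have j0 : J₀ ≤ J := ((le_max_left _ _).trans (le_max_left _ _)).trans hJ
  have j1 : J₁ ≤ J := ((le_max_right _ _).trans (le_max_left _ _)).trans hJ
  have j2 : J₂ ≤ J := ((le_max_left _ _).trans (le_max_right _ _)).trans hJ
  have j3 : J₃ ≤ J := ((le_max_left _ _).trans ((le_max_right _ _).trans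
    (le_max_right _ _))).trans hJ
  have j4 : J₄ ≤ J := ((le_max_right _ _).trans ((le_max_right _ _).trans
    (le_max_right _ _))).trans hJ
  exact hok hD hc (hev J j1).2.2 hC hκ hC₂ (hkz J j4) (hN J j0)
    (fun i hi j hj l hl => hflo J j2 i hi j hj l (by omega)) (hsi J j3)
    (isLaw_cond F.isLaw f1) (fun ω hω => Pool.PB.End.of_cond_pos hω) g1 g2 g3

/-- **The rows of the cells of the real grid, for a class**, records which depend on the labels. -/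
theorem nf_clsw (n K K' s₁ : ℕ) (sh : ℕ → ℕ) (hn : 1 ≤ n) (hK' : 1 ≤ K') (Λ : ℕ) {C₁ : ℝ}
    (hC₁ : 0 ≤ C₁) : ∃ B₀ : ℕ, 1 ≤ B₀ ∧ ∀ B ≥ B₀, ∀ M : ℕ, ∃ k₀ : ℝ, 0 < k₀ ∧
    ∀ {m : ℕ} {S : PCl m} {W : GrdP m} {c : ℕ → Fin m} {α ϖ ζ : ℝ} {e : ℕ → ℕ → ℝ}
    {b : ℕ → ℕ → ℕ → ℝ} {R : (J : ℕ) → (F : Fam m J) → GDat F → ℕ → ℕ → Type}
    {ρ : (J : ℕ) → (F : Fam m J) → (D : GDat F) → (i j : ℕ) → LnT F → R J F D i j}
    {lam gam : ℕ → ℝ}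
    {k C₂ κ' h A₀ B₁ η : ℝ} {r : ℝ → ℝ},
    0 < ζ → 0 ≤ k → k ≤ k₀ → Inj c n →
    (∀ i : Fin m, i ≠ c (n - 1) → ∃ l < n - 1, c l = i) →
    (∀ l, 1 ≤ l → l ≤ n → lam l + 2 * C₁ ≤ Λ) →
    (∀ i ≤ M, ∀ j ≤ M, 0 ≤ e i j) → (∀ i ≤ M, ∀ j ≤ M, ∀ l < n, 0 < b i j l) →
    (∀ i ≤ M, ∀ j ≤ M, ∀ l < n, b i j l + e i j + (B * M + 1) * ζ < 1) →
    (∀ i i' : ℕ, i ≤ i' → i' ≤ M → ∀ j ≤ M, ∀ l < n, b i j l ≤ b i' j l) →
    0 ≤ A₀ → B₁ ≤ 1 →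
    (∀ i ≤ M, ∀ j ≤ M, A₀ + ζ ≤ b i j (n - 1) ∧ b i j (n - 1) + (M + 1) * ζ ≤ B₁) →
    0 ≤ h → h ≤ 1 → 0 ≤ η → η ≤ ζ / 2 → Pool.STR.NfB r h η A₀ B₁ →
    (∀ (τ : ℝ) (J : ℕ) (F : Fam m J) (A : F.Ω → Prop), S.St τ J F A → 0 < Pe F.p A) →
    Bas S (fun _ F _ => Zc F) → Pool.ALL.RateOf S (c (n - 1)) r →
    FldV S W c n K K' s₁ sh α ϖ ζ M e b (fun J F D q =>
      RcF F (ρ J F D) (up ϖ J) (up ζ J) M (k * up ζ J) (C₂ * up ζ J) q ∧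
      ValF D (ρ J F D) (up ϖ J) (up ζ J) M (k * up ζ J) q ∧
      ExF F c n sh (ρ J F D) (up ϖ J) (up ζ J) M (fun i j l => ⌊b i j l * J⌋₊)
        (k * up ζ J) q) →
    FldV S W c n K K' s₁ sh α ϖ ζ M e b (fun J F D q =>
      (D.nd c n sh (up ϖ J) (up ζ J) M (fun i j l => ⌊b i j l * J⌋₊) (ρ J F D)).Ok2 n K' J
        (up α J) (up ϖ J) (up ζ J) M lam gam κ' C₁ q) →
    FldV S W c n K K' s₁ sh α ϖ ζ M e b (fun J F D q =>
      NF0 (D.nd c n sh (up ϖ J) (up ζ J) M (fun i j l => ⌊b i j l * J⌋₊) (ρ J F D)) n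
        (up ζ J) M B h (2 * C₁ + 2) q) := by
  obtain ⟨B₀, s₂, hB₀, hfam⟩ := nf_fam0 n K K' s₁ sh hn hK' Λ hC₁
  refine ⟨B₀, hB₀, fun B hB M => ?_⟩
  obtain ⟨κ₀, z₀, hκ₀, hfam⟩ := hfam B hB M
  have hM3 : (0 : ℝ) < 1 + (M + 1) ^ 3 := by positivity
  refine ⟨κ₀ / (1 + (M + 1) ^ 3), by positivity, ?_⟩
  intro m S W c α ϖ ζ e b R ρ lam gam k C₂ κ' h A₀ B₁ η r hζ hk hk1 hc hcov hlam he hb hsz hmon hA₀
    hB₁ hlev hh hh1 hη hη1 hnf hpos hZ hR hr hok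
  rw [le_div_iff₀ hM3] at hk1
  have hk2 : k + (M + 1) ^ 3 * k ≤ κ₀ := by linarith
  have hAB : A₀ ≤ B₁ := by
    obtain ⟨l1, l2⟩ := hlev 0 (Nat.zero_le M) 0 (Nat.zero_le M)
    have : (0 : ℝ) ≤ (M + 1) * ζ := by positivity
    linarith
  have hrb := rate_box hpos (fun J F ω => oth (c (n - 1)) J F (ptr F J ω)) (c (n - 1))
    (ρ := r) hR.num hA₀ hAB hB₁ hh hh1 hη hnf (e := ζ / 2) (by positivity)
  have hP : Bas S (fun _ F A => 0 < Pe F.p A) := ⟨1, one_pos, 0, fun J _ F A hA => hpos 1 J F A hA⟩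
  obtain ⟨J₁, hlv⟩ := lev_ev (B₁ := B₁) hA₀ hζ M (sh n)
  obtain ⟨J₂, hflo⟩ := flo_ev hb sh
  obtain ⟨J₃, hsi⟩ := sizY_ev (hB₀.trans hB) hζ he hb hsz s₂
  obtain ⟨J₄, hJ₄⟩ := exists_nat_ge ((z₀ : ℝ) / ζ)
  refine Bas.mono (max (max J₁ J₂) (max J₃ J₄)) (Bas.and (Bas.and hP hZ)
    (Bas.and (Bas.and hr hok) hrb)) fun J hJ F A hA D hD hX => ?_
  obtain ⟨⟨f1, f2⟩, ⟨f3, f6⟩, f7⟩ := hA
  obtain ⟨f3, f4, f5⟩ := f3 D hD hX
  have j1 : J₁ ≤ J := ((le_max_left _ _).trans (le_max_left _ _)).trans hJ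
  have j2 : J₂ ≤ J := ((le_max_right _ _).trans (le_max_left _ _)).trans hJ
  have j3 : J₃ ≤ J := ((le_max_left _ _).trans (le_max_right _ _)).trans hJ
  have j4 : J₄ ≤ J := ((le_max_right _ _).trans (le_max_right _ _)).trans hJ
  have hz : z₀ ≤ up ζ J := by
    have h8 : (J₄ : ℝ) ≤ J := by exact_mod_cast j4
    have h9 : (z₀ : ℝ) / ζ ≤ J := hJ₄.trans h8
    rw [div_le_iff₀ hζ] at h9
    have h10 : ζ * J ≤ up ζ J := up_ge ζ J
    have h11 : (z₀ : ℝ) ≤ up ζ J := by linarith only [h9, h10]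
    exact_mod_cast h11
  have hJ0 : (0 : ℝ) ≤ J := Nat.cast_nonneg J
  refine hfam hD hc hcov hz hk hk2 hlam
    (fun i hi j hj l hl => hflo J j2 i hi j hj l hl)
    (fun i i' hii hi' j hj l hl => Nat.floor_le_floor
      (mul_le_mul_of_nonneg_right (hmon i i' hii hi' j hj l hl) hJ0))
    (hsi J j3) (isLaw_cond F.isLaw f1) (fun ω hω => Pool.PB.End.of_cond_pos hω)
    (fun ω ω' hω hω' => f2 ω ω' ((cond_pos_iff F.isLaw.nonneg _ _ _).1 hω).1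
      ((cond_pos_iff F.isLaw.nonneg _ _ _).1 hω').1) f3 f4 f5 (f6 D hD hX) ?_
  rintro P Q hPQ ⟨i, hi, j, hj, k1, k2⟩
  obtain ⟨l1, l2⟩ := hlev i hi j hj
  obtain ⟨m1, m2⟩ := hlv J j1 _ l1 l2
  have k1' : ((⌊b i j (n - 1) * J⌋₊ - sh n : ℕ) : ℝ) ≤ P := by exact_mod_cast k1
  have k2' : (Q : ℝ) ≤ ((⌊b i j (n - 1) * J⌋₊ - sh n + M * up ζ J : ℕ) : ℝ) := by
    exact_mod_cast k2
  refine (f7 P Q (m1.trans k1') hPQ (k2'.trans m2)).trans ?_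
  have h10 : ζ * J ≤ up ζ J := up_ge ζ J
  have h11 : (η + ζ / 2) * J ≤ ζ * J := mul_le_mul_of_nonneg_right (by linarith) hJ0
  linarith

/-- **The rows of the cells of the real grid, for a class**, from exactness. -/
theorem nf_clsE (n K K' s₁ : ℕ) (sh : ℕ → ℕ) (hn : 1 ≤ n) (hK' : 1 ≤ K') (Λ : ℕ) {C₁ : ℝ}
    (hC₁ : 0 ≤ C₁) : ∃ B₀ : ℕ, 1 ≤ B₀ ∧ ∀ B ≥ B₀, ∀ M : ℕ, ∃ k₀ : ℝ, 0 < k₀ ∧
    ∀ {m : ℕ} {S : PCl m} {W : GrdP m} {c : ℕ → Fin m} {α ϖ ζ : ℝ} {e : ℕ → ℕ → ℝ} {b : ℕ → ℕ → ℕ → ℝ}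
    {R : (J : ℕ) → (F : Fam m J) → GDat F → ℕ → ℕ → Type}
    {ρ : (J : ℕ) → (F : Fam m J) → (D : GDat F) → (i j : ℕ) → LnT F → R J F D i j} {lam gam : ℕ → ℝ}
    {k κ' h A₀ B₁ η : ℝ} {r : ℝ → ℝ},
    0 < ζ → 0 ≤ k → k ≤ k₀ → Inj c n →
    (∀ i : Fin m, i ≠ c (n - 1) → ∃ l < n - 1, c l = i) →
    (∀ l, 1 ≤ l → l ≤ n → lam l + 2 * C₁ ≤ Λ) →
    (∀ i ≤ M, ∀ j ≤ M, 0 ≤ e i j) → (∀ i ≤ M, ∀ j ≤ M, ∀ l < n, 0 < b i j l) →
    (∀ i ≤ M, ∀ j ≤ M, ∀ l < n, b i j l + e i j + (B * M + 1) * ζ < 1) →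
    (∀ i i' : ℕ, i ≤ i' → i' ≤ M → ∀ j ≤ M, ∀ l < n, b i j l ≤ b i' j l) →
    0 ≤ A₀ → B₁ ≤ 1 →
    (∀ i ≤ M, ∀ j ≤ M, A₀ + ζ ≤ b i j (n - 1) ∧ b i j (n - 1) + (M + 1) * ζ ≤ B₁) →
    0 ≤ h → h ≤ 1 → 0 ≤ η → η ≤ ζ / 2 → Pool.STR.NfB r h η A₀ B₁ →
    (∀ (τ : ℝ) (J : ℕ) (F : Fam m J) (A : F.Ω → Prop), S.St τ J F A → 0 < Pe F.p A) →
    Bas S (fun _ F _ => Zc F) → Pool.ALL.RateOf S (c (n - 1)) r →
    FldV S W c n K K' s₁ sh α ϖ ζ M e b (fun J F D q =>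
      ExC D c n sh (ρ J F D) (up ϖ J) (up ζ J) M (fun i j l => ⌊b i j l * J⌋₊)
        (k * up ζ J) q) →
    FldV S W c n K K' s₁ sh α ϖ ζ M e b (fun J F D q =>
      (D.nd c n sh (up ϖ J) (up ζ J) M (fun i j l => ⌊b i j l * J⌋₊) (ρ J F D)).Ok2 n K' J
        (up α J) (up ϖ J) (up ζ J) M lam gam κ' C₁ q) →
    FldV S W c n K K' s₁ sh α ϖ ζ M e b (fun J F D q =>
      NF0 (D.nd c n sh (up ϖ J) (up ζ J) M (fun i j l => ⌊b i j l * J⌋₊) (ρ J F D)) n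
        (up ζ J) M B h (2 * C₁ + 2) q) := by
  obtain ⟨B₀, s₂, hB₀, hfam⟩ := nf_famC n K K' s₁ sh hn hK' Λ hC₁
  refine ⟨B₀, hB₀, fun B hB M => ?_⟩
  obtain ⟨κ₀, z₀, hκ₀, hfam⟩ := hfam B hB M
  refine ⟨κ₀, hκ₀, ?_⟩
  intro m S W c α ϖ ζ e b R ρ lam gam k κ' h A₀ B₁ η r hζ hk hk1 hc hcov hlam he hb hsz hmon hA₀
    hB₁ hlev hh hh1 hη hη1 hnf hpos hZ hR hr hok
  have hAB : A₀ ≤ B₁ := by
    obtain ⟨l1, l2⟩ := hlev 0 (Nat.zero_le M) 0 (Nat.zero_le M)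
    have : (0 : ℝ) ≤ (M + 1) * ζ := by positivity
    linarith
  have hrb := rate_box hpos (fun J F ω => oth (c (n - 1)) J F (ptr F J ω)) (c (n - 1))
    (ρ := r) hR.num hA₀ hAB hB₁ hh hh1 hη hnf (e := ζ / 2) (by positivity)
  have hP : Bas S (fun _ F A => 0 < Pe F.p A) := ⟨1, one_pos, 0, fun J _ F A hA => hpos 1 J F A hA⟩
  obtain ⟨J₁, hlv⟩ := lev_ev (B₁ := B₁) hA₀ hζ M (sh n)
  obtain ⟨J₂, hflo⟩ := flo_ev hb sh
  obtain ⟨J₃, hsi⟩ := sizY_ev (hB₀.trans hB) hζ he hb hsz s₂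
  obtain ⟨J₄, hJ₄⟩ := exists_nat_ge ((z₀ : ℝ) / ζ)
  refine Bas.mono (max (max J₁ J₂) (max J₃ J₄)) (Bas.and (Bas.and hP hZ)
    (Bas.and (Bas.and hr hok) hrb)) fun J hJ F A hA D hD hX => ?_
  obtain ⟨⟨f1, f2⟩, ⟨f3, f6⟩, f7⟩ := hA
  have f5 := f3 D hD hX
  have j1 : J₁ ≤ J := ((le_max_left _ _).trans (le_max_left _ _)).trans hJ
  have j2 : J₂ ≤ J := ((le_max_right _ _).trans (le_max_left _ _)).trans hJ
  have j3 : J₃ ≤ J := ((le_max_left _ _).trans (le_max_right _ _)).trans hJ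
  have j4 : J₄ ≤ J := ((le_max_right _ _).trans (le_max_right _ _)).trans hJ
  have hz : z₀ ≤ up ζ J := by
    have h8 : (J₄ : ℝ) ≤ J := by exact_mod_cast j4
    have h9 : (z₀ : ℝ) / ζ ≤ J := hJ₄.trans h8
    rw [div_le_iff₀ hζ] at h9
    have h10 : ζ * J ≤ up ζ J := up_ge ζ J
    have h11 : (z₀ : ℝ) ≤ up ζ J := by linarith only [h9, h10]
    exact_mod_cast h11
  have hJ0 : (0 : ℝ) ≤ J := Nat.cast_nonneg J
  refine hfam hD hc hcov hz hk hk1 hlam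
    (fun i hi j hj l hl => hflo J j2 i hi j hj l hl)
    (fun i i' hii hi' j hj l hl => Nat.floor_le_floor
      (mul_le_mul_of_nonneg_right (hmon i i' hii hi' j hj l hl) hJ0))
    (hsi J j3) (isLaw_cond F.isLaw f1) (fun ω hω => Pool.PB.End.of_cond_pos hω)
    (fun ω ω' hω hω' => f2 ω ω' ((cond_pos_iff F.isLaw.nonneg _ _ _).1 hω).1
      ((cond_pos_iff F.isLaw.nonneg _ _ _).1 hω').1) f5 (f6 D hD hX) ?_
  rintro P Q hPQ ⟨i, hi, j, hj, k1, k2⟩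
  obtain ⟨l1, l2⟩ := hlev i hi j hj
  obtain ⟨m1, m2⟩ := hlv J j1 _ l1 l2
  have k1' : ((⌊b i j (n - 1) * J⌋₊ - sh n : ℕ) : ℝ) ≤ P := by exact_mod_cast k1
  have k2' : (Q : ℝ) ≤ ((⌊b i j (n - 1) * J⌋₊ - sh n + M * up ζ J : ℕ) : ℝ) := by
    exact_mod_cast k2
  refine (f7 P Q (m1.trans k1') hPQ (k2'.trans m2)).trans ?_
  have h10 : ζ * J ≤ up ζ J := up_ge ζ J
  have h11 : (η + ζ / 2) * J ≤ ζ * J := mul_le_mul_of_nonneg_right (by linarith) hJ0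
  linarith



/-- **No new label, labels with a property.** `hno`: no chains with the property `XN` above the
threshold (`Cd`: the conditions on the radius, the window and the precisions). `hlink`: the chain of a
new label has the property `XN`. -/
theorem no_newW {S : PCl m} (hpos : ∀ (τ : ℝ) (J : ℕ) (F : Fam m J) (A : F.Ω → Prop),
      S.St τ J F A → 0 < Pe F.p A)
    {G : RW m} {R : (J : ℕ) → (F : Fam m J) → GDat F → ℕ → ℕ → Type}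
    (ρ : (J : ℕ) → (F : Fam m J) → (D : GDat F) → (i j : ℕ) → LnT F → R J F D i j)
    {l i j A K'' K : ℕ}
    {η' : ℝ} (hn : G.n = l + 1) (hi : i ≤ G.M) (hj : j ≤ G.M) (hK' : 1 ≤ G.K')
    (hϖ : 0 ≤ G.ϖ) (hζ : 0 < G.ζ) (hthin : G.ϖ + (G.M + 1) * G.ζ < G.α)
    (htop : G.α + (G.M + 1) * G.ζ < 1) (hη : 0 < η') (hKK : max G.K' K'' ≤ K)
    {Cd : (J : ℕ) → ℕ → ℕ → (ℕ → ℕ) → Prop} {XN : ChX m}
    (hno : Bas S (fun J F A => ∀ (a₀ w₀ e₀ : ℕ) (g : ℕ → ℕ)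
      (Gc : PtT F → ℕ → MvPolynomial (Option (Fin m)) ℝ)
      (Hc : LnT F → ℕ → MvPolynomial (Option (Fin m)) ℝ), Cd J a₀ w₀ g →
      ChOK F G.c (l + 1) (fun _ => K) a₀ w₀ e₀ g A Gc Hc → ¬ XN J F a₀ w₀ g A Gc Hc))
    (hcd : ∃ J₁ : ℕ, ∀ J ≥ J₁, Cd J (up G.α J + i * up G.ζ J) (up G.ϖ J + j * up G.ζ J)
      (Pool.LBK.gv (fun i j l => G.gn J i j (l - 1) - G.sh l) i j l
        (G.gn J i j l - G.sh (l + 1) + A * up G.ζ J)))
    (hlink : Bas S (fun J F B => ∀ D : GDat F, G.Ok F D B → ∀ (E : F.Ω → Prop) (Gn : Pt2 F → PN)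
      (Hn : Ln2 F × ℕ → PN), Sub E B → η' * Pe F.p B ≤ Pe F.p E →
      NewOn (D.cd G.n (ρ J F D)) (cx F fun i => G.c (i - 1))
        (fun i j l => G.gn J i j (l - 1) - G.sh l) (up G.α J) (up G.ϖ J) (up G.ζ J) i j l
        (G.gn J i j l - G.sh (l + 1) + A * up G.ζ J) K'' Gn Hn E →
      XN J F (up G.α J + i * up G.ζ J) (up G.ϖ J + j * up G.ζ J)
        (Pool.LBK.gv (fun i j l => G.gn J i j (l - 1) - G.sh l) i j l
          (G.gn J i j l - G.sh (l + 1) + A * up G.ζ J)) E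
        (Pool.LBK.Gv (D.cd G.n (ρ J F D)) G.c i j l Gn)
        (Pool.LBK.Hv (D.cd G.n (ρ J F D)) G.c (up G.ϖ J) (up G.ϖ J + j * up G.ζ J) i j l Hn))) :
    FldW S G fun J F D q => ¬ (G.nd D (ρ J F D)).NewLab2 J (up G.α J) (up G.ϖ J) (up G.ζ J) i j
      G.n A K'' η' q := by
  obtain ⟨J₁, h1⟩ := grid_ev hϖ hζ hthin htop
  obtain ⟨J₂, hcd⟩ := hcd
  have hp : Bas S (fun _ F A => 0 < Pe F.p A) := ⟨1, one_pos, 0, fun J _ F A hA => hpos 1 J F A hA⟩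
  refine Bas.mono (max J₁ J₂) (Bas.and (Bas.and (Pool.LBK.Bas.ev hno hη) hlink) hp) ?_
  rintro J hJ F B ⟨⟨hb, hlk⟩, hpB⟩ D hD hN
  obtain ⟨k1, k2, k3⟩ := h1 J ((le_max_left _ _).trans hJ)
  have hjz : j * up G.ζ J ≤ (G.M + 1) * up G.ζ J := Nat.mul_le_mul_right _ (by omega)
  have hcnd := CLO.GDat.Ok.cnd hD.1 hK' (ρ J F D)
  have hqB : ∀ ω, 0 < Pool.Agent.H49.Ent.cond F.p B True ω → B ω := fun ω hω =>
    of_eq_true ((cond_pos_iff F.isLaw.nonneg B True ω).1 hω).2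
  rw [hn] at hN
  obtain ⟨E, Gn, Hn, e, hEB, hE, hdeg, hEn, hch⟩ := Pool.LBK.new_chok (C := D.cd G.n (ρ J F D))
    hcnd G.c (fun ω _ k _ => if_neg (by omega)) hi hj (by omega) (by omega)
    (cond_nonneg F.isLaw.nonneg B True) hqB hN
  have hE' : η' * Pe F.p B ≤ Pe F.p E := by
    rw [← Pool.LBK.Pb_cond_sub hEB hpB]
    exact mul_le_mul_of_nonneg_right hE hpB.le
  have hX := hlk D hD E Gn Hn hEB hE' ⟨hdeg, hEn⟩
  exact hb E hEB hE' _ _ e _ _ _ (hcd J ((le_max_right _ _).trans hJ))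
    ⟨fun y k => (hch.degG y k).trans hKK, fun s k => (hch.degH s k).trans hKK, hch.depG, hch.depH,
      hch.pos, hch.agr, hch.lip⟩ hX

/-- **No new label at all pairs of the grid.** -/
theorem no_newW_all {S : PCl m} {G : RW m} {Ψ : ℕ → ℕ → FldT m}
    (h1 : ∀ i ≤ G.M, ∀ j ≤ G.M, FldW S G (Ψ i j)) :
    FldW S G fun J F D q => ∀ i ≤ G.M, ∀ j ≤ G.M, Ψ i j J F D q := by
  classical
  have h2 : ∀ t : Finset (ℕ × ℕ), (∀ x ∈ t, x.1 ≤ G.M ∧ x.2 ≤ G.M) →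
      FldW S G fun J F D q => ∀ x ∈ t, Ψ x.1 x.2 J F D q := by
    intro t ht
    induction t using Finset.induction_on with
    | empty => exact ⟨1, one_pos, 0, fun _ _ _ _ _ _ _ i hi => absurd hi (Finset.notMem_empty i)⟩
    | insert a t _ ih =>
      have h3 := (h1 a.1 (ht a (Finset.mem_insert_self a t)).1 a.2
        (ht a (Finset.mem_insert_self a t)).2).and
        (ih fun i hi => ht i (Finset.mem_insert_of_mem hi))
      refine h3.mono 0 fun J _ F D q hq i hi => ?_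
      rcases Finset.mem_insert.1 hi with rfl | hi
      · exact hq.1
      · exact hq.2 i hi
  refine (h2 (range (G.M + 1) ×ˢ range (G.M + 1)) (by
    rintro ⟨i, j⟩ hx
    rw [Finset.mem_product, mem_range, mem_range] at hx
    exact ⟨by have := hx.1; simp only at this ⊢; omega,
      by have := hx.2; simp only at this ⊢; omega⟩)).mono 0 fun J _ F D q hq i hi j hj => ?_
  exact hq (i, j) (by
    rw [Finset.mem_product, mem_range, mem_range]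
    exact ⟨Nat.lt_succ_of_le hi, Nat.lt_succ_of_le hj⟩)

end Pool.STAT
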