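import Pool.Agent.H78.MIC.CovG
import Pool.Agent.H78.MIC.RW
import Pool.Agent.H6.MIC.NfT

/-!
# No cells from the facts of a class, abstract cells

`I ε p`: the object `p` is a cell with errors `ε` (for instance the joint cells `IsCell`, or the whole
box of a row). `EvP I Ψ`: the statement `Ψ` holds for all cells with small errors. `EvQ I Ψ`: the
same for fine grids of the cell, with sides close to the levels.

`KitP`: the coordinates, the levels, the centre, the size and the slopes of a cell, the joint property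
of the labels and the records of the lines; the records may depend on the labels of the grid.

`FactP`: what a class has to give; `evP_false`: then there are no cells with small errors.
Constructors: `grd_of_chn` (the labels of the grid from chains), `ok_P`, `nf_P` (the fields `Ok2` and
`NF1` from records, also for static cells), `nf_E` (the rows from exactness and `Ok2`).
-/

set_option autoImplicit false

namespace Pool.STAT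

open Finset MvPolynomial
open Pool.Agent.H49.Ent Pool.Agent.H32.Dense Pool.STK Pool.KS3 Pool.KA Pool.KSAT Pool.PB Pool.GEN
open Pool.K2S Pool.S6C
open Pool.LEV (Law)
open Pool.STR (Affn Nw JCB NfB NoJB2)
open CLO Pool.MIC6

variable {Θ : Type*}

/-! ### Cells with small errors -/

/-- The statement holds for all cells with small errors. -/
def EvP (I : ℝ → Θ → Prop) (Ψ : Θ → Prop) : Prop :=
  ∃ ε : ℝ, 0 < ε ∧ ∀ p : Θ, I ε p → Ψ p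

/-- A cell is a cell with larger errors. -/
structure MonoI (I : ℝ → Θ → Prop) : Prop where
  mono : ∀ {ε ε' : ℝ} {p : Θ}, I ε p → ε ≤ ε' → I ε' p

variable {I : ℝ → Θ → Prop}

theorem EvP.mono {Ψ Φ : Θ → Prop} (h1 : EvP I Ψ) (h2 : ∀ p, Ψ p → Φ p) : EvP I Φ := by
  obtain ⟨ε, hε, h1⟩ := h1
  exact ⟨ε, hε, fun p hp => h2 p (h1 p hp)⟩

theorem EvP.and (hI : MonoI I) {Ψ Φ : Θ → Prop} (h1 : EvP I Ψ) (h2 : EvP I Φ) :
    EvP I fun p => Ψ p ∧ Φ p := by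
  obtain ⟨ε, hε, h1⟩ := h1
  obtain ⟨ε', hε', h2⟩ := h2
  exact ⟨min ε ε', lt_min hε hε', fun p hp => ⟨h1 p (hI.mono hp (min_le_left _ _)),
    h2 p (hI.mono hp (min_le_right _ _))⟩⟩

/-- The errors are small. -/
theorem EvP.self (I : ℝ → Θ → Prop) {ε : ℝ} (hε : 0 < ε) : EvP I (I ε) := ⟨ε, hε, fun _ hp => hp⟩

theorem EvP.of {Ψ : Θ → Prop} (h1 : ∀ p, Ψ p) : EvP I Ψ := ⟨1, one_pos, fun p _ => h1 p⟩

/-- The statement holds for fine grids with sides close to the levels, in all cells with small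
errors. -/
def EvQ (I : ℝ → Θ → Prop) (Ψ : ℕ → ℝ → Θ → Prop) : Prop :=
  ∃ N₁ : ℕ, ∀ N ≥ N₁, ∃ θ₀ : ℝ, 0 < θ₀ ∧ ∀ θ : ℝ, 0 < θ → θ ≤ θ₀ → EvP I (Ψ N θ)

theorem EvQ.mono {Ψ Φ : ℕ → ℝ → Θ → Prop} (h1 : EvQ I Ψ)
    (h2 : ∀ N θ p, Ψ N θ p → Φ N θ p) : EvQ I Φ := by
  obtain ⟨N₁, h1⟩ := h1
  refine ⟨N₁, fun N hN => ?_⟩
  obtain ⟨θ₀, hθ₀, h1⟩ := h1 N hN
  exact ⟨θ₀, hθ₀, fun θ h3 h4 => (h1 θ h3 h4).mono (h2 N θ)⟩

theorem EvQ.and (hI : MonoI I) {Ψ Φ : ℕ → ℝ → Θ → Prop} (h1 : EvQ I Ψ) (h2 : EvQ I Φ) :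
    EvQ I fun N θ p => Ψ N θ p ∧ Φ N θ p := by
  obtain ⟨N₁, h1⟩ := h1
  obtain ⟨N₂, h2⟩ := h2
  refine ⟨max N₁ N₂, fun N hN => ?_⟩
  obtain ⟨θ₁, hθ₁, h1⟩ := h1 N ((le_max_left _ _).trans hN)
  obtain ⟨θ₂, hθ₂, h2⟩ := h2 N ((le_max_right _ _).trans hN)
  exact ⟨min θ₁ θ₂, lt_min hθ₁ hθ₂, fun θ h3 h4 => (h1 θ h3 (h4.trans (min_le_left _ _))).and hI
    (h2 θ h3 (h4.trans (min_le_right _ _)))⟩

/-- A statement for every `N`. -/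
theorem EvQ.of_evP {Ψ : ℕ → Θ → Prop} (h1 : ∀ N, EvP I (Ψ N)) : EvQ I fun N _ p => Ψ N p :=
  ⟨0, fun N _ => ⟨1, one_pos, fun _ _ _ => h1 N⟩⟩

/-- Large `N`, small `θ` and small errors. -/
theorem EvQ.self (I : ℝ → Θ → Prop) (N₁ : ℕ) {θ₀ : ℝ} (hθ₀ : 0 < θ₀) {ε : ℕ → ℝ → ℝ}
    (hε : ∀ N θ, 0 < θ → 0 < ε N θ) :
    EvQ I fun N θ p => N₁ ≤ N ∧ 0 < θ ∧ θ ≤ θ₀ ∧ I (ε N θ) p :=
  ⟨N₁, fun N hN => ⟨θ₀, hθ₀, fun θ h1 h2 => ⟨ε N θ, hε N θ h1, fun _ hp => ⟨hN, h1, h2, hp⟩⟩⟩⟩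

/-- Finitely many statements. -/
theorem EvQ.all (hI : MonoI I) {Ψ : ℕ → ℕ → ℝ → Θ → Prop} (M₀ : ℕ)
    (h1 : ∀ M ≤ M₀, EvQ I (Ψ M)) : EvQ I fun N θ p => ∀ M ≤ M₀, Ψ M N θ p := by
  induction M₀ with
  | zero =>
    refine (h1 0 le_rfl).mono fun N θ p h2 M hM => ?_
    obtain rfl : M = 0 := by omega
    exact h2
  | succ k ih =>
    refine ((ih fun M hM => h1 M (by omega)).and hI (h1 (k + 1) le_rfl)).mono
      fun N θ p h2 M hM => ?_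
    rcases Nat.lt_or_ge M (k + 1) with h3 | h3
    · exact h2.1 M (by omega)
    · obtain rfl : M = k + 1 := by omega
      exact h2.2

theorem EvQ.false_evP (h1 : EvQ I fun _ _ _ => False) : EvP I fun _ => False := by
  obtain ⟨N₁, h1⟩ := h1
  obtain ⟨θ₀, hθ₀, h1⟩ := h1 N₁ le_rfl
  exact h1 θ₀ hθ₀ le_rfl

/-! ### The sides -/

/-- **Sides close to the levels**, on the grid of a cell; `e` are the exponents of the gradients. -/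
structure NearE (n : ℕ) (L : ℕ → ℝ → ℝ → ℝ) (y : ℝ × ℝ) (X : ℝ) (N M : ℕ) (θ : ℝ)
    (b : ℕ → ℕ → ℕ → ℝ) (e : ℕ → ℕ → ℝ) : Prop where
  up : ∀ i ≤ M, ∀ j ≤ M, ∀ l < n,
    b i j l < L l (y.1 + y.2 + i * msh X N M) (y.1 + j * msh X N M)
  lo : ∀ i ≤ M, ∀ j ≤ M, ∀ l < n,
    L l (y.1 + y.2 + i * msh X N M) (y.1 + j * msh X N M) - θ * msh X N M ≤ b i j l
  e0 : ∀ i ≤ M, ∀ j ≤ M, 0 ≤ e i j
  e1 : ∀ i ≤ M, ∀ j ≤ M, ∀ l < n, b i j l + e i j + X ≤ 1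

theorem NearE.nearL {n N M : ℕ} {L : ℕ → ℝ → ℝ → ℝ} {θ X : ℝ} {y : ℝ × ℝ}
    {b : ℕ → ℕ → ℕ → ℝ} {e : ℕ → ℕ → ℝ} (h : NearE n L y X N M θ b e) (hθ : 0 ≤ θ) (hX : 0 ≤ X) :
    NearL n L y X N M θ b fun _ _ => 0 :=
  ⟨h.up, h.lo, fun _ _ _ _ => le_rfl, fun _ _ _ _ => mul_nonneg hθ (by unfold msh; positivity)⟩

/-- The numbers of the sides. -/
theorem CellL.sideE {n N M B : ℕ} {L : ℕ → ℝ → ℝ → ℝ} {ε T θ : ℝ} {y : ℝ × ℝ} {X : ℝ}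
    {la mu : ℕ → ℝ} (h : CellL n L ε T y X la mu) (hn : 1 ≤ n) (hN : 1 ≤ N)
    (hNT : 4 * (T + 2) ≤ N) (hNB : B + 1 ≤ N) (hB : 1 ≤ B) (hε0 : 0 ≤ ε)
    (hε : ε * (64 * (N * (M + 4))) ≤ 1) (hθ : 0 < θ) (hθ1 : θ ≤ 1 / 16)
    {b : ℕ → ℕ → ℕ → ℝ} {e : ℕ → ℕ → ℝ} (hb : NearE n L y X N M θ b e) :
    SideL n y (msh X N M) X (L (n - 1) (y.1 + y.2) y.1) B M b e := by
  have hX := h.pos
  have h1 := h.side (B := B) hn hN hNT hNB hB hε0 hε hθ hθ1 (hb.nearL hθ.le hX.le)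
  refine { h1 with siz := fun i hi j hj l hl => ?_ }
  have h2 := hb.e1 i hi j hj l hl
  have hM0 : (0 : ℝ) ≤ M := Nat.cast_nonneg M
  have hB0 : (0 : ℝ) ≤ B := Nat.cast_nonneg B
  have h3 : (B : ℝ) + 1 ≤ N := by exact_mod_cast hNB
  have e1 : N * ((M + 4) * msh X N M) = X := msh_mul hN
  have h4 : ((B : ℝ) * M + 1) < N * (M + 4) := by nlinarith only [h3, hM0, hB0]
  have h5 := mul_lt_mul_of_pos_right h4 h1.ζ0
  have h6 : (N : ℝ) * (M + 4) * msh X N M = X := by rw [mul_assoc]; exact e1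
  rw [h6] at h5
  linarith only [h2, h5]

/-! ### The kit -/

/-- **The kit of a cell**: the coordinates, the levels (`L p n₀` is the target), the centre `y` in
the plane of the windows and depths, the size `X`, the slopes of the levels in the window (`la`) and
in the depth (`ml`), the class of the chains, the joint property of the labels of a grid and the
records of the lines. -/
structure KitP (m : ℕ) (Θ : Type*) (n₀ : ℕ) where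
  /-- the coordinates -/
  cs : Θ → ℕ → Fin m
  /-- the levels -/
  L : Θ → ℕ → ℝ → ℝ → ℝ
  /-- the centre -/
  y : Θ → ℝ × ℝ
  /-- the size -/
  X : Θ → ℝ
  /-- the slopes in the window -/
  la : Θ → ℕ → ℝ
  /-- the slopes in the depth -/
  ml : Θ → ℕ → ℝ
  /-- the class of the chains -/
  K : ℕ
  /-- the joint property of the labels of a grid -/
  W : Θ → ℕ → ℕ → ℝ → GrdP m
  /-- the property is stable under subevents -/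
  her : ∀ p N M θ, (W p N M θ).Her
  /-- the types of the records -/
  RT : Θ → ℕ → ℕ → ℝ → (J : ℕ) → (F : Fam m J) → GDat F → ℕ → ℕ → Type
  /-- the records -/
  rc : (p : Θ) → (N M : ℕ) → (θ : ℝ) → (J : ℕ) → (F : Fam m J) → (D : GDat F) → (i j : ℕ) →
    LnT F → RT p N M θ J F D i j

variable {m n₀ : ℕ}

namespace KitP

variable (Kt : KitP m Θ n₀)

/-- **The grid of a cell.** -/
noncomputable def grid (K' s₁ : ℕ) (sh : ℕ → ℕ) (p : Θ) (N M : ℕ)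
    (θ : ℝ) (b : ℕ → ℕ → ℕ → ℝ) (e : ℕ → ℕ → ℝ) : RW m where
  c := Kt.cs p
  n := n₀ + 1
  K := Kt.K
  K' := K'
  s₁ := s₁
  sh := sh
  M := M
  α := (Kt.y p).1 + (Kt.y p).2
  ϖ := (Kt.y p).1
  ζ := msh (Kt.X p) N M
  e := e
  b := b
  W := Kt.W p N M θ
  her := Kt.her p N M θ

/-- **The sides are close to the levels**, and less than the levels. -/
def Near (p : Θ) (N M : ℕ) (θ : ℝ) (b : ℕ → ℕ → ℕ → ℝ) (e : ℕ → ℕ → ℝ) : Prop :=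
  NearE (n₀ + 1) (Kt.L p) (Kt.y p) (Kt.X p) N M θ b e

/-- A field for all sides which are close to the levels. -/
def FldN (S : PCl m) (K' s₁ : ℕ) (sh : ℕ → ℕ) (M N : ℕ) (θ : ℝ)
    (p : Θ) (Φ : RW m → FldT m) : Prop :=
  ∀ (b : ℕ → ℕ → ℕ → ℝ) (e : ℕ → ℕ → ℝ), Kt.Near p N M θ b e →
    FldW S (Kt.grid K' s₁ sh p N M θ b e) (Φ (Kt.grid K' s₁ sh p N M θ b e))

theorem FldN.and {Kt : KitP m Θ n₀} {S : PCl m} {K' s₁ : ℕ} {sh : ℕ → ℕ} {M N : ℕ} {θ : ℝ}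
    {p : Θ} {Φ Ψ : RW m → FldT m} (h : Kt.FldN S K' s₁ sh M N θ p Φ)
    (h' : Kt.FldN S K' s₁ sh M N θ p Ψ) :
    Kt.FldN S K' s₁ sh M N θ p fun G J F D q => Φ G J F D q ∧ Ψ G J F D q :=
  fun b e hb => (h b e hb).and (h' b e hb)

theorem FldN.mono {Kt : KitP m Θ n₀} {S : PCl m} {K' s₁ : ℕ} {sh : ℕ → ℕ} {M N : ℕ} {θ : ℝ}
    {p : Θ} {Φ Ψ : RW m → FldT m} (h : Kt.FldN S K' s₁ sh M N θ p Φ)
    (h' : ∀ (b : ℕ → ℕ → ℕ → ℝ) (e : ℕ → ℕ → ℝ) (J : ℕ) (F : Fam m J) (D : GDat F)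
      (q : F.Ω → ℝ), Φ (Kt.grid K' s₁ sh p N M θ b e) J F D q →
      Ψ (Kt.grid K' s₁ sh p N M θ b e) J F D q) :
    Kt.FldN S K' s₁ sh M N θ p Ψ :=
  fun b e hb => (h b e hb).mono 0 fun J _ F D q => h' b e J F D q

/-- The cell of the labels of a grid, with the records of the kit. -/
noncomputable def nd (p : Θ) (N M : ℕ) (θ : ℝ) (G : RW m) {J : ℕ} (F : Fam m J) (D : GDat F) :
    NDat2 := G.nd D (Kt.rc p N M θ J F D)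

/-- The records, at one grid. -/
def Rec (S : PCl m) (K' s₁ : ℕ) (sh : ℕ → ℕ) (C₂ k : ℝ) (M N : ℕ) (θ : ℝ)
    (p : Θ) : Prop :=
  Kt.FldN S K' s₁ sh M N θ p fun G J F D q =>
    RcF F (Kt.rc p N M θ J F D) (up G.ϖ J) (up G.ζ J) G.M (k * up G.ζ J) (C₂ * up G.ζ J) q ∧
    ValF D (Kt.rc p N M θ J F D) (up G.ϖ J) (up G.ζ J) G.M (k * up G.ζ J) q ∧
    ExF F G.c G.n G.sh (Kt.rc p N M θ J F D) (up G.ϖ J) (up G.ζ J) G.M (G.gn J)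
      (k * up G.ζ J) q

/-- The levels in a fine grid, with the errors of the grid. -/
theorem cel_evQ {Kt : KitP m Θ n₀} {T' : ℝ} (hc : ∀ ε' : ℝ, 0 < ε' → EvP I fun p =>
      CellL (n₀ + 1) (Kt.L p) ε' T' (Kt.y p) (Kt.X p) (Kt.la p) (Kt.ml p)) (M : ℕ) :
    EvQ I fun N _ p => CellL (n₀ + 1) (Kt.L p) (1 / (64 * (N * (M + 4)) + 1)) T' (Kt.y p) (Kt.X p)
      (Kt.la p) (Kt.ml p) :=
  EvQ.of_evP fun N => hc _ (by positivity)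

end KitP

/-! ### The axioms of the cells -/

variable {S : PCl m}

/-- **The axioms `Ok2`** of the cells of the kit, from the levels and the records. -/
theorem ok_P (hI : MonoI I)
    (hpos : ∀ (τ : ℝ) (J : ℕ) (F : Fam m J) (A : F.Ω → Prop), S.St τ J F A → 0 < Pe F.p A)
    (Kt : KitP m Θ n₀) (hinj : ∀ p, Inj (Kt.cs p) (n₀ + 1)) {K' s₁ : ℕ} {sh : ℕ → ℕ}
    (hK' : 1 ≤ K') {T' : ℝ} (fcel : ∀ ε' : ℝ, 0 < ε' → EvP I fun p =>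
      CellL (n₀ + 1) (Kt.L p) ε' T' (Kt.y p) (Kt.X p) (Kt.la p) (Kt.ml p)) :
    ∃ C₀ : ℝ, 0 ≤ C₀ ∧ ∀ (M : ℕ) (C₂ k C₁ κ : ℝ), 0 < k → C₀ ≤ C₁ → 1 ≤ C₁ →
      2 * k + ((M : ℝ) + 1) ^ 3 * k ≤ κ → C₂ + 1 + ((M : ℝ) + 1) ^ 3 * k ≤ C₁ →
      (EvQ I fun N θ p => Kt.Rec S K' s₁ sh C₂ k M N θ p) →
      EvQ I fun N θ p => Kt.FldN S K' s₁ sh M N θ p fun G J F D q =>
        (Kt.nd p N M θ G F D).Ok2 G.n G.K' J (up G.α J) (up G.ϖ J) (up G.ζ J) G.M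
          (lamS (n₀ + 1) (Kt.ml p)) (gamS (n₀ + 1) (Kt.la p) (Kt.ml p)) κ C₁ q := by
  obtain ⟨C₀, hC₀, hasm⟩ := asm_okw (n₀ + 1) Kt.K K' s₁ sh hK'
  refine ⟨C₀, hC₀, fun M C₂ k C₁ κ hk c1 c2 hκ hC₂ frec => ?_⟩
  obtain ⟨N₁, hN₁⟩ := exists_nat_ge (4 * (T' + 2))
  have key := ((KitP.cel_evQ fcel M).and hI frec).and hI
    (EvQ.self I (max N₁ 2) (θ₀ := 1 / 16) (by norm_num)
      (ε := fun N _ => 1) (fun N _ _ => one_pos))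
  refine key.mono ?_
  rintro N θ p ⟨⟨hL, prec⟩, hN, hθ, hθ1, -⟩ b e hnear
  obtain ⟨ε, hε⟩ : ∃ ε : ℝ, ε = 1 / (64 * (N * (M + 4)) + 1) := ⟨_, rfl⟩
  rw [← hε] at hL
  have hNN : N₁ ≤ N := (le_max_left _ _).trans hN
  have hN2 : 2 ≤ N := (le_max_right _ _).trans hN
  have hN1 : 1 ≤ N := by omega
  have hNT : 4 * (T' + 2) ≤ N := hN₁.trans (by exact_mod_cast hNN)
  have hε0 : 0 < ε := by rw [hε]; positivity
  have hεN : ε * (64 * (N * (M + 4))) ≤ 1 := by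
    rw [hε, one_div, inv_mul_le_iff₀ (by positivity)]
    linarith
  have hn1 : 1 ≤ n₀ + 1 := by omega
  have hs := hL.sideE (B := 1) hn1 hN1 hNT hN2 le_rfl hε0.le hεN hθ hθ1 hnear
  have hnum : ∀ i ≤ M, ∀ j ≤ M, ∀ l < n₀ + 1, |b i j l - Kt.L p l
      ((Kt.y p).1 + (Kt.y p).2 + i * msh (Kt.X p) N M) ((Kt.y p).1 + j * msh (Kt.X p) N M)| ≤
      msh (Kt.X p) N M / 16 := by
    intro i hi j hj l hl
    have h1 := hnear.up i hi j hj l (by omega)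
    have h2 := hnear.lo i hi j hj l (by omega)
    have h3 : θ * msh (Kt.X p) N M ≤ 1 / 16 * msh (Kt.X p) N M :=
      mul_le_mul_of_nonneg_right hθ1 hs.ζ0.le
    rw [abs_le]
    constructor
    · linarith only [h2, h3]
    · linarith only [h1, hs.ζ0]
  have hrec := FldW.iff_v.1 (prec b e hnear)
  have hpos' : Bas S (fun _ F A => 0 < Pe F.p A) :=
    ⟨1, one_pos, 0, fun J _ F A hA => hpos 1 J F A hA⟩
  have hok := hasm (S := S) (W := Kt.W p N M θ) (M := M) (c := Kt.cs p)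
    (α := (Kt.y p).1 + (Kt.y p).2) (ϖ := (Kt.y p).1) (ζ := msh (Kt.X p) N M) (e := e) (b := b)
    (ρ := fun J F D => Kt.rc p N M θ J F D) (lam := lamS (n₀ + 1) (Kt.ml p))
    (gam := gamS (n₀ + 1) (Kt.la p) (Kt.ml p)) (κ := κ) (k := k)
    (C₂ := C₂) (C₁ := C₁) hs.win hs.ζ0 hs.thin hs.top (hinj p) hs.pos hnear.e0
    (fun i hi j hj l hl => by
      have h1 := hs.siz i hi j hj l (by omega)
      rw [Nat.cast_one, one_mul] at h1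
      exact h1) hk c1 hκ hC₂
    (hL.num hn1 hN1 hNT hε0.le hεN c2 hnum fun i hi j hj l hl => (hs.pos i hi j hj l hl).le)
    hpos' hrec
  exact FldW.iff_v.2 hok

/-! ### The rows -/

/-- **Nonfull rows** of the cells of the kit (helper6). -/
theorem nf_P (hI : MonoI I)
    (hpos : ∀ (τ : ℝ) (J : ℕ) (F : Fam m J) (A : F.Ω → Prop), S.St τ J F A → 0 < Pe F.p A)
    (hZ : Bas S (fun _ F _ => Zc F)) (Kt : KitP m Θ n₀) (hinj : ∀ p, Inj (Kt.cs p) (n₀ + 1))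
    (hcov : ∀ p, ∀ i : Fin m, i ≠ Kt.cs p n₀ → ∃ l < n₀, Kt.cs p l = i)
    {r : ℝ → ℝ} (hR : ∀ p, Pool.ALL.RateOf S (Kt.cs p n₀) r) {K' s₁ : ℕ} {sh : ℕ → ℕ}
    (hK' : 1 ≤ K') {h : ℝ} (hh : 0 < h) (hh1 : h ≤ 1)
    (frow : ∀ ε' : ℝ, 0 < ε' → EvP I fun p => NfB r h (ε' * Kt.X p)
      (Kt.L p n₀ ((Kt.y p).1 + (Kt.y p).2) (Kt.y p).1 - Kt.X p)
      (Kt.L p n₀ ((Kt.y p).1 + (Kt.y p).2) (Kt.y p).1 + 2 * Kt.X p)) {T' : ℝ}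
    (fcel : ∀ ε' : ℝ, 0 < ε' → EvP I fun p =>
      CellL (n₀ + 1) (Kt.L p) ε' T' (Kt.y p) (Kt.X p) (Kt.la p) (Kt.ml p))
    (frec : ∃ C₂ : ℝ, ∀ k : ℝ, 0 < k → ∀ M : ℕ, EvQ I fun N θ p =>
      Kt.Rec S K' s₁ sh C₂ k M N θ p) :
    ∃ C₃ : ℝ, ∀ C₁ ≥ C₃, ∃ B : ℕ, 1 ≤ B ∧ ∀ M : ℕ,
    EvQ I fun N θ p => Kt.FldN S K' s₁ sh M N θ p fun G J F D q =>
      (Kt.nd p N M θ G F D).NF1 G.n (up G.ζ J) G.M B
        (gamS (n₀ + 1) (Kt.la p) (Kt.ml p)) h C₁ q := by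
  obtain ⟨C₀, hC₀, hokP⟩ := ok_P hI hpos Kt hinj (s₁ := s₁) (sh := sh) hK' fcel
  obtain ⟨C₂, frec⟩ := frec
  obtain ⟨C₁', hC₁'⟩ : ∃ C₁', C₁' = max (max C₀ (C₂ + 2)) 1 := ⟨_, rfl⟩
  have c1 : C₀ ≤ C₁' := by rw [hC₁']; exact (le_max_left _ _).trans (le_max_left _ _)
  have c2 : C₂ + 2 ≤ C₁' := by rw [hC₁']; exact (le_max_right _ _).trans (le_max_left _ _)
  have c3 : 1 ≤ C₁' := by rw [hC₁']; exact le_max_right _ _
  obtain ⟨Λ, hΛ⟩ := exists_nat_ge (T' + 1 + 2 * C₁')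
  obtain ⟨B, hB, hnf⟩ := nf_clsw (n₀ + 1) Kt.K K' s₁ sh (by omega) hK' Λ (C₁ := C₁')
    (by linarith only [c3])
  refine ⟨2 * C₁' + 2, fun C₁ hC₁ => ⟨B, hB, fun M => ?_⟩⟩
  obtain ⟨k₀, hk₀, hnf⟩ := hnf B le_rfl M
  have hM0 : (0 : ℝ) ≤ M := Nat.cast_nonneg M
  have hM3 : (0 : ℝ) < ((M : ℝ) + 1) ^ 3 := by positivity
  obtain ⟨k, hk⟩ : ∃ k : ℝ, k = min k₀ (1 / ((M : ℝ) + 1) ^ 3) := ⟨_, rfl⟩
  have hk0 : 0 < k := by
    rw [hk]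
    exact lt_min hk₀ (by positivity)
  have hk1 : k ≤ k₀ := by rw [hk]; exact min_le_left _ _
  have hk2 : ((M : ℝ) + 1) ^ 3 * k ≤ 1 := by
    have : k ≤ 1 / ((M : ℝ) + 1) ^ 3 := by rw [hk]; exact min_le_right _ _
    rw [le_div_iff₀ hM3] at this
    linarith only [this]
  have fok := hokP M C₂ k C₁' (2 * k + ((M : ℝ) + 1) ^ 3 * k) hk0 c1 c3 le_rfl
    (by linarith only [hk2, c2]) (frec k hk0 M)
  obtain ⟨N₁, hN₁⟩ := exists_nat_ge (4 * (T' + 2))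
  have key := (((KitP.cel_evQ fcel M).and hI (EvQ.of_evP fun N =>
    frow (1 / (64 * (N * (M + 4)) + 1)) (by positivity))).and hI
    ((frec k hk0 M).and hI fok)).and hI
    (EvQ.self I (max N₁ (B + 1)) (θ₀ := 1 / 16) (by norm_num)
      (ε := fun N _ => 1) (fun N _ _ => one_pos))
  refine key.mono ?_
  rintro N θ p ⟨⟨⟨hL, hNf⟩, prec, pok⟩, hN, hθ, hθ1, -⟩ b e hnear
  obtain ⟨ε, hε⟩ : ∃ ε : ℝ, ε = 1 / (64 * (N * (M + 4)) + 1) := ⟨_, rfl⟩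
  rw [← hε] at hL hNf
  have hNN : N₁ ≤ N := (le_max_left _ _).trans hN
  have hNB : B + 1 ≤ N := (le_max_right _ _).trans hN
  have hN1 : 1 ≤ N := by omega
  have hNT : 4 * (T' + 2) ≤ N := hN₁.trans (by exact_mod_cast hNN)
  have hε0 : 0 < ε := by rw [hε]; positivity
  have hεN : ε * (64 * (N * (M + 4))) ≤ 1 := by
    rw [hε, one_div, inv_mul_le_iff₀ (by positivity)]
    linarith
  have hn1 : 1 ≤ n₀ + 1 := by omega
  have hs := hL.sideE (B := B) hn1 hN1 hNT hNB hB hε0.le hεN hθ hθ1 hnear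
  have hX := hL.pos
  have hζ0 := hs.ζ0
  have e1 : N * ((M + 4) * msh (Kt.X p) N M) = Kt.X p := msh_mul hN1
  have hεX : ε * Kt.X p ≤ msh (Kt.X p) N M / 2 := by
    have h1 : ε * (64 * (N * (M + 4))) * msh (Kt.X p) N M ≤ 1 * msh (Kt.X p) N M :=
      mul_le_mul_of_nonneg_right hεN hζ0.le
    have h2 : ε * (64 * (N * (M + 4))) * msh (Kt.X p) N M =
      64 * (ε * (N * ((M + 4) * msh (Kt.X p) N M))) := by ring
    rw [h2, e1] at h1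
    linarith only [h1, hζ0]
  have hlow0 := hL.low n₀ (by omega) ((Kt.y p).1 + (Kt.y p).2) (Kt.y p).1 hs.win
    (by linarith only [hL.dep, hX]) (by linarith only [hL.top, hX])
  have hup0 := hL.lt n₀ (by omega)
  have hfin := hnf (S := S) (W := Kt.W p N M θ) (c := Kt.cs p)
    (α := (Kt.y p).1 + (Kt.y p).2) (ϖ := (Kt.y p).1) (ζ := msh (Kt.X p) N M) (e := e) (b := b)
    (ρ := fun J F D => Kt.rc p N M θ J F D) (lam := lamS (n₀ + 1) (Kt.ml p))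
    (gam := gamS (n₀ + 1) (Kt.la p) (Kt.ml p)) (k := k) (C₂ := C₂) (η := ε * Kt.X p) (r := r)
    (A₀ := Kt.L p n₀ ((Kt.y p).1 + (Kt.y p).2) (Kt.y p).1 - Kt.X p)
    (B₁ := Kt.L p n₀ ((Kt.y p).1 + (Kt.y p).2) (Kt.y p).1 + 2 * Kt.X p)
    hζ0 hk0.le hk1 (hinj p) (hcov p)
    (fun l _ _ => by
      have := hL.lamS_le hn1 l
      linarith only [this, hΛ]) hnear.e0 hs.pos hs.siz hs.mono
    (by linarith only [hlow0, hL.dep, hL.win, hX]) (by linarith only [hup0, hX])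
    hs.lev hh.le hh1 (by positivity) hεX hNf hpos hZ (hR p)
    (FldW.iff_v.1 (prec b e hnear)) (FldW.iff_v.1 (pok b e hnear))
  exact (FldW.iff_v.2 hfin).mono 0 fun J _ F D q hq => (hq.nf1 _).mono hC₁

/-- **Nonfull rows** of the cells of the kit, from exactness given the closed label and from `Ok2`. -/
theorem nf_E (hI : MonoI I)
    (hpos : ∀ (τ : ℝ) (J : ℕ) (F : Fam m J) (A : F.Ω → Prop), S.St τ J F A → 0 < Pe F.p A)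
    (hZ : Bas S (fun _ F _ => Zc F)) (Kt : KitP m Θ n₀) (hinj : ∀ p, Inj (Kt.cs p) (n₀ + 1))
    (hcov : ∀ p, ∀ i : Fin m, i ≠ Kt.cs p n₀ → ∃ l < n₀, Kt.cs p l = i)
    {r : ℝ → ℝ} (hR : ∀ p, Pool.ALL.RateOf S (Kt.cs p n₀) r) {K' s₁ : ℕ} {sh : ℕ → ℕ}
    (hK' : 1 ≤ K') {h : ℝ} (hh : 0 < h) (hh1 : h ≤ 1)
    (frow : ∀ ε' : ℝ, 0 < ε' → EvP I fun p => NfB r h (ε' * Kt.X p)
      (Kt.L p n₀ ((Kt.y p).1 + (Kt.y p).2) (Kt.y p).1 - Kt.X p)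
      (Kt.L p n₀ ((Kt.y p).1 + (Kt.y p).2) (Kt.y p).1 + 2 * Kt.X p)) {T' : ℝ}
    (fcel : ∀ ε' : ℝ, 0 < ε' → EvP I fun p =>
      CellL (n₀ + 1) (Kt.L p) ε' T' (Kt.y p) (Kt.X p) (Kt.la p) (Kt.ml p))
    (fexc : ∀ k : ℝ, 0 < k → ∀ M : ℕ, EvQ I fun N θ p =>
      Kt.FldN S K' s₁ sh M N θ p fun G J F D q => ExC D G.c G.n G.sh (Kt.rc p N M θ J F D)
        (up G.ϖ J) (up G.ζ J) G.M (G.gn J) (k * up G.ζ J) q)
    (fok : ∃ C₅ : ℝ, ∀ C₁ ≥ C₅, ∀ κ : ℝ, 0 < κ → ∀ M : ℕ, EvQ I fun N θ p =>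
      Kt.FldN S K' s₁ sh M N θ p fun G J F D q => (Kt.nd p N M θ G F D).Ok2 G.n G.K' J
        (up G.α J) (up G.ϖ J) (up G.ζ J) G.M (lamS (n₀ + 1) (Kt.ml p))
        (gamS (n₀ + 1) (Kt.la p) (Kt.ml p)) κ C₁ q) :
    ∃ C₃ : ℝ, ∀ C₁ ≥ C₃, ∃ B : ℕ, 1 ≤ B ∧ ∀ M : ℕ,
    EvQ I fun N θ p => Kt.FldN S K' s₁ sh M N θ p fun G J F D q =>
      (Kt.nd p N M θ G F D).NF1 G.n (up G.ζ J) G.M B
        (gamS (n₀ + 1) (Kt.la p) (Kt.ml p)) h C₁ q := by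
  obtain ⟨C₅, fok⟩ := fok
  obtain ⟨C₁', hC₁'⟩ : ∃ C₁', C₁' = max C₅ 1 := ⟨_, rfl⟩
  have c1 : C₅ ≤ C₁' := by rw [hC₁']; exact le_max_left _ _
  have c3 : 1 ≤ C₁' := by rw [hC₁']; exact le_max_right _ _
  obtain ⟨Λ, hΛ⟩ := exists_nat_ge (T' + 1 + 2 * C₁')
  obtain ⟨B, hB, hnf⟩ := nf_clsE (n₀ + 1) Kt.K K' s₁ sh (by omega) hK' Λ (C₁ := C₁')
    (by linarith only [c3])
  refine ⟨2 * C₁' + 2, fun C₁ hC₁ => ⟨B, hB, fun M => ?_⟩⟩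
  obtain ⟨k, hk0, hnf⟩ := hnf B le_rfl M
  obtain ⟨N₁, hN₁⟩ := exists_nat_ge (4 * (T' + 2))
  have key := (((KitP.cel_evQ fcel M).and hI (EvQ.of_evP fun N =>
    frow (1 / (64 * (N * (M + 4)) + 1)) (by positivity))).and hI
    ((fexc k hk0 M).and hI (fok C₁' c1 1 one_pos M))).and hI
    (EvQ.self I (max N₁ (B + 1)) (θ₀ := 1 / 16) (by norm_num)
      (ε := fun N _ => 1) (fun N _ _ => one_pos))
  refine key.mono ?_
  rintro N θ p ⟨⟨⟨hL, hNf⟩, pexc, pok⟩, hN, hθ, hθ1, -⟩ b e hnear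
  obtain ⟨ε, hε⟩ : ∃ ε : ℝ, ε = 1 / (64 * (N * (M + 4)) + 1) := ⟨_, rfl⟩
  rw [← hε] at hL hNf
  have hNN : N₁ ≤ N := (le_max_left _ _).trans hN
  have hNB : B + 1 ≤ N := (le_max_right _ _).trans hN
  have hN1 : 1 ≤ N := by omega
  have hNT : 4 * (T' + 2) ≤ N := hN₁.trans (by exact_mod_cast hNN)
  have hε0 : 0 < ε := by rw [hε]; positivity
  have hεN : ε * (64 * (N * (M + 4))) ≤ 1 := by
    rw [hε, one_div, inv_mul_le_iff₀ (by positivity)]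
    linarith
  have hn1 : 1 ≤ n₀ + 1 := by omega
  have hs := hL.sideE (B := B) hn1 hN1 hNT hNB hB hε0.le hεN hθ hθ1 hnear
  have hX := hL.pos
  have hζ0 := hs.ζ0
  have e1 : N * ((M + 4) * msh (Kt.X p) N M) = Kt.X p := msh_mul hN1
  have hεX : ε * Kt.X p ≤ msh (Kt.X p) N M / 2 := by
    have h1 : ε * (64 * (N * (M + 4))) * msh (Kt.X p) N M ≤ 1 * msh (Kt.X p) N M :=
      mul_le_mul_of_nonneg_right hεN hζ0.le
    have h2 : ε * (64 * (N * (M + 4))) * msh (Kt.X p) N M =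
      64 * (ε * (N * ((M + 4) * msh (Kt.X p) N M))) := by ring
    rw [h2, e1] at h1
    linarith only [h1, hζ0]
  have hlow0 := hL.low n₀ (by omega) ((Kt.y p).1 + (Kt.y p).2) (Kt.y p).1 hs.win
    (by linarith only [hL.dep, hX]) (by linarith only [hL.top, hX])
  have hup0 := hL.lt n₀ (by omega)
  have hfin := hnf (S := S) (W := Kt.W p N M θ) (c := Kt.cs p)
    (α := (Kt.y p).1 + (Kt.y p).2) (ϖ := (Kt.y p).1) (ζ := msh (Kt.X p) N M) (e := e) (b := b)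
    (ρ := fun J F D => Kt.rc p N M θ J F D) (lam := lamS (n₀ + 1) (Kt.ml p))
    (gam := gamS (n₀ + 1) (Kt.la p) (Kt.ml p)) (k := k) (η := ε * Kt.X p) (r := r)
    (A₀ := Kt.L p n₀ ((Kt.y p).1 + (Kt.y p).2) (Kt.y p).1 - Kt.X p)
    (B₁ := Kt.L p n₀ ((Kt.y p).1 + (Kt.y p).2) (Kt.y p).1 + 2 * Kt.X p)
    hζ0 hk0.le le_rfl (hinj p) (hcov p)
    (fun l _ _ => by
      have := hL.lamS_le hn1 l
      linarith only [this, hΛ]) hnear.e0 hs.pos hs.siz hs.mono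
    (by linarith only [hlow0, hL.dep, hL.win, hX]) (by linarith only [hup0, hX])
    hs.lev hh.le hh1 (by positivity) hεX hNf hpos hZ (hR p)
    (FldW.iff_v.1 (pexc b e hnear)) (FldW.iff_v.1 (pok b e hnear))
  exact (FldW.iff_v.2 hfin).mono 0 fun J _ F D q hq => (hq.nf1 _).mono hC₁

/-! ### The labels of the grid from chains -/

/-- **The constants of the exact labels** of chains of the class `K` with `n` coordinates: the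
labels at the points of a grid give the labels of the grid with the class `K'` and the losses `sh`
(`grd_x`). -/
def GrX (n K K' s₁ : ℕ) (sh : ℕ → ℕ) : Prop :=
  ∀ {m : ℕ} {X : LabX m}, X.Her →
    ∀ {S : PCl m} {M : ℕ} {c : ℕ → Fin m} {α ϖ ζ : ℝ} {e : ℕ → ℕ → ℝ} {b : ℕ → ℕ → ℕ → ℝ},
    0 ≤ ϖ → 0 < ζ → ϖ + (M + 1) * ζ < α → α + (M + 1) * ζ < 1 → Inj c n →
    (∀ i ≤ M, ∀ j ≤ M, ∀ l < n, 0 < b i j l) →
    (∀ i ≤ M, ∀ j ≤ M, Lg S (fun J F A =>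
      ∃ (G : PtT F → ℕ → MvPolynomial (Option (Fin m)) ℝ)
        (H : LnT F → ℕ → MvPolynomial (Option (Fin m)) ℝ),
        ChOK F c n (fun _ => K) (up α J + i * up ζ J) (up ϖ J + j * up ζ J)
          ⌊e i j * J⌋₊ (fun l => ⌊b i j l * J⌋₊) A G H ∧ X i j J F A G H)) →
    Lg S (fun J F A => up ϖ J + (M + 1) * up ζ J ≤ up α J ∧
      up α J + (M + 1) * up ζ J ≤ J ∧ 1 ≤ up ζ J ∧
      ∃ D : GDat F, D.Ok c n K K' s₁ sh (up α J) (up ϖ J) (up ζ J) M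
        (fun i j => ⌊e i j * J⌋₊) (fun i j l => ⌊b i j l * J⌋₊) A ∧ D.Has X M A)

theorem grX_ex (n K : ℕ) : ∃ (sh : ℕ → ℕ) (K' s₁ : ℕ), 1 ≤ K' ∧ GrX n K K' s₁ sh := by
  obtain ⟨sh, K', s₁, h1, h2⟩ := grd_x n K
  exact ⟨sh, K', s₁, h1, h2⟩

/-- **The labels of the grid from chains** with a property `XC`. -/
theorem grd_of_chn (hI : MonoI I) {Kt : KitP m Θ n₀} (hinj : ∀ p, Inj (Kt.cs p) (n₀ + 1))
    {K' s₁ : ℕ} {sh : ℕ → ℕ} (hgr : GrX (n₀ + 1) Kt.K K' s₁ sh)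
    {XC : Θ → ℕ → ℕ → ℝ → CLO.LabX m} (her : ∀ p N M θ, (XC p N M θ).Her) {T' : ℝ}
    (fcel : ∀ ε' : ℝ, 0 < ε' → EvP I fun p =>
      CellL (n₀ + 1) (Kt.L p) ε' T' (Kt.y p) (Kt.X p) (Kt.la p) (Kt.ml p))
    (hW : ∀ p N M θ (J : ℕ) (F : Fam m J) (D : GDat F) (A : F.Ω → Prop),
      D.Has (XC p N M θ) M A → Kt.W p N M θ J F D A)
    (chn : ∀ M : ℕ, EvQ I fun N θ p => ∃ (b : ℕ → ℕ → ℕ → ℝ) (e : ℕ → ℕ → ℝ),
      Kt.Near p N M θ b e ∧ ∀ i ≤ M, ∀ j ≤ M, Lg S fun J F A =>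
      ∃ (G : PtT F → ℕ → MvPolynomial (Option (Fin m)) ℝ)
        (H : LnT F → ℕ → MvPolynomial (Option (Fin m)) ℝ),
        ChOK F (Kt.cs p) (n₀ + 1) (fun _ => Kt.K)
          (up ((Kt.y p).1 + (Kt.y p).2) J + i * up (msh (Kt.X p) N M) J)
          (up (Kt.y p).1 J + j * up (msh (Kt.X p) N M) J) ⌊e i j * J⌋₊
          (fun l => ⌊b i j l * J⌋₊) A G H ∧ XC p N M θ i j J F A G H) (M : ℕ) :
    EvQ I fun N θ p => ∃ (b : ℕ → ℕ → ℕ → ℝ) (e : ℕ → ℕ → ℝ), Kt.Near p N M θ b e ∧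
      Lg S fun _ F A => ∃ D : GDat F, (Kt.grid K' s₁ sh p N M θ b e).Ok F D A := by
  obtain ⟨N₁, hN₁⟩ := exists_nat_ge (4 * (T' + 2))
  have key := ((KitP.cel_evQ fcel M).and hI (chn M)).and hI
    (EvQ.self I (max N₁ 2) (θ₀ := 1 / 16) (by norm_num)
      (ε := fun N _ => 1) (fun N _ _ => one_pos))
  refine key.mono ?_
  rintro N θ p ⟨⟨hL, b, e, hnear, hchn⟩, hN, hθ, hθ1, -⟩
  have hNN : N₁ ≤ N := (le_max_left _ _).trans hN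
  have hN2 : 2 ≤ N := (le_max_right _ _).trans hN
  have hN1 : 1 ≤ N := by omega
  have hNT : 4 * (T' + 2) ≤ N := hN₁.trans (by exact_mod_cast hNN)
  obtain ⟨ε, hε⟩ : ∃ ε : ℝ, ε = 1 / (64 * (N * (M + 4)) + 1) := ⟨_, rfl⟩
  rw [← hε] at hL
  have hε0 : 0 < ε := by rw [hε]; positivity
  have hεN : ε * (64 * (N * (M + 4))) ≤ 1 := by
    rw [hε, one_div, inv_mul_le_iff₀ (by positivity)]
    linarith
  have hs := hL.sideE (B := 1) (by omega : 1 ≤ n₀ + 1) hN1 hNT hN2 le_rfl hε0.le hεN hθ hθ1 hnear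
  refine ⟨b, e, hnear, ?_⟩
  have h1 := hgr (X := XC p N M θ) (her p N M θ) (S := S) (M := M) (c := Kt.cs p)
    (α := (Kt.y p).1 + (Kt.y p).2) (ϖ := (Kt.y p).1) (ζ := msh (Kt.X p) N M) (e := e) (b := b)
    hs.win hs.ζ0 hs.thin hs.top (hinj p) hs.pos hchn
  refine h1.mono 0 ?_
  rintro J - F A ⟨-, -, -, D, hD, hX⟩
  exact ⟨D, hD, hW p N M θ J F D A hX⟩

/-! ### The contradiction -/

/-- **The contradiction in a grid**, local theorem with a further property. -/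
theorem grid_falseP (hS : S.Ne) {G : RW m} {R : (J : ℕ) → (F : Fam m J) → GDat F → ℕ → ℕ → Type}
    {ρ : (J : ℕ) → (F : Fam m J) → (D : GDat F) → (i j : ℕ) → LnT F → R J F D i j} {Φ : ExtC}
    {Ψ : ConC} {B Rr K'' z₀ : ℕ} {lam gam : ℕ → ℝ} {C₁ h η' κ η : ℝ} (hζ : 0 < G.ζ)
    (mic : MicAtK Φ Ψ G.n G.K' B Rr lam gam C₁ h G.M K'' η' κ η z₀)
    (grd : Lg S fun _ F A => ∃ D : GDat F, G.Ok F D A)
    (ok2 : FldW S G fun J F D q => (G.nd D (ρ J F D)).Ok2 G.n G.K' J (up G.α J) (up G.ϖ J)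
      (up G.ζ J) G.M lam gam κ C₁ q)
    (phi : FldW S G fun J F D q => Φ G.n J (up G.α J) (up G.ϖ J) (up G.ζ J) G.M Rr κ C₁
      (G.nd D (ρ J F D)) q)
    (nf : FldW S G fun J F D q => (G.nd D (ρ J F D)).NF G.n (up G.ζ J) G.M B gam h C₁ η q)
    (no : FldW S G fun J F D q => ¬ Ψ G.n J (up G.α J) (up G.ϖ J) (up G.ζ J) G.M K'' η'
      (G.nd D (ρ J F D)) q) : False := by
  obtain ⟨c, hc, grd⟩ := grd
  obtain ⟨J₂, hJ₂⟩ := exists_nat_ge ((z₀ : ℝ) / G.ζ)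
  obtain ⟨J, hJ, F, B', h1, D, hD⟩ := bas_real hS (one_pos.trans_le hc)
    (((ok2.and phi).and nf).and no) grd J₂
  obtain ⟨⟨⟨h2, h3⟩, h5⟩, h7⟩ := h1 D hD
  have hz : z₀ ≤ up G.ζ J := by
    have h8 : (J₂ : ℝ) ≤ J := by exact_mod_cast hJ
    have h9 : (z₀ : ℝ) / G.ζ ≤ J := hJ₂.trans h8
    rw [div_le_iff₀ hζ] at h9
    have h10 : G.ζ * J ≤ up G.ζ J := up_ge G.ζ J
    have h11 : (z₀ : ℝ) ≤ up G.ζ J := by linarith only [h9, h10]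
    exact_mod_cast h11
  exact h7 (mic J (up G.α J) (up G.ϖ J) (up G.ζ J) (G.nd D (ρ J F D)) _ hz h2 h3 h5)

/-- Nonfull rows on all large events, from the events of the class. -/
theorem nf_of_fldP {G : RW m} {R : (J : ℕ) → (F : Fam m J) → GDat F → ℕ → ℕ → Type}
    {ρ : (J : ℕ) → (F : Fam m J) → (D : GDat F) → (i j : ℕ) → LnT F → R J F D i j}
    (hpos : ∀ (τ : ℝ) (J : ℕ) (F : Fam m J) (A : F.Ω → Prop), S.St τ J F A → 0 < Pe F.p A)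
    {B : ℕ} {gam : ℕ → ℝ} {h C₁ : ℝ}
    (H : FldW S G fun J F D q => (G.nd D (ρ J F D)).NF1 G.n (up G.ζ J) G.M B gam h C₁ q)
    {η : ℝ} (hη : 0 < η) :
    FldW S G fun J F D q => (G.nd D (ρ J F D)).NF G.n (up G.ζ J) G.M B gam h C₁ η q :=
  (H.ev hpos hη).mono 0 fun _ _ _ _ _ h1 i hi j hj r U h2 h3 E hE => h1 E hE i hi j hj r U h2 h3

/-- **What a class has to give**, for the cells `I`, the further property `Φ`, the conclusion `Ψ`,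
the condition `Q` for the slopes and the deficit `h`. -/
structure FactP (Kt : KitP m Θ n₀) (S : PCl m) (I : ℝ → Θ → Prop) (Φ : ExtC) (Ψ : ConC)
    (Q : CondN) (h : ℝ) (K' s₁ : ℕ) (sh : ℕ → ℕ) : Prop where
  /-- the levels on the cell -/
  cel : ∃ T' β' : ℝ, 0 < β' ∧ (∀ ε' : ℝ, 0 < ε' → EvP I fun p =>
      CellL (n₀ + 1) (Kt.L p) ε' T' (Kt.y p) (Kt.X p) (Kt.la p) (Kt.ml p)) ∧
    EvP I fun p => β' ≤ Kt.la p n₀ - Kt.ml p n₀ ∧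
      Q (lamS (n₀ + 1) (Kt.ml p)) (gamS (n₀ + 1) (Kt.la p) (Kt.ml p))
  /-- the labels of a grid, with sides close to the levels -/
  grd : ∀ M : ℕ, EvQ I fun N θ p => ∃ (b : ℕ → ℕ → ℕ → ℝ) (e : ℕ → ℕ → ℝ),
    Kt.Near p N M θ b e ∧
      Lg S fun _ F A => ∃ D : GDat F, (Kt.grid K' s₁ sh p N M θ b e).Ok F D A
  /-- the axioms of the cells -/
  ok2 : ∃ C₅ : ℝ, ∀ C₁ ≥ C₅, ∀ κ : ℝ, 0 < κ → ∀ M : ℕ, EvQ I fun N θ p =>
    Kt.FldN S K' s₁ sh M N θ p fun G J F D q => (Kt.nd p N M θ G F D).Ok2 G.n G.K' J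
      (up G.α J) (up G.ϖ J) (up G.ζ J) G.M (lamS (n₀ + 1) (Kt.ml p))
      (gamS (n₀ + 1) (Kt.la p) (Kt.ml p)) κ C₁ q
  /-- nonfull rows -/
  nf : ∃ C₃ : ℝ, ∀ C₁ ≥ C₃, ∃ B : ℕ, 1 ≤ B ∧ ∀ M : ℕ, EvQ I fun N θ p =>
    Kt.FldN S K' s₁ sh M N θ p fun G J F D q => (Kt.nd p N M θ G F D).NF1 G.n (up G.ζ J) G.M B
      (gamS (n₀ + 1) (Kt.la p) (Kt.ml p)) h C₁ q
  /-- the further property -/
  phi : ∃ (Rr : ℕ) (C₄ : ℝ), ∀ κ : ℝ, 0 < κ → ∀ M : ℕ, EvQ I fun N θ p =>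
    Kt.FldN S K' s₁ sh M N θ p fun G J F D q =>
      Φ G.n J (up G.α J) (up G.ϖ J) (up G.ζ J) G.M Rr κ C₄ (Kt.nd p N M θ G F D) q
  /-- the conclusion of the local theorem is false -/
  no : ∀ (M K'' : ℕ) (η' : ℝ), 0 < η' → EvQ I fun N θ p =>
    Kt.FldN S K' s₁ sh M N θ p fun G J F D q =>
      ¬ Ψ G.n J (up G.α J) (up G.ϖ J) (up G.ζ J) G.M K'' η' (Kt.nd p N M θ G F D) q

/-- **No cells with small errors**, from the local theorem and the facts of the class. -/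
theorem evP_false (hI : MonoI I) {Φ : ExtC} (hΦ : Φ.Mono) {Ψ : ConC} (hΨ : Ψ.Mono) (hS : S.Ne)
    (hpos : ∀ (τ : ℝ) (J : ℕ) (F : Fam m J) (A : F.Ω → Prop), S.St τ J F A → 0 < Pe F.p A)
    (Kt : KitP m Θ n₀) {h : ℝ} (hh1 : h ≤ 1)
    {Q : CondN} (hQ : Q.Cl (n₀ + 1)) {K' s₁ : ℕ} {sh : ℕ → ℕ}
    (H : MicK Φ Ψ Q (n₀ + 1) K' h) (facts : FactP Kt S I Φ Ψ Q h K' s₁ sh) :
    EvP I fun _ => False := by
  obtain ⟨⟨T', β', hβ', fcel, fgam⟩, fgrd, ⟨C₅, fok⟩, ⟨C₃, fnf⟩, ⟨Rr, C₄, fphi⟩, fno⟩ := facts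
  -- the constants
  obtain ⟨C₁, hC₁⟩ : ∃ C₁, C₁ = max (max C₅ 1) (max C₃ C₄) := ⟨_, rfl⟩
  have c1 : C₅ ≤ C₁ := by rw [hC₁]; exact (le_max_left _ _).trans (le_max_left _ _)
  have c3 : C₃ ≤ C₁ := by rw [hC₁]; exact (le_max_left _ _).trans (le_max_right _ _)
  have c4 : 1 ≤ C₁ := by rw [hC₁]; exact (le_max_right _ _).trans (le_max_left _ _)
  have c5 : C₄ ≤ C₁ := by rw [hC₁]; exact (le_max_right _ _).trans (le_max_right _ _)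
  obtain ⟨B, hB, fnf⟩ := fnf C₁ c3
  obtain ⟨M₀, K'', η', κ, η, z₀, hη', hκ, hη, hmic⟩ := micK_cover hΦ hΨ
    (R := Rr) (C₁ := C₁) (Λ := T' + 1) hQ (by omega) hB c4 hh1 hβ' H
  obtain ⟨N₁, hN₁⟩ := exists_nat_ge (4 * (T' + 2))
  have key := (((EvQ.all hI M₀ fun M _ => KitP.cel_evQ fcel M).and hI
    (EvQ.of_evP (Ψ := fun _ p => β' ≤ Kt.la p n₀ - Kt.ml p n₀ ∧
      Q (lamS (n₀ + 1) (Kt.ml p)) (gamS (n₀ + 1) (Kt.la p) (Kt.ml p))) fun _ => fgam)).and hI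
    ((EvQ.all hI M₀ fun M _ => fgrd M).and hI
    ((EvQ.all hI M₀ fun M _ => fok C₁ c1 κ hκ M).and hI
    ((EvQ.all hI M₀ fun M _ => fnf M).and hI ((EvQ.all hI M₀ fun M _ => fphi κ hκ M).and hI
    (EvQ.all hI M₀ fun M _ => fno M K'' η' hη')))))).and hI
    (EvQ.self I (max N₁ 2) (θ₀ := 1 / 16) (by norm_num)
      (ε := fun N _ => 1) (fun N _ _ => one_pos))
  refine EvQ.false_evP (key.mono ?_)
  rintro N θ p ⟨⟨⟨pcel, pgam, pcond⟩, pgrd, pok, pnf, pphi, pno⟩, hN, hθ, hθ1, -⟩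
  have hNN : N₁ ≤ N := (le_max_left _ _).trans hN
  have hN2 : 2 ≤ N := (le_max_right _ _).trans hN
  have hN1 : 1 ≤ N := by omega
  have hn1 : 1 ≤ n₀ + 1 := by omega
  have hL0 := pcel 0 (Nat.zero_le _)
  obtain ⟨M, hM, mic⟩ := hmic (lamS (n₀ + 1) (Kt.ml p)) (gamS (n₀ + 1) (Kt.la p) (Kt.ml p))
    (lamS_ge (n₀ + 1) _) (hL0.lamS_le hn1) (gamS_ge (n₀ + 1) _ _) (hL0.gamS_le hn1) (by
      unfold gamS
      rw [if_pos ⟨hn1, le_rfl⟩, Nat.add_sub_cancel]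
      exact le_max_of_le_right pgam) pcond
  obtain ⟨b, e, hnear, hgrd⟩ := pgrd M hM
  have hnf' := nf_of_fldP (G := Kt.grid K' s₁ sh p N M θ b e)
    (ρ := fun J F D => Kt.rc p N M θ J F D) hpos (pnf M hM b e hnear) hη
  have hphi := (pphi M hM b e hnear).mono 0 fun J _ F D q hq =>
    hΦ.mono (κ' := κ) (C₁' := C₁) le_rfl c5 hq
  exact grid_falseP hS (G := Kt.grid K' s₁ sh p N M θ b e)
    (ρ := fun J F D => Kt.rc p N M θ J F D) (Φ := Φ) (Ψ := Ψ) (B := B)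
    (Rr := Rr) (K'' := K'') (z₀ := z₀) (lam := lamS (n₀ + 1) (Kt.ml p))
    (gam := gamS (n₀ + 1) (Kt.la p) (Kt.ml p))
    (C₁ := C₁) (h := h) (η' := η') (κ := κ) (η := η) (msh_pos hL0.pos hN1) mic hgrd
    (pok M hM b e hnear) hphi hnf' (pno M hM b e hnear)

/-- The axioms `Ok2` from the records, as the field `ok2` of `FactP`. -/
theorem ok2_of_rec (hI : MonoI I)
    (hpos : ∀ (τ : ℝ) (J : ℕ) (F : Fam m J) (A : F.Ω → Prop), S.St τ J F A → 0 < Pe F.p A)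
    (Kt : KitP m Θ n₀) (hinj : ∀ p, Inj (Kt.cs p) (n₀ + 1)) {K' s₁ : ℕ} {sh : ℕ → ℕ}
    (hK' : 1 ≤ K') {T' : ℝ} (fcel : ∀ ε' : ℝ, 0 < ε' → EvP I fun p =>
      CellL (n₀ + 1) (Kt.L p) ε' T' (Kt.y p) (Kt.X p) (Kt.la p) (Kt.ml p))
    (frec : ∃ C₂ : ℝ, ∀ k : ℝ, 0 < k → ∀ M : ℕ, EvQ I fun N θ p =>
      Kt.Rec S K' s₁ sh C₂ k M N θ p) :
    ∃ C₅ : ℝ, ∀ C₁ ≥ C₅, ∀ κ : ℝ, 0 < κ → ∀ M : ℕ, EvQ I fun N θ p =>
      Kt.FldN S K' s₁ sh M N θ p fun G J F D q => (Kt.nd p N M θ G F D).Ok2 G.n G.K' J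
        (up G.α J) (up G.ϖ J) (up G.ζ J) G.M (lamS (n₀ + 1) (Kt.ml p))
        (gamS (n₀ + 1) (Kt.la p) (Kt.ml p)) κ C₁ q := by
  obtain ⟨C₀, hC₀, hokP⟩ := ok_P hI hpos Kt hinj (s₁ := s₁) (sh := sh) hK' fcel
  obtain ⟨C₂, frec⟩ := frec
  refine ⟨max (max C₀ (C₂ + 2)) 1, fun C₁ hC₁ κ hκ M => ?_⟩
  have c1 : C₀ ≤ C₁ := ((le_max_left _ _).trans (le_max_left _ _)).trans hC₁
  have c2 : C₂ + 2 ≤ C₁ := ((le_max_right _ _).trans (le_max_left _ _)).trans hC₁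
  have c3 : 1 ≤ C₁ := (le_max_right _ _).trans hC₁
  obtain ⟨k, hk⟩ : ∃ k : ℝ, k = min (κ / (2 + ((M : ℝ) + 1) ^ 3)) (1 / ((M : ℝ) + 1) ^ 3) :=
    ⟨_, rfl⟩
  have hM3 : (0 : ℝ) < ((M : ℝ) + 1) ^ 3 := by positivity
  have hk0 : 0 < k := by
    rw [hk]
    exact lt_min (by positivity) (by positivity)
  have hk1 : 2 * k + ((M : ℝ) + 1) ^ 3 * k ≤ κ := by
    have : k ≤ κ / (2 + ((M : ℝ) + 1) ^ 3) := by rw [hk]; exact min_le_left _ _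
    rw [le_div_iff₀ (by positivity)] at this
    linarith only [this]
  have hk2 : ((M : ℝ) + 1) ^ 3 * k ≤ 1 := by
    have : k ≤ 1 / ((M : ℝ) + 1) ^ 3 := by rw [hk]; exact min_le_right _ _
    rw [le_div_iff₀ hM3] at this
    linarith only [this]
  exact hokP M C₂ k C₁ κ hk0 c1 c3 hk1 (by linarith only [hk2, c2]) (frec k hk0 M)

end Pool.STAT
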