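import Pool.Agent.H19.STAT.Sys2L

/-!
# The local theorem, uniformly in the slopes

The slopes of a small cell are known only after the size of the cell. `mic_cover`: if the local
theorem holds for all slopes, then for bounded slopes its constants can be chosen uniformly; the
number `M` of the levels is one of finitely many. The cells (`Ok2`, `NF`) are stable when the slopes
move by `1 / M` (`Ok2.pert`, `NF.pert`).
-/

set_option autoImplicit false

namespace Pool.STAT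

open Finset MvPolynomial
open Pool.Agent.H49.Ent Pool.Agent.H32.Dense Pool.STK Pool.KS3
open Pool.BFL (Pl CB Pb P2 MC alt)

namespace NDat2

variable {D : NDat2} {q : D.Ω → ℝ} {n K J a₀ w₀ z M : ℕ} {lam gam lam' gam' : ℕ → ℝ}
  {κ κ' C₁ C₁' : ℝ}

/-! ### Perturbation -/

/-- The cell is stable when the slopes move by `1 / M`. -/
theorem Ok2.pert (H : D.Ok2 n K J a₀ w₀ z M lam gam κ C₁ q) (hκ : κ ≤ κ')
    (hC : C₁ + 2 ≤ C₁') (hl : ∀ l, 1 ≤ l → l ≤ n → |lam l - lam' l| * M ≤ 1)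
    (hg : ∀ l, 1 ≤ l → l ≤ n → |gam l - gam' l| * M ≤ 1) (hl' : ∀ l, 1 ≤ lam' l)
    (hg' : ∀ l, 0 ≤ gam' l) : D.Ok2 n K J a₀ w₀ z M lam' gam' κ' C₁' q := by
  have hz : (0 : ℝ) ≤ z := Nat.cast_nonneg z
  have hκz : κ * (z : ℝ) ≤ κ' * z := mul_le_mul_of_nonneg_right hκ hz
  have hCz : C₁ * (z : ℝ) + 2 * z ≤ C₁' * z := by
    have := mul_le_mul_of_nonneg_right hC hz
    linarith only [this]
  exact
    { H with
      i_few := fun i hi j hj => by
        have := H.i_few i hi j hj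
        linarith only [hCz, this]
      ij_few := fun i hi j hj => by
        have := H.ij_few i hi j hj
        linarith only [hCz, this]
      net := fun i hi j hj C hC0 Y y hy hb => by
        refine (H.net i hi j hj C hC0 Y y hy hb).trans ?_
        have h1 : 0 ≤ (C + 1) * z := by positivity
        have h2 : C₁ * ((C + 1) * z) ≤ C₁' * ((C + 1) * z) :=
          mul_le_mul_of_nonneg_right (by linarith only [hC]) h1
        linarith only [h2]
      lam_ge := hl'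
      gam_ge := hg'
      hom := fun i hi j hj l h1 h2 => by
        have h3 := abs_le.1 (H.hom i hi j hj l h1 h2)
        have h4 := hl l h1 h2
        have h5 := hg l h1 h2
        have hi' : (i : ℝ) ≤ M := by exact_mod_cast hi
        have hj' : (j : ℝ) ≤ M := by exact_mod_cast hj
        have h6 : |lam l - lam' l| * i ≤ 1 :=
          (mul_le_mul_of_nonneg_left hi' (abs_nonneg _)).trans h4
        have h7 : |gam l - gam' l| * j ≤ 1 :=
          (mul_le_mul_of_nonneg_left hj' (abs_nonneg _)).trans h5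
        have h8 : |(lam l - lam' l) * i| ≤ 1 := by
          rw [abs_mul, abs_of_nonneg (Nat.cast_nonneg (α := ℝ) i)]
          exact h6
        have h9 : |(gam l - gam' l) * j| ≤ 1 := by
          rw [abs_mul, abs_of_nonneg (Nat.cast_nonneg (α := ℝ) j)]
          exact h7
        obtain ⟨k1, k2⟩ := abs_le.1 h8
        obtain ⟨k3, k4⟩ := abs_le.1 h9
        have k5 : ((lam l - lam' l) * i + (gam l - gam' l) * j) * (z : ℝ) ≤ 2 * z :=
          mul_le_mul_of_nonneg_right (by linarith only [k2, k4]) hz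
        have k6 : -(2 * (z : ℝ)) ≤ ((lam l - lam' l) * i + (gam l - gam' l) * j) * z := by
          have := mul_le_mul_of_nonneg_right
            (show (-2 : ℝ) ≤ (lam l - lam' l) * i + (gam l - gam' l) * j by linarith only [k1, k3]) hz
          linarith only [this]
        have k7 : ((lam l - lam' l) * i + (gam l - gam' l) * j) * (z : ℝ) =
            (lam l * i + gam l * j) * z - (lam' l * i + gam' l * j) * z := by ring
        rw [k7] at k5 k6
        rw [abs_le]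
        constructor <;> linarith [h3.1, h3.2]
      g_ge := fun i hi j hj l h1 h2 => by
        have := H.g_ge i hi j hj l h1 h2
        linarith only [hCz, this]
      full := fun i hi j hj U hU => by
        have := H.full i hi j hj U hU
        linarith only [hκz, this] }

/-- The law given an event. -/
theorem isLaw_ev {Ω : Type} [Fintype Ω] {q : Ω → ℝ} (hq : IsLaw q) {E : Ω → Prop}
    (hE : 0 < Pb q E) : IsLaw (Pool.Agent.H49.Ent.cond q E True) := by
  classical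
  have h1 : law q E True = Pb q E := by
    unfold law Pb
    refine Finset.sum_congr rfl fun ω _ => ?_
    by_cases h : E ω
    · rw [if_pos (eq_true h), if_pos h]
    · rw [if_neg (fun h' => h (of_eq_true h')), if_neg h]
  refine ⟨cond_nonneg hq.nonneg E True, ?_⟩
  have h2 : ∀ ω, Pool.Agent.H49.Ent.cond q E True ω = (if E ω then q ω else 0) / Pb q E := by
    intro ω
    unfold Pool.Agent.H49.Ent.cond
    rw [h1]
    by_cases h : E ω
    · rw [if_pos (eq_true h), if_pos h]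
    · rw [if_neg (fun h' => h (of_eq_true h')), if_neg h, zero_div]
  rw [Finset.sum_congr rfl fun ω _ => h2 ω, ← Finset.sum_div]
  exact div_self hE.ne'

/-- Coarse digits are a function of fine digits. -/
theorem floor_nest {g r r' : ℕ} (h : r ≤ r') (x : ℝ) :
    ⌊(2 : ℝ) ^ (g + r) * x⌋ = ⌊(2 : ℝ) ^ (g + r') * x⌋ / 2 ^ (r' - r) := by
  have h1 : (2 : ℝ) ^ (g + r) * x = (2 ^ (g + r') * x) / ((2 ^ (r' - r) : ℕ) : ℝ) := by
    have h2 : (2 : ℝ) ^ (g + r') = 2 ^ (g + r) * 2 ^ (r' - r) := by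
      rw [← pow_add]; congr 1; omega
    rw [h2]
    push_cast
    field_simp
  rw [h1, Int.floor_div_natCast]
  push_cast
  rfl

theorem nd_nest {n i j r r' : ℕ} (h : r ≤ r') (ω : D.Ω) :
    D.nd n i j r ω = D.nd n i j r' ω / 2 ^ (r' - r) := floor_nest h _

theorem vd_nest {n i j r r' : ℕ} (h : r ≤ r') (ω : D.Ω) (l : Fin (n - 1)) :
    D.vd n i j r ω l = D.vd n i j r' ω l / 2 ^ (r' - r) := floor_nest h _

/-- The rows are stable when the slope moves by `1 / M`. -/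
theorem NF.pert {B : ℕ} {h ϖ ϖ' : ℝ} (hq : IsLaw q) (H : D.NF n z M B gam h C₁ ϖ q)
    (hϖ : ϖ ≤ ϖ') (hϖ' : 0 < ϖ') (hC : C₁ + 2 ≤ C₁') (hh : h ≤ 1) (h0 : 0 ≤ C₁)
    (hz : 1 ≤ z)
    (hg : |gam n - gam' n| * M ≤ 1) : D.NF n z M B gam' h C₁' ϖ' q := by
  intro i hi j hj r U hU hrU E hE
  have hz0 : (1 : ℝ) ≤ z := by exact_mod_cast hz
  have hcl := isLaw_ev hq (hϖ'.trans_le hE)
  rcases Nat.eq_zero_or_pos U with h1 | h1
  · subst h1
    rw [CH_eq_zero hcl.nonneg (fun ω ω' _ _ hh => by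
      have := (Prod.ext_iff.mp hh).1
      simpa using this)]
    simp only [CharP.cast_eq_zero, zero_mul, mul_zero, zero_add]
    have : 0 ≤ C₁' := by linarith only [hC, h0]
    positivity
  obtain ⟨U', rfl⟩ : ∃ U', U = U' + 1 := ⟨U - 1, by omega⟩
  have hj' : (j : ℝ) ≤ M := by exact_mod_cast hj
  have hj0 : (0 : ℝ) ≤ j := Nat.cast_nonneg j
  have h2 : (r + U' : ℝ) ≤ gam n * (M - j) := by
    have h3 : (gam' n - gam n) * (M - j) ≤ 1 := by
      have h4 : gam' n - gam n ≤ |gam n - gam' n| := by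
        rw [abs_sub_comm]
        exact le_abs_self _
      calc (gam' n - gam n) * ((M : ℝ) - j) ≤ |gam n - gam' n| * (M - j) :=
            mul_le_mul_of_nonneg_right h4 (by linarith only [hj'])
        _ ≤ |gam n - gam' n| * M := mul_le_mul_of_nonneg_left (by linarith only) (abs_nonneg _)
        _ ≤ 1 := hg
    push_cast at hrU
    linarith only [h3, hrU]
  have h3 := H i hi j hj r U' (by omega) h2 E (hϖ.trans hE)
  -- one more block
  obtain ⟨W, hW⟩ : ∃ W : D.Ω → ℤ × (Fin (n - 1) → ℤ) × D.S × ℕ, W = fun ω =>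
    (D.nd n i j (r * z) ω, (D.vd n i j (B * ((r + (U' + 1)) * z)) ω, (D.s i j ω, D.T ω))) :=
    ⟨_, rfl⟩
  have h4 := CH_le_add hcl.nonneg (D.nd n i j ((r + (U' + 1)) * z))
    (D.nd n i j ((r + U') * z)) W
  have h5 : CH (Pool.Agent.H49.Ent.cond q E True) (D.nd n i j ((r + U') * z)) W ≤
      CH (Pool.Agent.H49.Ent.cond q E True) (D.nd n i j ((r + U') * z))
        (fun ω => (D.nd n i j (r * z) ω,
          (D.vd n i j (B * ((r + U') * z)) ω, (D.s i j ω, D.T ω)))) := by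
    refine CH_mono_cond hcl.nonneg fun ω ω' _ _ hh => ?_
    rw [hW] at hh
    simp only [Prod.mk.injEq] at hh ⊢
    refine ⟨hh.1, ?_, hh.2.2⟩
    funext l
    have hle : B * ((r + U') * z) ≤ B * ((r + (U' + 1)) * z) :=
      Nat.mul_le_mul_left B (Nat.mul_le_mul_right z (by omega))
    rw [vd_nest hle ω l, vd_nest hle ω' l, congrFun hh.2.1 l]
  have h6 : CH (Pool.Agent.H49.Ent.cond q E True) (D.nd n i j ((r + (U' + 1)) * z))
      (fun ω => (D.nd n i j ((r + U') * z) ω, W ω)) ≤ 2 * z := by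
    have h7 := CH_le_int hcl.nonneg hcl.sum_one (D.nd n i j ((r + (U' + 1)) * z))
      (fun ω => (D.nd n i j ((r + U') * z) ω, W ω)) (fun _ => (2 : ℝ) ^ z - 1)
      (fun ω ω' _ _ hh => by
        have h8 := (Prod.ext_iff.mp hh).1
        simp only at h8
        have hle : (r + U') * z ≤ (r + (U' + 1)) * z := Nat.mul_le_mul_right z (by omega)
        have e1 : (r + (U' + 1)) * z - (r + U') * z = z := by
          have : (r + (U' + 1)) * z = (r + U') * z + z := by ring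
          omega
        rw [nd_nest hle ω, nd_nest hle ω', e1] at h8
        have h9 : ∀ x : ℤ, 2 ^ z * (x / 2 ^ z) ≤ x ∧ x < 2 ^ z * (x / 2 ^ z) + 2 ^ z := by
          intro x
          have hp : (0 : ℤ) < 2 ^ z := by positivity
          have e2 := Int.mul_ediv_add_emod x (2 ^ z)
          have e3 := Int.emod_nonneg x hp.ne'
          have e4 := Int.emod_lt_of_pos x hp
          constructor <;> omega
        obtain ⟨k1, k2⟩ := h9 (D.nd n i j ((r + (U' + 1)) * z) ω)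
        obtain ⟨k3, k4⟩ := h9 (D.nd n i j ((r + (U' + 1)) * z) ω')
        rw [h8] at k1 k2
        have k5 : D.nd n i j ((r + (U' + 1)) * z) ω - D.nd n i j ((r + (U' + 1)) * z) ω' ≤
            2 ^ z - 1 := by
          omega
        have k6 : -(2 ^ z - 1) ≤ D.nd n i j ((r + (U' + 1)) * z) ω -
            D.nd n i j ((r + (U' + 1)) * z) ω' := by
          omega
        have k5' : ((D.nd n i j ((r + (U' + 1)) * z) ω -
            D.nd n i j ((r + (U' + 1)) * z) ω' : ℤ) : ℝ) ≤ 2 ^ z - 1 := by exact_mod_cast k5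
        have k6' : -((2 : ℝ) ^ z - 1) ≤ ((D.nd n i j ((r + (U' + 1)) * z) ω -
            D.nd n i j ((r + (U' + 1)) * z) ω' : ℤ) : ℝ) := by exact_mod_cast k6
        exact abs_le.2 ⟨k6', k5'⟩)
    rw [Ex_const hcl.sum_one] at h7
    refine h7.trans ?_
    have h8 : Real.log (2 * (2 ^ z - 1) + 1) ≤ Real.log (2 ^ (z + 1)) := by
      have : (1 : ℝ) ≤ 2 ^ z := one_le_pow₀ (by norm_num)
      refine Real.log_le_log (by linarith only [this]) ?_
      rw [pow_succ]
      linarith only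
    rw [Real.log_pow] at h8
    push_cast at h8
    have l2 : Real.log 2 < 0.6931471808 := Real.log_two_lt_d9
    have l3 : ((z : ℝ) + 1) * Real.log 2 ≤ (2 * z) * 1 :=
      mul_le_mul (by linarith only [hz0]) (by linarith only [l2]) (Real.log_nonneg (by norm_num)) (by linarith only [hz0])
    linarith only [h8, l3]
  rw [hW] at h4 h5 h6
  have h7 : (1 - h) * ((U' : ℝ) * z) * Real.log 2 ≤ (1 - h) * (((U' + 1 : ℕ) : ℝ) * z) * Real.log 2 := by
    push_cast
    refine mul_le_mul_of_nonneg_right (mul_le_mul_of_nonneg_left ?_ (by linarith only [hh]))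
      (Real.log_nonneg (by norm_num))
    have : (0 : ℝ) ≤ z := by linarith only [hz0]
    nlinarith only [hz0]
  have h8 : C₁ * (z : ℝ) + 2 * z ≤ C₁' * z := by
    have := mul_le_mul_of_nonneg_right hC (show (0 : ℝ) ≤ z by linarith only [hz0])
    linarith only [this]
  linarith only [h3, h4, h5, h6, h7, h8]

/-- The conclusion is monotone. -/
theorem Concl2.mono {A K' K'' : ℕ} {η η' : ℝ}
    (H : D.Concl2 n J a₀ w₀ z M A K' η q) (hK : K' ≤ K'') (hη : η' ≤ η) :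
    D.Concl2 n J a₀ w₀ z M A K'' η' q := by
  obtain ⟨i, hi, j, hj, Gn, Hn, h1, h2, h3⟩ := H
  exact ⟨i, hi, j, hj, Gn, Hn, fun x => ⟨(h1 x).1.trans hK, (h1 x).2⟩,
    fun x => ⟨(h2 x).1.trans hK, (h2 x).2⟩, hη.trans h3⟩

theorem TmU.mono {κ κ' : ℝ} (H : D.TmU J w₀ z κ q) (hκ : κ ≤ κ') : D.TmU J w₀ z κ' q := by
  have := mul_le_mul_of_nonneg_right hκ (Nat.cast_nonneg (α := ℝ) z)
  unfold TmU at H ⊢
  linarith only [H, this]

end NDat2

/-! ### The cover -/

/-- The local theorem with own leaves, uniform time, for given slopes and given constants. -/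
def MicAt (n K A B R : ℕ) (lam gam : ℕ → ℝ) (C₁ h : ℝ) (M K' : ℕ) (η' κ ϖ : ℝ) (z₀ : ℕ) : Prop :=
  ∀ (J a₀ w₀ z : ℕ) (D : NDat2) (q : D.Ω → ℝ), z₀ ≤ z →
    D.Ok2 n K J a₀ w₀ z M lam gam κ C₁ q → D.LLV n z M κ q → D.LLN n z M R κ q →
    D.NF n z M B gam h C₁ ϖ q → D.TmU J w₀ z κ q → D.Concl2 n J a₀ w₀ z M A K' η' q

/-- A positive lower bound of finitely many positive numbers. -/
theorem exists_pos_le {ι : Type*} (t : Finset ι) (f : ι → ℝ) (hf : ∀ i, 0 < f i) :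
    ∃ c : ℝ, 0 < c ∧ ∀ i ∈ t, c ≤ f i := by
  classical
  induction t using Finset.induction_on with
  | empty => exact ⟨1, one_pos, fun i hi => absurd hi (Finset.notMem_empty i)⟩
  | insert a t _ ih =>
    obtain ⟨c, hc, h⟩ := ih
    refine ⟨min c (f a), lt_min hc (hf a), fun i hi => ?_⟩
    rcases Finset.mem_insert.1 hi with rfl | hi
    · exact min_le_right _ _
    · exact (min_le_left _ _).trans (h i hi)

/-- **The constants of the local theorem are uniform for bounded slopes.** -/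
theorem mic_cover {n K A B R : ℕ} {C₁ h Λ β : ℝ} (hn : 1 ≤ n)
    (hC₁ : 1 ≤ C₁) (hh1 : h ≤ 1) (hβ : 0 < β)
    (H : ∀ lam gam : ℕ → ℝ, (∀ l, 1 ≤ lam l) → (∀ l, 0 ≤ gam l) → 0 < gam n →
      ∃ (M K' : ℕ) (η' κ ϖ : ℝ) (z₀ : ℕ), 0 < η' ∧ 0 < κ ∧ 0 < ϖ ∧
        MicAt n K A B R lam gam (C₁ + 2) h M K' η' κ ϖ z₀) :
    ∃ (M₀ K' : ℕ) (η' κ ϖ : ℝ) (z₀ : ℕ), 0 < η' ∧ 0 < κ ∧ 0 < ϖ ∧
      ∀ lam gam : ℕ → ℝ, (∀ l, 1 ≤ lam l) → (∀ l, lam l ≤ Λ) → (∀ l, 0 ≤ gam l) →
        (∀ l, gam l ≤ Λ) → β ≤ gam n →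
        ∃ M ≤ M₀, MicAt n K A B R lam gam C₁ h M K' η' κ ϖ z₀ := by
  classical
  -- the space of the parameters
  obtain ⟨ext, hext⟩ : ∃ ext : ℝ → (Fin (n + 1) → ℝ) → ℕ → ℝ, ext = fun (c : ℝ)
      (u : Fin (n + 1) → ℝ) (l : ℕ) => if hl : l < n + 1 then u ⟨l, hl⟩ else c := ⟨_, rfl⟩
  have ext_lt : ∀ c u l (hl : l < n + 1), ext c u l = u ⟨l, hl⟩ := by
    intro c u l hl
    rw [hext]
    exact dif_pos hl
  have ext_ge : ∀ (c : ℝ) u l, ¬ l < n + 1 → ext c u l = c := by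
    intro c u l hl
    rw [hext]
    exact dif_neg hl
  obtain ⟨Kc, hKc⟩ : ∃ Kc : Set ((Fin (n + 1) → ℝ) × (Fin (n + 1) → ℝ)), Kc =
      (Set.Icc (fun _ : Fin (n + 1) => (1 : ℝ)) (fun _ => Λ)) ×ˢ
        (Set.Icc (fun l : Fin (n + 1) => if (l : ℕ) = n then β else 0) (fun _ => Λ)) := ⟨_, rfl⟩
  have hcomp : IsCompact Kc := by
    rw [hKc]
    exact isCompact_Icc.prod isCompact_Icc
  have hx : ∀ x : (Fin (n + 1) → ℝ) × (Fin (n + 1) → ℝ), ∃ (M K' : ℕ) (η' κ ϖ : ℝ) (z₀ : ℕ),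
      0 < η' ∧ 0 < κ ∧ 0 < ϖ ∧ (x ∈ Kc →
        MicAt n K A B R (ext 1 x.1) (ext 0 x.2) (C₁ + 2) h M K' η' κ ϖ z₀) := by
    intro x
    by_cases hx : x ∈ Kc
    · rw [hKc] at hx
      obtain ⟨⟨h1, h2⟩, ⟨h3, h4⟩⟩ := hx
      obtain ⟨M, K', η', κ, ϖ, z₀, a1, a2, a3, a4⟩ := H (ext 1 x.1) (ext 0 x.2) (fun l => by
        by_cases hl : l < n + 1
        · rw [ext_lt 1 x.1 l hl]
          exact h1 ⟨l, hl⟩
        · rw [ext_ge 1 x.1 l hl]) (fun l => by
        by_cases hl : l < n + 1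
        · rw [ext_lt 0 x.2 l hl]
          have := h3 ⟨l, hl⟩
          simp only at this
          refine le_trans ?_ this
          split_ifs
          · exact hβ.le
          · exact le_rfl
        · rw [ext_ge 0 x.2 l hl]) (by
        rw [ext_lt 0 x.2 n (Nat.lt_succ_self n)]
        have := h3 ⟨n, Nat.lt_succ_self n⟩
        simp only [if_true] at this
        exact hβ.trans_le this)
      exact ⟨M, K', η', κ, ϖ, z₀, a1, a2, a3, fun _ => a4⟩
    · exact ⟨0, 0, 1, 1, 1, 0, one_pos, one_pos, one_pos, fun h' => absurd h' hx⟩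
  choose M K' η' κ ϖ z₀ a1 a2 a3 a4 using hx
  obtain ⟨t, ht, hcov⟩ := hcomp.elim_nhds_subcover
    (fun x => Metric.ball x (1 / ((M x : ℝ) + 1))) (fun x _ =>
      Metric.ball_mem_nhds x (by positivity))
  obtain ⟨cη, b1, c1⟩ := exists_pos_le t η' a1
  obtain ⟨cκ, b2, c2⟩ := exists_pos_le t κ a2
  obtain ⟨cϖ, b3, c3⟩ := exists_pos_le t ϖ a3
  refine ⟨t.sup M, t.sup K', cη, cκ, cϖ, max 1 (t.sup z₀), b1, b2, b3, ?_⟩
  intro lam gam l1 l2 g1 g2 g3
  obtain ⟨y, hy⟩ : ∃ y : (Fin (n + 1) → ℝ) × (Fin (n + 1) → ℝ),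
      y = (fun l : Fin (n + 1) => lam l, fun l : Fin (n + 1) => gam l) := ⟨_, rfl⟩
  have hyK : y ∈ Kc := by
    rw [hKc, hy]
    refine ⟨⟨fun l => l1 l, fun l => l2 l⟩, ⟨fun l => ?_, fun l => g2 l⟩⟩
    simp only
    split_ifs with hl
    · rw [hl]
      exact g3
    · exact g1 l
  obtain ⟨x, hxt, hxy⟩ : ∃ x ∈ t, y ∈ Metric.ball x (1 / ((M x : ℝ) + 1)) := by
    have := hcov hyK
    simpa using this
  rw [Metric.mem_ball] at hxy
  have hxK : x ∈ Kc := ht x hxt
  have hM1 : (0 : ℝ) < M x + 1 := by positivity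
  have hd : ∀ u : ℝ, 0 ≤ u → u < 1 / ((M x : ℝ) + 1) → u * M x ≤ 1 := by
    intro u hu0 hu
    rw [lt_div_iff₀ hM1] at hu
    nlinarith only [hu0, hu, Nat.cast_nonneg (α := ℝ) (M x)]
  have hdl : ∀ l, 1 ≤ l → l ≤ n → |lam l - ext 1 x.1 l| * M x ≤ 1 := by
    intro l _ hl
    rw [ext_lt 1 x.1 l (by omega)]
    refine hd _ (abs_nonneg _) (lt_of_le_of_lt ?_ hxy)
    rw [hy, Prod.dist_eq]
    refine le_trans ?_ (le_max_left _ _)
    have := dist_le_pi_dist (fun l : Fin (n + 1) => lam l) x.1 ⟨l, by omega⟩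
    rw [Real.dist_eq] at this
    exact this
  have hdg : ∀ l, 1 ≤ l → l ≤ n → |gam l - ext 0 x.2 l| * M x ≤ 1 := by
    intro l _ hl
    rw [ext_lt 0 x.2 l (by omega)]
    refine hd _ (abs_nonneg _) (lt_of_le_of_lt ?_ hxy)
    rw [hy, Prod.dist_eq]
    refine le_trans ?_ (le_max_right _ _)
    have := dist_le_pi_dist (fun l : Fin (n + 1) => gam l) x.2 ⟨l, by omega⟩
    rw [Real.dist_eq] at this
    exact this
  have hxK' := hxK
  rw [hKc] at hxK'
  obtain ⟨⟨h1, -⟩, ⟨h3, -⟩⟩ := hxK'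
  refine ⟨M x, Finset.le_sup hxt, ?_⟩
  intro J a₀ w₀ z D q hz hO hV hL hN hT
  have hz1 : 1 ≤ z := (le_max_left _ _).trans hz
  have hz2 : z₀ x ≤ z := (Finset.le_sup hxt).trans ((le_max_right _ _).trans hz)
  have hO' := hO.pert (lam' := ext 1 x.1) (gam' := ext 0 x.2) (c2 x hxt) le_rfl hdl hdg
    (fun l => by
      by_cases hl : l < n + 1
      · rw [ext_lt 1 x.1 l hl]
        exact h1 ⟨l, hl⟩
      · rw [ext_ge 1 x.1 l hl]) (fun l => by
      by_cases hl : l < n + 1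
      · rw [ext_lt 0 x.2 l hl]
        have := h3 ⟨l, hl⟩
        simp only at this
        refine le_trans ?_ this
        split_ifs
        · exact hβ.le
        · exact le_rfl
      · rw [ext_ge 0 x.2 l hl])
  have hN' := hN.pert (gam' := ext 0 x.2) hO.isLaw (c3 x hxt) (a3 x) le_rfl hh1 (by linarith only [hC₁]) hz1
    (hdg n hn le_rfl)
  have hT' := hT.mono (c2 x hxt)
  exact (a4 x hxK J a₀ w₀ z D q hz2 hO' (hV.mono (c2 x hxt)) (hL.mono le_rfl (c2 x hxt)) hN'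
    hT').mono (Finset.le_sup hxt) (c1 x hxt)

/-- The local theorem with own leaves, for all slopes. -/
def MicWStmt : Prop := MicWOf fun _ _ _ => True

/-- Own leaves are not needed. -/
theorem micW_of_mic {Q : Cond2} (H : MicOf Q) : MicWOf Q := by
  intro n K A B R lam gam C₁ h hn hB a1 a2 a3 a4 a5 a6 a7
  obtain ⟨M, K', η', κ, ϖ, z₀, b1, b2, b3, H⟩ := H n K A B lam gam C₁ h hn hB a1 a2 a3 a4 a5 a6 a7
  exact ⟨M, K', η', κ, ϖ, z₀, b1, b2, b3, fun J a₀ w₀ z D q hz hO _ _ hN hT =>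
    H J a₀ w₀ z D q hz hO hN hT⟩

/-- **The uniform form of the local theorem.** -/
theorem MicWStmt.cover (H : MicWStmt) {n K A B R : ℕ} {C₁ h Λ β : ℝ}
    (hn : 1 ≤ n) (hB : 1 ≤ B) (hC₁ : 1 ≤ C₁) (hh : 0 < h) (hh1 : h ≤ 1) (hβ : 0 < β) :
    ∃ (M₀ K' : ℕ) (η' κ ϖ : ℝ) (z₀ : ℕ), 0 < η' ∧ 0 < κ ∧ 0 < ϖ ∧
      ∀ lam gam : ℕ → ℝ, (∀ l, 1 ≤ lam l) → (∀ l, lam l ≤ Λ) → (∀ l, 0 ≤ gam l) →
        (∀ l, gam l ≤ Λ) → β ≤ gam n →
        ∃ M ≤ M₀, MicAt n K A B R lam gam C₁ h M K' η' κ ϖ z₀ :=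
  mic_cover hn hC₁ hh1 hβ fun lam gam a1 a2 a3 =>
    H n K A B R lam gam (C₁ + 2) h hn hB a1 a2 a3 (by linarith only [hC₁]) hh hh1 trivial

end Pool.STAT
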