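import Pool.Agent.H68.STAT.Fam2

/-!
# From a real cell to the numbers of a cell

`num2_of`: real numbers on a grid which are affine up to a quarter of the mesh, and natural numbers
near their multiples by `J`, give `Num2`. `slopes_of`: the levels which are affine on a cell up to
`ε X` in the chart (window, width) are affine on the grid, with slopes `≥ 1` in the radius and `≥ 0`
in the window.
-/

set_option autoImplicit false

namespace Pool.STAT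

open Finset

/-- **The numbers of the grid.** -/
theorem num2_of {n M J : ℕ} {a w ζ Λ : ℝ} {β : ℕ → ℕ → ℕ → ℝ} {lam gam : ℕ → ℝ}
    {g : ℕ → ℕ → ℕ → ℕ} {C₁ : ℝ} (hC₁ : 1 ≤ C₁) (ha : 0 ≤ a) (hw : 0 ≤ w)
    (hζ : 0 < ζ) (thin : w + (M + 2) * ζ ≤ a) (top : a + (M + 2) * ζ ≤ 1)
    (lam_ge : ∀ l, 1 ≤ lam l) (gam_ge : ∀ l, 0 ≤ gam l) (lam_le : ∀ l, lam l ≤ Λ)
    (gam_le : ∀ l, gam l ≤ Λ)
    (hom : ∀ i ≤ M, ∀ j ≤ M, ∀ l, 1 ≤ l → l ≤ n →
      |β i j l - β 0 0 l - (lam l * i + gam l * j) * ζ| ≤ ζ / 4)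
    (ge : ∀ i ≤ M, ∀ j ≤ M, ∀ l, 1 ≤ l → l ≤ n → a + i * ζ ≤ β i j l + ζ / 4)
    (le : ∀ i ≤ M, ∀ j ≤ M, ∀ l, 1 ≤ l → l ≤ n → β i j l + (M + 1) * ζ ≤ 1)
    (hg : ∀ i ≤ M, ∀ j ≤ M, ∀ l, 1 ≤ l → l ≤ n → |(g i j l : ℝ) - β i j l * J| ≤ ζ * J / 8)
    (hJ : (4 * Λ + 4) * (M + 1) ≤ ζ * J) :
    CDat2.Num2 n J ⌈a * J⌉₊ ⌈w * J⌉₊ ⌈ζ * J⌉₊ M lam gam g C₁ := by
  have hJ0 : (0 : ℝ) ≤ J := Nat.cast_nonneg J
  have hM0 : (0 : ℝ) ≤ M := Nat.cast_nonneg M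
  have hΛ : 1 ≤ Λ := (lam_ge 0).trans (lam_le 0)
  have hΛM : 4 * Λ * M ≤ ζ * J := by nlinarith only [hJ, hΛ]
  have hM8 : 8 * ((M : ℝ) + 1) ≤ ζ * J := by nlinarith only [hJ, hΛ]
  obtain ⟨z, hz⟩ : ∃ z, z = ⌈ζ * J⌉₊ := ⟨_, rfl⟩
  obtain ⟨a₀, ha₀⟩ : ∃ a₀, a₀ = ⌈a * J⌉₊ := ⟨_, rfl⟩
  obtain ⟨w₀, hw₀⟩ : ∃ w₀, w₀ = ⌈w * J⌉₊ := ⟨_, rfl⟩
  rw [← hz, ← ha₀, ← hw₀]
  have z1 : ζ * J ≤ z := by rw [hz]; exact Nat.le_ceil _
  have z2 : (z : ℝ) ≤ ζ * J + 1 := by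
    rw [hz]; exact (Nat.ceil_lt_add_one (mul_nonneg hζ.le hJ0)).le
  have a1 : a * J ≤ a₀ := by rw [ha₀]; exact Nat.le_ceil _
  have a2 : (a₀ : ℝ) ≤ a * J + 1 := by
    rw [ha₀]; exact (Nat.ceil_lt_add_one (mul_nonneg ha hJ0)).le
  have w1 : w * J ≤ w₀ := by rw [hw₀]; exact Nat.le_ceil _
  have w2 : (w₀ : ℝ) ≤ w * J + 1 := by
    rw [hw₀]; exact (Nat.ceil_lt_add_one (mul_nonneg hw hJ0)).le
  have hMz : (M : ℝ) * z ≤ M * (ζ * J) + M := by
    have := mul_le_mul_of_nonneg_left z2 hM0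
    linarith only [this]
  have hz0 : (0 : ℝ) ≤ z := Nat.cast_nonneg z
  have hCz : (z : ℝ) ≤ C₁ * z := by
    have := mul_le_mul_of_nonneg_right hC₁ hz0
    linarith only [this]
  refine ⟨?_, ?_, lam_ge, gam_ge, fun i hi j hj l h1 h2 => ?_, fun i hi j hj l h1 h2 => ?_,
    fun i hi j hj l h1 h2 => ?_⟩
  · have h3 := mul_le_mul_of_nonneg_right thin hJ0
    have h4 : ((w₀ + (M + 1) * z : ℕ) : ℝ) ≤ (a₀ : ℝ) := by
      push_cast
      linarith only [hM8, z2, a1, w2, hMz, h3]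
    exact_mod_cast h4
  · have h3 := mul_le_mul_of_nonneg_right top hJ0
    have h4 : ((a₀ + (M + 1) * z : ℕ) : ℝ) ≤ (J : ℝ) := by
      push_cast
      linarith only [hM8, z2, a2, hMz, h3]
    exact_mod_cast h4
  · have h3 := abs_le.1 (hom i hi j hj l h1 h2)
    have h4 := abs_le.1 (hg i hi j hj l h1 h2)
    have h5 := abs_le.1 (hg 0 (Nat.zero_le M) 0 (Nat.zero_le M) l h1 h2)
    have hi' : (i : ℝ) ≤ M := by exact_mod_cast hi
    have hj' : (j : ℝ) ≤ M := by exact_mod_cast hj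
    have hi0 : (0 : ℝ) ≤ i := Nat.cast_nonneg i
    have hj0 : (0 : ℝ) ≤ j := Nat.cast_nonneg j
    have l0 : 0 ≤ lam l := zero_le_one.trans (lam_ge l)
    have s0 : 0 ≤ lam l * i + gam l * j := add_nonneg (mul_nonneg l0 hi0)
      (mul_nonneg (gam_ge l) hj0)
    have s1 : lam l * i + gam l * j ≤ 2 * (Λ * M) := by
      have e1 : lam l * i ≤ Λ * M := mul_le_mul (lam_le l) hi' hi0 (by linarith only [hΛ])
      have e2 : gam l * j ≤ Λ * M := mul_le_mul (gam_le l) hj' hj0 (by linarith only [hΛ])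
      linarith only [e1, e2]
    have s2 : (lam l * i + gam l * j) * (ζ * J) ≤ (lam l * i + gam l * j) * z :=
      mul_le_mul_of_nonneg_left z1 s0
    have s3 : (lam l * i + gam l * j) * z ≤ (lam l * i + gam l * j) * (ζ * J) + 2 * (Λ * M) := by
      have := mul_le_mul_of_nonneg_left z2 s0
      linarith only [s1, this]
    have t1 := mul_le_mul_of_nonneg_right h3.1 hJ0
    have t2 := mul_le_mul_of_nonneg_right h3.2 hJ0
    have hb : |(g i j l : ℝ) - g 0 0 l - (lam l * i + gam l * j) * z| ≤ z := by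
      rw [abs_le]
      constructor <;> linarith [h4.1, h4.2, h5.1, h5.2]
    exact hb.trans hCz
  · have h3 := mul_le_mul_of_nonneg_right (ge i hi j hj l h1 h2) hJ0
    have h4 := abs_le.1 (hg i hi j hj l h1 h2)
    have hi' : (i : ℝ) ≤ M := by exact_mod_cast hi
    have hi0 : (0 : ℝ) ≤ i := Nat.cast_nonneg i
    have hiz : (i : ℝ) * z ≤ i * (ζ * J) + M := by
      have := mul_le_mul_of_nonneg_left z2 hi0
      linarith only [hi', this]
    linarith only [hM8, z1, a2, hCz, h3, h4, hiz, h4.1, h4.2]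
  · have h3 := mul_le_mul_of_nonneg_right (le i hi j hj l h1 h2) hJ0
    have h4 := abs_le.1 (hg i hi j hj l h1 h2)
    have h5 : ((g i j l + M * z : ℕ) : ℝ) ≤ (J : ℝ) := by
      push_cast
      linarith only [hM8, hMz, h3, h4, h4.1, h4.2]
    exact_mod_cast h5

/-- **The slopes of the grid.** A level which is affine in the chart (window, width) with the slopes
`la` and `mu`, increasing with the width with slope at least one, and increasing with the window at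
fixed radius. -/
theorem slopes_of {R : ℝ → ℝ → ℝ} {w q X ε R₀ la mu : ℝ} (hX : 0 < X)
    (haff : ∀ w' q', |w' - w| ≤ X → |q' - q| ≤ X →
      |R w' q' - (R₀ + la * (w' - w) + mu * (q' - q))| ≤ ε * X)
    (ha : ∀ w' q' v, |w' - w| ≤ X → |q' - q| ≤ X → 0 ≤ v → |q' + v - q| ≤ X →
      R w' q' + v ≤ R w' (q' + v))
    (hw : ∀ w' q' v, |w' - w| ≤ X → |q' - q| ≤ X → 0 ≤ v → |w' + v - w| ≤ X → |q' - v - q| ≤ X →
      R w' q' ≤ R (w' + v) (q' - v)) :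
    1 - 2 * ε ≤ mu ∧ -(2 * ε) ≤ la - mu := by
  have e0 : |w - w| ≤ X := by rw [sub_self, abs_zero]; exact hX.le
  have e1 : |q - q| ≤ X := by rw [sub_self, abs_zero]; exact hX.le
  have e2 : |q + X - q| ≤ X := by rw [add_sub_cancel_left, abs_of_pos hX]
  have e3 : |w + X - w| ≤ X := by rw [add_sub_cancel_left, abs_of_pos hX]
  have e4 : |q - X - q| ≤ X := by rw [sub_sub_cancel_left, abs_neg, abs_of_pos hX]
  have f0 := abs_le.1 (haff w q e0 e1)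
  have f1 := abs_le.1 (haff w (q + X) e0 e2)
  have f2 := abs_le.1 (haff (w + X) (q - X) e3 e4)
  have g1 := ha w q X e0 e1 hX.le e2
  have g2 := hw w q X e0 e1 hX.le e3 e4
  simp only [sub_self, mul_zero, add_zero, add_sub_cancel_left, sub_sub_cancel_left] at f0 f1 f2
  have k1 : (1 - 2 * ε) * X ≤ mu * X := by linarith only [g1, f0, f1, f0.1, f0.2, f1.1, f1.2]
  have k2 : -(2 * ε) * X ≤ (la - mu) * X := by linarith only [g2, f0, f2, f0.1, f0.2, f2.1, f2.2]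
  exact ⟨le_of_mul_le_mul_right k1 hX, le_of_mul_le_mul_right k2 hX⟩

/-- **A level on the grid**, in the chart (radius, window): `β i j = R (w + j ζ) (q + (i - j) ζ)`. -/
theorem grid_of {R : ℝ → ℝ → ℝ} {w q X ε R₀ la mu w' q' ζ : ℝ} {M : ℕ} (hX : 0 < X) (hε : 0 ≤ ε)
    (haff : ∀ w' q', |w' - w| ≤ X → |q' - q| ≤ X →
      |R w' q' - (R₀ + la * (w' - w) + mu * (q' - q))| ≤ ε * X)
    (ha : ∀ w' q' v, |w' - w| ≤ X → |q' - q| ≤ X → 0 ≤ v → |q' + v - q| ≤ X →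
      R w' q' + v ≤ R w' (q' + v))
    (hw : ∀ w' q' v, |w' - w| ≤ X → |q' - q| ≤ X → 0 ≤ v → |w' + v - w| ≤ X → |q' - v - q| ≤ X →
      R w' q' ≤ R (w' + v) (q' - v))
    (hζ : 0 < ζ) (hMζ : M * ζ ≤ X / 2) (hw' : |w' - w| ≤ X / 2) (hq' : |q' - q| ≤ X / 2)
    (hεζ : 6 * (ε * X) ≤ ζ / 4) :
    ∀ i ≤ M, ∀ j ≤ M, |R (w' + j * ζ) (q' + ((i : ℝ) - j) * ζ) - R w' q' -
      (max 1 mu * i + max 0 (la - mu) * j) * ζ| ≤ ζ / 4 := by
  obtain ⟨s1, s2⟩ := slopes_of hX haff ha hw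
  intro i hi j hj
  have hi' : (i : ℝ) ≤ M := by exact_mod_cast hi
  have hj' : (j : ℝ) ≤ M := by exact_mod_cast hj
  have hi0 : (0 : ℝ) ≤ i := Nat.cast_nonneg i
  have hj0 : (0 : ℝ) ≤ j := Nat.cast_nonneg j
  have i1 : (i : ℝ) * ζ ≤ X / 2 := (mul_le_mul_of_nonneg_right hi' hζ.le).trans hMζ
  have j1 : (j : ℝ) * ζ ≤ X / 2 := (mul_le_mul_of_nonneg_right hj' hζ.le).trans hMζ
  have i0 : 0 ≤ (i : ℝ) * ζ := mul_nonneg hi0 hζ.le
  have j0 : 0 ≤ (j : ℝ) * ζ := mul_nonneg hj0 hζ.le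
  obtain ⟨u1, u2⟩ := abs_le.1 hw'
  obtain ⟨v1, v2⟩ := abs_le.1 hq'
  have b1 := abs_le.1 (haff w' q' (hw'.trans (by linarith only [hX])) (hq'.trans (by linarith only [hX])))
  have b2 := abs_le.1 (haff (w' + j * ζ) (q' + ((i : ℝ) - j) * ζ)
    (by rw [abs_le]; constructor <;> linarith) (by rw [abs_le]; constructor <;> linarith))
  have m1 : mu ≤ max 1 mu := le_max_right _ _
  have m2 : max 1 mu ≤ mu + 2 * ε := max_le (by linarith only [s1]) (by linarith only [hε])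
  have m3 : la - mu ≤ max 0 (la - mu) := le_max_right _ _
  have m4 : max 0 (la - mu) ≤ la - mu + 2 * ε := max_le (by linarith only [s2]) (by linarith only [hε])
  have n1 := mul_le_mul_of_nonneg_right m1 i0
  have n2 := mul_le_mul_of_nonneg_right m2 i0
  have n3 := mul_le_mul_of_nonneg_right m3 j0
  have n4 := mul_le_mul_of_nonneg_right m4 j0
  have o1 : 2 * ε * (i * ζ) ≤ ε * X := by
    have := mul_le_mul_of_nonneg_left i1 hε
    linarith only [this]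
  have o2 : 2 * ε * (j * ζ) ≤ ε * X := by
    have := mul_le_mul_of_nonneg_left j1 hε
    linarith only [this]
  have hεX : 0 ≤ ε * X := mul_nonneg hε hX.le
  rw [abs_le]
  constructor <;> linarith [b1.1, b1.2, b2.1, b2.2]

end Pool.STAT
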