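import Pool.Agent.H40.MIC.GrdX
import Pool.Agent.H35.LBK.Lbk
import Pool.Agent.H90.STAT.FulC
import Pool.Agent.H45.EXA.Zlb
import Pool.Agent.H78.MIC.Cov
import Pool.Agent.H78.MIC.Grd

/-!
# The contradiction in a cell of a class

`RG m`: a grid of real radii and windows with the real sides of the labels and a property `X` of the
raw labels. `RG.Ok`: the labels of the grid on an event of a family, with the property. `Fld S G Φ`:
the field `Φ` holds for the labels of the grid on all events of the class `S`, for the law of the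
event.

`grid_false`: if the local theorem holds for the slopes of the grid (`MicAt`), the labels of the grid
exist in the class, the fields `Ok2`, `LLV`, `LLN`, `NF`, `TmU` hold and there is no new label, then
the class is empty.
-/

set_option autoImplicit false

namespace Pool.STAT

open Finset MvPolynomial
open Pool.Agent.H49.Ent Pool.Agent.H32.Dense Pool.STK Pool.KS3 Pool.KA Pool.KSAT Pool.PB Pool.GEN
open Pool.K2S Pool.S6C
open Pool.BFL (Pl CB Pb P2 MC alt)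
open CLO

variable {m : ℕ}

/-- **A grid of real radii `α + i ζ` and windows `ϖ + j ζ`**, with the real sides `b i j l` of the
labels of the coordinates `c l`, `l < n`. The labels of the family have the class `K` and the
property `X`, the exact labels have the class `K'` and lose `sh` digits. -/
structure RG (m : ℕ) : Type 1 where
  /-- the coordinates -/
  c : ℕ → Fin m
  /-- the number of the coordinates -/
  n : ℕ
  /-- the class of the chains -/
  K : ℕ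
  /-- the class of the exact labels -/
  K' : ℕ
  /-- a constant of the exact labels -/
  s₁ : ℕ
  /-- the lost digits -/
  sh : ℕ → ℕ
  /-- the size of the grid -/
  M : ℕ
  /-- the first radius -/
  α : ℝ
  /-- the first window -/
  ϖ : ℝ
  /-- the mesh -/
  ζ : ℝ
  /-- the exponents of the gradients -/
  e : ℕ → ℕ → ℝ
  /-- the sides -/
  b : ℕ → ℕ → ℕ → ℝ
  /-- the property of the labels -/
  X : CLO.LabX m
  /-- the property is stable under subevents -/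
  her : X.Her

namespace RG

variable (G : RG m)

/-- The sides of the labels of the grid in digits. -/
noncomputable def gn (J : ℕ) (i j l : ℕ) : ℕ := ⌊G.b i j l * J⌋₊

/-- **The labels of the grid** on an event of a family. -/
def Ok {J : ℕ} (F : Fam m J) (D : GDat F) (B : F.Ω → Prop) : Prop :=
  D.Ok G.c G.n G.K G.K' G.s₁ G.sh (up G.α J) (up G.ϖ J) (up G.ζ J) G.M
    (fun i j => ⌊G.e i j * J⌋₊) (G.gn J) B ∧ D.Has G.X G.M B

variable {G} in
theorem Ok.sub {J : ℕ} {F : Fam m J} {D : GDat F} {B B' : F.Ω → Prop} (h : G.Ok F D B)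
    (hB : Sub B' B) : G.Ok F D B' := ⟨GDat.Ok.sub h.1 hB, h.2.sub G.her hB⟩

/-- The cell of the grid. -/
noncomputable def nd {J : ℕ} {F : Fam m J} (D : GDat F) {R : ℕ → ℕ → Type}
    (ρ : (i j : ℕ) → LnT F → R i j) : NDat2 :=
  D.nd G.c G.n G.sh (up G.ϖ J) (up G.ζ J) G.M (G.gn J) ρ

end RG

/-- A statement on the labels of the grid and on a law. -/
abbrev FldT (m : ℕ) : Type 1 := (J : ℕ) → (F : Fam m J) → GDat F → (F.Ω → ℝ) → Prop

/-- **A field**: it holds for the labels of the grid on all events of the class, for the law of the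
event. -/
def Fld (S : PCl m) (G : RG m) (Φ : FldT m) : Prop :=
  Bas S fun J F B => ∀ D : GDat F, G.Ok F D B → Φ J F D (Pool.Agent.H49.Ent.cond F.p B True)

section fld

variable {S S' : PCl m} {G : RG m} {Φ Ψ : FldT m}

/-- The fields for labels with a property. -/
theorem Fld.iff_x : Fld S G Φ ↔
    FldX S G.X G.c G.n G.K G.K' G.s₁ G.sh G.α G.ϖ G.ζ G.M G.e G.b Φ :=
  ⟨fun h => Bas.mono 0 h fun _ _ _ _ h1 D hD hX => h1 D ⟨hD, hX⟩,
    fun h => Bas.mono 0 h fun _ _ _ _ h1 D hD => h1 D hD.1 hD.2⟩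

theorem Fld.and (h : Fld S G Φ) (h' : Fld S G Ψ) :
    Fld S G fun J F D q => Φ J F D q ∧ Ψ J F D q :=
  Bas.mono 0 (Bas.and h h') fun _ _ _ _ ⟨h1, h2⟩ D hD => ⟨h1 D hD, h2 D hD⟩

theorem Fld.mono (J₂ : ℕ) (h : Fld S G Φ) (hΨ : ∀ J ≥ J₂, ∀ (F : Fam m J) (D : GDat F)
    (q : F.Ω → ℝ), Φ J F D q → Ψ J F D q) : Fld S G Ψ :=
  Bas.mono J₂ h fun J hJ F _ h1 D hD => hΨ J hJ F D _ (h1 D hD)

theorem Fld.sub (hs : ∀ (τ : ℝ) (J : ℕ) (F : Fam m J) (A : F.Ω → Prop),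
    S'.St τ J F A → S.St τ J F A) (h : Fld S G Φ) : Fld S' G Φ := Bas.sub hs h

/-- Finitely many fields. -/
theorem Fld.all {ι : Type} (t : Finset ι) {Φ : ι → FldT m} (h : ∀ i ∈ t, Fld S G (Φ i)) :
    Fld S G fun J F D q => ∀ i ∈ t, Φ i J F D q := by
  classical
  induction t using Finset.induction_on with
  | empty => exact ⟨1, one_pos, 0, fun _ _ _ _ _ _ _ i hi => absurd hi (Finset.notMem_empty i)⟩
  | insert a t _ ih =>
    have h1 := (h a (Finset.mem_insert_self a t)).and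
      (ih fun i hi => h i (Finset.mem_insert_of_mem hi))
    refine h1.mono 0 fun J _ F D q hq i hi => ?_
    rcases Finset.mem_insert.1 hi with rfl | hi
    · exact hq.1
    · exact hq.2 i hi

/-- The law of an event of an event. -/
theorem cond_and {Ω : Type} [Fintype Ω] {p : Ω → ℝ} {B E : Ω → Prop} (hB : 0 < Pe p B)
    (hE : 0 < Pe p fun ω => B ω ∧ E ω) :
    Pool.Agent.H49.Ent.cond (Pool.Agent.H49.Ent.cond p B True) E True =
      Pool.Agent.H49.Ent.cond p (fun ω => B ω ∧ E ω) True := by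
  classical
  have e0 : ∀ (q : Ω → ℝ) (A : Ω → Prop), law q A True = ∑ ω, if A ω then q ω else 0 := by
    intro q A
    unfold law
    refine Finset.sum_congr rfl fun ω _ => ?_
    by_cases h : A ω <;> simp [h]
  have e1 : ∀ (q : Ω → ℝ) (A : Ω → Prop) (ω : Ω), Pool.Agent.H49.Ent.cond q A True ω =
      if A ω then q ω / law q A True else 0 := by
    intro q A ω
    unfold Pool.Agent.H49.Ent.cond
    by_cases h : A ω <;> simp [h]
  have hB' : law p B True = Pe p B := by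
    rw [Pool.LBK.Pe_sum, e0]
    rfl
  have hE' : law p (fun ω => B ω ∧ E ω) True = Pe p (fun ω => B ω ∧ E ω) := by
    rw [Pool.LBK.Pe_sum, e0]
    rfl
  have h2 : law (Pool.Agent.H49.Ent.cond p B True) E True =
      Pe p (fun ω => B ω ∧ E ω) / Pe p B := by
    rw [← hE', e0, e0, Finset.sum_div]
    refine Finset.sum_congr rfl fun ω _ => ?_
    rw [e1, hB']
    by_cases h : B ω <;> by_cases h' : E ω <;> simp [h, h']
  funext ω
  rw [e1, e1, e1, h2, hE', hB']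
  by_cases h : B ω <;> by_cases h' : E ω <;> simp [h, h']
  field_simp

/-- **A field for all large events** `E` of the events of the class. -/
theorem Fld.ev (hpos : ∀ (τ : ℝ) (J : ℕ) (F : Fam m J) (A : F.Ω → Prop), S.St τ J F A →
    0 < Pe F.p A) (h : Fld S G Φ) {η : ℝ} (hη : 0 < η) :
    Fld S G fun J F D q => ∀ E : F.Ω → Prop, η ≤ Pb q E →
      Φ J F D (Pool.Agent.H49.Ent.cond q E True) := by
  have h1 := Pool.LBK.Bas.ev h hη
  have hp : Bas S (fun _ F A => 0 < Pe F.p A) := ⟨1, one_pos, 0, fun J _ F A hA => hpos 1 J F A hA⟩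
  refine Bas.mono 0 (h1.and hp) ?_
  rintro J - F B ⟨h1, hB⟩ D hD E hE
  have hsub : Sub (fun ω => B ω ∧ E ω) B := fun ω hω => hω.1
  have h3 : Pb (Pool.Agent.H49.Ent.cond F.p B True) E ≤
      Pb (Pool.Agent.H49.Ent.cond F.p B True) fun ω => B ω ∧ E ω := by
    classical
    unfold Pb
    refine Finset.sum_le_sum fun ω _ => ?_
    have h0 := cond_nonneg F.isLaw.nonneg B True ω
    by_cases h5 : E ω
    · by_cases h6 : B ω
      · simp [h5, h6]
      · have h7 : Pool.Agent.H49.Ent.cond F.p B True ω = 0 := by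
          unfold Pool.Agent.H49.Ent.cond
          simp [h6]
        simp [h5, h6, h7]
    · rw [if_neg h5]
      split_ifs <;> first | exact h0 | exact le_rfl
  have h4 : η * Pe F.p B ≤ Pe F.p fun ω => B ω ∧ E ω := by
    rw [← Pool.LBK.Pb_cond_sub hsub hB]
    exact mul_le_mul_of_nonneg_right (hE.trans h3) hB.le
  have h5 : 0 < Pe F.p fun ω => B ω ∧ E ω := (mul_pos hη hB).trans_le h4
  rw [cond_and hB h5]
  exact h1 _ hsub h4 D (hD.sub hsub)

end fld

/-! ### The rows -/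

/-- **Nonfull rows** for one law. -/
def NDat2.NF1 (D : NDat2) (n z M B : ℕ) (gam : ℕ → ℝ) (h C₁ : ℝ) (q : D.Ω → ℝ) : Prop :=
  ∀ i ≤ M, ∀ j ≤ M, ∀ r U : ℕ, i + r + U ≤ M → (r + U : ℝ) ≤ gam n * (M - j) →
    CH q (D.nd n i j ((r + U) * z))
      (fun ω => (D.nd n i j (r * z) ω,
        (D.vd n i j (B * ((r + U) * z)) ω, (D.s i j ω, D.T ω)))) ≤
      (1 - h) * (U * z) * Real.log 2 + C₁ * z

/-- Nonfull rows on all large events, from the events of the class. -/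
theorem nf_of_fld {S : PCl m} {G : RG m} {R : (J : ℕ) → Fam m J → ℕ → ℕ → Type}
    {ρ : (J : ℕ) → (F : Fam m J) → (i j : ℕ) → LnT F → R J F i j}
    (hpos : ∀ (τ : ℝ) (J : ℕ) (F : Fam m J) (A : F.Ω → Prop), S.St τ J F A → 0 < Pe F.p A)
    {B : ℕ} {gam : ℕ → ℝ} {h C₁ : ℝ}
    (H : Fld S G fun J F D q => (G.nd D (ρ J F)).NF1 G.n (up G.ζ J) G.M B gam h C₁ q)
    {η : ℝ} (hη : 0 < η) :
    Fld S G fun J F D q => (G.nd D (ρ J F)).NF G.n (up G.ζ J) G.M B gam h C₁ η q :=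
  (H.ev hpos hη).mono 0 fun _ _ _ _ _ h1 i hi j hj r U h2 h3 E hE => h1 E hE i hi j hj r U h2 h3

/-! ### The time -/

/-- The time is uniform. -/
theorem tmU_of_fld {S : PCl m} {G : RG m} {R : (J : ℕ) → Fam m J → ℕ → ℕ → Type}
    (ρ : (J : ℕ) → (F : Fam m J) → (i j : ℕ) → LnT F → R J F i j) {C₀ : ℝ} (hC₀ : 0 ≤ C₀)
    (htm : TmC S C₀) (hζ : 0 < G.ζ) (hϖ : G.ϖ ≤ 1) {κ : ℝ} (hκ : 0 < κ) :
    Fld S G fun J F D q => (G.nd D (ρ J F)).TmU J (up G.ϖ J) (up G.ζ J) κ q := by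
  obtain ⟨τ, hτ⟩ : ∃ τ, τ = κ * G.ζ / (C₀ + 1) := ⟨_, rfl⟩
  have hτ0 : 0 < τ := by rw [hτ]; positivity
  refine ⟨τ, hτ0, 1, fun J hJ F B hB D _ => ?_⟩
  obtain ⟨h1, h2⟩ := htm τ J F B hτ0 hB
  have h3 := h2 (isLaw_cond F.isLaw h1)
  have h4 : (Pool.FLF.Fam.sub F B h1).Tm (C₀ * τ * J) := by
    unfold Fam.Tm at h3 ⊢
    refine h3.trans (le_of_eq ?_)
    exact (Pool.FLF.sub_CH F.T (fun ω => (F.l ω, F.Z ω))).symm
  have hw : up G.ϖ J ≤ J := by
    refine Nat.ceil_le.2 ?_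
    have : (0 : ℝ) ≤ J := Nat.cast_nonneg J
    nlinarith only [hϖ]
  have h5 := CDat.nd_time h1 h4 hw
  have h6 : C₀ * τ * J ≤ κ * up G.ζ J := by
    have h7 : G.ζ * J ≤ up G.ζ J := up_ge G.ζ J
    have h8 : C₀ * τ ≤ κ * G.ζ := by
      rw [hτ, mul_div_assoc']
      rw [div_le_iff₀ (by linarith only [hC₀])]
      have : 0 ≤ κ * G.ζ := by positivity
      nlinarith only [this]
    calc C₀ * τ * J ≤ κ * G.ζ * J := mul_le_mul_of_nonneg_right h8 (Nat.cast_nonneg J)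
      _ = κ * (G.ζ * J) := by ring
      _ ≤ κ * up G.ζ J := mul_le_mul_of_nonneg_left h7 hκ.le
  show ((J - up G.ϖ J : ℕ) : ℝ) * Real.log 2 - κ * (up G.ζ J : ℕ) ≤
    CH (Pool.Agent.H49.Ent.cond F.p B True) F.T (slam F (up G.ϖ J))
  linarith only [h5, h6]

/-! ### The contradiction -/

/-- Statements about large subevents are realized. -/
theorem bas_real {S : PCl m} (hS : S.Ne) {c : ℝ} (hc : 0 < c) {Φ Ψ : Stat m} (hΦ : Bas S Φ)
    (hΨ : Bas S fun J F A => ∃ B : F.Ω → Prop, Sub B A ∧ Pe F.p A ≤ c * Pe F.p B ∧ Ψ J F B)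
    (J₂ : ℕ) : ∃ J ≥ J₂, ∃ (F : Fam m J) (B : F.Ω → Prop), Φ J F B ∧ Ψ J F B := by
  have h1 := Pool.LBK.Bas.ev hΦ (show 0 < 1 / c by positivity)
  obtain ⟨τ, hτ, J₁, h⟩ := h1.and hΨ
  obtain ⟨J, hJ, F, A, hA⟩ := hS τ hτ (max J₁ J₂)
  obtain ⟨h2, B, hBA, hP, h3⟩ := h J ((le_max_left _ _).trans hJ) F A hA
  refine ⟨J, (le_max_right _ _).trans hJ, F, B, h2 B hBA ?_, h3⟩
  rw [one_div, inv_mul_le_iff₀ hc]
  exact hP

/-- **The contradiction in a cell.** -/
theorem grid_false {S : PCl m} (hS : S.Ne) {G : RG m} {R : (J : ℕ) → Fam m J → ℕ → ℕ → Type}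
    {ρ : (J : ℕ) → (F : Fam m J) → (i j : ℕ) → LnT F → R J F i j} {A B Rr K'' z₀ : ℕ}
    {lam gam : ℕ → ℝ} {C₁ h η' κ η : ℝ} (hζ : 0 < G.ζ)
    (mic : MicAt G.n G.K' A B Rr lam gam C₁ h G.M K'' η' κ η z₀)
    (grd : Lg S fun _ F A => ∃ D : GDat F, G.Ok F D A)
    (ok2 : Fld S G fun J F D q => (G.nd D (ρ J F)).Ok2 G.n G.K' J (up G.α J) (up G.ϖ J)
      (up G.ζ J) G.M lam gam κ C₁ q)
    (llv : Fld S G fun J F D q => (G.nd D (ρ J F)).LLV G.n (up G.ζ J) G.M κ q)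
    (lln : Fld S G fun J F D q => (G.nd D (ρ J F)).LLN G.n (up G.ζ J) G.M Rr κ q)
    (nf : Fld S G fun J F D q => (G.nd D (ρ J F)).NF G.n (up G.ζ J) G.M B gam h C₁ η q)
    (tm : Fld S G fun J F D q => (G.nd D (ρ J F)).TmU J (up G.ϖ J) (up G.ζ J) κ q)
    (no : Fld S G fun J F D q => ∀ i ≤ G.M, ∀ j ≤ G.M, ¬ (G.nd D (ρ J F)).NewLab2 J (up G.α J)
      (up G.ϖ J) (up G.ζ J) i j G.n A K'' η' q) : False := by
  obtain ⟨c, hc, grd⟩ := grd
  obtain ⟨J₂, hJ₂⟩ := exists_nat_ge ((z₀ : ℝ) / G.ζ)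
  obtain ⟨J, hJ, F, B', h1, D, hD⟩ := bas_real hS (one_pos.trans_le hc)
    (((((ok2.and llv).and lln).and nf).and tm).and no) grd J₂
  obtain ⟨⟨⟨⟨⟨h2, h3⟩, h4⟩, h5⟩, h6⟩, h7⟩ := h1 D hD
  have hz : z₀ ≤ up G.ζ J := by
    have h8 : (J₂ : ℝ) ≤ J := by exact_mod_cast hJ
    have h9 : (z₀ : ℝ) / G.ζ ≤ J := hJ₂.trans h8
    rw [div_le_iff₀ hζ] at h9
    have h10 : G.ζ * J ≤ up G.ζ J := up_ge G.ζ J
    have h11 : (z₀ : ℝ) ≤ up G.ζ J := by linarith only [h9, h10]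
    exact_mod_cast h11
  obtain ⟨i, hi, j, hj, h8⟩ := mic J (up G.α J) (up G.ϖ J) (up G.ζ J) (G.nd D (ρ J F)) _ hz h2 h3
    h4 h5 h6
  exact h7 i hi j hj h8

end Pool.STAT
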