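import Pool.Agent.H78.MIC.Asm
import Pool.Agent.H2.GEN.ChB

/-!
# No new label in the cell of a grid

`no_new`: the chain of a new label of the target at `(i, j)` would be a better chain of the class
than the threshold `P` of the chains with restricted sides `β` allows.
-/

set_option autoImplicit false

namespace Pool.STAT

open Finset MvPolynomial
open Pool.Agent.H49.Ent Pool.Agent.H32.Dense Pool.STK Pool.KS3 Pool.KA Pool.KSAT Pool.PB Pool.GEN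
open Pool.K2S Pool.S6C
open Pool.CHT (bet)
open Pool.CHB (chsysB no_B)
open Pool.LBT (ThrOf fl_le')
open CLO

variable {m : ℕ}

/-- Integer points of the grid stay before a later real point. -/
theorem grid_le {x ζ y : ℝ} {i : ℕ} (hx : 0 ≤ x) (hζ : 0 ≤ ζ) (hy : x + i * ζ < y) :
    ∃ J₁ : ℕ, ∀ J ≥ J₁, up x J + i * up ζ J ≤ ⌊y * J⌋₊ := by
  obtain ⟨J₁, hJ₁⟩ := exists_nat_ge (((i : ℝ) + 1) / (y - (x + i * ζ)))
  refine ⟨J₁, fun J hJ => Nat.le_floor ?_⟩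
  have h1 : (J₁ : ℝ) ≤ J := by exact_mod_cast hJ
  have h2 := hJ₁.trans h1
  rw [div_le_iff₀ (by linarith only [hy])] at h2
  have h3 := up_le hx J
  have h4 := mul_le_mul_of_nonneg_left (up_le hζ J) (Nat.cast_nonneg (α := ℝ) i)
  push_cast
  linarith only [h2, h3, h4]

/-- **The numbers of a new label** at the pair `(i, j)` of the grid. -/
theorem cd_ev {L : ℕ → ℝ → ℝ → ℝ} {G : RG m} {l i j A : ℕ}
    {a w : ℚ} {h δ : ℝ} (hi : i ≤ G.M) (hj : j ≤ G.M)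
    (hϖ : 0 ≤ G.ϖ) (hζ : 0 < G.ζ) (hthin : G.ϖ + (G.M + 1) * G.ζ < G.α)
    (htop : G.α + (G.M + 1) * G.ζ < 1) (hw : G.ϖ + j * G.ζ < w) (ha : G.α + i * G.ζ < a)
    (ha1 : a ≤ 1) (hh : 0 < h)
    (hside : ∀ k < l, ∀ x y : ℝ, G.α + i * G.ζ ≤ x → G.ϖ + j * G.ζ ≤ y → y ≤ x → x ≤ 1 →
      G.b i j k ≤ L k x y - δ)
    (hb0 : ∀ k ≤ l, 0 ≤ G.b i j k) (hb1 : ∀ k < l, G.b i j k ≤ 1)
    (hbig : L l a w + 2 * h ≤ G.b i j l + A * G.ζ) (hsm : G.b i j l + A * G.ζ < 1) :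
    ∃ J₁ : ℕ, ∀ J ≥ J₁, 1 ≤ J ∧ up G.ϖ J + j * up G.ζ J ≤ up G.α J + i * up G.ζ J ∧
      up G.α J + i * up G.ζ J ≤ ⌊(a : ℝ) * J⌋₊ ∧ up G.ϖ J + j * up G.ζ J ≤ ⌊(w : ℝ) * J⌋₊ ∧
      (∀ k ≤ l, Pool.LBK.gv (fun i j l => G.gn J i j (l - 1) - G.sh l) i j l
        (G.gn J i j l - G.sh (l + 1) + A * up G.ζ J) k ≤ J) ∧
      (∀ k < l, (Pool.LBK.gv (fun i j l => G.gn J i j (l - 1) - G.sh l) i j l
        (G.gn J i j l - G.sh (l + 1) + A * up G.ζ J) k : ℝ) ≤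
        max 0 ((L k (((up G.α J + i * up G.ζ J : ℕ) : ℝ) / J)
          (((up G.ϖ J + j * up G.ζ J : ℕ) : ℝ) / J) - δ) * J)) ∧
      ⌊(L l a w + h) * J⌋₊ + (up G.α J + i * up G.ζ J) ≤
        Pool.LBK.gv (fun i j l => G.gn J i j (l - 1) - G.sh l) i j l
          (G.gn J i j l - G.sh (l + 1) + A * up G.ζ J) l + ⌊(a : ℝ) * J⌋₊ := by
  have hα : 0 ≤ G.α := by
    have : 0 ≤ ((G.M : ℝ) + 1) * G.ζ := by positivity
    linarith only [hϖ, hthin, this]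
  have haR : (a : ℝ) ≤ 1 := by exact_mod_cast ha1
  obtain ⟨J₁, h1⟩ := grid_ev hϖ hζ hthin htop
  obtain ⟨J₂, h2⟩ := grid_le hα hζ.le ha
  obtain ⟨J₃, h3⟩ := grid_le hϖ hζ.le hw
  obtain ⟨J₄, hJ₄⟩ := exists_nat_ge ((G.sh (l + 1) + 1) / h : ℝ)
  obtain ⟨J₅, hJ₅⟩ := exists_nat_ge ((A + 1) / (1 - (G.b i j l + A * G.ζ)) : ℝ)
  refine ⟨max (max (max J₁ J₂) (max J₃ J₄)) (max J₅ 1), fun J hJ => ?_⟩
  have j1 : J₁ ≤ J := by omega
  have j2 : J₂ ≤ J := by omega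
  have j3 : J₃ ≤ J := by omega
  have j4 : J₄ ≤ J := by omega
  have j5 : J₅ ≤ J := by omega
  have j6 : 1 ≤ J := by omega
  obtain ⟨k1, k2, k3⟩ := h1 J j1
  have k4 := h2 J j2
  have k5 := h3 J j3
  have hJ0 : (0 : ℝ) < J := by exact_mod_cast j6
  have hiz : i * up G.ζ J ≤ (G.M + 1) * up G.ζ J := Nat.mul_le_mul_right _ (by omega)
  have hjz : j * up G.ζ J ≤ (G.M + 1) * up G.ζ J := Nat.mul_le_mul_right _ (by omega)
  obtain ⟨g, hg⟩ : ∃ g : ℕ → ℕ → ℕ → ℕ, g = fun i j l => G.gn J i j (l - 1) - G.sh l := ⟨_, rfl⟩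
  have hgv : ∀ k, g i j (k + 1) = ⌊G.b i j k * J⌋₊ - G.sh (k + 1) := fun k => by rw [hg]; rfl
  have hgl : G.gn J i j l - G.sh (l + 1) = g i j (l + 1) := by rw [hgv]; rfl
  rw [← hg, hgl]
  have hlow : G.b i j l * J - 1 - G.sh (l + 1) ≤ g i j (l + 1) := by
    rw [hgv]
    have e1 := Nat.lt_floor_add_one (G.b i j l * J)
    have e2 : (⌊G.b i j l * J⌋₊ : ℝ) ≤ ((⌊G.b i j l * J⌋₊ - G.sh (l + 1) : ℕ) : ℝ) +
        G.sh (l + 1) := by
      exact_mod_cast (by omega : ⌊G.b i j l * J⌋₊ ≤ (⌊G.b i j l * J⌋₊ - G.sh (l + 1)) +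
        G.sh (l + 1))
    linarith only [e1, e2]
  have hup : (g i j (l + 1) : ℝ) ≤ G.b i j l * J := by
    rw [hgv]
    refine le_trans ?_ (Nat.floor_le (mul_nonneg (hb0 l le_rfl) hJ0.le))
    exact_mod_cast Nat.sub_le _ _
  have hz1 : G.ζ * J ≤ up G.ζ J := up_ge G.ζ J
  have hz2 := up_le hζ.le J
  have hA0 : (0 : ℝ) ≤ A := Nat.cast_nonneg A
  refine ⟨j6, by omega, k4, k5, fun k hk => ?_, fun k hk => ?_, ?_⟩
  · unfold Pool.LBK.gv
    split_ifs with hkl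
    · have e1 : ((g i j (l + 1) + A * up G.ζ J : ℕ) : ℝ) ≤ (J : ℝ) := by
        push_cast
        have e2 : ((A : ℝ) + 1) / (1 - (G.b i j l + A * G.ζ)) ≤ J :=
          hJ₅.trans (by exact_mod_cast j5)
        rw [div_le_iff₀ (by linarith only [hsm])] at e2
        have e3 := mul_le_mul_of_nonneg_left hz2 hA0
        linarith only [hup, e2, e3]
      exact_mod_cast e1
    · rw [hgv]
      refine (Nat.sub_le _ _).trans (fl_le' (hb1 k (lt_of_le_of_ne hk hkl)) J)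
  · unfold Pool.LBK.gv
    rw [if_neg (by omega), hgv]
    refine le_max_of_le_right ?_
    have e1 : (((⌊G.b i j k * J⌋₊ - G.sh (k + 1) : ℕ)) : ℝ) ≤ G.b i j k * J := by
      refine le_trans ?_ (Nat.floor_le (mul_nonneg (hb0 k hk.le) hJ0.le))
      exact_mod_cast Nat.sub_le _ _
    refine e1.trans (mul_le_mul_of_nonneg_right ?_ hJ0.le)
    refine hside k hk _ _ ?_ ?_ ?_ ?_
    · rw [le_div_iff₀ hJ0]
      push_cast
      have e2 := up_ge G.α J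
      have e3 := mul_le_mul_of_nonneg_left hz1 (Nat.cast_nonneg (α := ℝ) i)
      linarith only [e2, e3]
    · rw [le_div_iff₀ hJ0]
      push_cast
      have e2 := up_ge G.ϖ J
      have e3 := mul_le_mul_of_nonneg_left hz1 (Nat.cast_nonneg (α := ℝ) j)
      linarith only [e2, e3]
    · refine div_le_div_of_nonneg_right ?_ hJ0.le
      exact_mod_cast (by omega : up G.ϖ J + j * up G.ζ J ≤ up G.α J + i * up G.ζ J)
    · refine div_le_one_of_le₀ ?_ hJ0.le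
      exact_mod_cast k4.trans (fl_le' haR J)
  · unfold Pool.LBK.gv
    rw [if_pos rfl]
    refine Nat.add_le_add ?_ k4
    have e1 : ((G.sh (l + 1) : ℝ) + 1) / h ≤ J := hJ₄.trans (by exact_mod_cast j4)
    rw [div_le_iff₀ hh] at e1
    have e2 : (⌊(L l a w + h) * J⌋₊ : ℝ) ≤ ((g i j (l + 1) + A * up G.ζ J : ℕ) : ℝ) := by
      rcases le_or_gt 0 (L l a w + h) with h6 | h6
      · refine (Nat.floor_le (mul_nonneg h6 hJ0.le)).trans ?_
        push_cast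
        have e3 := mul_le_mul_of_nonneg_left hz1 hA0
        have e4 := mul_le_mul_of_nonneg_right hbig hJ0.le
        linarith only [hlow, e1, e3, e4]
      · rw [Nat.floor_of_nonpos (by nlinarith only [h6])]
        simp
        positivity
    exact_mod_cast e2

/-- **No new label** of the target at the pair `(i, j)` of the grid. -/
theorem no_new {S : PCl m} {β P : List (Fin m) × Fin m → ℝ → ℝ → ℝ}
    (hP : ThrOf (chsysB m none β) S P)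
    (hpos : ∀ (τ : ℝ) (J : ℕ) (F : Fam m J) (A : F.Ω → Prop), S.St τ J F A → 0 < Pe F.p A)
    {G : RG m} {R : (J : ℕ) → Fam m J → ℕ → ℕ → Type}
    (ρ : (J : ℕ) → (F : Fam m J) → (i j : ℕ) → LnT F → R J F i j) {l i j A K'' : ℕ}
    {a w : ℚ} {h δ η' : ℝ} (hn : G.n = l + 1) (hi : i ≤ G.M) (hj : j ≤ G.M) (hK' : 1 ≤ G.K')
    (hϖ : 0 ≤ G.ϖ) (hζ : 0 < G.ζ) (hthin : G.ϖ + (G.M + 1) * G.ζ < G.α)
    (htop : G.α + (G.M + 1) * G.ζ < 1) (hw : G.ϖ + j * G.ζ < w) (ha : G.α + i * G.ζ < a)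
    (hwa : w ≤ a) (ha1 : a ≤ 1) (hh : 0 < h) (hδ : 0 < δ) (hη : 0 < η')
    (hside : ∀ k < l, ∀ x y : ℝ, G.α + i * G.ζ ≤ x → G.ϖ + j * G.ζ ≤ y → y ≤ x → x ≤ 1 →
      G.b i j k ≤ bet β G.c k x y - δ)
    (hb0 : ∀ k ≤ l, 0 ≤ G.b i j k) (hb1 : ∀ k < l, G.b i j k ≤ 1) (hP1 : bet P G.c l a w + h ≤ 1)
    (hbig : bet P G.c l a w + 2 * h ≤ G.b i j l + A * G.ζ) (hsm : G.b i j l + A * G.ζ < 1) :
    Fld S G fun J F D q => ¬ (G.nd D (ρ J F)).NewLab2 J (up G.α J) (up G.ϖ J) (up G.ζ J) i j G.n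
      A K'' η' q := by
  obtain ⟨K, hK⟩ : ∃ K, K = max G.K' K'' := ⟨_, rfl⟩
  have hjζ : 0 ≤ (j : ℝ) * G.ζ := by positivity
  have hw0 : (0 : ℚ) ≤ w := by
    have : (0 : ℝ) ≤ w := by linarith only [hϖ, hw, hjζ]
    exact_mod_cast this
  have haR : (a : ℝ) ≤ 1 := by exact_mod_cast ha1
  -- the conditions
  obtain ⟨Cd, hCd⟩ : ∃ Cd : (J : ℕ) → ℕ → ℕ → (ℕ → ℕ) → Prop, Cd = fun (J a₀ w₀ : ℕ)
      (g : ℕ → ℕ) => w₀ ≤ a₀ ∧ a₀ ≤ ⌊(a : ℝ) * J⌋₊ ∧ w₀ ≤ ⌊(w : ℝ) * J⌋₊ ∧ (∀ k ≤ l, g k ≤ J) ∧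
      (∀ k < l, (g k : ℝ) ≤ max 0 ((bet β G.c k (a₀ / J) (w₀ / J) - δ) * J)) ∧
      ⌊(bet P G.c l a w + h) * J⌋₊ + a₀ ≤ g l + ⌊(a : ℝ) * J⌋₊ := ⟨_, rfl⟩
  have hno : Bas S (fun J F A => ∀ (a₀ w₀ e₀ : ℕ) (g : ℕ → ℕ), Cd J a₀ w₀ g →
      ¬ ChN F G.c (l + 1) (fun _ => K) a₀ w₀ e₀ g A) := by
    refine Bas.mono 1 (no_B hP G.c l (fun _ => K) a w 0 h δ hw0 hwa ha1 (fun _ h => by simp at h)
      hh hδ hP1) ?_
    intro J hJ F A hn' a₀ w₀ e₀ g hcd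
    rw [hCd] at hcd
    obtain ⟨c1, c2, c3, c4, c5, c6⟩ := hcd
    have hJ0 : (0 : ℝ) < J := by exact_mod_cast hJ
    have a₀J : a₀ ≤ J := c2.trans (fl_le' haR J)
    have f1 := Pool.CHB.floor_div a₀J
    have f2 := Pool.CHB.floor_div (c1.trans a₀J)
    have h1 := hn' ((a₀ : ℝ) / J) ((w₀ : ℝ) / J) e₀ g (by positivity)
      (div_le_div_of_nonneg_right (by exact_mod_cast c1) hJ0.le)
      (div_le_one_of_le₀ (by exact_mod_cast a₀J) hJ0.le) (by rw [f1]; exact c2)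
      (by rw [f2]; exact c3) (fun _ h => by simp at h) c4 c5 (by rw [f1]; exact c6)
    rwa [f1, f2] at h1
  have hback := Pool.LBK.lab_back_of G.c l K η' hη Cd hno hpos
  obtain ⟨J₁, h1⟩ := cd_ev (L := fun k => if k < l then bet β G.c k else bet P G.c k) (h := h)
    (δ := δ) (A := A) (a := a) (w := w) hi hj hϖ hζ hthin htop hw ha ha1 hh
    (fun k hk x y => by simp only [if_pos hk]; exact hside k hk x y) hb0 hb1
    (by simp only [if_neg (lt_irrefl l)]; exact hbig) hsm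
  refine Bas.mono J₁ hback ?_
  intro J hJ F B hb D hD
  obtain ⟨j6, k1, k2, k3, k4, k5, k6⟩ := h1 J hJ
  simp only [if_neg (lt_irrefl l)] at k6
  replace k5 := fun k (hk : k < l) => by
    have := k5 k hk
    simp only [if_pos hk] at this
    exact this
  have hcnd := CLO.GDat.Ok.cnd hD.1 hK' (ρ J F)
  have hnew := hb G.n (D.cd G.n (ρ J F)) (cx F fun i => G.c (i - 1)) (pc G.c) G.K' K''
    (up G.α J) (up G.ϖ J) (up G.ζ J) G.M (fun i j l => G.gn J i j (l - 1) - G.sh l) i j A hcnd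
    (fun ω _ k _ => if_neg (by omega)) (by rw [hK]; exact le_max_left _ _)
    (by rw [hK]; exact le_max_right _ _) hi hj (by omega) ?_ ?_
  · rw [← hn] at hnew
    exact hnew
  · exact k1.trans (k2.trans (fl_le' haR J))
  · rw [hCd]
    exact ⟨k1, k2, k3, k4, k5, k6⟩

/-- **No new label** at all pairs. -/
theorem no_new_all {S : PCl m} {G : RG m} {R : (J : ℕ) → Fam m J → ℕ → ℕ → Type}
    (ρ : (J : ℕ) → (F : Fam m J) → (i j : ℕ) → LnT F → R J F i j) {A K'' : ℕ} {η' : ℝ}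
    (h : ∀ i ≤ G.M, ∀ j ≤ G.M, Fld S G fun J F D q => ¬ (G.nd D (ρ J F)).NewLab2 J (up G.α J)
      (up G.ϖ J) (up G.ζ J) i j G.n A K'' η' q) :
    Fld S G fun J F D q => ∀ i ≤ G.M, ∀ j ≤ G.M, ¬ (G.nd D (ρ J F)).NewLab2 J (up G.α J)
      (up G.ϖ J) (up G.ζ J) i j G.n A K'' η' q := by
  have h1 := Fld.all (S := S) (G := G) (range (G.M + 1) ×ˢ range (G.M + 1))
    (Φ := fun p J F D q => ¬ (G.nd D (ρ J F)).NewLab2 J (up G.α J)
      (up G.ϖ J) (up G.ζ J) p.1 p.2 G.n A K'' η' q) fun p hp => by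
    rw [Finset.mem_product, mem_range, mem_range] at hp
    exact h p.1 (by omega) p.2 (by omega)
  refine h1.mono 0 fun J _ F D q hq i hi j hj => hq (i, j) ?_
  rw [Finset.mem_product, mem_range, mem_range]
  exact ⟨Nat.lt_succ_of_le hi, Nat.lt_succ_of_le hj⟩

end Pool.STAT
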