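import Pool.Agent.H78.MIC.Bck

/-!
# New labels against thresholds of labels with a property

`chok_of_new`: the chain of a new label of the cell, explicitly: the labels of the coordinates before
the target are the closed labels of the cell. `no_newX`: there is no new label, if the thresholds are
numbers of chains with a property `XN`, and if the chain of a new label has this property.
-/

set_option autoImplicit false

namespace Pool.LBK

open Finset Real MvPolynomial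
open Pool.Agent.H49.Ent Pool.Agent.H32.Dense Pool.STK Pool.KA Pool.KSAT Pool.K2S Pool.PB Pool.S6C
open Pool.GEN (bt bd PtT LnT DepC NBx ChOK ChN Chn)
open Pool.STAT (PN NDat2 CDat2)
open Pool.BFL (Pb)

variable {m J n : ℕ} {F : Fam m J} {C : CDat2 F n} {X : F.Ω → ℕ → ℝ}
  {pa : Pool.STAT.Ln2 F → ℕ → Polynomial ℝ} {K a₀ w₀ z M : ℕ} {g : ℕ → ℕ → ℕ → ℕ} {A : F.Ω → Prop}

/-- **The chain of a new label**, explicitly. -/
theorem chok_of_new (hC : C.Cnd2 X pa K a₀ w₀ z M g A) (c : ℕ → Fin m)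
    (hX : ∀ ω, A ω → ∀ k < n, X ω (k + 1) = F.x ω (c k)) {i j l P K' : ℕ} (hi : i ≤ M)
    (hj : j ≤ M) (hwJ : w₀ + j * z ≤ J) (hl : l < n) {Gn : Pool.STAT.Pt2 F → PN}
    {Hn : Pool.STAT.Ln2 F × ℕ → PN}
    (hGn : ∀ x, (Gn x).totalDegree ≤ K' ∧ (Gn x).vars ⊆ range (l + 1))
    (hHn : ∀ x, (Hn x).totalDegree ≤ K' ∧ (Hn x).vars ⊆ range (l + 1)) {B : F.Ω → Prop}
    (hBA : ∀ ω, B ω → A ω)
    (hpos : ∀ ω, B ω → |X ω (l + 1) - eval (X ω) (Gn (ptr F J ω))| ≤ 1 / 2 ^ P)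
    (hagr : ∀ ω, B ω → ∀ b : ℕ → ℝ, C.Nb2 X g i j (a₀ + i * z) (l + 1) ω b →
      |eval b (Gn (ptr F J ω)) - eval b (Hn (slam F w₀ ω, F.T1 (w₀ + j * z) ω))| ≤ 1 / 2 ^ P) :
    ∃ e : ℕ, ChOK F c (l + 1) (fun _ => max K K') (a₀ + i * z) (w₀ + j * z) e (gv g i j l P) B
      (Gv C c i j l Gn) (Hv C c w₀ (w₀ + j * z) i j l Hn) := by
  have hdG : ∀ y k, DepC c k (Gv C c i j l Gn y k) := by
    intro y k
    unfold Gv
    split_ifs with h1 h2
    · exact dep_tr (hC.Gtri i hi j hj _ _ (by omega) (by omega))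
    · rw [h2]
      exact dep_tr (hGn y).2
    · intro b b' _ _
      rw [map_zero, map_zero]
  obtain ⟨e, he⟩ := lip_ex F (l + 1) (a₀ + i * z) (gv g i j l P) hdG
  -- the values at the point
  have hbt : ∀ ω, A ω → ∀ (Q : PN) (k : ℕ), k ≤ n → Q.vars ⊆ range (k + 1) →
      eval (bt F ω) (tr c Q) = eval (X ω) Q := by
    intro ω hω Q k hk hQ
    rw [eval_tr]
    refine eval_vars hQ fun k' hk' => ?_
    cases k' with
    | zero => exact (hC.X_zero ω).symm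
    | succ k' => exact (hX ω hω k' (by omega)).symm
  -- the boxes
  have hbx : ∀ ω, ∀ k ≤ l, ∀ b : Option (Fin m) → ℝ,
      NBx c (Gv C c i j l Gn (ptr F J ω)) (gv g i j l P) (a₀ + i * z) (F.t ω) k b →
      C.Nb2 X g i j (a₀ + i * z) (k + 1) ω (b ∘ vc c) := by
    intro ω k hk b hb
    refine ⟨?_, fun k' h1 h2 => ?_⟩
    · rw [hC.X_zero ω]
      exact hb.1
    · obtain ⟨k'', rfl⟩ : ∃ k'', k' = k'' + 1 := ⟨k' - 1, by omega⟩
      have h3 := hb.2 k'' (by omega)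
      unfold Gv gv at h3
      rw [if_pos (by omega), if_neg (by omega), eval_tr] at h3
      exact h3
  refine ⟨e, ?_, ?_, hdG, ?_, ?_, ?_, ?_⟩
  · intro y k
    unfold Gv
    split_ifs with h1 h2
    · exact (deg_tr c _).trans ((hC.Gdeg i hi j hj _ _ (by omega) (by omega)).trans
        (le_max_left _ _))
    · exact (deg_tr c _).trans ((hGn y).1.trans (le_max_right _ _))
    · rw [totalDegree_zero]
      exact Nat.zero_le _
  · intro s k
    unfold Hv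
    split_ifs with h1 h2
    · exact (deg_tr c _).trans ((hC.Pdeg i hi j hj _ _ (by omega) (by omega)).trans
        (le_max_left _ _))
    · exact (deg_tr c _).trans ((hHn _).1.trans (le_max_right _ _))
    · rw [totalDegree_zero]
      exact Nat.zero_le _
  · intro s k
    unfold Hv
    split_ifs with h1 h2
    · exact dep_tr (hC.Ptri i hi j hj _ _ (by omega) (by omega))
    · rw [h2]
      exact dep_tr (hHn _).2
    · intro b b' _ _
      rw [map_zero, map_zero]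
  · intro ω hω k hk
    have hA := hBA ω hω
    rcases Nat.lt_succ_iff_lt_or_eq.1 hk with hk | rfl
    · unfold Gv gv
      rw [if_pos hk, if_neg hk.ne, hbt ω hA _ k (by omega)
        (hC.Gtri i hi j hj _ _ (by omega) (by omega)), ← hX ω hA k (by omega)]
      exact hC.pos i hi j hj ω hA (k + 1) (by omega) (by omega)
    · unfold Gv gv
      rw [if_neg (lt_irrefl k), if_pos rfl, if_pos rfl, hbt ω hA _ k (by omega) (hGn _).2,
        ← hX ω hA k (by omega)]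
      exact hpos ω hω
  · intro ω hω k hk b hb
    have hA := hBA ω hω
    have hb' := hbx ω k (by omega) b hb
    rcases Nat.lt_succ_iff_lt_or_eq.1 hk with hk | rfl
    · unfold Gv Hv gv
      rw [if_pos hk, if_pos hk, if_neg hk.ne, eval_tr, eval_tr]
      have h1 := hC.agr i hi j hj ω hA (k + 1) (by omega) (by omega) (b ∘ vc c) hb'
      unfold CDat2.Ps2 CDat2.Ph2 at h1
      rw [if_neg (by omega)] at h1
      exact h1
    · unfold Gv Hv gv
      rw [if_neg (lt_irrefl k), if_pos rfl, if_neg (lt_irrefl k), if_pos rfl, if_pos rfl, eval_tr,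
        eval_tr]
      have h1 := hagr ω hω (b ∘ vc c) hb'
      have h2 := slam_coarse F (Nat.le_add_right w₀ (j * z)) hwJ ω
      rw [h2] at h1
      exact h1
  · intro ω hω k hk b hb k' hk'
    exact he ω k hk b hb k' hk'

/-- **`NewLab2` in the cell of a family**, explicitly. -/
theorem new_chok (hC : C.Cnd2 X pa K a₀ w₀ z M g A) (c : ℕ → Fin m)
    (hX : ∀ ω, A ω → ∀ k < n, X ω (k + 1) = F.x ω (c k)) {i j l A' K' : ℕ} (hi : i ≤ M)
    (hj : j ≤ M) (hwJ : w₀ + j * z ≤ J) (hl : l < n) {η' : ℝ} {q : F.Ω → ℝ}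
    (hq0 : ∀ ω, 0 ≤ q ω) (hq : ∀ ω, 0 < q ω → A ω)
    (hN : (C.nd2 X pa w₀ z M g).NewLab2 J a₀ w₀ z i j (l + 1) A' K' η' q) :
    ∃ (B : F.Ω → Prop) (Gn : Pool.STAT.Pt2 F → PN) (Hn : Pool.STAT.Ln2 F × ℕ → PN) (e : ℕ),
      (∀ ω, B ω → A ω) ∧ η' ≤ Pb q B ∧
      ((∀ x, (Gn x).totalDegree ≤ K' ∧ (Gn x).vars ⊆ range (l + 1)) ∧
        (∀ x, (Hn x).totalDegree ≤ K' ∧ (Hn x).vars ⊆ range (l + 1))) ∧
      (∀ ω, B ω → |X ω (l + 1) - eval (X ω) (Gn (ptr F J ω))| ≤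
          1 / 2 ^ (g i j (l + 1) + A' * z) ∧
        ∀ b : ℕ → ℝ, C.Nb2 X g i j (a₀ + i * z) (l + 1) ω b →
          |eval b (Gn (ptr F J ω)) - eval b (Hn (slam F w₀ ω, F.T1 (w₀ + j * z) ω))| ≤
            1 / 2 ^ (g i j (l + 1) + A' * z)) ∧
      ChOK F c (l + 1) (fun _ => max K K') (a₀ + i * z) (w₀ + j * z) e
        (gv g i j l (g i j (l + 1) + A' * z)) B (Gv C c i j l Gn)
        (Hv C c w₀ (w₀ + j * z) i j l Hn) := by
  classical
  obtain ⟨Gn, Hn, hGn, hHn, hP⟩ := hN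
  have e1 : (C.nd2 X pa w₀ z M g).g i j (l + 1) = g i j (l + 1) :=
    CDat2.nd2_g C X pa w₀ z M g (by omega)
  rw [e1] at hP
  obtain ⟨B, hB⟩ : ∃ B : F.Ω → Prop, B = fun ω => A ω ∧
      |X ω (l + 1) - eval (X ω) (Gn (ptr F J ω))| ≤
      1 / 2 ^ (g i j (l + 1) + A' * z) ∧ ∀ b : ℕ → ℝ, C.Nb2 X g i j (a₀ + i * z) (l + 1) ω b →
      |eval b (Gn (ptr F J ω)) - eval b (Hn (slam F w₀ ω, F.T1 (w₀ + j * z) ω))| ≤
        1 / 2 ^ (g i j (l + 1) + A' * z) := ⟨_, rfl⟩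
  have hBA : ∀ ω, B ω → A ω := fun ω h => by rw [hB] at h; exact h.1
  have hB2 : ∀ ω, B ω → |X ω (l + 1) - eval (X ω) (Gn (ptr F J ω))| ≤
          1 / 2 ^ (g i j (l + 1) + A' * z) ∧
        ∀ b : ℕ → ℝ, C.Nb2 X g i j (a₀ + i * z) (l + 1) ω b →
          |eval b (Gn (ptr F J ω)) - eval b (Hn (slam F w₀ ω, F.T1 (w₀ + j * z) ω))| ≤
            1 / 2 ^ (g i j (l + 1) + A' * z) := fun ω h => by rw [hB] at h; exact h.2
  obtain ⟨e, he⟩ := chok_of_new hC c hX hi hj hwJ hl hGn hHn hBA (fun ω h => (hB2 ω h).1)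
    (fun ω h => (hB2 ω h).2)
  refine ⟨B, Gn, Hn, e, hBA, hP.trans ?_, ⟨hGn, hHn⟩, hB2, he⟩
  unfold Pb
  change ∑ ω : F.Ω, _ ≤ _
  refine Finset.sum_le_sum fun ω _ => ?_
  rcases (hq0 ω).eq_or_lt with h0 | h0
  · rw [← h0]
    simp
  · split_ifs with h1 h2
    · exact le_rfl
    · refine absurd ?_ h2
      rw [hB]
      refine ⟨hq ω h0, h1.1, fun b hb => ?_⟩
      exact h1.2 b ((CDat2.nd2_NB C X pa w₀ z M g hi hj (by omega) ω b).2 hb)
    · exact h0.le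
    · exact le_rfl

end Pool.LBK

namespace Pool.STAT

open Finset MvPolynomial
open Pool.Agent.H49.Ent Pool.Agent.H32.Dense Pool.STK Pool.KS3 Pool.KA Pool.KSAT Pool.PB Pool.GEN
open Pool.K2S Pool.S6C
open Pool.BFL (Pb)
open CLO

variable {m : ℕ}

/-- **A property of chains** of a family with given radius, window and precisions, on an event. -/
abbrev ChX (m : ℕ) : Type 1 := (J : ℕ) → (F : Fam m J) → (a₀ w₀ : ℕ) → (g : ℕ → ℕ) →
  (F.Ω → Prop) → (PtT F → ℕ → MvPolynomial (Option (Fin m)) ℝ) →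
  (LnT F → ℕ → MvPolynomial (Option (Fin m)) ℝ) → Prop

/-- A new label of the coordinate `c l` at `(i, j)` on the event `E`: conditions for the two
sides. -/
def NewOn {J n : ℕ} {F : Fam m J} (C : CDat2 F n) (X : F.Ω → ℕ → ℝ) (g : ℕ → ℕ → ℕ → ℕ)
    (a₀ w₀ z i j l P K' : ℕ) (Gn : Pt2 F → PN) (Hn : Ln2 F × ℕ → PN) (E : F.Ω → Prop) : Prop :=
  ((∀ x, (Gn x).totalDegree ≤ K' ∧ (Gn x).vars ⊆ range (l + 1)) ∧
    (∀ x, (Hn x).totalDegree ≤ K' ∧ (Hn x).vars ⊆ range (l + 1))) ∧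
  ∀ ω, E ω → |X ω (l + 1) - eval (X ω) (Gn (ptr F J ω))| ≤ 1 / 2 ^ P ∧
    ∀ b : ℕ → ℝ, C.Nb2 X g i j (a₀ + i * z) (l + 1) ω b →
      |eval b (Gn (ptr F J ω)) - eval b (Hn (slam F w₀ ω, F.T1 (w₀ + j * z) ω))| ≤ 1 / 2 ^ P

/-- **No new label, labels with a property.** `hno`: no chains with the property `XN` above the
threshold (`Cd`: the conditions on the radius, the window and the precisions). `hlink`: the chain of a
new label has the property `XN`. -/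
theorem no_newX {S : PCl m} (hpos : ∀ (τ : ℝ) (J : ℕ) (F : Fam m J) (A : F.Ω → Prop),
      S.St τ J F A → 0 < Pe F.p A)
    {G : RG m} {R : (J : ℕ) → Fam m J → ℕ → ℕ → Type}
    (ρ : (J : ℕ) → (F : Fam m J) → (i j : ℕ) → LnT F → R J F i j) {l i j A K'' K : ℕ}
    {η' : ℝ} (hn : G.n = l + 1) (hi : i ≤ G.M) (hj : j ≤ G.M) (hK' : 1 ≤ G.K')
    (hϖ : 0 ≤ G.ϖ) (hζ : 0 < G.ζ) (hthin : G.ϖ + (G.M + 1) * G.ζ < G.α)
    (htop : G.α + (G.M + 1) * G.ζ < 1) (hη : 0 < η') (hKK : max G.K' K'' ≤ K)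
    {Cd : (J : ℕ) → ℕ → ℕ → (ℕ → ℕ) → Prop} {XN : ChX m}
    (hno : Bas S (fun J F A => ∀ (a₀ w₀ e₀ : ℕ) (g : ℕ → ℕ)
      (Gc : PtT F → ℕ → MvPolynomial (Option (Fin m)) ℝ)
      (Hc : LnT F → ℕ → MvPolynomial (Option (Fin m)) ℝ), Cd J a₀ w₀ g →
      ChOK F G.c (l + 1) (fun _ => K) a₀ w₀ e₀ g A Gc Hc → ¬ XN J F a₀ w₀ g A Gc Hc))
    (hcd : ∃ J₁ : ℕ, ∀ J ≥ J₁, Cd J (up G.α J + i * up G.ζ J) (up G.ϖ J + j * up G.ζ J)
      (Pool.LBK.gv (fun i j l => G.gn J i j (l - 1) - G.sh l) i j l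
        (G.gn J i j l - G.sh (l + 1) + A * up G.ζ J)))
    (hlink : Bas S (fun J F B => ∀ D : GDat F, G.Ok F D B → ∀ (E : F.Ω → Prop) (Gn : Pt2 F → PN)
      (Hn : Ln2 F × ℕ → PN), Sub E B → η' * Pe F.p B ≤ Pe F.p E →
      NewOn (D.cd G.n (ρ J F)) (cx F fun i => G.c (i - 1))
        (fun i j l => G.gn J i j (l - 1) - G.sh l) (up G.α J) (up G.ϖ J) (up G.ζ J) i j l
        (G.gn J i j l - G.sh (l + 1) + A * up G.ζ J) K'' Gn Hn E →
      XN J F (up G.α J + i * up G.ζ J) (up G.ϖ J + j * up G.ζ J)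
        (Pool.LBK.gv (fun i j l => G.gn J i j (l - 1) - G.sh l) i j l
          (G.gn J i j l - G.sh (l + 1) + A * up G.ζ J)) E
        (Pool.LBK.Gv (D.cd G.n (ρ J F)) G.c i j l Gn)
        (Pool.LBK.Hv (D.cd G.n (ρ J F)) G.c (up G.ϖ J) (up G.ϖ J + j * up G.ζ J) i j l Hn))) :
    Fld S G fun J F D q => ¬ (G.nd D (ρ J F)).NewLab2 J (up G.α J) (up G.ϖ J) (up G.ζ J) i j G.n
      A K'' η' q := by
  obtain ⟨J₁, h1⟩ := grid_ev hϖ hζ hthin htop
  obtain ⟨J₂, hcd⟩ := hcd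
  have hp : Bas S (fun _ F A => 0 < Pe F.p A) := ⟨1, one_pos, 0, fun J _ F A hA => hpos 1 J F A hA⟩
  refine Bas.mono (max J₁ J₂) (Bas.and (Bas.and (Pool.LBK.Bas.ev hno hη) hlink) hp) ?_
  rintro J hJ F B ⟨⟨hb, hlk⟩, hpB⟩ D hD hN
  obtain ⟨k1, k2, k3⟩ := h1 J ((le_max_left _ _).trans hJ)
  have hjz : j * up G.ζ J ≤ (G.M + 1) * up G.ζ J := Nat.mul_le_mul_right _ (by omega)
  have hcnd := CLO.GDat.Ok.cnd hD.1 hK' (ρ J F)
  have hqB : ∀ ω, 0 < Pool.Agent.H49.Ent.cond F.p B True ω → B ω := fun ω hω =>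
    of_eq_true ((cond_pos_iff F.isLaw.nonneg B True ω).1 hω).2
  rw [hn] at hN
  obtain ⟨E, Gn, Hn, e, hEB, hE, hdeg, hEn, hch⟩ := Pool.LBK.new_chok (C := D.cd G.n (ρ J F)) hcnd
    G.c (fun ω _ k _ => if_neg (by omega)) hi hj (by omega) (by omega)
    (cond_nonneg F.isLaw.nonneg B True) hqB hN
  have hE' : η' * Pe F.p B ≤ Pe F.p E := by
    rw [← Pool.LBK.Pb_cond_sub hEB hpB]
    exact mul_le_mul_of_nonneg_right hE hpB.le
  have hX := hlk D hD E Gn Hn hEB hE' ⟨hdeg, hEn⟩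
  exact hb E hEB hE' _ _ e _ _ _ (hcd J ((le_max_right _ _).trans hJ))
    ⟨fun y k => (hch.degG y k).trans hKK, fun s k => (hch.degH s k).trans hKK, hch.depG, hch.depH,
      hch.pos, hch.agr, hch.lip⟩ hX

end Pool.STAT
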