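import Pool.Agent.H78.MIC.ClsG
import Pool.Agent.H37.WIN.Stp
import Pool.Agent.H2.GEN.GnW
import Pool.Agent.H2.GEN.ChBt

/-!
# Windows for the absence of boxes

`PkT.subW`: the package exists in a subclass with the thresholds `PW` over the boxes with the
natural sides. `chg_nk`: the numbers of the package do not depend on the class.
`kpS`: the steep windows, `nok_S`: there are no boxes of this kind.
-/

set_option autoImplicit false

namespace Pool.PKG

open MeasureTheory Set Filter Topology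
open Pool.Agent.H49.Ent Pool.Agent.H32.Dense Pool.STK Pool.KA Pool.KSAT Pool.K2S Pool.PB
open Pool.GEN Pool.S6C Pool.STAT Pool.CHT Pool.GRW Pool.ONE Pool.STA
open Pool.LBT (LSys ThrOf)
open Pool.LEV (Law Lv)
open Pool.ALL (RateOf)
open Pool.TOP (TopS)
open Pool.RTS (iso Diag)
open Pool.STR (NumI CellD RowD NfB AffB Rle Nw ThinAt SteepAt StaAt)
open Pool.CHB (chsysB)
open Pool.STAT.CLO Pool.MIC6

variable {n : ℕ} {hn : 2 ≤ n} {S : PCl n} {P : ℝ → ℝ → ℝ} {rr : ℝ → ℝ}
  {P' : ℕ → List (Fin n) × Fin n → ℝ → ℝ → ℝ} {Λ : Finset (Fin n) → Fin n → ℝ → ℝ → ℝ}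
  {PB : ℕ → List (Fin n) × Fin n → ℝ → ℝ → ℝ}

/-- **The thresholds over the boxes with the natural sides**, in a subclass. -/
theorem PkT.subW (H : PkT hn S P rr P' Λ PB) :
    ∃ (S' : PCl n) (PW : ℕ → List (Fin n) × Fin n → ℝ → ℝ → ℝ),
      PkT hn S' P rr P' Λ PB ∧ ∀ j, ThrOf (chsysB n none (P' j)) S' (PW j) := by
  obtain ⟨S', PW, h1, h2, h3, -, -⟩ := Pool.CHB.thr_le_tgs H.ne (κ := ℕ) (fun _ => none) P'
  obtain ⟨al, g₀, s, d, e, K₀, N, hal, hg₀, hC⟩ := H.cl
  exact ⟨S', PW, {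
    cl := ⟨al, g₀, s, d, e, K₀, N, hal, hg₀, hC.sub h1 h2⟩
    tgs := H.tgs.sub h2
    rate := H.rate.sub h2
    cht := fun j => (H.cht j).sub h2
    reg := H.reg
    lam := H.lam.sub h2
    thb := fun j => (H.thb j).sub h2
    regb := H.regb }, h3⟩

/-- The numbers of a package do not depend on the class. -/
theorem nk_sub {S' : PCl n} (H : PkT hn S P rr P' Λ PB) (H' : PkT hn S' P rr P' Λ PB)
    (hTop : TopS n) (hF : FZX (n - 1)) : H.nk hTop hF = H'.nk hTop hF := rfl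

end Pool.PKG
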