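import Pool.Agent.H78.MIC.BsA
import Pool.Agent.H12.P5.Kd5

/-!
# The kinds of windows for the absence of boxes

`kpS`: the steep windows, `nok_S`: there are no boxes of this kind. `kpR`: the windows with ties, all
coordinates are rough, the slopes are those of P4; `nok_R`. `SlD`: the slopes of P4 for the windows
where one coordinate has labels with gain; `nok_D4`.
-/

set_option autoImplicit false

namespace Pool.PKG

open MeasureTheory Set Filter Topology
open Pool.Agent.H49.Ent Pool.Agent.H32.Dense Pool.STK Pool.KA Pool.KSAT Pool.K2S Pool.PB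
open Pool.GEN Pool.S6C Pool.STAT Pool.CHT Pool.GRW Pool.ONE Pool.STA
open Pool.LBT (LSys ThrOf)
open Pool.LEV (Law Lv)
open Pool.ALL (RateOf)
open Pool.TOP (TopS)
open Pool.RTS (iso Diag)
open Pool.STR (NumI CellD RowD NfB AffB Rle Nw ThinAt SteepAt StaAt)
open Pool.CHB (chsysB)
open Pool.STAT.CLO Pool.MIC6
open Pool.P4 (NFc1)

variable {n : ℕ} {hn : 2 ≤ n} {S : PCl n} {P : ℝ → ℝ → ℝ} {rr : ℝ → ℝ}
  {P' : ℕ → List (Fin n) × Fin n → ℝ → ℝ → ℝ} {Λ : Finset (Fin n) → Fin n → ℝ → ℝ → ℝ}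
  {PB : ℕ → List (Fin n) × Fin n → ℝ → ℝ → ℝ}
  (H : PkT hn S P rr P' Λ PB) {hTop : TopS n} {hF : FZX (n - 1)} {h : ℝ}
  {ρ' : ℝ → ℝ} {hρ : Rle rr ρ'}

/-! ### Steep windows -/

/-- **The steep windows.** -/
noncomputable def kpS (H : PkT hn S P rr P' Λ PB) (hTop : TopS n) (hF : FZX (n - 1))
    (hρ : Rle rr ρ') : NumI.KndP ((H.nk hTop hF).chg hρ H.up) Unit where
  A _ _ _ _ := True
  Φ _ o g r d := Box7 g r fun a w =>
    PT hn PB (show Od n from o) w w + 2 * (a - w) ≤ PT hn PB (show Od n from o) a w + d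
  mono hd h := h.mono fun _ _ h => h.trans (by linarith)

theorem kpS_at {o : Od n} {g : ℝ} (hg : SteepAt 2 (PT hn PB o) g) :
    (kpS H hTop hF hρ).At () (show ((H.nk hTop hF).chg hρ H.up).O from o) g := by
  refine ⟨1, one_pos, fun _ _ _ => trivial, fun e he => ?_⟩
  obtain ⟨r₀, h1, h2⟩ := hg e he
  exact ⟨r₀, h1, fun r hr hr' a w k1 k2 k3 => h2 r hr hr' a w (by linarith) k2 (by linarith)⟩

variable {H}

/-- **No boxes at the steep windows.** -/
theorem nok_S (hyp : HypK (hTop := hTop) (hF := hF) (hρ := hρ) H Unit) :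
    NoKd H (kpS H hTop hF hρ) hyp := by
  intro p hp κ kd y x c β h₁ M hc hβ hK _
  refine ((hK.Φ (1 / 4) (by norm_num)).and (isK_mono p.cell kd c β h₁ M y)
    (EvP.self _ (show (0 : ℝ) < 1 / 4 by norm_num))).mono fun q hq => ?_
  obtain ⟨h1, hq⟩ := hq
  have hr := hq.is.r0
  have h2 : PT hn PB (show Od n from q.k.2) q.g q.g + 2 * (q.g + q.r - q.g) ≤
      PT hn PB (show Od n from q.k.2) (q.g + q.r) q.g + 1 / 4 * q.r :=
    h1 (q.g + q.r) q.g (by linarith) (by linarith) (by linarith)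
  have h4 := abs_le.1 (hq.is.iso (q.g + q.r) q.g (by linarith) (by linarith) (by linarith))
  have h6 := abs_le.1 (hq.is.iso q.g q.g (by linarith) le_rfl (by linarith))
  have h5 : ∀ a : ℝ, p.cell.PB q.k a q.g = PT hn PB (show Od n from q.k.2) a q.g := fun _ => rfl
  rw [h5, sub_self, mul_zero, add_sub_cancel_left] at h4
  rw [h5, sub_self, mul_zero] at h6
  rw [add_sub_cancel_left] at h2
  linarith [h4.2, h6.1]

/-! ### Rough windows -/

/-- **The windows with ties, all coordinates are rough**, the slopes are those of P4. -/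
noncomputable def kpR (H : PkT hn S P rr P' Λ PB) (hTop : TopS n) (hF : FZX (n - 1))
    (hρ : Rle rr ρ') (h : ℝ) : NumI.KndP ((H.nk hTop hF).chg hρ H.up) (Finset (Fin n)) :=
  kpT H hTop hF hρ h (fun o l => bet (PB o.2) (cc hn o.1.1) l)
    (fun o l => bet (P' o.2) (cc hn o.1.1) l)
    (fun _ R _ _ => AllR R) (fun _ _ _ _ _ => True)
    fun _ _ => trivial

/-- No boxes with ties, if all coordinates are rough. -/
theorem nok_R {x' : ℝ} (hP : ∀ (K' : ℕ) (c : ℝ), 0 < c →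
      MicX (XP4 K' 1 (fun _ => True) x') (QT (fun _ => True) (n - 1 + 1) c)
        (fun B => B = n + 2) (n - 1 + 1) K' h)
    (hh : 0 < h) (hh1 : h ≤ 1) :
    NoKd H (kpR H hTop hF hρ h) (HypP _ x') := by
  intro p hp κ kd y R c β h₁ M hc hβ hK hy
  by_cases hR : AllR R
  · exact cls_P H hP hh hh1 hp hy.1 hy.2.1 hy.2.2 hc hβ hR
      (PN := fun o l => bet (PB o.2) (cc hn o.1.1) l)
      (PC := fun o l => bet (P' o.2) (cc hn o.1.1) l) (fun _ _ _ => rfl)
      (fun ε q hq => (hK.A ε q hq).1) fun ε' hε' => (hK.Φ ε' hε').mono fun q h1 => h1.1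
  · exact ⟨1, one_pos, fun q hq => hR (hK.A _ q hq).2⟩

/-- The windows with ties, all coordinates are rough. -/
theorem kpR_at {o : Od n} {g h : ℝ}
    (hslo : ∀ l ≤ n - 1, slN hn P P' o l g < 2 + min (slN hn P P' o (n - 1) g - 1) 1)
    (hrow : Sml fun r d => NfB rr h d (P g g - r) (P g g + 3 * r))
    (hN : ∀ l < n - 1, Sml fun r d => Box7 g r fun a w =>
      bet (PB o.2) (cc hn o.1.1) l a w ≤ dgN hn P P' o l w + (a - w) + d) :
    (kpR H hTop hF hρ h).At (Finset.univ : Finset (Fin n))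
      (show ((H.nk hTop hF).chg hρ H.up).O from o) g := by
  have hR : AllR (Finset.univ : Finset (Fin n)) := fun l hl =>
    ⟨⟨l, by omega⟩, Finset.mem_univ _, rfl⟩
  exact kpT_at H (fun l hl h1 => absurd (hR l hl) h1) hslo hrow (fun l hl _ => hN l hl)
    (fun l hl h1 => absurd (hR l hl) h1) ⟨1, one_pos, fun _ _ _ => hR⟩
    fun _ _ => ⟨1, one_pos, fun _ _ _ => trivial⟩

/-! ### One coordinate with labels with gain -/

/-- The slopes of P4, the coordinate `l₀` has labels with gain. -/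
def SlD (hn : 2 ≤ n) (P : ℝ → ℝ → ℝ) (P' : ℕ → List (Fin n) × Fin n → ℝ → ℝ → ℝ) (c : ℝ)
    (l₀ : ℕ) (o : Od n) (g : ℝ) : Prop :=
  2 ≤ slN hn P P' o l₀ g ∧
    ∀ l ≤ n - 1, slN hn P P' o l g ≤ 2 - c + min (slN hn P P' o (n - 1) g - 1) 1

/-- **No boxes with ties, one coordinate has labels with gain**, by P4. -/
theorem nok_D4 {x' : ℝ} {PW : ℕ → List (Fin n) × Fin n → ℝ → ℝ → ℝ}
    (hPW : ∀ j, ThrOf (chsysB n none (P' j)) S (PW j))
    (hP : ∀ (K' : ℕ) (R : ℕ → Prop) (c : ℝ), 0 < c → MicX (XP4 K' 1 R x')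
      (QT R (n - 1 + 1) c) (fun B => B = n + 2) (n - 1 + 1) K' h)
    (hh : 0 < h) (hh1 : h ≤ 1) :
    NoKd H (kpC H hTop hF hρ h PW (SlD hn P P')) (HypP _ x') := by
  refine nok_Cg hPW (Qc := fun c _ l₀ => QT (fun u => u ≠ l₀ + 1) (n - 1 + 1) (min c 1))
    (fun c β l₀ => qT_cl _ (by omega) _)
    (fun K' c β l₀ hc hβ hl₀ => hP K' _ _ (lt_min hc one_pos))
    (fun c β l₀ o g gam hc hβ hl₀ hA e2 hgam => ?_) hh hh1
  obtain ⟨h2, hsl⟩ := hA
  have e1 := hgam (n - 1 + 1) (by omega) le_rfl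
  rw [Nat.add_sub_cancel, max_eq_right (by linarith)] at e1
  refine ⟨fun _ _ _ => rfl, fun l l1 l2 h3 => ?_, fun l l1 l2 => ?_⟩
  · have h4 : l = l₀ + 1 := by
      by_contra h5
      exact h3 h5
    rw [hgam l l1 l2.le, h4, Nat.add_sub_cancel]
    exact (min_le_right _ _).trans (by
      rw [max_eq_right (by linarith)]
      linarith)
  · rw [e1, hgam l l1 l2]
    have h5 := hsl (l - 1) (by omega)
    have h4 : (0 : ℝ) ≤ min (slN hn P P' o (n - 1) g - 1) 1 := le_min (by linarith) one_pos.le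
    refine max_le ?_ ?_
    · linarith [min_le_right c 1]
    · linarith [min_le_left c 1]

/-- A window of this kind, by P4. -/
theorem slD_at {o : Od n} {g : ℝ} {l₀ : ℕ} (h2 : 2 ≤ slN hn P P' o l₀ g)
    (hslo : ∀ l ≤ n - 1, slN hn P P' o l g < 2 + min (slN hn P P' o (n - 1) g - 1) 1) :
    ∃ c : ℝ, 0 < c ∧ ∀ c' : ℝ, 0 < c' → c' ≤ c → SlD hn P P' c' l₀ o g := by
  obtain ⟨c, hc, hc1⟩ := pos_fin (Finset.range (n - 1 + 1))
    (f := fun l => 2 + min (slN hn P P' o (n - 1) g - 1) 1 - slN hn P P' o l g) fun l hl => by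
      have := hslo l (by have := Finset.mem_range.1 hl; omega)
      linarith
  refine ⟨c, hc, fun c' _ hcc => ⟨h2, fun l hl => ?_⟩⟩
  have := hc1 l (Finset.mem_range.2 (by omega))
  linarith

end Pool.PKG
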