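import Pool.Agent.H78.MIC.ConG

/-!
# Labels with gain of a grid

`CoL`: a label with gain for all the points of a grid: own point, two sides, near to the labels of
the grid. `con_fam`: it exists on a large part of the event, from a chain with gain.
-/

set_option autoImplicit false

namespace Pool.STAT

open Finset MvPolynomial
open Pool.Agent.H49.Ent Pool.Agent.H32.Dense Pool.STK Pool.KA Pool.KSAT Pool.K2S Pool.PB Pool.S6C
open Pool.GEN Pool.CHT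
open Pool.RLV (TmN near_rel)
open CLO

/-- **A label with gain** of the coordinate `c l`, for all the points of a grid, near to the labels
of the grid to `S x` digits. -/
structure CoL {m J : ℕ} {F : Fam m J} (D : GDat F) (c : ℕ → Fin m) (l K₂ a₀ w₀ z x M S : ℕ)
    (g : ℕ → ℕ → ℕ → ℕ) (pr : ℕ) (UD : Pt2 F → PN) (UL : Ln2 F × ℕ → PN) (A : F.Ω → Prop) :
    Prop where
  dD : ∀ x, (UD x).totalDegree ≤ K₂
  dL : ∀ x, (UL x).totalDegree ≤ K₂
  vD : ∀ x, (UD x).vars ⊆ range (l + 1)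
  vL : ∀ x, (UL x).vars ⊆ range (l + 1)
  own : ∀ ω, A ω → |F.x ω (c l) - eval (cx F (fun i => c (i - 1)) ω) (UD (ptr F J ω))| ≤
    1 / 2 ^ pr
  two : ∀ i ≤ M, ∀ j ≤ M, ∀ ω, A ω → ∀ b : ℕ → ℝ, |b 0 - F.t ω| ≤ 1 / 2 ^ (a₀ + i * z) →
    (∀ u, 1 ≤ u → u ≤ l → |b u - eval b (D.PS i j (D.zS i j (ptr F J ω)) u)| ≤
      2 ^ (3 * x) / 2 ^ g i j (u - 1)) →
    |eval b (UD (ptr F J ω)) - eval b (UL (slam F w₀ ω, F.T1 w₀ ω))| ≤ 1 / 2 ^ pr ∧
    |eval b (UD (ptr F J ω)) - eval b (D.PS i j (D.zS i j (ptr F J ω)) (l + 1))| ≤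
      2 ^ (S * x) / 2 ^ g i j l

theorem CoL.sub {m J : ℕ} {F : Fam m J} {D : GDat F} {c : ℕ → Fin m} {l K₂ a₀ w₀ z x M S : ℕ}
    {g : ℕ → ℕ → ℕ → ℕ} {pr : ℕ} {UD : Pt2 F → PN} {UL : Ln2 F × ℕ → PN} {A B : F.Ω → Prop}
    (h : CoL D c l K₂ a₀ w₀ z x M S g pr UD UL A) (hB : Sub B A) :
    CoL D c l K₂ a₀ w₀ z x M S g pr UD UL B :=
  ⟨h.dD, h.dL, h.vD, h.vL, fun ω hω => h.own ω (hB ω hω), fun i hi j hj ω hω =>
    h.two i hi j hj ω (hB ω hω)⟩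

/-- **A label with gain on a grid**, from a chain with gain. -/
theorem con_fam (V K DT n K' s₁ l : ℕ) (hl : l < n) (hK' : 1 ≤ K') : ∃ Cy S κ N Kn : ℕ,
    1 ≤ κ ∧ Cy ≤ S ∧ ∀ {m J M : ℕ} {F : Fam m J} {D : GDat F} {sh : ℕ → ℕ}
    {c : ℕ → Fin m} {a₀ w₀ z x e₀ y₀ aT wT eT : ℕ} {e : ℕ → ℕ → ℕ} {g : ℕ → ℕ → ℕ → ℕ}
    {gT : ℕ → ℕ} {B : F.Ω → Prop}
    {T : PtT F → ℕ → MvPolynomial (Option (Fin m)) ℝ}
    {TH : LnT F → ℕ → MvPolynomial (Option (Fin m)) ℝ},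
    D.Ok c n K K' s₁ sh a₀ w₀ z M e g B → Inj c n →
    w₀ + M * z ≤ a₀ → w₀ + M * z + Cy * x ≤ J → aT ≤ a₀ → wT ≤ w₀ →
    ChOK F c (l + 1) (fun _ => DT) aT wT eT gT B T TH →
    TmN F (2 ^ ((l + 1) * (M + 1) ^ 2) * N) e₀ B → e₀ + 1 ≤ x → κ ≤ x →
    (∀ i ≤ M, ∀ j ≤ M, ∀ k < l, ∀ k' < k, nlp (g i j) k' k ≤ y₀) →
    (∀ i ≤ M, ∀ j ≤ M, ∀ k < l, Cy * x ≤ g i j k ∧ g i j k + e i j + y₀ + Cy * x ≤ J) →
    (∀ i ≤ M, ∀ j ≤ M, ∀ k < l, Cy * x ≤ gT k ∧ gT k ≤ g i j k) →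
    (∀ i ≤ M, ∀ j ≤ M, 1 ≤ g i j l ∧ g i j l + Cy * x ≤ gT l) → S * x ≤ gT l →
    (∀ i ≤ M, ∀ j ≤ M, ∀ k < l, ∀ μ, x ≤ μ → μ ≤ Cy * x → ∀ B' : F.Ω → Prop, Sub B' B →
      Pe F.p B ≤ (2 ^ ((l + 1) * (M + 1) ^ 2) * N : ℕ) * Pe F.p B' → ∀ (e' : ℕ) (g' : ℕ → ℕ),
      (∀ k' < k, g' k' ≤ g i j k' + 4 * μ) →
      g i j k + V * μ ≤ g' k → g' k ≤ g i j k + (V + 4) * μ →
      ¬ ChN F c (k + 1) (fun _ => Kn) (a₀ + i * z + 4 * μ) (w₀ + j * z + 4 * μ) e' g' B') →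
    ∃ (B' : F.Ω → Prop) (UD : Pt2 F → PN) (UL : Ln2 F × ℕ → PN), Sub B' B ∧
      Pe F.p B ≤ 2 ^ ((l + 1) * (M + 1) ^ 2) * Pe F.p B' ∧
      CoL D c l (max K DT) a₀ w₀ z x M S g (gT l - S * x) UD UL B' := by
  classical
  obtain ⟨Cy, κ, N, Kn, hκ, hgrid⟩ := con_grid V K DT l
  obtain ⟨κ₀, htr⟩ := con_tr n (max K DT) K' s₁ hK'
  refine ⟨Cy, Cy + 4 * κ₀ + 1, κ, N, Kn, hκ, by omega, ?_⟩
  intro m J M F D sh c a₀ w₀ z x e₀ y₀ aT wT eT e g gT B T TH hD hc hwa hwJ haT hwT hT htm he0 hκz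
    hnl hgJ hgT hgl hSz hno
  have hz1 : 1 ≤ x := by omega
  have hc' : Set.InjOn c (Set.Iio (l + 1)) := fun x hx y hy hxy =>
    hc x (by have := Set.mem_Iio.1 hx; omega) y (by have := Set.mem_Iio.1 hy; omega) hxy
  have hwT' : ∀ j ≤ M, w₀ + j * z ≤ J := fun j hj => by
    have := Nat.mul_le_mul_right z hj
    omega
  obtain ⟨B', k1, k2, k3⟩ := hgrid (G := D.G) (H := D.H) hwa hwJ hc'
    (fun i hi j hj => (hD.chn i hi j hj).mono (by omega) (fun _ => le_rfl) le_rfl le_rfl) haT hwT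
    hT htm he0 hκz hnl hgJ hgT hgl hno
  obtain ⟨pr, hpr⟩ : ∃ pr, pr = gT l - (Cy + 4 * κ₀ + 1) * x := ⟨_, rfl⟩
  have hprT : pr ≤ gT l := by omega
  have hinv : (1 : ℝ) / 2 ^ gT l ≤ 1 / 2 ^ pr := inv_mono hprT
  have hval : ∀ (ω : F.Ω) (Q : MvPolynomial (Option (Fin m)) ℝ), DepC c l Q →
      eval (cx F (fun i => c (i - 1)) ω) (tr c l Q) = eval (bt F ω) Q := by
    intro ω Q hQ
    refine eval_tr hc (n := n) (by omega) hQ ?_ fun k hk => ?_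
    · show F.t ω = _
      exact (if_pos rfl).symm
    · show F.x ω (c k) = _
      exact (if_neg (by omega)).symm
  refine ⟨B', fun y => tr c l (T y l),
    fun x => tr c l (TH (x.1.1, x.1.2.1, x.1.2.2 / 2 ^ (w₀ - wT)) l), k1, k2, ?_⟩
  rw [← hpr]
  refine ⟨fun x => (tr_deg c l _).trans ((hT.degG x l).trans (le_max_right _ _)),
    fun x => (tr_deg c l _).trans ((hT.degH _ l).trans (le_max_right _ _)),
    fun x => tr_vars c l _, fun x => tr_vars c l _, fun ω hω => ?_,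
    fun i hi j hj ω hω b hb0 hb => ?_⟩
  · rw [hval ω _ (hT.depG _ l)]
    exact (hT.pos ω (k1 ω hω) l (Nat.lt_succ_self l)).trans hinv
  · have hout := hD.out i hi j hj
    have hB := k1 ω hω
    have hnr := hout.nrS ω hB
    have e0 : D.PS i j (D.zS i j (ptr F J ω)) 0 = MvPolynomial.C (F.t ω) := by
      rw [hout.Szero, hout.Sfst, tx_eq]
    have hkey := htr (c := c) (l := l) (a := a₀ + i * z) (g := g i j) (t := F.t ω)
      (G := D.G i j (ptr F J ω)) (T := T (ptr F J ω) l)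
      (TH := TH ((slam F w₀ ω).1, (slam F w₀ ω).2.1, (slam F w₀ ω).2.2 / 2 ^ (w₀ - wT)) l)
      (Ψ := D.PS i j (D.zS i j (ptr F J ω))) (S₁ := 2 ^ (Cy * x) / 2 ^ gT l)
      (S₂ := 2 ^ (Cy * x) / 2 ^ g i j l) (Δ := 3 * x) hc hl
      (fun i' hi' => ((hD.chn i hi j hj).degG _ i').trans (le_max_left _ _))
      (fun i' => (hD.chn i hi j hj).depG _ i')
      ((hT.degG _ l).trans (le_max_right _ _)) ((hT.degH _ l).trans (le_max_right _ _))
      (hT.depG _ l) (hT.depH _ l) (by positivity) (by positivity) hnr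
      (fun b hb => by
        have h1 := k3 i hi j hj ω hω b hb
        have hs := slam_coarse F hwT (by have := hwT' 0 (Nat.zero_le _); omega) ω
        rw [hs] at h1
        exact h1) b (by
        intro u hu
        rcases Nat.eq_zero_or_pos u with rfl | hu1
        · rw [e0, eval_C]
          show _ ≤ _ / 2 ^ gg (a₀ + i * z) (g i j) 0
          have e1 : gg (a₀ + i * z) (g i j) 0 = a₀ + i * z := if_pos rfl
          rw [e1]
          refine hb0.trans (div_le_div_of_nonneg_right (one_le_pow₀ (by norm_num))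
            (by positivity))
        · have e1 : gg (a₀ + i * z) (g i j) u = g i j (u - 1) := if_neg (by omega)
          rw [e1]
          exact hb u hu1 (by omega))
    obtain ⟨h1, h2⟩ := hkey
    have hexp : κ₀ * (3 * x + 1) ≤ 4 * κ₀ * x := by
      calc κ₀ * (3 * x + 1) ≤ κ₀ * (4 * x) := Nat.mul_le_mul_left _ (by omega)
        _ = 4 * κ₀ * x := by ring
    refine ⟨h1.trans ?_, h2.trans ?_⟩
    · rw [← mul_div_assoc, ← pow_add]
      have h3 := pow_div_le (a := κ₀ * (3 * x + 1) + Cy * x) (b := gT l) (c := 0) (d := pr) (by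
        have e1 : (Cy + 4 * κ₀ + 1) * x = Cy * x + 4 * κ₀ * x + x := by ring
        omega)
      rwa [pow_zero] at h3
    · have h3 : (2 : ℝ) ^ (Cy * x) / 2 ^ g i j l + 1 / 2 ^ g i j l ≤
          2 ^ (Cy * x + 1) / 2 ^ g i j l := by
        rw [← add_div]
        refine div_le_div_of_nonneg_right ?_ (by positivity)
        have : (1 : ℝ) ≤ 2 ^ (Cy * x) := one_le_pow₀ (by norm_num)
        rw [pow_succ]
        linarith
      refine (mul_le_mul_of_nonneg_left h3 (by positivity)).trans ?_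
      rw [← mul_div_assoc, ← pow_add]
      refine div_le_div_of_nonneg_right (two_pow_le ?_) (by positivity)
      have e1 : (Cy + 4 * κ₀ + 1) * x = Cy * x + 4 * κ₀ * x + x := by ring
      omega

end Pool.STAT
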