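import Pool.Agent.H78.MIC.ConH
import Pool.Agent.H78.MIC.ConI

/-!
# Labels with gain on the cells of a kit

`GnN`: the real numbers of a chain with gain for a cell. `con_num`: the conditions of `con_fam`.
`KitP.Wco`: the labels of the grid have a label with gain of the coordinate `l`; `hV_con`: this
holds on large subevents.
-/

set_option autoImplicit false

namespace Pool.STAT

open Finset MvPolynomial
open Pool.Agent.H49.Ent Pool.Agent.H32.Dense Pool.STK Pool.KS3 Pool.KA Pool.KSAT Pool.PB Pool.GEN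
open Pool.K2S Pool.S6C
open Pool.CHT (bet TmH)
open Pool.CHB (chsysB)
open Pool.LBT (ThrOf)
open Pool.LEV (Law)
open Pool.STR (Affn Nw)
open Pool.RLV (TmN)
open CLO

variable {m : ℕ}

/-- **The numbers of a chain with gain** for a cell. -/
structure GnN (L : ℕ → ℝ → ℝ → ℝ) (l : ℕ) (y : ℝ × ℝ) (X aT wT : ℝ) (β : ℕ → ℝ) : Prop where
  rad : aT ≤ y.1 + y.2
  win : wT ≤ y.1
  lo : ∀ k < l, X / 4 ≤ β k
  up : ∀ k < l, β k + X / 16 ≤ L k (y.1 + y.2) y.1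
  gn : L l (y.1 + y.2) y.1 + X / 8 ≤ β l

/-- **The numbers** for `con_fam`. -/
theorem con_num {n l Cm V N M : ℕ} {L : ℕ → ℝ → ℝ → ℝ} {ε T θ : ℝ} {y : ℝ × ℝ} {X : ℝ}
    {la mu : ℕ → ℝ} (h : CellL n L ε T y X la mu) (hl : l < n) (hN : 1 ≤ N)
    (hNT : 4 * (T + 2) ≤ N) (hNC : 128 * (((V + 4) * Cm : ℕ) + 2) * (T + 2) ≤ (N : ℝ)) (hε0 : 0 ≤ ε)
    (hε : ε * (64 * (N * (M + 4))) ≤ 1) (hθ : θ ≤ 1 / 16)
    {b : ℕ → ℕ → ℕ → ℝ} {e : ℕ → ℕ → ℝ} (hb : NearE n L y X N M θ b e)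
    (hsrt : ∀ k < l, ∀ k' < k, L k' (y.1 + y.2) y.1 ≤ L k (y.1 + y.2) y.1)
    {aT wT : ℝ} {β : ℕ → ℝ} (hg : GnN L l y X aT wT β) (κ : ℕ) :
    ∃ J₁ : ℕ, ∀ J ≥ J₁,
      up y.1 J + M * up (msh X N M) J ≤ up (y.1 + y.2) J ∧
      up y.1 J + M * up (msh X N M) J + Cm * up (msh X N M) J ≤ J ∧
      ⌊aT * J⌋₊ ≤ up (y.1 + y.2) J ∧ ⌊wT * J⌋₊ ≤ up y.1 J ∧
      (∀ i ≤ M, ∀ j ≤ M, ∀ k < l, ∀ k' < k, nlp (fun l => ⌊b i j l * J⌋₊) k' k ≤ ⌊X / 16 * J⌋₊) ∧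
      (∀ i ≤ M, ∀ j ≤ M, ∀ k < l, Cm * up (msh X N M) J ≤ ⌊b i j k * J⌋₊ ∧
        ⌊b i j k * J⌋₊ + ⌊e i j * J⌋₊ + ⌊X / 16 * J⌋₊ + Cm * up (msh X N M) J ≤ J) ∧
      (∀ i ≤ M, ∀ j ≤ M, ∀ k < l, Cm * up (msh X N M) J ≤ ⌊β k * J⌋₊ ∧
        ⌊β k * J⌋₊ ≤ ⌊b i j k * J⌋₊) ∧
      (∀ i ≤ M, ∀ j ≤ M, 1 ≤ ⌊b i j l * J⌋₊ ∧
        ⌊b i j l * J⌋₊ + Cm * up (msh X N M) J ≤ ⌊β l * J⌋₊) ∧
      (∀ i ≤ M, ∀ j ≤ M, ⌊L l (y.1 + y.2 + i * msh X N M) (y.1 + j * msh X N M) * J⌋₊ +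
        ⌊X / 32 * J⌋₊ + Cm * up (msh X N M) J ≤ ⌊β l * J⌋₊) ∧
      (∀ i ≤ M, ∀ j ≤ M, ∀ k < l,
        ⌊b i j k * J⌋₊ + (V + 4) * (Cm * up (msh X N M) J) ≤ J) ∧
      ⌈msh X N M / 2 * J⌉₊ + 1 ≤ up (msh X N M) J ∧ κ ≤ up (msh X N M) J ∧ 1 ≤ J := by
  have hX := h.pos
  have hN1 : (1 : ℝ) ≤ N := by exact_mod_cast hN
  have hM0 : (0 : ℝ) ≤ M := Nat.cast_nonneg M
  have hC0 : (0 : ℝ) ≤ (((V + 4) * Cm : ℕ) : ℝ) := Nat.cast_nonneg _
  have hT : 0 ≤ T := (h.mu0 l hl).trans (h.muT l hl)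
  obtain ⟨ζ, hζ⟩ : ∃ ζ, ζ = msh X N M := ⟨_, rfl⟩
  have hζ0 : 0 < ζ := by rw [hζ]; exact msh_pos hX hN
  have e1 : N * ((M + 4) * ζ) = X := by rw [hζ]; exact msh_mul hN
  obtain ⟨Cx, hCx⟩ : ∃ Cx : ℝ, Cx = (((V + 4) * Cm : ℕ) : ℝ) := ⟨_, rfl⟩
  rw [← hCx] at hNC hC0
  have hCm : (Cm : ℝ) ≤ Cx := by
    rw [hCx]
    exact_mod_cast Nat.le_mul_of_pos_left Cm (by omega : 0 < V + 4)
  have hCm0 : (0 : ℝ) ≤ Cm := Nat.cast_nonneg Cm
  have hεX : ε * X ≤ ζ / 64 := by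
    have h1 : ε * (64 * (N * (M + 4))) * ζ ≤ 1 * ζ := mul_le_mul_of_nonneg_right hε hζ0.le
    have h2 : ε * (64 * (N * (M + 4))) * ζ = 64 * (ε * (N * ((M + 4) * ζ))) := by ring
    rw [h2, e1] at h1
    linarith only [h1]
  have hε4 : ε ≤ 1 / 4 := by
    have h64 : (64 : ℝ) * 4 ≤ 64 * (N * (M + 4)) := by nlinarith only [hNT, hT, hM0]
    nlinarith only [hε, hε0, h64]
  obtain ⟨Y, hY⟩ : ∃ Y, Y = X / (128 * (T + 2)) := ⟨_, rfl⟩
  have hY0 : 0 < Y := by rw [hY]; positivity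
  have hYT : (T + 2) * Y = X / 128 := by rw [hY]; field_simp
  have hYX : Y ≤ X / 256 := by nlinarith only [hYT, hT, hY0]
  have hbig : ((M : ℝ) + 4 * (Cx + 2)) * ζ ≤ Y := by
    have h1 : ((M : ℝ) + 4 * (Cx + 2)) ≤ (M + 4) * (Cx + 2) := by nlinarith only [hM0, hC0]
    have h2 : ((M : ℝ) + 4 * (Cx + 2)) * ζ ≤ (Cx + 2) * ((M + 4) * ζ) := by
      calc ((M : ℝ) + 4 * (Cx + 2)) * ζ ≤ (M + 4) * (Cx + 2) * ζ :=
            mul_le_mul_of_nonneg_right h1 hζ0.le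
        _ = _ := by ring
    refine h2.trans ?_
    rw [hY, le_div_iff₀ (by positivity)]
    calc (Cx + 2) * ((M + 4) * ζ) * (128 * (T + 2)) = 128 * (Cx + 2) * (T + 2) * ((M + 4) * ζ) := by
          ring
      _ ≤ N * ((M + 4) * ζ) := mul_le_mul_of_nonneg_right hNC (by positivity)
      _ = X := e1
  rw [← hζ]
  have hdep := h.dep
  have hwin := h.win
  have htop := h.top
  have hMζ : (M : ℝ) * ζ ≤ Y := by nlinarith only [hbig, hC0, hζ0]
  have hCζ : 4 * ((Cx + 2) * ζ) ≤ Y := by nlinarith only [hbig, hM0, hζ0]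
  have hζY : ζ ≤ X / 1024 := by nlinarith only [hCζ, hYX, hC0, hζ0]
  -- the levels on the grid
  have hlev : ∀ k < n, ∀ i ≤ M, ∀ j ≤ M,
      |L k (y.1 + y.2 + i * ζ) (y.1 + j * ζ) - L k (y.1 + y.2) y.1| ≤ X / 64 := by
    intro k hk i hi j hj
    have hi' : (i : ℝ) ≤ M := by exact_mod_cast hi
    have hj' : (j : ℝ) ≤ M := by exact_mod_cast hj
    have hi0 : (0 : ℝ) ≤ i := Nat.cast_nonneg i
    have hj0 : (0 : ℝ) ≤ j := Nat.cast_nonneg j
    have iζ : (i : ℝ) * ζ ≤ M * ζ := mul_le_mul_of_nonneg_right hi' hζ0.le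
    have jζ : (j : ℝ) * ζ ≤ M * ζ := mul_le_mul_of_nonneg_right hj' hζ0.le
    have iζ0 : 0 ≤ (i : ℝ) * ζ := by positivity
    have jζ0 : 0 ≤ (j : ℝ) * ζ := by positivity
    have h1 := h.grid (N := N) (M := M) hN hk hi0 (by linarith only [hi']) hj0
      (by linarith only [hj'])
    rw [← hζ] at h1
    have h2 := abs_le.1 h1
    have h3 : mu k * (i * ζ) ≤ T * Y :=
      mul_le_mul (h.muT k hk) (iζ.trans hMζ) iζ0 hT
    have h4 : la k * (j * ζ) ≤ T * Y :=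
      mul_le_mul (h.laT k hk) (jζ.trans hMζ) jζ0 hT
    have h5 : mu k * (j * ζ) ≤ T * Y :=
      mul_le_mul (h.muT k hk) (jζ.trans hMζ) jζ0 hT
    have h6 : 0 ≤ mu k * (i * ζ) := mul_nonneg (h.mu0 k hk) iζ0
    have h7 : 0 ≤ la k * (j * ζ) := mul_nonneg (h.la0 k hk) jζ0
    have h8 : 0 ≤ mu k * (j * ζ) := mul_nonneg (h.mu0 k hk) jζ0
    have h9 : (mu k * i + (la k - mu k) * j) * ζ = mu k * (i * ζ) + la k * (j * ζ) -
      mu k * (j * ζ) := by ring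
    have h10 : ε * X ≤ Y := by nlinarith only [hεX, hCζ, hC0, hζ0]
    have h11 : (T + 2) * Y = T * Y + 2 * Y := by ring
    rw [abs_le]
    constructor
    · linarith only [h2.1, h5, h6, h7, h9, h10, h11, hYT, hY0, hX]
    · linarith only [h2.2, h3, h4, h8, h9, h10, h11, hYT, hY0, hX]
  have hbL : ∀ i ≤ M, ∀ j ≤ M, ∀ k < n, b i j k ≤ L k (y.1 + y.2) y.1 + X / 64 ∧
      L k (y.1 + y.2) y.1 - X / 32 ≤ b i j k := by
    intro i hi j hj k hk
    have h1 := abs_le.1 (hlev k hk i hi j hj)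
    have h2 := hb.up i hi j hj k hk
    have h3 := hb.lo i hi j hj k hk
    rw [← hζ] at h2 h3
    have h4 : θ * ζ ≤ 1 / 16 * ζ := mul_le_mul_of_nonneg_right hθ hζ0.le
    constructor
    · linarith only [h1.2, h2]
    · linarith only [h1.1, h3, h4, hζY, hX]
  have hLlow : ∀ k < n, 2 * X ≤ L k (y.1 + y.2) y.1 := by
    intro k hk
    have h1 := h.low k hk (y.1 + y.2) y.1 (by linarith only [hwin, hX])
      (by linarith only [hdep, hX]) (by linarith only [htop, hX])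
    linarith only [h1, hdep, hwin]
  -- large `J`
  obtain ⟨J₁, hJ₁⟩ := exists_nat_ge ((1024 * (Cx + 8)) / X)
  obtain ⟨J₂, hJ₂⟩ := exists_nat_ge ((κ + 8) / ζ)
  obtain ⟨J₃, hJ₃⟩ := exists_nat_ge ((M * 4) / X)
  refine ⟨max (max J₁ J₂) (max J₃ 1), fun J hJ => ?_⟩
  have j1 : 1024 * (Cx + 8) ≤ J * X := by
    have := hJ₁.trans (show (J₁ : ℝ) ≤ J by
      exact_mod_cast ((le_max_left _ _).trans (le_max_left _ _)).trans hJ)
    rwa [div_le_iff₀ hX] at this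
  have j2 : (κ : ℝ) + 8 ≤ J * ζ := by
    have := hJ₂.trans (show (J₂ : ℝ) ≤ J by
      exact_mod_cast ((le_max_right _ _).trans (le_max_left _ _)).trans hJ)
    rwa [div_le_iff₀ hζ0] at this
  have j3 : (M : ℝ) * 4 ≤ J * X := by
    have := hJ₃.trans (show (J₃ : ℝ) ≤ J by
      exact_mod_cast ((le_max_left _ _).trans (le_max_right _ _)).trans hJ)
    rwa [div_le_iff₀ hX] at this
  have j4 : 1 ≤ J := ((le_max_right _ _).trans (le_max_right _ _)).trans hJ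
  have hJ0 : (0 : ℝ) < J := by exact_mod_cast j4
  obtain ⟨z, hz⟩ : ∃ z, z = up ζ J := ⟨_, rfl⟩
  rw [← hz]
  have z1 : ζ * J ≤ z := by rw [hz]; exact up_ge ζ J
  have z2 : (z : ℝ) ≤ ζ * J + 1 := by rw [hz]; exact up_le hζ0.le J
  have hXJ : 0 < X * J := mul_pos hX hJ0
  -- the sizes in digits
  have hCz : Cx * z ≤ X * J / 256 := by
    have h1 := mul_le_mul_of_nonneg_left z2 hC0
    have h2 : Cx * ζ * J ≤ X / 512 * J := by
      refine mul_le_mul_of_nonneg_right ?_ hJ0.le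
      nlinarith only [hCζ, hYX, hζ0, hX]
    nlinarith only [h1, h2, j1, hC0, hXJ]
  have hCmz : (Cm : ℝ) * z ≤ X * J / 256 :=
    (mul_le_mul_of_nonneg_right hCm (Nat.cast_nonneg z)).trans hCz
  have hMz : (M : ℝ) * z ≤ X * J / 256 + M := by
    have h1 := mul_le_mul_of_nonneg_left z2 hM0
    have h2 : M * ζ * J ≤ X / 256 * J :=
      mul_le_mul_of_nonneg_right (hMζ.trans hYX) hJ0.le
    linarith only [h1, h2]
  have hα0 : 0 ≤ y.1 + y.2 := by linarith only [hdep, hwin, hX]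
  have u2 := up_le (hX.le.trans hwin) J
  have u3 := up_ge (y.1 + y.2) J
  have u4 := up_ge y.1 J
  have hdepJ : X * J ≤ y.2 * J := mul_le_mul_of_nonneg_right hdep hJ0.le
  have hwinJ : X * J ≤ y.1 * J := mul_le_mul_of_nonneg_right hwin hJ0.le
  have htopJ : (y.1 + y.2 + 2 * X) * J ≤ 1 * J := mul_le_mul_of_nonneg_right htop hJ0.le
  have hMX : (M : ℝ) ≤ X * J / 4 := by linarith only [j3]
  have h8 : (8192 : ℝ) ≤ X * J := by nlinarith only [j1, hC0]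
  have fX := Nat.floor_le (show 0 ≤ X / 16 * J by positivity)
  have fX' := Nat.floor_le (show 0 ≤ X / 32 * J by positivity)
  have fX2 := Nat.lt_floor_add_one (X / 16 * (J : ℝ))
  refine ⟨?_, ?_, ?_, ?_, fun i hi j hj k hk k' hk' => ?_, fun i hi j hj k hk => ⟨?_, ?_⟩,
    fun i hi j hj k hk => ⟨?_, ?_⟩, fun i hi j hj => ⟨?_, ?_⟩, fun i hi j hj => ?_,
    fun i hi j hj k hk => ?_, ?_, ?_, j4⟩
  · have : ((up y.1 J + M * z : ℕ) : ℝ) ≤ up (y.1 + y.2) J := by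
      push_cast
      linarith only [u2, u3, hMz, hdepJ, hMX, h8]
    exact_mod_cast this
  · have : ((up y.1 J + M * z + Cm * z : ℕ) : ℝ) ≤ J := by
      push_cast
      linarith only [u2, hMz, hCmz, htopJ, hdepJ, hMX, h8, hXJ]
    exact_mod_cast this
  · refine Nat.floor_le_of_le (le_trans ?_ u3)
    exact mul_le_mul_of_nonneg_right hg.rad hJ0.le
  · refine Nat.floor_le_of_le (le_trans ?_ u4)
    exact mul_le_mul_of_nonneg_right hg.win hJ0.le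
  · unfold nlp
    rw [tsub_le_iff_right]
    refine Finset.sup_le fun k'' hk'' => ?_
    have hk3 := Finset.mem_Icc.1 hk''
    have h1 := (hbL i hi j hj k'' (by omega)).1
    have h2 := (hbL i hi j hj k (by omega)).2
    have h3 : L k'' (y.1 + y.2) y.1 ≤ L k (y.1 + y.2) y.1 := by
      rcases hk3.2.lt_or_eq with h4 | h4
      · exact hsrt k hk k'' h4
      · rw [h4]
    refine Nat.floor_le_of_le ?_
    push_cast
    have h4 := Nat.lt_floor_add_one (b i j k * (J : ℝ))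
    have h5 : b i j k'' * J ≤ (b i j k + 3 * (X / 64)) * J :=
      mul_le_mul_of_nonneg_right (by linarith only [h1, h2, h3]) hJ0.le
    linarith only [h4, h5, fX2, h8]
  · have h2 := (hbL i hi j hj k (by omega)).2
    have h3 := hLlow k (by omega)
    refine Nat.le_floor ?_
    push_cast
    have h5 : X * J ≤ b i j k * J := mul_le_mul_of_nonneg_right (by linarith only [h2, h3, hX]) hJ0.le
    linarith only [hCmz, h5, hXJ]
  · have h2 := (hbL i hi j hj k (by omega)).2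
    have h3 := hLlow k (by omega)
    have h4 := hb.e1 i hi j hj k (by omega)
    have h5 := hb.e0 i hi j hj
    have f1 := Nat.floor_le (show 0 ≤ b i j k * (J : ℝ) from
      mul_nonneg (by linarith only [h2, h3, hX]) hJ0.le)
    have f2 := Nat.floor_le (show 0 ≤ e i j * (J : ℝ) from mul_nonneg h5 hJ0.le)
    have h6 : (b i j k + e i j + X) * J ≤ 1 * J := mul_le_mul_of_nonneg_right h4 hJ0.le
    have : ((⌊b i j k * (J : ℝ)⌋₊ + ⌊e i j * (J : ℝ)⌋₊ + ⌊X / 16 * (J : ℝ)⌋₊ + Cm * z : ℕ) : ℝ) ≤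
        J := by
      push_cast
      linarith only [f1, f2, h6, fX, hCmz, hXJ]
    exact_mod_cast this
  · refine Nat.le_floor ?_
    push_cast
    have h1 : X / 4 * J ≤ β k * J := mul_le_mul_of_nonneg_right (hg.lo k hk) hJ0.le
    linarith only [hCmz, h1, hXJ]
  · refine Nat.floor_le_floor (mul_le_mul_of_nonneg_right ?_ hJ0.le)
    have h1 := hg.up k hk
    have h2 := (hbL i hi j hj k (by omega)).2
    linarith only [h1, h2, hX]
  · have h2 := (hbL i hi j hj l hl).2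
    have h3 := hLlow l hl
    refine Nat.le_floor ?_
    push_cast
    have h5 : X * J ≤ b i j l * J := mul_le_mul_of_nonneg_right (by linarith only [h2, h3, hX]) hJ0.le
    linarith only [h5, h8]
  · have h1 := (hbL i hi j hj l hl).1
    have h2 := (hbL i hi j hj l hl).2
    have h3 := hLlow l hl
    have h4 := hg.gn
    have f1 := Nat.floor_le (show 0 ≤ b i j l * (J : ℝ) from
      mul_nonneg (by linarith only [h2, h3, hX]) hJ0.le)
    refine Nat.le_floor ?_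
    push_cast
    have h5 : b i j l * J ≤ (β l - X / 16) * J :=
      mul_le_mul_of_nonneg_right (by linarith only [h1, h4, hX]) hJ0.le
    linarith only [f1, h5, hCmz, hXJ]
  · have h1 := (abs_le.1 (hlev l hl i hi j hj))
    have h3 := hLlow l hl
    have h4 := hg.gn
    have f1 := Nat.floor_le (show 0 ≤ L l (y.1 + y.2 + i * ζ) (y.1 + j * ζ) * (J : ℝ) from
      mul_nonneg (by linarith only [h1.1, h3, hX]) hJ0.le)
    refine Nat.le_floor ?_
    push_cast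
    have h5 : L l (y.1 + y.2 + i * ζ) (y.1 + j * ζ) * J ≤ (β l - X / 16) * J :=
      mul_le_mul_of_nonneg_right (by linarith only [h1.2, h4, hX]) hJ0.le
    linarith only [f1, h5, hCmz, hXJ, fX']
  · have h2 := (hbL i hi j hj k (by omega)).2
    have h3 := hLlow k (by omega)
    have h4 := hb.e1 i hi j hj k (by omega)
    have h5 := hb.e0 i hi j hj
    have f1 := Nat.floor_le (show 0 ≤ b i j k * (J : ℝ) from
      mul_nonneg (by linarith only [h2, h3, hX]) hJ0.le)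
    have h6 : (b i j k + X) * J ≤ 1 * J := mul_le_mul_of_nonneg_right
      (by linarith only [h4, h5]) hJ0.le
    have h7 : (((V + 4) * (Cm * z) : ℕ) : ℝ) = Cx * z := by
      rw [hCx]
      push_cast
      ring
    have : ((⌊b i j k * (J : ℝ)⌋₊ + (V + 4) * (Cm * z) : ℕ) : ℝ) ≤ J := by
      rw [Nat.cast_add, h7]
      linarith only [f1, h6, hCz, hXJ]
    exact_mod_cast this
  · have h1 : ((⌈ζ / 2 * (J : ℝ)⌉₊ + 1 : ℕ) : ℝ) ≤ z := by
      push_cast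
      have h2 := Nat.ceil_lt_add_one (show 0 ≤ ζ / 2 * (J : ℝ) by positivity)
      have h3 : (0 : ℝ) ≤ κ := Nat.cast_nonneg κ
      linarith only [h2, z1, j2, h3]
    exact_mod_cast h1
  · have h1 : (κ : ℝ) ≤ z := by linarith only [j2, z1]
    exact_mod_cast h1

end Pool.STAT
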