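import Pool.Agent.H78.MIC.ClsK
import Pool.Agent.H78.MIC.ConJ

/-!
# Chains with gain near a window

`GnW D l g r`: near the window `g`, at the scale `r`, there is a chain with gain of the coordinate
`l`, of the class `D`, on large events.
-/

set_option autoImplicit false

namespace Pool.PKG

open MeasureTheory Set Filter Topology
open Pool.Agent.H49.Ent Pool.Agent.H32.Dense Pool.STK Pool.KA Pool.KSAT Pool.K2S Pool.PB
open Pool.GEN Pool.S6C Pool.STAT Pool.CHT Pool.GRW Pool.ONE Pool.STA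
open Pool.RTS (iso Diag)

variable {n : ℕ}

/-- **A chain with gain** of the coordinate `l` near the window `g`, at the scale `r`. -/
def GnW (hn : 2 ≤ n) (S : PCl n) (P : ℝ → ℝ → ℝ) (P' : ℕ → List (Fin n) × Fin n → ℝ → ℝ → ℝ)
    (o : Od n) (D l : ℕ) (g r : ℝ) : Prop :=
  ∃ (aT wT eT : ℝ) (β : ℕ → ℝ) (K₁ : ℝ), 0 < K₁ ∧
    GnN (fun k => iso (dgN hn P P' o k)) l (g, r) r aT wT β ∧
    Bas S fun J F A => ∃ B : F.Ω → Prop, Sub B A ∧ Pe F.p A ≤ K₁ * Pe F.p B ∧
      Chn (cc hn o.1.1) (l + 1) (fun _ => D) aT wT eT β J F B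

end Pool.PKG
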