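import Pool.Agent.H78.MIC.ConM
import Pool.Agent.H78.MIC.ClsF
import Pool.Agent.H78.MIC.Win
import Pool.Agent.H6.SYS2.Cor

/-!
# No boxes with ties, one coordinate has a label with gain

`MicX.monoK`: the local theorem for smaller classes. `KitS.setW`: another joint property.
`cls_C`: there are no boxes of a kind with ties, if one coordinate has a label with gain and the
others are rough.
-/

set_option autoImplicit false

namespace Pool.STAT

open Finset MvPolynomial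
open Pool.Agent.H49.Ent Pool.Agent.H32.Dense Pool.STK Pool.KS3 Pool.KA Pool.KSAT Pool.PB Pool.GEN
open Pool.K2S Pool.S6C
open Pool.STR (CellD)
open Pool.STAT.CLO

/-- **The local theorem for labels of a smaller class.** -/
theorem MicX.monoK {X : ExtX} {Qc : CondN} {PB : ℕ → Prop} {n K K' : ℕ} {h : ℝ}
    (H : MicX X Qc PB n K' h) (hK : K ≤ K') : MicX X Qc PB n K h := by
  intro B lam gam C₁ hB hB' h1 h2 h3 h4 h5
  obtain ⟨M, Q, K₁, η', κ, ϖ, z₀, a1, a2, a3, a4⟩ := H B lam gam C₁ hB hB' h1 h2 h3 h4 h5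
  exact ⟨M, Q, K₁, η', κ, ϖ, z₀, a1, a2, a3, fun J a₀ w₀ z D q hz hO hN hX =>
    a4 J a₀ w₀ z D q hz (hO.mono hK le_rfl le_rfl) hN hX⟩

/-- Another joint property of the labels of a grid. -/
def KitS.setW {m n₀ : ℕ} {P : ℝ → ℝ → ℝ} {ρ : ℝ → ℝ} {E : CellD P ρ} (Kt : KitS m E n₀)
    (W : BS E → ℕ → ℕ → ℝ → GrdP m) (her : ∀ p N M θ, (W p N M θ).Her) : KitS m E n₀ where
  cs := Kt.cs
  jx := Kt.jx
  K := Kt.K
  W := W
  her := her
  RT := Kt.RT
  rc := Kt.rc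

theorem KitS.setW_kit {m n₀ : ℕ} {P : ℝ → ℝ → ℝ} {ρ : ℝ → ℝ} {E : CellD P ρ} (Kt : KitS m E n₀)
    (W : BS E → ℕ → ℕ → ℝ → GrdP m) (her : ∀ p N M θ, (W p N M θ).Her) :
    (Kt.setW W her).kit = Kt.kit.setW W her := rfl

end Pool.STAT

namespace Pool.PKG

open MeasureTheory Set Filter Topology
open Pool.Agent.H49.Ent Pool.Agent.H32.Dense Pool.STK Pool.KA Pool.KSAT Pool.K2S Pool.PB
open Pool.GEN Pool.S6C Pool.STAT Pool.CHT Pool.GRW Pool.ONE Pool.STA
open Pool.LBT (LSys ThrOf)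
open Pool.LEV (Law Lv)
open Pool.ALL (RateOf)
open Pool.TOP (TopS)
open Pool.RTS (iso Diag)
open Pool.STR (NumI CellD RowD NfB AffB Rle Nw)
open Pool.ISO (ChI)
open Pool.CHB (chsysB)
open Pool.STAT.CLO Pool.MIC6
open Pool.P4 (NFc1)

variable {n : ℕ} {hn : 2 ≤ n} {S : PCl n} {P : ℝ → ℝ → ℝ} {rr : ℝ → ℝ}
  {P' : ℕ → List (Fin n) × Fin n → ℝ → ℝ → ℝ} {Λ : Finset (Fin n) → Fin n → ℝ → ℝ → ℝ}
  {PB : ℕ → List (Fin n) × Fin n → ℝ → ℝ → ℝ}
  (H : PkT hn S P rr P' Λ PB) {hTop : TopS n} {hF : FZX (n - 1)} {h : ℝ}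
  {ρ' : ℝ → ℝ} {hρ : Rle rr ρ'}

/-- The levels are at most the sides of the thin boxes. -/
theorem kit_Lp {p : ((H.nk hTop hF).chg hρ H.up).Par} {K₀ : ℕ} (q : BS p.cell) {l : ℕ}
    (hl : l < n - 1) (a w : ℝ) (h0 : 0 ≤ w) (h1 : w ≤ a) (h2 : a ≤ 1) :
    (kitN H p K₀).kit.L q l a w ≤
      bet (P' (show Od n from q.k.2).2) ((kitN H p K₀).kit.cs q) l a w := by
  rw [kit_Lb H q hl a w]
  exact Pool.RTS.iso_least ((H.cht _).law _) (fun _ _ _ => rfl) h0 h1 h2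

/-- The levels are sorted. -/
theorem kit_srt {p : ((H.nk hTop hF).chg hρ H.up).Par} {ι : Type}
    {kd : p.cell.α → ι} {c β h' M : ℝ} {x : ι} (K₀ : ℕ)
    (hsrt : ∀ ε q, IsK p.cell kd c β h' M x ε q → ∀ k < n - 1, ∀ k' < k,
      dgN hn P P' (show Od n from q.k.2) k' q.g ≤ dgN hn P P' (show Od n from q.k.2) k q.g)
    {l : ℕ} (hl : l < n - 1) :
    EvP (IsK p.cell kd c β h' M x) fun q => ∀ k < l, ∀ k' < k,
      (kitN H p K₀).kit.L q k' (((kitN H p K₀).kit.y q).1 + ((kitN H p K₀).kit.y q).2)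
        ((kitN H p K₀).kit.y q).1 ≤
      (kitN H p K₀).kit.L q k (((kitN H p K₀).kit.y q).1 + ((kitN H p K₀).kit.y q).2)
        ((kitN H p K₀).kit.y q).1 := by
  refine ⟨1, one_pos, fun q hq k hk k' hk' => ?_⟩
  have h1 := hsrt 1 q hq k (by omega) k' hk'
  show iso ((kitN H p K₀).Dg q k') (q.g + q.r) q.g ≤ iso ((kitN H p K₀).Dg q k) (q.g + q.r) q.g
  rw [kit_dg H q k', kit_dg H q k]
  unfold iso
  exact min_le_min le_rfl (by linarith)

/-- The thresholds of a rough coordinate on the cells. -/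
theorem kit_rgh {p : ((H.nk hTop hF).chg hρ H.up).Par} {ι : Type}
    {kd : p.cell.α → ι} {c β h' M : ℝ} {x : ι} (K₀ : ℕ)
    {be PW : ℕ → List (Fin n) × Fin n → ℝ → ℝ → ℝ}
    (hPW : ∀ j, ThrOf (chsysB n none (be j)) S (PW j)) {l : ℕ}
    (hrgh : ∀ ε' : ℝ, 0 < ε' → EvP (IsK p.cell kd c β h' M x) fun q =>
      Box7 q.g q.r fun a w => bet (PW (show Od n from q.k.2).2)
        (cc hn (show Od n from q.k.2).1.1) l a w ≤
          dgN hn P P' (show Od n from q.k.2) l w + (a - w) + ε' * q.r) (ε' : ℝ) (hε' : 0 < ε') :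
    EvP (IsK p.cell kd c β h' M x) fun q => ∀ z : ℝ × ℝ,
      dist z ((kitN H p K₀).kit.y q) ≤ (kitN H p K₀).kit.X q →
      Nw (bet (PW (show Od n from q.k.2).2) ((kitN H p K₀).kit.cs q) l) z ≤
        Nw ((kitN H p K₀).kit.L q l) z + ε' * (kitN H p K₀).kit.X q := by
  refine ((hrgh ε' hε').and (isK_mono p.cell kd c β h' M x) (EvP.self _ one_pos)).mono
    fun q hq z hz => ?_
  obtain ⟨h1, hq⟩ := hq
  have hr := hq.is.r0
  have h2 : ∀ a w : ℝ, 0 ≤ w → w ≤ a → a ≤ 1 →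
      bet (PW (show Od n from q.k.2).2) (cc hn (show Od n from q.k.2).1.1) l a w ≤ 1 :=
    fun a w k1 k2 k3 => (hPW _).up _ a w k1 k2 k3
  have h3 := box_le h2 hr hq.is.g0 hq.is.g1 h1 (mul_pos hε' hr).le hz
  have h4 : (kitN H p K₀).kit.L q l = iso (dgN hn P P' (show Od n from q.k.2) l) := by
    show iso ((kitN H p K₀).Dg q l) = _
    rw [kit_dg H q l]
  show Nw (bet (PW (show Od n from q.k.2).2) (cc hn (show Od n from q.k.2).1.1) l) z ≤
    Nw ((kitN H p K₀).kit.L q l) z + ε' * q.r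
  rw [h4]
  exact h3

/-- **No boxes of a kind with ties, one coordinate has a label with gain**: `x'` is the deficit of
the closed rows, `Qc` a condition for the slopes. -/
theorem cls_C {x' : ℝ} {Qc : CondN} (hQc : Qc.Cl (n - 1 + 1)) {l₀ : ℕ} (hl₀ : l₀ < n - 1)
    (hP : ∀ K' : ℕ, MicX (XP4 K' 1 (fun u => u ≠ l₀ + 1) x') Qc (fun B => B = n + 2)
      (n - 1 + 1) K' h)
    (hh : 0 < h) (hh1 : h ≤ 1) {p : ((H.nk hTop hF).chg hρ H.up).Par} (hpI : AdP H p)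
    {ι : Type} {kd : p.cell.α → ι} {c β h' M : ℝ} {x : ι}
    (hexn : ExnI H p (IsK p.cell kd c β h' M x)) (hexs : ExsI H p (IsK p.cell kd c β h' M x))
    (hnfc : NfcI H p x' (IsK p.cell kd c β h' M x)) (hc : 0 < c) (hβ : 0 < β)
    (hQ : ∀ q ε K₀, IsK p.cell kd c β h' M x ε q → Qc (fun _ => 1)
      (gamS (n - 1 + 1) ((kitN H p K₀).kit.la q) ((kitN H p K₀).kit.ml q)))
    (hrow : ∀ ε' : ℝ, 0 < ε' → EvP (IsK p.cell kd c β h' M x) fun q =>
      NfB rr h (ε' * q.r) (P q.g q.g - q.r) (P q.g q.g + 3 * q.r))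
    (hsrt : ∀ ε q, IsK p.cell kd c β h' M x ε q → ∀ k < n - 1, ∀ k' < k,
      dgN hn P P' (show Od n from q.k.2) k' q.g ≤ dgN hn P P' (show Od n from q.k.2) k q.g)
    {PW : ℕ → List (Fin n) × Fin n → ℝ → ℝ → ℝ}
    (hPW : ∀ j, ThrOf (chsysB n none (P' j)) S (PW j))
    (hrgh : ∀ l ≤ n - 1, l ≠ l₀ → ∀ ε' : ℝ, 0 < ε' → EvP (IsK p.cell kd c β h' M x) fun q =>
      Box7 q.g q.r fun a w => bet (PW (show Od n from q.k.2).2)
        (cc hn (show Od n from q.k.2).1.1) l a w ≤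
          dgN hn P P' (show Od n from q.k.2) l w + (a - w) + ε' * q.r)
    (hcon : ∀ ε' : ℝ, 0 < ε' → EvP (IsK p.cell kd c β h' M x) fun q =>
      Box7 q.g q.r fun a w => dgN hn P P' (show Od n from q.k.2) l₀ w + 2 * (a - w) ≤
        bet (P' (show Od n from q.k.2).2) (cc hn (show Od n from q.k.2).1.1) l₀ a w + ε' * q.r)
    {DT : ℕ} (hgn : EvP (IsK p.cell kd c β h' M x) fun q =>
      GnW hn S P P' (show Od n from q.k.2) DT l₀ q.g q.r) :
    EvP (IsK p.cell kd c β h' M x) fun _ => False := by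
  obtain ⟨K₀, K', s₁, sh, hK₀, hK', hgrd⟩ := cls_grd n hc
  have hI' := isK_mono p.cell kd c β h' M x
  have hsub := isK_sub p.cell kd c β h' M x
  have hlt := cls_hlt H hpI (c := c) (β := β) (hh := h') (M := M)
  have exn : ∀ k : ℝ, 0 < k → ∀ M' : ℕ, EvQ (IsK p.cell kd c β h' M x) fun N θ q =>
      (kitN H p K₀).kit.FldN S K' s₁ sh M' N θ q
        fun G J F D q' => OKI.ExN D G.c G.n G.sh ((kitN H p K₀).kit.rc q N M' θ J F D)
          (up G.ϖ J) (up G.ζ J) G.M (G.gn J) (k * up G.ζ J) q' := hexn K₀ K' s₁ sh hK₀ hK'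
  have exs : ∀ k : ℝ, 0 < k → ∀ M' : ℕ, EvQ (IsK p.cell kd c β h' M x) fun N θ q =>
      (kitN H p K₀).kit.FldN S K' s₁ sh M' N θ q
        fun G J F D q' => ExS D G.c G.n G.sh G.M (G.gn J) (k * up G.ζ J) q' :=
    hexs K₀ K' s₁ sh hK₀ hK'
  obtain ⟨C₄, hnfc⟩ := hnfc K₀ K' s₁ sh hK₀ hK'
  have fcel := kit_cel H hpI (kd := kd) (h' := h') (M := M) hc hβ x K₀
  have hml : ∀ (q : BS p.cell), ∀ l < n - 1 + 1, (kitN H p K₀).kit.ml q l = 1 := fun _ _ _ => rfl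
  -- the label with gain
  obtain ⟨S₂, hVc⟩ := hV_con hI' H.tmh (kitN H p K₀).kit hml (fun q => kit_inj H p K₀ q.k)
    (s₁ := s₁) (sh := sh) hK' fcel (be := fun q => P' (show Od n from q.k.2).2)
    (P := fun q => PW (show Od n from q.k.2).2) (fun q => hPW _) (l := l₀) (by omega)
    (fun q k hk a w h0 h1 h2 => kit_Lp H q (by omega) a w h0 h1 h2)
    (fun k hk => kit_rgh H K₀ hPW (hrgh k (by omega) (by omega)))
    (kit_srt H K₀ hsrt hl₀) (DT := DT) (hgn.mono fun q h1 => by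
      obtain ⟨aT, wT, eT, β', K₁, k1, k2, k3⟩ := h1
      refine ⟨aT, wT, eT, β', K₁, k1, ?_, k3⟩
      have e1 : (kitN H p K₀).kit.L q = fun k => iso (dgN hn P P' (show Od n from q.k.2) k) := by
        funext k
        show iso ((kitN H p K₀).Dg q k) = _
        rw [kit_dg H q k]
      rw [e1]
      exact k2)
  obtain ⟨K₂, hK₂⟩ : ∃ K₂, K₂ = max (kitN H p K₀).kit.K DT := ⟨_, rfl⟩
  rw [← hK₂] at hVc
  obtain ⟨W₀, hW₀⟩ : ∃ W₀ : BS p.cell → ℕ → ℕ → ℝ → GrdP n, W₀ = fun q N M θ J F D A =>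
      (kitN H p K₀).kit.W q N M θ J F D A ∧
        (kitN H p K₀).kit.Wco l₀ K₂ S₂ q N M θ J F D A := ⟨_, rfl⟩
  have her₀ : ∀ q N M θ, (W₀ q N M θ).Her := by
    intro q N M θ
    rw [hW₀]
    exact GrdP.Her.and ((kitN H p K₀).kit.her q N M θ) ((kitN H p K₀).kit.wco_her l₀ K₂ S₂ q N M θ)
  have hWs₀ : ∀ q N M θ (J : ℕ) (F : Fam n J) (D : GDat F) (A : F.Ω → Prop),
      W₀ q N M θ J F D A → (kitN H p K₀).kit.W q N M θ J F D A ∧
        (kitN H p K₀).kit.Wco l₀ K₂ S₂ q N M θ J F D A := by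
    intro q N M θ J F D A h1
    rw [hW₀] at h1
    exact h1
  obtain ⟨W, her, hfact⟩ := factIN H.tmh ((kitN H p K₀).setW W₀ her₀) (kit_inj H p K₀) (K' := K')
    (s₁ := s₁) (sh := sh) hK' hc hβ (cls_hP H) (cls_hD H) hlt hI' hsub
    (Qc := Qc) (X := XP4 (max K' K₂) 1 (fun u => u ≠ l₀ + 1) x') (PB := fun B => B = n + 2)
    (h₁ := h) ⟨1, one_pos, fun q hq => hQ q 1 K₀ hq⟩
    (fun _ _ _ _ _ _ _ _ _ => inferInstanceAs (Subsingleton Unit))
    (fun q N M θ J F D A h1 i hi j hj => ((wBal.com (hWs₀ q N M θ J F D A h1).1) i hi j hj).2)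
    (fun M' => grd_and hI' (fun q N M θ J F D A h1 h2 => by
      show W₀ q N M θ J F D A
      rw [hW₀]
      exact ⟨h1, h2⟩) ((hgrd H hpI hβ M').sub hsub) (hVc M'))
    (fun k hk M' => (exn k hk M').mono fun N θ q h1 => h1.setW
      (fun J F D A h2 => (hWs₀ q N M' θ J F D A h2).1) fun _ _ _ _ _ _ h2 => h2)
    (fun W her hWs ok2 => by
      obtain ⟨C₃, hnf⟩ := nf_U hI' H.tmh.1 H.zc ((kitN H p K₀).kit.setW W her)
        (fun _ _ _ => rfl) (fun q => kit_inj H p K₀ q.k) (fun q => kit_cov H p K₀ q.k)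
        (fun q => kit_rate H p K₀ q.k) (s₁ := s₁) (sh := sh) hK' hh hh1
        (fun ε' hε' => kit_row H K₀ hrow ε' hε') fcel
        (fun k hk M' => (exs k hk M').mono fun N θ q h1 => h1.setW
          (fun J F D A h2 => (hWs₀ q N M' θ J F D A (hWs q N M' θ J F D A h2)).1)
          fun _ _ _ _ _ _ h2 => h2) ok2
      refine ⟨⟨C₃, fun C₁ hC₁ => ⟨n + 2, by omega, rfl, fun M' => hnf C₁ hC₁ (n + 2)
        (by have := hn; omega) M'⟩⟩, ?_⟩
      refine ext_C hI' H.tmh ((kitN H p K₀).kit.setW W her) hml fcel hK' (K₂ := K₂) (S₂ := S₂)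
        hl₀ (fun q N M θ J F D A h1 => (hWs₀ q N M θ J F D A (hWs q N M θ J F D A h1)).2)
        (be := fun q => P' (show Od n from q.k.2).2)
        (P := fun q => PW (show Od n from q.k.2).2) (fun q => hPW _)
        (fun q l hl _ a w h0 h1 h2 => kit_Lp H q hl a w h0 h1 h2) ?_
        (fun l hl h1 => kit_rgh H K₀ hPW (hrgh l hl h1)) ?_
      · refine ((hcon (1 / 32) (by norm_num)).and hI' (EvP.self _ one_pos)).mono
          fun q hq a w h1 h2 h3 h4 => ?_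
        obtain ⟨hc1, hq⟩ := hq
        have hr := hq.is.r0
        change q.g ≤ w at h1
        change w ≤ q.g + q.r / 16 at h2
        change q.g + q.r ≤ a at h3
        change a ≤ q.g + q.r + q.r / 16 at h4
        have h5 := hc1 a w (by linarith) (by linarith) (by linarith)
        have h6 : (kitN H p K₀).kit.L q l₀ = iso (dgN hn P P' (show Od n from q.k.2) l₀) := by
          show iso ((kitN H p K₀).Dg q l₀) = _
          rw [kit_dg H q l₀]
        have h7 := Pool.RTS.iso_le (dgN hn P P' (show Od n from q.k.2) l₀) a w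
        show (kitN H p K₀).kit.L q l₀ a w + q.r / 32 ≤
          bet (P' (show Od n from q.k.2).2) (cc hn (show Od n from q.k.2).1.1) l₀ a w
        rw [h6]
        linarith
      · exact ⟨C₄, fun C₁ hC₁ B _ hB M' => by
          subst hB
          exact (hnfc C₁ hC₁ M').mono fun N θ q h2 => h2.setW
            (fun J F D A h3 => (hWs₀ q N M' θ J F D A (hWs q N M' θ J F D A h3)).1)
            fun _ _ _ _ _ _ h3 => h3⟩)
  exact evX_false hI' (xP4_mono (max K' K₂) 1 _ x') H.ne H.tmh.1 _ hh1 hQc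
    ((hP (max K' K₂)).monoK (le_max_left _ _)) hfact

end Pool.PKG
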