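import Pool.Agent.H78.MIC.ClsM

/-!
# No boxes without ties, no boxes with ties if all coordinates are rough

`cls_D`: there are no boxes with slope one or static threshold.
`cls_V`: there are no boxes of the kind without ties, by the local theorem without ties.
`cls_P`: there are no boxes of the kind with ties, if all the coordinates are rough, by P4.
-/

set_option autoImplicit false

namespace Pool.PKG

open MeasureTheory Set Filter Topology
open Pool.Agent.H49.Ent Pool.Agent.H32.Dense Pool.STK Pool.KA Pool.KSAT Pool.K2S Pool.PB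
open Pool.GEN Pool.S6C Pool.STAT Pool.CHT Pool.GRW Pool.ONE Pool.STA
open Pool.LBT (LSys ThrOf)
open Pool.LEV (Law Lv)
open Pool.ALL (RateOf)
open Pool.TOP (TopS)
open Pool.RTS (iso Diag)
open Pool.STR (NumI CellD RowD NfB AffB Rle Nw)
open Pool.ISO (ChI)
open Pool.STAT.CLO Pool.MIC6
open Pool.P4 (NFc1 P4Stmt1)

variable {n : ℕ} {hn : 2 ≤ n} {S : PCl n} {P : ℝ → ℝ → ℝ} {rr : ℝ → ℝ}
  {P' : ℕ → List (Fin n) × Fin n → ℝ → ℝ → ℝ} {Λ : Finset (Fin n) → Fin n → ℝ → ℝ → ℝ}
  {PB : ℕ → List (Fin n) × Fin n → ℝ → ℝ → ℝ} {PN PC : Od n → ℕ → ℝ → ℝ → ℝ}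
  (H : PkT hn S P rr P' Λ PB) {hTop : TopS n} {hF : FZX (n - 1)} {h : ℝ}
  {ρ' : ℝ → ℝ} {hρ : Rle rr ρ'}

/-- **No boxes with slope one or static threshold.** -/
theorem cls_D {p : ((H.nk hTop hF).chg hρ H.up).Par} {ι : Type} {kd : p.cell.α → ι}
    {c β h' M : ℝ} {x : ι} (hβ : 0 < β)
    (hΦ : ∀ ε' : ℝ, 0 < ε' → EvP (IsK p.cell kd c β h' M x) fun q =>
      slN hn P P' (show Od n from q.k.2) (n - 1) q.g ≤ 1 ∨ Box7 q.g q.r fun a w =>
        P a a ≤ PT hn PB (show Od n from q.k.2) a w + ε' * q.r) :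
    EvP (IsK p.cell kd c β h' M x) fun _ => False := by
  refine ((hΦ (β / 4) (by linarith)).and (isK_mono p.cell kd c β h' M x)
    (EvP.self _ (show 0 < β / 4 by linarith))).mono fun q hq => ?_
  obtain ⟨h1, hq⟩ := hq
  have hr := hq.is.r0
  have hs := hq.is.slo
  have hS := hq.eS
  rcases h1 with h1 | h1
  · have h2 : slN hn P P' (show Od n from q.k.2) (n - 1) q.g = q.S := by
      rw [hS]
      unfold slN dgN
      rw [if_neg (lt_irrefl _)]
    rw [h2] at h1
    linarith
  · have h2 := h1 (q.g + q.r) q.g (by linarith) (by linarith) (by linarith)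
    have h3 := abs_le.1 (hq.is.dgP (q.g + q.r) (by
      rw [add_sub_cancel_left, abs_of_pos hr]
      linarith))
    have h4 := abs_le.1 (hq.is.iso (q.g + q.r) q.g (by linarith) (by linarith) (by linarith))
    have h5 : p.cell.PB q.k (q.g + q.r) q.g =
      PT hn PB (show Od n from q.k.2) (q.g + q.r) q.g := rfl
    rw [h5, sub_self, mul_zero, add_sub_cancel_left] at h4
    rw [add_sub_cancel_left] at h3
    have h6 : β * q.r ≤ (q.S - 1) * q.r := mul_le_mul_of_nonneg_right (by linarith) hr.le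
    have h7 : 0 < β * q.r := mul_pos hβ hr
    nlinarith

/-- **No boxes of the kind without ties.** -/
theorem cls_V (hV : MicOf CondV) (hh : 0 < h) (hh1 : h ≤ 1)
    {p : ((H.nk hTop hF).chg hρ H.up).Par}
    (hpI : ∀ c (k : p.α × Od n) Q g ρ, p.Ad' c k Q g ρ → AdI hn S P P' c k.2 g ρ)
    {ι : Type} {kd : p.cell.α → ι} {c β h' M : ℝ} {x : ι}
    (hexn : ExnI H p (IsK p.cell kd c β h' M x)) (hexs : ExsI H p (IsK p.cell kd c β h' M x))
    (hc : 0 < c) (hβ : 0 < β)
    (hA : ∀ ε q, IsK p.cell kd c β h' M x ε q → SlV hn P P' c (show Od n from q.k.2) q.g)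
    (hrow : ∀ ε' : ℝ, 0 < ε' → EvP (IsK p.cell kd c β h' M x) fun q =>
      NfB rr h (ε' * q.r) (P q.g q.g - q.r) (P q.g q.g + 3 * q.r)) :
    EvP (IsK p.cell kd c β h' M x) fun _ => False := by
  have hI' := isK_mono p.cell kd c β h' M x
  have hsub := isK_sub p.cell kd c β h' M x
  refine cls_mic H hh hh1 hpI hexn hexs hc hβ hrow (X := fun _ => XV 1) (fun _ => xV_mono 1)
    (qV_cl (by omega) (min c β)) (fun K' => ?_) (fun q ε K₀ hq => ?_)
    fun K₀ K' s₁ sh hK₀ hK' W her hWs => ?_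
  · intro B lam gam C₁ hB _ h1 h2 h3 h4 h5
    exact micX_V hV (by omega) hh hh1 (lt_min hc hβ) K' 1 B lam gam C₁ hB trivial h1 h2 h3 h4 h5
  · refine ⟨fun _ _ _ => rfl, fun l l1 l2 => ?_⟩
    obtain ⟨e1, e2⟩ := gamS_tar H hq hβ K₀
    have e3 := gamS_kit H hq K₀ l1 l2.le
    rw [e1, e3]
    have h2 := hA _ q hq (l - 1) (by omega)
    rcases le_total (slN hn P P' (show Od n from q.k.2) (l - 1) q.g) 1 with h3 | h3
    · rw [max_eq_left (by linarith), zero_sub, abs_neg, abs_of_nonneg (by linarith)]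
      exact (min_le_right _ _).trans e2
    · rw [max_eq_right (by linarith), sub_sub_sub_cancel_right]
      exact (min_le_left _ _).trans h2
  · exact ext_V hI' H.tmh ((kitN H p K₀).kit.setW W her)
      (kit_cel H hpI (kd := kd) (h' := h') (M := M) hc hβ x K₀) hK'
      (be := fun q => bi P' (show Od n from q.k.2).2)
      (P := fun q => PB (show Od n from q.k.2).2) (fun q => H.thb _)
      (fun q l hl a w _ _ _ => (kit_Lb H q hl a w).le)
      (fun ε' hε' => (kit_thr H ε' hε').sub hsub) le_rfl _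

/-- **No boxes of the kind with ties, all the coordinates are rough**: `x'` is the deficit of the
closed rows. -/
theorem cls_P {x' : ℝ} (hP : ∀ (K' : ℕ) (c : ℝ), 0 < c →
      MicX (XP4 K' 1 (fun _ => True) x') (QT (fun _ => True) (n - 1 + 1) c)
        (fun B => B = n + 2) (n - 1 + 1) K' h)
    (hh : 0 < h) (hh1 : h ≤ 1) {p : ((H.nk hTop hF).chg hρ H.up).Par}
    (hpI : ∀ c (k : p.α × Od n) Q g ρ, p.Ad' c k Q g ρ → AdI hn S P P' c k.2 g ρ)
    {ι : Type} {kd : p.cell.α → ι} {c β h' M : ℝ} {x : ι}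
    (hexn : ExnI H p (IsK p.cell kd c β h' M x)) (hexs : ExsI H p (IsK p.cell kd c β h' M x))
    (hnfc : NfcI H p x' (IsK p.cell kd c β h' M x)) (hc : 0 < c) (hβ : 0 < β)
    {R : Finset (Fin n)}
    (hR : ∀ l < n - 1, InR R l)
    (hPN : ∀ o : Od n, ∀ l < n - 1, PN o l = bet (PB o.2) (cc hn o.1.1) l)
    (hA : ∀ ε q, IsK p.cell kd c β h' M x ε q → SlT hn P P' c R (show Od n from q.k.2) q.g)
    (hΦ : ∀ ε' : ℝ, 0 < ε' → EvP (IsK p.cell kd c β h' M x) fun q =>
      KnT hn P rr P' h PN PC R (show Od n from q.k.2) q.g q.r (ε' * q.r)) :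
    EvP (IsK p.cell kd c β h' M x) fun _ => False := by
  have hI' := isK_mono p.cell kd c β h' M x
  have hsub := isK_sub p.cell kd c β h' M x
  refine cls_mic H hh hh1 hpI hexn hexs hc hβ (fun ε' hε' => (hΦ ε' hε').mono fun q h => h.row)
    (X := fun K' => XP4 K' 1 (fun _ => True) x')
    (fun K' => xP4_mono K' 1 _ x') (qT_cl (fun _ => True) (by omega) (min c 1))
    (fun K' => hP K' _ (lt_min hc one_pos)) (fun q ε K₀ hq => ?_)
    fun K₀ K' s₁ sh hK₀ hK' W her hWs => ?_
  · refine ⟨fun _ _ _ => rfl, fun l _ _ h3 => absurd trivial h3, fun l l1 l2 => ?_⟩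
    obtain ⟨e1, e2⟩ := gamS_tar H hq hβ K₀
    have e3 := gamS_kit H hq K₀ l1 l2
    rw [e1, e3]
    have h2 := (hA _ q hq).2 (l - 1) (by omega)
    have h4 : (0 : ℝ) ≤ min (slN hn P P' (show Od n from q.k.2) (n - 1) q.g - 1) 1 :=
      le_min (by linarith) one_pos.le
    refine max_le ?_ ?_
    · linarith [min_le_right c 1]
    · linarith [min_le_left c 1]
  · have hfc := hnfc K₀ K' s₁ sh hK₀ hK'
    refine ext_P hI' H.tmh ((kitN H p K₀).kit.setW W her)
      (kit_cel H hpI (kd := kd) (h' := h') (M := M) hc hβ x K₀) hK'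
      (be := fun q => bi P' (show Od n from q.k.2).2)
      (P := fun q => PB (show Od n from q.k.2).2) (fun q => H.thb _)
      (fun q l hl a w _ _ _ => (kit_Lb H q hl a w).le)
      (fun l hl ε' hε' => ?_) le_rfl ?_
    · rcases Nat.lt_or_ge l (n - 1) with hl' | hl'
      · refine ((hΦ ε' hε').and hI' (EvP.self _ one_pos)).mono fun q hq z hz => ?_
        obtain ⟨hΦ, hq⟩ := hq
        have hr := hq.is.r0
        have h1 := hΦ.rgh l hl' (hR l hl')
        rw [hPN _ l hl'] at h1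
        have h2 : ∀ a w : ℝ, 0 ≤ w → w ≤ a → a ≤ 1 →
            bet (PB (show Od n from q.k.2).2) (cc hn (show Od n from q.k.2).1.1) l a w ≤ 1 :=
          fun a w k1 k2 k3 => (H.thb _).up _ a w k1 k2 k3
        have h3 := box_le h2 hr hq.is.g0 hq.is.g1 h1 (mul_pos hε' hr).le hz
        have h4 : (kitN H p K₀).kit.L q l = iso (dgN hn P P' (show Od n from q.k.2) l) := by
          show iso ((kitN H p K₀).Dg q l) = _
          rw [kit_dg H q l]
        show Nw (bet (PB (show Od n from q.k.2).2) (cc hn (show Od n from q.k.2).1.1) l) z ≤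
          Nw ((kitN H p K₀).kit.L q l) z + ε' * q.r
        rw [h4]
        exact h3
      · obtain rfl : l = n - 1 := by omega
        exact (kit_thr H ε' hε').sub hsub
    · obtain ⟨C₄, h1⟩ := hfc
      exact ⟨C₄, fun C₁ hC₁ B _ hB M' => by
        subst hB
        exact (h1 C₁ hC₁ M').mono fun N θ q h2 => h2.setW (hWs q N M' θ)
          fun _ _ _ _ _ _ h3 => h3⟩

end Pool.PKG
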