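import Pool.Agent.H19.P4.NearR
import Pool.Agent.H2.GEN.AttF

/-!
# A chain of labels with gain near a chain of labels of a cell, one family

`con_one`: `G` is a chain of labels with the sides `g`, and `T` a chain of labels on larger boxes
whose last label has more digits. If the coordinates before the last one have no better labels, then
the labels `T` are near to the labels `G` on the natural boxes of `G`, and the last label of `T` has
two sides there.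
-/

set_option autoImplicit false

namespace Pool.STAT

open Finset MvPolynomial
open Pool.Agent.H49.Ent Pool.Agent.H32.Dense Pool.STK Pool.KA Pool.KSAT Pool.K2S Pool.PB Pool.S6C
open Pool.GEN Pool.CHT
open Pool.RLV (TmN near_rel)

/-- Differences of polynomials of a chain. -/
theorem dep_sub {m : ℕ} {c : ℕ → Fin m} {i : ℕ} {Q Q' : MvPolynomial (Option (Fin m)) ℝ}
    (h : DepC c i Q) (h' : DepC c i Q') : DepC c i (Q - Q') := fun b b' h0 h1 => by
  rw [map_sub, map_sub, h b b' h0 h1, h' b b' h0 h1]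

/-- A finite product of numbers. -/
theorem two_pow_le {x y : ℕ} (h : x ≤ y) : (2 : ℝ) ^ x ≤ 2 ^ y :=
  pow_le_pow_right₀ (by norm_num) h

/-- Digits and losses. -/
theorem pow_div_le {a b c d : ℕ} (h : a + d ≤ c + b) : (2 : ℝ) ^ a / 2 ^ b ≤ 2 ^ c / 2 ^ d := by
  rw [div_le_div_iff₀ (by positivity) (by positivity), ← pow_add, ← pow_add]
  exact two_pow_le h

theorem one_div_pow_le {b c d : ℕ} (h : d ≤ c + b) : (1 : ℝ) / 2 ^ b ≤ 2 ^ c / 2 ^ d := by
  have := pow_div_le (a := 0) (b := b) (c := c) (d := d) (by omega)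
  rwa [pow_zero] at this

/-- The exponents of the losses. -/
def cex (Cy : ℕ → ℕ) (c₀ D₁ : ℕ) : ℕ → ℕ
  | 0 => 0
  | k + 1 => Cy k + (c₀ + (cex Cy c₀ D₁ k + 1) * D₁) + 2

theorem cex_mono (Cy : ℕ → ℕ) (c₀ : ℕ) {D₁ : ℕ} (hD : 1 ≤ D₁) {j k : ℕ} (h : j ≤ k) :
    cex Cy c₀ D₁ j ≤ cex Cy c₀ D₁ k := by
  refine monotone_nat_of_le_succ (fun k => ?_) h
  show _ ≤ Cy k + (c₀ + (cex Cy c₀ D₁ k + 1) * D₁) + 2
  have h1 : (cex Cy c₀ D₁ k + 1) * 1 ≤ (cex Cy c₀ D₁ k + 1) * D₁ := Nat.mul_le_mul_left _ hD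
  omega

/-- **Labels with gain near labels of a cell**, one chain. -/
theorem con_one (V K DT l : ℕ) : ∃ Cy κ N Kn : ℕ, 1 ≤ κ ∧ ∀ {m J : ℕ} {F : Fam m J}
    {c : ℕ → Fin m} {a w e e₀ y₀ z aT wT eT : ℕ} {g gT : ℕ → ℕ} {B : F.Ω → Prop}
    {G T : PtT F → ℕ → MvPolynomial (Option (Fin m)) ℝ}
    {H TH : LnT F → ℕ → MvPolynomial (Option (Fin m)) ℝ},
    w ≤ a → w ≤ J → Set.InjOn c (Set.Iio (l + 1)) →
    ChOK F c (l + 1) (fun _ => K) a w e g B G H → aT ≤ a → wT ≤ w →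
    ChOK F c (l + 1) (fun _ => DT) aT wT eT gT B T TH →
    TmN F N e₀ B → e₀ + 1 ≤ z → κ ≤ z → (∀ k < l, ∀ k' < k, nlp g k' k ≤ y₀) →
    (∀ k < l, Cy * z ≤ g k ∧ g k + e + y₀ + Cy * z ≤ J) → w + Cy * z ≤ J →
    (∀ k < l, Cy * z ≤ gT k ∧ gT k ≤ g k) → 1 ≤ g l → g l + Cy * z ≤ gT l →
    (∀ k < l, ∀ μ, z ≤ μ → μ ≤ Cy * z → ∀ B' : F.Ω → Prop, Sub B' B →
      Pe F.p B ≤ N * Pe F.p B' → ∀ (e' : ℕ) (g' : ℕ → ℕ), (∀ k' < k, g' k' ≤ g k' + 4 * μ) →
      g k + V * μ ≤ g' k → g' k ≤ g k + (V + 4) * μ →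
      ¬ ChN F c (k + 1) (fun _ => Kn) (a + 4 * μ) (w + 4 * μ) e' g' B') →
    ∃ B' : F.Ω → Prop, Sub B' B ∧ Pe F.p B ≤ 2 ^ (l + 1) * Pe F.p B' ∧ ∀ ω, B' ω → ∀ b,
      NBx c (G (ptr F J ω)) g a (F.t ω) l b →
        |eval b (T (ptr F J ω) l) - eval b (TH (slam F wT ω) l)| ≤ 2 ^ (Cy * z) / 2 ^ gT l ∧
        |eval b (T (ptr F J ω) l) - eval b (G (ptr F J ω) l)| ≤ 2 ^ (Cy * z) / 2 ^ g l := by
  classical
  choose Cy κ N Kn hκ hrel using fun i : ℕ => near_rel V (max K DT) i (fun _ => K)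
  obtain ⟨c₀, D₁, hD₁, hdil⟩ := nbx_dil (l + 1) (fun _ => DT)
  obtain ⟨E, hE⟩ : ∃ E, E = cex Cy c₀ D₁ := ⟨_, rfl⟩
  have hEs : ∀ k, E (k + 1) = Cy k + (c₀ + (E k + 1) * D₁) + 2 := fun k => by rw [hE]; rfl
  have hEm : ∀ {j k : ℕ}, j ≤ k → E j ≤ E k := fun h => by rw [hE]; exact cex_mono Cy c₀ hD₁ h
  -- the constants
  obtain ⟨Ct, hCt⟩ : ∃ Ct, Ct = E (l + 1) + ∑ k ∈ range (l + 1), Cy k := ⟨_, rfl⟩
  have hCyt : ∀ k ≤ l, Cy k ≤ Ct := fun k hk => by
    have h1 : Cy k ≤ ∑ k ∈ range (l + 1), Cy k :=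
      Finset.single_le_sum (f := Cy) (fun _ _ => Nat.zero_le _) (mem_range.2 (by omega))
    omega
  have hEt : ∀ k ≤ l, E (k + 1) ≤ Ct := fun k hk => by
    have h1 : E (k + 1) ≤ E (l + 1) := hEm (by omega)
    omega
  have hκt : ∀ k ≤ l, κ k ≤ ∑ k ∈ range (l + 1), κ k := fun k hk =>
    Finset.single_le_sum (f := κ) (fun _ _ => Nat.zero_le _) (mem_range.2 (by omega))
  have hNt : ∀ k ≤ l, N k ≤ ∑ k ∈ range (l + 1), N k := fun k hk =>
    Finset.single_le_sum (f := N) (fun _ _ => Nat.zero_le _) (mem_range.2 (by omega))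
  have hKt : ∀ k ≤ l, Kn k ≤ ∑ k ∈ range (l + 1), Kn k := fun k hk =>
    Finset.single_le_sum (f := Kn) (fun _ _ => Nat.zero_le _) (mem_range.2 (by omega))
  refine ⟨Ct, ∑ k ∈ range (l + 1), κ k, 2 ^ (l + 1) * ∑ k ∈ range (l + 1), N k,
    ∑ k ∈ range (l + 1), Kn k, (hκ 0).trans (hκt 0 (Nat.zero_le _)), ?_⟩
  intro m J F c a w e e₀ y₀ z aT wT eT g gT B G T H TH hwa hwJ hc hG haT hwT hT htm he0 hκz hnl hgJ
    hwC hgT hgl hgTl hno
  obtain ⟨Kt, hKt'⟩ : ∃ Kt, Kt = ∑ k ∈ range (l + 1), Kn k := ⟨_, rfl⟩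
  obtain ⟨Nt, hNt'⟩ : ∃ Nt, Nt = ∑ k ∈ range (l + 1), N k := ⟨_, rfl⟩
  rw [← hKt'] at hno hKt
  rw [← hNt'] at htm hno hNt
  have hz1 : 1 ≤ z := by omega
  have hTG : ∀ y k, k ≤ l → ∀ {i}, k ≤ i → DepC c i (T y k - G y k) := fun y k _ _ hi =>
    (dep_sub (hT.depG y k) (hG.depG y k)).mono hi
  -- one step: the relation between the two labels of `c k`
  have step : ∀ k ≤ l, ∀ Bk : F.Ω → Prop, Sub Bk B → Pe F.p B ≤ 2 ^ k * Pe F.p Bk →
      (∀ ω, Bk ω → ∀ b, NBx c (G (ptr F J ω)) g a (F.t ω) k b → ∀ j < k,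
        |b (some (c j)) - eval b (T (ptr F J ω) j)| ≤ 2 ^ ((E k + 1) * z) / 2 ^ gT j) →
      (∀ ω, Bk ω → ∀ b, NBx c (G (ptr F J ω)) g a (F.t ω) k b →
        |eval b (T (ptr F J ω) k) - eval b (TH (slam F wT ω) k)| ≤
          2 ^ ((c₀ + (E k + 1) * D₁) * z) / 2 ^ gT k) ∧
      ∀ N₀ : ℕ, N₀ + (c₀ + (E k + 1) * D₁) * z + 1 ≤ gT k → N₀ + 1 ≤ g k →
        ∃ B' : F.Ω → Prop, Sub B' Bk ∧ Pe F.p B ≤ 2 ^ (k + 1) * Pe F.p B' ∧ ∀ ω, B' ω → ∀ b,
          NBx c (G (ptr F J ω)) g a (F.t ω) k b →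
            |eval b (T (ptr F J ω) k) - eval b (G (ptr F J ω) k)| ≤ 2 ^ (Cy k * z) / 2 ^ N₀ := by
    intro k hk Bk hBk hPk hnr
    have two : ∀ ω, Bk ω → ∀ b, NBx c (G (ptr F J ω)) g a (F.t ω) k b →
        |eval b (T (ptr F J ω) k) - eval b (TH (slam F wT ω) k)| ≤
          2 ^ ((c₀ + (E k + 1) * D₁) * z) / 2 ^ gT k := by
      intro ω hω b hb
      have h1 := hdil (c := c) (i := k) (G := T (ptr F J ω))
        (Q := T (ptr F J ω) k - TH (slam F wT ω) k) (g := gT) (a := aT) (t := F.t ω)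
        (M := 1 / 2 ^ gT k) ((E k + 1) * z) (by omega)
        (hc.mono fun x hx => lt_of_lt_of_le (Set.mem_Iio.1 hx) (show k ≤ l + 1 by omega))
        (hT.degG _) (hT.depG _) (dep_sub (hT.depG _ k) (hT.depH _ k))
        ((totalDegree_sub _ _).trans (max_le (hT.degG _ k) (hT.degH _ k))) (by positivity)
        (fun b hb => by
          rw [map_sub]
          exact hT.agr ω (hBk ω hω) k (by omega) b hb) b
        (hb.1.trans (inv_mono haT)) (fun j hj => hnr ω hω b hb j hj)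
      rw [map_sub] at h1
      refine h1.trans ?_
      rw [← mul_div_assoc, mul_one]
      refine div_le_div_of_nonneg_right (two_pow_le ?_) (by positivity)
      have h2 : c₀ * 1 ≤ c₀ * z := Nat.mul_le_mul_left _ hz1
      have h3 : (c₀ + (E k + 1) * D₁) * z = c₀ * z + (E k + 1) * z * D₁ := by ring
      omega
    refine ⟨two, fun N₀ hN₀ hN₁ => ?_⟩
    have hsub : ∀ ω, Bk ω → B ω := hBk
    have hNk : 2 ^ k * N k ≤ 2 ^ (l + 1) * Nt :=
      Nat.mul_le_mul (Nat.pow_le_pow_right (by norm_num) (by omega)) (hNt k hk)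
    obtain ⟨B', k1, k2, k3⟩ := hrel k (m := m) (J := J) (F := F) (c := c) (a := a) (w := w) (e := e)
      (e₀ := e₀) (y₀ := y₀) (z := z) (N₀ := N₀) (g := g) (A := Bk) (G := G) (H := H)
      (Dx := fun y => T y k - G y k)
      (Dl := fun s => TH (s.1, s.2.1, s.2.2 / 2 ^ (w - wT)) k - H s k) hwa
      (hc.mono fun x hx => lt_of_lt_of_le (Set.mem_Iio.1 hx) (show k ≤ l + 1 by omega))
      ((hG.mono (by omega) (fun _ => le_rfl) le_rfl le_rfl).sub hBk)
      (fun y => (totalDegree_sub _ _).trans (max_le ((hT.degG y k).trans (le_max_right _ _))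
        ((hG.degG y k).trans (le_max_left _ _))))
      (fun s => (totalDegree_sub _ _).trans (max_le ((hT.degH _ k).trans (le_max_right _ _))
        ((hG.degH s k).trans (le_max_left _ _))))
      (fun y => dep_sub (hT.depG y k) (hG.depG y k)) (fun s => dep_sub (hT.depH _ k) (hG.depH s k))
      (fun ω hω => by
        have q1 := hT.pos ω (hBk ω hω) k (by omega)
        have q2 := hG.pos ω (hBk ω hω) k (by omega)
        have q3 : (1 : ℝ) / 2 ^ gT k ≤ 1 / 2 ^ (N₀ + 1) := inv_mono (by omega)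
        have q4 : (1 : ℝ) / 2 ^ g k ≤ 1 / 2 ^ (N₀ + 1) := inv_mono hN₁
        have q5 : (1 : ℝ) / 2 ^ (N₀ + 1) + 1 / 2 ^ (N₀ + 1) = 1 / 2 ^ N₀ := by
          rw [pow_succ]
          field_simp
          norm_num
        rw [map_sub]
        rw [abs_le] at q1 q2 ⊢
        constructor <;> linarith only [q1.1, q1.2, q2.1, q2.2, q3, q4, q5])
      (fun ω hω b hb => by
        have q1 := two ω hω b hb
        have q2 := hG.agr ω (hBk ω hω) k (by omega) b hb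
        have q3 : (2 : ℝ) ^ ((c₀ + (E k + 1) * D₁) * z) / 2 ^ gT k ≤ 1 / 2 ^ (N₀ + 1) := by
          have := pow_div_le (a := (c₀ + (E k + 1) * D₁) * z) (b := gT k) (c := 0) (d := N₀ + 1)
            (by omega)
          rwa [pow_zero] at this
        have q4 : (1 : ℝ) / 2 ^ g k ≤ 1 / 2 ^ (N₀ + 1) := inv_mono hN₁
        have q5 : (1 : ℝ) / 2 ^ (N₀ + 1) + 1 / 2 ^ (N₀ + 1) = 1 / 2 ^ N₀ := by
          rw [pow_succ]
          field_simp
          norm_num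
        have hs := slam_coarse F hwT hwJ ω
        rw [map_sub, map_sub, ← hs]
        rw [abs_le] at q1 q2 ⊢
        constructor <;> linarith only [q1.1, q1.2, q2.1, q2.2, q3, q4, q5])
      (htm.sub hBk (k := 2 ^ k) (by push_cast; exact hPk) hNk) he0
      ((hκt k hk).trans hκz) (fun i hi i' hi' => hnl i (by omega) i' hi')
      (fun i hi => by
        have h1 := hgJ i (by omega)
        have h2 : Cy k * z ≤ Ct * z := Nat.mul_le_mul_right _ (hCyt k hk)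
        omega)
      (by
        have h2 : Cy k * z ≤ Ct * z := Nat.mul_le_mul_right _ (hCyt k hk)
        omega)
      (fun i hi μ h1 h2 B'' h3 h4 e' g' h5 h6 h7 h8 => by
        refine hno i (by omega) μ h1 (h2.trans (Nat.mul_le_mul_right _ (hCyt k hk))) B''
          (fun ω h => hBk ω (h3 ω h)) ?_ e' g' h5 h6 h7 (h8.cls fun _ _ => hKt k hk)
        calc Pe F.p B ≤ 2 ^ k * Pe F.p Bk := hPk
          _ ≤ 2 ^ k * (N k * Pe F.p B'') := mul_le_mul_of_nonneg_left h4 (by positivity)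
          _ = ((2 ^ k * N k : ℕ) : ℝ) * Pe F.p B'' := by push_cast; ring
          _ ≤ _ := mul_le_mul_of_nonneg_right (by exact_mod_cast hNk) (Pe_nonneg F.isLaw B''))
    refine ⟨B', k1, ?_, fun ω hω b hb => ?_⟩
    · calc Pe F.p B ≤ 2 ^ k * Pe F.p Bk := hPk
        _ ≤ 2 ^ k * (2 * Pe F.p B') := mul_le_mul_of_nonneg_left k2 (by positivity)
        _ = _ := by rw [pow_succ]; ring
    · have h1 := k3 ω hω b hb
      rw [map_sub] at h1
      exact h1
  -- the coordinates before `l`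
  have key : ∀ k ≤ l, ∃ Bk : F.Ω → Prop, Sub Bk B ∧ Pe F.p B ≤ 2 ^ k * Pe F.p Bk ∧
      ∀ ω, Bk ω → ∀ b, NBx c (G (ptr F J ω)) g a (F.t ω) k b → ∀ j < k,
        |b (some (c j)) - eval b (T (ptr F J ω) j)| ≤ 2 ^ ((E k + 1) * z) / 2 ^ gT j := by
    intro k
    induction k with
    | zero =>
      exact fun _ => ⟨B, fun _ h => h, by rw [pow_zero, one_mul], fun _ _ _ _ j hj =>
        absurd hj (Nat.not_lt_zero j)⟩
    | succ k ih =>
      intro hk
      obtain ⟨Bk, b1, b2, b3⟩ := ih (by omega)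
      obtain ⟨-, h2⟩ := step k (by omega) Bk b1 b2 b3
      have hgk := hgT k (by omega)
      have hEk := hEt k (by omega)
      have hEk' : E (k + 1) * z ≤ Ct * z := Nat.mul_le_mul_right _ hEk
      have hexp : E (k + 1) * z = Cy k * z + (c₀ + (E k + 1) * D₁) * z + 2 * z := by
        rw [hEs]
        ring
      obtain ⟨N₀, hN₀⟩ : ∃ N₀, N₀ = gT k - ((c₀ + (E k + 1) * D₁) * z + 1) := ⟨_, rfl⟩
      obtain ⟨B', k1, k2, k3⟩ := h2 N₀ (by omega) (by omega)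
      refine ⟨B', fun ω h => b1 ω (k1 ω h), k2, fun ω hω b hb j hj => ?_⟩
      rcases Nat.lt_succ_iff_lt_or_eq.1 hj with h5 | rfl
      · refine (b3 ω (k1 ω hω) b (hb.mono le_rfl (Nat.le_succ k)) j h5).trans
          (div_le_div_of_nonneg_right (two_pow_le ?_) (by positivity))
        exact Nat.mul_le_mul_right _ (Nat.add_le_add_right (hEm (Nat.le_succ k)) 1)
      · have q1 := k3 ω hω b (hb.mono le_rfl (Nat.le_succ j))
        have q2 := hb.2 j (Nat.lt_succ_self j)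
        have q3 : (2 : ℝ) ^ (Cy j * z) / 2 ^ N₀ ≤ 2 ^ (E (j + 1) * z) / 2 ^ gT j :=
          pow_div_le (by omega)
        have q4 : (1 : ℝ) / 2 ^ g j ≤ 2 ^ (E (j + 1) * z) / 2 ^ gT j := one_div_pow_le (by omega)
        have q5 : (2 : ℝ) ^ (E (j + 1) * z) / 2 ^ gT j + 2 ^ (E (j + 1) * z) / 2 ^ gT j ≤
            2 ^ ((E (j + 1) + 1) * z) / 2 ^ gT j := by
          rw [← add_div]
          refine div_le_div_of_nonneg_right ?_ (by positivity)
          have h6 : (2 : ℝ) ^ (E (j + 1) * z + 1) ≤ 2 ^ ((E (j + 1) + 1) * z) :=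
            two_pow_le (by
              have h7 : (E (j + 1) + 1) * z = E (j + 1) * z + z := by ring
              omega)
          rw [pow_succ] at h6
          linarith
        rw [abs_le] at q1 q2 ⊢
        constructor <;> linarith only [q1.1, q1.2, q2.1, q2.2, q3, q4, q5]
  obtain ⟨Bl, b1, b2, b3⟩ := key l le_rfl
  obtain ⟨h1, h2⟩ := step l le_rfl Bl b1 b2 b3
  have hEl := hEt l le_rfl
  have hEl' : E (l + 1) * z ≤ Ct * z := Nat.mul_le_mul_right _ hEl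
  have hexp : E (l + 1) * z = Cy l * z + (c₀ + (E l + 1) * D₁) * z + 2 * z := by
    rw [hEs]
    ring
  obtain ⟨B', k1, k2, k3⟩ := h2 (g l - 1) (by omega) (by omega)
  refine ⟨B', fun ω h => b1 ω (k1 ω h), k2, fun ω hω b hb => ⟨?_, ?_⟩⟩
  · exact (h1 ω (k1 ω hω) b hb).trans (div_le_div_of_nonneg_right (two_pow_le (by omega))
      (by positivity))
  · exact (k3 ω hω b hb).trans (pow_div_le (by omega))

end Pool.STAT
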