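import Pool.Agent.H78.MIC.ConF
import Pool.Agent.H40.MIC.Grd2

/-!
# Labels with gain on a grid

`con_tr`: from the natural boxes of a chain to the boxes of near labels.
`con_grid`: `con_one` at all the points of a grid.
-/

set_option autoImplicit false

namespace Pool.STAT

open Finset MvPolynomial
open Pool.Agent.H49.Ent Pool.Agent.H32.Dense Pool.STK Pool.KA Pool.KSAT Pool.K2S Pool.PB Pool.S6C
open Pool.GEN Pool.CHT
open Pool.RLV (TmN near_rel)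
open CLO

/-- **From the boxes of a chain to the boxes of near labels.** -/
theorem con_tr (n K K' s₁ : ℕ) (hK' : 1 ≤ K') : ∃ κ₀ : ℕ, ∀ {m : ℕ} {c : ℕ → Fin m} {l a : ℕ}
    {g : ℕ → ℕ} {t : ℝ} {G : ℕ → MvPolynomial (Option (Fin m)) ℝ}
    {T TH : MvPolynomial (Option (Fin m)) ℝ} {Ψ : ℕ → PN} {S₁ S₂ : ℝ} {Δ : ℕ},
    Inj c n → l < n → (∀ i < n, (G i).totalDegree ≤ K) → (∀ i, DepC c i (G i)) →
    T.totalDegree ≤ K → TH.totalDegree ≤ K → DepC c l T → DepC c l TH → 0 ≤ S₁ → 0 ≤ S₂ →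
    Nr K' (2 ^ s₁) (gg a g) Ψ (sy c n t G) (n + 1) →
    (∀ b, NBx c G g a t l b → |eval b T - eval b TH| ≤ S₁ ∧ |eval b T - eval b (G l)| ≤ S₂) →
    ∀ b : ℕ → ℝ, Bxr (2 ^ Δ) (gg a g) Ψ (l + 1) b →
      |eval b (tr c l T) - eval b (tr c l TH)| ≤ 2 ^ (κ₀ * (Δ + 1)) * S₁ ∧
      |eval b (tr c l T) - eval b (Ψ (l + 1))| ≤ 2 ^ (κ₀ * (Δ + 1)) * (S₂ + 1 / 2 ^ g l) := by
  obtain ⟨C, hC, hdil⟩ := dil n K
  obtain ⟨E, hE⟩ : ∃ E, E = K * (K + 1) ^ (n + 1) := ⟨_, rfl⟩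
  rw [← hE] at hdil
  obtain ⟨c₁, hc₁⟩ := pow_unbounded_of_one_lt C (one_lt_two (α := ℝ))
  obtain ⟨s₀, hs₀⟩ := pow_unbounded_of_one_lt (2 * K' * 2 ^ s₁ : ℝ) (one_lt_two (α := ℝ))
  obtain ⟨M, hM⟩ : ∃ M, ∀ l < n, cc K' (l + 1) ≤ M :=
    ⟨∑ l ∈ range n, cc K' (l + 1), fun l hl =>
      Finset.single_le_sum (f := fun l => cc K' (l + 1)) (fun _ _ => Nat.zero_le _)
        (mem_range.2 hl)⟩
  refine ⟨c₁ + (s₀ + 1) * M * (E + K') + s₀ * K' + 1, ?_⟩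
  intro m c l a g t G T TH Ψ S₁ S₂ Δ hc hl hGd hGdep hTd hHd hTdep hHdep hS₁ hS₂ hnr hbx b hb
  have hK'1 : (1 : ℝ) ≤ K' := by exact_mod_cast hK'
  obtain ⟨ρ, hρ⟩ : ∃ ρ : ℝ, ρ = (2 * K' * 2 ^ s₁ * 2 ^ Δ) ^ cc K' (l + 1) := ⟨_, rfl⟩
  have h2Δ : (1 : ℝ) ≤ 2 ^ Δ := one_le_pow₀ (by norm_num)
  have h2s : (1 : ℝ) ≤ 2 ^ s₁ := one_le_pow₀ (by norm_num)
  have hx1 : (1 : ℝ) ≤ 2 * K' * 2 ^ s₁ * 2 ^ Δ := by
    have h1 : (1 : ℝ) ≤ 2 * K' := by linarith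
    have h2 : (1 : ℝ) ≤ 2 * K' * 2 ^ s₁ := by nlinarith
    nlinarith
  have hρ1 : 1 ≤ ρ := by rw [hρ]; exact one_le_pow₀ hx1
  have hρ2 : ρ ≤ 2 ^ ((s₀ + Δ) * M) := by
    rw [hρ, pow_mul, pow_add]
    calc (2 * (K' : ℝ) * 2 ^ s₁ * 2 ^ Δ) ^ cc K' (l + 1) ≤ (2 ^ s₀ * 2 ^ Δ) ^ cc K' (l + 1) :=
          pow_le_pow_left₀ (by positivity) (mul_le_mul_of_nonneg_right hs₀.le (by positivity)) _
      _ ≤ _ := pow_le_pow_right₀ (by
          have : (1 : ℝ) ≤ 2 ^ s₀ := one_le_pow₀ (by norm_num)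
          nlinarith) (hM l hl)
  have hbG : Bxr ρ (gg a g) (sy c n t G) (l + 1) b := by
    have h1 := hnr.box hK' h2s h2Δ (b := b) (r := 2 ^ Δ) (i := n + 1)
    have hb' : Bxr (2 ^ Δ) (gg a g) Ψ (l + 1) b := hb
    have h2 := (hnr.mono (i' := l + 1) (by omega)).box hK' h2s h2Δ hb' (l + 1) le_rfl
    rw [hρ]
    exact h2
  -- the values on the small boxes
  have hsm : ∀ b : ℕ → ℝ, Bxr 1 (gg a g) (sy c n t G) (l + 1) b →
      |eval b (tr c l T - tr c l TH)| ≤ S₁ ∧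
        |eval b (tr c l T - sy c n t G (l + 1))| ≤ S₂ := by
    intro b hb
    have h1 := hbx _ (nbx_of_bxr hc hGdep hl hb)
    have e0 : (fun o => eval b (vr c l o)) none = b 0 := by
      show eval b (X 0) = _
      rw [eval_X]
    have e1 : ∀ k < l, (fun o => eval b (vr c l o)) (some (c k)) = b (k + 1) := fun k hk => by
      show eval b (vr c l (some (c k))) = _
      rw [vr_some hc hl.le hk, eval_X]
    have h2 := eval_tr (B := fun o => eval b (vr c l o)) hc hl.le hTdep e0 e1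
    have h3 := eval_tr (B := fun o => eval b (vr c l o)) hc hl.le hHdep e0 e1
    have h4 := eval_sy (t := t) hc hGdep hl b
    rw [map_sub, map_sub, h2, h3, h4]
    exact h1
  have hd1 : (tr c l T - tr c l TH).totalDegree ≤ K :=
    (totalDegree_sub _ _).trans (max_le ((tr_deg c l T).trans hTd) ((tr_deg c l TH).trans hHd))
  have hsyd := sy_deg (c := c) (n := n) (t := t) (G := G) hGd
  have hd2 : (tr c l T - sy c n t G (l + 1)).totalDegree ≤ K :=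
    (totalDegree_sub _ _).trans (max_le ((tr_deg c l T).trans hTd) (hsyd _))
  have hv1 : (tr c l T - tr c l TH).vars ⊆ range (l + 1) :=
    (vars_sub_subset _).trans (Finset.union_subset (tr_vars c l T) (tr_vars c l TH))
  have hv2 : (tr c l T - sy c n t G (l + 1)).vars ⊆ range (l + 1) :=
    (vars_sub_subset _).trans (Finset.union_subset (tr_vars c l T) (sy_tri _))
  have k1 := hdil (sy c n t G) (gg a g) _ (l + 1) S₁ ρ sy_tri hsyd (by omega) hv1 hd1 hρ1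
    (fun b hb => (hsm b hb).1) b hbG
  have k2 := hdil (sy c n t G) (gg a g) _ (l + 1) S₂ ρ sy_tri hsyd (by omega) hv2 hd2 hρ1
    (fun b hb => (hsm b hb).2) b hbG
  have k3 := hnr.all hK' h2s (show l + 1 < n + 1 by omega) hρ1 hbG
  have e2 : gg a g (l + 1) = g l := by
    unfold gg
    rw [if_neg (by omega), Nat.add_sub_cancel]
  rw [e2] at k3
  rw [map_sub] at k1 k2
  -- the constants
  have hρE : ρ ^ E ≤ 2 ^ ((s₀ + Δ) * M * E) := by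
    rw [pow_mul]
    exact pow_le_pow_left₀ (by linarith) hρ2 _
  have hCE : C * ρ ^ E ≤ 2 ^ ((c₁ + (s₀ + 1) * M * (E + K') + s₀ * K' + 1) * (Δ + 1) - 1) := by
    calc C * ρ ^ E ≤ 2 ^ c₁ * 2 ^ ((s₀ + Δ) * M * E) :=
          mul_le_mul hc₁.le hρE (by positivity) (by positivity)
      _ = 2 ^ (c₁ + (s₀ + Δ) * M * E) := (pow_add _ _ _).symm
      _ ≤ _ := two_pow_le (by
          have h1 : (s₀ + Δ) * M * E ≤ (s₀ + 1) * M * (E + K') * (Δ + 1) := by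
            have h2 : s₀ + Δ ≤ (s₀ + 1) * (Δ + 1) := by nlinarith
            calc (s₀ + Δ) * M * E ≤ (s₀ + 1) * (Δ + 1) * M * (E + K') := by gcongr; omega
              _ = _ := by ring
          have h3 : c₁ * 1 ≤ c₁ * (Δ + 1) := Nat.mul_le_mul_left _ (by omega)
          have h4 : (c₁ + (s₀ + 1) * M * (E + K') + s₀ * K' + 1) * (Δ + 1) =
            c₁ * (Δ + 1) + (s₀ + 1) * M * (E + K') * (Δ + 1) + s₀ * K' * (Δ + 1) + (Δ + 1) := by
            ring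
          omega)
  have hNr : (K' * 2 ^ s₁ * ρ : ℝ) ^ K' ≤
      2 ^ ((c₁ + (s₀ + 1) * M * (E + K') + s₀ * K' + 1) * (Δ + 1) - 1) := by
    calc (K' * 2 ^ s₁ * ρ : ℝ) ^ K' ≤ (2 ^ s₀ * 2 ^ ((s₀ + Δ) * M)) ^ K' := by
          refine pow_le_pow_left₀ (by positivity) (mul_le_mul ?_ hρ2 (by linarith)
            (by positivity)) _
          nlinarith [hs₀]
      _ = 2 ^ ((s₀ + (s₀ + Δ) * M) * K') := by rw [← pow_add, ← pow_mul]
      _ ≤ _ := two_pow_le (by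
          have h1 : (s₀ + Δ) * M * K' ≤ (s₀ + 1) * M * (E + K') * (Δ + 1) := by
            have h2 : s₀ + Δ ≤ (s₀ + 1) * (Δ + 1) := by nlinarith
            calc (s₀ + Δ) * M * K' ≤ (s₀ + 1) * (Δ + 1) * M * (E + K') := by gcongr; omega
              _ = _ := by ring
          have h3 : s₀ * K' * 1 ≤ s₀ * K' * (Δ + 1) := Nat.mul_le_mul_left _ (by omega)
          have h4 : (c₁ + (s₀ + 1) * M * (E + K') + s₀ * K' + 1) * (Δ + 1) =
            c₁ * (Δ + 1) + (s₀ + 1) * M * (E + K') * (Δ + 1) + s₀ * K' * (Δ + 1) + (Δ + 1) := by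
            ring
          have h5 : (s₀ + (s₀ + Δ) * M) * K' = s₀ * K' + (s₀ + Δ) * M * K' := by ring
          omega)
  obtain ⟨Y, hY⟩ : ∃ Y, Y = (c₁ + (s₀ + 1) * M * (E + K') + s₀ * K' + 1) * (Δ + 1) := ⟨_, rfl⟩
  have hY1 : 1 ≤ Y := by
    rw [hY]
    exact Nat.one_le_iff_ne_zero.2 (Nat.mul_ne_zero (by omega) (by omega))
  rw [← hY] at hCE hNr ⊢
  have hYY : (2 : ℝ) ^ Y = 2 * 2 ^ (Y - 1) := by
    rw [← pow_succ']
    congr 1
    omega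
  have hY0 : (0 : ℝ) < 2 ^ (Y - 1) := by positivity
  refine ⟨?_, ?_⟩
  · calc |eval b (tr c l T) - eval b (tr c l TH)| ≤ C * S₁ * ρ ^ E := k1
      _ = C * ρ ^ E * S₁ := by ring
      _ ≤ 2 ^ Y * S₁ := mul_le_mul_of_nonneg_right (hCE.trans (by rw [hYY]; linarith)) hS₁
  · have h5 : C * S₂ * ρ ^ E ≤ 2 ^ (Y - 1) * S₂ := by
      calc C * S₂ * ρ ^ E = C * ρ ^ E * S₂ := by ring
        _ ≤ _ := mul_le_mul_of_nonneg_right hCE hS₂
    have h6 : (K' * 2 ^ s₁ * ρ : ℝ) ^ K' / 2 ^ g l ≤ 2 ^ (Y - 1) * (1 / 2 ^ g l) := by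
      rw [mul_one_div]
      exact div_le_div_of_nonneg_right hNr (by positivity)
    have h7 : |eval b (tr c l T) - eval b (Ψ (l + 1))| ≤
        |eval b (tr c l T) - eval b (sy c n t G (l + 1))| +
          |eval b (Ψ (l + 1)) - eval b (sy c n t G (l + 1))| := by
      rw [abs_sub_comm (eval b (Ψ (l + 1)))]
      exact abs_sub_le _ _ _
    have h8 : (0 : ℝ) ≤ 1 / 2 ^ g l := by positivity
    have h9 : (0 : ℝ) ≤ 2 ^ (Y - 1) * (S₂ + 1 / 2 ^ g l) := by positivity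
    rw [hYY]
    nlinarith

/-- **Labels with gain near labels of a cell**, all the points of a grid. -/
theorem con_grid (V K DT l : ℕ) : ∃ Cy κ N Kn : ℕ, 1 ≤ κ ∧ ∀ {m J M : ℕ} {F : Fam m J}
    {c : ℕ → Fin m} {a₀ w₀ z x e₀ y₀ aT wT eT : ℕ} {e : ℕ → ℕ → ℕ} {g : ℕ → ℕ → ℕ → ℕ}
    {gT : ℕ → ℕ} {B : F.Ω → Prop}
    {G : ℕ → ℕ → PtT F → ℕ → MvPolynomial (Option (Fin m)) ℝ}
    {H : ℕ → ℕ → LnT F → ℕ → MvPolynomial (Option (Fin m)) ℝ}
    {T : PtT F → ℕ → MvPolynomial (Option (Fin m)) ℝ}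
    {TH : LnT F → ℕ → MvPolynomial (Option (Fin m)) ℝ},
    w₀ + M * z ≤ a₀ → w₀ + M * z + Cy * x ≤ J → Set.InjOn c (Set.Iio (l + 1)) →
    (∀ i ≤ M, ∀ j ≤ M, ChOK F c (l + 1) (fun _ => K) (a₀ + i * z) (w₀ + j * z) (e i j) (g i j) B
      (G i j) (H i j)) → aT ≤ a₀ → wT ≤ w₀ →
    ChOK F c (l + 1) (fun _ => DT) aT wT eT gT B T TH →
    TmN F (2 ^ ((l + 1) * (M + 1) ^ 2) * N) e₀ B → e₀ + 1 ≤ x → κ ≤ x →
    (∀ i ≤ M, ∀ j ≤ M, ∀ k < l, ∀ k' < k, nlp (g i j) k' k ≤ y₀) →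
    (∀ i ≤ M, ∀ j ≤ M, ∀ k < l, Cy * x ≤ g i j k ∧ g i j k + e i j + y₀ + Cy * x ≤ J) →
    (∀ i ≤ M, ∀ j ≤ M, ∀ k < l, Cy * x ≤ gT k ∧ gT k ≤ g i j k) →
    (∀ i ≤ M, ∀ j ≤ M, 1 ≤ g i j l ∧ g i j l + Cy * x ≤ gT l) →
    (∀ i ≤ M, ∀ j ≤ M, ∀ k < l, ∀ μ, x ≤ μ → μ ≤ Cy * x → ∀ B' : F.Ω → Prop, Sub B' B →
      Pe F.p B ≤ (2 ^ ((l + 1) * (M + 1) ^ 2) * N : ℕ) * Pe F.p B' → ∀ (e' : ℕ) (g' : ℕ → ℕ),
      (∀ k' < k, g' k' ≤ g i j k' + 4 * μ) →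
      g i j k + V * μ ≤ g' k → g' k ≤ g i j k + (V + 4) * μ →
      ¬ ChN F c (k + 1) (fun _ => Kn) (a₀ + i * z + 4 * μ) (w₀ + j * z + 4 * μ) e' g' B') →
    ∃ B' : F.Ω → Prop, Sub B' B ∧ Pe F.p B ≤ 2 ^ ((l + 1) * (M + 1) ^ 2) * Pe F.p B' ∧
      ∀ i ≤ M, ∀ j ≤ M, ∀ ω, B' ω → ∀ b,
      NBx c (G i j (ptr F J ω)) (g i j) (a₀ + i * z) (F.t ω) l b →
        |eval b (T (ptr F J ω) l) - eval b (TH (slam F wT ω) l)| ≤ 2 ^ (Cy * x) / 2 ^ gT l ∧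
        |eval b (T (ptr F J ω) l) - eval b (G i j (ptr F J ω) l)| ≤
          2 ^ (Cy * x) / 2 ^ g i j l := by
  classical
  obtain ⟨Cy, κ, N, Kn, hκ, hone⟩ := con_one V K DT l
  refine ⟨Cy, κ, N, Kn, hκ, ?_⟩
  intro m J M F c a₀ w₀ z x e₀ y₀ aT wT eT e g gT B G H T TH hwa hwJ hc hG haT hwT hT htm he0 hκz
    hnl hgJ hgT hgl hno
  have hjz : ∀ j ≤ M, j * z ≤ M * z := fun j hj => Nat.mul_le_mul_right z hj
  -- one point after the other
  have key : ∀ s : Finset (ℕ × ℕ), s ⊆ range (M + 1) ×ˢ range (M + 1) →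
      ∃ B' : F.Ω → Prop, Sub B' B ∧ Pe F.p B ≤ 2 ^ ((l + 1) * s.card) * Pe F.p B' ∧
      ∀ p ∈ s, ∀ ω, B' ω → ∀ b,
      NBx c (G p.1 p.2 (ptr F J ω)) (g p.1 p.2) (a₀ + p.1 * z) (F.t ω) l b →
        |eval b (T (ptr F J ω) l) - eval b (TH (slam F wT ω) l)| ≤ 2 ^ (Cy * x) / 2 ^ gT l ∧
        |eval b (T (ptr F J ω) l) - eval b (G p.1 p.2 (ptr F J ω) l)| ≤
          2 ^ (Cy * x) / 2 ^ g p.1 p.2 l := by
    intro s
    induction s using Finset.induction_on with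
    | empty =>
      exact fun _ => ⟨B, fun _ h => h, by simp, fun p hp => absurd hp (Finset.notMem_empty p)⟩
    | insert p s hp ih =>
      intro hs
      obtain ⟨B₁, b1, b2, b3⟩ := ih fun q hq => hs (Finset.mem_insert_of_mem hq)
      have hpm := hs (Finset.mem_insert_self p s)
      rw [Finset.mem_product, mem_range, mem_range] at hpm
      obtain ⟨hi, hj⟩ : p.1 ≤ M ∧ p.2 ≤ M := ⟨by omega, by omega⟩
      have hcard : s.card + 1 ≤ (M + 1) ^ 2 := by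
        have h1 := Finset.card_le_card hs
        rw [Finset.card_insert_of_notMem hp, Finset.card_product, card_range] at h1
        calc s.card + 1 ≤ (M + 1) * (M + 1) := h1
          _ = (M + 1) ^ 2 := by ring
      have hpow : (2 : ℕ) ^ ((l + 1) * s.card) ≤ 2 ^ ((l + 1) * (M + 1) ^ 2) :=
        Nat.pow_le_pow_right (by norm_num) (Nat.mul_le_mul_left _ (by omega))
      have hj1 := hjz _ hj
      obtain ⟨B₂, c1, c2, c3⟩ := hone (m := m) (J := J) (F := F) (c := c) (a := a₀ + p.1 * z)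
        (w := w₀ + p.2 * z) (e := e p.1 p.2) (e₀ := e₀) (y₀ := y₀) (z := x) (aT := aT) (wT := wT)
        (eT := eT) (g := g p.1 p.2) (gT := gT) (B := B₁) (G := G p.1 p.2) (T := T)
        (H := H p.1 p.2) (TH := TH) (by omega) (by omega) hc ((hG p.1 hi p.2 hj).sub b1)
        (by omega) (by omega) (hT.sub b1)
        (htm.sub b1 (k := 2 ^ ((l + 1) * s.card)) (by push_cast; exact b2)
          (Nat.mul_le_mul_right _ hpow)) he0 hκz (hnl p.1 hi p.2 hj) (hgJ p.1 hi p.2 hj)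
        (by omega) (hgT p.1 hi p.2 hj) (hgl p.1 hi p.2 hj).1 (hgl p.1 hi p.2 hj).2
        (fun k hk μ h1 h2 B' h3 h4 e' g' h5 h6 h7 => hno p.1 hi p.2 hj k hk μ h1 h2 B'
          (fun ω h => b1 ω (h3 ω h)) (by
            calc Pe F.p B ≤ 2 ^ ((l + 1) * s.card) * Pe F.p B₁ := b2
              _ ≤ 2 ^ ((l + 1) * s.card) * (N * Pe F.p B') :=
                  mul_le_mul_of_nonneg_left h4 (by positivity)
              _ = ((2 ^ ((l + 1) * s.card) * N : ℕ) : ℝ) * Pe F.p B' := by push_cast; ring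
              _ ≤ _ := mul_le_mul_of_nonneg_right (by
                  exact_mod_cast Nat.mul_le_mul_right N hpow) (Pe_nonneg F.isLaw B')) e' g' h5 h6 h7)
      refine ⟨B₂, fun ω h => b1 ω (c1 ω h), ?_, fun q hq ω hω b hb => ?_⟩
      · rw [Finset.card_insert_of_notMem hp]
        calc Pe F.p B ≤ 2 ^ ((l + 1) * s.card) * Pe F.p B₁ := b2
          _ ≤ 2 ^ ((l + 1) * s.card) * (2 ^ (l + 1) * Pe F.p B₂) :=
              mul_le_mul_of_nonneg_left c2 (by positivity)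
          _ = 2 ^ ((l + 1) * (s.card + 1)) * Pe F.p B₂ := by
              rw [← mul_assoc, ← pow_add]
              ring_nf
      · rcases Finset.mem_insert.1 hq with rfl | hq
        · exact c3 ω hω b hb
        · exact b3 q hq ω (c1 ω hω) b hb
  obtain ⟨B', k1, k2, k3⟩ := key (range (M + 1) ×ˢ range (M + 1)) (Finset.Subset.refl _)
  refine ⟨B', k1, ?_, fun i hi j hj => k3 (i, j) (by
    rw [Finset.mem_product, mem_range, mem_range]
    exact ⟨by omega, by omega⟩)⟩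
  have e1 : (range (M + 1) ×ˢ range (M + 1)).card = (M + 1) ^ 2 := by
    rw [Finset.card_product, card_range]
    ring
  rw [e1] at k2
  exact k2

end Pool.STAT
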