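import Pool.Agent.H78.MIC.NoP

/-!
# No new label of any coordinate, abstract cells

`no_at`, `no_B_at`: the theorems `no_of_P`, `no_B` for a coordinate `l ≤ n₀` in place of the target.
`ConC.ex Ls A`: the conclusion that some coordinate with the property `Ls` has a new label; `no_ex`.
-/

set_option autoImplicit false

namespace Pool.STAT

open Finset MvPolynomial
open Pool.Agent.H49.Ent Pool.Agent.H32.Dense Pool.STK Pool.KS3 Pool.KA Pool.KSAT Pool.PB Pool.GEN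
open Pool.K2S Pool.S6C
open Pool.LEV (Law)
open Pool.STR (Affn Nw)
open Pool.CHT (bet)
open Pool.CHB (chsysB)
open Pool.LBT (ThrOf)
open CLO

theorem CellL.of_le {L : ℕ → ℝ → ℝ → ℝ} {ε T X : ℝ} {y : ℝ × ℝ} {la mu : ℕ → ℝ} {n n' : ℕ}
    (h : CellL n L ε T y X la mu) (hn : n' ≤ n) : CellL n' L ε T y X la mu :=
  ⟨h.pos, h.dep, h.win, h.top, fun l hl => h.law l (by omega), fun l hl => h.low l (by omega),
    fun l hl => h.aff l (by omega), fun l hl => h.la0 l (by omega), fun l hl => h.laT l (by omega),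
    fun l hl => h.mu0 l (by omega), fun l hl => h.muT l (by omega),
    fun l hl => h.lt l (by omega)⟩

variable {m : ℕ}

/-- **No new label of the coordinate `l`, labels with a property.** `hno`: no chains with the property `XN` above the
threshold (`Cd`: the conditions on the radius, the window and the precisions). `hlink`: the chain of a
new label has the property `XN`. -/
theorem no_newWl {S : PCl m} (hpos : ∀ (τ : ℝ) (J : ℕ) (F : Fam m J) (A : F.Ω → Prop),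
      S.St τ J F A → 0 < Pe F.p A)
    {G : RW m} {R : (J : ℕ) → (F : Fam m J) → GDat F → ℕ → ℕ → Type}
    (ρ : (J : ℕ) → (F : Fam m J) → (D : GDat F) → (i j : ℕ) → LnT F → R J F D i j)
    {l i j A K'' K : ℕ}
    {η' : ℝ} (hn : l < G.n) (hi : i ≤ G.M) (hj : j ≤ G.M) (hK' : 1 ≤ G.K')
    (hϖ : 0 ≤ G.ϖ) (hζ : 0 < G.ζ) (hthin : G.ϖ + (G.M + 1) * G.ζ < G.α)
    (htop : G.α + (G.M + 1) * G.ζ < 1) (hη : 0 < η') (hKK : max G.K' K'' ≤ K)
    {Cd : (J : ℕ) → ℕ → ℕ → (ℕ → ℕ) → Prop} {XN : ChX m}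
    (hno : Bas S (fun J F A => ∀ (a₀ w₀ e₀ : ℕ) (g : ℕ → ℕ)
      (Gc : PtT F → ℕ → MvPolynomial (Option (Fin m)) ℝ)
      (Hc : LnT F → ℕ → MvPolynomial (Option (Fin m)) ℝ), Cd J a₀ w₀ g →
      ChOK F G.c (l + 1) (fun _ => K) a₀ w₀ e₀ g A Gc Hc → ¬ XN J F a₀ w₀ g A Gc Hc))
    (hcd : ∃ J₁ : ℕ, ∀ J ≥ J₁, Cd J (up G.α J + i * up G.ζ J) (up G.ϖ J + j * up G.ζ J)
      (Pool.LBK.gv (fun i j l => G.gn J i j (l - 1) - G.sh l) i j l
        (G.gn J i j l - G.sh (l + 1) + A * up G.ζ J)))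
    (hlink : Bas S (fun J F B => ∀ D : GDat F, G.Ok F D B → ∀ (E : F.Ω → Prop) (Gn : Pt2 F → PN)
      (Hn : Ln2 F × ℕ → PN), Sub E B → η' * Pe F.p B ≤ Pe F.p E →
      NewOn (D.cd G.n (ρ J F D)) (cx F fun i => G.c (i - 1))
        (fun i j l => G.gn J i j (l - 1) - G.sh l) (up G.α J) (up G.ϖ J) (up G.ζ J) i j l
        (G.gn J i j l - G.sh (l + 1) + A * up G.ζ J) K'' Gn Hn E →
      XN J F (up G.α J + i * up G.ζ J) (up G.ϖ J + j * up G.ζ J)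
        (Pool.LBK.gv (fun i j l => G.gn J i j (l - 1) - G.sh l) i j l
          (G.gn J i j l - G.sh (l + 1) + A * up G.ζ J)) E
        (Pool.LBK.Gv (D.cd G.n (ρ J F D)) G.c i j l Gn)
        (Pool.LBK.Hv (D.cd G.n (ρ J F D)) G.c (up G.ϖ J) (up G.ϖ J + j * up G.ζ J) i j l Hn))) :
    FldW S G fun J F D q => ¬ (G.nd D (ρ J F D)).NewLab2 J (up G.α J) (up G.ϖ J) (up G.ζ J) i j
      (l + 1) A K'' η' q := by
  obtain ⟨J₁, h1⟩ := grid_ev hϖ hζ hthin htop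
  obtain ⟨J₂, hcd⟩ := hcd
  have hp : Bas S (fun _ F A => 0 < Pe F.p A) := ⟨1, one_pos, 0, fun J _ F A hA => hpos 1 J F A hA⟩
  refine Bas.mono (max J₁ J₂) (Bas.and (Bas.and (Pool.LBK.Bas.ev hno hη) hlink) hp) ?_
  rintro J hJ F B ⟨⟨hb, hlk⟩, hpB⟩ D hD hN
  obtain ⟨k1, k2, k3⟩ := h1 J ((le_max_left _ _).trans hJ)
  have hjz : j * up G.ζ J ≤ (G.M + 1) * up G.ζ J := Nat.mul_le_mul_right _ (by omega)
  have hcnd := CLO.GDat.Ok.cnd hD.1 hK' (ρ J F D)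
  have hqB : ∀ ω, 0 < Pool.Agent.H49.Ent.cond F.p B True ω → B ω := fun ω hω =>
    of_eq_true ((cond_pos_iff F.isLaw.nonneg B True ω).1 hω).2
  obtain ⟨E, Gn, Hn, e, hEB, hE, hdeg, hEn, hch⟩ := Pool.LBK.new_chok (C := D.cd G.n (ρ J F D))
    hcnd G.c (fun ω _ k _ => if_neg (by omega)) hi hj (by omega) (by omega)
    (cond_nonneg F.isLaw.nonneg B True) hqB hN
  have hE' : η' * Pe F.p B ≤ Pe F.p E := by
    rw [← Pool.LBK.Pb_cond_sub hEB hpB]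
    exact mul_le_mul_of_nonneg_right hE hpB.le
  have hX := hlk D hD E Gn Hn hEB hE' ⟨hdeg, hEn⟩
  exact hb E hEB hE' _ _ e _ _ _ (hcd J ((le_max_right _ _).trans hJ))
    ⟨fun y k => (hch.degG y k).trans hKK, fun s k => (hch.degH s k).trans hKK, hch.depG, hch.depH,
      hch.pos, hch.agr, hch.lip⟩ hX

variable {Θ : Type*} {I : ℝ → Θ → Prop} {n₀ : ℕ}

/-- **No new label of the coordinate `l`** in the cells of a kit. `XN`: a property of chains; `hno`: no chains with this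
property above the levels; `hlink`: the chains of the new labels have this property. -/
theorem no_at (hI : MonoI I) {S : PCl m}
    (hpos : ∀ (τ : ℝ) (J : ℕ) (F : Fam m J) (A : F.Ω → Prop), S.St τ J F A → 0 < Pe F.p A)
    (Kt : KitP m Θ n₀) {T' : ℝ} (fcel : ∀ ε' : ℝ, 0 < ε' → EvP I fun p =>
      CellL (n₀ + 1) (Kt.L p) ε' T' (Kt.y p) (Kt.X p) (Kt.la p) (Kt.ml p))
    {l : ℕ} (hl : l ≤ n₀) {K' s₁ : ℕ} {sh : ℕ → ℕ} (hK' : 1 ≤ K') {XN : Θ → ℕ → ℝ → ChX m} {M K'' : ℕ} {η' : ℝ}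
    (hη : 0 < η')
    (hno : EvQ I fun N θ p => ∀ (K : ℕ) (a w : ℚ) (δ : ℝ), 0 ≤ w → w ≤ a → a ≤ 1 → 0 < δ →
      dist ((w : ℝ), (a : ℝ) - w) (Kt.y p) ≤ Kt.X p →
      Kt.L p l a w + msh (Kt.X p) N M / 8 ≤ 1 → Bas S fun J F A =>
        ∀ (a₀ w₀ e₀ : ℕ) (g : ℕ → ℕ) (Gc : PtT F → ℕ → MvPolynomial (Option (Fin m)) ℝ)
          (Hc : LnT F → ℕ → MvPolynomial (Option (Fin m)) ℝ),
        CellL.CdX (Kt.L p) l a w (msh (Kt.X p) N M / 8) δ J a₀ w₀ g →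
        ChOK F (Kt.cs p) (l + 1) (fun _ => K) a₀ w₀ e₀ g A Gc Hc →
        ¬ XN p N θ J F a₀ w₀ g A Gc Hc)
    (hlink : EvQ I fun N θ p => ∀ (b : ℕ → ℕ → ℕ → ℝ) (e : ℕ → ℕ → ℝ),
      Kt.Near p N M θ b e → ∀ i ≤ M, ∀ j ≤ M, Bas S fun J F B => ∀ D : GDat F,
      (Kt.grid K' s₁ sh p N M θ b e).Ok F D B → ∀ (E : F.Ω → Prop) (Gn : Pt2 F → PN)
        (Hn : Ln2 F × ℕ → PN), Sub E B → η' * Pe F.p B ≤ Pe F.p E →
      NewOn (D.cd (n₀ + 1) fun _ _ _ => PUnit.unit) (cx F fun i => Kt.cs p (i - 1))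
        (fun i j l => ⌊b i j (l - 1) * J⌋₊ - sh l) (up ((Kt.y p).1 + (Kt.y p).2) J)
        (up (Kt.y p).1 J) (up (msh (Kt.X p) N M) J) i j l
        (⌊b i j l * J⌋₊ - sh (l + 1) + 1 * up (msh (Kt.X p) N M) J) K'' Gn Hn E →
      XN p N θ J F (up ((Kt.y p).1 + (Kt.y p).2) J + i * up (msh (Kt.X p) N M) J)
        (up (Kt.y p).1 J + j * up (msh (Kt.X p) N M) J)
        (Pool.LBK.gv (fun i j l => ⌊b i j (l - 1) * J⌋₊ - sh l) i j l
          (⌊b i j l * J⌋₊ - sh (l + 1) + 1 * up (msh (Kt.X p) N M) J)) E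
        (Pool.LBK.Gv (D.cd (n₀ + 1) fun _ _ _ => PUnit.unit) (Kt.cs p) i j l Gn)
        (Pool.LBK.Hv (D.cd (n₀ + 1) fun _ _ _ => PUnit.unit) (Kt.cs p) (up (Kt.y p).1 J)
          (up (Kt.y p).1 J + j * up (msh (Kt.X p) N M) J) i j l Hn)) :
    EvQ I fun N θ p => Kt.FldN S K' s₁ sh M N θ p fun G J F D q => ∀ i ≤ G.M, ∀ j ≤ G.M,
      ¬ (Kt.nd p N M θ G F D).NewLab2 J (up G.α J) (up G.ϖ J) (up G.ζ J) i j (l + 1) 1 K'' η' q := by
  obtain ⟨N₁, hN₁⟩ := exists_nat_ge (4 * (T' + 2))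
  have key := (((KitP.cel_evQ fcel M).and hI hno).and hI hlink).and hI
    (EvQ.self I (max N₁ 1) (θ₀ := 1 / 16) (by norm_num)
      (ε := fun N _ => 1) (fun N _ _ => one_pos))
  refine key.mono ?_
  rintro N θ p ⟨⟨⟨hL, pno⟩, plink⟩, hN, hθ, hθ1, -⟩ b e hnear
  obtain ⟨ε, hε⟩ : ∃ ε : ℝ, ε = 1 / (64 * (N * (M + 4)) + 1) := ⟨_, rfl⟩
  rw [← hε] at hL
  have hε0 : 0 < ε := by rw [hε]; positivity
  have hNN : N₁ ≤ N := (le_max_left _ _).trans hN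
  have hN1 : 1 ≤ N := (le_max_right _ _).trans hN
  have hNT : 4 * (T' + 2) ≤ N := hN₁.trans (by exact_mod_cast hNN)
  obtain ⟨ζ, hζ⟩ : ∃ ζ, ζ = msh (Kt.X p) N M := ⟨_, rfl⟩
  have hX := hL.pos
  have hζ0 : 0 < ζ := by rw [hζ]; exact msh_pos hX hN1
  have hN1' : (1 : ℝ) ≤ N := by exact_mod_cast hN1
  have hM0 : (0 : ℝ) ≤ M := Nat.cast_nonneg M
  have e1 : N * ((M + 4) * ζ) = Kt.X p := by rw [hζ]; exact msh_mul hN1
  have hMζ : ((M : ℝ) + 4) * ζ ≤ Kt.X p := by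
    rw [← e1]
    exact le_mul_of_one_le_left (by positivity) hN1'
  have hdep := hL.dep
  have hwin := hL.win
  have htop := hL.top
  have hεN : ε * (64 * (N * (M + 4))) ≤ 1 := by
    rw [hε, one_div, inv_mul_le_iff₀ (by positivity)]
    linarith only
  have hθζ : θ * ζ ≤ ζ / 16 := by nlinarith only [hθ1, hζ0]
  -- the distance to the levels
  obtain ⟨t, ht⟩ : ∃ t : Finset (ℕ × ℕ × ℕ), t = (range (M + 1)) ×ˢ (range (M + 1)) ×ˢ range l :=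
    ⟨_, rfl⟩
  obtain ⟨δ, hδ, hδt⟩ := exists_pos_le t (fun x => if x ∈ t then
    Kt.L p x.2.2 ((Kt.y p).1 + (Kt.y p).2 + x.1 * msh (Kt.X p) N M)
      ((Kt.y p).1 + x.2.1 * msh (Kt.X p) N M) - b x.1 x.2.1 x.2.2 else 1) (by
      rintro ⟨i, j, k⟩
      split_ifs with hx
      · rw [ht, Finset.mem_product, Finset.mem_product, mem_range, mem_range, mem_range] at hx
        have := hnear.up i (by have := hx.1; simp only at this; omega) j
          (by have := hx.2.1; simp only at this; omega) k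
          (by have := hx.2.2; simp only at this; omega)
        simp only
        linarith only [this]
      · exact one_pos)
  obtain ⟨G, hG⟩ : ∃ G, G = Kt.grid K' s₁ sh p N M θ b e := ⟨_, rfl⟩
  have hGn : G.n = n₀ + 1 := by rw [hG]; rfl
  have hGM : G.M = M := by rw [hG]; rfl
  have hGα : G.α = (Kt.y p).1 + (Kt.y p).2 := by rw [hG]; rfl
  have hGϖ : G.ϖ = (Kt.y p).1 := by rw [hG]; rfl
  have hGζ : G.ζ = msh (Kt.X p) N M := by rw [hG]; rfl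
  have hGb : G.b = b := by rw [hG]; rfl
  have hGK' : G.K' = K' := by rw [hG]; rfl
  have hGc : G.c = Kt.cs p := by rw [hG]; rfl
  have hb1 : ∀ i ≤ M, ∀ j ≤ M, |G.b i j l - Kt.L p l
      ((Kt.y p).1 + (Kt.y p).2 + i * msh (Kt.X p) N M) ((Kt.y p).1 + j * msh (Kt.X p) N M)| ≤
      msh (Kt.X p) N M / 16 := by
    intro i hi j hj
    have h1 := hnear.up i hi j hj l (by omega)
    have h2 := hnear.lo i hi j hj l (by omega)
    rw [hGb]
    rw [← hζ] at h1 h2 ⊢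
    rw [abs_le]
    constructor
    · linarith only [h2, hθζ]
    · linarith only [h1, hζ0]
  have hb2 : ∀ i ≤ M, ∀ j ≤ M, ∀ k < l, G.b i j k ≤ Kt.L p k
      ((Kt.y p).1 + (Kt.y p).2 + i * msh (Kt.X p) N M) ((Kt.y p).1 + j * msh (Kt.X p) N M) -
      δ := by
    intro i hi j hj k hk
    have hx : (i, j, k) ∈ t := by
      rw [ht, Finset.mem_product, Finset.mem_product, mem_range, mem_range, mem_range]
      exact ⟨by simp only; omega, by simp only; omega, by simp only; omega⟩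
    have h1 := hδt (i, j, k) hx
    rw [if_pos hx] at h1
    simp only at h1
    rw [hGb]
    linarith only [h1]
  have hb3 : ∀ i ≤ M, ∀ j ≤ M, ∀ k ≤ l, 0 ≤ G.b i j k := by
    intro i hi j hj k hk
    have h2 := hnear.lo i hi j hj k (by omega)
    rw [← hζ] at h2
    have hi' : (i : ℝ) ≤ M := by exact_mod_cast hi
    have hj' : (j : ℝ) ≤ M := by exact_mod_cast hj
    have i0 : 0 ≤ (i : ℝ) * ζ := by positivity
    have j0 : 0 ≤ (j : ℝ) * ζ := by positivity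
    have i1 : (i : ℝ) * ζ ≤ M * ζ := mul_le_mul_of_nonneg_right hi' hζ0.le
    have j1 : (j : ℝ) * ζ ≤ M * ζ := mul_le_mul_of_nonneg_right hj' hζ0.le
    have h3 := hL.low k (by omega) ((Kt.y p).1 + (Kt.y p).2 + i * ζ) ((Kt.y p).1 + j * ζ)
      (by linarith only [hwin, hX, j0]) (by linarith only [hMζ, hdep, i0, j1, hζ0])
      (by linarith only [htop, hMζ, i1, hζ0, hX])
    rw [hGb]
    linarith only [h2, h3, hθζ, hMζ, hdep, hwin, i0, hζ0, hX, mul_nonneg hM0 hζ0.le]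
  have hfin : FldW S G fun J F D q => ∀ i ≤ G.M, ∀ j ≤ G.M,
      ¬ (G.nd D (R := fun _ _ => PUnit) fun _ _ _ => PUnit.unit).NewLab2 J (up G.α J)
        (up G.ϖ J) (up G.ζ J) i j (l + 1) 1 K'' η' q := by
    refine no_newW_all fun i hi j hj => ?_
    rw [hGM] at hi hj
    obtain ⟨a, w, hw0, hwa, ha1, hdist, hL1, hcd⟩ := (hL.of_le (by omega : l + 1 ≤ n₀ + 1)).cdevP (G := G.toRG) hN1 hNT hε0.le hεN
      hGM hGα hGϖ hGζ (A := 1) le_rfl hN1 hδ.le hb1 hb2 hb3 hi hj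
    have hlk := plink b e hnear i hi j hj
    rw [← hG] at hlk
    refine no_newWl hpos (fun _ _ _ _ _ _ => PUnit.unit) (K := max G.K' K'') (by omega : l < G.n) (by omega)
      (by omega) (by rw [hGK']; exact hK')
      (by rw [hGϖ]; exact hX.le.trans hwin) (by rw [hGζ, ← hζ]; exact hζ0)
      (by rw [hGϖ, hGM, hGζ, hGα, ← hζ]; nlinarith only [hMζ, hζ0, hdep])
      (by rw [hGM, hGζ, hGα, ← hζ]; nlinarith only [hMζ, hζ0, htop, hX]) hη le_rfl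
      (XN := XN p N θ) ?_ hcd ?_
    · rw [hGc]
      exact pno _ a w δ hw0 hwa ha1 hδ hdist hL1
    · subst hG
      exact hlk
  rw [hG] at hfin
  exact hfin

/-- **No new label of the coordinate `l`**, for the threshold `bet (P p) (Kt.cs p) l` of the chains with restricted sides:
the sides are restricted by functions `be p`, at least the levels of the kit, and the threshold is at
most the level of the target, up to small errors, on the cells. -/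
theorem no_B_at (hI : MonoI I) {S : PCl m}
    (hpos : ∀ (τ : ℝ) (J : ℕ) (F : Fam m J) (A : F.Ω → Prop), S.St τ J F A → 0 < Pe F.p A)
    (Kt : KitP m Θ n₀) {T' : ℝ} (fcel : ∀ ε' : ℝ, 0 < ε' → EvP I fun p =>
      CellL (n₀ + 1) (Kt.L p) ε' T' (Kt.y p) (Kt.X p) (Kt.la p) (Kt.ml p))
    {l : ℕ} (hl : l ≤ n₀) {K' s₁ : ℕ} {sh : ℕ → ℕ} (hK' : 1 ≤ K') {be P : Θ → List (Fin m) × Fin m → ℝ → ℝ → ℝ}
    (hP : ∀ p, ThrOf (chsysB m none (be p)) S (P p))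
    (hLβ : ∀ p, ∀ k < l, ∀ a w : ℝ, 0 ≤ w → w ≤ a → a ≤ 1 →
      Kt.L p k a w ≤ bet (be p) (Kt.cs p) k a w)
    (fiso : ∀ ε' : ℝ, 0 < ε' → EvP I fun p => ∀ z : ℝ × ℝ, dist z (Kt.y p) ≤ Kt.X p →
      Nw (bet (P p) (Kt.cs p) l) z ≤ Nw (Kt.L p l) z + ε' * Kt.X p) {M K'' : ℕ} {η' : ℝ}
    (hη : 0 < η') :
    EvQ I fun N θ p => Kt.FldN S K' s₁ sh M N θ p fun G J F D q => ∀ i ≤ G.M, ∀ j ≤ G.M,
      ¬ (Kt.nd p N M θ G F D).NewLab2 J (up G.α J) (up G.ϖ J) (up G.ζ J) i j (l + 1) 1 K'' η' q := by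
  refine no_at hI hpos Kt fcel hl hK' (XN := fun _ _ _ _ _ _ _ _ _ _ _ => True) hη ?_
    ⟨0, fun _ _ => ⟨1, one_pos, fun _ _ _ => EvP.of fun _ _ _ _ _ _ _ _ => ⟨1, one_pos, 0,
      fun _ _ _ _ _ _ _ _ _ _ _ _ _ => trivial⟩⟩⟩
  have key := (KitP.cel_evQ fcel M).and hI ((EvQ.of_evP fun N =>
    fiso (1 / (16 * ((N + 1) * (M + 4)))) (by positivity)).and hI
    (EvQ.self I 1 (θ₀ := 1 / 16) (by norm_num) (ε := fun N _ => 1) (fun N _ _ => one_pos)))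
  refine key.mono ?_
  rintro N θ p ⟨hL, pis, hN1, -, -, -⟩ K a w δ hw0 hwa ha1 hδ hdist hL1
  have hX := hL.pos
  obtain ⟨ζ, hζ⟩ : ∃ ζ, ζ = msh (Kt.X p) N M := ⟨_, rfl⟩
  have hζ0 : 0 < ζ := by rw [hζ]; exact msh_pos hX hN1
  have e1 : N * ((M + 4) * ζ) = Kt.X p := by rw [hζ]; exact msh_mul hN1
  have hM0 : (0 : ℝ) ≤ M := Nat.cast_nonneg M
  have hN0 : (0 : ℝ) ≤ N := Nat.cast_nonneg N
  rw [← hζ] at hL1 ⊢
  -- the threshold at the point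
  have h1 := pis _ hdist
  have h2 : Nw (bet (P p) (Kt.cs p) l) ((w : ℝ), (a : ℝ) - w) =
      bet (P p) (Kt.cs p) l a w := by
    show bet (P p) (Kt.cs p) l ((w : ℝ) + ((a : ℝ) - w)) w = _
    rw [add_sub_cancel]
  have h3 : Nw (Kt.L p l) ((w : ℝ), (a : ℝ) - w) = Kt.L p l a w := by
    show Kt.L p l ((w : ℝ) + ((a : ℝ) - w)) w = _
    rw [add_sub_cancel]
  rw [h2, h3] at h1
  have h4 : 1 / (16 * ((N + 1) * (M + 4))) * Kt.X p ≤ ζ / 16 := by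
    rw [one_div, inv_mul_le_iff₀ (by positivity)]
    have h5 : (N : ℝ) * ((M + 4) * ζ) ≤ (N + 1) * ((M + 4) * ζ) :=
      mul_le_mul_of_nonneg_right (by linarith) (by positivity)
    calc Kt.X p = N * ((M + 4) * ζ) := e1.symm
      _ ≤ (N + 1) * ((M + 4) * ζ) := h5
      _ = _ := by ring
  have h6 : bet (P p) (Kt.cs p) l a w + ζ / 16 ≤ Kt.L p l a w + ζ / 8 := by linarith
  -- the chains of the class of the thresholds
  obtain ⟨L', hL'⟩ : ∃ L' : ℕ → ℝ → ℝ → ℝ, L' = fun k => if k < l then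
    bet (be p) (Kt.cs p) k else bet (P p) (Kt.cs p) l := ⟨_, rfl⟩
  have hL'k : ∀ k < l, L' k = bet (be p) (Kt.cs p) k := fun k hk => by rw [hL']; exact if_pos hk
  have hL'n : L' l = bet (P p) (Kt.cs p) l := by rw [hL']; exact if_neg (lt_irrefl _)
  refine Bas.mono 0 (CellL.no_of_B (L := L') (l := l) (hP p) (fun a w => by rw [hL'n])
    (fun k hk a w => by rw [hL'k k hk]) K a w (ζ / 16) δ hw0 hwa ha1
    (by linarith) hδ (by rw [hL'n]; linarith)) ?_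
  intro J _ F A hno a₀ w₀ e₀ g Gc Hc hcd hch _
  obtain ⟨c1, c2, c3, c4, c5, c6, c7⟩ := hcd
  have hJ0 : (0 : ℝ) < J := by exact_mod_cast c1
  have haR : (a : ℝ) ≤ 1 := by exact_mod_cast ha1
  have haJ : (a₀ : ℝ) ≤ J := by exact_mod_cast c3.trans (Pool.LBT.fl_le' haR J)
  have hwa' : (w₀ : ℝ) ≤ a₀ := by exact_mod_cast c2
  refine hno a₀ w₀ e₀ g Gc Hc ⟨c1, c2, c3, c4, c5, fun k hk => ?_, ?_⟩ hch
  · rw [hL'k k hk]
    refine (c6 k hk).trans (max_le_max le_rfl (mul_le_mul_of_nonneg_right ?_ hJ0.le))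
    have h7 := hLβ p k hk (a₀ / J) (w₀ / J) (by positivity)
      (div_le_div_of_nonneg_right hwa' hJ0.le) (div_le_one_of_le₀ haJ hJ0.le)
    linarith
  · rw [hL'n]
    have h7 : ⌊(bet (P p) (Kt.cs p) l a w + ζ / 16) * J⌋₊ ≤
        ⌊(Kt.L p l a w + ζ / 8) * J⌋₊ :=
      Nat.floor_le_floor (mul_le_mul_of_nonneg_right h6 (Nat.cast_nonneg J))
    omega

/-! ### The conclusion -/

/-- **A new label of some coordinate** with the property `Ls`, the gain is `A z` digits. -/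
def ConC.ex (Ls : ℕ → Prop) (A : ℕ) : ConC := fun n J a₀ w₀ z M K' η' D q =>
  ∃ l, 1 ≤ l ∧ l ≤ n ∧ Ls l ∧ ∃ i ≤ M, ∃ j ≤ M, D.NewLab2 J a₀ w₀ z i j l A K' η' q

theorem ConC.ex_mono (Ls : ℕ → Prop) (A : ℕ) : (ConC.ex Ls A).Mono := by
  refine ⟨fun {n J a₀ w₀ z M K' K'' η η' D q} hK hη h => ?_⟩
  obtain ⟨l, h1, h2, h3, i, hi, j, hj, Gn, Hn, k1, k2, k3⟩ := h
  exact ⟨l, h1, h2, h3, i, hi, j, hj, Gn, Hn, fun x => ⟨(k1 x).1.trans hK, (k1 x).2⟩,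
    fun x => ⟨(k2 x).1.trans hK, (k2 x).2⟩, hη.trans k3⟩

/-- A new label of the target is a new label of some coordinate. -/
theorem ConC.std_ex {Ls : ℕ → Prop} {A n J a₀ w₀ z M K' : ℕ} {η' : ℝ} {D : NDat2}
    {q : D.Ω → ℝ} (hn : 1 ≤ n) (hL : Ls n) (h : ConC.std A n J a₀ w₀ z M K' η' D q) :
    ConC.ex Ls A n J a₀ w₀ z M K' η' D q := ⟨n, hn, le_rfl, hL, h⟩

/-- The conclusion `ConC.ex` is false, if there are no new labels with the gain `z`. -/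
theorem no_ex (hI : MonoI I) (Kt : KitP m Θ n₀) {S : PCl m} {K' s₁ : ℕ} {sh : ℕ → ℕ}
    {Ls : ℕ → Prop} {A M K'' : ℕ} {η' : ℝ} (hA : 1 ≤ A)
    (hpos : ∀ (τ : ℝ) (J : ℕ) (F : Fam m J) (A : F.Ω → Prop), S.St τ J F A → 0 < Pe F.p A)
    (h1 : ∀ l ≤ n₀, Ls (l + 1) → EvQ I fun N θ p => Kt.FldN S K' s₁ sh M N θ p fun G J F D q =>
      ∀ i ≤ G.M, ∀ j ≤ G.M, ¬ (Kt.nd p N M θ G F D).NewLab2 J (up G.α J) (up G.ϖ J) (up G.ζ J)
        i j (l + 1) 1 K'' η' q) :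
    EvQ I fun N θ p => Kt.FldN S K' s₁ sh M N θ p fun G J F D q =>
      ¬ ConC.ex Ls A G.n J (up G.α J) (up G.ϖ J) (up G.ζ J) G.M K'' η' (Kt.nd p N M θ G F D) q := by
  classical
  have h2 : EvQ I fun N θ p => ∀ l ≤ n₀, Ls (l + 1) → Kt.FldN S K' s₁ sh M N θ p
      fun G J F D q => ∀ i ≤ G.M, ∀ j ≤ G.M, ¬ (Kt.nd p N M θ G F D).NewLab2 J (up G.α J)
        (up G.ϖ J) (up G.ζ J) i j (l + 1) 1 K'' η' q := by
    refine EvQ.all hI n₀ fun l hl => ?_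
    by_cases hL : Ls (l + 1)
    · exact (h1 l hl hL).mono fun N θ p h _ => h
    · exact ⟨0, fun _ _ => ⟨1, one_pos, fun _ _ _ => EvP.of fun _ h => absurd h hL⟩⟩
  refine h2.mono fun N θ p h3 b e hb => ?_
  have hp : Bas S (fun _ F A => 0 < Pe F.p A) := ⟨1, one_pos, 0, fun J _ F A hA => hpos 1 J F A hA⟩
  have h4 : Bas S (fun J F B => ∀ l < n₀ + 1, Ls (l + 1) → ∀ D : GDat F,
      (Kt.grid K' s₁ sh p N M θ b e).Ok F D B → ∀ i ≤ M, ∀ j ≤ M,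
        ¬ (Kt.nd p N M θ (Kt.grid K' s₁ sh p N M θ b e) F D).NewLab2 J
          (up (Kt.grid K' s₁ sh p N M θ b e).α J) (up (Kt.grid K' s₁ sh p N M θ b e).ϖ J)
          (up (Kt.grid K' s₁ sh p N M θ b e).ζ J) i j (l + 1) 1 K'' η'
          (Pool.Agent.H49.Ent.cond F.p B True)) := by
    refine Bas.all (n₀ + 1) fun l hl => ?_
    by_cases hL : Ls (l + 1)
    · exact Bas.mono 0 (h3 l (by omega) hL b e hb) fun J _ F B h _ => h
    · exact ⟨1, one_pos, 0, fun _ _ _ _ _ h => absurd h hL⟩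
  refine Bas.mono 0 (Bas.and h4 hp) ?_
  rintro J - F B ⟨h5, hB⟩ D hD ⟨l, l1, l2, l3, i, hi, j, hj, h6⟩
  obtain ⟨k, rfl⟩ : ∃ k, l = k + 1 := ⟨l - 1, by omega⟩
  have l2' : k + 1 ≤ n₀ + 1 := l2
  exact h5 k (by omega) l3 D hD i hi j hj
    (h6.mono (cond_nonneg F.isLaw.nonneg B True) hA le_rfl le_rfl)

end Pool.STAT
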