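import Pool.Agent.H78.MIC.ConG
import Pool.Agent.H78.MIC.NoL
import Pool.Agent.H78.MIC.IsoF

/-!
# No better labels on shifted radii and windows

`CellL.no_sh`: the thresholds exclude the better labels in `con_grid`.
-/

set_option autoImplicit false

namespace Pool.STAT

open Finset MvPolynomial
open Pool.Agent.H49.Ent Pool.Agent.H32.Dense Pool.STK Pool.KS3 Pool.KA Pool.KSAT Pool.PB Pool.GEN
open Pool.K2S Pool.S6C
open Pool.CHT (bet TmH)
open Pool.CHB (chsysB)
open Pool.LBT (ThrOf)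
open Pool.LEV (Law)
open Pool.STR (Affn Nw)
open CLO

variable {m : ℕ}

/-- A level on a shifted radius and window. -/
theorem law_shift {P : ℝ → ℝ → ℝ} (hP : Law P) {a w a' w' x : ℝ} (hw : 0 ≤ w) (hwa : w ≤ a)
    (hx : 0 ≤ x) (ha' : a + x ≤ a') (hw' : w ≤ w') (hwa' : w' ≤ a') (ha1 : a' ≤ 1)
    (h1 : P a w + x ≤ 1) : P a w + x ≤ P a' w' := by
  have h2 := hP.slope a w x hw hwa hx (ha'.trans ha1)
  rw [min_eq_right h1] at h2
  exact h2.trans (hP.mono hw (by linarith) ha' hw' hwa' ha1)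

/-- **No better labels** on shifted radii and windows, shifts `μ` from `ζ'` up to `Cy z`; the sides
`k'` may be thinner than the levels by `yy k'`. -/
theorem CellL.no_sh {n k Cy V N M : ℕ} {L : ℕ → ℝ → ℝ → ℝ} {ε T θ : ℝ} {y : ℝ × ℝ} {X : ℝ}
    {la mu : ℕ → ℝ} (h : CellL n L ε T y X la mu) (hk : k < n) (hN : 1 ≤ N)
    (hNT : 4 * (T + 2) ≤ N) (hNC : 8 * (Cy + 2) * (T + 2) ≤ N)
    {ζ' : ℝ} (hζ'0 : 0 < ζ') (hζ'1 : ζ' ≤ msh X N M) (hε : ε * X ≤ ζ' / 64)
    (hθ : θ * msh X N M ≤ ζ' / 16)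
    {b : ℕ → ℕ → ℕ → ℝ} {e : ℕ → ℕ → ℝ} (hb : NearE n L y X N M θ b e) {S : PCl m}
    {c : ℕ → Fin m} {β PW : List (Fin m) × Fin m → ℝ → ℝ → ℝ}
    (hP : ThrOf (chsysB m none β) S PW)
    (hPW : ∀ z : ℝ × ℝ, dist z y ≤ X → Nw (bet PW c k) z ≤ Nw (L k) z + ε * X)
    {yy : ℕ → ℝ} (hy0 : ∀ k' < k, 0 ≤ yy k') (hyX : ∀ k' < k, yy k' ≤ X / 16)
    (hβ : ∀ k' < k, ∀ a w : ℝ, y.1 ≤ w → w ≤ y.1 + X / 16 → y.1 + y.2 ≤ a →
      a ≤ y.1 + y.2 + X / 16 → L k' a w + yy k' ≤ bet β c k' a w)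
    (hV : 4 * T + 2 ≤ V) (Kn : ℕ) :
    Bas S fun J F A => ∀ i ≤ M, ∀ j ≤ M, ∀ μ : ℕ, up ζ' J ≤ μ →
      μ ≤ Cy * up (msh X N M) J → ∀ (e' : ℕ) (g' : ℕ → ℕ),
      (∀ k' < k, g' k' ≤ ⌊b i j k' * J⌋₊ + 4 * μ + ⌊yy k' * J⌋₊) →
      ⌊b i j k * J⌋₊ + V * μ ≤ g' k → g' k ≤ J → ¬ ChN F c (k + 1) (fun _ => Kn)
        (up (y.1 + y.2) J + i * up (msh X N M) J + 4 * μ)
        (up y.1 J + j * up (msh X N M) J + 4 * μ) e' g' A := by
  have hX := h.pos
  have hN1 : (1 : ℝ) ≤ N := by exact_mod_cast hN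
  have hM0 : (0 : ℝ) ≤ M := Nat.cast_nonneg M
  have hC0 : (0 : ℝ) ≤ Cy := Nat.cast_nonneg Cy
  have hT : 0 ≤ T := (h.mu0 k hk).trans (h.muT k hk)
  obtain ⟨ζ, hζ⟩ : ∃ ζ, ζ = msh X N M := ⟨_, rfl⟩
  have hζ0 : 0 < ζ := by rw [hζ]; exact msh_pos hX hN
  have e1 : N * ((M + 4) * ζ) = X := by rw [hζ]; exact msh_mul hN
  rw [← hζ] at hζ'1 hθ
  have hζX : ζ ≤ X := by
    rw [← e1, ← mul_assoc]
    exact le_mul_of_one_le_left hζ0.le (by nlinarith only [hN1, hM0])
  have hεX : ε * X ≤ ζ / 64 := hε.trans (by linarith only [hζ'1])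
  have hε4 : ε ≤ 1 / 4 := by
    by_contra hcon
    push Not at hcon
    have h1 : 1 / 4 * X < ε * X := mul_lt_mul_of_pos_right hcon hX
    linarith only [h1, hεX, hζX, hX]
  -- the size of the shifts
  obtain ⟨Y, hY⟩ : ∃ Y, Y = X / (8 * (T + 2)) := ⟨_, rfl⟩
  have hY0 : 0 < Y := by rw [hY]; positivity
  have hYT : (T + 2) * Y = X / 8 := by rw [hY]; field_simp
  have hYX : Y ≤ X / 16 := by nlinarith only [hYT, hT, hY0]
  have hbig : ((M : ℝ) + 4 * (Cy + 2)) * ζ ≤ Y := by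
    have h1 : ((M : ℝ) + 4 * (Cy + 2)) ≤ (M + 4) * (Cy + 2) := by nlinarith only [hM0, hC0]
    have h2 : ((M : ℝ) + 4 * (Cy + 2)) * ζ ≤ (Cy + 2) * ((M + 4) * ζ) := by
      calc ((M : ℝ) + 4 * (Cy + 2)) * ζ ≤ (M + 4) * (Cy + 2) * ζ :=
            mul_le_mul_of_nonneg_right h1 hζ0.le
        _ = _ := by ring
    refine h2.trans ?_
    rw [hY, le_div_iff₀ (by positivity)]
    calc (Cy + 2) * ((M + 4) * ζ) * (8 * (T + 2)) = 8 * (Cy + 2) * (T + 2) * ((M + 4) * ζ) := by
          ring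
      _ ≤ N * ((M + 4) * ζ) := mul_le_mul_of_nonneg_right hNC (by positivity)
      _ = X := e1
  rw [← hζ]
  have hdep := h.dep
  have hwin := h.win
  have htop := h.top
  obtain ⟨v, hv⟩ : ∃ v, v = ζ' / (16 * (T + 1)) := ⟨_, rfl⟩
  have hv0 : 0 < v := by rw [hv]; positivity
  have hv1 : (T + 1) * v = ζ' / 16 := by rw [hv]; field_simp
  have hvζ' : v ≤ ζ' / 16 := by nlinarith only [hv0, hv1, hT]
  have hvζ : v ≤ ζ / 16 := by linarith only [hvζ', hζ'1]
  obtain ⟨nt, hnt⟩ := exists_nat_ge ((Cy + 1) * ζ / v + 1)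
  have hntv : ((Cy : ℝ) + 1) * ζ + v ≤ nt * v := by
    have h1 := mul_le_mul_of_nonneg_right hnt hv0.le
    have h2 : ((Cy + 1) * ζ / v + 1) * v = (Cy + 1) * ζ + v := by field_simp
    linarith only [h1, h2]
  -- the distance to the levels
  obtain ⟨tt, htt⟩ : ∃ t : Finset (ℕ × ℕ × ℕ), t = (range (M + 1)) ×ˢ (range (M + 1)) ×ˢ range k :=
    ⟨_, rfl⟩
  obtain ⟨δ, hδ, hδt⟩ := exists_pos_le tt (fun x => if x ∈ tt then
    L x.2.2 (y.1 + y.2 + x.1 * ζ) (y.1 + x.2.1 * ζ) - b x.1 x.2.1 x.2.2 else 1) (by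
      rintro ⟨i, j, k'⟩
      split_ifs with hx
      · rw [htt, Finset.mem_product, Finset.mem_product, mem_range, mem_range, mem_range] at hx
        have := hb.up i (by have := hx.1; simp only at this; omega) j
          (by have := hx.2.1; simp only at this; omega) k'
          (by have := hx.2.2; simp only at this; omega)
        simp only
        rw [← hζ] at this
        linarith only [this]
      · exact one_pos)
  have hδb : ∀ i ≤ M, ∀ j ≤ M, ∀ k' < k,
      b i j k' ≤ L k' (y.1 + y.2 + i * ζ) (y.1 + j * ζ) - δ := by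
    intro i hi j hj k' hk'
    have hx : (i, j, k') ∈ tt := by
      rw [htt, Finset.mem_product, Finset.mem_product, mem_range, mem_range, mem_range]
      exact ⟨by simp only; omega, by simp only; omega, by simp only; omega⟩
    have h1 := hδt (i, j, k') hx
    rw [if_pos hx] at h1
    simp only at h1
    linarith only [h1]
  -- one point of the net
  have key : ∀ i < M + 1, ∀ j < M + 1, ∀ t < nt + 1, Bas S fun J F A => ∀ μ : ℕ, up ζ' J ≤ μ →
      μ ≤ Cy * up ζ J → (μ : ℝ) ≤ t * v * J → (t * v * J : ℝ) ≤ μ + v * J →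
      ∀ (e' : ℕ) (g' : ℕ → ℕ),
      (∀ k' < k, g' k' ≤ ⌊b i j k' * J⌋₊ + 4 * μ + ⌊yy k' * J⌋₊) →
      ⌊b i j k * J⌋₊ + V * μ ≤ g' k →
      g' k ≤ J → ¬ ChN F c (k + 1) (fun _ => Kn)
        (up (y.1 + y.2) J + i * up ζ J + 4 * μ) (up y.1 J + j * up ζ J + 4 * μ) e' g' A := by
    intro i hi j hj t ht
    have hi1 : i ≤ M := by omega
    have hj1 : j ≤ M := by omega
    have hi' : (i : ℝ) ≤ M := by exact_mod_cast hi1
    have hj' : (j : ℝ) ≤ M := by exact_mod_cast hj1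
    have hi0 : (0 : ℝ) ≤ i := Nat.cast_nonneg i
    have hj0 : (0 : ℝ) ≤ j := Nat.cast_nonneg j
    have iζ : (i : ℝ) * ζ ≤ M * ζ := mul_le_mul_of_nonneg_right hi' hζ0.le
    have jζ : (j : ℝ) * ζ ≤ M * ζ := mul_le_mul_of_nonneg_right hj' hζ0.le
    have iζ0 : 0 ≤ (i : ℝ) * ζ := by positivity
    have jζ0 : 0 ≤ (j : ℝ) * ζ := by positivity
    by_cases htv : (t : ℝ) * v ≤ (Cy + 1) * ζ + v
    swap
    · -- no shifts
      obtain ⟨J₁, hJ₁⟩ := exists_nat_ge (Cy / ζ)
      refine ⟨1, one_pos, max J₁ 1, ?_⟩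
      intro J hJ F A _ μ h1 h2 h3 h4
      exfalso
      refine htv ?_
      have hJ1 : (1 : ℝ) ≤ J := by exact_mod_cast (le_max_right _ _).trans hJ
      have h5 : Cy / ζ ≤ J := hJ₁.trans (by exact_mod_cast (le_max_left _ _).trans hJ)
      rw [div_le_iff₀ hζ0] at h5
      have h6 : (μ : ℝ) ≤ Cy * up ζ J := by exact_mod_cast h2
      have h7 := mul_le_mul_of_nonneg_left (up_le hζ0.le J) hC0
      have h8 : (t : ℝ) * v * J ≤ ((Cy + 1) * ζ + v) * J := by
        calc (t : ℝ) * v * J ≤ μ + v * J := h4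
          _ ≤ Cy * (ζ * J + 1) + v * J := by linarith only [h6, h7]
          _ ≤ _ := by linarith only [h5]
      exact le_of_mul_le_mul_right h8 (by linarith)
    have tv0 : 0 ≤ (t : ℝ) * v := by positivity
    obtain ⟨w, hw1, hw2⟩ := exists_rat_btwn
      (show y.1 + j * ζ + 4 * (t * v) < y.1 + j * ζ + 4 * (t * v) + v by linarith only [hv0])
    obtain ⟨a, ha1, ha2⟩ := exists_rat_btwn
      (show y.1 + y.2 + i * ζ + 4 * (t * v) < y.1 + y.2 + i * ζ + 4 * (t * v) + v by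
        linarith only [hv0])
    have hsize : (M : ℝ) * ζ + 4 * (t * v) + v ≤ Y := by
      have h1 : 4 * ((t : ℝ) * v) ≤ 4 * ((Cy + 1) * ζ + v) := by linarith only [htv]
      have h2 : (M : ℝ) * ζ + 4 * ((Cy + 1) * ζ + v) + v ≤ (M + 4 * (Cy + 2)) * ζ := by
        nlinarith only [hvζ, hζ0]
      linarith only [h1, h2, hbig]
    have hw0 : (0 : ℝ) < w := by linarith only [hw1, jζ0, tv0, hwin, hX]
    have hwa : (w : ℝ) < a := by
      linarith only [hw2, ha1, hdep, jζ, iζ0, hsize, hYX, tv0, hv0, hX]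
    have haT : (a : ℝ) ≤ 1 := by linarith only [ha2, iζ, hsize, hYX, htop, hX]
    have hdist : dist ((w : ℝ), (a : ℝ) - w) y ≤ X := by
      rw [Prod.dist_eq, Real.dist_eq, Real.dist_eq]
      refine max_le ?_ ?_
      · rw [abs_le]
        constructor
        · simp only
          linarith only [hw1, jζ0, tv0, hX]
        · simp only
          linarith only [hw2, jζ, hsize, hYX, hX]
      · rw [abs_le]
        constructor
        · simp only
          linarith only [hw2, ha1, jζ, iζ0, hsize, hYX, hX, tv0, hv0]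
        · simp only
          linarith only [hw1, ha2, jζ0, iζ, hsize, hYX, hX, tv0]
    -- the level and the threshold at the point
    have hLij := h.grid_lt (N := N) (M := M) hN hNT hε4 hk hi0 (by linarith only [hi'])
      hj0 (by linarith only [hj'])
    rw [← hζ] at hLij
    have hval1 := h.val hk (a := a) (w := w) (by
      rw [abs_le]; constructor
      · linarith only [hw1, jζ0, tv0, hX]
      · linarith only [hw2, jζ, hsize, hYX, hX]) (by
      rw [abs_le]; constructor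
      · linarith only [hw2, ha1, jζ, iζ0, hsize, hYX, hX, tv0, hv0]
      · linarith only [hw1, ha2, jζ0, iζ, hsize, hYX, hX, tv0])
    have hval2 := h.val hk (a := y.1 + y.2 + i * ζ) (w := y.1 + j * ζ) (by
      rw [abs_le]; constructor
      · linarith only [jζ0, hX]
      · linarith only [jζ, hsize, hYX, hX, tv0, hv0]) (by
      rw [abs_le]; constructor
      · linarith only [jζ, iζ0, hsize, hYX, hX, tv0, hv0]
      · linarith only [jζ0, iζ, hsize, hYX, hX, tv0, hv0])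
    have hdif : L k a w ≤ L k (y.1 + y.2 + i * ζ) (y.1 + j * ζ) + 4 * T * (t * v) +
        2 * (T * v) + 2 * (ε * X) := by
      have g1 := (abs_le.1 hval1).2
      have g2 := (abs_le.1 hval2).1
      have g3 : la k * ((w : ℝ) - (y.1 + j * ζ)) ≤ T * (4 * (t * v) + v) :=
        mul_le_mul (h.laT k hk) (by linarith only [hw2]) (by linarith only [hw1, tv0]) hT
      have g4 : mu k * (((a : ℝ) - w) - (y.1 + y.2 + i * ζ - (y.1 + j * ζ))) ≤ T * v := by
        have h5 : ((a : ℝ) - w) - (y.1 + y.2 + i * ζ - (y.1 + j * ζ)) ≤ v := by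
          linarith only [ha2, hw1]
        calc mu k * (((a : ℝ) - w) - (y.1 + y.2 + i * ζ - (y.1 + j * ζ))) ≤ mu k * v :=
              mul_le_mul_of_nonneg_left h5 (h.mu0 k hk)
          _ ≤ T * v := mul_le_mul_of_nonneg_right (h.muT k hk) hv0.le
      linarith only [g1, g2, g3, g4]
    have hthr : bet PW c k a w ≤ L k a w + ε * X := by
      have h1 := hPW _ hdist
      have h2 : Nw (bet PW c k) ((w : ℝ), (a : ℝ) - w) = bet PW c k a w := by
        show bet PW c k ((w : ℝ) + ((a : ℝ) - w)) w = _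
        rw [add_sub_cancel]
      have h3 : Nw (L k) ((w : ℝ), (a : ℝ) - w) = L k a w := by
        show L k ((w : ℝ) + ((a : ℝ) - w)) w = _
        rw [add_sub_cancel]
      rw [h2, h3] at h1
      exact h1
    have hTtv : 4 * T * (t * v) + 2 * (T * v) ≤ X / 2 := by
      have h1 : (T + 2) * (4 * (t * v) + v) ≤ (T + 2) * Y :=
        mul_le_mul_of_nonneg_left (by linarith only [hsize, mul_nonneg hM0 hζ0.le])
          (by linarith only [hT])
      nlinarith only [h1, hYT, tv0, hv0, hT, hX]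
    have hL1 : bet PW c k a w + ζ' / 8 ≤ 1 := by
      have hζX : ζ ≤ X / 16 := by nlinarith only [hbig, hYX, hM0, hC0, hζ0, hX]
      linarith only [hLij, hdif, hthr, hTtv, hεX, hζX, hζ'1, hX]
    obtain ⟨L', hL'⟩ : ∃ L' : ℕ → ℝ → ℝ → ℝ, L' = fun k' => if k' < k then
      bet β c k' else bet PW c k := ⟨_, rfl⟩
    have hL'k : ∀ k' < k, L' k' = bet β c k' := fun k' hk' => by rw [hL']; exact if_pos hk'
    have hL'n : L' k = bet PW c k := by rw [hL']; exact if_neg (lt_irrefl _)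
    have hno := CellL.no_of_B (L := L') (l := k) hP (c := c) (fun a w => by rw [hL'n])
      (fun k' hk' a w => by rw [hL'k k' hk']) Kn a w (ζ' / 8) δ (by exact_mod_cast hw0.le)
      (by exact_mod_cast hwa.le) (by exact_mod_cast haT) (by positivity) hδ
      (by rw [hL'n]; exact hL1)
    -- large `J`
    obtain ⟨J₁, hJ₁⟩ := exists_nat_gt
      ((M + 2) / ((a : ℝ) - (y.1 + y.2 + i * ζ + 4 * (t * v))) : ℝ)
    obtain ⟨J₂, hJ₂⟩ := exists_nat_gt ((M + 2) / ((w : ℝ) - (y.1 + j * ζ + 4 * (t * v))) : ℝ)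
    obtain ⟨J₃, hJ₃⟩ := exists_nat_ge ((Cy + M + 4) / ζ)
    obtain ⟨J₄, hJ₄⟩ := exists_nat_ge (1 / ζ')
    have hX4 : 4 * (((Cy : ℝ) + 1) * ζ) ≤ X / 8 := by
      nlinarith only [hbig, hYX, hM0, hζ0]
    refine Bas.mono (max (max J₁ J₂) (max J₃ (max J₄ 1))) hno ?_
    rintro J hJ F A hno μ m1 m2 m3 m4 e' g' q1 q2 q3 ⟨Gc, Hc, hch⟩
    have j1 : (J₁ : ℝ) ≤ J := by
      exact_mod_cast ((le_max_left _ _).trans (le_max_left _ _)).trans hJ
    have j2 : (J₂ : ℝ) ≤ J := by
      exact_mod_cast ((le_max_right _ _).trans (le_max_left _ _)).trans hJ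
    have j3 : (Cy + M + 4) / ζ ≤ J := hJ₃.trans (by
      exact_mod_cast ((le_max_left _ _).trans (le_max_right _ _)).trans hJ)
    have j4 : 1 ≤ J := (((le_max_right _ _).trans (le_max_right _ _)).trans
      (le_max_right _ _)).trans hJ
    have j5 : 1 / ζ' ≤ J := hJ₄.trans (by
      exact_mod_cast (((le_max_left _ _).trans (le_max_right _ _)).trans
        (le_max_right _ _)).trans hJ)
    have hJ0 : (0 : ℝ) < J := by exact_mod_cast j4
    rw [div_le_iff₀ hζ'0] at j5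
    rw [div_le_iff₀ hζ0] at j3
    have k1 : ((M : ℝ) + 2) < J * (a - (y.1 + y.2 + i * ζ + 4 * (t * v))) := by
      rw [div_lt_iff₀ (by linarith only [ha1])] at hJ₁
      exact hJ₁.trans_le (mul_le_mul_of_nonneg_right j1 (by linarith only [ha1]))
    have k2 : ((M : ℝ) + 2) < J * (w - (y.1 + j * ζ + 4 * (t * v))) := by
      rw [div_lt_iff₀ (by linarith only [hw1])] at hJ₂
      exact hJ₂.trans_le (mul_le_mul_of_nonneg_right j2 (by linarith only [hw1]))
    obtain ⟨z, hz⟩ : ∃ z, z = up ζ J := ⟨_, rfl⟩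
    rw [← hz] at m2 hch
    have z1 : ζ * J ≤ z := by rw [hz]; exact up_ge ζ J
    have z2 : (z : ℝ) ≤ ζ * J + 1 := by rw [hz]; exact up_le hζ0.le J
    have hα0 : 0 ≤ y.1 + y.2 := by linarith only [hdep, hwin, hX]
    have u1 := up_le hα0 J
    have u2 := up_le (hX.le.trans hwin) J
    have u3 := up_ge (y.1 + y.2) J
    have u4 := up_ge y.1 J
    obtain ⟨ua, hua⟩ : ∃ ua, ua = up (y.1 + y.2) J := ⟨_, rfl⟩
    obtain ⟨uw, huw⟩ : ∃ uw, uw = up y.1 J := ⟨_, rfl⟩
    rw [← hua] at hch u1 u3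
    rw [← huw] at hch u2 u4
    have iz : (i : ℝ) * z ≤ i * (ζ * J) + M := by
      have := mul_le_mul_of_nonneg_left z2 hi0
      linarith only [this, hi']
    have jz : (j : ℝ) * z ≤ j * (ζ * J) + M := by
      have := mul_le_mul_of_nonneg_left z2 hj0
      linarith only [this, hj']
    have iz' : (i : ℝ) * (ζ * J) ≤ i * z := mul_le_mul_of_nonneg_left z1 hi0
    have jz' : (j : ℝ) * (ζ * J) ≤ j * z := mul_le_mul_of_nonneg_left z1 hj0
    have hμ1 : ζ' * J ≤ μ := (up_ge ζ' J).trans (by exact_mod_cast m1)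
    have hμ2 : (μ : ℝ) ≤ Cy * z := by exact_mod_cast m2
    have hμ0 : (0 : ℝ) ≤ μ := Nat.cast_nonneg μ
    have hz1 : (1 : ℝ) ≤ ζ * J := by linarith only [j3, hC0, hM0, mul_comm ζ (J : ℝ)]
    have hμX : (μ : ℝ) ≤ (Cy + 1) * ζ * J := by
      have := mul_le_mul_of_nonneg_left z2 hC0
      linarith only [this, hμ2, j3, hM0]
    -- the radius and the window
    have ra : ua + i * z + 4 * μ ≤ ⌊(a : ℝ) * J⌋₊ := by
      refine Nat.le_floor ?_
      push_cast
      linarith only [u1, iz, m3, k1]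
    have rw' : uw + j * z + 4 * μ ≤ ⌊(w : ℝ) * J⌋₊ := by
      refine Nat.le_floor ?_
      push_cast
      linarith only [u2, jz, m3, k2]
    have hYJ : ((M : ℝ) * ζ + 4 * (t * v) + v) * J ≤ Y * J :=
      mul_le_mul_of_nonneg_right hsize hJ0.le
    have hYXJ : Y * J ≤ X / 16 * J := mul_le_mul_of_nonneg_right hYX hJ0.le
    have hjM : (j : ℝ) * (ζ * J) ≤ M * (ζ * J) := mul_le_mul_of_nonneg_right hj' (by positivity)
    have hMz : (M : ℝ) + 4 ≤ ζ * J := by linarith only [j3, hC0]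
    have hζXJ : ζ * J ≤ X / 16 * J := by
      refine mul_le_mul_of_nonneg_right ?_ hJ0.le
      nlinarith only [hbig, hYX, hM0, hC0, hζ0]
    have hdepJ : X * J ≤ y.2 * J := mul_le_mul_of_nonneg_right hdep hJ0.le
    have rwa : uw + j * z + 4 * μ ≤ ua + i * z + 4 * μ := by
      have h1 : ((uw + j * z : ℕ) : ℝ) ≤ (ua + i * z : ℕ) := by
        push_cast
        have h2 : (0 : ℝ) ≤ i * z := by positivity
        linarith only [u2, u3, jz, h2, hjM, hMz, hYJ, hYXJ, hdepJ, hζXJ, mul_nonneg tv0 hJ0.le,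
          mul_pos hv0 hJ0]
      have h3 : uw + j * z ≤ ua + i * z := by exact_mod_cast h1
      omega
    refine hno (ua + i * z + 4 * μ) (uw + j * z + 4 * μ) e' g' Gc Hc
      ⟨j4, rwa, ra, rw', fun k' hk' => ?_, fun k' hk' => ?_, ?_⟩ hch
    · rcases Nat.lt_or_ge k' k with hk'' | hk''
      · have h1 := q1 k' hk''
        have h2 := hb.e1 i hi1 j hj1 k' (by omega)
        have h3 := hb.e0 i hi1 j hj1
        have h8 : (⌊yy k' * (J : ℝ)⌋₊ : ℝ) ≤ X / 16 * J :=
          (Nat.floor_le (mul_nonneg (hy0 k' hk'') hJ0.le)).trans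
            (mul_le_mul_of_nonneg_right (hyX k' hk'') hJ0.le)
        have h4 : ((⌊b i j k' * J⌋₊ + 4 * μ + ⌊yy k' * J⌋₊ : ℕ) : ℝ) ≤ (J : ℝ) := by
          push_cast
          have h5 : (⌊b i j k' * (J : ℝ)⌋₊ : ℝ) ≤ max 0 (b i j k' * J) := by
            rcases le_total 0 (b i j k' * (J : ℝ)) with h6 | h6
            · exact (Nat.floor_le h6).trans (le_max_right _ _)
            · rw [Nat.floor_of_nonpos h6]
              simp
          have h6 : max 0 (b i j k' * (J : ℝ)) ≤ (1 - X) * J := by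
            refine max_le ?_ (mul_le_mul_of_nonneg_right (by linarith only [h2, h3]) hJ0.le)
            have : X ≤ 1 := by linarith only [htop, hdep, hwin, hX]
            exact mul_nonneg (by linarith only [this]) hJ0.le
          have h7 : 4 * ((Cy + 1) * ζ) * J ≤ X / 8 * J := mul_le_mul_of_nonneg_right hX4 hJ0.le
          nlinarith only [h5, h6, h7, h8, hμX, hX, hJ0]
        have h5 : ⌊b i j k' * (J : ℝ)⌋₊ + 4 * μ + ⌊yy k' * (J : ℝ)⌋₊ ≤ J := by exact_mod_cast h4
        omega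
      · obtain rfl : k' = k := by omega
        exact q3
    · rw [hL'k k' hk']
      have h1 := q1 k' hk'
      have h2 := hδb i hi1 j hj1 k' hk'
      have haJ : ((ua + i * z + 4 * μ : ℕ) : ℝ) ≤ J := by
        have h3 := ra.trans (Pool.LBT.fl_le' haT J)
        exact_mod_cast h3
      have hlt := h.grid_lt (N := N) (M := M) hN hNT hε4 (l := k') (by omega) hi0
        (by linarith only [hi'] : (i : ℝ) ≤ M + 3) hj0 (by linarith only [hj'] : (j : ℝ) ≤ M + 3)
      rw [← hζ] at hlt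
      have h3 : L k' (y.1 + y.2 + i * ζ) (y.1 + j * ζ) + 4 * μ / J ≤
          L k' (((ua + i * z + 4 * μ : ℕ) : ℝ) / J) (((uw + j * z + 4 * μ : ℕ) : ℝ) / J) := by
        refine law_shift (h.law k' (by omega)) (by linarith only [hwin, hX, jζ0]) ?_
          (by positivity) ?_ ?_ ?_ ?_ ?_
        · linarith only [hdep, jζ, iζ0, hsize, hYX, hX, tv0, hv0]
        · rw [le_div_iff₀ hJ0, add_mul, div_mul_cancel₀ _ hJ0.ne']
          push_cast
          linarith only [u3, iz']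
        · rw [le_div_iff₀ hJ0]
          push_cast
          linarith only [u4, jz', hμ0]
        · exact div_le_div_of_nonneg_right (by exact_mod_cast rwa) hJ0.le
        · exact div_le_one_of_le₀ haJ hJ0.le
        · have h4 : 4 * (μ : ℝ) / J ≤ X / 8 := by
            rw [div_le_iff₀ hJ0]
            have h7 : 4 * ((Cy + 1) * ζ) * J ≤ X / 8 * J := mul_le_mul_of_nonneg_right hX4 hJ0.le
            linarith only [h7, hμX]
          linarith only [hlt, h4, hX]
      have haN : 0 ≤ (a : ℝ) := hw0.le.trans hwa.le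
      have h4 := hβ k' hk' (((ua + i * z + 4 * μ : ℕ) : ℝ) / J)
        (((uw + j * z + 4 * μ : ℕ) : ℝ) / J) (by
          rw [le_div_iff₀ hJ0]
          push_cast
          linarith only [u4, hμ0, show (0 : ℝ) ≤ j * z by positivity]) (by
          rw [div_le_iff₀ hJ0]
          have h5 : ((uw + j * z + 4 * μ : ℕ) : ℝ) ≤ w * J :=
            (by exact_mod_cast rw' : ((uw + j * z + 4 * μ : ℕ) : ℝ) ≤ (⌊(w : ℝ) * J⌋₊ : ℕ)).trans
              (Nat.floor_le (mul_nonneg hw0.le hJ0.le))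
          refine h5.trans (mul_le_mul_of_nonneg_right ?_ hJ0.le)
          linarith only [hw2, jζ, hsize, hYX]) (by
          rw [le_div_iff₀ hJ0]
          push_cast
          linarith only [u3, hμ0, show (0 : ℝ) ≤ i * z by positivity]) (by
          rw [div_le_iff₀ hJ0]
          have h5 : ((ua + i * z + 4 * μ : ℕ) : ℝ) ≤ a * J :=
            (by exact_mod_cast ra : ((ua + i * z + 4 * μ : ℕ) : ℝ) ≤ (⌊(a : ℝ) * J⌋₊ : ℕ)).trans
              (Nat.floor_le (mul_nonneg haN hJ0.le))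
          refine h5.trans (mul_le_mul_of_nonneg_right ?_ hJ0.le)
          linarith only [ha2, iζ, hsize, hYX])
      rcases le_total 0 (b i j k' * (J : ℝ)) with h6 | h6
      · refine le_trans ?_ (le_max_right _ _)
        have h7 : (g' k' : ℝ) ≤ ⌊b i j k' * (J : ℝ)⌋₊ + 4 * μ + ⌊yy k' * (J : ℝ)⌋₊ := by
          exact_mod_cast h1
        have h8 := Nat.floor_le h6
        have h8' := Nat.floor_le (mul_nonneg (hy0 k' hk') hJ0.le)
        have h9 : (b i j k' + 4 * μ / J + yy k') * J ≤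
            (bet β c k' (((ua + i * z + 4 * μ : ℕ) : ℝ) / J)
            (((uw + j * z + 4 * μ : ℕ) : ℝ) / J) - δ) * J :=
          mul_le_mul_of_nonneg_right (by linarith only [h2, h3, h4]) hJ0.le
        rw [add_mul, add_mul, div_mul_cancel₀ _ hJ0.ne'] at h9
        linarith only [h7, h8, h8', h9]
      · -- the side is small
        refine le_trans ?_ (le_max_right _ _)
        exfalso
        have h8 := hb.lo i hi1 j hj1 k' (by omega)
        rw [← hζ] at h8
        have h9 := h.low k' (by omega) (y.1 + y.2 + i * ζ) (y.1 + j * ζ)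
          (by linarith only [hwin, hX, jζ0])
          (by linarith only [hdep, jζ, iζ0, hsize, hYX, hX, tv0, hv0])
          (by linarith only [iζ, hsize, hYX, htop, hX, tv0, hv0])
        have hζX : ζ ≤ X / 16 := by nlinarith only [hbig, hYX, hM0, hC0, hζ0]
        have h10 : 0 < b i j k' := by linarith only [h8, h9, hθ, hζ'1, hζX, hwin, hdep, hX, iζ0]
        nlinarith only [h6, h10, hJ0]
    · rw [hL'n]
      have h1 : ⌊(bet PW c k a w + ζ' / 8) * (J : ℝ)⌋₊ ≤ g' k := by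
        refine le_trans (Nat.floor_le_of_le ?_) q2
        push_cast
        have h2 := hb.lo i hi1 j hj1 k hk
        rw [← hζ] at h2
        have h3 := Nat.lt_floor_add_one (b i j k * (J : ℝ))
        have h4 : (bet PW c k a w + ζ' / 8) * J ≤ (b i j k + 1 / 16 * ζ' + 4 * T * (t * v) +
            2 * (T * v) + 3 * (ζ' / 64) + ζ' / 8) * J :=
          mul_le_mul_of_nonneg_right (by linarith only [hthr, hdif, hε, h2, hθ]) hJ0.le
        have h5 : 4 * T * (t * v * J) ≤ 4 * T * (μ + v * J) :=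
          mul_le_mul_of_nonneg_left m4 (by linarith only [hT])
        have h6 : 6 * (T * v) * J ≤ 6 * (ζ' / 16) * J := by
          refine mul_le_mul_of_nonneg_right ?_ hJ0.le
          linarith only [hv1, hv0]
        have h7 : (4 * T + 2) * μ ≤ V * μ := mul_le_mul_of_nonneg_right hV hμ0
        linarith only [h3, h4, h5, h6, h7, hμ1, j5]
      have h2 := ra
      omega
  -- all the points of the net
  obtain ⟨J₁, hJ₁⟩ := exists_nat_ge (Cy / ζ)
  refine Bas.mono (max J₁ 1) (Bas.all (M + 1) fun i hi => Bas.all (M + 1) fun j hj =>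
    Bas.all (nt + 1) fun t ht => key i hi j hj t ht) ?_
  intro J hJ F A hall i hi j hj μ m1 m2 e' g' q1 q2 q3
  have hJ1 : (1 : ℝ) ≤ J := by exact_mod_cast (le_max_right _ _).trans hJ
  have hJ0 : (0 : ℝ) < J := by linarith
  have h5 : Cy / ζ ≤ J := hJ₁.trans (by exact_mod_cast (le_max_left _ _).trans hJ)
  rw [div_le_iff₀ hζ0] at h5
  obtain ⟨t, ht⟩ : ∃ t, t = ⌈(μ : ℝ) / (v * J)⌉₊ := ⟨_, rfl⟩
  have hvJ : 0 < v * J := mul_pos hv0 hJ0
  have t1 : (μ : ℝ) / (v * J) ≤ t := by rw [ht]; exact Nat.le_ceil _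
  have t2 : (t : ℝ) < (μ : ℝ) / (v * J) + 1 := by
    rw [ht]; exact Nat.ceil_lt_add_one (by positivity)
  have t3 : (μ : ℝ) ≤ t * v * J := by
    rw [div_le_iff₀ hvJ] at t1
    linarith only [t1]
  have t4 : (t * v * J : ℝ) ≤ μ + v * J := by
    have h1 := mul_lt_mul_of_pos_right t2 hvJ
    rw [add_mul, div_mul_cancel₀ _ hvJ.ne', one_mul] at h1
    linarith only [h1]
  refine hall i (by omega) j (by omega) t ?_ μ m1 m2 t3 t4 e' g' q1 q2 q3
  have h6 : (μ : ℝ) ≤ Cy * up ζ J := by exact_mod_cast m2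
  have h7 := mul_le_mul_of_nonneg_left (up_le hζ0.le J) hC0
  have h8 : (t : ℝ) * v * J ≤ ((Cy + 1) * ζ + v) * J := by linarith only [t4, h6, h7, h5]
  have h9 : (t : ℝ) * v ≤ (Cy + 1) * ζ + v := le_of_mul_le_mul_right h8 hJ0
  have h10 : (t : ℝ) ≤ nt := le_of_mul_le_mul_right (h9.trans hntv) hv0
  have h11 : t ≤ nt := by exact_mod_cast h10
  omega

end Pool.STAT
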