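import Pool.Agent.H78.MIC.ConJ
import Pool.Agent.H2.GEN.Rlv

/-!
# Labels with gain on large events of a kit

`KitP.Wco`: the labels of the grid have a label with gain of the coordinate `l`; `hV_con`: this
holds on large subevents, from a chain with gain.
-/

set_option autoImplicit false

namespace Pool.STAT

open Finset MvPolynomial
open Pool.Agent.H49.Ent Pool.Agent.H32.Dense Pool.STK Pool.KS3 Pool.KA Pool.KSAT Pool.PB Pool.GEN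
open Pool.K2S Pool.S6C
open Pool.CHT (bet TmH)
open Pool.CHB (chsysB)
open Pool.LBT (ThrOf)
open Pool.LEV (Law)
open Pool.STR (Affn Nw)
open Pool.RLV (TmN)
open CLO

variable {Θ : Type*} {I : ℝ → Θ → Prop} {m n₀ : ℕ}

/-- **A label with gain** of the coordinate `l`, for sides near to the levels. -/
def KitP.Wco (Kt : KitP m Θ n₀) (l K₂ S₂ : ℕ) (p : Θ) (N M : ℕ) (θ : ℝ) : GrdP m :=
  fun J F D A => ∃ (g : ℕ → ℕ → ℕ → ℕ) (pr : ℕ) (UD : Pt2 F → PN) (UL : Ln2 F × ℕ → PN),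
    (∀ i ≤ M, ∀ j ≤ M, ∀ k < n₀ + 1,
      g i j k ≤ ⌊Kt.L p k ((Kt.y p).1 + (Kt.y p).2 + i * msh (Kt.X p) N M)
        ((Kt.y p).1 + j * msh (Kt.X p) N M) * J⌋₊ ∧
      ⌊Kt.L p k ((Kt.y p).1 + (Kt.y p).2 + i * msh (Kt.X p) N M)
        ((Kt.y p).1 + j * msh (Kt.X p) N M) * J⌋₊ ≤
        g i j k + (⌈θ * up (msh (Kt.X p) N M) J⌉₊ + 1)) ∧
    (∀ i ≤ M, ∀ j ≤ M, ⌊Kt.L p l ((Kt.y p).1 + (Kt.y p).2 + i * msh (Kt.X p) N M)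
      ((Kt.y p).1 + j * msh (Kt.X p) N M) * J⌋₊ + ⌊Kt.X p / 32 * J⌋₊ ≤ pr) ∧
    CoL D (Kt.cs p) l K₂ (up ((Kt.y p).1 + (Kt.y p).2) J) (up (Kt.y p).1 J)
      (up (msh (Kt.X p) N M) J) (up (16 * θ * msh (Kt.X p) N M) J) M S₂ g pr UD UL A

theorem KitP.wco_her (Kt : KitP m Θ n₀) (l K₂ S₂ : ℕ) (p : Θ) (N M : ℕ) (θ : ℝ) :
    (Kt.Wco l K₂ S₂ p N M θ).Her := by
  rintro J F D A B hB ⟨g, pr, UD, UL, hg, hpr, hG⟩
  exact ⟨g, pr, UD, UL, hg, hpr, hG.sub hB⟩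

theorem evP_lt (hI : MonoI I) {Ψ : ℕ → Θ → Prop} (l : ℕ) (h : ∀ k < l, EvP I (Ψ k)) :
    EvP I fun p => ∀ k < l, Ψ k p := by
  induction l with
  | zero => exact ⟨1, one_pos, fun _ _ k hk => absurd hk (Nat.not_lt_zero k)⟩
  | succ l ih =>
    refine ((ih fun k hk => h k (by omega)).and hI (h l (Nat.lt_succ_self l))).mono
      fun p hp k hk => ?_
    rcases Nat.lt_succ_iff_lt_or_eq.1 hk with h1 | h1
    · exact hp.1 k h1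
    · rw [h1]
      exact hp.2

theorem up_mono' {a b : ℝ} (h : a ≤ b) (J : ℕ) : up a J ≤ up b J :=
  Nat.ceil_le_ceil (mul_le_mul_of_nonneg_right h (Nat.cast_nonneg J))

theorem x_num {ζ : ℝ} (hζ : 0 < ζ) (κ : ℕ) : ∃ J₁ : ℕ, ∀ J ≥ J₁,
    ⌈ζ / 2 * J⌉₊ + 1 ≤ up ζ J ∧ κ ≤ up ζ J := by
  obtain ⟨J₁, hJ₁⟩ := exists_nat_ge ((κ + 4) / ζ)
  refine ⟨J₁, fun J hJ => ?_⟩
  have h1 : ((κ : ℝ) + 4) ≤ J * ζ := by
    rw [← div_le_iff₀ hζ]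
    exact hJ₁.trans (by exact_mod_cast hJ)
  have h2 := up_ge ζ J
  have h3 : (0 : ℝ) ≤ κ := Nat.cast_nonneg κ
  refine ⟨?_, ?_⟩
  · have : ((⌈ζ / 2 * (J : ℝ)⌉₊ + 1 : ℕ) : ℝ) ≤ up ζ J := by
      push_cast
      have h4 := Nat.ceil_lt_add_one (show 0 ≤ ζ / 2 * (J : ℝ) by positivity)
      linarith
    exact_mod_cast this
  · have : (κ : ℝ) ≤ up ζ J := by linarith
    exact_mod_cast this

/-- **The property holds on large subevents**, from a chain with gain of a bounded class. The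
thresholds `P p` of the coordinates before `l` are at most the levels, up to small errors. -/
theorem hV_con (hI : MonoI I) {S : PCl m} (hS : TmH S) (Kt : KitP m Θ n₀)
    (hml : ∀ p, ∀ l < n₀ + 1, Kt.ml p l = 1) (hinj : ∀ p, Inj (Kt.cs p) (n₀ + 1)) {K' s₁ : ℕ}
    {sh : ℕ → ℕ} (hK' : 1 ≤ K') {T' : ℝ}
    (fcel : ∀ ε' : ℝ, 0 < ε' → EvP I fun p =>
      CellL (n₀ + 1) (Kt.L p) ε' T' (Kt.y p) (Kt.X p) (Kt.la p) (Kt.ml p))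
    {be P : Θ → List (Fin m) × Fin m → ℝ → ℝ → ℝ}
    (hP : ∀ p, ThrOf (chsysB m none (be p)) S (P p)) {l : ℕ} (hl : l < n₀ + 1)
    (hLβ : ∀ p, ∀ k < l, ∀ a w : ℝ, 0 ≤ w → w ≤ a → a ≤ 1 →
      Kt.L p k a w ≤ bet (be p) (Kt.cs p) k a w)
    (fiso : ∀ k < l, ∀ ε' : ℝ, 0 < ε' → EvP I fun p => ∀ z : ℝ × ℝ,
      dist z (Kt.y p) ≤ Kt.X p →
      Nw (bet (P p) (Kt.cs p) k) z ≤ Nw (Kt.L p k) z + ε' * Kt.X p)
    (hsrt : EvP I fun p => ∀ k < l, ∀ k' < k, Kt.L p k' ((Kt.y p).1 + (Kt.y p).2) (Kt.y p).1 ≤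
      Kt.L p k ((Kt.y p).1 + (Kt.y p).2) (Kt.y p).1) {DT : ℕ}
    (hcon : EvP I fun p => ∃ (aT wT eT : ℝ) (β : ℕ → ℝ) (K₁ : ℝ), 0 < K₁ ∧
      GnN (Kt.L p) l (Kt.y p) (Kt.X p) aT wT β ∧ Bas S fun J F A => ∃ B : F.Ω → Prop,
        Sub B A ∧ Pe F.p A ≤ K₁ * Pe F.p B ∧
          Chn (Kt.cs p) (l + 1) (fun _ => DT) aT wT eT β J F B) :
    ∃ S₂ : ℕ, ∀ M : ℕ, EvQ I fun N θ p => ∀ (b : ℕ → ℕ → ℕ → ℝ) (e : ℕ → ℕ → ℝ),
      Kt.Near p N M θ b e → ∃ C : ℝ, 1 ≤ C ∧ Bas S fun J F A => ∀ D : GDat F,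
        (Kt.grid K' s₁ sh p N M θ b e).Ok F D A →
        ∃ B : F.Ω → Prop, Sub B A ∧ Pe F.p A ≤ C * Pe F.p B ∧
          Kt.Wco l (max Kt.K DT) S₂ p N M θ J F D B := by
  obtain ⟨Λ, hΛ⟩ := exists_nat_ge (T' + 3)
  obtain ⟨V, hV⟩ := exists_nat_ge (4 * T' + 2)
  obtain ⟨Cy, S₂, κ, N', Kn, hκ, hCy, hfam⟩ := con_fam V Kt.K DT (n₀ + 1) K' s₁ l hl hK'
  refine ⟨S₂, fun M => ?_⟩
  obtain ⟨N₁, hN₁⟩ := exists_nat_ge (4 * (T' + 2))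
  obtain ⟨N₂, hN₂⟩ := exists_nat_ge (8 * (Cy + 2) * (T' + 2))
  obtain ⟨N₃, hN₃⟩ := exists_nat_ge (128 * ((((V + 4) * S₂ : ℕ) : ℝ) + 2) * (T' + 2))
  obtain ⟨N₀, hN₀⟩ : ∃ N₀, N₀ = max (max N₁ N₂) (max N₃ 1) := ⟨_, rfl⟩
  have hεp : ∀ (N : ℕ) (θ : ℝ), 0 < θ →
      0 < min (θ / (4 * (N * (M + 4)) + 1)) (1 / (64 * (N * (M + 4)) + 1)) := fun N θ hθ =>
    lt_min (by positivity) (by positivity)
  have fiso' : EvQ I fun N θ p => 0 < θ → ∀ k < l, ∀ z : ℝ × ℝ, dist z (Kt.y p) ≤ Kt.X p →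
      Nw (bet (P p) (Kt.cs p) k) z ≤ Nw (Kt.L p k) z +
        min (θ / (4 * (N * (M + 4)) + 1)) (1 / (64 * (N * (M + 4)) + 1)) * Kt.X p :=
    ⟨0, fun N _ => ⟨1, one_pos, fun θ hθ _ => (evP_lt hI l fun k hk =>
      fiso k hk _ (hεp N θ hθ)).mono fun _ hp _ => hp⟩⟩
  have hcel : EvQ I fun N θ p => 0 < θ → CellL (n₀ + 1) (Kt.L p)
      (min (θ / (4 * (N * (M + 4)) + 1)) (1 / (64 * (N * (M + 4)) + 1))) T' (Kt.y p) (Kt.X p)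
      (Kt.la p) (Kt.ml p) :=
    ⟨0, fun N _ => ⟨1, one_pos, fun θ hθ _ => (fcel _ (hεp N θ hθ)).mono fun _ hp _ => hp⟩⟩
  have key := (((hcel.and hI (iso_num hI Kt hml fcel hΛ sh 0 0 M
    one_pos)).and hI fiso').and hI ((EvQ.of_evP fun _ => hsrt).and hI
      (EvQ.of_evP fun _ => hcon))).and hI
    (EvQ.self I N₀ (θ₀ := 1 / 16) (by norm_num) (ε := fun N _ => 1) (fun N _ _ => one_pos))
  refine key.mono ?_
  rintro N θ p ⟨⟨⟨⟨hL, hθ0, hζ0, hnum⟩, hPW⟩, psrt, pcon⟩, hN, hθ, hθ1, -⟩ b e hnear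
  replace hL := hL hθ0
  replace hPW := hPW hθ0
  obtain ⟨ε, hε⟩ : ∃ ε : ℝ, ε = min (θ / (4 * (N * (M + 4)) + 1))
    (1 / (64 * (N * (M + 4)) + 1)) := ⟨_, rfl⟩
  rw [← hε] at hL hPW
  have hε0 : 0 < ε := by rw [hε]; exact hεp N θ hθ0
  have hNN1 : N₁ ≤ N := (by rw [hN₀]; exact (le_max_left _ _).trans (le_max_left _ _) :
    N₁ ≤ N₀).trans hN
  have hNN2 : N₂ ≤ N := (by rw [hN₀]; exact (le_max_right _ _).trans (le_max_left _ _) :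
    N₂ ≤ N₀).trans hN
  have hNN3 : N₃ ≤ N := (by rw [hN₀]; exact (le_max_left _ _).trans (le_max_right _ _) :
    N₃ ≤ N₀).trans hN
  have hN1 : 1 ≤ N := (by rw [hN₀]; exact (le_max_right _ _).trans (le_max_right _ _) :
    1 ≤ N₀).trans hN
  have hNT : 4 * (T' + 2) ≤ N := hN₁.trans (by exact_mod_cast hNN1)
  have hNC : 8 * (Cy + 2) * (T' + 2) ≤ (N : ℝ) := hN₂.trans (by exact_mod_cast hNN2)
  have hNC' : 128 * ((((V + 4) * S₂ : ℕ) : ℝ) + 2) * (T' + 2) ≤ (N : ℝ) :=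
    hN₃.trans (by exact_mod_cast hNN3)
  have hεN : ε * (64 * (N * (M + 4))) ≤ 1 := by
    have h1 : ε ≤ 1 / (64 * (N * (M + 4)) + 1) := by rw [hε]; exact min_le_right _ _
    rw [le_div_iff₀ (by positivity)] at h1
    linarith only [h1, hε0]
  have hX := hL.pos
  have hζ'0 : 0 < 16 * θ * msh (Kt.X p) N M := by positivity
  have hζ'1 : 16 * θ * msh (Kt.X p) N M ≤ msh (Kt.X p) N M := by
    have h1 := mul_le_mul_of_nonneg_right hθ1 hζ0.le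
    linarith only [h1]
  have hεX : ε * Kt.X p ≤ 16 * θ * msh (Kt.X p) N M / 64 := by
    have h1 : ε ≤ θ / (4 * (N * (M + 4)) + 1) := by rw [hε]; exact min_le_left _ _
    rw [le_div_iff₀ (by positivity)] at h1
    have e1 : N * ((M + 4) * msh (Kt.X p) N M) = Kt.X p := msh_mul hN1
    have h2 : ε * (N * (M + 4)) ≤ θ / 4 := by linarith only [h1, hε0]
    have h3 := mul_le_mul_of_nonneg_right h2 hζ0.le
    have h4 : ε * (N * ((M + 4) * msh (Kt.X p) N M)) = ε * (N * (M + 4)) * msh (Kt.X p) N M := by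
      ring
    rw [e1] at h4
    linarith only [h3, h4]
  have hθx : θ * msh (Kt.X p) N M ≤ 16 * θ * msh (Kt.X p) N M / 16 := by
    linarith only
  obtain ⟨aT, wT, eT, β, K₁, hK₁, hgn, hchn⟩ := pcon
  obtain ⟨J₁, hJ₁⟩ := hnum b e hnear
  obtain ⟨J₂, hJ₂⟩ := con_num hL hl hN1 hNT hNC' hε0.le hεN hθ1 hnear psrt hgn κ
  obtain ⟨J₃, hJ₃⟩ := x_num hζ'0 κ
  -- the number of events
  obtain ⟨Nb, hNb⟩ : ∃ Nb : ℕ, Nb = 2 ^ ((l + 1) * (M + 1) ^ 2) * N' := ⟨_, rfl⟩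
  obtain ⟨η, hη⟩ : ∃ η : ℝ, η = 1 / (K₁ * (Nb + 1)) := ⟨_, rfl⟩
  have hη0 : 0 < η := by rw [hη]; positivity
  have hηK : η * (K₁ * (Nb + 1)) = 1 := by
    rw [hη]
    field_simp
  have hno : Bas S fun J F A => ∀ k < l, ∀ B : F.Ω → Prop, Sub B A → η * Pe F.p A ≤ Pe F.p B →
      ∀ i ≤ M, ∀ j ≤ M, ∀ μ : ℕ, up (16 * θ * msh (Kt.X p) N M) J ≤ μ →
      μ ≤ Cy * up (msh (Kt.X p) N M) J → ∀ (e' : ℕ) (g' : ℕ → ℕ),
      (∀ k' < k, g' k' ≤ ⌊b i j k' * J⌋₊ + 4 * μ + ⌊(0 : ℝ) * J⌋₊) →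
      ⌊b i j k * J⌋₊ + V * μ ≤ g' k →
      g' k ≤ J → ¬ ChN F (Kt.cs p) (k + 1) (fun _ => Kn)
        (up ((Kt.y p).1 + (Kt.y p).2) J + i * up (msh (Kt.X p) N M) J + 4 * μ)
        (up (Kt.y p).1 J + j * up (msh (Kt.X p) N M) J + 4 * μ) e' g' B :=
    Bas.all l fun k hk => Pool.LBK.Bas.ev (hL.no_sh (by omega) hN1 hNT hNC hζ'0 hζ'1 hεX
      hθx hnear (hP p) (hPW k hk) (yy := fun _ => 0) (fun _ _ => le_rfl)
      (fun _ _ => by positivity) (fun k' hk' a w h1 h2 h3 h4 => by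
        rw [add_zero]
        exact hLβ p k' (by omega) a w (by linarith only [hL.win, h1, hX])
          (by linarith only [hL.dep, h2, h3, hX]) (by linarith only [hL.top, h4, hX])) hV Kn) hη0
  obtain ⟨hpos, htm⟩ := hS
  have hp : Bas S (fun _ F A => 0 < Pe F.p A) := ⟨1, one_pos, 0, fun J _ F A hA => hpos 1 J F A hA⟩
  refine ⟨max 1 (K₁ * 2 ^ ((l + 1) * (M + 1) ^ 2)), le_max_left _ _, ?_⟩
  refine Bas.mono (max (max J₁ J₂) J₃) (Bas.and (Bas.and hchn hp) (Bas.and hno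
    (Pool.LBK.Bas.ev (htm (16 * θ * msh (Kt.X p) N M / 2) (by positivity)) hη0))) ?_
  rintro J hJ F A ⟨⟨⟨B, hBA, hPB, T, TH, hT⟩, hA⟩, hno, htm⟩ D hD
  obtain ⟨-, -, -, -, -, -, -, -, -, c10⟩ :=
    hJ₁ J (((le_max_left _ _).trans (le_max_left _ _)).trans hJ)
  obtain ⟨d1, d2, d3, d4, d5, d6, d7, d8, d9, d10, -, -, -⟩ :=
    hJ₂ J (((le_max_right _ _).trans (le_max_left _ _)).trans hJ)
  obtain ⟨d11, d12⟩ := hJ₃ J ((le_max_right _ _).trans hJ)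
  obtain ⟨x, hx⟩ : ∃ x, x = up (16 * θ * msh (Kt.X p) N M) J := ⟨_, rfl⟩
  have hxz : x ≤ up (msh (Kt.X p) N M) J := by
    rw [hx]
    exact up_mono' hζ'1 J
  obtain ⟨z, hz⟩ : ∃ z, z = up (msh (Kt.X p) N M) J := ⟨_, rfl⟩
  have hB0 : 0 < Pe F.p B := by
    by_contra h
    push Not at h
    have := mul_nonpos_of_nonneg_of_nonpos hK₁.le h
    linarith
  have hDB := (hD.sub hBA).1
  have hκB : ∀ B' : F.Ω → Prop, Sub B' B → Pe F.p B ≤ Nb * Pe F.p B' →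
      η * Pe F.p A ≤ Pe F.p B' := by
    intro B' _ h2
    have hB'0 : 0 ≤ Pe F.p B' := Pe_nonneg F.isLaw _
    have h3 : Pe F.p A ≤ K₁ * (Nb + 1) * Pe F.p B' := by
      calc Pe F.p A ≤ K₁ * Pe F.p B := hPB
        _ ≤ K₁ * (Nb * Pe F.p B') := mul_le_mul_of_nonneg_left h2 hK₁.le
        _ ≤ K₁ * ((Nb + 1) * Pe F.p B') := by
            refine mul_le_mul_of_nonneg_left ?_ hK₁.le
            linarith
        _ = _ := by ring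
    calc η * Pe F.p A ≤ η * (K₁ * (Nb + 1) * Pe F.p B') := mul_le_mul_of_nonneg_left h3 hη0.le
      _ = η * (K₁ * (Nb + 1)) * Pe F.p B' := by ring
      _ = Pe F.p B' := by rw [hηK, one_mul]
  rw [← hz] at d1 d2 d6 d7 d8 d9 d10 hxz
  rw [← hx] at d11 d12
  have htmN : TmN F Nb ⌈16 * θ * msh (Kt.X p) N M / 2 * J⌉₊ B :=
    Pool.CHT.tmN_of (fun B' h1 h2 h3 => htm B' h1 h2 h3) (Nat.le_ceil _) hBA hB0 hκB
  have hCyS : Cy * x ≤ S₂ * z := Nat.mul_le_mul hCy hxz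
  have hSx : S₂ * x ≤ S₂ * z := Nat.mul_le_mul_left _ hxz
  obtain ⟨B', UD, UL, k1, k2, k3⟩ := hfam (a₀ := up ((Kt.y p).1 + (Kt.y p).2) J)
    (w₀ := up (Kt.y p).1 J) (z := z) (x := x) (e₀ := ⌈16 * θ * msh (Kt.X p) N M / 2 * J⌉₊)
    (y₀ := ⌊Kt.X p / 16 * J⌋₊) (aT := ⌊aT * J⌋₊) (wT := ⌊wT * J⌋₊) (eT := ⌊eT * J⌋₊)
    (e := fun i j => ⌊e i j * J⌋₊) (g := fun i j l => ⌊b i j l * J⌋₊)
    (gT := fun l => ⌊β l * J⌋₊) (B := B) (T := T) (TH := TH) (by rw [hz]; exact hDB) (hinj p) d1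
    (by omega) d3 d4 hT (by rw [← hNb]; exact htmN) d11 d12 d5
    (fun i hi j hj k hk => ⟨hCyS.trans (d6 i hi j hj k hk).1, by
      have := (d6 i hi j hj k hk).2
      omega⟩)
    (fun i hi j hj k hk => ⟨hCyS.trans (d7 i hi j hj k hk).1, (d7 i hi j hj k hk).2⟩)
    (fun i hi j hj => ⟨(d8 i hi j hj).1, by
      have := (d8 i hi j hj).2
      omega⟩) (by
      have := d9 0 (Nat.zero_le _) 0 (Nat.zero_le _)
      omega)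
    (fun i hi j hj k hk μ hμ1 hμ2 B₂ hB₂ hPB₂ e' g' q1 q2 q3 => by
      have h1 : (V + 4) * μ ≤ (V + 4) * (S₂ * z) := Nat.mul_le_mul_left _ (hμ2.trans hCyS)
      rw [hx] at hμ1
      have hμ3 : μ ≤ Cy * z := hμ2.trans (Nat.mul_le_mul_left _ hxz)
      rw [hz] at hμ3 ⊢
      exact hno k hk B₂ (fun ω hω => hBA ω (hB₂ ω hω)) (hκB B₂ hB₂ (by
        rw [hNb]
        exact hPB₂)) i hi j hj μ hμ1 hμ3 e' g' (fun k' hk' => (q1 k' hk').trans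
          (Nat.le_add_right _ _)) q2 (by
        have := d10 i hi j hj k hk
        omega))
  refine ⟨B', fun ω hω => hBA ω (k1 ω hω), ?_, fun i j l => ⌊b i j l * J⌋₊, ⌊β l * J⌋₊ - S₂ * x,
    UD, UL, c10, fun i hi j hj => ?_, ?_⟩
  · have hB'0 : 0 ≤ Pe F.p B' := Pe_nonneg F.isLaw _
    calc Pe F.p A ≤ K₁ * Pe F.p B := hPB
      _ ≤ K₁ * (2 ^ ((l + 1) * (M + 1) ^ 2) * Pe F.p B') := mul_le_mul_of_nonneg_left k2 hK₁.le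
      _ = K₁ * 2 ^ ((l + 1) * (M + 1) ^ 2) * Pe F.p B' := by ring
      _ ≤ _ := mul_le_mul_of_nonneg_right (le_max_right _ _) hB'0
  · have := d9 i hi j hj
    omega
  · rw [← hz, ← hx]
    exact k3

end Pool.STAT
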