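import Pool.Agent.H78.MIC.ConI
import Pool.Agent.H7.MIC.Mix
import Pool.Agent.H40.MIC.Grd2N

/-!
# Thin labels of a grid with a label with gain

`gnC`: the label with gain of one coordinate; `gnC_ok`: the conditions. `co_chain`: the chain of a
new thin label, whose sides have lost `E ^ (k + 2) x` digits: `x` digits is the precision of the
relation between the label with gain and the labels of the grid.
-/

set_option autoImplicit false

namespace Pool.STAT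

open Finset MvPolynomial
open Pool.Agent.H49.Ent Pool.Agent.H32.Dense Pool.STK Pool.KA Pool.KSAT Pool.K2S Pool.PB Pool.S6C
open Pool.GEN Pool.CHT
open Pool.BFL (Pb)
open Pool.P4 (GnL NBT NewLabT UPt GvT HvT gvT chok_of_newT)
open CLO

/-- **The label with gain** of one coordinate. -/
noncomputable def gnC (D : NDat2) (l pr : ℕ) (UD : D.Ξ → PN) (UL : D.Λ × ℕ → PN) : GnL D :=
  ⟨fun u y => if u = l + 1 then UD y else 0, fun u s => if u = l + 1 then UL s else 0,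
    fun _ => pr⟩

section

variable {D : NDat2} {l pr : ℕ} {UD : D.Ξ → PN} {UL : D.Λ × ℕ → PN}

theorem gnC_UD (y : D.Ξ) : (gnC D l pr UD UL).UD (l + 1) y = UD y := if_pos rfl

theorem gnC_UL (s : D.Λ × ℕ) : (gnC D l pr UD UL).UL (l + 1) s = UL s := if_pos rfl

/-- The conditions for the label with gain. -/
theorem gnC_ok {n K J a₀ w₀ z M Q : ℕ} {C₁ : ℝ} {q : D.Ω → ℝ}
    (dD : ∀ x, (UD x).totalDegree ≤ K) (dL : ∀ x, (UL x).totalDegree ≤ K)
    (vD : ∀ x, (UD x).vars ⊆ range (l + 1)) (vL : ∀ x, (UL x).vars ⊆ range (l + 1))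
    (deep : ∀ i ≤ M, ∀ j ≤ M, D.g i j (l + 1) + Q * z ≤ pr)
    (own : ∀ ω, 0 < q ω → |D.X ω (l + 1) - eval (D.X ω) (UD (D.pt ω))| ≤ 1 / 2 ^ pr)
    (two : ∀ i ≤ M, ∀ j ≤ M, ∀ ω, 0 < q ω → ∀ b : ℕ → ℝ, D.NB i j (a₀ + i * z) (l + 1) ω b →
      |eval b (UD (D.pt ω)) - eval b (UL (D.wn J w₀ ω))| ≤ 1 / 2 ^ pr ∧
      |eval b (UD (D.pt ω)) - eval b (D.Ψ i j ω (l + 1))| ≤
        Real.exp (C₁ * z) / 2 ^ D.g i j (l + 1)) :
    (gnC D l pr UD UL).Ok n K J a₀ w₀ z M Q (fun u => u ≠ l + 1) C₁ q where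
  degD u x := by
    show (if u = l + 1 then UD x else 0).totalDegree ≤ K
    split_ifs with h
    · exact dD x
    · rw [totalDegree_zero]
      exact Nat.zero_le _
  degL u x := by
    show (if u = l + 1 then UL x else 0).totalDegree ≤ K
    split_ifs with h
    · exact dL x
    · rw [totalDegree_zero]
      exact Nat.zero_le _
  varD u x := by
    show (if u = l + 1 then UD x else 0).vars ⊆ range u
    split_ifs with h
    · rw [h]
      exact vD x
    · rw [vars_0]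
      exact Finset.empty_subset _
  varL u x := by
    show (if u = l + 1 then UL x else 0).vars ⊆ range u
    split_ifs with h
    · rw [h]
      exact vL x
    · rw [vars_0]
      exact Finset.empty_subset _
  deep u _ _ h i hi j hj := by
    obtain rfl : u = l + 1 := not_not.1 h
    exact deep i hi j hj
  own u _ _ h ω hω := by
    obtain rfl : u = l + 1 := not_not.1 h
    rw [gnC_UD]
    exact own ω hω
  two u _ _ h i hi j hj ω hω b hb := by
    obtain rfl : u = l + 1 := not_not.1 h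
    rw [gnC_UD, gnC_UL]
    exact (two i hi j hj ω hω b hb).1
  near u _ _ h i hi j hj ω hω b hb := by
    obtain rfl : u = l + 1 := not_not.1 h
    rw [gnC_UD]
    exact (two i hi j hj ω hω b hb).2

end

/-- The conditions for a larger degree. -/
theorem cnd2_monoK {m J n : ℕ} {F : Fam m J} {C : CDat2 F n} {X : F.Ω → ℕ → ℝ}
    {pa : Ln2 F → ℕ → Polynomial ℝ} {K K' a₀ w₀ z M : ℕ} {g : ℕ → ℕ → ℕ → ℕ} {A : F.Ω → Prop}
    (h : C.Cnd2 X pa K a₀ w₀ z M g A) (hK : K ≤ K') : C.Cnd2 X pa K' a₀ w₀ z M g A where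
  X_zero := h.X_zero
  X_pt := h.X_pt
  str := h.str
  pa_deg x l := (h.pa_deg x l).trans hK
  Pdeg i hi j hj x l h1 h2 := (h.Pdeg i hi j hj x l h1 h2).trans hK
  Ptri := h.Ptri
  Gdeg i hi j hj x l h1 h2 := (h.Gdeg i hi j hj x l h1 h2).trans hK
  Gtri := h.Gtri
  s_c := h.s_c
  hgt := h.hgt
  pos := h.pos
  agr := h.agr

section

variable {m J : ℕ} {F : Fam m J}

/-- The data at one point of the grid. -/
def CLO.GDat.atP (D : GDat F) (i j : ℕ) : GDat F where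
  G _ _ := D.G i j
  H _ _ := D.H i j
  zL _ _ := D.zL i j
  PL _ _ := D.PL i j
  zS _ _ := D.zS i j
  zS' _ _ := D.zS' i j
  PS _ _ := D.PS i j

theorem CLO.GDat.Ok.atP {D : GDat F} {c : ℕ → Fin m} {n K K' s₁ : ℕ} {sh : ℕ → ℕ}
    {a₀ w₀ z M : ℕ} {e : ℕ → ℕ → ℕ} {g : ℕ → ℕ → ℕ → ℕ} {B : F.Ω → Prop}
    (h : D.Ok c n K K' s₁ sh a₀ w₀ z M e g B) {i j : ℕ} (hi : i ≤ M) (hj : j ≤ M) (x : ℕ) :
    (D.atP i j).Ok c n K K' s₁ sh (a₀ + i * z) (w₀ + j * z) x 0 (fun _ _ => e i j)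
      (fun _ _ => g i j) B where
  chn i' hi' j' hj' := by
    obtain rfl : i' = 0 := by omega
    obtain rfl : j' = 0 := by omega
    rw [Nat.zero_mul, Nat.add_zero, Nat.add_zero]
    exact h.chn i hi j hj
  out i' hi' j' hj' := by
    obtain rfl : i' = 0 := by omega
    obtain rfl : j' = 0 := by omega
    rw [Nat.zero_mul, Nat.add_zero, Nat.add_zero]
    exact h.out i hi j hj

end

/-- **The chain of a new thin label.** -/
theorem co_chain (n K' K₂ K'' S₂ : ℕ) (hK' : 1 ≤ K') : ∃ E : ℕ, 1 ≤ E ∧ ∀ {m J : ℕ}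
    {F : Fam m J} {D : GDat F} {c : ℕ → Fin m} {K s₁ : ℕ} {sh : ℕ → ℕ} {a₀ w₀ z x M : ℕ}
    {e : ℕ → ℕ → ℕ} {g gC : ℕ → ℕ → ℕ → ℕ} {B : F.Ω → Prop} {R : ℕ → ℕ → Type}
    (ρ : (i j : ℕ) → LnT F → R i j) {l₀ pr : ℕ} {UD : Pt2 F → PN} {UL : Ln2 F × ℕ → PN}
    {Q Q' i j l A : ℕ} {η' : ℝ} {q : F.Ω → ℝ},
    D.Ok c n K K' s₁ sh a₀ w₀ z M e g B →
    CoL D c l₀ K₂ a₀ w₀ z x M S₂ gC pr UD UL B → (∀ ω, 0 ≤ q ω) → (∀ ω, 0 < q ω → B ω) →
    1 ≤ x → i ≤ M → j ≤ M → w₀ + j * z ≤ J → l < n → l₀ < n → l ≠ l₀ → Q * z ≤ Q' * x →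
    (∀ k < l₀, gC i j k ≤ g i j k - sh (k + 1) + 3 * x) →
    g i j l₀ - sh (l₀ + 1) ≤ gC i j l₀ + x → g i j l₀ - sh (l₀ + 1) + Q' * x ≤ pr →
    (∀ k, 1 ≤ k → k ≤ l + 1 → E ^ (n + 1) * x ≤ g i j (k - 1) - sh k) →
    NewLabT (D.nd c n sh w₀ z M g ρ) (gnC (D.nd c n sh w₀ z M g ρ) l₀ pr UD UL) J a₀ w₀ z Q
      (fun u => u ≠ l₀ + 1) i j (l + 1) A K'' η' q →
    ∃ (B' : F.Ω → Prop) (e' : ℕ), Sub B' B ∧ η' ≤ Pb q B' ∧
      ChN F c (l + 1) (fun _ => max (max K' K₂) K'') (a₀ + i * z) (w₀ + j * z) e'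
        (gvT (fun _ _ k => g i j (k - 1) - sh k) (fun u => u ≠ l₀ + 1) x Q' 0 0 l
          (g i j l - sh (l + 1) + A * z) E) B' := by
  classical
  obtain ⟨E, hE, key⟩ := chok_of_newT n (max K' K₂) K'' ((S₂ : ℝ) + 1)
  refine ⟨E, hE, ?_⟩
  intro m J F D c K s₁ sh a₀ w₀ z x M e g gC B R ρ l₀ pr UD UL Q Q' i j l A η' q hD hC hq0 hqB hx
    hi hj hwJ hl hl₀ hll hQ hbx hnr hpr hbig hN
  obtain ⟨D', hD'⟩ : ∃ D' : NDat2, D' = D.nd c n sh w₀ z M g ρ := ⟨_, rfl⟩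
  -- the cell at the point of the grid
  obtain ⟨C', hC'⟩ : ∃ C' : CDat2 F n, C' = (D.atP i j).cd n fun _ _ _ => PUnit.unit := ⟨_, rfl⟩
  have hcnd : C'.Cnd2 (cx F fun i => c (i - 1)) (pc c) K' (a₀ + i * z) (w₀ + j * z) x 0
      (fun _ _ k => g i j (k - 1) - sh k) B := by
    rw [hC']
    exact (hD.atP hi hj x).cnd hK' _
  have hcnd' := cnd2_monoK hcnd (le_max_left K' K₂)
  obtain ⟨U', hU'⟩ : ∃ U' : GnL (C'.nd2 (cx F fun i => c (i - 1)) (pc c) (w₀ + j * z) x 0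
      (fun _ _ k => g i j (k - 1) - sh k)), U' = gnC _ l₀ pr UD (fun s : Ln2 F × ℕ =>
        UL ((s.1.1, s.1.2.1, s.1.2.2 / 2 ^ (w₀ + j * z - w₀)),
          s.2 / 2 ^ (w₀ + j * z - w₀))) :=
    ⟨_, rfl⟩
  have hw0J : w₀ ≤ w₀ + j * z := Nat.le_add_right _ _
  have hslm : ∀ ω, (((slam F (w₀ + j * z) ω).1, (slam F (w₀ + j * z) ω).2.1,
      (slam F (w₀ + j * z) ω).2.2 / 2 ^ (w₀ + j * z - w₀)) : Ln2 F) = slam F w₀ ω :=
    fun ω => (slam_coarse F hw0J hwJ ω).symm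
  have hT1 : ∀ ω, F.T1 (w₀ + j * z) ω / 2 ^ (w₀ + j * z - w₀) = F.T1 w₀ ω := by
    intro ω
    unfold Fam.T1
    rw [Nat.div_div_eq_div_mul, ← pow_add]
    congr 2
    omega
  have hPs : ∀ ω k, 1 ≤ k → k ≤ n → C'.Ps2 0 0 ω k = D.PS i j (D.zS i j (ptr F J ω)) k := by
    intro ω k _ _
    rw [hC']
    rfl
  have hUD : ∀ ω, U'.UD (l₀ + 1) (ptr F J ω) = UD (ptr F J ω) := fun ω => by
    rw [hU']
    exact if_pos rfl
  have hUL : ∀ ω, U'.UL (l₀ + 1) (slam F (w₀ + j * z) ω, F.T1 (w₀ + j * z) ω) =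
      UL (slam F w₀ ω, F.T1 w₀ ω) := by
    intro ω
    rw [hU']
    show (if l₀ + 1 = l₀ + 1 then UL ((_, _, _), _) else 0) = _
    rw [if_pos rfl, hslm ω, hT1 ω]
  have e00 : a₀ + i * z + 0 * x = a₀ + i * z := by rw [Nat.zero_mul, Nat.add_zero]
  have w00 : w₀ + j * z + 0 * x = w₀ + j * z := by rw [Nat.zero_mul, Nat.add_zero]
  have h2x : (1 : ℝ) ≤ 2 ^ (3 * x) := one_le_pow₀ (by norm_num)
  -- the two facts on the boxes
  have htwo : ∀ ω, B ω → ∀ b : ℕ → ℝ, C'.Nb2 (cx F fun i => c (i - 1))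
      (fun _ _ k => g i j (k - 1) - sh k) 0 0 (a₀ + i * z + 0 * x) (l₀ + 1) ω b →
      |eval b (UD (ptr F J ω)) - eval b (UL (slam F w₀ ω, F.T1 w₀ ω))| ≤ 1 / 2 ^ pr ∧
      |eval b (UD (ptr F J ω)) - eval b (D.PS i j (D.zS i j (ptr F J ω)) (l₀ + 1))| ≤
        2 ^ (S₂ * x) / 2 ^ gC i j l₀ := by
    intro ω hω b hb
    refine hC.two i hi j hj ω hω b ?_ fun u u1 u2 => ?_
    · have h1 := hb.1
      rw [e00, hcnd.X_zero] at h1
      exact h1
    · have h1 := hb.2 u u1 (by omega)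
      rw [hPs ω u u1 (by omega)] at h1
      refine h1.trans ?_
      rw [div_le_div_iff₀ (by positivity) (by positivity), one_mul, ← pow_add]
      refine pow_le_pow_right₀ (by norm_num) ?_
      have h2 := hbx (u - 1) (by omega)
      have h3 : u - 1 + 1 = u := by omega
      rw [h3] at h2
      beta_reduce
      omega
  have hUPt : ∀ ω, B ω → UPt C' U' (fun u => u ≠ l₀ + 1) J (a₀ + i * z) 0 0 Q' l
      ((S₂ : ℝ) + 1) ω := by
    intro ω hω
    refine ⟨fun k _ _ hR => ?_, fun k _ _ hR b hb => ?_, fun k _ _ hR b hb => ?_⟩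
    · obtain rfl : k = l₀ + 1 := not_not.1 hR
      rw [hUD ω]
      have h1 := hC.own ω hω
      have h2 : (cx F (fun i => c (i - 1)) ω (l₀ + 1) : ℝ) = F.x ω (c l₀) := if_neg (by omega)
      rw [h2]
      exact h1.trans (inv_mono (by
        show g i j (l₀ + 1 - 1) - sh (l₀ + 1) + Q' * x ≤ pr
        rw [Nat.add_sub_cancel]
        exact hpr))
    · obtain rfl : k = l₀ + 1 := not_not.1 hR
      rw [hUD ω, hUL ω]
      exact (htwo ω hω b hb).1.trans (inv_mono (by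
        show g i j (l₀ + 1 - 1) - sh (l₀ + 1) + Q' * x ≤ pr
        rw [Nat.add_sub_cancel]
        exact hpr))
    · obtain rfl : k = l₀ + 1 := not_not.1 hR
      rw [hUD ω, hPs ω (l₀ + 1) (by omega) (by omega)]
      refine (htwo ω hω b hb).2.trans ?_
      have h1 : (2 : ℝ) ^ (S₂ * x) / 2 ^ gC i j l₀ ≤
          2 ^ ((S₂ + 1) * x) / 2 ^ (g i j l₀ - sh (l₀ + 1)) := by
        rw [div_le_div_iff₀ (by positivity) (by positivity), ← pow_add, ← pow_add]
        refine pow_le_pow_right₀ (by norm_num) ?_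
        have : (S₂ + 1) * x = S₂ * x + x := by ring
        omega
      refine h1.trans ?_
      show _ ≤ Real.exp ((↑S₂ + 1) * ↑x) / 2 ^ (g i j (l₀ + 1 - 1) - sh (l₀ + 1))
      rw [Nat.add_sub_cancel]
      refine div_le_div_of_nonneg_right ?_ (by positivity)
      have h2 : (2 : ℝ) ≤ Real.exp 1 := by
        have := Real.add_one_le_exp (1 : ℝ)
        linarith
      calc (2 : ℝ) ^ ((S₂ + 1) * x) ≤ Real.exp 1 ^ ((S₂ + 1) * x) :=
            pow_le_pow_left₀ (by norm_num) h2 _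
        _ = Real.exp ((S₂ + 1) * x) := by
            rw [← Real.exp_nat_mul]
            push_cast
            ring_nf
  -- the new label
  obtain ⟨Gn, Hn, hGn, hHn, hP⟩ := hN
  have e1 : (D.nd c n sh w₀ z M g ρ).g i j (l + 1) = g i j l - sh (l + 1) := by
    have := CDat2.nd2_g (D.cd n ρ) (cx F fun i => c (i - 1)) (pc c) w₀ z M
      (fun i j l => g i j (l - 1) - sh l) (i := i) (j := j) (l := l + 1) (by omega)
    exact this
  rw [e1] at hP
  obtain ⟨B', hB'⟩ : ∃ B' : F.Ω → Prop, B' = fun ω => 0 < q ω ∧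
      |cx F (fun i => c (i - 1)) ω (l + 1) - eval (cx F (fun i => c (i - 1)) ω)
        (Gn (ptr F J ω))| ≤ 1 / 2 ^ (g i j l - sh (l + 1) + A * z) ∧ ∀ b : ℕ → ℝ,
        NBT (D.nd c n sh w₀ z M g ρ) (gnC (D.nd c n sh w₀ z M g ρ) l₀ pr UD UL) z Q
          (fun u => u ≠ l₀ + 1) i j (a₀ + i * z) (l + 1) ω b →
        |eval b (Gn (ptr F J ω)) - eval b (Hn (slam F w₀ ω, F.T1 (w₀ + j * z) ω))| ≤
          1 / 2 ^ (g i j l - sh (l + 1) + A * z) := ⟨_, rfl⟩
  have hB2 : ∀ ω, B' ω → 0 < q ω ∧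
      |cx F (fun i => c (i - 1)) ω (l + 1) - eval (cx F (fun i => c (i - 1)) ω)
        (Gn (ptr F J ω))| ≤ 1 / 2 ^ (g i j l - sh (l + 1) + A * z) ∧ ∀ b : ℕ → ℝ,
        NBT (D.nd c n sh w₀ z M g ρ) (gnC (D.nd c n sh w₀ z M g ρ) l₀ pr UD UL) z Q
          (fun u => u ≠ l₀ + 1) i j (a₀ + i * z) (l + 1) ω b →
        |eval b (Gn (ptr F J ω)) - eval b (Hn (slam F w₀ ω, F.T1 (w₀ + j * z) ω))| ≤
          1 / 2 ^ (g i j l - sh (l + 1) + A * z) := fun ω h => by rw [hB'] at h; exact h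
  have hBB : ∀ ω, B' ω → B ω := fun ω h => hqB ω (hB2 ω h).1
  obtain ⟨e', he'⟩ := key (a₀ := a₀ + i * z) (w₀ := w₀ + j * z) (z := x) (M := 0) (Q := Q')
    (R := fun u => u ≠ l₀ + 1) (A := B) U' hcnd' c (fun ω _ k _ => if_neg (by omega)) hx (i := 0)
    (j := 0) (l := l) (P := g i j l - sh (l + 1) + A * z) le_rfl le_rfl (by rw [w00]; exact hwJ)
    hl
    (fun k y => by
      rw [hU']
      show (if k = l₀ + 1 then UD y else 0).totalDegree ≤ _
      split_ifs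
      · exact (hC.dD y).trans (le_max_right _ _)
      · rw [totalDegree_zero]
        exact Nat.zero_le _)
    (fun k y => by
      rw [hU']
      show (if k = l₀ + 1 then UL _ else 0).totalDegree ≤ _
      split_ifs
      · exact (hC.dL _).trans (le_max_right _ _)
      · rw [totalDegree_zero]
        exact Nat.zero_le _)
    (fun k y => by
      rw [hU']
      show (if k = l₀ + 1 then UD y else 0).vars ⊆ _
      split_ifs with h
      · rw [h]
        exact hC.vD y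
      · rw [vars_0]
        exact Finset.empty_subset _)
    (fun k y => by
      rw [hU']
      show (if k = l₀ + 1 then UL _ else 0).vars ⊆ _
      split_ifs with h
      · rw [h]
        exact hC.vL _
      · rw [vars_0]
        exact Finset.empty_subset _)
    (Gn := Gn) (Hn := fun s => Hn ((s.1.1, s.1.2.1, s.1.2.2 / 2 ^ (w₀ + j * z - w₀)), s.2))
    hGn (fun s => hHn _) (B := B') hBB (fun ω h => hUPt ω (hBB ω h))
    (fun ω h => (hB2 ω h).2.1)
    (fun ω h b hb => by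
      show |eval b (Gn (ptr F J ω)) - eval b (Hn ((_, _, _), F.T1 (w₀ + j * z + 0 * x) ω))| ≤ _
      rw [hslm ω, w00]
      refine (hB2 ω h).2.2 b ⟨?_, fun u u1 u2 => ⟨fun hR => ?_, fun hR => ?_⟩⟩
      · have h1 := hb.1
        rw [e00] at h1
        exact h1
      · have h1 := (hb.2 u u1 u2).1 hR
        rw [CDat2.nd2_Ψ C' _ _ _ _ _ _ le_rfl le_rfl u1 (by omega),
          CDat2.nd2_g C' _ _ _ _ _ _ u1, hPs ω u u1 (by omega)] at h1
        have e2 : (D.nd c n sh w₀ z M g ρ).g i j u = g i j (u - 1) - sh u :=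
          CDat2.nd2_g (D.cd n ρ) (cx F fun i => c (i - 1)) (pc c) w₀ z M
            (fun i j l => g i j (l - 1) - sh l) u1
        have e3 : (D.nd c n sh w₀ z M g ρ).Ψ i j ω u = D.PS i j (D.zS i j (ptr F J ω)) u :=
          CDat2.nd2_Ψ (D.cd n ρ) (cx F fun i => c (i - 1)) (pc c) w₀ z M
            (fun i j l => g i j (l - 1) - sh l) hi hj u1 (by omega) ω
        rw [e2, e3]
        exact h1
      · have h1 := (hb.2 u u1 u2).2 hR
        obtain rfl : u = l₀ + 1 := not_not.1 hR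
        have h2 : U'.UD (l₀ + 1) ((C'.nd2 (cx F fun i => c (i - 1)) (pc c) (w₀ + j * z) x 0
            fun _ _ k => g i j (k - 1) - sh k).pt ω) = UD (ptr F J ω) := hUD ω
        rw [h2, CDat2.nd2_g C' _ _ _ _ _ _ u1] at h1
        have e2 : (D.nd c n sh w₀ z M g ρ).g i j (l₀ + 1) = g i j (l₀ + 1 - 1) - sh (l₀ + 1) :=
          CDat2.nd2_g (D.cd n ρ) (cx F fun i => c (i - 1)) (pc c) w₀ z M
            (fun i j l => g i j (l - 1) - sh l) u1
        have h3 : (gnC (D.nd c n sh w₀ z M g ρ) l₀ pr UD UL).UD (l₀ + 1)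
            ((D.nd c n sh w₀ z M g ρ).pt ω) = UD (ptr F J ω) := if_pos rfl
        rw [e2, h3]
        exact h1.trans (inv_mono (Nat.add_le_add_left hQ _)))
    (fun k k1 k2 => hbig k k1 (by omega))
    (((hbig (l + 1) (by omega) le_rfl).trans (by rw [Nat.add_sub_cancel])).trans
      (Nat.le_add_right _ _))
  rw [e00, w00] at he'
  refine ⟨B', e', hBB, hP.trans ?_, _, _, he'⟩
  unfold Pb
  change ∑ ω : F.Ω, _ ≤ _
  refine Finset.sum_le_sum fun ω _ => ?_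
  rcases (hq0 ω).eq_or_lt with h0 | h0
  · rw [← h0]
    simp
  · split_ifs with h1 h2
    · exact le_rfl
    · refine absurd ?_ h2
      rw [hB']
      exact ⟨h0, h1.1, fun b hb => h1.2 b hb⟩
    · exact h0.le
    · exact le_rfl

end Pool.STAT
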