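import Pool.Agent.H78.MIC.ConK
import Pool.Agent.H78.MIC.ConL
import Pool.Agent.H78.MIC.ExtF

/-!
# The joint property of the cells with a label with gain

`co_num`: the numbers. `ext_C`: the joint property of P4 for the cells of a kit whose labels have a
label with gain of one coordinate: thin labels are chains with a thin side in the direction of this
coordinate.
-/

set_option autoImplicit false

namespace Pool.STAT

open Finset MvPolynomial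
open Pool.Agent.H49.Ent Pool.Agent.H32.Dense Pool.STK Pool.KS3 Pool.KA Pool.KSAT Pool.PB Pool.GEN
open Pool.K2S Pool.S6C
open Pool.CHT (bet TmH)
open Pool.CHB (chsysB)
open Pool.LBT (ThrOf)
open Pool.LEV (Law)
open Pool.STR (Affn Nw)
open Pool.RLV (TmN)
open Pool.BFL (Pb)
open Pool.P4 (GnL NBT NewLabT NFc1 gvT)
open Pool.STAT.CLO

variable {Θ : Type*} {I : ℝ → Θ → Prop} {m n₀ : ℕ}

/-- **The numbers** for thin labels. -/
theorem co_num {n V N M Q Ee Sm : ℕ} {L : ℕ → ℝ → ℝ → ℝ} {ε T θ : ℝ} {y : ℝ × ℝ} {X : ℝ}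
    {la mu : ℕ → ℝ} (h : CellL n L ε T y X la mu) (hN : 1 ≤ N) (hNQ : 64 * (2 * Q + 3) ≤ N)
    (hθ0 : 0 < θ) (hθ : θ ≤ 1 / 16) (hθE : 512 * (Ee : ℝ) * θ ≤ 1)
    {b : ℕ → ℕ → ℕ → ℝ} {e : ℕ → ℕ → ℝ} (hb : NearE n L y X N M θ b e) :
    ∃ Q' J₁ : ℕ, ∀ J ≥ J₁, 1 ≤ J ∧ 1 ≤ up (16 * θ * msh X N M) J ∧
      up (16 * θ * msh X N M) J ≤ up (msh X N M) J ∧
      up (msh X N M / (8 * (V + 1))) J ≤ up (msh X N M) J ∧
      up y.1 J + M * up (msh X N M) J + 4 * up (msh X N M) J ≤ J ∧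
      Q * up (msh X N M) J ≤ Q' * up (16 * θ * msh X N M) J ∧
      Q' * up (16 * θ * msh X N M) J ≤ ⌊X / 64 * J⌋₊ ∧
      Q * up (msh X N M) J ≤ ⌊X / 64 * J⌋₊ ∧
      ⌈θ * up (msh X N M) J⌉₊ + 1 + Sm ≤ up (16 * θ * msh X N M) J ∧
      V * up (msh X N M / (8 * (V + 1))) J + Sm + Ee * up (16 * θ * msh X N M) J ≤
        up (msh X N M) J ∧
      ∀ i ≤ M, ∀ j ≤ M, ∀ k < n,
        Ee * up (16 * θ * msh X N M) J + Sm ≤ ⌊b i j k * J⌋₊ ∧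
        ⌊b i j k * J⌋₊ + up (msh X N M) J ≤ J := by
  have hX := h.pos
  have hN1 : (1 : ℝ) ≤ N := by exact_mod_cast hN
  have hNQ' : 64 * (2 * (Q : ℝ) + 3) ≤ N := by exact_mod_cast hNQ
  have hM0 : (0 : ℝ) ≤ M := Nat.cast_nonneg M
  have hQ0 : (0 : ℝ) ≤ Q := Nat.cast_nonneg Q
  have hV0 : (0 : ℝ) ≤ V := Nat.cast_nonneg V
  have hE0 : (0 : ℝ) ≤ Ee := Nat.cast_nonneg Ee
  have hS0 : (0 : ℝ) ≤ Sm := Nat.cast_nonneg Sm
  obtain ⟨ζ, hζ⟩ : ∃ ζ, ζ = msh X N M := ⟨_, rfl⟩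
  have hζ0 : 0 < ζ := by rw [hζ]; exact msh_pos hX hN
  have e1 : N * ((M + 4) * ζ) = X := by rw [hζ]; exact msh_mul hN
  rw [← hζ]
  have hQX : 256 * ((2 * Q + 3) * ζ) + 64 * (M * ζ) ≤ X := by
    have h1 : 64 * (2 * (Q : ℝ) + 3) * ((M + 4) * ζ) ≤ N * ((M + 4) * ζ) :=
      mul_le_mul_of_nonneg_right hNQ' (by positivity)
    have h2 : 0 ≤ (2 * (Q : ℝ) + 2) * (M * ζ) := by positivity
    linarith only [h1, h2, e1]
  have hζX : 256 * ζ + 64 * (M * ζ) ≤ X := by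
    have : 0 ≤ (Q : ℝ) * ζ := by positivity
    linarith only [hQX, this, hζ0]
  have hdep := h.dep
  have hwin := h.win
  have htop := h.top
  have hθζ : θ * ζ ≤ ζ / 16 := by
    have := mul_le_mul_of_nonneg_right hθ hζ0.le
    linarith only [this]
  have hθζ0 : 0 < θ * ζ := mul_pos hθ0 hζ0
  -- the levels
  have hbX : ∀ i ≤ M, ∀ j ≤ M, ∀ k < n, X ≤ b i j k := by
    intro i hi j hj k hk
    have hi' : (i : ℝ) ≤ M := by exact_mod_cast hi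
    have hj' : (j : ℝ) ≤ M := by exact_mod_cast hj
    have hi0 : (0 : ℝ) ≤ i := Nat.cast_nonneg i
    have hj0 : (0 : ℝ) ≤ j := Nat.cast_nonneg j
    have iζ : (i : ℝ) * ζ ≤ M * ζ := mul_le_mul_of_nonneg_right hi' hζ0.le
    have jζ : (j : ℝ) * ζ ≤ M * ζ := mul_le_mul_of_nonneg_right hj' hζ0.le
    have iζ0 : 0 ≤ (i : ℝ) * ζ := by positivity
    have jζ0 : 0 ≤ (j : ℝ) * ζ := by positivity
    have h1 := hb.lo i hi j hj k hk
    rw [← hζ] at h1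
    have h2 := h.low k hk (y.1 + y.2 + i * ζ) (y.1 + j * ζ) (by linarith only [hwin, hX, jζ0])
      (by linarith only [hdep, hζX, jζ, iζ0, hζ0, hX]) (by
        linarith only [htop, hζX, iζ, hζ0, hX])
    linarith only [h1, h2, hdep, hwin, iζ0, hθζ, hζX, hζ0, mul_nonneg hM0 hζ0.le]
  -- the number of thin digits
  obtain ⟨Q', hQ'⟩ : ∃ Q' : ℕ, Q' = ⌈(Q : ℝ) / (8 * θ)⌉₊ := ⟨_, rfl⟩
  have q1 : (Q : ℝ) / (8 * θ) ≤ Q' := by rw [hQ']; exact Nat.le_ceil _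
  have q2 : (Q' : ℝ) ≤ (Q : ℝ) / (8 * θ) + 1 := by
    rw [hQ']
    exact (Nat.ceil_lt_add_one (by positivity)).le
  have q3 : (Q : ℝ) / (8 * θ) * (16 * θ * ζ) = 2 * (Q * ζ) := by
    field_simp
    ring
  obtain ⟨Cc, hCc⟩ : ∃ Cc : ℝ, Cc = (Q : ℝ) / (8 * θ) + Q + V + Ee + Sm + M + 8 := ⟨_, rfl⟩
  have hd0 : 0 ≤ (Q : ℝ) / (8 * θ) := by positivity
  obtain ⟨J₁, hJ₁⟩ := exists_nat_ge (4 * Cc / (θ * ζ))
  refine ⟨Q', max J₁ 1, fun J hJ => ?_⟩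
  have j1 : 4 * Cc ≤ J * (θ * ζ) := by
    have := hJ₁.trans (show (J₁ : ℝ) ≤ J by exact_mod_cast (le_max_left _ _).trans hJ)
    rwa [div_le_iff₀ hθζ0] at this
  have j4 : 1 ≤ J := (le_max_right _ _).trans hJ
  have hJ0 : (0 : ℝ) < J := by exact_mod_cast j4
  obtain ⟨Y, hY⟩ : ∃ Y, Y = ζ * J := ⟨_, rfl⟩
  have hY0 : 0 < Y := by rw [hY]; positivity
  have hθY : 4 * Cc ≤ θ * Y := by
    rw [hY]
    linarith only [j1]
  have hθY' : θ * Y ≤ Y / 16 := by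
    have := mul_le_mul_of_nonneg_right hθ hY0.le
    linarith only [this]
  obtain ⟨z, hz⟩ : ∃ z, z = up ζ J := ⟨_, rfl⟩
  obtain ⟨x, hx⟩ : ∃ x, x = up (16 * θ * ζ) J := ⟨_, rfl⟩
  obtain ⟨μ, hμ⟩ : ∃ μ, μ = up (ζ / (8 * (V + 1))) J := ⟨_, rfl⟩
  rw [← hz, ← hx, ← hμ]
  have z1 : Y ≤ z := by rw [hz, hY]; exact up_ge ζ J
  have z2 : (z : ℝ) ≤ Y + 1 := by rw [hz, hY]; exact up_le hζ0.le J
  have x1 : 16 * (θ * Y) ≤ x := by
    have := up_ge (16 * θ * ζ) J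
    rw [hx, hY]
    linarith only [this]
  have x2 : (x : ℝ) ≤ 16 * (θ * Y) + 1 := by
    have := up_le (show 0 ≤ 16 * θ * ζ by positivity) J
    rw [hx, hY]
    linarith only [this]
  have μ2 : (μ : ℝ) * (8 * (V + 1)) ≤ Y + 8 * (V + 1) := by
    have h1 := up_le (show 0 ≤ ζ / (8 * ((V : ℝ) + 1)) by positivity) J
    rw [← hμ] at h1
    have h2 := mul_le_mul_of_nonneg_right h1 (show 0 ≤ 8 * ((V : ℝ) + 1) by positivity)
    have h3 : (ζ / (8 * ((V : ℝ) + 1)) * J + 1) * (8 * (V + 1)) = ζ * J + 8 * (V + 1) := by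
      field_simp
    rw [h3, ← hY] at h2
    exact h2
  have hXY : 256 * ((2 * Q + 3) * Y) + 64 * (M * Y) ≤ X * J := by
    have := mul_le_mul_of_nonneg_right hQX hJ0.le
    rw [hY]
    linarith only [this]
  have hQY : 0 ≤ (Q : ℝ) * Y := by positivity
  have hMY : 0 ≤ (M : ℝ) * Y := by positivity
  have q4 : (Q : ℝ) / (8 * θ) * (16 * (θ * Y)) = 2 * (Q * Y) := by
    rw [hY]
    have : (Q : ℝ) / (8 * θ) * (16 * (θ * (ζ * J))) = (Q : ℝ) / (8 * θ) * (16 * θ * ζ) * J := by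
      ring
    rw [this, q3]
    ring
  have hX64 : X / 64 * J = X * J / 64 := by ring
  have hQz : (Q : ℝ) * z ≤ 2 * (Q * Y) := by
    have h1 := mul_le_mul_of_nonneg_left z2 hQ0
    have h2 : (Q : ℝ) * 1 ≤ Q * Y := mul_le_mul_of_nonneg_left
      (by linarith only [hθY, hθY', hCc, hd0, hQ0, hV0, hE0, hS0, hM0]) hQ0
    linarith only [h1, h2]
  have hQx : (Q' : ℝ) * x ≤ X * J / 64 := by
    have h1 : (Q' : ℝ) * x ≤ ((Q : ℝ) / (8 * θ) + 1) * (16 * (θ * Y) + 1) :=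
      mul_le_mul q2 x2 (Nat.cast_nonneg x) (by positivity)
    have h2 : ((Q : ℝ) / (8 * θ) + 1) * (16 * (θ * Y) + 1) = 2 * (Q * Y) + 16 * (θ * Y) +
        Q / (8 * θ) + 1 := by
      linear_combination q4
    linarith only [h1, h2, hXY, hθY, hθY', hCc, hd0, hQ0, hV0, hE0, hS0, hM0, hQY, hMY, hY0]
  have hEx : (Ee : ℝ) * x ≤ Y / 32 + Ee := by
    have h1 := mul_le_mul_of_nonneg_left x2 hE0
    have h2 := mul_le_mul_of_nonneg_right hθE hY0.le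
    linarith only [h1, h2]
  have hVμ : (V : ℝ) * μ ≤ Y / 8 + V + 1 := by
    have h1 : (V : ℝ) * μ * 8 ≤ μ * (8 * (V + 1)) := by
      have : (0 : ℝ) ≤ μ := Nat.cast_nonneg μ
      linarith only [this]
    linarith only [h1, μ2]
  refine ⟨j4, ?_, ?_, ?_, ?_, ?_, ?_, ?_, ?_, ?_, fun i hi j hj k hk => ⟨?_, ?_⟩⟩
  · have : (1 : ℝ) ≤ x := by
      linarith only [x1, hθY, hCc, hd0, hQ0, hV0, hE0, hS0, hM0]
    exact_mod_cast this
  · rw [hx, hz]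
    refine up_mono' ?_ J
    linarith only [hθζ]
  · rw [hμ, hz]
    refine up_mono' ?_ J
    refine div_le_self hζ0.le ?_
    linarith only [hV0]
  · have u2 := up_le (hX.le.trans hwin) J
    have h1 : (y.1 + y.2 + 2 * X) * J ≤ 1 * J := mul_le_mul_of_nonneg_right htop hJ0.le
    have h2 : X * J ≤ y.2 * J := mul_le_mul_of_nonneg_right hdep hJ0.le
    have h3 := mul_le_mul_of_nonneg_left z2 hM0
    have : ((up y.1 J + M * z + 4 * z : ℕ) : ℝ) ≤ J := by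
      push_cast
      linarith only [u2, h1, h2, h3, z2, hXY, hQY, hMY, hY0, hθY, hθY', hCc, hd0, hQ0, hV0, hE0,
        hS0, hM0]
    exact_mod_cast this
  · have h1 : (Q : ℝ) / (8 * θ) * (16 * (θ * Y)) ≤ Q' * x :=
      mul_le_mul q1 x1 (by positivity) (Nat.cast_nonneg Q')
    have : ((Q * z : ℕ) : ℝ) ≤ (Q' * x : ℕ) := by
      push_cast
      linarith only [h1, q4, hQz]
    exact_mod_cast this
  · refine Nat.le_floor ?_
    push_cast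
    rw [hX64]
    exact hQx
  · refine Nat.le_floor ?_
    push_cast
    rw [hX64]
    linarith only [hQz, hXY, hQY, hMY, hY0]
  · have h1 := Nat.ceil_lt_add_one (show 0 ≤ θ * (z : ℝ) by positivity)
    have h2 := mul_le_mul_of_nonneg_left z2 hθ0.le
    have : ((⌈θ * (z : ℝ)⌉₊ + 1 + Sm : ℕ) : ℝ) ≤ x := by
      push_cast
      linarith only [h1, h2, x1, hθY, hθ, hCc, hd0, hQ0, hV0, hE0, hS0, hM0]
    exact_mod_cast this
  · have : ((V * μ + Sm + Ee * x : ℕ) : ℝ) ≤ z := by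
      push_cast
      linarith only [hVμ, hEx, z1, hθY, hθY', hCc, hd0, hQ0, hV0, hE0, hS0, hM0, hY0]
    exact_mod_cast this
  · have h1 := hbX i hi j hj k hk
    have h2 : X * J ≤ b i j k * J := mul_le_mul_of_nonneg_right h1 hJ0.le
    refine Nat.le_floor ?_
    push_cast
    linarith only [h2, hEx, hXY, hQY, hMY, hθY, hθY', hCc, hd0, hQ0, hV0, hE0, hS0, hM0, hY0]
  · have h1 := hbX i hi j hj k hk
    have h2 := hb.e1 i hi j hj k hk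
    have h3 := hb.e0 i hi j hj
    have f1 := Nat.floor_le (show 0 ≤ b i j k * (J : ℝ) from
      mul_nonneg (hX.le.trans h1) hJ0.le)
    have h4 : (b i j k + X) * J ≤ 1 * J := mul_le_mul_of_nonneg_right
      (by linarith only [h2, h3]) hJ0.le
    have : ((⌊b i j k * (J : ℝ)⌋₊ + z : ℕ) : ℝ) ≤ J := by
      push_cast
      linarith only [f1, h4, z2, hXY, hQY, hMY, hθY, hθY', hCc, hd0, hQ0, hV0, hE0, hS0, hM0,
        hY0]
    exact_mod_cast this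

/-- The label with gain for the cell of the labels of a grid. -/
theorem co_gn {m J n K K' K₂ K₃ s₁ a₀ w₀ z x M S₂ l₀ pr Q : ℕ} {F : Fam m J} {D : GDat F}
    {c : ℕ → Fin m} {sh : ℕ → ℕ} {e : ℕ → ℕ → ℕ} {g gC : ℕ → ℕ → ℕ → ℕ} {B : F.Ω → Prop}
    {R : ℕ → ℕ → Type} (ρ : (i j : ℕ) → LnT F → R i j) {UD : Pt2 F → PN} {UL : Ln2 F × ℕ → PN}
    {q : F.Ω → ℝ} {C₁ : ℝ} (hK' : 1 ≤ K') (hD : D.Ok c n K K' s₁ sh a₀ w₀ z M e g B)
    (hC : CoL D c l₀ K₂ a₀ w₀ z x M S₂ gC pr UD UL B) (hqB : ∀ ω, 0 < q ω → B ω)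
    (hl₀ : l₀ < n) (hK : K₂ ≤ K₃) (hxz : x ≤ z) (hC₁ : (S₂ : ℝ) + 1 ≤ C₁)
    (hbx : ∀ i ≤ M, ∀ j ≤ M, ∀ k < l₀, gC i j k ≤ g i j k - sh (k + 1) + 3 * x)
    (hnr : ∀ i ≤ M, ∀ j ≤ M, g i j l₀ - sh (l₀ + 1) ≤ gC i j l₀ + x)
    (hpr : ∀ i ≤ M, ∀ j ≤ M, g i j l₀ - sh (l₀ + 1) + Q * z ≤ pr) :
    (gnC (D.nd c n sh w₀ z M g ρ) l₀ pr UD UL).Ok n K₃ J a₀ w₀ z M Q (fun u => u ≠ l₀ + 1)
      C₁ q := by
  have hcnd := hD.cnd hK' ρ
  have e1 : ∀ i j u, 1 ≤ u → (D.nd c n sh w₀ z M g ρ).g i j u = g i j (u - 1) - sh u :=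
    fun i j u h => CDat2.nd2_g (D.cd n ρ) (cx F fun i => c (i - 1)) (pc c) w₀ z M
      (fun i j l => g i j (l - 1) - sh l) h
  have e2 : ∀ i ≤ M, ∀ j ≤ M, ∀ u, 1 ≤ u → u ≤ n → ∀ ω,
      (D.nd c n sh w₀ z M g ρ).Ψ i j ω u = D.PS i j (D.zS i j (ptr F J ω)) u :=
    fun i hi j hj u h1 h2 ω => CDat2.nd2_Ψ (D.cd n ρ) (cx F fun i => c (i - 1)) (pc c) w₀ z M
      (fun i j l => g i j (l - 1) - sh l) hi hj h1 h2 ω
  refine gnC_ok (D := D.nd c n sh w₀ z M g ρ) (fun y => (hC.dD y).trans hK)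
    (fun y => (hC.dL y).trans hK) hC.vD hC.vL (fun i hi j hj => ?_) (fun ω hω => ?_)
    (fun i hi j hj ω hω b hb => ?_)
  · rw [e1 i j _ (by omega), Nat.add_sub_cancel]
    exact hpr i hi j hj
  · have h1 := hC.own ω (hqB ω hω)
    have h2 : (cx F (fun i => c (i - 1)) ω (l₀ + 1) : ℝ) = F.x ω (c l₀) := if_neg (by omega)
    rw [← h2] at h1
    exact h1
  · have h1 := hC.two i hi j hj ω (hqB ω hω) b (by
      have h1 := hb.1
      have h2 : (D.nd c n sh w₀ z M g ρ).X ω 0 = F.t ω := hcnd.X_zero ω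
      rw [h2] at h1
      exact h1) fun u u1 u2 => by
      have h1 := hb.2 u u1 (by omega)
      rw [e1 i j u u1, e2 i hi j hj u u1 (by omega) ω] at h1
      refine h1.trans ?_
      rw [div_le_div_iff₀ (by positivity) (by positivity), one_mul, ← pow_add]
      refine pow_le_pow_right₀ (by norm_num) ?_
      have h2 := hbx i hi j hj (u - 1) (by omega)
      have h3 : u - 1 + 1 = u := by omega
      rw [h3] at h2
      omega
    refine ⟨h1.1, ?_⟩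
    rw [e1 i j _ (by omega), Nat.add_sub_cancel, e2 i hi j hj _ (by omega) (by omega) ω]
    refine h1.2.trans ?_
    have h3 : (2 : ℝ) ^ (S₂ * x) / 2 ^ gC i j l₀ ≤
        2 ^ ((S₂ + 1) * z) / 2 ^ (g i j l₀ - sh (l₀ + 1)) := by
      rw [div_le_div_iff₀ (by positivity) (by positivity), ← pow_add, ← pow_add]
      refine pow_le_pow_right₀ (by norm_num) ?_
      have h4 := hnr i hi j hj
      have h5 : (S₂ + 1) * z = S₂ * z + z := by ring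
      have h6 : S₂ * x ≤ S₂ * z := Nat.mul_le_mul_left _ hxz
      omega
    refine h3.trans (div_le_div_of_nonneg_right ?_ (by positivity))
    have h2 : (2 : ℝ) ≤ Real.exp 1 := by
      have := Real.add_one_le_exp (1 : ℝ)
      linarith
    calc (2 : ℝ) ^ ((S₂ + 1) * z) ≤ Real.exp 1 ^ ((S₂ + 1) * z) :=
          pow_le_pow_left₀ (by norm_num) h2 _
      _ = Real.exp ((S₂ + 1) * z) := by
          rw [← Real.exp_nat_mul]
          push_cast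
          ring_nf
      _ ≤ _ := Real.exp_le_exp.2 (mul_le_mul_of_nonneg_right hC₁ (Nat.cast_nonneg z))

/-- **The joint property of the cells with a label with gain** of the coordinate `l₀`, the other
coordinates are rough. -/
theorem ext_C (hI : MonoI I) {S : PCl m} (hS : TmH S) (Kt : KitP m Θ n₀)
    (hml : ∀ p, ∀ l < n₀ + 1, Kt.ml p l = 1) {T' : ℝ}
    (fcel : ∀ ε' : ℝ, 0 < ε' → EvP I fun p =>
      CellL (n₀ + 1) (Kt.L p) ε' T' (Kt.y p) (Kt.X p) (Kt.la p) (Kt.ml p))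
    {K' s₁ : ℕ} {sh : ℕ → ℕ} (hK' : 1 ≤ K') {l₀ K₂ S₂ : ℕ} (hl₀ : l₀ < n₀)
    (hW : ∀ p N M θ (J : ℕ) (F : Fam m J) (D : GDat F) (A : F.Ω → Prop),
      Kt.W p N M θ J F D A → Kt.Wco l₀ K₂ S₂ p N M θ J F D A)
    {be P : Θ → List (Fin m) × Fin m → ℝ → ℝ → ℝ}
    (hP : ∀ p, ThrOf (chsysB m none (be p)) S (P p))
    (hLβ : ∀ p, ∀ l < n₀, l ≠ l₀ → ∀ a w : ℝ, 0 ≤ w → w ≤ a → a ≤ 1 →
      Kt.L p l a w ≤ bet (be p) (Kt.cs p) l a w)
    (hgain : EvP I fun p => ∀ a w : ℝ, (Kt.y p).1 ≤ w → w ≤ (Kt.y p).1 + Kt.X p / 16 →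
      (Kt.y p).1 + (Kt.y p).2 ≤ a → a ≤ (Kt.y p).1 + (Kt.y p).2 + Kt.X p / 16 →
      Kt.L p l₀ a w + Kt.X p / 32 ≤ bet (be p) (Kt.cs p) l₀ a w)
    (fiso : ∀ l ≤ n₀, l ≠ l₀ → ∀ ε' : ℝ, 0 < ε' → EvP I fun p => ∀ z : ℝ × ℝ,
      dist z (Kt.y p) ≤ Kt.X p →
      Nw (bet (P p) (Kt.cs p) l) z ≤ Nw (Kt.L p l) z + ε' * Kt.X p)
    {PB : ℕ → Prop} {x' : ℝ}
    (hnfc : ∃ C₄ : ℝ, ∀ C₁ ≥ C₄, ∀ B : ℕ, 1 ≤ B → PB B → ∀ M : ℕ, EvQ I fun N θ p =>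
      Kt.FldN S K' s₁ sh M N θ p fun G J F D q => ∀ gam' : ℕ → ℝ, 0 ≤ gam' (n₀ + 1) →
        |gamS (n₀ + 1) (Kt.la p) (Kt.ml p) (n₀ + 1) - gam' (n₀ + 1)| * M ≤ 1 →
        NFc1 (Kt.nd p N M θ G F D) G.n (up G.ζ J) G.M B gam' x' C₁ q) :
    ∃ C₄ : ℝ, ∀ C₁ ≥ C₄, ∀ B : ℕ, 1 ≤ B → PB B → ∀ (M Q K'' : ℕ) (η' κ : ℝ), 0 < η' → 0 < κ →
      EvQ I fun N θ p => Kt.FldN S K' s₁ sh M N θ p fun G J F D q =>
        (XP4 (max K' K₂) 1 (fun u => u ≠ l₀ + 1) x').nb B (lamS (n₀ + 1) (Kt.ml p))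
          (gamS (n₀ + 1) (Kt.la p) (Kt.ml p)) G.n J (up G.α J) (up G.ϖ J) (up G.ζ J) G.M Q K'' η'
          κ C₁ (Kt.nd p N M θ G F D) q := by
  obtain ⟨C₄, hnfc⟩ := hnfc
  refine ⟨max C₄ (S₂ + 1), fun C₁ hC₁ B hB hPB M Q K'' η' κ hη hκ => ?_⟩
  have c4 : C₄ ≤ C₁ := (le_max_left _ _).trans hC₁
  have cS : (S₂ : ℝ) + 1 ≤ C₁ := (le_max_right _ _).trans hC₁
  obtain ⟨Λ, hΛ⟩ := exists_nat_ge (T' + 3)
  obtain ⟨V, hV⟩ := exists_nat_ge (4 * T' + 2)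
  obtain ⟨E, hE, hch⟩ := co_chain (n₀ + 1) K' K₂ K'' S₂ hK'
  obtain ⟨Ee, hEe⟩ : ∃ Ee, Ee = E ^ (n₀ + 1 + 1) := ⟨_, rfl⟩
  have hEe1 : 1 ≤ Ee := by rw [hEe]; exact Nat.one_le_pow _ _ hE
  obtain ⟨Sm, hSm⟩ : ∃ Sm, ∀ k ≤ n₀ + 1, sh k ≤ Sm :=
    ⟨∑ k ∈ range (n₀ + 2), sh k, fun k hk => Finset.single_le_sum (f := sh)
      (fun _ _ => Nat.zero_le _) (mem_range.2 (by omega))⟩
  obtain ⟨N₁, hN₁⟩ := exists_nat_ge (4 * (T' + 2))
  obtain ⟨N₂, hN₂⟩ := exists_nat_ge (8 * ((1 : ℕ) + 2) * (T' + 2))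
  obtain ⟨N₀, hN₀⟩ : ∃ N₀, N₀ = max (max N₁ N₂) (max (64 * (2 * Q + 3)) 1) := ⟨_, rfl⟩
  obtain ⟨θ₀, hθ₀⟩ : ∃ θ₀ : ℝ, θ₀ = min (1 / (128 * ((V : ℝ) + 1))) (1 / (512 * (Ee : ℝ))) := ⟨_, rfl⟩
  have hEe0 : (0 : ℝ) < Ee := by exact_mod_cast hEe1
  have hθ₀0 : 0 < θ₀ := by rw [hθ₀]; exact lt_min (by positivity) (by positivity)
  have hεp : ∀ N : ℕ, (0 : ℝ) < 1 / (512 * (V + 1) * (N * (M + 4)) + 1) := fun N => by positivity
  have fiso' : EvQ I fun N θ p => ∀ l < n₀ + 1, l ≠ l₀ → ∀ z : ℝ × ℝ,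
      dist z (Kt.y p) ≤ Kt.X p → Nw (bet (P p) (Kt.cs p) l) z ≤
        Nw (Kt.L p l) z + 1 / (512 * (V + 1) * (N * (M + 4)) + 1) * Kt.X p :=
    EvQ.of_evP fun N => evP_lt hI (n₀ + 1) fun l hl => by
      by_cases h : l = l₀
      · exact ⟨1, one_pos, fun _ _ h' => absurd h h'⟩
      · exact (fiso l (by omega) h _ (hεp N)).mono fun _ hp _ => hp
  have hcel : EvQ I fun N θ p => CellL (n₀ + 1) (Kt.L p)
      (1 / (512 * (V + 1) * (N * (M + 4)) + 1)) T' (Kt.y p) (Kt.X p) (Kt.la p) (Kt.ml p) :=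
    EvQ.of_evP fun N => fcel _ (hεp N)
  have key := ((((tmU_P hI hS Kt fcel (K' := K') (s₁ := s₁) (sh := sh) hκ M).and hI
    (hnfc C₁ c4 B hB hPB M)).and hI (hcel.and hI fiso')).and hI
    ((EvQ.of_evP fun _ => hgain).and hI (iso_num hI Kt hml fcel hΛ sh 0 0 M one_pos))).and hI
    (EvQ.self I N₀ (θ₀ := θ₀) hθ₀0 (ε := fun N _ => 1) (fun N _ _ => one_pos))
  refine key.mono ?_
  rintro N θ p ⟨⟨⟨⟨ptm, pnfc⟩, hL, hPW⟩, pg, -, hζ0, hnum⟩, hN, hθ, hθ1, -⟩ b e hnear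
  obtain ⟨ε, hε⟩ : ∃ ε : ℝ, ε = 1 / (512 * (V + 1) * (N * (M + 4)) + 1) := ⟨_, rfl⟩
  rw [← hε] at hL hPW
  have hε0 : 0 < ε := by rw [hε]; exact hεp N
  have hNN1 : N₁ ≤ N := (by rw [hN₀]; exact (le_max_left _ _).trans (le_max_left _ _) :
    N₁ ≤ N₀).trans hN
  have hNN2 : N₂ ≤ N := (by rw [hN₀]; exact (le_max_right _ _).trans (le_max_left _ _) :
    N₂ ≤ N₀).trans hN
  have hNQ : 64 * (2 * Q + 3) ≤ N := (by
    rw [hN₀]
    exact (le_max_left _ _).trans (le_max_right _ _) : 64 * (2 * Q + 3) ≤ N₀).trans hN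
  have hN1 : 1 ≤ N := (by rw [hN₀]; exact (le_max_right _ _).trans (le_max_right _ _) :
    1 ≤ N₀).trans hN
  have hNT : 4 * (T' + 2) ≤ N := hN₁.trans (by exact_mod_cast hNN1)
  have hNC : 8 * ((1 : ℕ) + 2) * (T' + 2) ≤ (N : ℝ) := hN₂.trans (by exact_mod_cast hNN2)
  have hV0 : (0 : ℝ) ≤ V := Nat.cast_nonneg V
  have hθV : θ ≤ 1 / (128 * (V + 1)) := hθ1.trans (by rw [hθ₀]; exact min_le_left _ _)
  have hθE : 512 * (Ee : ℝ) * θ ≤ 1 := by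
    have h1 : θ ≤ 1 / (512 * Ee) := hθ1.trans (by rw [hθ₀]; exact min_le_right _ _)
    rw [le_div_iff₀ (by positivity)] at h1
    linarith only [h1]
  have hθ16 : θ ≤ 1 / 16 := by
    refine hθV.trans (one_div_le_one_div_of_le (by norm_num) ?_)
    linarith only [hV0]
  have hX := hL.pos
  obtain ⟨ζ', hζ'⟩ : ∃ ζ', ζ' = msh (Kt.X p) N M / (8 * (V + 1)) := ⟨_, rfl⟩
  have hζ'0 : 0 < ζ' := by rw [hζ']; positivity
  have hζ'm : ζ' * (8 * (V + 1)) = msh (Kt.X p) N M := by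
    rw [hζ']
    field_simp
  have hζ'1 : ζ' ≤ msh (Kt.X p) N M := by
    have := mul_nonneg hζ'0.le hV0
    linarith only [hζ'm, this, hζ'0]
  have hεX : ε * Kt.X p ≤ ζ' / 64 := by
    have h1 : ε ≤ 1 / (512 * (V + 1) * (N * (M + 4)) + 1) := by rw [hε]
    rw [le_div_iff₀ (by positivity)] at h1
    have e1 : N * ((M + 4) * msh (Kt.X p) N M) = Kt.X p := msh_mul hN1
    have h2 : ε * (512 * (V + 1) * (N * (M + 4))) ≤ 1 := by linarith only [h1, hε0]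
    have h3 := mul_le_mul_of_nonneg_right h2 hζ'0.le
    have h4 : ε * (512 * (V + 1) * (N * (M + 4))) * ζ' =
        64 * (ε * (N * ((M + 4) * (ζ' * (8 * (V + 1)))))) := by ring
    rw [h4, hζ'm, e1] at h3
    linarith only [h3]
  have hθx : θ * msh (Kt.X p) N M ≤ ζ' / 16 := by
    rw [le_div_iff₀ (by positivity)] at hθV
    have h3 := mul_le_mul_of_nonneg_right hθV hζ'0.le
    have h4 : θ * (128 * (V + 1)) * ζ' = 16 * (θ * (ζ' * (8 * (V + 1)))) := by ring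
    rw [h4, hζ'm] at h3
    linarith only [h3]
  obtain ⟨J₁, hJ₁⟩ := hnum b e hnear
  obtain ⟨Q', J₂, hJ₂⟩ := co_num (V := V) (Q := Q) (Ee := Ee) (Sm := Sm) hL hN1 hNQ hθ hθ16
    hθE hnear
  obtain ⟨Kn, hKn⟩ : ∃ Kn, Kn = max (max K' K₂) K'' := ⟨_, rfl⟩
  obtain ⟨yy, hyy⟩ : ∃ yy : ℕ → ℝ, yy = fun k => if k = l₀ then Kt.X p / 64 else 0 := ⟨_, rfl⟩
  have yy0 : ∀ k, 0 ≤ yy k := fun k => by
    rw [hyy]
    beta_reduce
    split_ifs
    · positivity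
    · exact le_rfl
  have yyX : ∀ k, yy k ≤ Kt.X p / 64 := fun k => by
    rw [hyy]
    beta_reduce
    split_ifs
    · exact le_rfl
    · positivity
  have hno : Bas S fun J F A => ∀ l < n₀ + 1, l ≠ l₀ → ∀ B : F.Ω → Prop, Sub B A →
      η' * Pe F.p A ≤ Pe F.p B →
      ∀ i ≤ M, ∀ j ≤ M, ∀ μ : ℕ, up ζ' J ≤ μ →
      μ ≤ 1 * up (msh (Kt.X p) N M) J → ∀ (e' : ℕ) (g' : ℕ → ℕ),
      (∀ k' < l, g' k' ≤ ⌊b i j k' * J⌋₊ + 4 * μ + ⌊yy k' * J⌋₊) →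
      ⌊b i j l * J⌋₊ + V * μ ≤ g' l →
      g' l ≤ J → ¬ ChN F (Kt.cs p) (l + 1) (fun _ => Kn)
        (up ((Kt.y p).1 + (Kt.y p).2) J + i * up (msh (Kt.X p) N M) J + 4 * μ)
        (up (Kt.y p).1 J + j * up (msh (Kt.X p) N M) J + 4 * μ) e' g' B := by
    refine Bas.all (n₀ + 1) fun l hl => ?_
    by_cases h : l = l₀
    · exact ⟨1, one_pos, 0, fun J _ F A _ h' => absurd h h'⟩
    · refine Bas.mono 0 (Pool.LBK.Bas.ev (hL.no_sh (by omega) hN1 hNT hNC hζ'0 hζ'1 hεX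
        hθx hnear (hP p) (hPW l hl h) (yy := yy) (fun k _ => yy0 k)
        (fun k _ => (yyX k).trans (by linarith only [hX])) (fun k' hk' a w h1 h2 h3 h4 => ?_) hV
        Kn) hη) fun J _ F A h3 _ => h3
      by_cases hk : k' = l₀
      · rw [hk]
        have h5 := pg a w h1 h2 h3 h4
        have h6 := yyX l₀
        linarith only [h5, h6, hX]
      · have h5 : yy k' = 0 := by
          rw [hyy]
          exact if_neg hk
        rw [h5, add_zero]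
        exact hLβ p k' (by omega) hk a w (by linarith only [hL.win, h1, hX])
          (by linarith only [hL.dep, h2, h3, hX]) (by linarith only [hL.top, h4, hX])
  have hp : Bas S (fun _ F A => 0 < Pe F.p A) :=
    ⟨1, one_pos, 0, fun J _ F A hA => hS.1 1 J F A hA⟩
  refine Bas.mono (max J₁ J₂) (Bas.and (Bas.and (ptm b e hnear) (pnfc b e hnear))
    (Bas.and hno hp)) ?_
  rintro J hJ F A ⟨⟨m1, m2⟩, hno, hA⟩ D hD lam' gam' _ k2 _ k4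
  obtain ⟨-, -, -, -, -, -, -, -, -, c10⟩ := hJ₁ J ((le_max_left _ _).trans hJ)
  obtain ⟨d1, d2, d3, d4, d5, d6, d7, d8, d9, d10, d11⟩ := hJ₂ J ((le_max_right _ _).trans hJ)
  rw [← hζ'] at d4 d10
  obtain ⟨gC, pr, UD, UL, hband, hpr, hCo⟩ := hW p N M θ J F D A hD.2
  have hDo : D.Ok (Kt.cs p) (n₀ + 1) Kt.K K' s₁ sh (up ((Kt.y p).1 + (Kt.y p).2) J)
      (up (Kt.y p).1 J) (up (msh (Kt.X p) N M) J) M (fun i j => ⌊e i j * J⌋₊)
      (fun i j l => ⌊b i j l * J⌋₊) A := hD.1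
  have hX3264 : ⌊Kt.X p / 64 * (J : ℝ)⌋₊ ≤ ⌊Kt.X p / 32 * (J : ℝ)⌋₊ := by
    refine Nat.floor_le_floor (mul_le_mul_of_nonneg_right ?_ (Nat.cast_nonneg J))
    linarith only [hX]
  have hq0 := cond_nonneg F.isLaw.nonneg A True
  have hqB : ∀ ω, 0 < Pool.Agent.H49.Ent.cond F.p A True ω → A ω :=
    fun ω hω => Pool.PB.End.of_cond_pos hω
  have hbx : ∀ i ≤ M, ∀ j ≤ M, ∀ k < l₀, gC i j k ≤ ⌊b i j k * J⌋₊ - sh (k + 1) +
      3 * up (16 * θ * msh (Kt.X p) N M) J := by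
    intro i hi j hj k hk
    have h1 := (hband i hi j hj k (by omega)).1
    have h2 := (c10 i hi j hj k (by omega)).2
    have h3 := hSm (k + 1) (by omega)
    omega
  have hnr : ∀ i ≤ M, ∀ j ≤ M, ⌊b i j l₀ * J⌋₊ - sh (l₀ + 1) ≤
      gC i j l₀ + up (16 * θ * msh (Kt.X p) N M) J := by
    intro i hi j hj
    have h1 := (hband i hi j hj l₀ (by omega)).2
    have h2 := (c10 i hi j hj l₀ (by omega)).1
    omega
  have hprg : ∀ i ≤ M, ∀ j ≤ M, ⌊b i j l₀ * J⌋₊ - sh (l₀ + 1) + ⌊Kt.X p / 64 * J⌋₊ ≤ pr := by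
    intro i hi j hj
    have h1 := hpr i hi j hj
    have h2 := (c10 i hi j hj l₀ (by omega)).1
    omega
  refine ⟨m1 D hD, m2 D hD gam' (k2 _) (k4 (n₀ + 1) (by omega) le_rfl),
    gnC (Kt.nd p N M θ (Kt.grid K' s₁ sh p N M θ b e) F D) l₀ pr UD UL, ?_, ?_⟩
  · exact co_gn (Kt.rc p N M θ J F D) hK' hDo hCo hqB (Nat.lt_succ_of_lt hl₀)
      (le_max_right _ _) d3 cS hbx hnr fun i hi j hj => (Nat.add_le_add_left d8 _).trans (hprg i hi j hj)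
  · intro u u1 u2 u3 i hi j hj hnew
    obtain ⟨l, rfl⟩ : ∃ l, u = l + 1 := ⟨u - 1, by omega⟩
    have hi' : i ≤ M := hi
    have hj' : j ≤ M := hj
    have hl : l < n₀ + 1 := Nat.lt_of_succ_le u2
    have hll : l ≠ l₀ := by
      rcases u3 with h1 | h1
      · have h2 : l + 1 = n₀ + 1 := h1
        omega
      · omega
    obtain ⟨B', e', b1, b2, b3⟩ := hch (Kt.rc p N M θ J F D) (Q' := Q') hDo hCo hq0 hqB d2 hi' hj'
      (by
        have h1 : j * up (msh (Kt.X p) N M) J ≤ M * up (msh (Kt.X p) N M) J :=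
          Nat.mul_le_mul_right _ hj'
        omega) hl (by omega) hll d6 (hbx i hi' j hj') (hnr i hi' j hj')
      ((Nat.add_le_add_left d7 _).trans (hprg i hi' j hj')) (fun k k1 k2 => by
        have h1 := (d11 i hi' j hj' (k - 1) (by omega)).1
        have h2 := hSm k (by omega)
        rw [← hEe]
        omega) hnew
    have hPB' : η' * Pe F.p A ≤ Pe F.p B' := by
      have h5 := Pool.LBK.Pb_cond_sub b1 hA
      have h6 := mul_le_mul_of_nonneg_right b2 hA.le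
      rw [h5] at h6
      exact h6
    have h1J := d11 i hi' j hj' l hl
    have hEl : E ^ (l + 2) * up (16 * θ * msh (Kt.X p) N M) J ≤
        Ee * up (16 * θ * msh (Kt.X p) N M) J := by
      rw [hEe]
      exact Nat.mul_le_mul_right _ (Nat.pow_le_pow_right hE (by omega))
    have hSl := hSm (l + 1) (by omega)
    refine hno l hl hll B' b1 hPB' i hi' j hj' (up ζ' J) le_rfl (by rw [one_mul]; exact d4) e'
      _ (fun k' hk' => ?_) ?_ ?_ (b3.mono le_rfl (fun _ _ => le_of_eq hKn.symm)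
        (Nat.le_add_right _ _) (Nat.le_add_right _ _) ?_ le_rfl)
    · unfold gvT
      rw [if_pos hk']
      by_cases hk : k' = l₀
      · rw [hk, if_neg (by simp)]
        have h3 : ⌊yy l₀ * (J : ℝ)⌋₊ = ⌊Kt.X p / 64 * (J : ℝ)⌋₊ := by
          rw [hyy]
          simp
        rw [h3]
        show ⌊b i j (l₀ + 1 - 1) * (J : ℝ)⌋₊ - sh (l₀ + 1) + Q' * _ - _ ≤ _
        rw [Nat.add_sub_cancel]
        omega
      · rw [if_pos (by simpa using hk)]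
        show ⌊b i j (k' + 1 - 1) * (J : ℝ)⌋₊ - sh (k' + 1) - _ ≤ _
        rw [Nat.add_sub_cancel]
        omega
    · unfold gvT
      rw [if_neg (lt_irrefl l)]
      omega
    · unfold gvT
      rw [if_neg (lt_irrefl l)]
      omega
    · have h1 : j * up (msh (Kt.X p) N M) J ≤ M * up (msh (Kt.X p) N M) J :=
        Nat.mul_le_mul_right _ hj'
      omega

end Pool.STAT
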