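import Pool.Agent.H78.MIC.Cov

/-!
# The local theorem with further properties, uniformly in the slopes

`ExtC`: a further property of a cell, for the numbers `n J a₀ w₀ z M R κ C₁`, the cell and the law.
`ConC`: a conclusion, for the numbers `n J a₀ w₀ z M K' η'`, the cell and the law; `ConC.std A` is
the new label `Concl2`.
`MicK Φ Ψ Q n K h`: the local theorem for cells of the class `K` with the property `Φ` and slopes with
the property `Q` in rows with the deficit `h`, with the conclusion `Ψ`. `MicGN Φ Q n`: the same for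
all `K`, `h` and the conclusion `Concl2`.
`CondN.Cl Q n`: the property `Q` of the slopes is closed. `micK_cover`: then the constants can be
chosen uniformly for bounded slopes.
-/

set_option autoImplicit false

namespace Pool.STAT

open Finset MvPolynomial
open Pool.Agent.H49.Ent Pool.Agent.H32.Dense Pool.STK Pool.KS3
open Pool.BFL (Pl CB Pb P2 MC alt)

/-- A further property of a cell: `Φ n J a₀ w₀ z M R κ C₁ D q`. -/
abbrev ExtC : Type 1 := (n J a₀ w₀ z M R : ℕ) → (κ C₁ : ℝ) → (D : NDat2) → (D.Ω → ℝ) → Prop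

/-- The property is weaker for larger `κ` and `C₁`. -/
structure ExtC.Mono (Φ : ExtC) : Prop where
  mono : ∀ {n J a₀ w₀ z M R : ℕ} {κ κ' C₁ C₁' : ℝ} {D : NDat2} {q : D.Ω → ℝ}, κ ≤ κ' →
    C₁ ≤ C₁' → Φ n J a₀ w₀ z M R κ C₁ D q → Φ n J a₀ w₀ z M R κ' C₁' D q

theorem ExtC.Mono.and {Φ Ψ : ExtC} (h : Φ.Mono) (h' : Ψ.Mono) :
    ExtC.Mono fun n J a₀ w₀ z M R κ C₁ D q =>
      Φ n J a₀ w₀ z M R κ C₁ D q ∧ Ψ n J a₀ w₀ z M R κ C₁ D q :=
  ⟨fun hκ hC h1 => ⟨h.mono hκ hC h1.1, h'.mono hκ hC h1.2⟩⟩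

/-- Own leaves and uniform time. -/
def ExtC.W : ExtC := fun n J _ w₀ z M R κ _ D q =>
  D.LLV n z M κ q ∧ D.LLN n z M R κ q ∧ D.TmU J w₀ z κ q

theorem ExtC.W_mono : ExtC.W.Mono :=
  ⟨fun hκ _ h => ⟨h.1.mono hκ, h.2.1.mono le_rfl hκ, h.2.2.mono hκ⟩⟩

/-- A conclusion: `Ψ n J a₀ w₀ z M K' η' D q`. -/
abbrev ConC : Type 1 := (n J a₀ w₀ z M K' : ℕ) → (η' : ℝ) → (D : NDat2) → (D.Ω → ℝ) → Prop

/-- The conclusion is weaker for larger `K'` and smaller `η'`. -/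
structure ConC.Mono (Ψ : ConC) : Prop where
  mono : ∀ {n J a₀ w₀ z M K' K'' : ℕ} {η η' : ℝ} {D : NDat2} {q : D.Ω → ℝ}, K' ≤ K'' →
    η' ≤ η → Ψ n J a₀ w₀ z M K' η D q → Ψ n J a₀ w₀ z M K'' η' D q

/-- A new label of the target, the gain is `A z` digits. -/
def ConC.std (A : ℕ) : ConC := fun n J a₀ w₀ z M K' η' D q => D.Concl2 n J a₀ w₀ z M A K' η' q

theorem ConC.std_mono (A : ℕ) : (ConC.std A).Mono :=
  ⟨fun hK hη h => NDat2.Concl2.mono h hK hη⟩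

/-- Conditions for the slopes of the coordinates `1, …, n`. -/
abbrev CondN : Type := (ℕ → ℝ) → (ℕ → ℝ) → Prop

/-- The local theorem with the property `Φ` and the conclusion `Ψ` for given slopes and given
constants. -/
def MicAtK (Φ : ExtC) (Ψ : ConC) (n K B R : ℕ) (lam gam : ℕ → ℝ) (C₁ h : ℝ) (M K' : ℕ)
    (η' κ ϖ : ℝ) (z₀ : ℕ) : Prop :=
  ∀ (J a₀ w₀ z : ℕ) (D : NDat2) (q : D.Ω → ℝ), z₀ ≤ z →
    D.Ok2 n K J a₀ w₀ z M lam gam κ C₁ q → Φ n J a₀ w₀ z M R κ C₁ D q →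
    D.NF n z M B gam h C₁ ϖ q → Ψ n J a₀ w₀ z M K' η' D q

/-- **The local theorem with the property `Φ` and the conclusion `Ψ`**, for the slopes with the
property `Q`, coordinates `1, …, n`, labels of the class `K`, deficit `h`. -/
def MicK (Φ : ExtC) (Ψ : ConC) (Q : CondN) (n K : ℕ) (h : ℝ) : Prop :=
  ∀ (B R : ℕ) (lam gam : ℕ → ℝ) (C₁ : ℝ), 1 ≤ B → (∀ l, 1 ≤ lam l) →
    (∀ l, 0 ≤ gam l) → 0 < gam n → 1 ≤ C₁ → Q lam gam →
    ∃ (M K' : ℕ) (η' κ ϖ : ℝ) (z₀ : ℕ), 0 < η' ∧ 0 < κ ∧ 0 < ϖ ∧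
      MicAtK Φ Ψ n K B R lam gam C₁ h M K' η' κ ϖ z₀

/-- The local theorem with the property `Φ` for given slopes and given constants. -/
def MicAtG (Φ : ExtC) (n K A B R : ℕ) (lam gam : ℕ → ℝ) (C₁ h : ℝ) (M K' : ℕ) (η' κ ϖ : ℝ)
    (z₀ : ℕ) : Prop :=
  ∀ (J a₀ w₀ z : ℕ) (D : NDat2) (q : D.Ω → ℝ), z₀ ≤ z →
    D.Ok2 n K J a₀ w₀ z M lam gam κ C₁ q → Φ n J a₀ w₀ z M R κ C₁ D q →
    D.NF n z M B gam h C₁ ϖ q → D.Concl2 n J a₀ w₀ z M A K' η' q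

/-- **MIC with the property `Φ`**, for the slopes with the property `Q`, coordinates `1, …, n`. -/
def MicGN (Φ : ExtC) (Q : CondN) (n : ℕ) : Prop :=
  ∀ (K A B R : ℕ) (lam gam : ℕ → ℝ) (C₁ h : ℝ), 1 ≤ B → (∀ l, 1 ≤ lam l) →
    (∀ l, 0 ≤ gam l) → 0 < gam n → 1 ≤ C₁ → 0 < h → h ≤ 1 → Q lam gam →
    ∃ (M K' : ℕ) (η' κ ϖ : ℝ) (z₀ : ℕ), 0 < η' ∧ 0 < κ ∧ 0 < ϖ ∧
      MicAtG Φ n K A B R lam gam C₁ h M K' η' κ ϖ z₀

theorem MicGN.toK {Φ : ExtC} {Q : CondN} {n : ℕ} (h : MicGN Φ Q n) (A K : ℕ) {h₁ : ℝ}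
    (h0 : 0 < h₁) (h1 : h₁ ≤ 1) : MicK Φ (ConC.std A) Q n K h₁ :=
  fun B R lam gam C₁ a1 a2 a3 a4 a5 a6 => h K A B R lam gam C₁ h₁ a1 a2 a3 a4 a5 h0 h1 a6

theorem MicGN.mono {Φ Φ' : ExtC} {Q Q' : CondN} {n : ℕ} (h : MicGN Φ Q n)
    (hΦ : ∀ {n J a₀ w₀ z M R : ℕ} {κ C₁ : ℝ} {D : NDat2} {q : D.Ω → ℝ},
      Φ' n J a₀ w₀ z M R κ C₁ D q → Φ n J a₀ w₀ z M R κ C₁ D q)
    (hQ : ∀ lam gam, Q' lam gam → Q lam gam) : MicGN Φ' Q' n := by
  intro K A B R lam gam C₁ h₁ a1 a2 a3 a4 a5 a6 a7 a8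
  obtain ⟨M, K', η', κ, ϖ, z₀, b1, b2, b3, h⟩ := h K A B R lam gam C₁ h₁ a1 a2 a3 a4 a5 a6 a7
    (hQ _ _ a8)
  exact ⟨M, K', η', κ, ϖ, z₀, b1, b2, b3, fun J a₀ w₀ z D q hz hO hL hN =>
    h J a₀ w₀ z D q hz hO (hΦ hL) hN⟩

theorem MicGN.or {Φ : ExtC} {Q Q' : CondN} {n : ℕ} (h : MicGN Φ Q n) (h' : MicGN Φ Q' n) :
    MicGN Φ (fun lam gam => Q lam gam ∨ Q' lam gam) n := by
  intro K A B R lam gam C₁ h₁ a1 a2 a3 a4 a5 a6 a7 a8
  rcases a8 with a8 | a8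
  · exact h K A B R lam gam C₁ h₁ a1 a2 a3 a4 a5 a6 a7 a8
  · exact h' K A B R lam gam C₁ h₁ a1 a2 a3 a4 a5 a6 a7 a8

/-- The local theorem with own leaves. -/
theorem MicWOf.toG {Q : Cond2} (h : MicWOf Q) {n : ℕ} (hn : 1 ≤ n) :
    MicGN ExtC.W (Q n) n := by
  intro K A B R lam gam C₁ h₁ a1 a2 a3 a4 a5 a6 a7 a8
  obtain ⟨M, K', η', κ, ϖ, z₀, b1, b2, b3, h⟩ := h n K A B R lam gam C₁ h₁ hn a1 a2 a3 a4 a5 a6 a7
    a8
  exact ⟨M, K', η', κ, ϖ, z₀, b1, b2, b3, fun J a₀ w₀ z D q hz hO hL hN =>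
    h J a₀ w₀ z D q hz hO hL.1 hL.2.1 hN hL.2.2⟩

/-! ### Closed conditions -/

/-- **A closed condition** for the slopes of the coordinates `1, …, n`. -/
structure CondN.Cl (Q : CondN) (n : ℕ) : Prop where
  cl : IsClosed {x : (ℕ → ℝ) × (ℕ → ℝ) | Q x.1 x.2}
  loc : ∀ {lam gam lam' gam' : ℕ → ℝ}, (∀ l, 1 ≤ l → l ≤ n → lam' l = lam l) →
    (∀ l, 1 ≤ l → l ≤ n → gam' l = gam l) → Q lam gam → Q lam' gam'

namespace CondN.Cl

variable {Q Q' : CondN} {n : ℕ}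

theorem tt : CondN.Cl (fun _ _ => True) n :=
  ⟨by simp, fun _ _ _ => trivial⟩

theorem and (h : Q.Cl n) (h' : Q'.Cl n) : CondN.Cl (fun lam gam => Q lam gam ∧ Q' lam gam) n :=
  ⟨h.cl.inter h'.cl, fun h1 h2 h3 => ⟨h.loc h1 h2 h3.1, h'.loc h1 h2 h3.2⟩⟩

theorem or (h : Q.Cl n) (h' : Q'.Cl n) : CondN.Cl (fun lam gam => Q lam gam ∨ Q' lam gam) n :=
  ⟨h.cl.union h'.cl, fun h1 h2 h3 => h3.imp (h.loc h1 h2) (h'.loc h1 h2)⟩

theorem all {α : Type*} {Q : α → CondN} (h : ∀ x, (Q x).Cl n) :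
    CondN.Cl (fun lam gam => ∀ x, Q x lam gam) n := by
  refine ⟨?_, fun h1 h2 h3 x => (h x).loc h1 h2 (h3 x)⟩
  have : {x : (ℕ → ℝ) × (ℕ → ℝ) | ∀ y, Q y x.1 x.2} =
      ⋂ y, {x : (ℕ → ℝ) × (ℕ → ℝ) | Q y x.1 x.2} := by
    ext x
    simp
  rw [this]
  exact isClosed_iInter fun x => (h x).cl

theorem imp {P : Prop} (h : P → Q.Cl n) : CondN.Cl (fun lam gam => P → Q lam gam) n := by
  by_cases hP : P
  · simp only [hP, forall_const]
    exact h hP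
  · simp only [hP, IsEmpty.forall_iff]
    exact tt

/-- The slope of one coordinate in a closed set. -/
theorem of {l : ℕ} (h1 : 1 ≤ l) (h2 : l ≤ n) {s : Set (ℝ × ℝ)} (hs : IsClosed s) :
    CondN.Cl (fun lam gam => (lam l, gam l) ∈ s) n := by
  refine ⟨?_, fun k1 k2 h3 => ?_⟩
  · have hc : Continuous fun x : (ℕ → ℝ) × (ℕ → ℝ) => (x.1 l, x.2 l) :=
      ((continuous_apply l).comp continuous_fst).prodMk ((continuous_apply l).comp continuous_snd)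
    exact hs.preimage hc
  · rw [k1 l h1 h2, k2 l h1 h2]
    exact h3

/-- The weight is `x`. -/
theorem lam_eq {l : ℕ} (h1 : 1 ≤ l) (h2 : l ≤ n) (x : ℝ) :
    CondN.Cl (fun lam _ => lam l = x) n := by
  have h3 := CondN.Cl.of h1 h2 (s := {p : ℝ × ℝ | p.1 = x}) (isClosed_eq continuous_fst
    continuous_const)
  exact h3

/-- The rate is `x`. -/
theorem gam_eq {l : ℕ} (h1 : 1 ≤ l) (h2 : l ≤ n) (x : ℝ) :
    CondN.Cl (fun _ gam => gam l = x) n := by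
  have h3 := CondN.Cl.of h1 h2 (s := {p : ℝ × ℝ | p.2 = x}) (isClosed_eq continuous_snd
    continuous_const)
  exact h3

/-- The weight is at least `x`. -/
theorem le_lam {l : ℕ} (h1 : 1 ≤ l) (h2 : l ≤ n) (x : ℝ) :
    CondN.Cl (fun lam _ => x ≤ lam l) n := by
  have h3 := CondN.Cl.of h1 h2 (s := {p : ℝ × ℝ | x ≤ p.1}) (isClosed_le continuous_const
    continuous_fst)
  exact h3

end CondN.Cl

/-- All base coordinates have the weight one, and the target has the weight one or no base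
coordinate moves with the window. -/
def CondIso (n : ℕ) : CondN := fun lam gam =>
  (∀ l, 1 ≤ l → l < n → lam l = 1) ∧ (lam n = 1 ∨ ∀ l, 1 ≤ l → l < n → gam l = 0)

theorem condIso_cl {n : ℕ} (hn : 1 ≤ n) : (CondIso n).Cl n :=
  (CondN.Cl.all fun l => CondN.Cl.imp fun h1 => CondN.Cl.imp fun h2 =>
    CondN.Cl.lam_eq h1 (by omega) 1).and
    ((CondN.Cl.lam_eq hn le_rfl 1).or (CondN.Cl.all fun l => CondN.Cl.imp fun h1 =>
      CondN.Cl.imp fun h2 => CondN.Cl.gam_eq h1 (by omega) 0))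

/-! ### The cover -/

/-- **The constants of the local theorem are uniform for bounded slopes.** -/
theorem micK_cover {Φ : ExtC} (hΦ : Φ.Mono) {Ψ : ConC} (hΨ : Ψ.Mono) {Q : CondN} {n K B R : ℕ}
    {C₁ h Λ β : ℝ} (hQ : Q.Cl n) (hn : 1 ≤ n) (hB : 1 ≤ B) (hC₁ : 1 ≤ C₁) (hh1 : h ≤ 1)
    (hβ : 0 < β) (H : MicK Φ Ψ Q n K h) :
    ∃ (M₀ K' : ℕ) (η' κ ϖ : ℝ) (z₀ : ℕ), 0 < η' ∧ 0 < κ ∧ 0 < ϖ ∧
      ∀ lam gam : ℕ → ℝ, (∀ l, 1 ≤ lam l) → (∀ l, lam l ≤ Λ) → (∀ l, 0 ≤ gam l) →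
        (∀ l, gam l ≤ Λ) → β ≤ gam n → Q lam gam →
        ∃ M ≤ M₀, MicAtK Φ Ψ n K B R lam gam C₁ h M K' η' κ ϖ z₀ := by
  classical
  -- the space of the parameters
  obtain ⟨ext, hext⟩ : ∃ ext : ℝ → (Fin (n + 1) → ℝ) → ℕ → ℝ, ext = fun (c : ℝ)
      (u : Fin (n + 1) → ℝ) (l : ℕ) => if hl : l < n + 1 then u ⟨l, hl⟩ else c := ⟨_, rfl⟩
  have ext_lt : ∀ c u l (hl : l < n + 1), ext c u l = u ⟨l, hl⟩ := by
    intro c u l hl
    rw [hext]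
    exact dif_pos hl
  have ext_ge : ∀ (c : ℝ) u l, ¬ l < n + 1 → ext c u l = c := by
    intro c u l hl
    rw [hext]
    exact dif_neg hl
  have ext_cont : ∀ c, Continuous (ext c) := by
    intro c
    refine continuous_pi fun l => ?_
    by_cases hl : l < n + 1
    · have : (fun u => ext c u l) = fun u => u ⟨l, hl⟩ := by
        funext u
        exact ext_lt c u l hl
      rw [this]
      exact continuous_apply _
    · have : (fun u => ext c u l) = fun _ => c := by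
        funext u
        exact ext_ge c u l hl
      rw [this]
      exact continuous_const
  obtain ⟨Kc, hKc⟩ : ∃ Kc : Set ((Fin (n + 1) → ℝ) × (Fin (n + 1) → ℝ)), Kc =
      ((Set.Icc (fun _ : Fin (n + 1) => (1 : ℝ)) (fun _ => Λ)) ×ˢ
        (Set.Icc (fun l : Fin (n + 1) => if (l : ℕ) = n then β else 0) (fun _ => Λ))) ∩
        {x | Q (ext 1 x.1) (ext 0 x.2)} := ⟨_, rfl⟩
  have hcomp : IsCompact Kc := by
    rw [hKc]
    refine (isCompact_Icc.prod isCompact_Icc).inter_right ?_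
    exact hQ.cl.preimage (((ext_cont 1).comp continuous_fst).prodMk
      ((ext_cont 0).comp continuous_snd))
  have hx : ∀ x : (Fin (n + 1) → ℝ) × (Fin (n + 1) → ℝ), ∃ (M K' : ℕ) (η' κ ϖ : ℝ) (z₀ : ℕ),
      0 < η' ∧ 0 < κ ∧ 0 < ϖ ∧ (x ∈ Kc →
        MicAtK Φ Ψ n K B R (ext 1 x.1) (ext 0 x.2) (C₁ + 2) h M K' η' κ ϖ z₀) := by
    intro x
    by_cases hx : x ∈ Kc
    · rw [hKc] at hx
      obtain ⟨⟨⟨h1, h2⟩, ⟨h3, h4⟩⟩, h5⟩ := hx
      obtain ⟨M, K', η', κ, ϖ, z₀, a1, a2, a3, a4⟩ := H B R (ext 1 x.1) (ext 0 x.2) (C₁ + 2)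
        hB (fun l => by
        by_cases hl : l < n + 1
        · rw [ext_lt 1 x.1 l hl]
          exact h1 ⟨l, hl⟩
        · rw [ext_ge 1 x.1 l hl]) (fun l => by
        by_cases hl : l < n + 1
        · rw [ext_lt 0 x.2 l hl]
          have := h3 ⟨l, hl⟩
          simp only at this
          refine le_trans ?_ this
          split_ifs
          · exact hβ.le
          · exact le_rfl
        · rw [ext_ge 0 x.2 l hl]) (by
        rw [ext_lt 0 x.2 n (Nat.lt_succ_self n)]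
        have := h3 ⟨n, Nat.lt_succ_self n⟩
        simp only [if_true] at this
        exact hβ.trans_le this) (by linarith only [hC₁]) h5
      exact ⟨M, K', η', κ, ϖ, z₀, a1, a2, a3, fun _ => a4⟩
    · exact ⟨0, 0, 1, 1, 1, 0, one_pos, one_pos, one_pos, fun h' => absurd h' hx⟩
  choose M K' η' κ ϖ z₀ a1 a2 a3 a4 using hx
  obtain ⟨t, ht, hcov⟩ := hcomp.elim_nhds_subcover
    (fun x => Metric.ball x (1 / ((M x : ℝ) + 1))) (fun x _ =>
      Metric.ball_mem_nhds x (by positivity))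
  obtain ⟨cη, b1, c1⟩ := exists_pos_le t η' a1
  obtain ⟨cκ, b2, c2⟩ := exists_pos_le t κ a2
  obtain ⟨cϖ, b3, c3⟩ := exists_pos_le t ϖ a3
  refine ⟨t.sup M, t.sup K', cη, cκ, cϖ, max 1 (t.sup z₀), b1, b2, b3, ?_⟩
  intro lam gam l1 l2 g1 g2 g3 hq
  obtain ⟨y, hy⟩ : ∃ y : (Fin (n + 1) → ℝ) × (Fin (n + 1) → ℝ),
      y = (fun l : Fin (n + 1) => lam l, fun l : Fin (n + 1) => gam l) := ⟨_, rfl⟩
  have hyK : y ∈ Kc := by
    rw [hKc, hy]
    refine ⟨⟨⟨fun l => l1 l, fun l => l2 l⟩, ⟨fun l => ?_, fun l => g2 l⟩⟩, ?_⟩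
    · simp only
      split_ifs with hl
      · rw [hl]
        exact g3
      · exact g1 l
    · refine hQ.loc (fun l _ hl => ?_) (fun l _ hl => ?_) hq
      · exact ext_lt 1 _ l (by omega)
      · exact ext_lt 0 _ l (by omega)
  obtain ⟨x, hxt, hxy⟩ : ∃ x ∈ t, y ∈ Metric.ball x (1 / ((M x : ℝ) + 1)) := by
    have := hcov hyK
    simpa using this
  rw [Metric.mem_ball] at hxy
  have hxK : x ∈ Kc := ht x hxt
  have hM1 : (0 : ℝ) < M x + 1 := by positivity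
  have hd : ∀ u : ℝ, 0 ≤ u → u < 1 / ((M x : ℝ) + 1) → u * M x ≤ 1 := by
    intro u hu0 hu
    rw [lt_div_iff₀ hM1] at hu
    nlinarith only [hu0, hu, Nat.cast_nonneg (α := ℝ) (M x)]
  have hdl : ∀ l, 1 ≤ l → l ≤ n → |lam l - ext 1 x.1 l| * M x ≤ 1 := by
    intro l _ hl
    rw [ext_lt 1 x.1 l (by omega)]
    refine hd _ (abs_nonneg _) (lt_of_le_of_lt ?_ hxy)
    rw [hy, Prod.dist_eq]
    refine le_trans ?_ (le_max_left _ _)
    have := dist_le_pi_dist (fun l : Fin (n + 1) => lam l) x.1 ⟨l, by omega⟩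
    rw [Real.dist_eq] at this
    exact this
  have hdg : ∀ l, 1 ≤ l → l ≤ n → |gam l - ext 0 x.2 l| * M x ≤ 1 := by
    intro l _ hl
    rw [ext_lt 0 x.2 l (by omega)]
    refine hd _ (abs_nonneg _) (lt_of_le_of_lt ?_ hxy)
    rw [hy, Prod.dist_eq]
    refine le_trans ?_ (le_max_right _ _)
    have := dist_le_pi_dist (fun l : Fin (n + 1) => gam l) x.2 ⟨l, by omega⟩
    rw [Real.dist_eq] at this
    exact this
  have hxK' := hxK
  rw [hKc] at hxK'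
  obtain ⟨⟨⟨h1, -⟩, ⟨h3, -⟩⟩, -⟩ := hxK'
  refine ⟨M x, Finset.le_sup hxt, ?_⟩
  intro J a₀ w₀ z D q hz hO hL hN
  have hz1 : 1 ≤ z := (le_max_left _ _).trans hz
  have hz2 : z₀ x ≤ z := (Finset.le_sup hxt).trans ((le_max_right _ _).trans hz)
  have hO' := hO.pert (lam' := ext 1 x.1) (gam' := ext 0 x.2) (c2 x hxt) le_rfl hdl hdg
    (fun l => by
      by_cases hl : l < n + 1
      · rw [ext_lt 1 x.1 l hl]
        exact h1 ⟨l, hl⟩
      · rw [ext_ge 1 x.1 l hl]) (fun l => by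
      by_cases hl : l < n + 1
      · rw [ext_lt 0 x.2 l hl]
        have := h3 ⟨l, hl⟩
        simp only at this
        refine le_trans ?_ this
        split_ifs
        · exact hβ.le
        · exact le_rfl
      · rw [ext_ge 0 x.2 l hl])
  have hN' := hN.pert (gam' := ext 0 x.2) hO.isLaw (c3 x hxt) (a3 x) le_rfl hh1
    (by linarith only [hC₁]) hz1 (hdg n hn le_rfl)
  exact hΨ.mono (Finset.le_sup hxt) (c1 x hxt)
    (a4 x hxK J a₀ w₀ z D q hz2 hO' (hΦ.mono (c2 x hxt) (by linarith only) hL) hN')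

end Pool.STAT
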