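import Pool.Agent.H78.MIC.TopX
import Pool.Agent.H60.GEN.Par

/-!
# Kinds of windows

`Knd nk ι`: the kinds `x : ι` of the windows of an order: properties `A c x o g` of the window with
a constant `c`, and statements `Φ x o g r d` about the box of size `r` with an error `d`, which is
`o (r)`. `Knd.par`: the parameters of the cells with these properties. `Knd.cellK p K`: the data of
the fattest boxes with further parameters `p`; the chart contains the kind.

`noBS_knd`: the absence of boxes, from the boxes of every kind, whose slopes are the derivatives of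
the diagonals (`IsK`).
-/

set_option autoImplicit false

namespace Pool.STR

open MeasureTheory Set Filter Topology Pool.LEV Pool.RTS

namespace NumI

variable {P : ℝ → ℝ → ℝ} {ρ : ℝ → ℝ}

/-- No further properties. -/
def Par.triv (nk : NumI P ρ) : nk.Par :=
  Par.one (fun _ _ _ _ _ => True) (fun _ _ _ => 0) ∅ measure_empty
    (Eventually.of_forall fun _ _ _ _ => ⟨1, one_pos, fun _ _ _ e he => ⟨1, one_pos,
      fun r hr _ => ⟨trivial, (mul_pos he hr).le⟩⟩⟩)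

/-- **The kinds of windows.** -/
structure Knd (nk : NumI P ρ) (ι : Type) where
  /-- the properties of the window -/
  A : ℝ → ι → nk.O → ℝ → Prop
  /-- the statements about the box, with an error -/
  Φ : ι → nk.O → ℝ → ℝ → ℝ → Prop
  mono : ∀ {x : ι} {o : nk.O} {g r d d' : ℝ}, d ≤ d' → Φ x o g r d → Φ x o g r d'
  /-- windows which are left out -/
  N : Set ℝ
  hN : volume N = 0
  hk : ∀ᵐ Q : ℝ, RowD P ρ Nᶜ Q → ∀ o : nk.O, Lv P (Q, 0) ∈ nk.Gd o →
    P (Lv P (Q, 0)) (Lv P (Q, 0)) = Q → ∃ x : ι, ∃ c : ℝ, 0 < c ∧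
      (∀ c' : ℝ, 0 < c' → c' ≤ c → A c' x o (Lv P (Q, 0))) ∧
      ∀ e : ℝ, 0 < e → ∃ r₀ : ℝ, 0 < r₀ ∧ ∀ r : ℝ, 0 < r → r < r₀ → Φ x o (Lv P (Q, 0)) r (e * r)

/-- **Kinds of windows**, without the statement that there are no other windows. -/
structure KndP (nk : NumI P ρ) (ι : Type) where
  /-- the properties of the window -/
  A : ℝ → ι → nk.O → ℝ → Prop
  /-- the statements about the box, with an error -/
  Φ : ι → nk.O → ℝ → ℝ → ℝ → Prop
  mono : ∀ {x : ι} {o : nk.O} {g r d d' : ℝ}, d ≤ d' → Φ x o g r d → Φ x o g r d'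

/-- **A window of the kind** `x`. -/
def KndP.At {nk : NumI P ρ} {ι : Type} (K : KndP nk ι) (x : ι) (o : nk.O) (g : ℝ) : Prop :=
  ∃ c : ℝ, 0 < c ∧ (∀ c' : ℝ, 0 < c' → c' ≤ c → K.A c' x o g) ∧
    ∀ e : ℝ, 0 < e → ∃ r₀ : ℝ, 0 < r₀ ∧ ∀ r : ℝ, 0 < r → r < r₀ → K.Φ x o g r (e * r)

/-- **The kinds**, if all windows are of one of them. -/
def KndP.knd {nk : NumI P ρ} {ι : Type} (K : KndP nk ι) {N : Set ℝ} (hN : volume N = 0)
    (hk : ∀ᵐ Q : ℝ, RowD P ρ Nᶜ Q → ∀ o : nk.O, Lv P (Q, 0) ∈ nk.Gd o →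
      P (Lv P (Q, 0)) (Lv P (Q, 0)) = Q → ∃ x : ι, K.At x o (Lv P (Q, 0))) : Knd nk ι where
  A := K.A
  Φ := K.Φ
  mono := K.mono
  N := N
  hN := hN
  hk := hk

/-- The kinds of two families. -/
def KndP.sum {nk : NumI P ρ} {ι ι' : Type} (K : KndP nk ι) (K' : KndP nk ι') :
    KndP nk (ι ⊕ ι') where
  A c x := x.elim (K.A c) (K'.A c)
  Φ x := x.elim K.Φ K'.Φ
  mono {x} {_ _ _ _ _} hd h := by
    cases x with
    | inl x => exact K.mono hd h
    | inr x => exact K'.mono hd h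

theorem KndP.At.inl {nk : NumI P ρ} {ι ι' : Type} {K : KndP nk ι} {K' : KndP nk ι'} {x : ι}
    {o : nk.O} {g : ℝ} (h : K.At x o g) : (K.sum K').At (Sum.inl x) o g := h

theorem KndP.At.inr {nk : NumI P ρ} {ι ι' : Type} {K : KndP nk ι} {K' : KndP nk ι'} {x : ι'}
    {o : nk.O} {g : ℝ} (h : K'.At x o g) : (K.sum K').At (Sum.inr x) o g := h

/-- The kinds with the properties of two families. -/
def KndP.and {nk : NumI P ρ} {ι ι' : Type} (K : KndP nk ι) (K' : KndP nk ι') :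
    KndP nk (ι × ι') where
  A c x o g := K.A c x.1 o g ∧ K'.A c x.2 o g
  Φ x o g r d := K.Φ x.1 o g r d ∧ K'.Φ x.2 o g r d
  mono hd h := ⟨K.mono hd h.1, K'.mono hd h.2⟩

theorem KndP.At.and {nk : NumI P ρ} {ι ι' : Type} {K : KndP nk ι} {K' : KndP nk ι'} {x : ι}
    {x' : ι'} {o : nk.O} {g : ℝ} (h : K.At x o g) (h' : K'.At x' o g) :
    (K.and K').At (x, x') o g := by
  obtain ⟨c, hc, hA, hΦ⟩ := h
  obtain ⟨c', hc', hA', hΦ'⟩ := h'
  refine ⟨min c c', lt_min hc hc', fun c₀ h0 h1 => ⟨hA c₀ h0 (h1.trans (min_le_left _ _)),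
    hA' c₀ h0 (h1.trans (min_le_right _ _))⟩, fun e he => ?_⟩
  obtain ⟨r₁, hr₁, h3⟩ := hΦ e he
  obtain ⟨r₂, hr₂, h4⟩ := hΦ' e he
  exact ⟨min r₁ r₂, lt_min hr₁ hr₂, fun r hr h1 => ⟨h3 r hr (h1.trans_le (min_le_left _ _)),
    h4 r hr (h1.trans_le (min_le_right _ _))⟩⟩

variable {nk : NumI P ρ} {ι : Type} (K : Knd nk ι)

namespace Knd

/-- The statements on the box, with the error `d`. -/
def Bx (x : ι) (o : nk.O) (g r d : ℝ) : Prop :=
  0 < d ∧ (Par.triv nk).cell.BxF g r ((), o) d ∧ K.Φ x o g r d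

theorem bx_mono {x : ι} {o : nk.O} {g r : ℝ} : ∀ d d' : ℝ, d ≤ d' → K.Bx x o g r d →
    K.Bx x o g r d' := fun _ _ hd h => ⟨h.1.trans_le hd, h.2.1.mono hd, K.mono hd h.2.2⟩

/-- **The parameters** of the cells of the kinds. -/
noncomputable def par [Countable ι] {N' : Set ℝ} (hN' : volume N' = 0)
    (hord : (Par.triv nk).cell.OrdP N') : nk.Par where
  α := ι
  cα := inferInstance
  Ad' c k Q g _ := (Par.triv nk).cell.OrF c Q g k.2 ∧ K.A c k.1 k.2 g
  df k g r := dfi (K.Bx k.1 k.2 g r)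
  N := N' ∪ K.N
  hN := measure_union_null hN' K.hN
  hch := by
    filter_upwards [K.hk] with Q hQ hrow o ho
    have h1 : RowD P ρ N'ᶜ Q := { hrow with mem := fun h => hrow.mem (Or.inl h) }
    have h2 : RowD P ρ K.Nᶜ Q := { hrow with mem := fun h => hrow.mem (Or.inr h) }
    obtain ⟨c₁, hc₁, hOr, -, hbx⟩ := hord Q h1 o ho
    obtain ⟨x, c₂, hc₂, hA, hΦ⟩ := hQ h2 o ho hOr.val
    refine ⟨min c₁ c₂, lt_min hc₁ hc₂, fun c' hc' hcc e he => ?_⟩
    obtain ⟨r₁, hr₁, h3⟩ := hbx e he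
    obtain ⟨r₂, hr₂, h4⟩ := hΦ e he
    refine ⟨fun _ => x, min r₁ r₂, lt_min hr₁ hr₂, fun r hr hr' => ?_⟩
    have her : 0 < e * r := mul_pos he hr
    exact ⟨⟨hOr.mono (hcc.trans (min_le_left _ _)), hA c' hc' (hcc.trans (min_le_right _ _))⟩,
      dfi_le her.le ⟨her, h3 r hr (hr'.trans_le (min_le_left _ _)) (),
        h4 r hr (hr'.trans_le (min_le_right _ _))⟩⟩

end Knd

end NumI

end Pool.STR

namespace Pool.STAT

open MeasureTheory Set
open Pool.LEV (Law Lv)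
open Pool.STR (AffB NfB CellD NumI dfi dfi_spec)
open CLO

variable {P : ℝ → ℝ → ℝ} {ρ : ℝ → ℝ} {nk : NumI P ρ} {ι : Type} {c β h M : ℝ}

/-- **The boxes of a kind**: the slopes are the derivatives of the diagonals. -/
structure IsK (E : CellD P ρ) (kd : E.α → ι) (c β h M : ℝ) (x : ι) (ε : ℝ) (p : BS E) : Prop where
  is : IsBS E c β h M ε p
  eS : p.S = deriv (fun a => P a a) p.g
  eSj : ∀ j, p.Sj j = deriv (E.D p.k.2 j) p.g
  kd : kd p.k.1 = x

theorem isK_mono (E : CellD P ρ) (kd : E.α → ι) (c β h M : ℝ) (x : ι) :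
    MonoI (IsK E kd c β h M x) :=
  ⟨fun hp hε => ⟨(isBS_mono E c β h M).mono hp.is hε, hp.eS, hp.eSj, hp.kd⟩⟩

theorem isK_sub (E : CellD P ρ) (kd : E.α → ι) (c β h M : ℝ) (x : ι) (ε : ℝ) (p : BS E)
    (hp : IsK E kd c β h M x ε p) : IsBS E c β h M ε p := hp.is

/-- Two slopes of an almost affine function. -/
theorem affB_two {D : ℝ → ℝ} {V S V' S' g R d d' : ℝ} (hR : 0 ≤ R) (h : AffB D V S g R d)
    (h' : AffB D V' S' g R d') : |S - S'| * R ≤ d + d' := by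
  have a1 := abs_le.1 (h (g + R) (by rw [add_sub_cancel_left, abs_of_nonneg hR]))
  have a2 := abs_le.1 (h (g - R) (by rw [sub_sub_cancel_left, abs_neg, abs_of_nonneg hR]))
  have b1 := abs_le.1 (h' (g + R) (by rw [add_sub_cancel_left, abs_of_nonneg hR]))
  have b2 := abs_le.1 (h' (g - R) (by rw [sub_sub_cancel_left, abs_neg, abs_of_nonneg hR]))
  rw [add_sub_cancel_left] at a1 b1
  rw [sub_sub_cancel_left] at a2 b2
  rcases abs_cases (S - S') with ⟨h1, -⟩ | ⟨h1, -⟩ <;> rw [h1] <;> nlinarith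

section

variable [Countable ι] {K : NumI.Knd nk ι} {N' : Set ℝ} {hN' : volume N' = 0}
  {hord : (NumI.Par.triv nk).cell.OrdP N'} {p₀ : nk.Par}

/-- The kind of a chart. -/
def kdK (K : NumI.Knd nk ι) (hN' : volume N' = 0) (hord : (NumI.Par.triv nk).cell.OrdP N')
    (p₀ : nk.Par) : (p₀.and (K.par hN' hord)).cell.α → ι := fun x => x.2

/-- **The properties of the boxes of a kind**. -/
theorem knd_use {ε : ℝ} {p : BS (p₀.and (K.par hN' hord)).cell}
    (hp : IsBS (p₀.and (K.par hN' hord)).cell c β h M ε p) (hε : ε ≤ 1 / 2) (hr1 : p.r ≤ 1) :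
    (NumI.Par.triv nk).cell.OrF c p.Q p.g p.k.2 ∧ K.A c p.k.1.2 p.k.2 p.g ∧
      K.Bx p.k.1.2 p.k.2 p.g p.r (2 * (ε * p.r)) := by
  have h1 := NumI.Par.ad_right hp.ad
  have h2 := (NumI.Par.dfr_right (p := p₀) (q := K.par hN' hord) p.k p.g p.r).trans hp.df
  have h3 : dfi (K.Bx p.k.1.2 p.k.2 p.g p.r) ≤ ε * p.r := (le_max_left _ _).trans h2
  have h4 := h1.2.2.2.2
  have hr := hp.r0
  have hε0 : 0 < ε := hr.trans_le hp.rε
  have her : 0 < ε * p.r := mul_pos hε0 hr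
  refine ⟨h4.1, h4.2, dfi_spec K.bx_mono (lt_of_le_of_lt h3 (by linarith)) ?_⟩
  nlinarith

/-- **No boxes**, from the boxes of every kind. -/
theorem noBS_knd [Finite ι] (H : ∀ c β h : ℝ, 0 < c → 0 < β → 0 < h → ∃ M : ℝ, 0 < M ∧
    ∀ x : ι, EvP (IsK (p₀.and (K.par hN' hord)).cell (kdK K hN' hord p₀) c β h M x)
      fun _ => False) : (p₀.and (K.par hN' hord)).cell.NoBS := by
  refine noBS_of_evP fun c β h hc hβ hh => ?_
  obtain ⟨E, hE⟩ : ∃ E, E = (p₀.and (K.par hN' hord)).cell := ⟨_, rfl⟩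
  obtain ⟨M, hM, h1⟩ := H c (β / 2) h hc (by linarith) hh
  refine ⟨M, hM, ?_⟩
  choose εx b1 b2 using h1
  have := Fintype.ofFinite ι
  obtain ⟨ε₀, hε₀, h3⟩ := exists_pos_le (Finset.univ : Finset ι) εx b1
  obtain ⟨ε, hεd⟩ : ∃ ε, ε = min (min (ε₀ / 8) (1 / 2)) β := ⟨_, rfl⟩
  have hε : 0 < ε := by rw [hεd]; exact lt_min (lt_min (by linarith) (by norm_num)) hβ
  have e1 : ε ≤ ε₀ / 8 := by rw [hεd]; exact (min_le_left _ _).trans (min_le_left _ _)
  have e2 : ε ≤ 1 / 2 := by rw [hεd]; exact (min_le_left _ _).trans (min_le_right _ _)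
  have e3 : ε ≤ β := by rw [hεd]; exact min_le_right _ _
  refine ⟨ε, hε, fun p hp => ?_⟩
  have hr := hp.r0
  have hr1 : p.r ≤ 1 := by linarith [hp.rε]
  obtain ⟨hOr, hA, hB⟩ := knd_use hp e2 hr1
  have her : 0 < ε * p.r := mul_pos hε hr
  have hεr : 8 * (ε * p.r) ≤ ε₀ * p.r := by nlinarith
  have hS : |p.S - deriv (fun a => P a a) p.g| * (8 * p.r) ≤ ε * p.r + 2 * (ε * p.r) :=
    affB_two (by linarith) hp.dgP hB.2.1.dgP
  have hS' : |p.S - deriv (fun a => P a a) p.g| ≤ ε / 2 := by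
    by_contra hcon
    push Not at hcon
    have := mul_lt_mul_of_pos_right hcon (show 0 < 8 * p.r by linarith)
    nlinarith
  have hS2 := abs_le.1 hS'
  refine b2 p.k.1.2 ⟨p.k, p.Q, p.g, p.r, deriv (fun a => P a a) p.g,
    fun j => deriv ((p₀.and (K.par hN' hord)).cell.D p.k.2 j) p.g⟩
    ((isK_mono _ _ _ _ _ _ _).mono (ε := ε₀) ?_ (h3 _ (Finset.mem_univ _)))
  refine ⟨?_, rfl, fun _ => rfl, rfl⟩
  exact {
    r0 := hp.r0
    g0 := hp.g0
    g1 := hp.g1
    Q0 := hp.Q0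
    Q1 := hp.Q1
    rε := hp.rε.trans (by linarith)
    ad := hp.ad
    val := hp.val
    slo := by
      show 1 + β / 2 ≤ deriv (fun a => P a a) p.g
      linarith [hp.slo, hS2.2]
    cS := hOr.cS
    dgP := by
      intro w hw
      have h5 := hB.2.1.dgP w hw
      rw [hp.val] at h5
      exact h5.trans (by linarith)
    iso := by
      intro a w k1 k2 k3
      show |_ - p.Q - (a - p.g) - (deriv (fun a => P a a) p.g - 1) * (w - p.g)| ≤ ε₀ * p.r
      have h5 := abs_le.1 (hp.iso a w k1 k2 k3)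
      have h6 : |(p.S - deriv (fun a => P a a) p.g) * (w - p.g)| ≤ ε / 2 * (7 * p.r) := by
        rw [abs_mul]
        refine mul_le_mul hS' ?_ (abs_nonneg _) (by linarith)
        rw [abs_le]
        constructor <;> linarith
      have h7 := abs_le.1 h6
      have h8 : (p.S - deriv (fun a => P a a) p.g) * (w - p.g) =
          (p.S - 1) * (w - p.g) - (deriv (fun a => P a a) p.g - 1) * (w - p.g) := by ring
      have h9 : ε / 2 * (7 * p.r) = 7 / 2 * (ε * p.r) := by ring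
      rw [abs_le]
      constructor <;> linarith [h5.1, h5.2, h7.1, h7.2]
    S0 := hOr.S0j
    cSj := hOr.cSj
    dj := fun j w hw => (hB.2.1.dj j w hw).trans (by linarith)
    nf := nfB_mono hp.nf le_rfl (by nlinarith) le_rfl le_rfl
    df := hp.df.trans (by nlinarith) }

/-- The window of a box of a kind. -/
theorem knd_A {x : ι} {ε : ℝ} {p : BS (p₀.and (K.par hN' hord)).cell}
    (hp : IsK (p₀.and (K.par hN' hord)).cell (kdK K hN' hord p₀) c β h M x ε p) :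
    (NumI.Par.triv nk).cell.OrF c p.Q p.g p.k.2 ∧ K.A c x p.k.2 p.g := by
  have h1 := (NumI.Par.ad_right hp.is.ad).2.2.2.2
  have h2 : K.A c (kdK K hN' hord p₀ p.k.1) p.k.2 p.g := h1.2
  rw [hp.kd] at h2
  exact ⟨h1.1, h2⟩

/-- **The statements about the boxes of a kind.** -/
theorem knd_Φ {x : ι} {ε' : ℝ} (hε' : 0 < ε') :
    EvP (IsK (p₀.and (K.par hN' hord)).cell (kdK K hN' hord p₀) c β h M x) fun p =>
      K.Φ x p.k.2 p.g p.r (ε' * p.r) := by
  refine ⟨min (ε' / 2) (1 / 2), lt_min (by linarith) (by norm_num), fun p hp => ?_⟩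
  have hr := hp.is.r0
  have hr1 : p.r ≤ 1 := by linarith [hp.is.rε, min_le_right (ε' / 2) (1 / 2 : ℝ)]
  have h1 := (knd_use hp.is (min_le_right _ _) hr1).2.2.2.2
  have h2 : K.Φ (kdK K hN' hord p₀ p.k.1) p.k.2 p.g p.r
    (2 * (min (ε' / 2) (1 / 2) * p.r)) := h1
  rw [hp.kd] at h2
  refine K.mono ?_ h2
  have := mul_le_mul_of_nonneg_right (min_le_left (ε' / 2) (1 / 2 : ℝ)) hr.le
  linarith

end

end Pool.STAT
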