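import Pool.Agent.H78.MIC.TopX
import Pool.Agent.H40.ISO.NfK
import Pool.Agent.H40.ISO.IsoN

/-!
# Nonfull rows with universal numbers

`nf_rowU`, `nf_famU`, `nf_clsU`, `nf_U`: the rows as in `nf_rowS`, .., `nf_S` (helper40), for the
fattest boxes (all weights are `1`), with the numbers `B ≥ n + 2`: rows of few digits are trivial.
-/

set_option autoImplicit false

namespace Pool.MIC6

open Finset MvPolynomial
open Pool.Agent.H49.Ent Pool.Agent.H32.Dense Pool.STK Pool.KS3 Pool.STAT Pool.STAT.CLO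
open Pool.KA Pool.KSAT Pool.PB Pool.GEN Pool.K2S Pool.S6C Pool.GEN.N83
open Pool.BFL (Pl CB Pb P2 MC alt)

variable {D : NDat2} {n K J a₀ w₀ z M Y : ℕ} {lam gam : ℕ → ℝ} {κ κ' C₁ L₀ : ℝ} {q : D.Ω → ℝ}

/-- Finer natural digits, trivial bound. -/
theorem nd_triv {q : D.Ω → ℝ} (hq : IsLaw q) {W : Type} (Y : D.Ω → W) (i j : ℕ) {r p : ℕ}
    (hr : r ≤ p) : CH q (D.nd n i j p) (fun ω => (D.nd n i j r ω, Y ω)) ≤
      ((p : ℝ) - r) * Real.log 2 + 2 := by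
  have hpr : (1 : ℝ) ≤ 2 ^ (p - r) := one_le_pow₀ one_le_two
  refine (CH_le_int hq.nonneg hq.sum_one _ _ (fun _ => 2 ^ (p - r) + 1)
    fun ω ω' _ _ e => ?_).trans ?_
  · have e1 : D.nd n i j r ω = D.nd n i j r ω' := (Prod.ext_iff.1 e).1
    have h1 := sh_near (l := n) (d := r) e1
    refine (hgt_diff (a := D.g i j n + p) (r := 2 ^ (p - r) / 2 ^ (D.g i j n + p)) ?_).trans ?_
    · refine h1.trans (le_of_eq ?_)
      rw [div_eq_div_iff (by positivity) (by positivity), one_mul, ← pow_add]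
      congr 1
      omega
    · rw [mul_div_cancel₀ _ (by positivity)]
  · rw [Ex_const hq.sum_one]
    have h1 : 2 * ((2 : ℝ) ^ (p - r) + 1) + 1 ≤ 5 * 2 ^ (p - r) := by linarith
    have h2 : Real.log (2 * ((2 : ℝ) ^ (p - r) + 1) + 1) ≤ Real.log (5 * 2 ^ (p - r)) :=
      Real.log_le_log (by positivity) h1
    rw [Real.log_mul (by norm_num) (by positivity), Real.log_pow, Nat.cast_sub hr] at h2
    have h3 : Real.log 5 ≤ 2 := by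
      rw [Real.log_le_iff_le_exp (by norm_num)]
      have h4 := Real.add_one_le_exp (1 : ℝ)
      have h5 : Real.exp 2 = Real.exp 1 * Real.exp 1 := by
        rw [← Real.exp_add]
        norm_num
      have h6 := Real.exp_one_gt_d9
      nlinarith
    linarith

/-- **The row**, one pair, the numbers `B ≥ n + 2`. -/
theorem nf_rowU (n K : ℕ) (hn : 1 ≤ n) {C₁ L₀ : ℝ} (hC₁ : 0 ≤ C₁) (hL₀ : 0 ≤ L₀) :
    ∃ C₂ : ℝ, 0 ≤ C₂ ∧ ∀ B ≥ n + 2, ∀ M : ℕ, ∃ (κ₀ : ℝ) (z₀ : ℕ), 0 < κ₀ ∧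
    ∀ {D : NDat2} {J a₀ w₀ z Y : ℕ} {lam gam : ℕ → ℝ} {κ κ' : ℝ} {q : D.Ω → ℝ}, z₀ ≤ z →
      0 ≤ κ → κ ≤ κ₀ → B * (M * z) ≤ Y → (∀ l, 1 ≤ l → l ≤ n → lam l = 1) →
      D.Ok2 n K J a₀ w₀ z M lam gam κ' C₁ q → NfHS D n J z M Y L₀ κ q →
      (∀ i i' : ℕ, i ≤ i' → i' ≤ M → ∀ j ≤ M, ∀ l, 1 ≤ l → l ≤ n → D.g i j l ≤ D.g i' j l) →
      ∀ i j r U : ℕ, i + (r + U) ≤ M → j ≤ M →
        CH q (D.nd n i j ((r + U) * z)) (fun ω => (D.nd n i j (r * z) ω,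
          (D.vd n i j (B * ((r + U) * z)) ω, (D.s i j ω, D.T ω)))) ≤
        CH q (fun ω => ⌊(2 : ℝ) ^ (D.g i j n + (r + U) * z) * D.X ω n⌋)
          (fun ω => (⌊(2 : ℝ) ^ (D.g i j n + r * z) * D.X ω n⌋, (vj D n J ω, D.T ω))) +
          C₂ * z := by
  obtain ⟨C, hC, hcnt⟩ := nf_countS n K hn
  obtain ⟨Λ, hΛ⟩ := exists_nat_ge (2 * C₁)
  obtain ⟨s₀, hs₀⟩ : ∃ s₀ : ℕ, s₀ = (n + 1) * Λ + n + n * C := ⟨_, rfl⟩
  refine ⟨2 * C₁ + 2 + s₀, by positivity, ?_⟩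
  intro B hB M
  have hl2 : 0 < Real.log 2 := Real.log_pos one_lt_two
  have hl21 : Real.log 2 ≤ 1 := by
    have := Real.log_two_lt_d9
    linarith
  have hl9 : 0 < Real.log 9 := Real.log_pos (by norm_num)
  obtain ⟨ℓ, hℓ⟩ : ∃ ℓ : ℝ, ℓ = Real.log (5 + 2 * L₀) := ⟨_, rfl⟩
  have hℓ0 : 0 ≤ ℓ := by
    rw [hℓ]
    exact Real.log_nonneg (by linarith)
  obtain ⟨C', hC'⟩ : ∃ C' : ℝ, C' = ((n - 1 : ℕ) : ℝ) * ℓ / Real.log 2 + C := ⟨_, rfl⟩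
  have hC'0 : 0 ≤ C' := by
    rw [hC']
    positivity
  obtain ⟨E, hE⟩ : ∃ E : ℝ, E = ((B + 1) * M : ℕ) + Real.log 9 := ⟨_, rfl⟩
  have hE0 : 0 ≤ E := by
    rw [hE]
    positivity
  obtain ⟨V, hV⟩ : ∃ V : ℝ, V = (n : ℝ) * (n * E) := ⟨_, rfl⟩
  have hV0 : 0 ≤ V := by
    rw [hV]
    positivity
  obtain ⟨κ₀, hκ₀⟩ : ∃ κ₀ : ℝ, κ₀ = Real.log 2 / (8 * (V + 1)) := ⟨_, rfl⟩
  obtain ⟨z₀, hz₀⟩ := exists_nat_ge (4 * (V * C' + (n + 2) * ℓ + n * Real.log 9) + 1)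
  refine ⟨κ₀, z₀, by rw [hκ₀]; positivity, ?_⟩
  intro D J a₀ w₀ z Y lam gam κ κ' q hz hκ hκ1 hY hlam hO h hm i j r U hi hj
  have hq := hO.isLaw
  have hzR : (z₀ : ℝ) ≤ z := by exact_mod_cast hz
  have hvc : 0 ≤ V * C' + (n + 2) * ℓ + n * Real.log 9 := by positivity
  have hz1R : (1 : ℝ) ≤ z := by linarith
  have hz1 : 1 ≤ z := by exact_mod_cast hz1R
  have hzp : (0 : ℝ) < z := by linarith
  rcases Nat.eq_zero_or_pos (r + U) with h0 | hs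
  · have e0 : r = 0 := by omega
    have e1 : U = 0 := by omega
    subst e0 e1
    have h1 : CH q (D.nd n i j ((0 + 0) * z)) (fun ω => (D.nd n i j (0 * z) ω,
        (D.vd n i j (B * ((0 + 0) * z)) ω, (D.s i j ω, D.T ω)))) = 0 :=
      CH_eq_zero hq.nonneg fun ω ω' _ _ e => (Prod.ext_iff.1 e).1
    rw [h1]
    exact add_nonneg (CH_nonneg hq.nonneg _ _) (by positivity)
  obtain ⟨s, hs'⟩ : ∃ s, s = r + U := ⟨_, rfl⟩
  rw [← hs'] at hs hi ⊢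
  have hsz : 1 ≤ s * z := Nat.mul_pos hs hz1
  have hzsz : z ≤ s * z := Nat.le_mul_of_pos_left z hs
  have hszM : s * z ≤ M * z := Nat.mul_le_mul_right z (by omega)
  have hrs : r * z ≤ s * z := Nat.mul_le_mul_right z (by omega)
  rcases lt_or_ge s s₀ with hss | hss
  · have h1 := nd_triv (D := D) (n := n) hq
      (fun ω => (D.vd n i j (B * (s * z)) ω, (D.s i j ω, D.T ω))) i j hrs
    have h2 := CH_nonneg hq.nonneg
      (fun ω => ⌊(2 : ℝ) ^ (D.g i j n + s * z) * D.X ω n⌋)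
      (fun ω => (⌊(2 : ℝ) ^ (D.g i j n + r * z) * D.X ω n⌋, (vj D n J ω, D.T ω)))
    have h3 : (s : ℝ) ≤ s₀ := by exact_mod_cast hss.le
    have h4 : (((s * z : ℕ) : ℝ) - ((r * z : ℕ) : ℝ)) * Real.log 2 ≤ s₀ * z := by
      push_cast
      have h5 : ((s : ℝ) * z - r * z) * Real.log 2 ≤ (s * z - r * z) * 1 := by
        refine mul_le_mul_of_nonneg_left hl21 ?_
        have : ((r * z : ℕ) : ℝ) ≤ (s * z : ℕ) := by exact_mod_cast hrs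
        push_cast at this
        linarith
      have h6 : (s : ℝ) * z ≤ s₀ * z := mul_le_mul_of_nonneg_right h3 hzp.le
      have h7 : (0 : ℝ) ≤ r * z := by positivity
      linarith
    have h8 : 0 ≤ C₁ * z := by positivity
    have h9 : (2 * C₁ + 2 + s₀) * (z : ℝ) = 2 * (C₁ * z) + 2 * z + s₀ * z := by ring
    rw [h9]
    linarith
  obtain ⟨d, hd⟩ : ∃ d, d = B * (s * z) := ⟨_, rfl⟩
  rw [← hd]
  have hdY : d ≤ Y := by
    rw [hd]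
    exact (Nat.mul_le_mul_left B hszM).trans hY
  have hB1 : 1 ≤ B := by omega
  have hszd : s * z ≤ d := by
    rw [hd]
    exact Nat.le_mul_of_pos_left _ hB1
  obtain ⟨S, hS⟩ : ∃ S : ℕ, S = s * z + Λ * z := ⟨_, rfl⟩
  have hcond : n * (S + 1 + C * z) + S ≤ d := by
    rw [hd, hS]
    calc n * (s * z + Λ * z + 1 + C * z) + (s * z + Λ * z) ≤
          n * (s * z + Λ * z + z + C * z) + (s * z + Λ * z) := by
          refine Nat.add_le_add_right (Nat.mul_le_mul_left n ?_) _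
          omega
      _ = (n + 1) * (s * z) + ((n + 1) * Λ + n + n * C) * z := by ring
      _ ≤ (n + 1) * (s * z) + s * z := by
          rw [← hs₀]
          exact Nat.add_le_add_left (Nat.mul_le_mul_right z hss) _
      _ = (n + 2) * (s * z) := by ring
      _ ≤ B * (s * z) := Nat.mul_le_mul_right _ hB
  have hg : ∀ l, 1 ≤ l → l ≤ n → D.g i j l ≤ D.g (i + s) j l ∧
      D.g (i + s) j l ≤ D.g i j l + S := by
    intro l l1 l2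
    refine ⟨hm i (i + s) (by omega) hi j hj l l1 l2, ?_⟩
    have h1 := (abs_le.1 (lev_step hO hi hj l1 l2)).2
    rw [hlam l l1 l2, one_mul] at h1
    have h4 : (D.g (i + s) j l : ℝ) ≤ D.g i j l + (s * z + Λ * z) := by
      have h6 : 2 * C₁ * z ≤ Λ * z := mul_le_mul_of_nonneg_right hΛ hzp.le
      linarith
    rw [hS]
    exact_mod_cast h4
  have t1 := hcnt hO h hL₀ hκ (Nat.le_add_right i s) hi hj hg hz1 (by
    have h1 := hzsz.trans (hszM.trans (Nat.le_mul_of_pos_left (M * z) hB1))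
    exact h1.trans hY) (d := d) (p := s * z) hcond
  have t2 := nf_abs hq.nonneg (D.nd n i j (s * z)) (D.nd n i j (r * z)) (D.vd n i j d) (vj D n J)
    (fun ω => (D.s i j ω, D.T ω)) (fun ω => (D.s i j ω, (D.s (i + s) j ω, D.T ω)))
    (det_nd i j hrs)
  have t3 := h.rate (i := i) (j := j) hq hL₀ hn (by omega) hj hrs (hszd.trans hdY)
  have t4 := h.ch_vj hq hL₀ (by omega) hj hdY
    (y := fun ω => (D.vd n i j d ω, (D.s i j ω, D.T ω))) (fun _ _ _ _ e => e)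
  have t5 : CH q (fun ω => (D.s i j ω, D.T ω))
      (fun ω => (D.s i j ω, (D.s (i + s) j ω, D.T ω))) = 0 :=
    CH_eq_zero hq.nonneg fun ω ω' a b e => by
      simp only [Prod.mk.injEq] at e ⊢
      exact ⟨e.1, e.2.2⟩
  have t6 := h.ex i (i + s) (Nat.le_add_right i s) hi j hj
  have t7 : max 0 (((D.g i j n + s * z : ℕ) : ℝ) - D.g (i + s) j n) * Real.log 2 ≤
      2 * C₁ * z := by
    have h1 := (abs_le.1 (lev_step hO hi hj hn le_rfl)).1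
    have h2 : (s : ℝ) * z ≤ lam n * s * z := by
      have := mul_le_mul_of_nonneg_right (hO.lam_ge n) (by positivity : (0 : ℝ) ≤ s * z)
      linarith
    have h3 : max 0 (((D.g i j n + s * z : ℕ) : ℝ) - D.g (i + s) j n) ≤ 2 * C₁ * z := by
      refine max_le (by positivity) ?_
      push_cast
      linarith
    calc max 0 (((D.g i j n + s * z : ℕ) : ℝ) - D.g (i + s) j n) * Real.log 2 ≤
          2 * C₁ * z * Real.log 2 := mul_le_mul_of_nonneg_right h3 hl2.le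
      _ ≤ 2 * C₁ * z * 1 := mul_le_mul_of_nonneg_left hl21 (by positivity)
      _ = 2 * C₁ * z := mul_one _
  rw [← hℓ] at t1 t3 t4
  have t8 := sum_base (m := n - 1) (J := J) (g := D.g i j)
    (g' := D.g (i + s) j) (d := d) (a := Real.log 2) (b := ℓ)
  have t9 := row_err (s := s) (d := d) hℓ0 (Nat.cast_nonneg C) hC' hE hV hκ₀ hκ hκ1 hz1 (by
    rw [hd]
    have h1 := Nat.mul_le_mul_left B hszM
    calc B * (s * z) + s * z ≤ B * (M * z) + M * z := Nat.add_le_add h1 hszM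
      _ = (B + 1) * M * z := by ring) (hz₀.trans hzR)
  have h9 : (2 * C₁ + 2 + s₀) * (z : ℝ) = 2 * C₁ * z + z + (z + s₀ * z) := by ring
  have h10 : (0 : ℝ) ≤ z + s₀ * z := by positivity
  rw [h9]
  linarith

/-- **The rows for one family**, from `ExS`, the numbers `B ≥ n + 2`. -/
theorem nf_famU (n K K' s₁ : ℕ) (sh : ℕ → ℕ) (hn : 1 ≤ n) (hK' : 1 ≤ K') {C₁ : ℝ}
    (hC₁ : 0 ≤ C₁) : ∃ (C₂ : ℝ) (s₂ : ℕ), 0 ≤ C₂ ∧ ∀ B ≥ n + 2, ∀ M : ℕ,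
    ∃ (κ₀ : ℝ) (z₀ : ℕ), 0 < κ₀ ∧
    ∀ {m J : ℕ} {F : Fam m J} {D : GDat F} {c : ℕ → Fin m} {a₀ w₀ z : ℕ} {e : ℕ → ℕ → ℕ}
    {g : ℕ → ℕ → ℕ → ℕ} {A : F.Ω → Prop} {R : ℕ → ℕ → Type} {ρ : (i j : ℕ) → LnT F → R i j}
    {lam gam : ℕ → ℝ} {k κ' a : ℝ},
    D.Ok c n K K' s₁ sh a₀ w₀ z M e g A → Inj c n →
    (∀ i : Fin m, i ≠ c (n - 1) → ∃ l < n - 1, c l = i) → z₀ ≤ z →
    0 ≤ k → k ≤ κ₀ → (∀ l, 1 ≤ l → l ≤ n → lam l = 1) →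
    (∀ i ≤ M, ∀ j ≤ M, ∀ l < n, sh (l + 1) ≤ g i j l) →
    (∀ i i' : ℕ, i ≤ i' → i' ≤ M → ∀ j ≤ M, ∀ l < n, g i j l ≤ g i' j l) →
    SizY n J (B * (M * z)) M s₂ e g →
    ∀ {q : F.Ω → ℝ}, IsLaw q → (∀ ω, 0 < q ω → A ω) →
    (∀ ω ω', 0 < q ω → 0 < q ω' → F.Z ω = F.Z ω') →
    ExS D c n sh M g (k * z) q →
    (D.nd c n sh w₀ z M g ρ).Ok2 n K' J a₀ w₀ z M lam gam κ' C₁ q →
    (∀ P Q : ℕ, P ≤ Q → (∃ i ≤ M, ∃ j ≤ M, g i j (n - 1) - sh n ≤ P ∧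
      Q ≤ g i j (n - 1) - sh n + M * z) →
      CH q (fun ω => F.X Q ω (c (n - 1)))
        (fun ω => (F.X P ω (c (n - 1)), oth (c (n - 1)) J F (ptr F J ω))) ≤
        (1 - a) * (((Q : ℝ) - P) * Real.log 2) + z) →
    NF0 (D.nd c n sh w₀ z M g ρ) n z M B a (C₂ + 1) q := by
  obtain ⟨L, s₂, hL, hnf⟩ := nfh_famS n K K' s₁ sh hK'
  obtain ⟨C₂, hC₂, hrow⟩ := nf_rowU n K' hn hC₁ (by linarith : 0 ≤ L)
  refine ⟨C₂, s₂, hC₂, fun B hB M => ?_⟩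
  obtain ⟨κ₀, z₀, hκ₀, hrow⟩ := hrow B hB M
  refine ⟨κ₀, z₀, hκ₀, ?_⟩
  intro m J F D c a₀ w₀ z e g A R ρ lam gam k κ' a hD hc hcov hz hk hk1 hlam hsh hmon hsiz q hq
    hA hZ hx hok hrate i hi j hj r U hrU
  have hT := hok.thin
  have hP := hok.top
  have hMz : (M + 1) * z = M * z + z := by ring
  have hN := hnf (ρ := ρ) hD hc (by omega) (by omega) hsh hsiz hq hA hx
  have hgn : ∀ i j l, 1 ≤ l → (D.nd c n sh w₀ z M g ρ).g i j l = g i j (l - 1) - sh l :=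
    fun i j l l1 => CDat2.nd2_g _ _ _ _ _ _ _ l1
  have h1 := hrow hz hk hk1 le_rfl hlam hok hN (fun i i' hii hi' j hj l l1 l2 => by
    rw [hgn i j l l1, hgn i' j l l1]
    exact Nat.sub_le_sub_right (hmon i i' hii hi' j hj (l - 1) (by omega)) _) i j r U
    (by omega) hj
  refine h1.trans ?_
  rw [hgn i j n hn]
  have h2 := rate_vj (J := J) (c := c) hq.nonneg hn hcov hZ (g i j (n - 1) - sh n + r * z)
    (g i j (n - 1) - sh n + (r + U) * z)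
  have h3 : r * z ≤ (r + U) * z := Nat.mul_le_mul_right z (by omega)
  have h4 : (r + U) * z ≤ M * z := Nat.mul_le_mul_right z (by omega)
  have h5 := hrate (g i j (n - 1) - sh n + r * z) (g i j (n - 1) - sh n + (r + U) * z)
    (by omega) ⟨i, hi, j, hj, by omega, by omega⟩
  have h6 : (((g i j (n - 1) - sh n + (r + U) * z : ℕ) : ℝ) -
      ((g i j (n - 1) - sh n + r * z : ℕ) : ℝ)) = U * z := by
    push_cast
    ring
  rw [h6] at h5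
  have h7 := h2.trans h5
  have h8 : CH q (fun ω => ⌊(2 : ℝ) ^ (g i j (n - 1) - sh n + (r + U) * z) *
      (D.nd c n sh w₀ z M g ρ).X ω n⌋)
      (fun ω => (⌊(2 : ℝ) ^ (g i j (n - 1) - sh n + r * z) * (D.nd c n sh w₀ z M g ρ).X ω n⌋,
        (vj (D.nd c n sh w₀ z M g ρ) n J ω, (D.nd c n sh w₀ z M g ρ).T ω))) ≤
      (1 - a) * (U * z * Real.log 2) + z := h7
  have h9 : (1 - a) * (U * z * Real.log 2) + z + C₂ * z =
      (1 - a) * (U * z) * Real.log 2 + (C₂ + 1) * z := by ring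
  rw [← h9]
  exact add_le_add_left h8 _

end Pool.MIC6

namespace Pool.STAT

open Finset MvPolynomial
open Pool.Agent.H49.Ent Pool.Agent.H32.Dense Pool.STK Pool.KS3 Pool.KA Pool.KSAT Pool.PB Pool.GEN
open Pool.K2S Pool.S6C Pool.GEN.N83
open Pool.BFL (Pb)
open Pool.LEV (Law)
open Pool.STR (Affn Nw JCB NfB NoJB2)
open CLO Pool.MIC6

variable {m : ℕ}

/-- **The rows of the cells of the real grid, for a class**, from exactness given the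
labels at the points, the numbers `B ≥ n + 2`. -/
theorem nf_clsU (n K K' s₁ : ℕ) (sh : ℕ → ℕ) (hn : 1 ≤ n) (hK' : 1 ≤ K') {C₁ : ℝ}
    (hC₁ : 0 ≤ C₁) : ∃ C₂ : ℝ, 0 ≤ C₂ ∧ ∀ B ≥ n + 2, ∀ M : ℕ, ∃ k₀ : ℝ, 0 < k₀ ∧
    ∀ {m : ℕ} {S : PCl m} {W : GrdP m} {c : ℕ → Fin m} {α ϖ ζ : ℝ} {e : ℕ → ℕ → ℝ} {b : ℕ → ℕ → ℕ → ℝ}
    {R : (J : ℕ) → (F : Fam m J) → GDat F → ℕ → ℕ → Type}
    {ρ : (J : ℕ) → (F : Fam m J) → (D : GDat F) → (i j : ℕ) → LnT F → R J F D i j} {lam gam : ℕ → ℝ}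
    {k κ' h A₀ B₁ η : ℝ} {r : ℝ → ℝ},
    0 < ζ → 0 ≤ k → k ≤ k₀ → Inj c n →
    (∀ i : Fin m, i ≠ c (n - 1) → ∃ l < n - 1, c l = i) →
    (∀ l, 1 ≤ l → l ≤ n → lam l = 1) →
    (∀ i ≤ M, ∀ j ≤ M, 0 ≤ e i j) → (∀ i ≤ M, ∀ j ≤ M, ∀ l < n, 0 < b i j l) →
    (∀ i ≤ M, ∀ j ≤ M, ∀ l < n, b i j l + e i j + (B * M + 1) * ζ < 1) →
    (∀ i i' : ℕ, i ≤ i' → i' ≤ M → ∀ j ≤ M, ∀ l < n, b i j l ≤ b i' j l) →
    0 ≤ A₀ → B₁ ≤ 1 →
    (∀ i ≤ M, ∀ j ≤ M, A₀ + ζ ≤ b i j (n - 1) ∧ b i j (n - 1) + (M + 1) * ζ ≤ B₁) →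
    0 ≤ h → h ≤ 1 → 0 ≤ η → η ≤ ζ / 2 → Pool.STR.NfB r h η A₀ B₁ →
    (∀ (τ : ℝ) (J : ℕ) (F : Fam m J) (A : F.Ω → Prop), S.St τ J F A → 0 < Pe F.p A) →
    Bas S (fun _ F _ => Zc F) → Pool.ALL.RateOf S (c (n - 1)) r →
    FldV S W c n K K' s₁ sh α ϖ ζ M e b (fun J F D q =>
      ExS D c n sh M (fun i j l => ⌊b i j l * J⌋₊) (k * up ζ J) q) →
    FldV S W c n K K' s₁ sh α ϖ ζ M e b (fun J F D q =>
      (D.nd c n sh (up ϖ J) (up ζ J) M (fun i j l => ⌊b i j l * J⌋₊) (ρ J F D)).Ok2 n K' J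
        (up α J) (up ϖ J) (up ζ J) M lam gam κ' C₁ q) →
    FldV S W c n K K' s₁ sh α ϖ ζ M e b (fun J F D q =>
      NF0 (D.nd c n sh (up ϖ J) (up ζ J) M (fun i j l => ⌊b i j l * J⌋₊) (ρ J F D)) n
        (up ζ J) M B h (C₂ + 1) q) := by
  obtain ⟨C₂, s₂, hC₂, hfam⟩ := nf_famU n K K' s₁ sh hn hK' hC₁
  refine ⟨C₂, hC₂, fun B hB M => ?_⟩
  obtain ⟨κ₀, z₀, hκ₀, hfam⟩ := hfam B hB M
  refine ⟨κ₀, hκ₀, ?_⟩
  intro m S W c α ϖ ζ e b R ρ lam gam k κ' h A₀ B₁ η r hζ hk hk1 hc hcov hlam he hb hsz hmon hA₀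
    hB₁ hlev hh hh1 hη hη1 hnf hpos hZ hR hr hok
  have hAB : A₀ ≤ B₁ := by
    obtain ⟨l1, l2⟩ := hlev 0 (Nat.zero_le M) 0 (Nat.zero_le M)
    have : (0 : ℝ) ≤ (M + 1) * ζ := by positivity
    linarith
  have hrb := rate_box hpos (fun J F ω => oth (c (n - 1)) J F (ptr F J ω)) (c (n - 1))
    (ρ := r) hR.num hA₀ hAB hB₁ hh hh1 hη hnf (e := ζ / 2) (by positivity)
  have hP : Bas S (fun _ F A => 0 < Pe F.p A) := ⟨1, one_pos, 0, fun J _ F A hA => hpos 1 J F A hA⟩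
  obtain ⟨J₁, hlv⟩ := lev_ev (B₁ := B₁) hA₀ hζ M (sh n)
  obtain ⟨J₂, hflo⟩ := flo_ev hb sh
  obtain ⟨J₃, hsi⟩ := sizY_ev (show 1 ≤ B by omega) hζ he hb hsz s₂
  obtain ⟨J₄, hJ₄⟩ := exists_nat_ge ((z₀ : ℝ) / ζ)
  refine Bas.mono (max (max J₁ J₂) (max J₃ J₄)) (Bas.and (Bas.and hP hZ)
    (Bas.and (Bas.and hr hok) hrb)) fun J hJ F A hA D hD hX => ?_
  obtain ⟨⟨f1, f2⟩, ⟨f3, f6⟩, f7⟩ := hA
  have f5 := f3 D hD hX
  have j1 : J₁ ≤ J := ((le_max_left _ _).trans (le_max_left _ _)).trans hJ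
  have j2 : J₂ ≤ J := ((le_max_right _ _).trans (le_max_left _ _)).trans hJ
  have j3 : J₃ ≤ J := ((le_max_left _ _).trans (le_max_right _ _)).trans hJ
  have j4 : J₄ ≤ J := ((le_max_right _ _).trans (le_max_right _ _)).trans hJ
  have hz : z₀ ≤ up ζ J := by
    have h8 : (J₄ : ℝ) ≤ J := by exact_mod_cast j4
    have h9 : (z₀ : ℝ) / ζ ≤ J := hJ₄.trans h8
    rw [div_le_iff₀ hζ] at h9
    have h10 : ζ * J ≤ up ζ J := up_ge ζ J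
    have h11 : (z₀ : ℝ) ≤ up ζ J := by linarith only [h9, h10]
    exact_mod_cast h11
  have hJ0 : (0 : ℝ) ≤ J := Nat.cast_nonneg J
  refine hfam hD hc hcov hz hk hk1 hlam
    (fun i hi j hj l hl => hflo J j2 i hi j hj l hl)
    (fun i i' hii hi' j hj l hl => Nat.floor_le_floor
      (mul_le_mul_of_nonneg_right (hmon i i' hii hi' j hj l hl) hJ0))
    (hsi J j3) (isLaw_cond F.isLaw f1) (fun ω hω => Pool.PB.End.of_cond_pos hω)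
    (fun ω ω' hω hω' => f2 ω ω' ((cond_pos_iff F.isLaw.nonneg _ _ _).1 hω).1
      ((cond_pos_iff F.isLaw.nonneg _ _ _).1 hω').1) f5 (f6 D hD hX) ?_
  rintro P Q hPQ ⟨i, hi, j, hj, k1, k2⟩
  obtain ⟨l1, l2⟩ := hlev i hi j hj
  obtain ⟨m1, m2⟩ := hlv J j1 _ l1 l2
  have k1' : ((⌊b i j (n - 1) * J⌋₊ - sh n : ℕ) : ℝ) ≤ P := by exact_mod_cast k1
  have k2' : (Q : ℝ) ≤ ((⌊b i j (n - 1) * J⌋₊ - sh n + M * up ζ J : ℕ) : ℝ) := by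
    exact_mod_cast k2
  refine (f7 P Q (m1.trans k1') hPQ (k2'.trans m2)).trans ?_
  have h10 : ζ * J ≤ up ζ J := up_ge ζ J
  have h11 : (η + ζ / 2) * J ≤ ζ * J := mul_le_mul_of_nonneg_right (by linarith) hJ0
  linarith

section kit

variable {n₀ : ℕ} {Θ : Type*} {I : ℝ → Θ → Prop} {S : PCl m}

/-- **Nonfull rows** of the cells of the kit, from exactness given the
labels at the points and from `Ok2`, the numbers `B ≥ n + 2`. -/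
theorem nf_U (hI : MonoI I)
    (hpos : ∀ (τ : ℝ) (J : ℕ) (F : Fam m J) (A : F.Ω → Prop), S.St τ J F A → 0 < Pe F.p A)
    (hZ : Bas S (fun _ F _ => Zc F)) (Kt : KitP m Θ n₀)
    (hml : ∀ p, ∀ l < n₀ + 1, Kt.ml p l = 1) (hinj : ∀ p, Inj (Kt.cs p) (n₀ + 1))
    (hcov : ∀ p, ∀ i : Fin m, i ≠ Kt.cs p n₀ → ∃ l < n₀, Kt.cs p l = i)
    {r : ℝ → ℝ} (hR : ∀ p, Pool.ALL.RateOf S (Kt.cs p n₀) r) {K' s₁ : ℕ} {sh : ℕ → ℕ}
    (hK' : 1 ≤ K') {h : ℝ} (hh : 0 < h) (hh1 : h ≤ 1)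
    (frow : ∀ ε' : ℝ, 0 < ε' → EvP I fun p => NfB r h (ε' * Kt.X p)
      (Kt.L p n₀ ((Kt.y p).1 + (Kt.y p).2) (Kt.y p).1 - Kt.X p)
      (Kt.L p n₀ ((Kt.y p).1 + (Kt.y p).2) (Kt.y p).1 + 2 * Kt.X p)) {T' : ℝ}
    (fcel : ∀ ε' : ℝ, 0 < ε' → EvP I fun p =>
      CellL (n₀ + 1) (Kt.L p) ε' T' (Kt.y p) (Kt.X p) (Kt.la p) (Kt.ml p))
    (fexs : ∀ k : ℝ, 0 < k → ∀ M : ℕ, EvQ I fun N θ p =>
      Kt.FldN S K' s₁ sh M N θ p fun G J F D q => ExS D G.c G.n G.sh G.M (G.gn J)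
        (k * up G.ζ J) q)
    (fok : ∃ C₅ : ℝ, ∀ C₁ ≥ C₅, ∀ κ : ℝ, 0 < κ → ∀ M : ℕ, EvQ I fun N θ p =>
      Kt.FldN S K' s₁ sh M N θ p fun G J F D q => (Kt.nd p N M θ G F D).Ok2 G.n G.K' J
        (up G.α J) (up G.ϖ J) (up G.ζ J) G.M (lamS (n₀ + 1) (Kt.ml p))
        (gamS (n₀ + 1) (Kt.la p) (Kt.ml p)) κ C₁ q) :
    ∃ C₃ : ℝ, ∀ C₁ ≥ C₃, ∀ B ≥ n₀ + 1 + 2, ∀ M : ℕ,
    EvQ I fun N θ p => Kt.FldN S K' s₁ sh M N θ p fun G J F D q =>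
      (Kt.nd p N M θ G F D).NF1 G.n (up G.ζ J) G.M B
        (gamS (n₀ + 1) (Kt.la p) (Kt.ml p)) h C₁ q := by
  obtain ⟨C₅, fok⟩ := fok
  obtain ⟨C₁', hC₁'⟩ : ∃ C₁', C₁' = max C₅ 1 := ⟨_, rfl⟩
  have c1 : C₅ ≤ C₁' := by rw [hC₁']; exact le_max_left _ _
  have c3 : 1 ≤ C₁' := by rw [hC₁']; exact le_max_right _ _
  obtain ⟨C₂, hC₂, hnf⟩ := nf_clsU (n₀ + 1) Kt.K K' s₁ sh (by omega) hK' (C₁ := C₁')
    (by linarith only [c3])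
  refine ⟨C₂ + 1, fun C₁ hC₁ B hBn M => ?_⟩
  have hB : 1 ≤ B := by omega
  obtain ⟨k, hk0, hnf⟩ := hnf B hBn M
  obtain ⟨N₁, hN₁⟩ := exists_nat_ge (4 * (T' + 2))
  have key := (((KitP.cel_evQ fcel M).and hI (EvQ.of_evP fun N =>
    frow (1 / (64 * (N * (M + 4)) + 1)) (by positivity))).and hI
    ((fexs k hk0 M).and hI (fok C₁' c1 1 one_pos M))).and hI
    (EvQ.self I (max N₁ (B + 1)) (θ₀ := 1 / 16) (by norm_num)
      (ε := fun N _ => 1) (fun N _ _ => one_pos))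
  refine key.mono ?_
  rintro N θ p ⟨⟨⟨hL, hNf⟩, pexc, pok⟩, hN, hθ, hθ1, -⟩ b e hnear
  obtain ⟨ε, hε⟩ : ∃ ε : ℝ, ε = 1 / (64 * (N * (M + 4)) + 1) := ⟨_, rfl⟩
  rw [← hε] at hL hNf
  have hNN : N₁ ≤ N := (le_max_left _ _).trans hN
  have hNB : B + 1 ≤ N := (le_max_right _ _).trans hN
  have hN1 : 1 ≤ N := by omega
  have hNT : 4 * (T' + 2) ≤ N := hN₁.trans (by exact_mod_cast hNN)
  have hε0 : 0 < ε := by rw [hε]; positivity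
  have hεN : ε * (64 * (N * (M + 4))) ≤ 1 := by
    rw [hε, one_div, inv_mul_le_iff₀ (by positivity)]
    linarith
  have hn1 : 1 ≤ n₀ + 1 := by omega
  have hs := hL.sideE (B := B) hn1 hN1 hNT hNB hB hε0.le hεN hθ hθ1 hnear
  have hX := hL.pos
  have hζ0 := hs.ζ0
  have e1 : N * ((M + 4) * msh (Kt.X p) N M) = Kt.X p := msh_mul hN1
  have hεX : ε * Kt.X p ≤ msh (Kt.X p) N M / 2 := by
    have h1 : ε * (64 * (N * (M + 4))) * msh (Kt.X p) N M ≤ 1 * msh (Kt.X p) N M :=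
      mul_le_mul_of_nonneg_right hεN hζ0.le
    have h2 : ε * (64 * (N * (M + 4))) * msh (Kt.X p) N M =
      64 * (ε * (N * ((M + 4) * msh (Kt.X p) N M))) := by ring
    rw [h2, e1] at h1
    linarith only [h1, hζ0]
  have hlow0 := hL.low n₀ (by omega) ((Kt.y p).1 + (Kt.y p).2) (Kt.y p).1 hs.win
    (by linarith only [hL.dep, hX]) (by linarith only [hL.top, hX])
  have hup0 := hL.lt n₀ (by omega)
  have hfin := hnf (S := S) (W := Kt.W p N M θ) (c := Kt.cs p)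
    (α := (Kt.y p).1 + (Kt.y p).2) (ϖ := (Kt.y p).1) (ζ := msh (Kt.X p) N M) (e := e) (b := b)
    (ρ := fun J F D => Kt.rc p N M θ J F D) (lam := lamS (n₀ + 1) (Kt.ml p))
    (gam := gamS (n₀ + 1) (Kt.la p) (Kt.ml p)) (k := k) (η := ε * Kt.X p) (r := r)
    (A₀ := Kt.L p n₀ ((Kt.y p).1 + (Kt.y p).2) (Kt.y p).1 - Kt.X p)
    (B₁ := Kt.L p n₀ ((Kt.y p).1 + (Kt.y p).2) (Kt.y p).1 + 2 * Kt.X p)
    hζ0 hk0.le le_rfl (hinj p) (hcov p)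
    (fun l l1 l2 => by
      unfold lamS
      rw [if_pos ⟨l1, l2⟩, hml p _ (by omega), max_self]) hnear.e0 hs.pos hs.siz hs.mono
    (by linarith only [hlow0, hL.dep, hL.win, hX]) (by linarith only [hup0, hX])
    hs.lev hh.le hh1 (by positivity) hεX hNf hpos hZ (hR p)
    (FldW.iff_v.1 (pexc b e hnear)) (FldW.iff_v.1 (pok b e hnear))
  exact (FldW.iff_v.2 hfin).mono 0 fun J _ F D q hq => (hq.nf1 _).mono hC₁

end kit

end Pool.STAT
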