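import Pool.Agent.H78.MIC.GenT
import Pool.Agent.H1.GEN.One

/-!
# No new label, abstract cells

`CellL.cdevP`: the numbers of a new label of the target, at a rational point of the cell.
`no_of_P`: if no chain with the property `XN` is above the levels of the cell, and if the chains of
the new labels have the property `XN`, then there is no new label.
`no_tgs`: the threshold of all labels of the target is at most the level of the target, up to small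
errors, on the cell: then there is no new label.
`no_B`: the same for the threshold of the chains with restricted sides.
-/

set_option autoImplicit false

namespace Pool.STAT

open Finset MvPolynomial
open Pool.Agent.H49.Ent Pool.Agent.H32.Dense Pool.STK Pool.KS3 Pool.KA Pool.KSAT Pool.PB Pool.GEN
open Pool.K2S Pool.S6C
open Pool.LEV (Law)
open Pool.STR (Affn Nw)
open Pool.CHT (bet)
open Pool.CHB (chsysB)
open Pool.LBT (ThrOf)
open Pool.LBN (Tch cof cof_lt cof_ge)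
open Pool.ONE (tgs)
open CLO

namespace CellL

variable {m : ℕ} {L : ℕ → ℝ → ℝ → ℝ} {ε T X : ℝ} {y : ℝ × ℝ} {la mu : ℕ → ℝ} {N M : ℕ}

/-- **The numbers of a new label of the target**, at a rational point near the point of the
grid. -/
theorem cdevP {l : ℕ} (h : CellL (l + 1) L ε T y X la mu) (hN : 1 ≤ N) (hNT : 4 * (T + 2) ≤ N)
    (hε0 : 0 ≤ ε) (hε : ε * (64 * (N * (M + 4))) ≤ 1)
    {G : RG m} {A : ℕ} {δ : ℝ}
    (hGM : G.M = M) (hGα : G.α = y.1 + y.2) (hGϖ : G.ϖ = y.1)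
    (hGζ : G.ζ = msh X N M) (hA : 1 ≤ A) (hAN : A ≤ N) (hδ : 0 ≤ δ)
    (hb : ∀ i ≤ M, ∀ j ≤ M,
      |G.b i j l - L l (y.1 + y.2 + i * msh X N M) (y.1 + j * msh X N M)| ≤ msh X N M / 16)
    (hbk : ∀ i ≤ M, ∀ j ≤ M, ∀ k < l,
      G.b i j k ≤ L k (y.1 + y.2 + i * msh X N M) (y.1 + j * msh X N M) - δ)
    (hb0 : ∀ i ≤ M, ∀ j ≤ M, ∀ k ≤ l, 0 ≤ G.b i j k) {i j : ℕ} (hi : i ≤ M) (hj : j ≤ M) :
    ∃ a w : ℚ, 0 ≤ w ∧ w ≤ a ∧ a ≤ 1 ∧ dist ((w : ℝ), (a : ℝ) - w) y ≤ X ∧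
      L l a w + msh X N M / 8 ≤ 1 ∧
      ∃ J₁ : ℕ, ∀ J ≥ J₁, CdX L l a w (msh X N M / 8) δ J (up G.α J + i * up G.ζ J)
        (up G.ϖ J + j * up G.ζ J)
        (Pool.LBK.gv (fun i j l => G.gn J i j (l - 1) - G.sh l) i j l
          (G.gn J i j l - G.sh (l + 1) + A * up G.ζ J)) := by
  have hX := h.pos
  have hN1 : (1 : ℝ) ≤ N := by exact_mod_cast hN
  have hM0 : (0 : ℝ) ≤ M := Nat.cast_nonneg M
  obtain ⟨ζ, hζ⟩ : ∃ ζ, ζ = msh X N M := ⟨_, rfl⟩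
  have hζ0 : 0 < ζ := by rw [hζ]; exact msh_pos hX hN
  have e1 : N * ((M + 4) * ζ) = X := by rw [hζ]; exact msh_mul hN
  have hl : l < l + 1 := Nat.lt_succ_self l
  have hT : 0 ≤ T := (h.mu0 l hl).trans (h.muT l hl)
  have hM : ((M : ℝ) + 4) * ζ ≤ X := by
    rw [← e1]
    exact le_mul_of_one_le_left (by positivity) hN1
  have hε4 : ε ≤ 1 / 4 := by
    have h64 : (64 : ℝ) * 4 ≤ 64 * (N * (M + 4)) := by nlinarith only [hNT, hT]
    nlinarith only [hε, hε0, h64]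
  have hεX : ε * X ≤ ζ / 64 := by
    have h1 : ε * (64 * (N * (M + 4))) * ζ ≤ 1 * ζ := mul_le_mul_of_nonneg_right hε hζ0.le
    have h2 : ε * (64 * (N * (M + 4))) * ζ = 64 * (ε * (N * ((M + 4) * ζ))) := by ring
    rw [h2, e1] at h1
    linarith only [h1]
  have hdep := h.dep
  have hwin := h.win
  have htop := h.top
  have hi' : (i : ℝ) ≤ M := by exact_mod_cast hi
  have hj' : (j : ℝ) ≤ M := by exact_mod_cast hj
  have hi0 : (0 : ℝ) ≤ i := Nat.cast_nonneg i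
  have hj0 : (0 : ℝ) ≤ j := Nat.cast_nonneg j
  -- a rational point
  obtain ⟨v, hv⟩ : ∃ v, v = ζ / (16 * (T + 1)) := ⟨_, rfl⟩
  have hv0 : 0 < v := by rw [hv]; positivity
  have hv1 : (T + 1) * v = ζ / 16 := by rw [hv]; field_simp
  have hvζ : v ≤ ζ := by nlinarith only [hv0, hv1, hT]
  obtain ⟨w, hw1, hw2⟩ := exists_rat_btwn (show y.1 + j * ζ < y.1 + j * ζ + v by
    linarith only [hv0])
  obtain ⟨a, ha1, ha2⟩ := exists_rat_btwn (show y.1 + y.2 + i * ζ < y.1 + y.2 + i * ζ + v by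
    linarith only [hw1, hw2])
  obtain ⟨s, hs⟩ : ∃ s, s = ((a : ℝ) - (y.1 + y.2)) / ζ := ⟨_, rfl⟩
  obtain ⟨t, ht⟩ : ∃ t, t = ((w : ℝ) - y.1) / ζ := ⟨_, rfl⟩
  have hsζ : s * ζ = a - (y.1 + y.2) := by rw [hs]; field_simp
  have htζ : t * ζ = w - y.1 := by rw [ht]; field_simp
  have hs1 : (i : ℝ) ≤ s := by
    rw [hs, le_div_iff₀ hζ0]
    linarith only [ha1]
  have hs2 : s ≤ M + 1 := by
    rw [hs, div_le_iff₀ hζ0]
    have := mul_le_mul_of_nonneg_right hi' hζ0.le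
    linarith only [hvζ, ha2, this]
  have ht1 : (j : ℝ) ≤ t := by
    rw [ht, le_div_iff₀ hζ0]
    linarith only [hw1]
  have ht2 : t ≤ M + 1 := by
    rw [ht, div_le_iff₀ hζ0]
    have := mul_le_mul_of_nonneg_right hj' hζ0.le
    linarith only [hvζ, hw2, this]
  have g1 := (abs_le.1 (h.grid (N := N) (M := M) hN hl (hi0.trans hs1)
    (by linarith only [hX, hdep, hwin, htop, hs2])
    (hj0.trans ht1) (by linarith only [hX, hdep, hwin, htop, ht2]))).2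
  have g2 := (abs_le.1 (h.grid (N := N) (M := M) hN hl hi0
    (by linarith only [hX, hdep, hwin, htop, hi']) hj0
    (by linarith only [hX, hdep, hwin, htop, hj']))).1
  have g3 := h.grid_lt (N := N) (M := M) hN hNT hε4 hl hi0
    (by linarith only [hX, hdep, hwin, htop, hi'] : (i : ℝ) ≤ M + 3) hj0
    (by linarith only [hX, hdep, hwin, htop, hj'] : (j : ℝ) ≤ M + 3)
  have g4 := h.grid_lt (N := N) (M := M) hN hNT hε4 hl (hi0.trans hs1)
    (by linarith only [hX, hdep, hwin, htop, hs2] : s ≤ M + 3) (hj0.trans ht1)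
    (by linarith only [hX, hdep, hwin, htop, ht2] : t ≤ M + 3)
  rw [← hζ] at g1 g2 g3 g4
  rw [hsζ, htζ] at g1 g4
  have r1 : y.1 + y.2 + (a - (y.1 + y.2)) = (a : ℝ) := by ring
  have r2 : y.1 + (w - y.1) = (w : ℝ) := by ring
  rw [r1, r2] at g1 g4
  -- the level at the rational point
  have g5 : L l a w ≤ L l (y.1 + y.2 + i * ζ) (y.1 + j * ζ) + ζ / 32 + ζ / 8 := by
    have q1 : (mu l * s + (la l - mu l) * t) * ζ - (mu l * i + (la l - mu l) * j) * ζ =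
        mu l * (s * ζ - i * ζ) + (la l - mu l) * (t * ζ - j * ζ) := by ring
    have q2 : mu l * (s * ζ - i * ζ) ≤ (T + 1) * v := by
      rw [hsζ]
      exact mul_le_mul (by linarith only [hX, hdep, hwin, htop, h, hl, h.muT l hl])
        (by linarith only [ha2]) (by linarith only [ha1])
        (by linarith only [hX, hT, hdep, hwin, htop])
    have q3 : (la l - mu l) * (t * ζ - j * ζ) ≤ (T + 1) * v := by
      rw [htζ]
      exact mul_le_mul (by linarith only [hX, hdep, hwin, htop, h, hl, h.laT l hl, h.mu0 l hl])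
        (by linarith only [hw2]) (by linarith only [hw1])
        (by linarith only [hX, hT, hdep, hwin, htop])
    linarith only [hεX, hv1, g1, g2, q2, q3]
  have hbij := abs_le.1 (hb i hi j hj)
  rw [← hζ] at hbij
  have hA1 : (1 : ℝ) ≤ A := by exact_mod_cast hA
  have hAζ : (A : ℝ) * ζ ≤ X := by
    have q1 : (A : ℝ) ≤ N := by exact_mod_cast hAN
    rw [← e1]
    refine mul_le_mul q1 ?_ hζ0.le (by linarith only [hNT, hX, hT, hdep, hwin, htop])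
    nlinarith only [hvζ, hw1, hw2, hζ0]
  have hwζ : (j : ℝ) * ζ ≤ M * ζ := mul_le_mul_of_nonneg_right hj' hζ0.le
  have haζ : (i : ℝ) * ζ ≤ M * ζ := mul_le_mul_of_nonneg_right hi' hζ0.le
  have iζ0 : 0 ≤ (i : ℝ) * ζ := by positivity
  have jζ0 : 0 ≤ (j : ℝ) * ζ := by positivity
  have hwa : (w : ℝ) ≤ a := by linarith only [hM, hdep, hvζ, hw1, hw2, ha1, hwζ, iζ0]
  have hw0 : (0 : ℝ) ≤ w := by linarith only [hwin, hX, jζ0, hw1]
  have ha1' : (a : ℝ) ≤ 1 := by linarith only [hM, htop, hvζ, hw1, hw2, ha2, haζ, iζ0]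
  rw [← hζ]
  refine ⟨a, w, by exact_mod_cast hw0, by exact_mod_cast hwa, by exact_mod_cast ha1', ?_,
    by linarith only [hM, hvζ, hw1, hw2, g4, haζ, iζ0], ?_⟩
  · rw [Prod.dist_eq, Real.dist_eq, Real.dist_eq]
    refine max_le ?_ ?_
    · show |(w : ℝ) - y.1| ≤ X
      rw [abs_le]
      constructor
      · linarith only [hw1, jζ0, hX]
      · linarith only [hw2, hwζ, hM, hvζ, hζ0]
    · show |(a : ℝ) - w - y.2| ≤ X
      rw [abs_le]
      constructor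
      · linarith only [ha1, iζ0, hw2, hwζ, hM, hvζ, hζ0]
      · linarith only [ha2, haζ, hw1, jζ0, hM, hvζ, hζ0]
  refine cd_ev (L := L) (A := A) (by omega) (by omega)
    (by rw [hGϖ]; linarith only [hM, hwin, hvζ, hw1, hw2, haζ, iζ0])
    (by rw [hGζ, ← hζ]; exact hζ0) ?_ ?_ ?_ ?_
    (by exact_mod_cast ha1') (by linarith only [hvζ, hw1, hw2, hv0]) ?_ (hb0 i hi j hj) ?_ ?_ ?_
  · rw [hGϖ, hGM, hGζ, hGα, ← hζ]
    nlinarith only [hM, hdep, hvζ, hw1, hw2]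
  · rw [hGM, hGζ, hGα, ← hζ]
    nlinarith only [hM, htop, hvζ, hw1, hw2, haζ, iζ0]
  · rw [hGϖ, hGζ, ← hζ]
    exact hw1
  · rw [hGα, hGζ, ← hζ]
    exact ha1
  · intro k hk x z hx hz hzx hx1
    rw [hGα, hGζ, ← hζ] at hx
    rw [hGϖ, hGζ, ← hζ] at hz
    have q1 := hbk i hi j hj k hk
    rw [← hζ] at q1
    have q2 := (h.law k (by omega)).mono (a := y.1 + y.2 + i * ζ) (a' := x) (w := y.1 + j * ζ)
      (w' := z) (by linarith only [hM, hwin, hvζ, hw1, hw2, haζ, iζ0, jζ0])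
      (by linarith only [hM, hdep, hvζ, hw1, hw2, hwζ, iζ0]) hx hz hzx hx1
    linarith only [q1, q2]
  · intro k hk
    have q1 := hbk i hi j hj k hk
    have q2 := h.grid_lt (N := N) (M := M) hN hNT hε4 (l := k) (by omega) hi0
      (by linarith only [hM, hdep, hwin, htop, hi', hvζ, hw1, hw2, haζ, iζ0] : (i : ℝ) ≤ M + 3)
      hj0
      (by linarith only [hM, hdep, hwin, htop, hj', hvζ, hw1, hw2, haζ, iζ0] : (j : ℝ) ≤ M + 3)
    rw [← hζ] at q1 q2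
    linarith only [hδ, hM, hvζ, hw1, hw2, haζ, iζ0, q1, q2, hζ0]
  · rw [hGζ, ← hζ]
    have q1 : ζ ≤ A * ζ := by nlinarith only [hζ0, hA1]
    linarith only [hvζ, hw1, hw2, g5, hbij, q1, hbij.1, hζ0]
  · rw [hGζ, ← hζ]
    linarith only [hM, hvζ, hw1, hw2, g3, hbij, hAζ, haζ, iζ0, hbij.2, hζ0]

end CellL

variable {Θ : Type*} {I : ℝ → Θ → Prop} {m n₀ : ℕ}

/-- **No new label** in the cells of a kit. `XN`: a property of chains; `hno`: no chains with this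
property above the levels; `hlink`: the chains of the new labels have this property. -/
theorem no_of_P (hI : MonoI I) {S : PCl m}
    (hpos : ∀ (τ : ℝ) (J : ℕ) (F : Fam m J) (A : F.Ω → Prop), S.St τ J F A → 0 < Pe F.p A)
    (Kt : KitP m Θ n₀) {T' : ℝ} (fcel : ∀ ε' : ℝ, 0 < ε' → EvP I fun p =>
      CellL (n₀ + 1) (Kt.L p) ε' T' (Kt.y p) (Kt.X p) (Kt.la p) (Kt.ml p))
    {K' s₁ : ℕ} {sh : ℕ → ℕ} (hK' : 1 ≤ K') {XN : Θ → ℕ → ℝ → ChX m} {M K'' : ℕ} {η' : ℝ}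
    (hη : 0 < η')
    (hno : EvQ I fun N θ p => ∀ (K : ℕ) (a w : ℚ) (δ : ℝ), 0 ≤ w → w ≤ a → a ≤ 1 → 0 < δ →
      dist ((w : ℝ), (a : ℝ) - w) (Kt.y p) ≤ Kt.X p →
      Kt.L p n₀ a w + msh (Kt.X p) N M / 8 ≤ 1 → Bas S fun J F A =>
        ∀ (a₀ w₀ e₀ : ℕ) (g : ℕ → ℕ) (Gc : PtT F → ℕ → MvPolynomial (Option (Fin m)) ℝ)
          (Hc : LnT F → ℕ → MvPolynomial (Option (Fin m)) ℝ),
        CellL.CdX (Kt.L p) n₀ a w (msh (Kt.X p) N M / 8) δ J a₀ w₀ g →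
        ChOK F (Kt.cs p) (n₀ + 1) (fun _ => K) a₀ w₀ e₀ g A Gc Hc →
        ¬ XN p N θ J F a₀ w₀ g A Gc Hc)
    (hlink : EvQ I fun N θ p => ∀ (b : ℕ → ℕ → ℕ → ℝ) (e : ℕ → ℕ → ℝ),
      Kt.Near p N M θ b e → ∀ i ≤ M, ∀ j ≤ M, Bas S fun J F B => ∀ D : GDat F,
      (Kt.grid K' s₁ sh p N M θ b e).Ok F D B → ∀ (E : F.Ω → Prop) (Gn : Pt2 F → PN)
        (Hn : Ln2 F × ℕ → PN), Sub E B → η' * Pe F.p B ≤ Pe F.p E →
      NewOn (D.cd (n₀ + 1) fun _ _ _ => PUnit.unit) (cx F fun i => Kt.cs p (i - 1))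
        (fun i j l => ⌊b i j (l - 1) * J⌋₊ - sh l) (up ((Kt.y p).1 + (Kt.y p).2) J)
        (up (Kt.y p).1 J) (up (msh (Kt.X p) N M) J) i j n₀
        (⌊b i j n₀ * J⌋₊ - sh (n₀ + 1) + 1 * up (msh (Kt.X p) N M) J) K'' Gn Hn E →
      XN p N θ J F (up ((Kt.y p).1 + (Kt.y p).2) J + i * up (msh (Kt.X p) N M) J)
        (up (Kt.y p).1 J + j * up (msh (Kt.X p) N M) J)
        (Pool.LBK.gv (fun i j l => ⌊b i j (l - 1) * J⌋₊ - sh l) i j n₀
          (⌊b i j n₀ * J⌋₊ - sh (n₀ + 1) + 1 * up (msh (Kt.X p) N M) J)) E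
        (Pool.LBK.Gv (D.cd (n₀ + 1) fun _ _ _ => PUnit.unit) (Kt.cs p) i j n₀ Gn)
        (Pool.LBK.Hv (D.cd (n₀ + 1) fun _ _ _ => PUnit.unit) (Kt.cs p) (up (Kt.y p).1 J)
          (up (Kt.y p).1 J + j * up (msh (Kt.X p) N M) J) i j n₀ Hn)) :
    EvQ I fun N θ p => Kt.FldN S K' s₁ sh M N θ p fun G J F D q => ∀ i ≤ G.M, ∀ j ≤ G.M,
      ¬ (Kt.nd p N M θ G F D).NewLab2 J (up G.α J) (up G.ϖ J) (up G.ζ J) i j G.n 1 K'' η' q := by
  obtain ⟨N₁, hN₁⟩ := exists_nat_ge (4 * (T' + 2))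
  have key := (((KitP.cel_evQ fcel M).and hI hno).and hI hlink).and hI
    (EvQ.self I (max N₁ 1) (θ₀ := 1 / 16) (by norm_num)
      (ε := fun N _ => 1) (fun N _ _ => one_pos))
  refine key.mono ?_
  rintro N θ p ⟨⟨⟨hL, pno⟩, plink⟩, hN, hθ, hθ1, -⟩ b e hnear
  obtain ⟨ε, hε⟩ : ∃ ε : ℝ, ε = 1 / (64 * (N * (M + 4)) + 1) := ⟨_, rfl⟩
  rw [← hε] at hL
  have hε0 : 0 < ε := by rw [hε]; positivity
  have hNN : N₁ ≤ N := (le_max_left _ _).trans hN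
  have hN1 : 1 ≤ N := (le_max_right _ _).trans hN
  have hNT : 4 * (T' + 2) ≤ N := hN₁.trans (by exact_mod_cast hNN)
  obtain ⟨ζ, hζ⟩ : ∃ ζ, ζ = msh (Kt.X p) N M := ⟨_, rfl⟩
  have hX := hL.pos
  have hζ0 : 0 < ζ := by rw [hζ]; exact msh_pos hX hN1
  have hN1' : (1 : ℝ) ≤ N := by exact_mod_cast hN1
  have hM0 : (0 : ℝ) ≤ M := Nat.cast_nonneg M
  have e1 : N * ((M + 4) * ζ) = Kt.X p := by rw [hζ]; exact msh_mul hN1
  have hMζ : ((M : ℝ) + 4) * ζ ≤ Kt.X p := by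
    rw [← e1]
    exact le_mul_of_one_le_left (by positivity) hN1'
  have hdep := hL.dep
  have hwin := hL.win
  have htop := hL.top
  have hεN : ε * (64 * (N * (M + 4))) ≤ 1 := by
    rw [hε, one_div, inv_mul_le_iff₀ (by positivity)]
    linarith only
  have hθζ : θ * ζ ≤ ζ / 16 := by nlinarith only [hθ1, hζ0]
  -- the distance to the levels
  obtain ⟨t, ht⟩ : ∃ t : Finset (ℕ × ℕ × ℕ), t = (range (M + 1)) ×ˢ (range (M + 1)) ×ˢ range n₀ :=
    ⟨_, rfl⟩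
  obtain ⟨δ, hδ, hδt⟩ := exists_pos_le t (fun x => if x ∈ t then
    Kt.L p x.2.2 ((Kt.y p).1 + (Kt.y p).2 + x.1 * msh (Kt.X p) N M)
      ((Kt.y p).1 + x.2.1 * msh (Kt.X p) N M) - b x.1 x.2.1 x.2.2 else 1) (by
      rintro ⟨i, j, k⟩
      split_ifs with hx
      · rw [ht, Finset.mem_product, Finset.mem_product, mem_range, mem_range, mem_range] at hx
        have := hnear.up i (by have := hx.1; simp only at this; omega) j
          (by have := hx.2.1; simp only at this; omega) k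
          (by have := hx.2.2; simp only at this; omega)
        simp only
        linarith only [this]
      · exact one_pos)
  obtain ⟨G, hG⟩ : ∃ G, G = Kt.grid K' s₁ sh p N M θ b e := ⟨_, rfl⟩
  have hGn : G.n = n₀ + 1 := by rw [hG]; rfl
  have hGM : G.M = M := by rw [hG]; rfl
  have hGα : G.α = (Kt.y p).1 + (Kt.y p).2 := by rw [hG]; rfl
  have hGϖ : G.ϖ = (Kt.y p).1 := by rw [hG]; rfl
  have hGζ : G.ζ = msh (Kt.X p) N M := by rw [hG]; rfl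
  have hGb : G.b = b := by rw [hG]; rfl
  have hGK' : G.K' = K' := by rw [hG]; rfl
  have hGc : G.c = Kt.cs p := by rw [hG]; rfl
  have hb1 : ∀ i ≤ M, ∀ j ≤ M, |G.b i j n₀ - Kt.L p n₀
      ((Kt.y p).1 + (Kt.y p).2 + i * msh (Kt.X p) N M) ((Kt.y p).1 + j * msh (Kt.X p) N M)| ≤
      msh (Kt.X p) N M / 16 := by
    intro i hi j hj
    have h1 := hnear.up i hi j hj n₀ (Nat.lt_succ_self _)
    have h2 := hnear.lo i hi j hj n₀ (Nat.lt_succ_self _)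
    rw [hGb]
    rw [← hζ] at h1 h2 ⊢
    rw [abs_le]
    constructor
    · linarith only [h2, hθζ]
    · linarith only [h1, hζ0]
  have hb2 : ∀ i ≤ M, ∀ j ≤ M, ∀ k < n₀, G.b i j k ≤ Kt.L p k
      ((Kt.y p).1 + (Kt.y p).2 + i * msh (Kt.X p) N M) ((Kt.y p).1 + j * msh (Kt.X p) N M) -
      δ := by
    intro i hi j hj k hk
    have hx : (i, j, k) ∈ t := by
      rw [ht, Finset.mem_product, Finset.mem_product, mem_range, mem_range, mem_range]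
      exact ⟨by simp only; omega, by simp only; omega, by simp only; omega⟩
    have h1 := hδt (i, j, k) hx
    rw [if_pos hx] at h1
    simp only at h1
    rw [hGb]
    linarith only [h1]
  have hb3 : ∀ i ≤ M, ∀ j ≤ M, ∀ k ≤ n₀, 0 ≤ G.b i j k := by
    intro i hi j hj k hk
    have h2 := hnear.lo i hi j hj k (by omega)
    rw [← hζ] at h2
    have hi' : (i : ℝ) ≤ M := by exact_mod_cast hi
    have hj' : (j : ℝ) ≤ M := by exact_mod_cast hj
    have i0 : 0 ≤ (i : ℝ) * ζ := by positivity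
    have j0 : 0 ≤ (j : ℝ) * ζ := by positivity
    have i1 : (i : ℝ) * ζ ≤ M * ζ := mul_le_mul_of_nonneg_right hi' hζ0.le
    have j1 : (j : ℝ) * ζ ≤ M * ζ := mul_le_mul_of_nonneg_right hj' hζ0.le
    have h3 := hL.low k (by omega) ((Kt.y p).1 + (Kt.y p).2 + i * ζ) ((Kt.y p).1 + j * ζ)
      (by linarith only [hwin, hX, j0]) (by linarith only [hMζ, hdep, i0, j1, hζ0])
      (by linarith only [htop, hMζ, i1, hζ0, hX])
    rw [hGb]
    linarith only [h2, h3, hθζ, hMζ, hdep, hwin, i0, hζ0, hX, mul_nonneg hM0 hζ0.le]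
  have hfin : FldW S G fun J F D q => ∀ i ≤ G.M, ∀ j ≤ G.M,
      ¬ (G.nd D (R := fun _ _ => PUnit) fun _ _ _ => PUnit.unit).NewLab2 J (up G.α J)
        (up G.ϖ J) (up G.ζ J) i j G.n 1 K'' η' q := by
    refine no_newW_all fun i hi j hj => ?_
    rw [hGM] at hi hj
    obtain ⟨a, w, hw0, hwa, ha1, hdist, hL1, hcd⟩ := hL.cdevP (G := G.toRG) hN1 hNT hε0.le hεN
      hGM hGα hGϖ hGζ (A := 1) le_rfl hN1 hδ.le hb1 hb2 hb3 hi hj
    have hlk := plink b e hnear i hi j hj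
    rw [← hG] at hlk
    refine no_newW hpos (fun _ _ _ _ _ _ => PUnit.unit) (K := max G.K' K'') hGn (by omega)
      (by omega) (by rw [hGK']; exact hK')
      (by rw [hGϖ]; exact hX.le.trans hwin) (by rw [hGζ, ← hζ]; exact hζ0)
      (by rw [hGϖ, hGM, hGζ, hGα, ← hζ]; nlinarith only [hMζ, hζ0, hdep])
      (by rw [hGM, hGζ, hGα, ← hζ]; nlinarith only [hMζ, hζ0, htop, hX]) hη le_rfl
      (XN := XN p N θ) ?_ hcd ?_
    · rw [hGc]
      exact pno _ a w δ hw0 hwa ha1 hδ hdist hL1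
    · subst hG
      exact hlk
  rw [hG] at hfin
  exact hfin

/-- **No new label**, if the threshold of all labels of the target is at most the level of the
target, up to small errors, on the cells. -/
theorem no_tgs (hI : MonoI I) {S : PCl m}
    (hpos : ∀ (τ : ℝ) (J : ℕ) (F : Fam m J) (A : F.Ω → Prop), S.St τ J F A → 0 < Pe F.p A)
    (Kt : KitP m Θ n₀) (hinj : ∀ p, Inj (Kt.cs p) (n₀ + 1)) {T' : ℝ}
    (fcel : ∀ ε' : ℝ, 0 < ε' → EvP I fun p =>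
      CellL (n₀ + 1) (Kt.L p) ε' T' (Kt.y p) (Kt.X p) (Kt.la p) (Kt.ml p))
    {K' s₁ : ℕ} {sh : ℕ → ℕ} (hK' : 1 ≤ K') {P : Θ → ℝ → ℝ → ℝ}
    (hP : ∀ p, ThrOf (tgs (Kt.cs p n₀)) S fun _ => P p)
    (fiso : ∀ ε' : ℝ, 0 < ε' → EvP I fun p => ∀ z : ℝ × ℝ, dist z (Kt.y p) ≤ Kt.X p →
      Nw (P p) z ≤ Nw (Kt.L p n₀) z + ε' * Kt.X p) {M K'' : ℕ} {η' : ℝ} (hη : 0 < η') :
    EvQ I fun N θ p => Kt.FldN S K' s₁ sh M N θ p fun G J F D q => ∀ i ≤ G.M, ∀ j ≤ G.M,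
      ¬ (Kt.nd p N M θ G F D).NewLab2 J (up G.α J) (up G.ϖ J) (up G.ζ J) i j G.n 1 K'' η' q := by
  refine no_of_P hI hpos Kt fcel hK' (XN := fun _ _ _ _ _ _ _ _ _ _ _ => True) hη ?_
    ⟨0, fun _ _ => ⟨1, one_pos, fun _ _ _ => EvP.of fun _ _ _ _ _ _ _ _ => ⟨1, one_pos, 0,
      fun _ _ _ _ _ _ _ _ _ _ _ _ _ => trivial⟩⟩⟩
  have key := (KitP.cel_evQ fcel M).and hI ((EvQ.of_evP fun N =>
    fiso (1 / (16 * ((N + 1) * (M + 4)))) (by positivity)).and hI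
    (EvQ.self I 1 (θ₀ := 1 / 16) (by norm_num) (ε := fun N _ => 1) (fun N _ _ => one_pos)))
  refine key.mono ?_
  rintro N θ p ⟨hL, pis, hN1, -, -, -⟩ K a w δ hw0 hwa ha1 - hdist hL1
  have hX := hL.pos
  obtain ⟨ζ, hζ⟩ : ∃ ζ, ζ = msh (Kt.X p) N M := ⟨_, rfl⟩
  have hζ0 : 0 < ζ := by rw [hζ]; exact msh_pos hX hN1
  have e1 : N * ((M + 4) * ζ) = Kt.X p := by rw [hζ]; exact msh_mul hN1
  have hM0 : (0 : ℝ) ≤ M := Nat.cast_nonneg M
  have hN0 : (0 : ℝ) ≤ N := Nat.cast_nonneg N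
  rw [← hζ] at hL1 ⊢
  -- the threshold at the point
  have h1 := pis _ hdist
  have h2 : Nw (P p) ((w : ℝ), (a : ℝ) - w) = P p a w := by
    show P p ((w : ℝ) + ((a : ℝ) - w)) w = _
    rw [add_sub_cancel]
  have h3 : Nw (Kt.L p n₀) ((w : ℝ), (a : ℝ) - w) = Kt.L p n₀ a w := by
    show Kt.L p n₀ ((w : ℝ) + ((a : ℝ) - w)) w = _
    rw [add_sub_cancel]
  rw [h2, h3] at h1
  have h4 : 1 / (16 * ((N + 1) * (M + 4))) * Kt.X p ≤ ζ / 16 := by
    rw [one_div, inv_mul_le_iff₀ (by positivity)]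
    have h5 : (N : ℝ) * ((M + 4) * ζ) ≤ (N + 1) * ((M + 4) * ζ) :=
      mul_le_mul_of_nonneg_right (by linarith) (by positivity)
    calc Kt.X p = N * ((M + 4) * ζ) := e1.symm
      _ ≤ (N + 1) * ((M + 4) * ζ) := h5
      _ = _ := by ring
  have h6 : P p a w + ζ / 16 ≤ Kt.L p n₀ a w + ζ / 8 := by linarith
  refine Bas.mono 0 ((hP p).no () K a w (ζ / 16) hw0 hwa ha1 (by linarith) (by linarith)) ?_
  intro J _ F A hno a₀ w₀ e₀ g Gc Hc hcd hch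
  obtain ⟨c1, c2, c3, c4, c5, c6, c7⟩ := hcd
  refine absurd ?_ hno
  -- the coordinates
  obtain ⟨l, hl⟩ : ∃ l : List (Fin m), l = (List.range n₀).map (Kt.cs p) := ⟨_, rfl⟩
  have hlen : l.length = n₀ := by rw [hl, List.length_map, List.length_range]
  have hget : ∀ i, ∀ hi : i < l.length, l[i] = Kt.cs p i := by
    intro i hi
    subst hl
    rw [List.getElem_map, List.getElem_range]
  have hnd : l.Nodup := by
    rw [hl]
    refine List.Nodup.map_on (fun x hx y hy hxy => ?_) List.nodup_range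
    rw [List.mem_range] at hx hy
    exact hinj p _ (by omega) _ (by omega) hxy
  have hk : Kt.cs p n₀ ∉ l := by
    rw [hl, List.mem_map]
    rintro ⟨x, hx, hxy⟩
    rw [List.mem_range] at hx
    have := hinj p x (by omega) n₀ (by omega) hxy
    omega
  have hJ0 : (0 : ℝ) ≤ J := Nat.cast_nonneg J
  refine ⟨l, hnd, hk, ?_⟩
  have hch' : Tch l (Kt.cs p n₀) K a₀ w₀ (g n₀) J F A := by
    refine Tch.of_ch (c := Kt.cs p) (K := fun _ => K) (e := e₀) (g := g) ?_ (fun i hi => ?_)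
      (fun _ _ => le_rfl) c2 (fun i hi => c5 i (by omega)) (by rw [hlen])
    · rw [hlen]
      exact ⟨Gc, Hc, hch⟩
    · rcases hi.lt_or_eq with h | h
      · rw [cof_lt h, hget]
      · rw [cof_ge h.ge, h, hlen]
  have h7 : ⌊(P p a w + ζ / 16) * J⌋₊ ≤ ⌊(Kt.L p n₀ a w + ζ / 8) * J⌋₊ :=
    Nat.floor_le_floor (mul_le_mul_of_nonneg_right h6 hJ0)
  obtain ⟨v, hv⟩ : ∃ v, ⌊(a : ℝ) * J⌋₊ = a₀ + v := ⟨⌊(a : ℝ) * J⌋₊ - a₀, by omega⟩
  have h8 : Tch l (Kt.cs p n₀) K (a₀ + v) w₀ (g n₀ + v) J F A := hch'.slope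
  rw [← hv] at h8
  refine (h8.mono le_rfl le_rfl c4).anti ?_
  omega

/-- **No new label**, for the threshold `bet (P p) (Kt.cs p) n₀` of the chains with restricted sides:
the sides are restricted by functions `be p`, at least the levels of the kit, and the threshold is at
most the level of the target, up to small errors, on the cells. -/
theorem no_B (hI : MonoI I) {S : PCl m}
    (hpos : ∀ (τ : ℝ) (J : ℕ) (F : Fam m J) (A : F.Ω → Prop), S.St τ J F A → 0 < Pe F.p A)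
    (Kt : KitP m Θ n₀) {T' : ℝ} (fcel : ∀ ε' : ℝ, 0 < ε' → EvP I fun p =>
      CellL (n₀ + 1) (Kt.L p) ε' T' (Kt.y p) (Kt.X p) (Kt.la p) (Kt.ml p))
    {K' s₁ : ℕ} {sh : ℕ → ℕ} (hK' : 1 ≤ K') {be P : Θ → List (Fin m) × Fin m → ℝ → ℝ → ℝ}
    (hP : ∀ p, ThrOf (chsysB m none (be p)) S (P p))
    (hLβ : ∀ p, ∀ l < n₀, ∀ a w : ℝ, 0 ≤ w → w ≤ a → a ≤ 1 →
      Kt.L p l a w ≤ bet (be p) (Kt.cs p) l a w)
    (fiso : ∀ ε' : ℝ, 0 < ε' → EvP I fun p => ∀ z : ℝ × ℝ, dist z (Kt.y p) ≤ Kt.X p →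
      Nw (bet (P p) (Kt.cs p) n₀) z ≤ Nw (Kt.L p n₀) z + ε' * Kt.X p) {M K'' : ℕ} {η' : ℝ}
    (hη : 0 < η') :
    EvQ I fun N θ p => Kt.FldN S K' s₁ sh M N θ p fun G J F D q => ∀ i ≤ G.M, ∀ j ≤ G.M,
      ¬ (Kt.nd p N M θ G F D).NewLab2 J (up G.α J) (up G.ϖ J) (up G.ζ J) i j G.n 1 K'' η' q := by
  refine no_of_P hI hpos Kt fcel hK' (XN := fun _ _ _ _ _ _ _ _ _ _ _ => True) hη ?_
    ⟨0, fun _ _ => ⟨1, one_pos, fun _ _ _ => EvP.of fun _ _ _ _ _ _ _ _ => ⟨1, one_pos, 0,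
      fun _ _ _ _ _ _ _ _ _ _ _ _ _ => trivial⟩⟩⟩
  have key := (KitP.cel_evQ fcel M).and hI ((EvQ.of_evP fun N =>
    fiso (1 / (16 * ((N + 1) * (M + 4)))) (by positivity)).and hI
    (EvQ.self I 1 (θ₀ := 1 / 16) (by norm_num) (ε := fun N _ => 1) (fun N _ _ => one_pos)))
  refine key.mono ?_
  rintro N θ p ⟨hL, pis, hN1, -, -, -⟩ K a w δ hw0 hwa ha1 hδ hdist hL1
  have hX := hL.pos
  obtain ⟨ζ, hζ⟩ : ∃ ζ, ζ = msh (Kt.X p) N M := ⟨_, rfl⟩
  have hζ0 : 0 < ζ := by rw [hζ]; exact msh_pos hX hN1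
  have e1 : N * ((M + 4) * ζ) = Kt.X p := by rw [hζ]; exact msh_mul hN1
  have hM0 : (0 : ℝ) ≤ M := Nat.cast_nonneg M
  have hN0 : (0 : ℝ) ≤ N := Nat.cast_nonneg N
  rw [← hζ] at hL1 ⊢
  -- the threshold at the point
  have h1 := pis _ hdist
  have h2 : Nw (bet (P p) (Kt.cs p) n₀) ((w : ℝ), (a : ℝ) - w) =
      bet (P p) (Kt.cs p) n₀ a w := by
    show bet (P p) (Kt.cs p) n₀ ((w : ℝ) + ((a : ℝ) - w)) w = _
    rw [add_sub_cancel]
  have h3 : Nw (Kt.L p n₀) ((w : ℝ), (a : ℝ) - w) = Kt.L p n₀ a w := by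
    show Kt.L p n₀ ((w : ℝ) + ((a : ℝ) - w)) w = _
    rw [add_sub_cancel]
  rw [h2, h3] at h1
  have h4 : 1 / (16 * ((N + 1) * (M + 4))) * Kt.X p ≤ ζ / 16 := by
    rw [one_div, inv_mul_le_iff₀ (by positivity)]
    have h5 : (N : ℝ) * ((M + 4) * ζ) ≤ (N + 1) * ((M + 4) * ζ) :=
      mul_le_mul_of_nonneg_right (by linarith) (by positivity)
    calc Kt.X p = N * ((M + 4) * ζ) := e1.symm
      _ ≤ (N + 1) * ((M + 4) * ζ) := h5
      _ = _ := by ring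
  have h6 : bet (P p) (Kt.cs p) n₀ a w + ζ / 16 ≤ Kt.L p n₀ a w + ζ / 8 := by linarith
  -- the chains of the class of the thresholds
  obtain ⟨L', hL'⟩ : ∃ L' : ℕ → ℝ → ℝ → ℝ, L' = fun k => if k < n₀ then
    bet (be p) (Kt.cs p) k else bet (P p) (Kt.cs p) n₀ := ⟨_, rfl⟩
  have hL'k : ∀ k < n₀, L' k = bet (be p) (Kt.cs p) k := fun k hk => by rw [hL']; exact if_pos hk
  have hL'n : L' n₀ = bet (P p) (Kt.cs p) n₀ := by rw [hL']; exact if_neg (lt_irrefl _)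
  refine Bas.mono 0 (CellL.no_of_B (L := L') (l := n₀) (hP p) (fun a w => by rw [hL'n])
    (fun k hk a w => by rw [hL'k k hk]) K a w (ζ / 16) δ hw0 hwa ha1
    (by linarith) hδ (by rw [hL'n]; linarith)) ?_
  intro J _ F A hno a₀ w₀ e₀ g Gc Hc hcd hch _
  obtain ⟨c1, c2, c3, c4, c5, c6, c7⟩ := hcd
  have hJ0 : (0 : ℝ) < J := by exact_mod_cast c1
  have haR : (a : ℝ) ≤ 1 := by exact_mod_cast ha1
  have haJ : (a₀ : ℝ) ≤ J := by exact_mod_cast c3.trans (Pool.LBT.fl_le' haR J)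
  have hwa' : (w₀ : ℝ) ≤ a₀ := by exact_mod_cast c2
  refine hno a₀ w₀ e₀ g Gc Hc ⟨c1, c2, c3, c4, c5, fun k hk => ?_, ?_⟩ hch
  · rw [hL'k k hk]
    refine (c6 k hk).trans (max_le_max le_rfl (mul_le_mul_of_nonneg_right ?_ hJ0.le))
    have h7 := hLβ p k hk (a₀ / J) (w₀ / J) (by positivity)
      (div_le_div_of_nonneg_right hwa' hJ0.le) (div_le_one_of_le₀ haJ hJ0.le)
    linarith
  · rw [hL'n]
    have h7 : ⌊(bet (P p) (Kt.cs p) n₀ a w + ζ / 16) * J⌋₊ ≤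
        ⌊(Kt.L p n₀ a w + ζ / 8) * J⌋₊ :=
      Nat.floor_le_floor (mul_le_mul_of_nonneg_right h6 (Nat.cast_nonneg J))
    omega

/-! ### The conclusions -/

/-- The standard conclusion is false, if there is no new label with the gain `z`. -/
theorem no_std (Kt : KitP m Θ n₀) {S : PCl m} {K' s₁ : ℕ} {sh : ℕ → ℕ} {A M K'' : ℕ} {η' : ℝ}
    (hA : 1 ≤ A)
    (hpos : ∀ (τ : ℝ) (J : ℕ) (F : Fam m J) (A : F.Ω → Prop), S.St τ J F A → 0 < Pe F.p A)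
    (h1 : EvQ I fun N θ p => Kt.FldN S K' s₁ sh M N θ p fun G J F D q => ∀ i ≤ G.M, ∀ j ≤ G.M,
      ¬ (Kt.nd p N M θ G F D).NewLab2 J (up G.α J) (up G.ϖ J) (up G.ζ J) i j G.n 1 K'' η' q) :
    EvQ I fun N θ p => Kt.FldN S K' s₁ sh M N θ p fun G J F D q =>
      ¬ ConC.std A G.n J (up G.α J) (up G.ϖ J) (up G.ζ J) G.M K'' η' (Kt.nd p N M θ G F D) q := by
  refine h1.mono fun N θ p h2 b e hb => ?_
  have hp : Bas S (fun _ F A => 0 < Pe F.p A) := ⟨1, one_pos, 0, fun J _ F A hA => hpos 1 J F A hA⟩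
  refine Bas.mono 0 (Bas.and (h2 b e hb) hp) ?_
  rintro J - F B ⟨h3, hB⟩ D hD ⟨i, hi, j, hj, h4⟩
  exact h3 D hD i hi j hj (h4.mono (cond_nonneg F.isLaw.nonneg B True) hA le_rfl le_rfl)

end Pool.STAT
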