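import Pool.Agent.H78.MIC.GenT
import Pool.Agent.H39.GEN.IsoT
import Pool.Agent.H29.REC.Iso

/-!
# Joint cells and boxes of rows as cells of a kit

`noJB2_of_evP`: the absence of joint cells (`NoJB2`) from `evP_false`. `IsBox`: the whole box of a row
of helper39's `IsoD` as a cell; `noI_of_evP`: the absence of boxes (`IsoD.NoI`) from `evP_false`.

`affn_of_tan`: levels which are near to `D w + κ q`, `D` near to its tangent, are affine.
`row_J`: the fact `row` for the joint cells.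
`KitI`: a kit over the boxes of rows, all sides are the fattest (`iso`): `KitI.cel`, `KitI.row`.
-/

set_option autoImplicit false

namespace Pool.STAT

open Finset MvPolynomial
open Pool.Agent.H49.Ent Pool.Agent.H32.Dense Pool.STK Pool.KS3 Pool.KA Pool.KSAT Pool.PB Pool.GEN
open Pool.K2S Pool.S6C
open Pool.LEV (Law)
open Pool.STR (Affn Nw JCB NfB NoJB2 IsoD AffB)
open Pool.RTS (iso Diag)
open CLO

variable {m m' n₀ : ℕ} {ι : Type*} {c β T h : ℝ}

/-! ### Joint cells -/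

theorem isCell_mono (W : BoxD ι m') (c β T h : ℝ) : MonoI (IsCell W c β T h) :=
  ⟨fun h1 h2 => h1.mono h2⟩

/-- **No joint cells.** -/
theorem noJB2_of_evP {W : BoxD ι m'} (h1 : ∀ c β T h : ℝ, 0 < c → 0 < β → 0 < T → 0 < h →
    EvP (IsCell W c β T h) fun _ => False) : NoJB2 W.ρ W.PB W.R W.Ad W.df :=
  noJB2_of_evC h1

theorem nfB_ofmono {ρ : ℝ → ℝ} {h h' η η' A B A' B' : ℝ} (hf : NfB ρ h η A B) (hh : h' ≤ h)
    (hη : η ≤ η') (hA : A ≤ A') (hB : B' ≤ B) : NfB ρ h' η' A' B' := nfB_mono hf hh hη hA hB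

/-- The fact `row` for the joint cells. -/
theorem row_J {W : BoxD ι m'} (hT : 0 < T) {L : CP ι m' → ℕ → ℝ → ℝ → ℝ}
    (htar : ∀ p, W.PB p.k = L p n₀) (ε' : ℝ) (hε' : 0 < ε') :
    EvP (IsCell W c β T h) fun p => NfB W.ρ (min h 1) (ε' * p.X)
      (L p n₀ (p.y.1 + p.y.2) p.y.1 - p.X) (L p n₀ (p.y.1 + p.y.2) p.y.1 + 2 * p.X) := by
  refine ⟨ε', hε', fun p hp => ?_⟩
  have hX := hp.cell.pos
  have h1 := hp.nf
  rw [htar] at h1
  refine nfB_mono h1 (min_le_left _ _) le_rfl ?_ ?_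
  · show L p n₀ (p.y.1 + p.y.2) p.y.1 - 4 * (T + 1) * p.X ≤ _
    nlinarith only [hX, hT]
  · show _ ≤ L p n₀ (p.y.1 + p.y.2) p.y.1 + 4 * (T + 1) * p.X
    nlinarith only [hX, hT]

/-! ### Levels near to their tangents -/

/-- **Levels near to `D w + κ q`**, `D` near to its tangent. -/
theorem affn_of_tan {L : ℝ → ℝ → ℝ} {D : ℝ → ℝ} {V S κ δ ε X g : ℝ} {y : ℝ × ℝ}
    (hX : 0 ≤ X) (hnear : ∀ z : ℝ × ℝ, dist z y ≤ X → |Nw L z - (D z.1 + κ * z.2)| ≤ δ)
    (htan : ∀ z : ℝ × ℝ, dist z y ≤ X → |D z.1 - V - S * (z.1 - g)| ≤ δ)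
    (hδ : 4 * δ ≤ ε * X) : Affn (Nw L) ε y X S κ := by
  intro z hz
  have h0 : dist y y ≤ X := by rw [dist_self]; exact hX
  have h1 := abs_le.1 (hnear z hz)
  have h2 := abs_le.1 (hnear y h0)
  have h3 := abs_le.1 (htan z hz)
  have h4 := abs_le.1 (htan y h0)
  rw [abs_le]
  constructor <;> linarith [h1.1, h1.2, h2.1, h2.2, h3.1, h3.2, h4.1, h4.2]

/-! ### Boxes of rows -/

variable {P : ℝ → ℝ → ℝ} {ρ : ℝ → ℝ}

/-- The numbers of a box of a row. -/
structure BP (E : IsoD P ρ) where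
  /-- the chart and the order -/
  k : E.α × E.O
  /-- the row -/
  Q : ℝ
  /-- the window -/
  g : ℝ
  /-- the scale -/
  r : ℝ
  /-- the slope of the target -/
  S : ℝ
  /-- the slopes of the diagonals -/
  Sj : E.J → ℝ

/-- **The box of a row** with errors `ε`. -/
structure IsBox (E : IsoD P ρ) (c β h M ε : ℝ) (p : BP E) : Prop where
  r0 : 0 < p.r
  g0 : 8 * p.r < p.g
  g1 : 8 * p.r < 1 - p.g
  Q0 : 8 * p.r < p.Q
  Q1 : 8 * p.r < 1 - p.Q
  rε : p.r ≤ ε
  ad : E.AdI c ε p.k p.Q p.g p.r p.S p.Sj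
  slo : 1 + β ≤ p.S
  nf : NfB ρ h (ε * p.r) (p.Q - M * p.r) (p.Q + M * p.r)
  df : E.df p.k p.g p.r ≤ ε * p.r

theorem isBox_mono (E : IsoD P ρ) (c β h M : ℝ) : MonoI (IsBox E c β h M) := by
  refine ⟨fun {ε ε'} {p} hp hε => ?_⟩
  have hr := mul_le_mul_of_nonneg_right hε hp.r0.le
  exact { hp with
    rε := hp.rε.trans hε
    ad := { hp.ad with
      aff := fun w hw => (hp.ad.aff w hw).trans hr
      affj := fun j w hw => (hp.ad.affj j w hw).trans hr }
    nf := fun Q₁ Q₂ h1 h2 h3 => (hp.nf Q₁ Q₂ h1 h2 h3).trans (by linarith only [hr])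
    df := hp.df.trans hr }

/-- **No boxes.** -/
theorem noI_of_evP {E : IsoD P ρ} (h1 : ∀ c β h : ℝ, 0 < c → 0 < β → 0 < h →
    ∃ M : ℝ, 0 < M ∧ EvP (IsBox E c β h M) fun _ => False) : E.NoI := by
  intro c β h hc hβ hh
  obtain ⟨M, hM, ε, hε, h2⟩ := h1 c β h hc hβ hh
  refine ⟨ε, hε, M, hM, fun k Q g r S Sj a1 a2 a3 a4 a5 a6 a7 a8 a9 a10 => ?_⟩
  exact h2 ⟨k, Q, g, r, S, Sj⟩ ⟨a1, a2, a3, a4, a5, a6, a7, a8, a9, a10⟩

/-- **A kit over the boxes of rows**, all sides are the fattest. -/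
structure KitI (m : ℕ) (E : IsoD P ρ) (n₀ : ℕ) where
  /-- the coordinates -/
  cs : E.α × E.O → ℕ → Fin m
  /-- the diagonals of the base coordinates -/
  jx : E.O → ℕ → E.J
  /-- the class of the chains -/
  K : ℕ
  /-- the joint property of the labels of a grid -/
  W : BP E → ℕ → ℕ → ℝ → GrdP m
  /-- the property is stable under subevents -/
  her : ∀ p N M θ, (W p N M θ).Her
  /-- the types of the records -/
  RT : BP E → ℕ → ℕ → ℝ → (J : ℕ) → (F : Fam m J) → GDat F → ℕ → ℕ → Type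
  /-- the records -/
  rc : (p : BP E) → (N M : ℕ) → (θ : ℝ) → (J : ℕ) → (F : Fam m J) → (D : GDat F) → (i j : ℕ) →
    LnT F → RT p N M θ J F D i j

namespace KitI

variable {E : IsoD P ρ} (Kt : KitI m E n₀)

/-- The levels: the fattest sides of all coordinates. -/
noncomputable def L (p : BP E) (l : ℕ) : ℝ → ℝ → ℝ :=
  if l < n₀ then iso (E.D p.k.2 (Kt.jx p.k.2 l)) else iso fun a => P a a

/-- The slopes of the diagonals. -/
noncomputable def la (p : BP E) (l : ℕ) : ℝ :=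
  if l < n₀ then p.Sj (Kt.jx p.k.2 l) else p.S

/-- **The kit**: the centre is the window `g` and the depth `r`, the size is `r`. -/
noncomputable def kit : KitP m (BP E) n₀ where
  cs p := Kt.cs p.k
  L := Kt.L
  y p := (p.g, p.r)
  X p := p.r
  la := Kt.la
  ml _ _ := 1
  K := Kt.K
  W := Kt.W
  her := Kt.her
  RT := Kt.RT
  rc := Kt.rc

variable {Kt}

/-- Small cells are small. -/
theorem small {M : ℝ} {ε : ℝ} (hε : 0 < ε) : EvP (IsBox E c β h M) fun p => p.r ≤ ε :=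
  ⟨ε, hε, fun _ hp => hp.rε⟩

/-- **The levels** on the box of a row. `hlt`: the diagonals of the base are away from `1`. -/
theorem cel (hc : 0 < c) {M : ℝ} (hP : Diag fun a => P a a)
    (hD : ∀ o j, Diag (E.D o j))
    (hlt : EvP (IsBox E c β h M) fun p => ∀ l < n₀,
      E.D p.k.2 (Kt.jx p.k.2 l) p.g + (2 / c + 8) * p.r ≤ 1) (ε' : ℝ) (hε' : 0 < ε') :
    EvP (IsBox E c β h M) fun p =>
      CellL (n₀ + 1) (Kt.kit.L p) ε' (1 / c + 1) (Kt.kit.y p) (Kt.kit.X p) (Kt.kit.la p)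
        (Kt.kit.ml p) := by
  obtain ⟨ε, hε⟩ : ∃ ε, ε = min (min (ε' / 4) 1) (c / (2 / c + 16)) := ⟨_, rfl⟩
  have hcc : 0 < 2 / c + 16 := by positivity
  have hε0 : 0 < ε := by
    rw [hε]
    exact lt_min (lt_min (by linarith) one_pos) (by positivity)
  have he1 : ε ≤ ε' / 4 := by rw [hε]; exact (min_le_left _ _).trans (min_le_left _ _)
  have he2 : ε ≤ 1 := by rw [hε]; exact (min_le_left _ _).trans (min_le_right _ _)
  have he3 : ε ≤ c / (2 / c + 16) := by rw [hε]; exact min_le_right _ _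
  refine (hlt.and (isBox_mono E c β h M) (EvP.self _ hε0)).mono ?_
  rintro p ⟨plt, hp⟩
  have hr := hp.r0
  have hrr : p.r * (2 / c + 16) ≤ c := by
    have := hp.rε.trans he3
    rwa [le_div_iff₀ hcc] at this
  have hg0 := hp.g0
  have hg1 := hp.g1
  have hAd := hp.ad
  have hrow := hAd.row
  have hcr : 2 / c * p.r = 2 * p.r / c := by ring
  have hcp : 0 ≤ p.r / c := by positivity
  -- the diagonals and their slopes
  have hdiag : ∀ l, Diag (if l < n₀ then E.D p.k.2 (Kt.jx p.k.2 l) else fun a => P a a) := by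
    intro l
    split_ifs
    · exact hD _ _
    · exact hP
  have hL : ∀ l, Kt.L p l = iso (if l < n₀ then E.D p.k.2 (Kt.jx p.k.2 l) else
      fun a => P a a) := by
    intro l
    unfold L
    split_ifs <;> rfl
  have haff : ∀ l, ∃ V, AffB (if l < n₀ then E.D p.k.2 (Kt.jx p.k.2 l) else fun a => P a a)
      V (Kt.la p l) p.g (8 * p.r) (ε * p.r) := by
    intro l
    unfold la
    by_cases hl : l < n₀
    · rw [if_pos hl, if_pos hl]
      exact ⟨_, hAd.affj _⟩
    · rw [if_neg hl, if_neg hl]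
      exact ⟨_, hAd.aff⟩
  have hla0 : ∀ l, 0 ≤ Kt.la p l := by
    intro l
    unfold la
    split_ifs
    · exact hAd.S0 _
    · by_contra hcon
      push Not at hcon
      have h1 := abs_le.1 (hAd.aff (p.g + 8 * p.r) (by rw [add_sub_cancel_left, abs_of_pos]; linarith))
      have h2 := abs_le.1 (hAd.aff p.g (by rw [sub_self, abs_zero]; linarith))
      have h3 := hP.slope (w := p.g) (w' := p.g + 8 * p.r) (by linarith) (by linarith)
        (by linarith) (by
          by_contra hcon2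
          push Not at hcon2
          have h4 := h1.2
          simp only [add_sub_cancel_left] at h4
          have h5 : p.S * (8 * p.r) ≤ 0 := mul_nonpos_of_nonpos_of_nonneg hcon.le (by linarith)
          have h6 : ε * p.r ≤ 1 * p.r := mul_le_mul_of_nonneg_right he2 hr.le
          have := hp.Q1
          linarith)
      simp only [add_sub_cancel_left, sub_self, mul_zero, sub_zero] at h1 h2 h3
      have h5 : p.S * (8 * p.r) ≤ 0 := mul_nonpos_of_nonpos_of_nonneg hcon.le (by linarith)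
      have h6 : ε * p.r ≤ 1 * p.r := mul_le_mul_of_nonneg_right he2 hr.le
      linarith [h1.2, h2.1]
  have hlac : ∀ l, Kt.la p l ≤ 1 / c := by
    intro l
    rw [le_div_iff₀ hc, mul_comm]
    unfold la
    split_ifs
    · exact hAd.cSj _
    · exact hAd.cS
  -- the values at the window
  have hval : ∀ l < n₀ + 1, (if l < n₀ then E.D p.k.2 (Kt.jx p.k.2 l) else fun a => P a a) p.g +
      (2 / c + 8) * p.r ≤ 1 := by
    intro l hl
    by_cases h1 : l < n₀
    · rw [if_pos h1]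
      exact plt l h1
    · rw [if_neg h1]
      have h2 := (abs_le.1 (hAd.aff p.g (by rw [sub_self, abs_zero]; linarith))).2
      simp only [sub_self, mul_zero, sub_zero] at h2
      have h6 : ε * p.r ≤ 1 * p.r := mul_le_mul_of_nonneg_right he2 hr.le
      have h7 := hrow.Q1
      show P p.g p.g + (2 / c + 8) * p.r ≤ 1
      nlinarith only [h2, h6, h7, hrr, hr]
  -- the values on the box
  have hbox : ∀ l < n₀ + 1, ∀ z : ℝ × ℝ, dist z (p.g, p.r) ≤ p.r →
      |z.1 - p.g| ≤ p.r ∧ 0 ≤ z.2 ∧ z.2 ≤ 2 * p.r ∧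
      (if l < n₀ then E.D p.k.2 (Kt.jx p.k.2 l) else fun a => P a a) z.1 + z.2 < 1 := by
    intro l hl z hz
    rw [Prod.dist_eq, Real.dist_eq, Real.dist_eq] at hz
    have z1 := (le_max_left _ _).trans hz
    have z2 := abs_le.1 ((le_max_right _ _).trans hz)
    simp only at z1 z2
    refine ⟨z1, by linarith [z2.1], by linarith [z2.2], ?_⟩
    have h1 := (hdiag l).mono (w := z.1) (w' := p.g + p.r) (by linarith [abs_le.1 z1])
      (by linarith [abs_le.1 z1]) (by linarith)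
    obtain ⟨V, hV⟩ := haff l
    have h2 := abs_le.1 (hV (p.g + p.r) (by rw [add_sub_cancel_left, abs_of_pos hr]; linarith))
    have h3 := abs_le.1 (hV p.g (by rw [sub_self, abs_zero]; linarith))
    have h4 := hval l hl
    simp only [add_sub_cancel_left, sub_self, mul_zero, sub_zero] at h2 h3
    have h5 : Kt.la p l * p.r ≤ 1 / c * p.r := mul_le_mul_of_nonneg_right (hlac l) hr.le
    have h6 : ε * p.r ≤ 1 * p.r := mul_le_mul_of_nonneg_right he2 hr.le
    have h7 : 2 / c * p.r = 1 / c * p.r + 1 / c * p.r := by ring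
    have h8 : 0 ≤ 1 / c * p.r := by positivity
    have h9 : (2 / c + 8) * p.r = 2 / c * p.r + 8 * p.r := by ring
    rw [h9, h7] at h4
    linarith [h2.2, h3.1, h1, z2.2]
  refine ⟨hr, le_rfl, by show p.r ≤ p.g; linarith, by show p.g + p.r + 2 * p.r ≤ 1; linarith,
    fun l _ => ?_, fun l _ => ?_, fun l hl => ?_, fun l _ => hla0 l, fun l _ => ?_,
    fun _ _ => zero_le_one, fun _ _ => ?_, fun l hl => ?_⟩
  · show Law (Kt.L p l)
    rw [hL]
    exact Pool.RTS.iso_law (hdiag l)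
  · intro a w h1 h2 h3
    show a ≤ Kt.L p l a w
    rw [hL]
    exact Pool.RTS.iso_low (hdiag l) h1 h2 h3
  · show Affn (Nw (Kt.L p l)) ε' (p.g, p.r) p.r (Kt.la p l) 1
    rw [hL]
    obtain ⟨V, hV⟩ := haff l
    refine affn_of_tan
      (D := if l < n₀ then E.D p.k.2 (Kt.jx p.k.2 l) else fun a => P a a)
      (V := V) (g := p.g) (δ := ε * p.r) hr.le (fun z hz => ?_)
      (fun z hz => ?_) ?_
    · obtain ⟨b1, b2, b3, b4⟩ := hbox l hl z hz
      rw [Pool.RTS.nw_iso, min_eq_right b4.le, one_mul, sub_self, abs_zero]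
      positivity
    · obtain ⟨b1, -, -, -⟩ := hbox l hl z hz
      exact hV z.1 (b1.trans (by linarith))
    · have : 4 * (ε * p.r) ≤ ε' * p.r := by nlinarith only [he1, hr]
      exact this
  · exact (hlac l).trans (by linarith)
  · show (1 : ℝ) ≤ 1 / c + 1
    have : 0 ≤ 1 / c := by positivity
    linarith
  · show Kt.L p l (p.g + p.r) p.g + 4 * p.r ≤ 1
    rw [hL]
    have h1 := hval l hl
    have h2 := Pool.RTS.iso_le (if l < n₀ then E.D p.k.2 (Kt.jx p.k.2 l) else fun a => P a a)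
      (p.g + p.r) p.g
    rw [add_sub_cancel_left] at h2
    have h3 : 0 ≤ 2 / c * p.r := by positivity
    have h9 : (2 / c + 8) * p.r = 2 / c * p.r + 8 * p.r := by ring
    rw [h9] at h1
    linarith

/-- **The rows** on the box. -/
theorem row {M : ℝ} (hM : 4 ≤ M) (hP : Diag fun a => P a a) (ε' : ℝ) (hε' : 0 < ε') :
    EvP (IsBox E c β h M) fun p => NfB ρ (min h 1) (ε' * Kt.kit.X p)
      (Kt.kit.L p n₀ ((Kt.kit.y p).1 + (Kt.kit.y p).2) (Kt.kit.y p).1 - Kt.kit.X p)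
      (Kt.kit.L p n₀ ((Kt.kit.y p).1 + (Kt.kit.y p).2) (Kt.kit.y p).1 + 2 * Kt.kit.X p) := by
  obtain ⟨ε, hε⟩ : ∃ ε, ε = min ε' 1 := ⟨_, rfl⟩
  have hε0 : 0 < ε := by rw [hε]; exact lt_min hε' one_pos
  have he1 : ε ≤ ε' := by rw [hε]; exact min_le_left _ _
  have he2 : ε ≤ 1 := by rw [hε]; exact min_le_right _ _
  refine ⟨ε, hε0, fun p hp => ?_⟩
  have hr := hp.r0
  have hg0 := hp.g0
  have hg1 := hp.g1
  have hL : Kt.L p n₀ = iso fun a => P a a := by
    unfold L
    rw [if_neg (lt_irrefl _)]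
  show NfB ρ (min h 1) (ε' * p.r) (Kt.L p n₀ (p.g + p.r) p.g - p.r)
    (Kt.L p n₀ (p.g + p.r) p.g + 2 * p.r)
  rw [hL]
  have h2 := abs_le.1 (hp.ad.aff p.g (by rw [sub_self, abs_zero]; linarith))
  simp only [sub_self, mul_zero, sub_zero] at h2
  have h6 : ε * p.r ≤ 1 * p.r := mul_le_mul_of_nonneg_right he2 hr.le
  have h7 := Pool.RTS.iso_le (fun a => P a a) (p.g + p.r) p.g
  have h8 := Pool.RTS.iso_lo hP (a := p.g + p.r) (w := p.g) (by linarith) (by linarith)
    (by linarith)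
  rw [add_sub_cancel_left] at h7
  have hMr : 4 * p.r ≤ M * p.r := mul_le_mul_of_nonneg_right hM hr.le
  refine nfB_mono hp.nf (min_le_left _ _) (mul_le_mul_of_nonneg_right he1 hr.le) ?_ ?_
  · show p.Q - M * p.r ≤ iso (fun a => P a a) (p.g + p.r) p.g - p.r
    linarith [h2.1]
  · show iso (fun a => P a a) (p.g + p.r) p.g + 2 * p.r ≤ p.Q + M * p.r
    linarith [h2.2]

/-- The slopes of the kit on a box. -/
theorem gam {M : ℝ} : EvP (IsBox E c β h M) fun p =>
    β ≤ Kt.kit.la p n₀ - Kt.kit.ml p n₀ := by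
  refine ⟨1, one_pos, fun p hp => ?_⟩
  show β ≤ Kt.la p n₀ - 1
  unfold la
  rw [if_neg (lt_irrefl _)]
  linarith [hp.slo]

/-- All weights are one. -/
theorem lamS_one (p : BP E) : lamS (n₀ + 1) (Kt.kit.ml p) = fun _ => 1 := by
  funext l
  show (if 1 ≤ l ∧ l ≤ n₀ + 1 then max 1 ((fun _ => 1 : ℕ → ℝ) (l - 1)) else 1) = (1 : ℝ)
  split_ifs
  · exact max_self 1
  · rfl

end KitI

end Pool.STAT
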