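import Pool.Agent.H78.MIC.Top

/-!
# The fact `no` from thresholds

`Kit.no_of`: if no chain with the property `XN` is above the levels of the kit, and if the chains of
the new labels have the property `XN`, then there is no new label (the fact `Facts.no`).
`Kit.no_of_B`: the levels are thresholds of the chains with restricted sides.
-/

set_option autoImplicit false

namespace Pool.STAT

open Finset MvPolynomial
open Pool.Agent.H49.Ent Pool.Agent.H32.Dense Pool.STK Pool.KS3 Pool.KA Pool.KSAT Pool.PB Pool.GEN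
open Pool.K2S Pool.S6C
open Pool.LEV (Law)
open Pool.STR (Affn Nw JCB NfB NoJB2)
open Pool.CHT (bet)
open Pool.CHB (chsysB)
open Pool.LBT (ThrOf)
open CLO

variable {ι : Type*} {n₀ m : ℕ} {c β T h : ℝ}

/-- **No new label** in the cells of a kit. `XN`: a property of chains; `hno`: no chains with this
property above the levels; `hlink`: the chains of the new labels have this property. -/
theorem Kit.no_of {S : PCl m}
    (hpos : ∀ (τ : ℝ) (J : ℕ) (F : Fam m J) (A : F.Ω → Prop), S.St τ J F A → 0 < Pe F.p A)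
    (Kt : Kit m ι n₀) (hlaw : ∀ k, ∀ l ≤ n₀, Law (Kt.L k l))
    (hlow : ∀ k, ∀ l ≤ n₀, ∀ a w : ℝ, 0 ≤ w → w ≤ a → a ≤ 1 → a ≤ Kt.L k l a w)
    {ρ : ℝ → ℝ} {Ad : ℝ → ι → ℝ → ℝ → ℝ → Prop} {df : ι → ℝ → ℝ → ℝ} (hβ : 0 < β)
    {K' s₁ : ℕ} {sh : ℕ → ℕ} (hK' : 1 ≤ K')
    (flt : EvC (Kt.box ρ Ad df) c β T h fun p => ∀ l < n₀, Nw (Kt.L p.k l) p.y + 4 * p.X ≤ 1)
    {XN : CP ι n₀ → ℕ → ℕ → ℝ → ChX m} {M K'' : ℕ} {η' : ℝ} (hη : 0 < η')
    (hno : ∀ (p : CP ι n₀) (N : ℕ) (θ : ℝ) (K : ℕ) (a w : ℚ) (h δ : ℝ), 0 ≤ w → w ≤ a → a ≤ 1 →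
      0 < h → 0 < δ → Kt.L p.k n₀ a w + h ≤ 1 → Bas S fun J F A => ∀ (a₀ w₀ e₀ : ℕ) (g : ℕ → ℕ)
        (Gc : PtT F → ℕ → MvPolynomial (Option (Fin m)) ℝ)
        (Hc : LnT F → ℕ → MvPolynomial (Option (Fin m)) ℝ),
        CellL.CdX (Kt.L p.k) n₀ a w h δ J a₀ w₀ g →
        ChOK F (Kt.cs p.k) (n₀ + 1) (fun _ => K) a₀ w₀ e₀ g A Gc Hc →
        ¬ XN p N M θ J F a₀ w₀ g A Gc Hc)
    (hlink : EvN (Kt.box ρ Ad df) c β T h fun N θ p => ∀ (b : ℕ → ℕ → ℕ → ℝ) (e : ℕ → ℕ → ℝ),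
      Kt.Near p N M θ b e → ∀ i ≤ M, ∀ j ≤ M, Bas S fun J F B => ∀ D : GDat F,
      (Kt.grid K' s₁ sh p N M θ b e).Ok F D B → ∀ (E : F.Ω → Prop) (Gn : Pt2 F → PN)
        (Hn : Ln2 F × ℕ → PN), Sub E B → η' * Pe F.p B ≤ Pe F.p E →
      NewOn (D.cd (n₀ + 1) (Kt.rc p N M θ J F)) (cx F fun i => Kt.cs p.k (i - 1))
        (fun i j l => ⌊b i j (l - 1) * J⌋₊ - sh l) (up (p.y.1 + p.y.2) J) (up p.y.1 J)
        (up (msh p.X N M) J) i j n₀
        (⌊b i j n₀ * J⌋₊ - sh (n₀ + 1) + 1 * up (msh p.X N M) J) K'' Gn Hn E →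
      XN p N M θ J F (up (p.y.1 + p.y.2) J + i * up (msh p.X N M) J)
        (up p.y.1 J + j * up (msh p.X N M) J)
        (Pool.LBK.gv (fun i j l => ⌊b i j (l - 1) * J⌋₊ - sh l) i j n₀
          (⌊b i j n₀ * J⌋₊ - sh (n₀ + 1) + 1 * up (msh p.X N M) J)) E
        (Pool.LBK.Gv (D.cd (n₀ + 1) (Kt.rc p N M θ J F)) (Kt.cs p.k) i j n₀ Gn)
        (Pool.LBK.Hv (D.cd (n₀ + 1) (Kt.rc p N M θ J F)) (Kt.cs p.k) (up p.y.1 J)
          (up p.y.1 J + j * up (msh p.X N M) J) i j n₀ Hn)) :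
    EvN (Kt.box ρ Ad df) c β T h fun N θ p =>
      Kt.FldN S K' s₁ sh M N θ p fun G J F D q => ∀ i ≤ G.M, ∀ j ≤ G.M,
        ¬ (G.nd D (Kt.rc p N M θ J F)).NewLab2 J (up G.α J) (up G.ϖ J) (up G.ζ J) i j G.n 1 K''
          η' q := by
  obtain ⟨N₁, hN₁⟩ := exists_nat_ge (4 * (T + 2))
  have key := ((EvN.of_evC flt).and hlink).and
    (EvN.self (Kt.box ρ Ad df) c β T h (max N₁ 1) (θ₀ := 1 / 16) (by norm_num)
      (ε := fun N _ => 1 / (64 * (N * (M + 4)) + 1)) (fun N _ _ => by positivity))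
  refine key.mono ?_
  rintro N θ p ⟨⟨plt, plink⟩, hN, hθ, hθ1, hp⟩ b e hnear
  obtain ⟨ε, hε⟩ : ∃ ε : ℝ, ε = 1 / (64 * (N * (M + 4)) + 1) := ⟨_, rfl⟩
  rw [← hε] at hp
  have hε0 : 0 < ε := by rw [hε]; positivity
  have hNN : N₁ ≤ N := (le_max_left _ _).trans hN
  have hN1 : 1 ≤ N := (le_max_right _ _).trans hN
  have hNT : 4 * (T + 2) ≤ N := hN₁.trans (by exact_mod_cast hNN)
  have hL := hp.cellL (L := Kt.L p.k) hβ rfl (fun _ => rfl) (hlaw p.k) (hlow p.k) plt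
  obtain ⟨ζ, hζ⟩ : ∃ ζ, ζ = msh p.X N M := ⟨_, rfl⟩
  have hX := hL.pos
  have hζ0 : 0 < ζ := by rw [hζ]; exact msh_pos hX hN1
  have hN1' : (1 : ℝ) ≤ N := by exact_mod_cast hN1
  have hM0 : (0 : ℝ) ≤ M := Nat.cast_nonneg M
  have e1 : N * ((M + 4) * ζ) = p.X := by rw [hζ]; exact msh_mul hN1
  have hMζ : ((M : ℝ) + 4) * ζ ≤ p.X := by
    rw [← e1]
    exact le_mul_of_one_le_left (by positivity) hN1'
  have hdep := hL.dep
  have hwin := hL.win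
  have htop := hL.top
  have hεN : ε * (64 * (N * (M + 4))) ≤ 1 := by
    rw [hε, one_div, inv_mul_le_iff₀ (by positivity)]
    linarith only
  have hθζ : θ * ζ ≤ ζ / 16 := by nlinarith only [hθ1, hζ0]
  -- the distance to the levels
  obtain ⟨t, ht⟩ : ∃ t : Finset (ℕ × ℕ × ℕ), t = (range (M + 1)) ×ˢ (range (M + 1)) ×ˢ range n₀ :=
    ⟨_, rfl⟩
  obtain ⟨δ, hδ, hδt⟩ := exists_pos_le t (fun x => if x ∈ t then
    Kt.L p.k x.2.2 (p.y.1 + p.y.2 + x.1 * msh p.X N M) (p.y.1 + x.2.1 * msh p.X N M) -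
      b x.1 x.2.1 x.2.2 else 1) (by
      rintro ⟨i, j, k⟩
      split_ifs with hx
      · rw [ht, Finset.mem_product, Finset.mem_product, mem_range, mem_range, mem_range] at hx
        have := hnear.up i (by have := hx.1; simp only at this; omega) j
          (by have := hx.2.1; simp only at this; omega) k
          (by have := hx.2.2; simp only at this; omega)
        simp only
        linarith only [this]
      · exact one_pos)
  refine hL.nonewX (G := Kt.grid K' s₁ sh p N M θ b e) (A := 1) (N := N) (M := M) (δ := δ) hN1 hNT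
    hε0.le hεN hpos (fun J F => Kt.rc p N M θ J F) rfl rfl rfl rfl rfl hK' le_rfl hN1 hδ hη
    ?_ ?_ ?_ (XN := XN p N M θ) (hno p N θ) ?_
  · intro i hi j hj
    have h1 := hnear.up i hi j hj n₀ le_rfl
    have h2 := hnear.lo i hi j hj n₀ le_rfl
    change |b i j n₀ - _| ≤ _
    rw [← hζ] at h1 h2 ⊢
    rw [abs_le]
    constructor
    · linarith only [h2, hθζ]
    · linarith only [h1, hζ0]
  · intro i hi j hj k hk
    have hx : (i, j, k) ∈ t := by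
      rw [ht, Finset.mem_product, Finset.mem_product, mem_range, mem_range, mem_range]
      exact ⟨by simp only; omega, by simp only; omega, by simp only; omega⟩
    have h1 := hδt (i, j, k) hx
    rw [if_pos hx] at h1
    simp only at h1
    change b i j k ≤ _
    linarith only [h1]
  · intro i hi j hj k hk
    have h2 := hnear.lo i hi j hj k hk
    rw [← hζ] at h2
    have hi' : (i : ℝ) ≤ M := by exact_mod_cast hi
    have hj' : (j : ℝ) ≤ M := by exact_mod_cast hj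
    have i0 : 0 ≤ (i : ℝ) * ζ := by positivity
    have j0 : 0 ≤ (j : ℝ) * ζ := by positivity
    have i1 : (i : ℝ) * ζ ≤ M * ζ := mul_le_mul_of_nonneg_right hi' hζ0.le
    have j1 : (j : ℝ) * ζ ≤ M * ζ := mul_le_mul_of_nonneg_right hj' hζ0.le
    have h3 := hlow p.k k hk (p.y.1 + p.y.2 + i * ζ) (p.y.1 + j * ζ)
      (by linarith only [hwin, hX, j0]) (by linarith only [hMζ, hdep, i0, j1, hζ0])
      (by linarith only [htop, hMζ, i1, hζ0, hX])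
    change 0 ≤ b i j k
    linarith only [h2, h3, hθζ, hMζ, hdep, hwin, i0, hζ0, hX, mul_nonneg hM0 hζ0.le]
  · intro i hi j hj
    exact plink b e hnear i hi j hj

/-- **No new label**, if the levels are thresholds of the chains with restricted sides. -/
theorem Kit.no_of_B {S : PCl m}
    (hpos : ∀ (τ : ℝ) (J : ℕ) (F : Fam m J) (A : F.Ω → Prop), S.St τ J F A → 0 < Pe F.p A)
    (Kt : Kit m ι n₀) (hlaw : ∀ k, ∀ l ≤ n₀, Law (Kt.L k l))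
    (hlow : ∀ k, ∀ l ≤ n₀, ∀ a w : ℝ, 0 ≤ w → w ≤ a → a ≤ 1 → a ≤ Kt.L k l a w)
    {ρ : ℝ → ℝ} {Ad : ℝ → ι → ℝ → ℝ → ℝ → Prop} {df : ι → ℝ → ℝ → ℝ} (hβ : 0 < β)
    {K' s₁ : ℕ} {sh : ℕ → ℕ} (hK' : 1 ≤ K')
    (flt : EvC (Kt.box ρ Ad df) c β T h fun p => ∀ l < n₀, Nw (Kt.L p.k l) p.y + 4 * p.X ≤ 1)
    {be P : ι → List (Fin m) × Fin m → ℝ → ℝ → ℝ}
    (hP : ∀ k, ThrOf (chsysB m none (be k)) S (P k))
    (hLP : ∀ k, ∀ a w : ℝ, bet (P k) (Kt.cs k) n₀ a w = Kt.L k n₀ a w)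
    (hLβ : ∀ k, ∀ l < n₀, ∀ a w : ℝ, bet (be k) (Kt.cs k) l a w = Kt.L k l a w)
    {M K'' : ℕ} {η' : ℝ} (hη : 0 < η') :
    EvN (Kt.box ρ Ad df) c β T h fun N θ p =>
      Kt.FldN S K' s₁ sh M N θ p fun G J F D q => ∀ i ≤ G.M, ∀ j ≤ G.M,
        ¬ (G.nd D (Kt.rc p N M θ J F)).NewLab2 J (up G.α J) (up G.ϖ J) (up G.ζ J) i j G.n 1 K''
          η' q :=
  Kt.no_of hpos hlaw hlow hβ hK' flt (XN := fun _ _ _ _ _ _ _ _ _ _ _ _ => True) hη
    (fun p N θ K a w h δ h1 h2 h3 h4 h5 h6 =>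
      Bas.mono 0 (CellL.no_of_B (hP p.k) (hLP p.k) (hLβ p.k) K a w h δ h1 h2 h3 h4 h5 h6)
        fun _ _ _ _ h7 a₀ w₀ e₀ g Gc Hc h8 h9 _ => h7 a₀ w₀ e₀ g Gc Hc h8 h9)
    ⟨0, fun _ _ => ⟨1, one_pos, fun _ _ _ => EvC.of fun _ _ _ _ _ _ _ _ => ⟨1, one_pos, 0,
      fun _ _ _ _ _ _ _ _ _ _ _ _ _ => trivial⟩⟩⟩

end Pool.STAT
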