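import Pool.Agent.H78.MIC.GenX
import Pool.Agent.H78.MIC.IsoF

/-!
# The boxes of the rows, joint properties

`EvP.sub`, `EvQ.sub`: fewer cells. `KitP.FldN.setW`: fields for the kit with another joint property.
`noBS_of_kinds`: the absence of boxes, finitely many kinds of boxes.
`factIX`: the facts of a class for the boxes of the rows, all sides are the fattest: from the labels
of the grid with charts which do not depend on the radius, exactness given the closed labels, the rows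
and the joint property. The axioms `Ok2` are proved (helper40: `gd_iso`, `ok_iso`).
-/

set_option autoImplicit false

namespace Pool.STAT

open Finset MvPolynomial
open Pool.Agent.H49.Ent Pool.Agent.H32.Dense Pool.STK Pool.KS3 Pool.KA Pool.KSAT Pool.PB Pool.GEN
open Pool.K2S Pool.S6C
open Pool.LEV (Law Lv)
open Pool.STR (Affn Nw NfB AffB CellD)
open Pool.RTS (iso Diag)
open Pool.CHT (bet TmH)
open Pool.CHB (chsysB)
open Pool.LBT (ThrOf)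
open CLO Pool.MIC6

variable {Θ : Type*} {I I' : ℝ → Θ → Prop} {m n₀ : ℕ}

/-! ### Fewer cells, other joint properties -/

theorem EvP.sub {Ψ : Θ → Prop} (h : EvP I Ψ) (hs : ∀ ε p, I' ε p → I ε p) : EvP I' Ψ := by
  obtain ⟨ε, h1, h2⟩ := h
  exact ⟨ε, h1, fun p hp => h2 p (hs ε p hp)⟩

theorem EvQ.sub {Ψ : ℕ → ℝ → Θ → Prop} (h : EvQ I Ψ) (hs : ∀ ε p, I' ε p → I ε p) : EvQ I' Ψ := by
  obtain ⟨N₁, h1⟩ := h
  refine ⟨N₁, fun N hN => ?_⟩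
  obtain ⟨θ₀, hθ₀, h1⟩ := h1 N hN
  exact ⟨θ₀, hθ₀, fun θ h3 h4 => (h1 θ h3 h4).sub hs⟩

/-- **Fields for the kit with another joint property.** -/
theorem KitP.FldN.setW {Kt : KitP m Θ n₀} {S : PCl m} {K' s₁ : ℕ} {sh : ℕ → ℕ} {M N : ℕ} {θ : ℝ}
    {p : Θ} {Φ : RW m → FldT m} {W : Θ → ℕ → ℕ → ℝ → GrdP m} {her : ∀ p N M θ, (W p N M θ).Her}
    (h : Kt.FldN S K' s₁ sh M N θ p Φ)
    (hW : ∀ (J : ℕ) (F : Fam m J) (D : GDat F) (A : F.Ω → Prop),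
      W p N M θ J F D A → Kt.W p N M θ J F D A)
    (hΦ : ∀ (b : ℕ → ℕ → ℕ → ℝ) (e : ℕ → ℕ → ℝ) (J : ℕ) (F : Fam m J) (D : GDat F)
      (q : F.Ω → ℝ), Φ (Kt.grid K' s₁ sh p N M θ b e) J F D q →
      Φ ((Kt.setW W her).grid K' s₁ sh p N M θ b e) J F D q) :
    (Kt.setW W her).FldN S K' s₁ sh M N θ p Φ :=
  fun b e hb => Bas.mono 0 (h b e hb) fun J _ F A h1 D hD =>
    hΦ b e J F D _ (h1 D ⟨hD.1, hW J F D A hD.2⟩)

variable {P : ℝ → ℝ → ℝ} {ρ : ℝ → ℝ}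

/-- **No boxes**, finitely many kinds of boxes. -/
theorem noBS_of_kinds {E : CellD P ρ} (H : ∀ c β h : ℝ, 0 < c → 0 < β → 0 < h → ∃ M : ℝ, 0 < M ∧
    ∃ (ι : Type) (_ : Finite ι) (f : BS E → ι), ∀ x : ι,
      EvP (fun ε p => IsBS E c β h M ε p ∧ f p = x) fun _ => False) : E.NoBS := by
  refine noBS_of_evP fun c β h hc hβ hh => ?_
  obtain ⟨M, hM, ι, hι, f, h1⟩ := H c β h hc hβ hh
  exact ⟨M, hM, EvP.cases (isBS_mono E c β h M) h1⟩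

variable {c β h M : ℝ}

/-- The rows of a box, for another rate which grows at most as fast. -/
theorem nfB_rate {r r' : ℝ → ℝ} (hr : ∀ a b : ℝ, a ≤ b → r' b - r' a ≤ r b - r a)
    {h η A B : ℝ} (h1 : NfB r h η A B) : NfB r' h η A B :=
  fun Q₁ Q₂ a1 a2 a3 => (hr Q₁ Q₂ a2).trans (h1 Q₁ Q₂ a1 a2 a3)

/-- **The facts of a class for the boxes of the rows**, joint property. -/
theorem factIX {E : CellD P ρ} {S : PCl m} (hS : TmH S)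
    (Kt : KitS m E n₀) (hinj : ∀ k, Inj (Kt.cs k) (n₀ + 1)) {K' s₁ : ℕ} {sh : ℕ → ℕ}
    (hK' : 1 ≤ K') (hc : 0 < c) (hβ : 0 < β) (hPd : Diag fun a => P a a)
    (hD : ∀ o j, Diag (E.D o j))
    (hlt : EvP (IsBS E c β h M) fun p => ∀ l < n₀, E.D p.k.2 (Kt.jx p.k.2 l) p.g + c ≤ 1)
    -- the kind of the boxes
    {I' : ℝ → BS E → Prop} (hI' : MonoI I') (hsub : ∀ ε p, I' ε p → IsBS E c β h M ε p)
    {Qc : CondN} (hQ : EvP I' fun p => Qc (fun _ => 1)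
      (gamS (n₀ + 1) (Kt.kit.la p) (Kt.kit.ml p)))
    -- the labels of the grid
    (hRT : ∀ p N M θ (J : ℕ) (F : Fam m J) (D : GDat F) (i j : ℕ),
      Subsingleton (Kt.RT p N M θ J F D i j))
    (hcom : ∀ p N M θ (J : ℕ) (F : Fam m J) (D : GDat F) (A : F.Ω → Prop),
      Kt.W p N M θ J F D A → OKI.Cmn D M)
    (grd : ∀ M' : ℕ, EvQ I' fun N θ p => ∃ (b : ℕ → ℕ → ℕ → ℝ) (e : ℕ → ℕ → ℝ),
      Kt.kit.Near p N M' θ b e ∧
        Lg S fun _ F A => ∃ D : GDat F, (Kt.kit.grid K' s₁ sh p N M' θ b e).Ok F D A)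
    -- exactness
    (exc : ∀ k : ℝ, 0 < k → ∀ M' : ℕ, EvQ I' fun N θ p =>
      Kt.kit.FldN S K' s₁ sh M' N θ p fun G J F D q =>
        ExC D G.c G.n G.sh (Kt.kit.rc p N M' θ J F D) (up G.ϖ J) (up G.ζ J) G.M (G.gn J)
          (k * up G.ζ J) q)
    -- the rows and the joint property, given the axioms `Ok2`
    {X : ExtX} {PB : ℕ → Prop} {h₁ : ℝ}
    (hext : ∀ (W : BS E → ℕ → ℕ → ℝ → GrdP m) (her : ∀ p N M θ, (W p N M θ).Her),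
      (∀ p N M θ (J : ℕ) (F : Fam m J) (D : GDat F) (A : F.Ω → Prop),
        W p N M θ J F D A → Kt.W p N M θ J F D A) →
      (∃ C₅ : ℝ, ∀ C₁ ≥ C₅, ∀ κ : ℝ, 0 < κ → ∀ M' : ℕ, EvQ I' fun N θ p =>
        (Kt.kit.setW W her).FldN S K' s₁ sh M' N θ p fun G J F D q =>
          ((Kt.kit.setW W her).nd p N M' θ G F D).Ok2 G.n G.K' J
            (up G.α J) (up G.ϖ J) (up G.ζ J) G.M (lamS (n₀ + 1) (Kt.kit.ml p))
            (gamS (n₀ + 1) (Kt.kit.la p) (Kt.kit.ml p)) κ C₁ q) →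
      (∃ C₃ : ℝ, ∀ C₁ ≥ C₃, ∃ B : ℕ, 1 ≤ B ∧ PB B ∧ ∀ M' : ℕ, EvQ I' fun N θ p =>
        (Kt.kit.setW W her).FldN S K' s₁ sh M' N θ p fun G J F D q =>
          ((Kt.kit.setW W her).nd p N M' θ G F D).NF1 G.n (up G.ζ J) G.M B
            (gamS (n₀ + 1) (Kt.kit.la p) (Kt.kit.ml p)) h₁ C₁ q) ∧
      ∃ C₄ : ℝ, ∀ C₁ ≥ C₄, ∀ B : ℕ, 1 ≤ B → PB B → ∀ (M' Q K'' : ℕ) (η' κ : ℝ), 0 < η' →
        0 < κ → EvQ I' fun N θ p => (Kt.kit.setW W her).FldN S K' s₁ sh M' N θ p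
          fun G J F D q => X.nb B (lamS (n₀ + 1) (Kt.kit.ml p))
            (gamS (n₀ + 1) (Kt.kit.la p) (Kt.kit.ml p)) G.n J (up G.α J) (up G.ϖ J)
            (up G.ζ J) G.M Q K'' η' κ C₁ ((Kt.kit.setW W her).nd p N M' θ G F D) q) :
    ∃ (W : BS E → ℕ → ℕ → ℝ → GrdP m) (her : ∀ p N M θ, (W p N M θ).Her),
      FactX (Kt.kit.setW W her) S I' X Qc PB h₁ K' s₁ sh := by
  have hI := isBS_mono E c β h M
  have fcel : ∀ ε' : ℝ, 0 < ε' → EvP I' fun p => CellL (n₀ + 1) (Kt.kit.L p) ε' (1 / c + 1)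
      (Kt.kit.y p) (Kt.kit.X p) (Kt.kit.la p) (Kt.kit.ml p) := fun ε' hε' =>
    (KitS.cel (Kt := Kt) (M := M) (h := h) hc hβ hPd hD (KitS.hlt_of hc hlt) ε' hε').sub hsub
  have hml : ∀ (p : BS E), ∀ l < n₀ + 1, Kt.kit.ml p l = 1 := fun _ _ _ => rfl
  obtain ⟨Bc, hV⟩ := hV_iso hI' hS Kt.kit hml (fun p => hinj p.k) hK' hcom fcel exc
  obtain ⟨W, hW⟩ : ∃ W : BS E → ℕ → ℕ → ℝ → GrdP m, W = fun p N M θ J F D A =>
      Kt.kit.W p N M θ J F D A ∧ Kt.kit.Wgd Bc p N M θ J F D A := ⟨_, rfl⟩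
  have her : ∀ p N M θ, (W p N M θ).Her := by
    intro p N M θ
    rw [hW]
    exact GrdP.Her.and (Kt.kit.her p N M θ) (Kt.kit.wgd_her Bc p N M θ)
  have hWs : ∀ p N M θ (J : ℕ) (F : Fam m J) (D : GDat F) (A : F.Ω → Prop),
      W p N M θ J F D A → Kt.kit.W p N M θ J F D A := by
    intro p N M θ J F D A h1
    rw [hW] at h1
    exact h1.1
  have ok2 := ok2_iso hI' hS.1 (Kt.kit.setW W her) hml (fun p => hinj p.k) (s₁ := s₁) (sh := sh)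
    hK' hRT (fun p N M θ J F D A h1 => hcom p N M θ J F D A (hWs p N M θ J F D A h1)) (Bc := Bc)
    (fun p N M θ J F D A h1 => by
      have h2 : W p N M θ J F D A := h1
      rw [hW] at h2
      exact h2.2) fcel
    (fun k hk M' => (exc k hk M').mono fun N θ p h1 => h1.setW (hWs p N M' θ)
      fun _ _ _ _ _ _ h2 => h2)
  obtain ⟨hnf, hx⟩ := hext W her hWs ok2
  refine ⟨W, her, ⟨1 / c + 1, β, hβ, fcel, ?_⟩, ?_, ok2, hnf, hx⟩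
  · refine (((KitS.gam (Kt := Kt) (c := c) (β := β) (h := h) (M := M)).sub hsub).and hI'
      hQ).mono fun p hp => ⟨hp.1, ?_⟩
    show Qc (lamS (n₀ + 1) (Kt.kit.ml p)) _
    rw [KitS.lamS_one]
    exact hp.2
  · intro M'
    exact grd_and hI' (fun p N M θ J F D A h1 h2 => by
      rw [hW]
      exact ⟨h1, h2⟩) (grd M') (hV M')

/-- **The rows**, from exactness and the axioms `Ok2`: the field of the rows in `factIX`. -/
theorem nf_IX {E : CellD P ρ} {S : PCl m} (hS : TmH S) (hZ : Bas S (fun _ F _ => Zc F))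
    (Kt : KitS m E n₀) (hinj : ∀ k, Inj (Kt.cs k) (n₀ + 1))
    (hcov : ∀ k, ∀ i : Fin m, i ≠ Kt.cs k n₀ → ∃ l < n₀, Kt.cs k l = i) {r' : ℝ → ℝ}
    (hR : ∀ k, Pool.ALL.RateOf S (Kt.cs k n₀) r') {K' s₁ : ℕ} {sh : ℕ → ℕ} (hK' : 1 ≤ K')
    (hc : 0 < c) (hβ : 0 < β) (hPd : Diag fun a => P a a) (hD : ∀ o j, Diag (E.D o j))
    (hlt : EvP (IsBS E c β h M) fun p => ∀ l < n₀, E.D p.k.2 (Kt.jx p.k.2 l) p.g + c ≤ 1)
    {I' : ℝ → BS E → Prop} (hI' : MonoI I') (hsub : ∀ ε p, I' ε p → IsBS E c β h M ε p)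
    (exc : ∀ k : ℝ, 0 < k → ∀ M' : ℕ, EvQ I' fun N θ p =>
      Kt.kit.FldN S K' s₁ sh M' N θ p fun G J F D q =>
        ExC D G.c G.n G.sh (Kt.kit.rc p N M' θ J F D) (up G.ϖ J) (up G.ζ J) G.M (G.gn J)
          (k * up G.ζ J) q) {h₁ : ℝ} (hh : 0 < h₁) (hh1 : h₁ ≤ 1)
    (frow : ∀ ε' : ℝ, 0 < ε' → EvP I' fun p => NfB r' h₁ (ε' * Kt.kit.X p)
      (Kt.kit.L p n₀ ((Kt.kit.y p).1 + (Kt.kit.y p).2) (Kt.kit.y p).1 - Kt.kit.X p)
      (Kt.kit.L p n₀ ((Kt.kit.y p).1 + (Kt.kit.y p).2) (Kt.kit.y p).1 + 2 * Kt.kit.X p))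
    {W : BS E → ℕ → ℕ → ℝ → GrdP m} {her : ∀ p N M θ, (W p N M θ).Her}
    (hWs : ∀ p N M θ (J : ℕ) (F : Fam m J) (D : GDat F) (A : F.Ω → Prop),
      W p N M θ J F D A → Kt.W p N M θ J F D A)
    (ok2 : ∃ C₅ : ℝ, ∀ C₁ ≥ C₅, ∀ κ : ℝ, 0 < κ → ∀ M' : ℕ, EvQ I' fun N θ p =>
        (Kt.kit.setW W her).FldN S K' s₁ sh M' N θ p fun G J F D q =>
          ((Kt.kit.setW W her).nd p N M' θ G F D).Ok2 G.n G.K' J
            (up G.α J) (up G.ϖ J) (up G.ζ J) G.M (lamS (n₀ + 1) (Kt.kit.ml p))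
            (gamS (n₀ + 1) (Kt.kit.la p) (Kt.kit.ml p)) κ C₁ q) :
    ∃ C₃ : ℝ, ∀ C₁ ≥ C₃, ∃ B : ℕ, 1 ≤ B ∧ True ∧ ∀ M' : ℕ, EvQ I' fun N θ p =>
        (Kt.kit.setW W her).FldN S K' s₁ sh M' N θ p fun G J F D q =>
          ((Kt.kit.setW W her).nd p N M' θ G F D).NF1 G.n (up G.ζ J) G.M B
            (gamS (n₀ + 1) (Kt.kit.la p) (Kt.kit.ml p)) h₁ C₁ q := by
  have fcel : ∀ ε' : ℝ, 0 < ε' → EvP I' fun p => CellL (n₀ + 1) (Kt.kit.L p) ε' (1 / c + 1)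
      (Kt.kit.y p) (Kt.kit.X p) (Kt.kit.la p) (Kt.kit.ml p) := fun ε' hε' =>
    (KitS.cel (Kt := Kt) (M := M) (h := h) hc hβ hPd hD (KitS.hlt_of hc hlt) ε' hε').sub hsub
  obtain ⟨C₃, h1⟩ := nf_E hI' hS.1 hZ (Kt.kit.setW W her) (fun p => hinj p.k)
    (fun p => hcov p.k) (fun p => hR p.k) (s₁ := s₁) (sh := sh) hK' hh hh1 frow fcel
    (fun k hk M' => (exc k hk M').mono fun N θ p h1 => h1.setW (hWs p N M' θ)
      fun _ _ _ _ _ _ h2 => h2) ok2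
  refine ⟨C₃, fun C₁ hC₁ => ?_⟩
  obtain ⟨B, hB, h2⟩ := h1 C₁ hC₁
  exact ⟨B, hB, trivial, h2⟩

end Pool.STAT
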